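import Pool.Agent.P.MP_f1a348_lc.LS.DefsP
import Pool.Agent.P.MP_f1a348_lc.TO.XFINX
import Pool.Agent.P.MP_f1a348_lc.TO.XFTIME

/-! Step MPARSE. -/

set_option autoImplicit false
set_option linter.unusedSectionVars false

namespace Pool.Agent.P.MP_f1a348_lc.LS

open Module Submodule Pool.Agent.Lib.Helper47 Pool.Agent.P.MP_f1a348_lc.GI Pool.Agent.Lib.Helper33

namespace MPARSEx

variable {p k : ℕ} [Fact p.Prime]

theorem cv_inj : Function.Injective (cv : Vk p k → Vc) := fun _ _ h =>
  funext fun i => ZMod.val_injective p (congrFun (List.ofFn_injective h) i)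

theorem vec_bij : Function.Bijective fun i : Fin (p ^ k) => vec p k i := by
  refine (Fintype.bijective_iff_injective_and_card _).2 ⟨fun i j h => ?_, by simp⟩
  refine finFunctionFinEquiv.symm.injective (funext fun l => Fin.ext ?_)
  have := congrArg ZMod.val (congrFun h l)
  simpa only [vec, ZMod.val_natCast, finFunctionFinEquiv_symm_apply_val] using this

theorem le_pow : k ≤ p ^ k := (Nat.lt_pow_self (Fact.out : p.Prime).one_lt).le

theorem prime_eq (hk : 1 ≤ k) : primeN (List.range (p ^ k)) = p := by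
  have hp : p.Prime := Fact.out
  have h2 := hp.two_le
  have h3 : p ≤ p ^ k := Nat.le_self_pow (by omega) p
  have h : (List.range (p ^ k)).find? (fun d => (List.range (p ^ k)).length % (d + 2) == 0) =
      some (p - 2) := by
    rw [List.find?_range_eq_some, List.length_range]
    refine ⟨?_, List.mem_range.2 (by omega), fun j hj => ?_⟩
    · rw [Nat.sub_add_cancel h2, beq_iff_eq]
      exact Nat.mod_eq_zero_of_dvd (dvd_pow_self p (by omega))
    · rw [Bool.not_eq_true', beq_eq_false_iff_ne]
      intro e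
      obtain ⟨i, -, hi⟩ := (Nat.dvd_prime_pow hp).1 (Nat.dvd_of_mod_eq_zero e)
      rcases Nat.eq_zero_or_pos i with rfl | h0
      · simp at hi
      · have := Nat.le_self_pow h0.ne' p
        omega
  rw [primeN, h, Option.getD_some, Nat.sub_add_cancel h2]

theorem idx_eq : idxN (List.range (p ^ k)) p = List.range k := by
  have hp : 1 < p := (Fact.out : p.Prime).one_lt
  have h : idxN (List.range (p ^ k)) p = (List.range (p ^ k)).filter (fun i => decide (i < k)) := by
    refine List.filter_congr fun i hi => ?_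
    rw [List.length_take, List.length_range, min_eq_left (List.mem_range.1 hi).le,
      Bool.eq_iff_iff, Nat.blt_eq, Nat.pow_lt_pow_iff_right hp, decide_eq_true_iff]
  obtain ⟨m, hm⟩ := Nat.exists_eq_add_of_le (le_pow (p := p) (k := k))
  rw [h, hm, List.range_add, List.filter_append, List.filter_eq_self.2, List.filter_eq_nil_iff.2,
    List.append_nil]
  · intro a ha
    obtain ⟨b, _, rfl⟩ := List.mem_map.1 ha
    simp
  · intro a ha
    simpa using ha

theorem tb (g : Vk p k → Fin (p ^ k) → Bool) (x : List Bool) (off : ℕ)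
    (hx : ∀ i t : Fin (p ^ k), x.getD (off + (i * p ^ k + t)) false = g (vec p k i) t) :
    TbOf (tabN (List.range (p ^ k)) p x off) fun v => List.ofFn (g v) := by
  have h : tabN (List.range (p ^ k)) p x off =
      (List.range (p ^ k)).map fun i => (cv (vec p k i), List.ofFn (g (vec p k i))) := by
    refine List.map_congr_left fun i hi => Prod.ext ?_ ?_
    · refine List.ext_getElem (by simp [idx_eq, cv]) fun l h1 h2 => ?_
      have hl : l < k := by simpa [cv] using h2
      have := le_pow (p := p) (k := k)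
      simp [idx_eq, cv, vec, ZMod.val_natCast, min_eq_left (show l ≤ p ^ k by omega)]
    · refine List.ext_getElem (by simp) fun t h1 h2 => ?_
      have ht : t < p ^ k := by simpa using h2
      simpa using hx ⟨i, List.mem_range.1 hi⟩ ⟨t, ht⟩
  rw [h]
  refine ⟨?_, fun e => ?_⟩
  · rw [List.map_map]
    exact List.nodup_range.map_on fun i hi j hj e => congrArg Fin.val
      (vec_bij.1 (a₁ := ⟨i, List.mem_range.1 hi⟩) (a₂ := ⟨j, List.mem_range.1 hj⟩) (cv_inj e))
  · rw [List.mem_map]
    refine ⟨fun ⟨i, _, e⟩ => ⟨_, e.symm⟩, fun ⟨v, e⟩ => ?_⟩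
    obtain ⟨i, rfl⟩ := vec_bij.2 v
    exact ⟨i, List.mem_range.2 i.2, e.symm⟩

end MPARSEx

-- `ordN = p ^ k` as in `TO.FX.parse_eq` (`countP_range_lt`); `primeN = p` (`find?` on a range returns the least element; a divisor `≥ 2`
-- of `p ^ k` is a multiple of `p`); `idxN = range k` (`k ≤ p ^ k`); `i ↦ vec p k i` is a bijection `Fin (p ^ k) → Vk p k`
-- (`finFunctionFinEquiv`, or injective by `Nat.ofDigits` / strong induction and count); `cv (vec p k i)` is the list of digits
theorem inpOf_parse {p k : ℕ} [Fact p.Prime] (hk : 1 ≤ k)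
    (f f' : (Fin k → ZMod p) → Fin (p ^ k) → Bool) :
    InpOf (parse (strBits f ++ strBits f')) (fun v => List.ofFn (f v)) (fun v => List.ofFn (f' v)) := by
  have hs : ∀ g : (Fin k → ZMod p) → Fin (p ^ k) → Bool, (strBits g).length = p ^ k * p ^ k :=
    fun g => List.length_ofFn
  have hg : ∀ (g : (Fin k → ZMod p) → Fin (p ^ k) → Bool) (a b : Fin (p ^ k)),
      (strBits g).getD (a * p ^ k + b) false = g (vec p k a) b :=
    fun g a b => TO.FX.arcBits_getD (fun a b => g (vec p k a) b) a b
  have hl : (strBits f ++ strBits f').length = 2 * (p ^ k * p ^ k) := by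
    rw [List.length_append, hs, hs]; ring
  have ho : ordN (strBits f ++ strBits f') = p ^ k := by
    rw [ordN, hl]
    refine TO.FX.countP_range_lt _ _ (by have := Nat.le_mul_self (p ^ k); omega) _ (fun i => ?_)
    rw [Nat.ble_eq]
    have := Nat.mul_self_le_mul_self_iff (m := i + 1) (n := p ^ k)
    omega
  have hb : ∀ a b : Fin (p ^ k), a * p ^ k + b < p ^ k * p ^ k := fun a b => by
    nlinarith [a.2, b.2]
  rw [parse, ho, MPARSEx.prime_eq hk]
  refine ⟨hk, ?_, MPARSEx.idx_eq, MPARSEx.tb f _ _ fun a b => ?_, MPARSEx.tb f' _ _ fun a b => ?_⟩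
  · rw [List.take_range, min_eq_left (Nat.le_self_pow (by omega) p)]
  · rw [zero_add, List.getD_append _ _ _ _ (by rw [hs]; exact hb a b), hg]
  · rw [List.getD_append_right _ _ _ _ (by rw [hs]; omega), hs, Nat.add_sub_cancel_left, hg]

theorem length_strBits {p k : ℕ} (f : (Fin k → ZMod p) → Fin (p ^ k) → Bool) :
    (strBits f).length = p ^ k * p ^ k := by
  exact List.length_ofFn

theorem TbOf.length {p k : ℕ} [Fact p.Prime] {s : Tb} {f : Vk p k → List Bool} (h : TbOf s f) :
    s.length = p ^ k := by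
  have h1 : (s.map Prod.fst).toFinset = Finset.univ.image (cv : Vk p k → Vc) := by
    ext c
    simp only [List.mem_toFinset, List.mem_map, h.mem, Finset.mem_image, Finset.mem_univ, true_and]
    exact ⟨fun ⟨_, ⟨v, e⟩, e'⟩ => ⟨v, by rw [← e', e]⟩, fun ⟨v, e⟩ => ⟨_, ⟨v, rfl⟩, e⟩⟩
  rw [← List.length_map Prod.fst, ← List.toFinset_card_of_nodup h.nd, h1,
    Finset.card_image_of_injective _ MPARSEx.cv_inj]
  simp

end Pool.Agent.P.MP_f1a348_lc.LS
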