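import Pool.Agent.P.MP_f1a348_lc.LS.DefsP
import Pool.Agent.P.MP_f1a348_lc.TO.XFINX
import Pool.Agent.P.MP_f1a348_lc.TO.XFTIME

/-! Step MPT. -/

set_option autoImplicit false
set_option linter.unusedSectionVars false

namespace Pool.Agent.P.MP_f1a348_lc.LS

open Module Submodule Pool.Agent.Lib.Helper47 Pool.Agent.P.MP_f1a348_lc.GI Pool.Agent.Lib.Helper33

namespace MPTx
variable {α β : Type} [Enc α] [Enc β]

@[fun_prop] theorem pt_powLen {q : α → ℕ} {l : α → List β} (hq : PT q) (hl : PT l) :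
    PT (fun a => q a ^ (l a).length) :=
  PT.pow hq (PT.length hl) (ps_len hl)

theorem pt_ordN : PT ordN := by
  have := PT.rangeLength (PT.id (α := List Bool))
  unfold ordN; fun_prop

@[fun_prop] theorem pt_primeN {R : α → List ℕ} (hR : PT R) : PT (fun a => primeN (R a)) := by
  unfold primeN; fun_prop

@[fun_prop] theorem pt_idxN {R : α → List ℕ} {q : α → ℕ} (hR : PT R) (hq : PT q) :
    PT (fun a => idxN (R a) (q a)) := by
  unfold idxN
  refine PT.filter (PT.blt (pt_powLen ?_ ?_) ?_) hR <;> fun_prop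

@[fun_prop] theorem pt_tabN {R : α → List ℕ} {q : α → ℕ} {x : α → List Bool} {off : α → ℕ}
    (hR : PT R) (hq : PT q) (hx : PT x) (ho : PT off) :
    PT (fun a => tabN (R a) (q a) (x a) (off a)) := by
  unfold tabN
  refine PT.map (PT.prodMk (PT.map (PT.mod (PT.div ?_ (pt_powLen ?_ ?_)) ?_) ?_) ?_) hR <;> fun_prop

end MPTx

open MPTx in
theorem pt_parse : PT parse := by
  have h1 := MPTx.pt_ordN
  have h2 : PT (fun x => List.range (ordN x)) :=
    PT.range_of_le h1 PT.id (fun x => List.countP_le_length.trans (by simp))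
  unfold parse; fun_prop

end Pool.Agent.P.MP_f1a348_lc.LS
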