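import Pool.Agent.P.MP_f1a348_lc.LS.DefsP
import Pool.Agent.P.MP_f1a348_lc.TO.XFINX
import Pool.Agent.P.MP_f1a348_lc.TO.XFTIME

/-! Step MTIME. -/

set_option autoImplicit false
set_option linter.unusedSectionVars false

namespace Pool.Agent.P.MP_f1a348_lc.LS

open Module Submodule Pool.Agent.Lib.Helper47 Pool.Agent.P.MP_f1a348_lc.GI Pool.Agent.Lib.Helper33

-- `TO.p_FTIME (2 * d) ε` gives `E`; use it with `c0' = 2 ^ (E * (c0 + 4)) + E * c0`, `n = p ^ k`. If `p ≤ 2 ^ E` take `j = k / E + c0 + 4`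
-- (`k ≤ E * j`, `p ^ j ≤ n * 2 ^ (E * (c0 + 4))`), else `j = k + 4` (`p ^ j ≤ n ^ 5`, `2 ^ (E * k) ≤ n`). In both cases the base is at most
-- `(fM n c0' + 2) ^ 2` and `j + 1 ≤ fJ n E c0' + 8` (`Nat.le_log_iff_pow_le` or `Nat.pow_le_iff_le_log`)
theorem time_bound (d : ℕ) (ε : ℝ) (hε : 0 < ε) : ∃ E : ℕ, ∀ c0 : ℕ, ∃ C : ℝ, ∀ p k : ℕ, 2 ≤ p →
    1 ≤ k → ∃ j : ℕ, 4 ≤ j ∧ (k < j ∨ (p ≤ 2 ^ E ∧ k ≤ E * j ∧ c0 ≤ j)) ∧
      (((p ^ k * p ^ k + p ^ j + 2) ^ (d * (j + 1)) : ℕ) : ℝ) ≤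
        C * ((p ^ k : ℕ) : ℝ) ^ (ε * Real.logb 2 (p ^ k : ℕ)) := by
  obtain ⟨E, hE, H⟩ := TO.p_FTIME (2 * d) ε hε
  refine ⟨E, fun c0 => ?_⟩
  obtain ⟨C, hC⟩ := H (2 ^ (E * (c0 + 4)) + E * c0)
  refine ⟨C, fun p k hp hk => ?_⟩
  have hC' := hC (p ^ k)
  generalize hA : 2 ^ (E * (c0 + 4)) = A at hC'
  have hpn : p ≤ p ^ k := Nat.le_self_pow (by omega) p
  have h2n : 2 ^ k ≤ p ^ k := Nat.pow_le_pow_left hp k
  have key : ∀ j : ℕ, p ^ k * p ^ k + p ^ j + 2 ≤ (TO.fM (p ^ k) (A + E * c0) + 2) ^ 2 →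
      j + 1 ≤ TO.fJ (p ^ k) E (A + E * c0) + 8 →
      (((p ^ k * p ^ k + p ^ j + 2) ^ (d * (j + 1)) : ℕ) : ℝ) ≤
        C * ((p ^ k : ℕ) : ℝ) ^ (ε * Real.logb 2 (p ^ k : ℕ)) := fun j h1 h2 => by
    refine le_trans (Nat.cast_le.2 ?_) hC'
    refine (Nat.pow_le_pow_left h1 _).trans ?_
    rw [← pow_mul, mul_assoc]
    exact Nat.pow_le_pow_right (by omega) (Nat.mul_le_mul_left _ (Nat.mul_le_mul_left _ h2))
  have hM : (p ^ k) ^ 3 + p ^ k + A ≤ TO.fM (p ^ k) (A + E * c0) := by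
    unfold TO.fM
    generalize p ^ k = n
    have a1 : n ^ 3 ≤ (n + 2) ^ 3 := Nat.pow_le_pow_left (by omega) 3
    have a2 : n + 2 ≤ (n + 2) ^ 3 := Nat.le_self_pow (by omega) _
    omega
  have hlog : ∀ t : ℕ, 2 ^ t ≤ p ^ k → t ≤ Nat.log 2 (TO.fM (p ^ k) (A + E * c0)) := fun t ht =>
    Nat.le_log_of_pow_le (by omega) (by omega)
  by_cases h : p ≤ 2 ^ E
  · have e1 := Nat.div_add_mod k E
    have e2 := Nat.mod_lt k (show 0 < E by omega)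
    refine ⟨k / E + c0 + 4, Nat.le_add_left _ _, .inr ⟨h, by nlinarith,
      (Nat.le_add_left _ _).trans (Nat.le_add_right _ 4)⟩, key _ ?_ ?_⟩
    · have a1 : p ^ (k / E + c0 + 4) ≤ p ^ k * A := by
        rw [add_assoc, pow_add, ← hA, pow_mul]
        exact Nat.mul_le_mul (Nat.pow_le_pow_right (by omega) (Nat.div_le_self _ _))
          (Nat.pow_le_pow_left h _)
      have a2 : (p ^ k + A + 2) ^ 2 ≤ (TO.fM (p ^ k) (A + E * c0) + 2) ^ 2 :=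
        Nat.pow_le_pow_left (by omega) 2
      nlinarith
    · have a1 := hlog k h2n
      have a2 : (k + E * c0) / E ≤ (Nat.log 2 (TO.fM (p ^ k) (A + E * c0)) + (A + E * c0)) / E :=
        Nat.div_le_div_right (by omega)
      rw [Nat.add_mul_div_left _ _ (show 0 < E by omega)] at a2
      unfold TO.fJ
      omega
  · refine ⟨k + 4, by omega, .inl (by omega), key _ ?_ ?_⟩
    · have a1 : p ^ (k + 4) ≤ p ^ k * (p ^ k) ^ 4 := by
        rw [pow_add]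
        exact Nat.mul_le_mul_left _ (Nat.pow_le_pow_left hpn _)
      have a2 : ((p ^ k) ^ 3 + 2) ^ 2 ≤ (TO.fM (p ^ k) (A + E * c0) + 2) ^ 2 :=
        Nat.pow_le_pow_left (by omega) 2
      generalize p ^ k = n at *
      have a3 : n ^ 5 ≤ n ^ 6 := Nat.pow_le_pow_right (by omega) (by omega)
      have a4 : n ^ 2 ≤ n ^ 3 := Nat.pow_le_pow_right (by omega) (by omega)
      nlinarith
    · have a1 : E * k ≤ Nat.log 2 (TO.fM (p ^ k) (A + E * c0)) := hlog _ (by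
        rw [pow_mul]; exact Nat.pow_le_pow_left (by omega) _)
      have a2 : (E * k) / E ≤ (Nat.log 2 (TO.fM (p ^ k) (A + E * c0)) + (A + E * c0)) / E :=
        Nat.div_le_div_right (by omega)
      rw [Nat.mul_div_cancel_left _ (show 0 < E by omega)] at a2
      unfold TO.fJ
      omega

end Pool.Agent.P.MP_f1a348_lc.LS
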