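import Pool.Agent.P.MP_f1a348_lc.LS.DefsP
import Pool.Agent.P.MP_f1a348_lc.TO.XFINX
import Pool.Agent.P.MP_f1a348_lc.TO.XFTIME
import Pool.Agent.P.MP_f1a348_lc.LS.TMGEN
import Pool.Agent.P.MP_f1a348_lc.LS.TMPT
import Pool.Agent.P.MP_f1a348_lc.LS.TMPARSE
import Pool.Agent.P.MP_f1a348_lc.LS.TMTIME

/-! Step MFIN. -/

set_option autoImplicit false
set_option linter.unusedSectionVars false

namespace Pool.Agent.P.MP_f1a348_lc.LS

open Module Submodule Pool.Agent.Lib.Helper47 Pool.Agent.P.MP_f1a348_lc.GI Pool.Agent.Lib.Helper33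

namespace MFINx

/-- the level is admissible -/
def ok (a : (List Unit × List Unit) × Inp) : Bool :=
  Nat.ble 4 a.1.2.length && Nat.ble ((a.2.2.2.1.length * a.2.2.2.1.length +
    a.2.1.length ^ a.1.2.length + 2) ^ (() :: () :: () :: () :: a.1.2).length) a.1.1.length

theorem pt_ok : PT ok := by
  have h1 : PT (fun a : (List Unit × List Unit) × Inp => a.2.1.length ^ a.1.2.length) :=
    PT.pow (by fun_prop) (by fun_prop) (ps_len (by fun_prop))
  have h : PT (fun a : (List Unit × List Unit) × Inp => (a.2.2.2.1.length * a.2.2.2.1.length +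
      a.2.1.length ^ a.1.2.length + 2) ^ (() :: () :: () :: () :: a.1.2).length) :=
    PT.pow (by fun_prop) (by fun_prop) (ps_len (by fun_prop))
  unfold ok; fun_prop

theorem ok_iff {p k : ℕ} [Fact p.Prime] {f f' : Vk p k → List Bool} {q : Inp} (h : InpOf q f f')
    (pad lev : List Unit) : ok ((pad, lev), q) = true ↔ 4 ≤ lev.length ∧
      (p ^ k * p ^ k + p ^ lev.length + 2) ^ (lev.length + 4) ≤ pad.length := by
  simp only [ok, Bool.and_eq_true, Nat.ble_eq, h.t1.length, h.rp, List.length_range,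
    List.length_cons]

end MFINx

open MFINx in
theorem final_of_spec {mn : (List Unit × List Unit) × Inp → Option Bool} (h : MSpec mn) : FINAL := by
  classical
  have ha : PT (fun a : (List Unit × List Unit) × Inp => bif ok a then mn a else none) :=
    PT.cond pt_ok h.pt (PT.const none)
  obtain ⟨B, c, d, hB⟩ := machine_gen pt_parse ha
  refine ⟨B.tm, B.e₀, B.e₁, B.fin, fun ε hε => ?_⟩
  obtain ⟨E, hE⟩ := time_bound (8 * d) ε hε
  obtain ⟨c0, hc0⟩ := h.halts E
  obtain ⟨C, hC⟩ := hE c0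
  refine ⟨(c * 4 ^ d : ℕ) * C, fun p k _ hk f f' => ?_⟩
  have hp : 2 ≤ p := (Fact.out : p.Prime).two_le
  obtain ⟨j, hj4, hj, hT⟩ := hC p k hp hk
  have hq := inpOf_parse hk f f'
  have hl : (strBits f ++ strBits f').length = 2 * (p ^ k * p ^ k) := by
    rw [List.length_append, length_strBits, length_strBits]; ring
  generalize strBits f ++ strBits f' = x at hq hl
  obtain ⟨A, hA⟩ : ∃ A, A = p ^ k * p ^ k + p ^ j + 2 := ⟨_, rfl⟩
  have a1 : A ≤ A ^ (8 * (j + 1)) := Nat.le_self_pow (by omega) _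
  have a2 : 2 ^ j ≤ p ^ j := Nat.pow_le_pow_left hp j
  obtain ⟨b, t, hb, ho, ht⟩ := hB x (fun b => b = true ↔ LIso (fun v => List.ofFn (f v))
    (fun v => List.ofFn (f' v))) j (A ^ (8 * (j + 1))) (by omega)
    (fun pad lev b hb => by
      cases e : ok ((pad, lev), parse x) with
      | false => rw [e, cond_false] at hb; cases hb
      | true =>
        rw [e, cond_true] at hb
        obtain ⟨e1, e2⟩ := (ok_iff hq pad lev).1 e
        exact h.sound p k _ _ pad lev _ b hq e1 e2 hb)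
    (fun pad lev e1 e2 => by
      have e3 : A ^ (j + 4) ≤ A ^ (8 * (j + 1)) := Nat.pow_le_pow_right (by omega) (by omega)
      rw [(ok_iff hq pad lev).2 ⟨by omega, by rw [e1, ← hA]; omega⟩, cond_true]
      exact hc0 p k _ _ pad lev _ hq (by omega) (by rw [e1]; exact hj) (by rw [e1, ← hA]; exact e2))
  refine ⟨t, b, ?_, ho, hb.trans ⟨fun ⟨g, hg⟩ => ⟨g, fun v => List.ofFn_injective (hg v)⟩,
    fun ⟨g, hg⟩ => ⟨g, fun v => congrArg List.ofFn (hg v)⟩⟩⟩
  have h2 : t ≤ c * 4 ^ d * A ^ (8 * d * (j + 1)) := by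
    refine ht.trans ((Nat.mul_le_mul_left c (Nat.pow_le_pow_left
      (show _ ≤ 4 * A ^ (8 * (j + 1)) by omega) d)).trans (le_of_eq ?_))
    rw [mul_pow, ← pow_mul]
    ring
  rw [← hA] at hT
  calc (t : ℝ) ≤ ((c * 4 ^ d : ℕ) : ℝ) * ((A ^ (8 * d * (j + 1)) : ℕ) : ℝ) := by exact_mod_cast h2
    _ ≤ (c * 4 ^ d : ℕ) * (C * ((p ^ k : ℕ) : ℝ) ^ (ε * Real.logb 2 (p ^ k : ℕ))) :=
        mul_le_mul_of_nonneg_left hT (Nat.cast_nonneg _)
    _ = _ := by ring

end Pool.Agent.P.MP_f1a348_lc.LS
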