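import Pool.Agent.P.MP_f1a348_lc.LS.DefsW

/-! Step WISO. -/

set_option autoImplicit false
set_option linter.unusedSectionVars false

namespace Pool.Agent.P.MP_f1a348_lc.LS

open Pool.Agent.Lib.Helper47 Pool.Agent.P.MP_f1a348_lc.GI Pool.Agent.Lib.Helper33

variable {p k m : ℕ} [Fact p.Prime] {g g' : GW.Dg} {f f' : Vk p k → Fin m → Bool}
  {ψ ψ' : Nd (Vk p k) m → ℕ}

namespace WISOx

/-- the map on the vertices -/
def mp {V W : Type} (u : V → W) : Nd V m → Nd W m
  | .root => .root
  | .bit i => .bit i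
  | .pt v => .pt (u v)
  | .pair a b => .pair (u a) (u b)

theorem mp_mp {V W : Type} {u : V → W} {w : W → V} (h : ∀ v, w (u v) = v) (a : Nd V m) :
    mp w (mp u a) = a := by
  cases a <;> simp [mp, h]

theorem arc (u : Vk p k ≃ₗ[ZMod p] Vk p k) (h : ∀ v, f' (u v) = f v) {a b : Nd (Vk p k) m}
    (H : StrArc f a b) : StrArc f' (mp u a) (mp u b) := by
  cases H with
  | root i => exact .root i
  | lt i l e => exact .lt i l e
  | col i v e => exact .col i _ (by rw [h, e])
  | fst a b => exact .fst _ _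
  | snd a b => exact .snd _ _
  | add a b =>
    show StrArc f' (.pair (u a) (u b)) (.pt (u (a + b)))
    rw [map_add]
    exact .add _ _

end WISOx

theorem strArc_irrefl (f : Vk p k → Fin m → Bool) (a : Nd (Vk p k) m) : ¬ StrArc f a a := by
  have key : ∀ a b : Nd (Vk p k) m, StrArc f a b → a ≠ b := by
    intro a b H
    cases H with
    | lt i l e => exact fun c => e.ne (Nd.bit.inj c)
    | _ => exact fun c => nomatch c
  exact fun h => key a a h rfl

theorem strArc_iso (u : Vk p k ≃ₗ[ZMod p] Vk p k) (h : ∀ v, f' (u v) = f v) :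
    Nonempty (StrArc f ≃r StrArc f') := by
  refine ⟨⟨⟨WISOx.mp u, WISOx.mp u.symm, WISOx.mp_mp u.symm_apply_apply,
    WISOx.mp_mp u.apply_symm_apply⟩, fun {a b} => ⟨fun H => ?_, WISOx.arc u h⟩⟩⟩
  have := WISOx.arc (f' := f) u.symm (fun v => by rw [← h, u.apply_symm_apply]) H
  rwa [Equiv.coe_fn_mk, WISOx.mp_mp u.symm_apply_apply, WISOx.mp_mp u.symm_apply_apply] at this

theorem card_le_of_iso {n : ℕ} {G : SimpleGraph (Fin n)} (e : G ≃g TO.arcGraph (StrArc f)) :
    p ^ k ≤ n := by
  have := Fintype.card_le_of_injective (fun v : Vk p k => e.symm (Nd.pt v, 0)) fun a b h =>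
    Nd.pt.inj (congrArg Prod.fst (e.symm.injective h))
  simpa using this

end Pool.Agent.P.MP_f1a348_lc.LS
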