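import Pool.Agent.P.MP_f1a348_lc.LS.DefsW
import Pool.Agent.P.MP_f1a348_lc.LS.TMPARSE

/-! Step WNUM. -/

set_option autoImplicit false
set_option linter.unusedSectionVars false

namespace Pool.Agent.P.MP_f1a348_lc.LS

open Pool.Agent.Lib.Helper47 Pool.Agent.P.MP_f1a348_lc.GI Pool.Agent.Lib.Helper33

variable {p k m : ℕ} [Fact p.Prime] {g g' : GW.Dg} {f f' : Vk p k → Fin m → Bool}
  {ψ ψ' : Nd (Vk p k) m → ℕ}

-- see the lemmas in TMPARSE.lean
theorem primeN_range (hk : 1 ≤ k) : primeN (List.range (p ^ k)) = p :=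
  MPARSEx.prime_eq hk

theorem idxN_range (p k : ℕ) [Fact p.Prime] : idxN (List.range (p ^ k)) p = List.range k :=
  MPARSEx.idx_eq

end Pool.Agent.P.MP_f1a348_lc.LS
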