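import Pool.Agent.P.MP_f1a348_lc.LS.DefsW
import Pool.Agent.P.MP_f1a348_lc.LS.TMPT

/-! Step WPT. -/

set_option autoImplicit false
set_option linter.unusedSectionVars false

namespace Pool.Agent.P.MP_f1a348_lc.LS

open Pool.Agent.Lib.Helper47 Pool.Agent.P.MP_f1a348_lc.GI Pool.Agent.Lib.Helper33

variable {p k m : ℕ} [Fact p.Prime] {g g' : GW.Dg} {f f' : Vk p k → Fin m → Bool}
  {ψ ψ' : Nd (Vk p k) m → ℕ}

namespace WPTx
open GW MPTx
variable {α : Type} [Enc α] {d : α → Dg}

@[fun_prop] theorem pt_root (h : PT d) : PT (fun a => root (d a)) := by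
  unfold root; fun_prop

@[fun_prop] theorem pt_bits0 (h : PT d) : PT (fun a => bits0 (d a)) := by
  unfold bits0; fun_prop

@[fun_prop] theorem pt_bits (h : PT d) : PT (fun a => bits (d a)) := by
  have := PT.rangeLength (pt_bits0 h)
  unfold bits; fun_prop

@[fun_prop] theorem pt_pts (h : PT d) : PT (fun a => pts (d a)) := by
  unfold pts; fun_prop

@[fun_prop] theorem pt_add {u v : α → ℕ} (h : PT d) (hu : PT u) (hv : PT v) :
    PT (fun a => add (d a) (u a) (v a)) := by
  unfold add; fun_prop

@[fun_prop] theorem pt_zero (h : PT d) : PT (fun a => zero (d a)) := by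
  unfold zero; fun_prop

theorem size_find (g : Dg) (q : ℕ → Bool) : size (((pts g).find? q).getD 0) ≤ size g.1 := by
  cases e : (pts g).find? q with
  | none => exact size_pos g.1
  | some x => exact (size_lt_of_mem (List.mem_of_mem_filter (List.mem_of_find?_eq_some e))).le

theorem size_mul (g : Dg) (s w : ℕ) (u : List ℕ) (h : size s ≤ size g.1) :
    size (mul g s w u) ≤ size g.1 := by
  induction u generalizing s with
  | nil => exact h
  | cons x u ih => exact ih _ (size_find g _)

@[fun_prop] theorem pt_mul {s w : α → ℕ} {u : α → List ℕ} (h : PT d) (hs : PT s) (hw : PT w)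
    (hu : PT u) : PT (fun a => mul (d a) (s a) (w a) (u a)) :=
  PT.foldl_inv (f := fun a r (_ : ℕ) => add (d a) r (w a)) (by fun_prop) hu hs
    (fun a t => size t ≤ size (s a) + size (d a).1) (fun _ => Nat.le_add_right _ _)
    (fun a _ _ _ _ => (size_find (d a) _).trans (Nat.le_add_left _ _)) _
    (hs.size_le.add (PT.fst h).size_le) fun _ _ h => h

@[fun_prop] theorem pt_fresh {T : α → List (Vc × ℕ)} (h : PT d) (hT : PT T) :
    PT (fun a => fresh (d a) (T a)) := by
  unfold fresh; fun_prop

@[fun_prop] theorem pt_step {r : α → List ℕ} {T : α → List (Vc × ℕ)} (h : PT d) (hr : PT r)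
    (hT : PT T) : PT (fun a => step (d a) (r a) (T a)) := by
  unfold step; fun_prop

theorem inv (g : Dg) (r : List ℕ) (i : ℕ) :
    ((step g r)^[i] [([], zero g)]).length ≤ size g.1 ∧
      ∀ e ∈ (step g r)^[i] [([], zero g)], size e.1 ≤ 1 + i * size r ∧ size e.2 ≤ size g.1 := by
  induction i with
  | zero => exact ⟨size_pos g.1, by simpa [zero] using size_find g _⟩
  | succ i ih =>
    rw [Function.iterate_succ_apply']
    refine ⟨(List.length_take_le _ _).trans (length_lt_size _).le, fun e he => ?_⟩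
    obtain ⟨e', h1, h2⟩ := List.mem_flatMap.1 (List.mem_of_mem_take he)
    obtain ⟨a, h3, rfl⟩ := List.mem_map.1 h2
    have h4 := size_lt_of_mem h3
    have h5 := ih.2 e' h1
    refine ⟨?_, size_mul g _ _ _ h5.2⟩
    rw [size_cons, Nat.succ_mul]
    omega

@[fun_prop] theorem pt_tab {r x : α → List ℕ} (h : PT d) (hr : PT r) (hx : PT x) :
    PT (fun a => tab (d a) (r a) (x a)) := by
  have h1 := (PT.fst h).size_le
  refine PT.iterate (f := fun a T => step (d a) (r a) T) (by fun_prop) hx (by fun_prop)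
    (fun a => size (d a).1 * (size (x a) * size (r a) + size (d a).1 + 3) + 1)
    ((h1.mul (((hx.size_le.mul hr.size_le).add h1).add (PB.const 3))).add (PB.const 1))
    fun a i hi => ?_
  obtain ⟨i1, i2⟩ := inv (d a) (r a) i
  have h2 := Nat.mul_le_mul_right (size (r a)) (hi.trans (length_lt_size _).le)
  refine (size_list_le (B := size (x a) * size (r a) + size (d a).1 + 2) fun e he => ?_).trans
    (Nat.succ_le_succ (Nat.mul_le_mul_right _ i1))
  have := i2 e he
  rw [size_prod]
  omega

@[fun_prop] theorem pt_tbl {r x : α → List ℕ} (h : PT d) (hr : PT r) (hx : PT x) :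
    PT (fun a => GW.tbl (d a) (r a) (x a)) := by
  unfold GW.tbl; fun_prop

@[fun_prop] theorem pt_rp (h : PT d) : PT (fun a => rp (d a)) := by
  have := PT.rangeLength (pt_pts h)
  unfold rp; fun_prop

@[fun_prop] theorem pt_ix (h : PT d) : PT (fun a => ix (d a)) := by
  have := PT.rangeLength (pt_pts h)
  unfold ix; fun_prop

theorem pt_inp : PT inp := by
  unfold inp; fun_prop

end WPTx

theorem GW.pt_parseG : PT GW.parseG :=
  WPTx.pt_inp.comp (TO.GG.pt_dec.comp (PT.snd (PT.snd TO.FX.pt_start)))

end Pool.Agent.P.MP_f1a348_lc.LS
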