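import Pool.Agent.P.MP_f1a348_lc.LS.DefsW

/-! Step WDA. -/

set_option autoImplicit false
set_option linter.unusedSectionVars false

namespace Pool.Agent.P.MP_f1a348_lc.LS

open Pool.Agent.Lib.Helper47 Pool.Agent.P.MP_f1a348_lc.GI Pool.Agent.Lib.Helper33

variable {p k m : ℕ} [Fact p.Prime] {g g' : GW.Dg} {f f' : Vk p k → Fin m → Bool}
  {ψ ψ' : Nd (Vk p k) m → ℕ}

namespace WDAx

theorem find_eq {l : List ℕ} {q : ℕ → Bool} {a : ℕ} (ha : a ∈ l) (hq : q a = true)
    (h : ∀ x ∈ l, q x = true → x = a) : (l.find? q).getD 0 = a := by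
  cases e : l.find? q with
  | none => exact absurd hq (List.find?_eq_none.1 e a ha)
  | some x => exact h x (List.mem_of_find?_eq_some e) (List.find?_some e)

theorem count_lt (i : Fin m) : (List.finRange m).countP (fun l => decide (l < i)) = i := by
  rw [List.countP_eq_length_filter, ← Fin.card_Iio i, ← Finset.filter_gt_eq_Iio]
  rfl

end WDAx

-- `cases` on `StrArc`; a point `v` has the incoming arc from `pair v 0`
theorem GW.Is.root_eq (h : GW.Is g f ψ) : GW.root g = ψ .root := by
  refine WDAx.find_eq ((h.mem _).2 ⟨_, rfl⟩) (List.all_eq_true.2 fun y hy => ?_) fun x hx hq => ?_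
  · obtain ⟨a, rfl⟩ := (h.mem _).1 hy
    simp only [Bool.not_eq_true', List.contains_eq_mem, decide_eq_false_iff_not, h.arc]
    rintro ⟨⟩
  · obtain ⟨b, rfl⟩ := (h.mem _).1 hx
    have e : ∀ a, ¬ StrArc f a b := fun a => by
      simpa only [Bool.not_eq_true', List.contains_eq_mem, decide_eq_false_iff_not, h.arc] using
        List.all_eq_true.1 hq (ψ a) ((h.mem _).2 ⟨_, rfl⟩)
    cases b with
    | root => rfl
    | bit i => exact absurd (.root i) (e _)
    | pt v => exact absurd (by simpa using StrArc.add (f := f) v 0) (e (.pair v 0))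
    | pair u v => exact absurd (.fst u v) (e _)

theorem GW.Is.mem_bits0 (h : GW.Is g f ψ) {x : ℕ} : x ∈ GW.bits0 g ↔ ∃ i, ψ (.bit i) = x := by
  rw [GW.bits0, List.mem_filter, h.root_eq, List.contains_eq_mem, decide_eq_true_eq, h.mem]
  constructor
  · rintro ⟨⟨b, rfl⟩, e⟩
    cases (h.arc _ _).1 e with
    | root i => exact ⟨i, rfl⟩
  · rintro ⟨i, rfl⟩
    exact ⟨⟨_, rfl⟩, (h.arc _ _).2 (.root i)⟩

-- `bits0 g` is a permutation of `List.ofFn (fun i => ψ (.bit i))`; the position `i` has `i` incoming arcs from positions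
theorem GW.Is.bits_eq (h : GW.Is g f ψ) : GW.bits g = List.ofFn (fun i : Fin m => ψ (.bit i)) := by
  have hp : (GW.bits0 g).Perm (List.ofFn fun i : Fin m => ψ (.bit i)) :=
    (List.perm_ext_iff_of_nodup (h.nd.filter _)
      (List.nodup_ofFn.2 fun i j e => Nd.bit.inj (h.inj e))).2 fun x =>
        h.mem_bits0.trans (by rw [List.mem_ofFn])
  have hc : ∀ i : Fin m, (GW.bits0 g).countP (fun y => g.2.contains (y, ψ (.bit i))) = i :=
    fun i => by
      rw [hp.countP_eq, List.ofFn_eq_map, List.countP_map, ← WDAx.count_lt i]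
      refine List.countP_congr fun l _ => ?_
      simp only [Function.comp, List.contains_eq_mem, decide_eq_true_eq, h.arc]
      exact ⟨fun e => by cases e with | lt _ _ e => exact e, .lt l i⟩
  have hl : (GW.bits0 g).length = m := hp.length_eq.trans List.length_ofFn
  refine List.ext_getElem (by simp [GW.bits, hl]) fun i h1 h2 => ?_
  have h3 : i < m := by simpa using h2
  simp only [GW.bits, List.getElem_map, List.getElem_range, List.getElem_ofFn]
  refine WDAx.find_eq (h.mem_bits0.2 ⟨_, rfl⟩) (by rw [hc, beq_iff_eq]) fun x hx hq => ?_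
  obtain ⟨j, rfl⟩ := h.mem_bits0.1 hx
  rw [hc, beq_iff_eq] at hq
  subst hq
  rfl

theorem GW.Is.letter (h : GW.Is g f ψ) (v : Vk p k) :
    (GW.bits g).map (fun b => g.2.contains (b, ψ (.pt v))) = List.ofFn (f v) := by
  rw [h.bits_eq, List.map_ofFn]
  refine congrArg List.ofFn (funext fun i => Bool.eq_iff_iff.2 ?_)
  simp only [Function.comp, List.contains_eq_mem, decide_eq_true_eq, h.arc]
  exact ⟨fun e => by cases e with | col _ _ e => exact e, .col i v⟩

end Pool.Agent.P.MP_f1a348_lc.LS
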