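import Pool.Agent.P.MP_f1a348_lc.LS.DefsW
import Pool.Agent.P.MP_f1a348_lc.LS.TWDA

/-! Step WDB. -/

set_option autoImplicit false
set_option linter.unusedSectionVars false

namespace Pool.Agent.P.MP_f1a348_lc.LS

open Pool.Agent.Lib.Helper47 Pool.Agent.P.MP_f1a348_lc.GI Pool.Agent.Lib.Helper33

variable {p k m : ℕ} [Fact p.Prime] {g g' : GW.Dg} {f f' : Vk p k → Fin m → Bool}
  {ψ ψ' : Nd (Vk p k) m → ℕ}

namespace WDBx

theorem find_eq {l : List ℕ} {q : ℕ → Bool} {c : ℕ} (h1 : c ∈ l) (h2 : q c = true)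
    (h3 : ∀ w ∈ l, q w = true → w = c) : (l.find? q).getD 0 = c := by
  cases e : l.find? q with
  | none => exact absurd h2 (List.find?_eq_none.1 e c h1)
  | some w => exact h3 w (List.mem_of_find?_eq_some e) (List.find?_some e)

theorem arc_pt {u : Vk p k} {a : Nd (Vk p k) m} (h : StrArc f (.pt u) a) :
    ∃ c d, a = .pair c d ∧ (u = c ∨ u = d) := by
  cases h with
  | fst _ v => exact ⟨_, _, rfl, Or.inl rfl⟩
  | snd v _ => exact ⟨_, _, rfl, Or.inr rfl⟩

theorem arc_pair {c d : Vk p k} {a : Nd (Vk p k) m} (h : StrArc f (.pair c d) a) :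
    a = .pt (c + d) := by
  cases h
  rfl

theorem cont (h : GW.Is g f ψ) {a b : Nd (Vk p k) m} :
    g.2.contains (ψ a, ψ b) = true ↔ StrArc f a b := by
  rw [List.contains_iff_mem]
  exact h.arc a b

end WDBx

open WDBx

-- a point `u` has the two arcs to `pair u 0` and `pair u w`, `w ≠ 0`; a pair has exactly one outgoing arc
theorem GW.Is.mem_pts (h : GW.Is g f ψ) {x : ℕ} : x ∈ GW.pts g ↔ ∃ v, ψ (.pt v) = x := by
  unfold GW.pts
  rw [List.mem_filter, Bool.and_eq_true, Bool.and_eq_true, bne_iff_ne, Bool.not_eq_true',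
    ← Bool.not_eq_true, List.contains_iff_mem, h.mem_bits0, h.root_eq, Nat.ble_eq,
    List.countP_eq_length_filter]
  constructor
  · rintro ⟨h1, ⟨h2, h3⟩, h4⟩
    obtain ⟨a, rfl⟩ := (h.mem x).1 h1
    cases a with
    | root => exact absurd rfl h2
    | bit i => exact absurd ⟨i, rfl⟩ h3
    | pt v => exact ⟨v, rfl⟩
    | pair c d =>
      exfalso
      have hs : g.1.filter (fun y => g.2.contains (ψ (.pair c d), y)) ⊆ [ψ (.pt (c + d))] := by
        intro y hy
        obtain ⟨y1, y2⟩ := List.mem_filter.1 hy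
        obtain ⟨b, rfl⟩ := (h.mem y).1 y1
        rw [arc_pair ((cont h).1 y2)]
        exact List.mem_singleton_self _
      have := (List.subperm_of_subset (h.nd.filter _) hs).length_le
      rw [List.length_singleton] at this
      omega
  · rintro ⟨v, rfl⟩
    refine ⟨(h.mem _).2 ⟨_, rfl⟩, ⟨fun e => ?_, ?_⟩, ?_⟩
    · cases h.inj e
    · rintro ⟨i, e⟩
      cases h.inj e
    · have hw : (0 : Vk p k) ≠ fun _ => 1 := fun e =>
        zero_ne_one (congrFun e ⟨0, h.kpos⟩)
      have hn : [ψ (.pair v 0), ψ (.pair v fun _ => 1)].Nodup := by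
        rw [List.nodup_cons, List.mem_singleton]
        refine ⟨fun e => hw ?_, List.nodup_singleton _⟩
        have := h.inj e
        injection this
      have hs : [ψ (.pair v 0), ψ (.pair v fun _ => 1)] ⊆
          g.1.filter (fun y => g.2.contains (ψ (.pt v), y)) := by
        intro y hy
        rw [List.mem_cons, List.mem_singleton] at hy
        rcases hy with rfl | rfl <;>
          exact List.mem_filter.2 ⟨(h.mem _).2 ⟨_, rfl⟩, (cont h).2 (StrArc.fst _ _)⟩
      exact (List.subperm_of_subset hn hs).length_le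

theorem GW.Is.length_pts (h : GW.Is g f ψ) : (GW.pts g).length = p ^ k := by
  have hn : (GW.pts g).Nodup := h.nd.filter _
  have e : (GW.pts g).toFinset = Finset.univ.image (fun v : Vk p k => ψ (.pt v)) := by
    ext x
    rw [List.mem_toFinset, h.mem_pts, Finset.mem_image]
    simp only [Finset.mem_univ, true_and]
  have hi : Function.Injective (fun v : Vk p k => ψ (.pt v)) := fun a b e => by
    have := h.inj e
    injection this
  rw [← List.toFinset_card_of_nodup hn, e, Finset.card_image_of_injective _ hi, Finset.card_univ,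
    Fintype.card_fun, ZMod.card, Fintype.card_fin]

theorem GW.Is.add_eq (h : GW.Is g f ψ) (u v : Vk p k) :
    GW.add g (ψ (.pt u)) (ψ (.pt v)) = ψ (.pt (u + v)) := by
  have hi : ∀ a b : Vk p k, ψ (.pt a) = ψ (.pt b) → a = b := fun a b e => by
    have := h.inj e
    injection this
  unfold GW.add
  refine find_eq (h.mem_pts.2 ⟨_, rfl⟩) ?_ fun w hw hq => ?_
  · refine List.any_eq_true.2 ⟨ψ (.pair u v), (h.mem _).2 ⟨_, rfl⟩, ?_⟩
    rw [Bool.and_eq_true, Bool.and_eq_true, Bool.and_eq_true]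
    refine ⟨⟨⟨(cont h).2 (StrArc.fst _ _), (cont h).2 (StrArc.snd _ _)⟩,
      (cont h).2 (StrArc.add _ _)⟩, List.all_eq_true.2 fun x hx => ?_⟩
    obtain ⟨y, rfl⟩ := h.mem_pts.1 hx
    rw [Bool.or_eq_true, Bool.or_eq_true, Bool.not_eq_true', ← Bool.not_eq_true, beq_iff_eq,
      beq_iff_eq, cont h]
    by_cases ha : StrArc f (.pt y) (.pair u v)
    · obtain ⟨c, d, e, hy⟩ := arc_pt ha
      injection e with e1 e2
      rcases hy with rfl | rfl
      · exact Or.inl (Or.inr (by rw [e1]))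
      · exact Or.inr (by rw [e2])
    · exact Or.inl (Or.inl ha)
  · obtain ⟨z, rfl⟩ := h.mem_pts.1 hw
    obtain ⟨t, ht, hq⟩ := List.any_eq_true.1 hq
    obtain ⟨a, rfl⟩ := (h.mem t).1 ht
    rw [Bool.and_eq_true, Bool.and_eq_true, Bool.and_eq_true, cont h, cont h, cont h,
      List.all_eq_true] at hq
    obtain ⟨⟨⟨q1, q2⟩, q3⟩, q4⟩ := hq
    obtain ⟨c, d, rfl, hu⟩ := arc_pt q1
    obtain ⟨c', d', e, hv⟩ := arc_pt q2
    injection e with e1 e2
    subst e1 e2
    have q5 : ∀ y : Vk p k, StrArc f (.pt y) (.pair c d) → y = u ∨ y = v := fun y hy => by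
      have := q4 _ (h.mem_pts.2 ⟨y, rfl⟩)
      rw [(cont h).2 hy, Bool.not_true, Bool.false_or, Bool.or_eq_true, beq_iff_eq,
        beq_iff_eq] at this
      exact this.imp (hi _ _) (hi _ _)
    have hc := q5 c (StrArc.fst _ _)
    have hd := q5 d (StrArc.snd _ _)
    rw [arc_pair q3]
    congr 2
    rcases hu with rfl | rfl <;> rcases hv with rfl | rfl
    · rcases hd with rfl | rfl <;> rfl
    · rfl
    · exact add_comm _ _
    · rcases hc with rfl | rfl <;> rfl

theorem GW.Is.zero_eq (h : GW.Is g f ψ) : GW.zero g = ψ (.pt 0) := by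
  unfold GW.zero
  refine find_eq (h.mem_pts.2 ⟨_, rfl⟩) ?_ fun w hw hq => ?_
  · rw [h.add_eq, add_zero, beq_iff_eq]
  · obtain ⟨z, rfl⟩ := h.mem_pts.1 hw
    rw [h.add_eq, beq_iff_eq] at hq
    have := h.inj hq
    injection this with e
    rw [add_eq_left.1 e]

theorem GW.Is.mul_eq (h : GW.Is g f ψ) (u v : Vk p k) (l : List ℕ) :
    GW.mul g (ψ (.pt u)) (ψ (.pt v)) l = ψ (.pt (u + (l.length : ZMod p) • v)) := by
  unfold GW.mul
  induction l generalizing u with
  | nil => simp
  | cons a l ih =>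
    rw [List.foldl_cons, h.add_eq, ih, List.length_cons, Nat.cast_succ, add_smul, one_smul,
      add_assoc, add_comm v]

end Pool.Agent.P.MP_f1a348_lc.LS
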