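import Pool.Agent.P.MP_f1a348_lc.LS.DefsW
import Pool.Agent.P.MP_f1a348_lc.LS.TWDB

/-! Step WTAB. -/

set_option autoImplicit false
set_option linter.unusedSectionVars false

namespace Pool.Agent.P.MP_f1a348_lc.LS

open Pool.Agent.Lib.Helper47 Pool.Agent.P.MP_f1a348_lc.GI Pool.Agent.Lib.Helper33

variable {p k m : ℕ} [Fact p.Prime] {g g' : GW.Dg} {f f' : Vk p k → Fin m → Bool}
  {ψ ψ' : Nd (Vk p k) m → ℕ}

namespace WTABx

theorem fresh_ex (h : GW.Is g f ψ) {i : ℕ} (hi : i < k) (A : Vk p i →ₗ[ZMod p] Vk p k)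
    (T : List (Vc × ℕ)) (hT : ∀ e, e ∈ T ↔ ∃ a : Vk p i, e = (cv a, ψ (.pt (A a)))) :
    ∃ w, (∀ a, A a ≠ w) ∧ GW.fresh g T = ψ (.pt w) := by
  have hp : p.Prime := Fact.out
  have hex : ∃ w, ∀ a, A a ≠ w := by
    by_contra hn
    have hs : Function.Surjective A := fun w => by
      by_contra hw
      exact hn ⟨w, fun a ha => hw ⟨a, ha⟩⟩
    have h1 := LinearMap.finrank_le_finrank_of_surjective hs
    rw [Module.finrank_fin_fun, Module.finrank_fin_fun] at h1
    omega
  have hc : ∀ w, (T.map Prod.snd).contains (ψ (.pt w)) = true ↔ ∃ a, A a = w := by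
    intro w
    rw [List.contains_iff_mem, List.mem_map]
    constructor
    · rintro ⟨e, he, e1⟩
      obtain ⟨a, rfl⟩ := (hT e).1 he
      exact ⟨a, Nd.pt.inj (h.inj e1)⟩
    · rintro ⟨a, rfl⟩
      exact ⟨_, (hT _).2 ⟨a, rfl⟩, rfl⟩
  obtain ⟨w0, hw0⟩ := hex
  have hsome : ((GW.pts g).find? (fun w => !(T.map Prod.snd).contains w)).isSome = true := by
    rw [List.find?_isSome]
    refine ⟨ψ (.pt w0), h.mem_pts.2 ⟨w0, rfl⟩, ?_⟩
    rw [Bool.not_eq_true', ← Bool.not_eq_true, hc]
    rintro ⟨a, ha⟩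
    exact hw0 a ha
  obtain ⟨x, hx⟩ := Option.isSome_iff_exists.1 hsome
  have hx1 := List.mem_of_find?_eq_some hx
  have hx2 := List.find?_some hx
  obtain ⟨w, rfl⟩ := h.mem_pts.1 hx1
  refine ⟨w, fun a ha => ?_, by rw [GW.fresh, hx]; rfl⟩
  rw [Bool.not_eq_true', ← Bool.not_eq_true, hc] at hx2
  exact hx2 ⟨a, ha⟩

/-- one more coordinate -/
def ext {i : ℕ} (A : Vk p i →ₗ[ZMod p] Vk p k) (w : Vk p k) : Vk p (i + 1) →ₗ[ZMod p] Vk p k where
  toFun a := A (fun t => a t.succ) + a 0 • w
  map_add' a b := by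
    have e : (fun t : Fin i => (a + b) t.succ) = (fun t => a t.succ) + fun t => b t.succ := rfl
    rw [e, map_add, Pi.add_apply, add_smul]
    abel
  map_smul' c a := by
    have e : (fun t : Fin i => (c • a) t.succ) = c • fun t => a t.succ := rfl
    rw [e, map_smul, Pi.smul_apply, smul_eq_mul, mul_smul, smul_add]
    rfl

theorem ext_inj {i : ℕ} {A : Vk p i →ₗ[ZMod p] Vk p k} (hA : Function.Injective A) {w : Vk p k}
    (hw : ∀ a, A a ≠ w) : Function.Injective (ext A w) := by
  rw [injective_iff_map_eq_zero]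
  intro a ha
  have ha' : A (fun t => a t.succ) + a 0 • w = 0 := ha
  have h0 : a 0 = 0 := by
    by_contra h0
    apply hw ((-(a 0)⁻¹) • fun t => a t.succ)
    rw [map_smul, eq_neg_of_add_eq_zero_left ha', smul_neg, neg_smul, neg_neg, smul_smul,
      inv_mul_cancel₀ h0, one_smul]
  rw [h0, zero_smul, add_zero] at ha'
  have h1 := (injective_iff_map_eq_zero A).1 hA _ ha'
  funext t
  refine Fin.cases h0 (fun t => ?_) t
  exact congrFun h1 t

theorem cv_succ {i : ℕ} (a : Vk p (i + 1)) :
    cv a = (a 0).val :: cv (fun t : Fin i => a t.succ) := by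
  rw [cv, List.ofFn_succ]
  rfl

end WTABx

-- induction on `i`; a point `w` outside the range of `A` exists (`finrank`, or `p ^ i < p ^ k`) and `fresh` finds one;
-- `A' a = A (Fin.tail a) + a 0 • w`, `cv a = (a 0).val :: cv (Fin.tail a)` (`List.ofFn_succ`); the `take` changes nothing because the
-- list has `p ^ (i + 1) ≤ p ^ k = (pts g).length ≤ g.1.length` entries
theorem GW.Is.iter (h : GW.Is g f ψ) (i : ℕ) (hi : i ≤ k) :
    ∃ A : Vk p i →ₗ[ZMod p] Vk p k, Function.Injective A ∧
      ((GW.step g (List.range p))^[i] [([], GW.zero g)]).length = p ^ i ∧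
      (((GW.step g (List.range p))^[i] [([], GW.zero g)]).map Prod.fst).Nodup ∧
      ∀ e, e ∈ (GW.step g (List.range p))^[i] [([], GW.zero g)] ↔
        ∃ a : Vk p i, e = (cv a, ψ (.pt (A a))) := by
  have hp : p.Prime := Fact.out
  induction i with
  | zero =>
    refine ⟨0, fun a b _ => Subsingleton.elim a b, rfl, List.nodup_singleton _, fun e => ?_⟩
    rw [Function.iterate_zero, id, List.mem_singleton, h.zero_eq]
    exact ⟨fun he => ⟨0, he⟩, fun ⟨a, ha⟩ => ha⟩
  | succ i ih =>
    obtain ⟨A, hA, hl, hn, hT⟩ := ih (by omega)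
    rw [Function.iterate_succ_apply']
    generalize (GW.step g (List.range p))^[i] [([], GW.zero g)] = T at hl hn hT
    obtain ⟨w, hw, hf⟩ := WTABx.fresh_ex h (show i < k by omega) A T hT
    have hlen : (T.flatMap (fun e => (List.range p).map (fun a =>
        (a :: e.1, GW.mul g e.2 (GW.fresh g T) ((List.range p).take a))))).length = p ^ (i + 1) := by
      rw [List.length_flatMap]
      simp only [List.length_map, List.length_range, List.map_const', List.sum_replicate,
        smul_eq_mul, hl, pow_succ]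
    have hle : p ^ (i + 1) ≤ g.1.length := by
      refine le_trans (Nat.pow_le_pow_right hp.pos hi) ?_
      rw [← h.length_pts]
      exact List.length_filter_le _ _
    have e : GW.step g (List.range p) T = T.flatMap (fun e => (List.range p).map (fun a =>
        (a :: e.1, GW.mul g e.2 (GW.fresh g T) ((List.range p).take a)))) := by
      rw [GW.step, List.take_of_length_le (by rw [hlen]; exact hle)]
    rw [e]
    refine ⟨WTABx.ext A w, WTABx.ext_inj hA hw, hlen, ?_, fun x => ?_⟩
    · rw [List.map_flatMap, List.nodup_flatMap]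
      refine ⟨fun x _ => ?_, ?_⟩
      · rw [List.map_map]
        exact List.nodup_range.map (fun a b hab => (List.cons.inj hab).1)
      · rw [List.Nodup, List.pairwise_map] at hn
        refine hn.imp fun {x y} hxy => ?_
        intro z hz hz'
        simp only [List.map_map, List.mem_map, Function.comp_apply] at hz hz'
        obtain ⟨a, -, rfl⟩ := hz
        obtain ⟨b, -, hb⟩ := hz'
        exact hxy (List.cons.inj hb).2.symm
    · simp only [List.mem_flatMap, List.mem_map, List.mem_range]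
      constructor
      · rintro ⟨y, hy, c, hc, rfl⟩
        obtain ⟨a, rfl⟩ := (hT y).1 hy
        refine ⟨Fin.cons (c : ZMod p) a, ?_⟩
        rw [WTABx.cv_succ, hf, h.mul_eq, List.length_take, List.length_range, min_eq_left hc.le]
        simp only [Fin.cons_zero, Fin.cons_succ, ZMod.val_cast_of_lt hc]
        rfl
      · rintro ⟨a, rfl⟩
        refine ⟨_, (hT _).2 ⟨fun t => a t.succ, rfl⟩, (a 0).val, ZMod.val_lt _, ?_⟩
        rw [WTABx.cv_succ, hf, h.mul_eq, List.length_take, List.length_range,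
          min_eq_left (ZMod.val_lt _).le, ZMod.natCast_zmod_val]
        rfl

theorem GW.Is.tbl (h : GW.Is g f ψ) : ∃ A : Vk p k ≃ₗ[ZMod p] Vk p k,
    TbOf (GW.tbl g (List.range p) (List.range k)) (fun v => List.ofFn (f (A v))) := by
  obtain ⟨A, hA, -, hn, hT⟩ := h.iter k le_rfl
  refine ⟨LinearEquiv.ofBijective A ⟨hA, LinearMap.injective_iff_surjective.1 hA⟩, ?_, fun e => ?_⟩
  · rw [GW.tbl, GW.tab, List.length_range, List.map_map]
    exact hn
  · rw [GW.tbl, GW.tab, List.length_range, List.mem_map]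
    constructor
    · rintro ⟨y, hy, rfl⟩
      obtain ⟨a, rfl⟩ := (hT y).1 hy
      exact ⟨a, by rw [h.letter]; rfl⟩
    · rintro ⟨a, rfl⟩
      exact ⟨_, (hT _).2 ⟨a, rfl⟩, by rw [h.letter]; rfl⟩

end Pool.Agent.P.MP_f1a348_lc.LS
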