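import Pool.Agent.P.MP_f1a348_lc.LS.DefsW
import Pool.Agent.P.MP_f1a348_lc.LS.TWPT
import Pool.Agent.P.MP_f1a348_lc.LS.TWNUM
import Pool.Agent.P.MP_f1a348_lc.LS.TWTAB
import Pool.Agent.P.MP_f1a348_lc.LS.TWISO
import Pool.Agent.P.MP_f1a348_lc.LS.TMFIN

/-! Step WFIN. -/

set_option autoImplicit false
set_option linter.unusedSectionVars false

namespace Pool.Agent.P.MP_f1a348_lc.LS

open Pool.Agent.Lib.Helper47 Pool.Agent.P.MP_f1a348_lc.GI Pool.Agent.Lib.Helper33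

variable {p k m : ℕ} [Fact p.Prime] {g g' : GW.Dg} {f f' : Vk p k → Fin m → Bool}
  {ψ ψ' : Nd (Vk p k) m → ℕ}

namespace WFINx

open TO TO.GG

theorem is_of (hk : 1 ≤ k) {n : ℕ} {G : SimpleGraph (Fin n)} {E : List (ℕ × ℕ)}
    (hE : ∀ a b : Fin n, ((a : ℕ), (b : ℕ)) ∈ E ↔ G.Adj a b) (e : G ≃g arcGraph (StrArc f)) :
    ∃ ψ, GW.Is ((List.range n).filter (coreB (List.range n) E),
      (prodL (List.range n) (List.range n)).filter (arcB (List.range n) E)) f ψ := by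
  obtain ⟨ψ, h1, h2, h3⟩ := pres hE (strArc_irrefl f) e
  exact ⟨ψ, hk, List.nodup_range.filter _, h1, h2, h3⟩

theorem inp_of (h : GW.Is g f ψ) {e e' : Vk p k → List Bool}
    (t1 : TbOf (GW.tbl g (List.range p) (List.range k)) e)
    (t2 : TbOf (GW.tbl g' (List.range p) (List.range k)) e') :
    InpOf (GW.inp (g.1, g.2, g')) e e' := by
  have e1 : GW.rp g = List.range p := by
    rw [GW.rp, h.length_pts, primeN_range h.kpos, List.take_range,
      min_eq_left (Nat.le_self_pow (by have := h.kpos; omega) p)]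
  have e2 : GW.ix g = List.range k := by
    rw [GW.ix, h.length_pts, primeN_range h.kpos, idxN_range]
  refine ⟨h.kpos, e1, e2, ?_, ?_⟩
  · change TbOf (GW.tbl g (GW.rp g) (GW.ix g)) e
    rwa [e1, e2]
  · change TbOf (GW.tbl g' (GW.rp g) (GW.ix g)) e'
    rwa [e1, e2]

theorem tb_unique {s : Tb} {e e' : Vk p k → List Bool} (h : TbOf s e) (h' : TbOf s e') (v : Vk p k) :
    e v = e' v := by
  obtain ⟨w, hw⟩ := (h'.mem _).1 ((h.mem _).2 ⟨v, rfl⟩)
  obtain ⟨h1, h2⟩ := Prod.mk.inj hw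
  rw [h2, MPARSEx.cv_inj h1]

theorem rpow_mono {a b : ℕ} {ε : ℝ} (hε : 0 < ε) (ha : 1 ≤ a) (hab : a ≤ b) :
    (a : ℝ) ^ (ε * Real.logb 2 a) ≤ (b : ℝ) ^ (ε * Real.logb 2 b) := by
  have h1 : (1 : ℝ) ≤ a := by exact_mod_cast ha
  have h2 : (a : ℝ) ≤ b := by exact_mod_cast hab
  have h3 : 0 ≤ Real.logb 2 a := Real.logb_nonneg one_lt_two h1
  have h4 : Real.logb 2 a ≤ Real.logb 2 b := Real.logb_le_logb_of_le one_lt_two (by linarith) h2
  exact (Real.rpow_le_rpow (by linarith) h2 (by positivity)).trans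
    (Real.rpow_le_rpow_of_exponent_le (by linarith) (mul_le_mul_of_nonneg_left h4 hε.le))

theorem poly_bound (d : ℕ) {ε : ℝ} (hε : 0 < ε) : ∃ C : ℝ, ∀ n : ℕ,
    (((2 * (n * n) + 1) ^ d : ℕ) : ℝ) ≤ C * (n : ℝ) ^ (ε * Real.logb 2 n) := by
  obtain ⟨E, -, hE⟩ := p_FTIME d ε hε
  obtain ⟨C, hC⟩ := hE 0
  refine ⟨C, fun n => le_trans ?_ (hC n)⟩
  have h1 : 2 * (n * n) + 1 ≤ fM n 0 + 2 := by
    unfold fM
    nlinarith [Nat.zero_le (n * n * n), Nat.zero_le n]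
  exact_mod_cast (Nat.pow_le_pow_left h1 d).trans
    (Nat.pow_le_pow_right (by omega) (Nat.le_mul_of_pos_right _ (by omega)))

end WFINx

open MFINx WFINx TO TO.GG in
theorem gfinal_of_spec {mn : (List Unit × List Unit) × Inp → Option Bool} (h : MSpec mn) : GFINAL := by
  classical
  have ha : PT (fun a : (List Unit × List Unit) × Inp => bif MFINx.ok a then mn a else none) :=
    PT.cond MFINx.pt_ok h.pt (PT.const none)
  obtain ⟨B, c, d, hB⟩ := machine_gen GW.pt_parseG ha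
  refine ⟨B.tm, B.e₀, B.e₁, B.fin, fun ε hε => ?_⟩
  obtain ⟨E, hE⟩ := time_bound (8 * d) (ε / 2) (by linarith)
  obtain ⟨c0, hc0⟩ := h.halts E
  obtain ⟨C, hC⟩ := hE c0
  obtain ⟨C', hC'⟩ := poly_bound d (show 0 < ε / 2 by linarith)
  refine ⟨(c * 2 ^ d : ℕ) * (max C' 0 * max C 0), ?_⟩
  rintro p k m _ hk f f' n G H ⟨e⟩ ⟨e'⟩
  have hp : 2 ≤ p := (Fact.out : p.Prime).two_le
  obtain ⟨j, hj4, hj, hT⟩ := hC p k hp hk
  obtain ⟨EG, EH, h0, hEG, hEH, -⟩ :=
    FX.parse_eq (fun a b => decide (G.Adj a b)) (fun a b => decide (H.Adj a b))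
  simp only [decide_eq_true_eq] at hEG hEH
  have hx : adjBits G ++ adjBits H = arcBits (fun a b => decide (G.Adj a b)) ++
    arcBits (fun a b => decide (H.Adj a b)) := rfl
  have hl : (adjBits G ++ adjBits H).length = 2 * (n * n) := by
    rw [hx, List.length_append, FX.length_arcBits, FX.length_arcBits]; ring
  obtain ⟨ψ, i1⟩ := is_of hk hEG e
  obtain ⟨ψ', i2⟩ := is_of hk hEH e'
  obtain ⟨A1, t1⟩ := i1.tbl
  obtain ⟨A2, t2⟩ := i2.tbl
  have hq : InpOf (GW.parseG (adjBits G ++ adjBits H)) (fun v => List.ofFn (f (A1 v)))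
      (fun v => List.ofFn (f' (A2 v))) := by
    rw [GW.parseG, hx, h0]
    exact inp_of i1 t1 t2
  generalize adjBits G ++ adjBits H = x at hq hl
  obtain ⟨A, hA⟩ : ∃ A, A = p ^ k * p ^ k + p ^ j + 2 := ⟨_, rfl⟩
  have a1 : A ≤ A ^ (8 * (j + 1)) := Nat.le_self_pow (by omega) _
  have a2 : 2 ^ j ≤ p ^ j := Nat.pow_le_pow_left hp j
  obtain ⟨b, t, hb, ho, ht⟩ := hB x (fun b => b = true ↔ LIso (fun v => List.ofFn (f (A1 v)))
    (fun v => List.ofFn (f' (A2 v)))) j (A ^ (8 * (j + 1))) (by omega)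
    (fun pad lev b hb => by
      cases e : MFINx.ok ((pad, lev), GW.parseG x) with
      | false => rw [e, cond_false] at hb; cases hb
      | true =>
        rw [e, cond_true] at hb
        obtain ⟨e1, e2⟩ := (ok_iff hq pad lev).1 e
        exact h.sound p k _ _ pad lev _ b hq e1 e2 hb)
    (fun pad lev e1 e2 => by
      have e3 : A ^ (j + 4) ≤ A ^ (8 * (j + 1)) := Nat.pow_le_pow_right (by omega) (by omega)
      rw [(ok_iff hq pad lev).2 ⟨by omega, by rw [e1, ← hA]; omega⟩, cond_true]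
      exact hc0 p k _ _ pad lev _ hq (by omega) (by rw [e1]; exact hj) (by rw [e1, ← hA]; exact e2))
  have h4 : b = true ↔ ∃ g : (Fin k → ZMod p) ≃ₗ[ZMod p] (Fin k → ZMod p), ∀ v, f' (g v) = f v :=
    hb.trans ⟨fun ⟨g, hg⟩ => ⟨(A1.symm.trans g).trans A2, fun v => by
        simpa using List.ofFn_injective (hg (A1.symm v))⟩,
      fun ⟨g, hg⟩ => ⟨(A1.trans g).trans A2.symm, fun v => by simp [hg]⟩⟩
  refine ⟨t, b, ?_, ho, h4.trans ⟨fun ⟨g, hg⟩ => ?_, fun ⟨r⟩ => ?_⟩, h4⟩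
  · have h2 : t ≤ c * 2 ^ d * ((2 * (n * n) + 1) ^ d * A ^ (8 * d * (j + 1))) := by
      have a3 : x.length + A ^ (8 * (j + 1)) + 1 ≤ 2 * ((2 * (n * n) + 1) * A ^ (8 * (j + 1))) := by
        rw [hl]
        generalize A ^ (8 * (j + 1)) = T at a1
        have : 1 ≤ T := by omega
        nlinarith
      refine ht.trans ((Nat.mul_le_mul_left c (Nat.pow_le_pow_left a3 d)).trans (le_of_eq ?_))
      rw [mul_pow, mul_pow, ← pow_mul]
      ring
    rw [← hA] at hT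
    have b0 : 1 ≤ p ^ k := Nat.one_le_pow _ _ (by omega)
    have b1 := card_le_of_iso e
    have b2 : (0 : ℝ) < n := by exact_mod_cast (show 0 < n by omega)
    have b3 := hT.trans (mul_le_mul (le_max_left C 0) (rpow_mono (show 0 < ε / 2 by linarith) b0 b1)
      (by positivity) (le_max_right _ _))
    have b4 := (hC' n).trans (mul_le_mul_of_nonneg_right (le_max_left C' 0) (by positivity))
    have b5 : (n : ℝ) ^ (ε * Real.logb 2 n) =
        (n : ℝ) ^ (ε / 2 * Real.logb 2 n) * (n : ℝ) ^ (ε / 2 * Real.logb 2 n) := by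
      rw [← Real.rpow_add b2]; congr 1; ring
    calc (t : ℝ) ≤ ((c * 2 ^ d : ℕ) : ℝ) * ((((2 * (n * n) + 1) ^ d : ℕ) : ℝ) *
          ((A ^ (8 * d * (j + 1)) : ℕ) : ℝ)) := by exact_mod_cast h2
      _ ≤ (c * 2 ^ d : ℕ) * ((max C' 0 * (n : ℝ) ^ (ε / 2 * Real.logb 2 n)) *
          (max C 0 * (n : ℝ) ^ (ε / 2 * Real.logb 2 n))) :=
          mul_le_mul_of_nonneg_left (mul_le_mul b4 b3 (Nat.cast_nonneg _) (by positivity))
            (Nat.cast_nonneg _)
      _ = _ := by rw [b5]; ring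
  · obtain ⟨r⟩ := strArc_iso g hg
    exact ⟨(e.trans (lift r)).trans e'.symm⟩
  · obtain ⟨ψ'', i3⟩ := is_of hk hEH (r.symm.trans e)
    obtain ⟨A3, t3⟩ := i3.tbl
    exact ⟨A3.symm.trans A2, fun v => by
      simpa using List.ofFn_injective (tb_unique t2 t3 (A3.symm v))⟩

end Pool.Agent.P.MP_f1a348_lc.LS
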