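import Pool.Agent.P.MP_f1a348_lc.LS.Base

/-! Step SP. -/

set_option autoImplicit false
set_option linter.unusedSectionVars false

namespace Pool.Agent.P.MP_f1a348_lc.LS

open Module Submodule

variable {p : ℕ} [Fact p.Prime] {W : Type} [AddCommGroup W] [Module (ZMod p) W] [Fintype W]
  {Γ : Sys p W} {ι : Type} [Fintype ι] {P P' P'' R R' b : List (Pm p W)} {φ ψ : Iso p W}
  {A B B' D T U U' V : Sub p W} {S X Y : Set W} {a a' c v w x x' y y' z μ : W} {n m r : ℕ}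
  {s t : ι} {l l' : List W}

theorem mem_sp {e : Pm p W} (h : e ∈ P) : e.2 ∈ sp P := by
  exact subset_span ⟨e, h, rfl⟩

theorem sp_le : sp P ≤ U ↔ ∀ e ∈ P, e.2 ∈ U := by
  rw [sp, span_le]
  exact ⟨fun h e he => h ⟨e, he, rfl⟩, fun h x ⟨e, he, hx⟩ => hx ▸ h e he⟩

theorem sp_mono (h : P ⊆ P') : sp P ≤ sp P' := by
  exact sp_le.2 fun e he => mem_sp (h he)

theorem sp_nil : sp ([] : List (Pm p W)) = ⊥ := by
  simp [sp]

theorem sp_cons (B : Sub p W) (x : W) (P : List (Pm p W)) :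
    sp ((B, x) :: P) = span (ZMod p) {x} ⊔ sp P := by
  refine le_antisymm (sp_le.2 fun e he => ?_) (sup_le ?_ (sp_mono (List.subset_cons_self _ _)))
  · rcases List.mem_cons.1 he with rfl | he
    · exact mem_sup_left (mem_span_singleton_self _)
    · exact mem_sup_right (mem_sp he)
  · exact (span_singleton_le_iff_mem _ _).2 (mem_sp (e := (B, x)) List.mem_cons_self)

theorem sp_append (P P' : List (Pm p W)) : sp (P ++ P') = sp P ⊔ sp P' := by
  refine le_antisymm (sp_le.2 fun e he => ?_) (sup_le (sp_mono (List.subset_append_left _ _))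
    (sp_mono (List.subset_append_right _ _)))
  rcases List.mem_append.1 he with he | he
  · exact mem_sup_left (mem_sp he)
  · exact mem_sup_right (mem_sp he)

theorem finrank_sp (P : List (Pm p W)) : finrank (ZMod p) (sp P) ≤ P.length := by
  induction P with
  | nil => simp [sp_nil]
  | cons e P ih =>
    obtain ⟨B, x⟩ := e
    have h1 := finrank_add_le_finrank_add_finrank (span (ZMod p) {x}) (sp P)
    have h2 : finrank (ZMod p) (span (ZMod p) ({x} : Set W)) ≤ 1 :=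
      (finrank_span_le_card _).trans (by simp)
    rw [sp_cons, List.length_cons]
    omega

theorem mv_self : Mv φ P P ↔ Fx φ P := by
  rw [Mv, List.forall₂_same]
  exact forall₂_congr fun c _ => and_iff_right rfl

theorem mv_cons : Mv φ ((B, x) :: P) ((B', y) :: P') ↔ B' = B ∧ φ x - y ∈ B ∧ Mv φ P P' := by
  rw [Mv, List.forall₂_cons, and_assoc, Mv]

theorem mv_iff : Mv φ P P' ↔ P.length = P'.length ∧
    ∀ e ∈ P.zip P', e.2.1 = e.1.1 ∧ φ e.1.2 - e.2.2 ∈ e.1.1 := by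
  rw [Mv, List.forall₂_iff_zip]
  exact and_congr_right fun _ => ⟨fun h e he => h he, fun h _ _ he => h _ he⟩

theorem Mv.append (h : Mv φ P P') (h' : Mv φ R R') : Mv φ (P ++ R) (P' ++ R') := by
  exact List.rel_append h h'

theorem Mv.congr (h : Mv φ P P') (he : ∀ x ∈ sp P, ψ x = φ x) : Mv ψ P P' := by
  rw [mv_iff] at h ⊢
  exact ⟨h.1, fun e h' => ⟨(h.2 e h').1, by
    rw [he _ (mem_sp (List.of_mem_zip h').1)]; exact (h.2 e h').2⟩⟩

theorem mv_map (φ : Iso p W) (P : List (Pm p W)) : Mv φ P (P.map fun e => (e.1, φ e.2)) := by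
  rw [Mv, List.forall₂_map_right_iff, List.forall₂_same]
  exact fun c _ => ⟨rfl, by simp⟩

theorem Fx.mono (h : Fx φ P') (hs : P ⊆ P') : Fx φ P := by
  exact fun c hc => h c (hs hc)

theorem fx_cons : Fx φ ((B, x) :: P) ↔ φ x - x ∈ B ∧ Fx φ P := by
  exact List.forall_mem_cons

theorem Fx.sub_mem (h : Fx φ P) (hB : ∀ e ∈ P, e.1 ≤ B) (hx : x ∈ sp P) : φ x - x ∈ B := by
  have : sp P ≤ B.comap ((φ : W →ₗ[ZMod p] W) - LinearMap.id) :=
    sp_le.2 fun e he => hB e he (h e he)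
  exact this hx

theorem mem_pins {e : Pm p W} : e ∈ pins B l ↔ e.1 = B ∧ e.2 ∈ l := by
  obtain ⟨D, x⟩ := e
  simp only [pins, List.mem_map, Prod.mk.injEq]
  exact ⟨fun ⟨_, h, h1, h2⟩ => ⟨h1.symm, h2 ▸ h⟩, fun ⟨h1, h⟩ => ⟨x, h, h1.symm, rfl⟩⟩

theorem pins_cons (B : Sub p W) (x : W) (l : List W) : pins B (x :: l) = (B, x) :: pins B l := by
  rfl

theorem length_pins (B : Sub p W) (l : List W) : (pins B l).length = l.length := by
  exact List.length_map _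

theorem pins_subset (h : l ⊆ l') : pins B l ⊆ pins B l' := by
  exact List.map_subset _ h

theorem nc_eq (U : Sub p W) : nc U = p ^ finrank (ZMod p) U := by
  rw [nc, ← Nat.card_coe_set_eq, SetLike.coe_sort_coe, Module.natCard_eq_pow_finrank (K := ZMod p),
    Nat.card_zmod]

theorem nc_pos (U : Sub p W) : 0 < nc U := by
  rw [nc_eq]
  exact pow_pos (Fact.out : p.Prime).pos _

theorem nc_mono (h : U ≤ V) : nc U ≤ nc V := by
  exact Set.ncard_le_ncard h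

theorem Sys.Ok.mono (h : Γ.Ok n P) (hm : n ≤ m) : Γ.Ok m P := by
  exact ⟨h.1.trans hm, h.2⟩

theorem Sys.Ok.len (h : Γ.Ok n P) : Γ.Ok P.length P := by
  exact ⟨le_rfl, h.2⟩

theorem Sys.ok_nil (Γ : Sys p W) (n : ℕ) : Γ.Ok n [] := by
  exact ⟨Nat.zero_le _, by simp⟩

theorem Sys.Ok.cons (h : Γ.Ok n P) (hB : Γ.Def B) (x : W) : Γ.Ok (n + 1) ((B, x) :: P) := by
  exact ⟨Nat.succ_le_succ h.1, List.forall_mem_cons.2 ⟨hB, h.2⟩⟩

theorem Sys.Ok.append (h : Γ.Ok n P) (h' : Γ.Ok m P') : Γ.Ok (n + m) (P ++ P') := by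
  exact ⟨by rw [List.length_append]; exact add_le_add h.1 h'.1,
    List.forall_mem_append.2 ⟨h.2, h'.2⟩⟩

theorem Sys.Ok.pins (h : Γ.Ok n P) (hB : Γ.Def B) (l : List W) :
    Γ.Ok (n + l.length) (pins B l ++ P) := by
  refine ⟨by rw [List.length_append, length_pins, add_comm]; exact Nat.add_le_add_right h.1 _,
    List.forall_mem_append.2 ⟨fun c hc => ?_, h.2⟩⟩
  rw [(mem_pins.1 hc).1]
  exact hB

theorem Sys.Ok.of_subset (h : Γ.Ok n P') (hs : P ⊆ P') (hm : P.length ≤ m) : Γ.Ok m P := by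
  exact ⟨hm, fun c hc => h.2 c (hs hc)⟩

theorem Sys.mono (h : Γ.L U φ) (hU : U' ≤ U) : Γ.L U' φ := by
  exact Γ.loc h hU fun _ _ => rfl

theorem Sys.mem_cls : y ∈ Γ.cls P B x ↔
    ∃ φ, Γ.L (sp ((B, x) :: P)) φ ∧ Fx φ P ∧ φ x - y ∈ B := by
  refine exists_congr fun φ => and_congr_right fun _ => ?_
  rw [mv_cons, mv_self]
  exact ⟨fun h => ⟨h.2.2, h.2.1⟩, fun h => ⟨rfl, h.2, h.1⟩⟩

theorem Sys.map_mem_cls (h : Γ.L U φ) (hP : sp P ≤ U) (hf : Fx φ P) (hx : x ∈ U) (B : Sub p W) :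
    φ x ∈ Γ.cls P B x := by
  refine Sys.mem_cls.2 ⟨φ, Sys.mono h ?_, hf, by simp⟩
  rw [sp_cons]
  exact sup_le ((span_singleton_le_iff_mem _ _).2 hx) hP

theorem Sys.Inv.map (hS : Γ.Inv P S) (h : Γ.L U φ) (hP : sp P ≤ U) (hf : Fx φ P) (hx : x ∈ U)
    (hxS : x ∈ S) : φ x ∈ S := by
  exact hS x hxS (Sys.map_mem_cls h hP hf hx ⊥)

theorem Sys.Def.map (hV : Γ.Def V) (h : Γ.L U φ) (hx : x ∈ U) (hxV : x ∈ V) : φ x ∈ V := by
  exact Sys.Inv.map hV h (by simp [sp_nil]) (by simp [Fx]) hx hxV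

theorem Sys.inv_of_map (h : ∀ x ∈ S, ∀ φ, Γ.L (sp ((⊥, x) :: P)) φ → Fx φ P → φ x ∈ S) :
    Γ.Inv P S := by
  intro x hx y hy
  obtain ⟨φ, h1, h2, h3⟩ := Sys.mem_cls.1 hy
  rw [← sub_eq_zero.1 ((mem_bot _).1 h3)]
  exact h x hx φ h1 h2

theorem Sys.def_bot (Γ : Sys p W) : Γ.Def ⊥ := by
  refine Sys.inv_of_map fun x hx φ _ _ => ?_
  rw [SetLike.mem_coe, mem_bot] at hx ⊢
  rw [hx, map_zero]

theorem Sys.def_top (Γ : Sys p W) : Γ.Def ⊤ := by
  exact fun _ _ _ _ => trivial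

end Pool.Agent.P.MP_f1a348_lc.LS
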