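import Pool.Agent.P.MP_f1a348_lc.LS.Base
import Pool.Agent.P.MP_f1a348_lc.LS.TSP

/-! Step EXT. -/

set_option autoImplicit false
set_option linter.unusedSectionVars false

namespace Pool.Agent.P.MP_f1a348_lc.LS

open Module Submodule

variable {p : ℕ} [Fact p.Prime] {W : Type} [AddCommGroup W] [Module (ZMod p) W] [Fintype W]
  {Γ : Sys p W} {ι : Type} [Fintype ι] {P P' P'' R R' b : List (Pm p W)} {φ ψ : Iso p W}
  {A B B' D T U U' V : Sub p W} {S X Y : Set W} {a a' c v w x x' y y' z μ : W} {n m r : ℕ}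
  {s t : ι} {l l' : List W}

namespace EXTx

theorem fr1 (U : Sub p W) (a : W) :
    finrank (ZMod p) (U ⊔ span (ZMod p) {a} : Sub p W) ≤ finrank (ZMod p) U + 1 := by
  refine (Submodule.finrank_add_le_finrank_add_finrank _ _).trans (Nat.add_le_add_left ?_ _)
  exact (finrank_span_le_card ({a} : Set W)).trans (by simp)

theorem extL (l : List W) : ∀ (U : Sub p W) (φ : Iso p W), Γ.L U φ →
    finrank (ZMod p) U + l.length ≤ Γ.M →
    ∃ φ', Γ.L (U ⊔ span (ZMod p) {x | x ∈ l}) φ' ∧ ∀ x ∈ U, φ' x = φ x := by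
  induction l with
  | nil =>
    intro U φ h _
    exact ⟨φ, by simpa using h, fun _ _ => rfl⟩
  | cons a l ih =>
    intro U φ h hd
    rw [List.length_cons] at hd
    obtain ⟨e, he⟩ := Γ.ext h (by omega)
    obtain ⟨φ₁, h1, h2, -⟩ := he a
    obtain ⟨φ₂, h3, h4⟩ := ih _ φ₁ h1 (by have := fr1 U a; omega)
    refine ⟨φ₂, ?_, fun x hx => (h4 x (mem_sup_left hx)).trans (h2 x hx)⟩
    have e1 : {x | x ∈ a :: l} = ({a} : Set W) ∪ {x | x ∈ l} := by
      ext x; simp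
    rw [e1, span_union, ← sup_assoc]
    exact h3

end EXTx

-- induction on a basis of `U'` with the field `ext`
theorem Sys.extU (h : Γ.L U φ) (U' : Sub p W)
    (hd : finrank (ZMod p) U + finrank (ZMod p) U' ≤ Γ.M) :
    ∃ φ', Γ.L (U ⊔ U') φ' ∧ ∀ x ∈ U, φ' x = φ x := by
  let e := Module.finBasis (ZMod p) U'
  obtain ⟨φ', h1, h2⟩ := EXTx.extL (List.ofFn fun i => (e i : W)) U φ h (by simpa using hd)
  refine ⟨φ', Γ.loc h1 (sup_le_sup_left ?_ _) fun _ _ => rfl, h2⟩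
  intro x hx
  have h3 : x = ∑ i, e.repr ⟨x, hx⟩ i • (e i : W) := by
    have := congrArg Subtype.val (e.sum_repr ⟨x, hx⟩)
    rw [Submodule.coe_sum] at this
    exact this.symm
  rw [h3]
  exact sum_mem fun i _ => smul_mem _ _ (subset_span (by simp))

theorem Sys.extP (h : Γ.L (sp P) φ) (R : List (Pm p W)) (hd : R.length + P.length ≤ Γ.M) :
    ∃ φ', Γ.L (sp (R ++ P)) φ' ∧ ∀ x ∈ sp P, φ' x = φ x := by
  obtain ⟨φ', h1, h2⟩ := Sys.extU h (sp R)
    (by have := finrank_sp P; have := finrank_sp R; omega)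
  exact ⟨φ', by rw [sp_append, sup_comm]; exact h1, h2⟩

theorem Sys.ext_onto (h : Γ.L U φ) (hd : finrank (ZMod p) U < Γ.M) (y : W) :
    ∃ x φ', Γ.L (U ⊔ span (ZMod p) {x}) φ' ∧ (∀ u ∈ U, φ' u = φ u) ∧ φ' x = y := by
  obtain ⟨e, he⟩ := Γ.ext h hd
  obtain ⟨φ', h1, h2, h3⟩ := he (e.symm y)
  exact ⟨e.symm y, φ', h1, h2, h3.trans (e.apply_symm_apply y)⟩

end Pool.Agent.P.MP_f1a348_lc.LS
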