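import Pool.Agent.P.MP_f1a348_lc.LS.Base
import Pool.Agent.P.MP_f1a348_lc.LS.TEXT

/-! Step SIM. -/

set_option autoImplicit false
set_option linter.unusedSectionVars false

namespace Pool.Agent.P.MP_f1a348_lc.LS

open Module Submodule

variable {p : ℕ} [Fact p.Prime] {W : Type} [AddCommGroup W] [Module (ZMod p) W] [Fintype W]
  {Γ : Sys p W} {ι : Type} [Fintype ι] {P P' P'' R R' b : List (Pm p W)} {φ ψ : Iso p W}
  {A B B' D T U U' V : Sub p W} {S X Y : Set W} {a a' c v w x x' y y' z μ : W} {n m r : ℕ}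
  {s t : ι} {l l' : List W}

namespace SIMx

theorem mv_comp (h : Mv φ P P') (h' : Mv ψ P' P'')
    (hc : ∀ e ∈ P, ∀ e' ∈ P', φ e.2 - e'.2 ∈ e.1 → ψ (φ e.2 - e'.2) ∈ e.1) :
    Mv (ψ * φ) P P'' := by
  induction h generalizing P'' with
  | nil => cases h'; exact List.Forall₂.nil
  | @cons e e' Q Q' h1 _ ih =>
    cases h' with
    | @cons _ e'' _ Q'' h2 h3 =>
      refine List.Forall₂.cons ⟨h2.1.trans h1.1, ?_⟩ (ih h3 fun d hd d' hd' =>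
        hc d (List.mem_cons_of_mem _ hd) d' (List.mem_cons_of_mem _ hd'))
      have h4 := hc e List.mem_cons_self e' List.mem_cons_self h1.2
      have h5 := h2.2
      rw [h1.1] at h5
      have h6 := e.1.add_mem h4 h5
      rwa [map_sub, sub_add_sub_cancel] at h6

theorem mv_inv (h : Mv φ P P') (he : ∀ e ∈ P, ψ (φ e.2) = e.2)
    (hc : ∀ e ∈ P, ∀ e' ∈ P', φ e.2 - e'.2 ∈ e.1 → ψ (φ e.2 - e'.2) ∈ e.1) :
    Mv ψ P' P := by
  induction h with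
  | nil => exact List.Forall₂.nil
  | @cons e e' Q Q' h1 _ ih =>
    refine List.Forall₂.cons ⟨h1.1.symm, ?_⟩ (ih (fun d hd => he d (List.mem_cons_of_mem _ hd))
      fun d hd d' hd' => hc d (List.mem_cons_of_mem _ hd) d' (List.mem_cons_of_mem _ hd'))
    have h4 := e.1.neg_mem (hc e List.mem_cons_self e' List.mem_cons_self h1.2)
    rw [map_sub, he e List.mem_cons_self, neg_sub] at h4
    rw [h1.1]; exact h4

theorem rank_map (φ : Iso p W) (P : List (Pm p W)) :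
    finrank (ZMod p) ((sp P).map (φ : W →ₗ[ZMod p] W)) ≤ P.length :=
  (Submodule.finrank_map_le _ _).trans (finrank_sp P)

end SIMx

theorem Sys.Sim.refl (Γ : Sys p W) (P : List (Pm p W)) : Γ.Sim P P := by
  exact ⟨1, Γ.one _, mv_self.2 fun e _ => by simp⟩

theorem Sys.Sim.length (h : Γ.Sim P P') : P.length = P'.length := by
  obtain ⟨φ, -, h⟩ := h
  exact (mv_iff.1 h).1

theorem Sys.Sim.ok (h : Γ.Sim P P') (hP : Γ.Ok n P) : Γ.Ok n P' := by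
  refine ⟨h.length ▸ hP.1, fun e' he' => ?_⟩
  obtain ⟨φ, -, h⟩ := h
  obtain ⟨h1, h2⟩ := mv_iff.1 h
  rw [← List.map_snd_zip (l₁ := P) (l₂ := P') h1.ge] at he'
  obtain ⟨e, he, rfl⟩ := List.mem_map.1 he'
  rw [(h2 e he).1]
  exact hP.2 _ (List.of_mem_zip (a := e.1) (b := e.2) he).1

-- extend the inverse (local on the image of `sp P`) to `sp P'`; the moduli are closed
theorem Sys.Sim.symm (h : Γ.Sim P P') (hP : Γ.Ok n P) (hn : 2 * n ≤ Γ.M) : Γ.Sim P' P := by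
  have hl := h.length
  obtain ⟨φ, h1, h2⟩ := h
  have h3 : Γ.L ((sp P).map (φ : W →ₗ[ZMod p] W)) φ⁻¹ := Γ.inv h1 (by
    rintro _ ⟨z, hz, rfl⟩
    simpa using hz)
  have r1 := SIMx.rank_map φ P
  have r2 := finrank_sp P'
  have r3 := hP.1
  obtain ⟨ψ, h4, h5⟩ := Sys.extU h3 (sp P') (by omega)
  refine ⟨ψ, Sys.mono h4 le_sup_right, SIMx.mv_inv h2 (fun e he => ?_) fun e he e' he' hm => ?_⟩
  · rw [h5 (φ e.2) ⟨e.2, mem_sp he, rfl⟩]; simp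
  · exact (hP.2 e he).map h4
      (sub_mem (mem_sup_left ⟨e.2, mem_sp he, rfl⟩) (mem_sup_right (mem_sp he'))) hm

-- extend the second map to the image of `sp P` under the first
theorem Sys.Sim.trans (h : Γ.Sim P P') (h' : Γ.Sim P' P'') (hP : Γ.Ok n P) (hn : 2 * n ≤ Γ.M) :
    Γ.Sim P P'' := by
  have hl := h.length
  obtain ⟨φ, h1, h2⟩ := h
  obtain ⟨ψ, h3, h4⟩ := h'
  have r1 := SIMx.rank_map φ P
  have r2 := finrank_sp P'
  have r3 := hP.1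
  obtain ⟨ψ', h5, h6⟩ := Sys.extU h3 ((sp P).map (φ : W →ₗ[ZMod p] W)) (by omega)
  refine ⟨ψ' * φ, Γ.mul h1 h5 fun z hz => mem_sup_right ⟨z, hz, rfl⟩,
    SIMx.mv_comp h2 (h4.congr h6) fun e he e' he' hm => ?_⟩
  exact (hP.2 e he).map h5
    (sub_mem (mem_sup_right ⟨e.2, mem_sp he, rfl⟩) (mem_sup_left (mem_sp he'))) hm

/-- sublists, permutations, repetitions -/
theorem Sys.Sim.of_zip (h : Γ.Sim P P') (hl : R.length = R'.length)
    (hz : R.zip R' ⊆ P.zip P') : Γ.Sim R R' := by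
  obtain ⟨φ, h1, h2⟩ := h
  refine ⟨φ, Sys.mono h1 (sp_mono fun e he => ?_),
    mv_iff.2 ⟨hl, fun e he => (mv_iff.1 h2).2 e (hz he)⟩⟩
  rw [← List.map_fst_zip (l₁ := R) (l₂ := R') hl.le] at he
  obtain ⟨d, hd, rfl⟩ := List.mem_map.1 he
  exact (List.of_mem_zip (a := d.1) (b := d.2) (hz hd)).1

theorem Sys.Sim.tail {e e' : Pm p W} (h : Γ.Sim (e :: P) (e' :: P')) : Γ.Sim P P' := by
  obtain ⟨φ, h1, h2⟩ := h
  exact ⟨φ, Sys.mono h1 (sp_mono (List.subset_cons_self _ _)), (List.forall₂_cons.1 h2).2⟩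

theorem Sys.Sim.swap {e e' f f' : Pm p W} (h : Γ.Sim (e :: f :: P) (e' :: f' :: P')) :
    Γ.Sim (f :: e :: P) (f' :: e' :: P') := by
  obtain ⟨φ, h1, h2⟩ := h
  obtain ⟨h3, h4⟩ := List.forall₂_cons.1 h2
  obtain ⟨h5, h6⟩ := List.forall₂_cons.1 h4
  exact ⟨φ, Sys.mono h1 (sp_mono (List.Perm.swap e f P).subset),
    List.Forall₂.cons h5 (List.Forall₂.cons h3 h6)⟩

theorem Sys.Sim.coarse (h : Γ.Sim ((B, x) :: P) ((B, y) :: P')) (hB : B ≤ B') :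
    Γ.Sim ((B', x) :: P) ((B', y) :: P') := by
  obtain ⟨φ, h1, h2⟩ := h
  obtain ⟨-, h3, h4⟩ := mv_cons.1 h2
  rw [sp_cons] at h1
  exact ⟨φ, by rw [sp_cons]; exact h1, mv_cons.2 ⟨rfl, hB h3, h4⟩⟩

theorem Sys.Sim.bij (h : Γ.Sim P P') (hn : P.length < Γ.M) :
    ∃ e : W ≃ W, ∀ B w, Γ.Sim ((B, w) :: P) ((B, e w) :: P') := by
  obtain ⟨φ, h1, h2⟩ := h
  obtain ⟨e, he⟩ := Γ.ext h1 ((finrank_sp P).trans_lt hn)
  refine ⟨e, fun B w => ?_⟩
  obtain ⟨ψ, h3, h4, h5⟩ := he w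
  refine ⟨ψ, by rw [sp_cons, sup_comm]; exact h3, mv_cons.2 ⟨rfl, ?_, h2.congr h4⟩⟩
  rw [h5, sub_self]; exact B.zero_mem

theorem Sys.Sim.extend (h : Γ.Sim P P') (R : List (Pm p W)) (hn : R.length + P.length ≤ Γ.M) :
    ∃ R', Γ.Sim (R ++ P) (R' ++ P') := by
  obtain ⟨φ, h1, h2⟩ := h
  obtain ⟨ψ, h3, h4⟩ := Sys.extP h1 R hn
  exact ⟨_, ψ, h3, (mv_map ψ R).append (h2.congr h4)⟩

theorem Sys.Sim.sub_mem_cls (h : Γ.Sim ((B, y) :: (B, x) :: P) ((B, y') :: (B, x') :: P)) :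
    x' - y' ∈ Γ.cls P B (x - y) := by
  obtain ⟨φ, h1, h2⟩ := h
  obtain ⟨-, h3, h4⟩ := mv_cons.1 h2
  obtain ⟨-, h5, h6⟩ := mv_cons.1 h4
  refine Sys.mem_cls.2 ⟨φ, Sys.mono h1 (sp_le.2 fun e he => ?_), mv_self.1 h6, ?_⟩
  · rcases List.mem_cons.1 he with rfl | he
    · exact sub_mem (mem_sp (e := (B, x)) (by simp)) (mem_sp (e := (B, y)) (by simp))
    · exact mem_sp (List.mem_cons_of_mem _ (List.mem_cons_of_mem _ he))
  · have h7 := B.sub_mem h5 h3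
    rw [map_sub]
    rwa [sub_sub_sub_comm] at h7

end Pool.Agent.P.MP_f1a348_lc.LS
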