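import Pool.Agent.P.MP_f1a348_lc.LS.Base
import Pool.Agent.P.MP_f1a348_lc.LS.TSIM

/-! Step CLS. -/

set_option autoImplicit false
set_option linter.unusedSectionVars false

namespace Pool.Agent.P.MP_f1a348_lc.LS

open Module Submodule

variable {p : ℕ} [Fact p.Prime] {W : Type} [AddCommGroup W] [Module (ZMod p) W] [Fintype W]
  {Γ : Sys p W} {ι : Type} [Fintype ι] {P P' P'' R R' b : List (Pm p W)} {φ ψ : Iso p W}
  {A B B' D T U U' V : Sub p W} {S X Y : Set W} {a a' c v w x x' y y' z μ : W} {n m r : ℕ}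
  {s t : ι} {l l' : List W}

theorem Sys.self_mem_cls (Γ : Sys p W) (P : List (Pm p W)) (B : Sub p W) (x : W) :
    x ∈ Γ.cls P B x := by
  exact Sys.Sim.refl Γ _

theorem Sys.cls_add (hy : y ∈ Γ.cls P B x) (hz : y - z ∈ B) : z ∈ Γ.cls P B x := by
  obtain ⟨φ, h1, h2, h3⟩ := Sys.mem_cls.1 hy
  refine Sys.mem_cls.2 ⟨φ, h1, h2, ?_⟩
  have := B.add_mem h3 hz
  rwa [sub_add_sub_cancel] at this

theorem Sys.cls_mono (h : P ⊆ P') (B : Sub p W) (x : W) : Γ.cls P' B x ⊆ Γ.cls P B x := by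
  intro y hy
  obtain ⟨φ, h1, h2, h3⟩ := Sys.mem_cls.1 hy
  exact Sys.mem_cls.2 ⟨φ, Sys.mono h1 (sp_mono (List.cons_subset_cons _ h)), h2.mono h, h3⟩

theorem Sys.cls_coarse (h : B ≤ B') (P : List (Pm p W)) (x : W) : Γ.cls P B x ⊆ Γ.cls P B' x := by
  intro y hy
  exact Sys.Sim.coarse hy h

theorem Sys.nc_le_cls (Γ : Sys p W) (P : List (Pm p W)) (B : Sub p W) (x : W) :
    nc B ≤ (Γ.cls P B x).ncard := by
  rw [nc, ← Set.ncard_image_of_injective (B : Set W) (sub_right_injective (b := x))]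
  refine Set.ncard_le_ncard ?_ (Set.toFinite _)
  rintro _ ⟨u, hu, rfl⟩
  exact Sys.cls_add (Γ.self_mem_cls P B x) (by simpa using hu)

theorem Sys.cls_sub (hU : Γ.Inv P U) (hB : B ≤ U) (hx : x ∈ U) : Γ.cls P B x ⊆ U := by
  intro y hy
  obtain ⟨φ, h1, h2, h3⟩ := Sys.mem_cls.1 hy
  have h4 : φ x ∈ U := Sys.Inv.map hU h1 (sp_mono (List.subset_cons_self _ _)) h2
    (mem_sp (e := (B, x)) List.mem_cons_self) hx
  have := U.sub_mem h4 (hB h3)
  rwa [sub_sub_cancel] at this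

theorem Sys.cls_symm (hP : Γ.Ok n P) (hB : Γ.Def B) (hn : 2 * n + 2 ≤ Γ.M)
    (h : y ∈ Γ.cls P B x) : x ∈ Γ.cls P B y := by
  exact Sys.Sim.symm h (hP.cons hB x) (by omega)

theorem Sys.cls_trans (hP : Γ.Ok n P) (hB : Γ.Def B) (hn : 2 * n + 2 ≤ Γ.M)
    (h : y ∈ Γ.cls P B x) (h' : z ∈ Γ.cls P B y) : z ∈ Γ.cls P B x := by
  exact Sys.Sim.trans h h' (hP.cons hB x) (by omega)

theorem Sys.cls_eq (hP : Γ.Ok n P) (hB : Γ.Def B) (hn : 2 * n + 2 ≤ Γ.M)
    (h : y ∈ Γ.cls P B x) : Γ.cls P B y = Γ.cls P B x := by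
  exact Set.Subset.antisymm (fun _ hz => Sys.cls_trans hP hB hn h hz)
    fun _ hz => Sys.cls_trans hP hB hn (Sys.cls_symm hP hB hn h) hz

theorem Sys.cls_inv (hP : Γ.Ok n P) (hB : Γ.Def B) (hn : 2 * n + 2 ≤ Γ.M) (x : W) :
    Γ.Inv P (Γ.cls P B x) := by
  exact fun y hy z hz => Sys.cls_trans hP hB hn hy (Sys.cls_coarse bot_le P y hz)

theorem Sys.Inv.mono (h : Γ.Inv P S) (hs : P ⊆ P') : Γ.Inv P' S := by
  exact fun x hx => (Sys.cls_mono hs ⊥ x).trans (h x hx)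

theorem Sys.Def.inv (h : Γ.Def U) (P : List (Pm p W)) : Γ.Inv P U := by
  exact Sys.Inv.mono h (List.nil_subset P)

/-- a combination of parameters with moduli inside `B` is fixed modulo `B` -/
theorem Sys.cls_fixed (hB : Γ.Def B) (hR : R ⊆ P) (hm : ∀ e ∈ R, e.1 ≤ B) (hx : x ∈ sp R ⊔ B)
    (hy : y ∈ Γ.cls P B x) : y - x ∈ B := by
  obtain ⟨φ, h1, h2, h3⟩ := Sys.mem_cls.1 hy
  obtain ⟨u, hu, q, hq, e⟩ := Submodule.mem_sup.1 hx
  have h4 : φ u - u ∈ B := (h2.mono hR).sub_mem hm hu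
  have h5 : q ∈ sp ((B, x) :: P) := by
    rw [show q = x - u by rw [← e, add_sub_cancel_left]]
    exact Submodule.sub_mem _ (mem_sp (e := (B, x)) List.mem_cons_self)
      (sp_mono (List.subset_cons_of_subset _ hR) hu)
  have h6 : φ q ∈ B := Sys.Def.map hB h1 h5 hq
  have h7 := B.sub_mem (B.add_mem h4 (B.sub_mem h6 hq)) h3
  rwa [show φ u - u + (φ q - q) - (φ x - y) = y - x by rw [← e, map_add]; abel] at h7

theorem Sys.cls_fixed_card (hB : Γ.Def B) (hR : R ⊆ P) (hm : ∀ e ∈ R, e.1 ≤ B)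
    (hx : x ∈ sp R ⊔ B) : (Γ.cls P B x).ncard = nc B := by
  refine le_antisymm ?_ (Γ.nc_le_cls P B x)
  exact Set.ncard_le_ncard_of_injOn (fun y => y - x) (fun y hy => Sys.cls_fixed hB hR hm hx hy)
    (sub_left_injective.injOn) (Set.toFinite _)

/-- reflection in a fixed coset -/
theorem Sys.cls_sub_card (h : (B, x) ∈ P) (y : W) :
    (Γ.cls P B (x - y)).ncard = (Γ.cls P B y).ncard := by
  have key : ∀ u, (Γ.cls P B u).ncard ≤ (Γ.cls P B (x - u)).ncard := by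
    intro u
    refine Set.ncard_le_ncard_of_injOn (fun z => x - z) (fun z hz => ?_)
      (sub_right_injective.injOn) (Set.toFinite _)
    obtain ⟨φ, h1, h2, h3⟩ := Sys.mem_cls.1 hz
    refine Sys.mem_cls.2 ⟨φ, Sys.mono h1 (sp_le.2 fun e he => ?_), h2, ?_⟩
    · rcases List.mem_cons.1 he with rfl | he
      · exact Submodule.sub_mem _ (mem_sp (e := (B, x)) (List.mem_cons_of_mem _ h))
          (mem_sp (e := (B, u)) List.mem_cons_self)
      · exact mem_sp (List.mem_cons_of_mem _ he)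
    · have h4 := B.sub_mem (h2 _ h) h3
      rwa [show φ x - x - (φ u - z) = φ (x - u) - (x - z) by rw [map_sub]; abel] at h4
  refine le_antisymm ?_ (key y)
  have := key (x - y)
  rwa [sub_sub_cancel] at this

end Pool.Agent.P.MP_f1a348_lc.LS
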