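import Pool.Agent.P.MP_f1a348_lc.LS.Base
import Pool.Agent.P.MP_f1a348_lc.LS.TCLS

/-! Step SPAN. -/

set_option autoImplicit false
set_option linter.unusedSectionVars false

namespace Pool.Agent.P.MP_f1a348_lc.LS

open Module Submodule

variable {p : ℕ} [Fact p.Prime] {W : Type} [AddCommGroup W] [Module (ZMod p) W] [Fintype W]
  {Γ : Sys p W} {ι : Type} [Fintype ι] {P P' P'' R R' b : List (Pm p W)} {φ ψ : Iso p W}
  {A B B' D T U U' V : Sub p W} {S X Y : Set W} {a a' c v w x x' y y' z μ : W} {n m r : ℕ}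
  {s t : ι} {l l' : List W}

-- span induction: extend the map to one summand, restrict to each summand
theorem Sys.Inv.span (h : Γ.Inv P S) (hn : P.length + 2 ≤ Γ.M) :
    Γ.Inv P (span (ZMod p) S : Sub p W) := by
  refine Sys.inv_of_map fun x hx => ?_
  have key : ∀ (z x : W) (φ : Iso p W), Γ.L (sp ((⊥, z) :: P)) φ → Fx φ P →
      ∃ φ' : Iso p W, φ' z = φ z ∧ Fx φ' P ∧
        ∀ y ∈ Submodule.span (ZMod p) {z} ⊔ Submodule.span (ZMod p) {x}, Γ.L (sp ((⊥, y) :: P)) φ' := by
    intro z x φ hL hf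
    have h1 := finrank_sp ((⊥, z) :: P)
    have h2 : finrank (ZMod p) (Submodule.span (ZMod p) ({x} : Set W)) ≤ 1 := by
      simpa using finrank_span_le_card (R := ZMod p) ({x} : Set W)
    obtain ⟨φ', hL', he⟩ := Sys.extU hL (Submodule.span (ZMod p) {x})
      (by rw [List.length_cons] at h1; omega)
    refine ⟨φ', he z (mem_sp (e := (⊥, z)) List.mem_cons_self), fun e he' => ?_, fun y hy => ?_⟩
    · rw [he e.2 (mem_sp (List.mem_cons_of_mem _ he'))]
      exact hf e he'
    · refine Sys.mono hL' ?_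
      rw [sp_cons, sp_cons]
      refine sup_le ((span_singleton_le_iff_mem _ _).2 ?_) (le_sup_of_le_left le_sup_right)
      exact SetLike.le_def.1 (sup_le_sup_right le_sup_left _) hy
  induction hx using span_induction with
  | mem x hx =>
    intro φ hL hf
    exact subset_span (Sys.Inv.map h hL (sp_mono (List.subset_cons_self _ _)) hf
      (mem_sp (e := (⊥, x)) List.mem_cons_self) hx)
  | zero => intro φ _ _; simp
  | add x y _ _ ihx ihy =>
    intro φ hL hf
    obtain ⟨φ', h1, h2, h3⟩ := key (x + y) x φ hL hf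
    rw [← h1, map_add]
    refine add_mem (ihx φ' (h3 x (mem_sup_right (mem_span_singleton_self x))) h2)
      (ihy φ' (h3 y ?_) h2)
    have := sub_mem (mem_sup_left (T := Submodule.span (ZMod p) {x})
      (mem_span_singleton_self (R := ZMod p) (x + y)))
      (mem_sup_right (mem_span_singleton_self (R := ZMod p) x))
    rwa [add_sub_cancel_left] at this
  | smul a x _ ihx =>
    intro φ hL hf
    obtain ⟨φ', h1, h2, h3⟩ := key (a • x) x φ hL hf
    rw [← h1, map_smul]
    exact smul_mem _ a (ihx φ' (h3 x (mem_sup_right (mem_span_singleton_self x))) h2)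

theorem Sys.Inv.sup (hU : Γ.Inv P U) (hV : Γ.Inv P V) (hn : P.length + 2 ≤ Γ.M) :
    Γ.Inv P (U ⊔ V : Sub p W) := by
  have h : Γ.Inv P ((U : Set W) ∪ V) := by
    rintro x (hx | hx)
    · exact (hU x hx).trans Set.subset_union_left
    · exact (hV x hx).trans Set.subset_union_right
  have h2 := Sys.Inv.span h hn
  rwa [span_union, span_eq, span_eq] at h2

theorem Sys.Inv.inf (hU : Γ.Inv P U) (hV : Γ.Inv P V) : Γ.Inv P (U ⊓ V : Sub p W) := by
  intro x hx y hy
  exact ⟨hU x hx.1 hy, hV x hx.2 hy⟩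

theorem Sys.Inv.sSup {F : Set (Sub p W)} (h : ∀ U ∈ F, Γ.Inv P U) (hn : P.length + 2 ≤ Γ.M) :
    Γ.Inv P (sSup F : Sub p W) := by
  have h1 : Γ.Inv P (⋃ U : F, ((U : Sub p W) : Set W)) := by
    intro x hx y hy
    obtain ⟨U, hU⟩ := Set.mem_iUnion.1 hx
    exact Set.mem_iUnion.2 ⟨U, h U U.2 x hU hy⟩
  have h2 := Sys.Inv.span h1 hn
  rwa [← iSup_eq_span, ← sSup_eq_iSup'] at h2

-- `ext_onto`, `pres`, `cls_symm`
theorem Sys.Inv.perp (hU : Γ.Inv P U) (hP : Γ.Ok n P) (hn : 2 * n + 2 ≤ Γ.M) :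
    Γ.Inv P (Γ.perp U) := by
  refine Sys.inv_of_map fun x hx φ hL hf u hu => ?_
  have h1 := finrank_sp ((⊥, x) :: P)
  have h2 := hP.1
  obtain ⟨x', φ', hL', he, hx'⟩ := Sys.ext_onto hL (by rw [List.length_cons] at h1; omega) u
  have hx0 : x ∈ sp ((⊥, x) :: P) := mem_sp (e := (⊥, x)) List.mem_cons_self
  have hf' : Fx φ' P := by
    intro e he'
    rw [he e.2 (mem_sp (List.mem_cons_of_mem _ he'))]
    exact hf e he'
  have h3 := Sys.map_mem_cls hL' (le_sup_of_le_left (sp_mono (List.subset_cons_self _ _))) hf'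
    (mem_sup_right (mem_span_singleton_self x')) ⊥
  rw [hx'] at h3
  have h4 : x' ∈ U := hU u hu (Sys.cls_symm hP Γ.def_bot hn h3)
  have h5 := Γ.pres hL' (mem_sup_right (mem_span_singleton_self x')) (mem_sup_left hx0)
  rw [hx', he x hx0] at h5
  exact h5.trans (hx x' h4)

theorem Sys.perp_perp (Γ : Sys p W) (U : Sub p W) : Γ.perp (Γ.perp U) = U := by
  exact LinearMap.BilinForm.orthogonal_orthogonal Γ.nd
    (fun u v h => (Γ.symm v u).trans h) U

theorem Sys.finrank_perp (Γ : Sys p W) (U : Sub p W) :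
    finrank (ZMod p) (Γ.perp U) + finrank (ZMod p) U = finrank (ZMod p) W := by
  have h1 := LinearMap.BilinForm.finrank_orthogonal Γ.nd U
  have h2 := Submodule.finrank_le U
  unfold Sys.perp
  omega

theorem Sys.mem_perp : x ∈ Γ.perp U ↔ ∀ u ∈ U, Γ.β u x = 0 := by
  exact Iff.rfl

end Pool.Agent.P.MP_f1a348_lc.LS
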