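import Pool.Agent.P.MP_f1a348_lc.LS.DefsA
import Pool.Agent.P.MP_f1a348_lc.LS.TSPAN

/-! Step ZFIN. -/

set_option autoImplicit false
set_option linter.unusedSectionVars false

namespace Pool.Agent.P.MP_f1a348_lc.LS

open Module Submodule
open scoped Classical

variable {p : ℕ} [Fact p.Prime] {W : Type} [AddCommGroup W] [Module (ZMod p) W] [Fintype W]
  {Γ Γ' Γ'' : Sys p W} {C C' : Finset (Sub p W)} {A B A' B' D D' U V : Sub p W}
  {g m i j n L ρ : ℕ} {v x y : W} {P : List (Pm p W)} {r : Pin p W}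

theorem Finer.refl (Γ : Sys p W) : Finer Γ Γ := by
  exact ⟨rfl, rfl, fun _ _ h => h⟩

theorem Finer.trans (h : Finer Γ'' Γ') (h' : Finer Γ' Γ) : Finer Γ'' Γ := by
  exact ⟨h.M.trans h'.M, h.β.trans h'.β, fun U φ e => h'.L U φ (h.L U φ e)⟩

theorem Finer.cls (h : Finer Γ' Γ) (P : List (Pm p W)) (B : Sub p W) (x : W) :
    Γ'.cls P B x ⊆ Γ.cls P B x := by
  rintro y ⟨φ, h1, h2⟩
  exact ⟨φ, h.L _ _ h1, h2⟩

theorem Finer.df (h : Finer Γ' Γ) (hU : Γ.Def U) : Γ'.Def U := by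
  exact fun x hx => (h.cls _ _ _).trans (hU x hx)

theorem Finer.chain (h : Finer Γ' Γ) (hc : Chain Γ C) : Chain Γ' C := by
  refine ⟨hc.bot, hc.top, hc.tot, fun A hA => ?_, fun A hA => h.df (hc.df A hA)⟩
  have := hc.perp A hA
  unfold Sys.perp at this ⊢
  rw [h.β]
  exact this

theorem Finer.pinned (h : Finer Γ' Γ) (hp : Γ.Pinned B A) : Γ'.Pinned B A := by
  exact fun x hx y hy => hp x hx y (h.cls _ _ _ hy)

theorem Finer.held (h : Finer Γ' Γ) (hp : Held Γ U v) : Held Γ' U v := by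
  exact fun y hy => hp y (h.cls _ _ _ hy)

theorem mem_cls_mod : y ∈ Γ.cls P B x ↔ ∃ z ∈ Γ.cls P ⊥ x, z - y ∈ B := by
  constructor
  · intro h
    obtain ⟨φ, h1, h2, h3⟩ := Sys.mem_cls.1 h
    refine ⟨φ x, Sys.mem_cls.2 ⟨φ, ?_, h2, by simp⟩, h3⟩
    rw [sp_cons] at h1 ⊢
    exact h1
  · rintro ⟨z, h1, h2⟩
    exact Sys.cls_add (Sys.cls_coarse bot_le P x h1) h2

theorem def_hull (hM : 4 ≤ Γ.M) (hB : Γ.Def B) (v : W) :
    Γ.Def (B ⊔ span (ZMod p) (Γ.cls [] ⊥ v)) := by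
  have h2 : ([] : List (Pm p W)).length + 2 ≤ Γ.M := by simp only [List.length_nil]; omega
  exact Sys.Inv.sup hB (Sys.Inv.span
    (Sys.cls_inv (Γ.ok_nil 0) Γ.def_bot (by omega) v) h2) h2

theorem hull_le (hU : Γ.Def U) (hB : B ≤ U) (hv : v ∈ U) : B ⊔ span (ZMod p) (Γ.cls [] ⊥ v) ≤ U := by
  exact sup_le hB (span_le.2 (hU v hv))

theorem Held.hull (h : Held Γ B v) :
    B ⊔ span (ZMod p) (Γ.cls [] ⊥ v) = B ⊔ span (ZMod p) {v} := by
  refine le_antisymm (sup_le le_sup_left (span_le.2 fun y hy => ?_))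
    (sup_le_sup_left (span_mono (Set.singleton_subset_iff.2 (Γ.self_mem_cls _ _ _))) _)
  have e : y = (y - v) + v := (sub_add_cancel y v).symm
  rw [e]
  exact add_mem (mem_sup_left (h y hy)) (mem_sup_right (mem_span_singleton_self v))

theorem def_sInf {F : Set (Sub p W)} (h : ∀ U ∈ F, Γ.Def U) : Γ.Def (sInf F) := by
  intro x hx y hy
  exact Submodule.mem_sInf.2 fun U hU => h U hU x (Submodule.mem_sInf.1 hx U hU) hy

-- extend the map inside `Γ'` to `sp P` (`extP`); it fixes the representatives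
theorem Finer.cls_pins (h : Finer Γ' Γ) (hP : ∀ c ∈ P, Held Γ' ⊥ c.2) (hM : P.length + 1 ≤ Γ.M)
    (x : W) : Γ'.cls [] ⊥ x ⊆ Γ.cls P ⊥ x := by
  intro y hy
  obtain ⟨φ, h1, -, h3⟩ := Sys.mem_cls.1 hy
  obtain ⟨ψ, h4, h5⟩ := Sys.extP h1 P (by rw [h.M]; simpa using hM)
  have hx : x ∈ sp [((⊥ : Sub p W), x)] := mem_sp (e := (⊥, x)) (by simp)
  refine Sys.mem_cls.2 ⟨ψ, h.L _ _ (Sys.mono h4 (sp_mono ?_)), fun c hc => ?_, ?_⟩
  · intro e he
    rcases List.mem_cons.1 he with rfl | he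
    · simp
    · simp [he]
  · have h6 : ψ c.2 ∈ Γ'.cls [] ⊥ c.2 :=
      Sys.map_mem_cls h4 (by rw [sp_nil]; exact bot_le) (fun _ h => by simp at h)
        (mem_sp (by simp [hc])) ⊥
    exact (bot_le : (⊥ : Sub p W) ≤ c.1) (hP c hc _ h6)
  · rw [h5 x hx]
    exact h3

theorem Good.held_eq (h : Good Γ C) (hl : Layer C B A) (hv : v ∈ A) (hv' : v ∉ B)
    (hh : Held Γ B v) : B ⊔ span (ZMod p) {v} = A := by
  rw [← hh.hull]
  refine h.closed B A hl _ (def_hull h.ar (h.chain.df B hl.1) v) ?_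
    (hull_le (h.chain.df A hl.2.1) hl.2.2.1.le hv)
  refine lt_of_le_of_ne le_sup_left fun e => hv' ?_
  rw [e]
  exact mem_sup_right (subset_span (Γ.self_mem_cls _ _ _))

theorem Good.pinned_dim (h : Good Γ C) (hl : Layer C B A) (hp : Γ.Pinned B A) : dm A ≤ dm B + 1 := by
  obtain ⟨v, hv, hv'⟩ := SetLike.exists_of_lt hl.2.2.1
  have hh : Held Γ B v := fun y hy => hp v hv y (Sys.cls_coarse bot_le _ _ hy)
  rw [← h.held_eq hl hv hv' hh]
  exact EXTx.fr1 B v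

theorem nb_mono (h : i ≤ j) (U : Sub p W) (x : W) : Γ.Nb i U x ⊆ Γ.Nb j U x := by
  rintro w ⟨a, h1, h2, h3⟩
  exact ⟨a, h1, h2.trans h, h3⟩

-- the automorphism `1`
theorem nc_le_nb (Γ : Sys p W) (j : ℕ) (U : Sub p W) (x : W) : nc U ≤ (Γ.Nb j U x).ncard := by
  refine Set.ncard_le_ncard_of_injOn (fun u => u + x) (fun u hu => ?_)
    (fun u _ u' _ e => add_right_cancel e) (Set.toFinite _)
  refine ⟨1, fun w => Γ.one _, ?_, by simpa using hu⟩
  have e : ((1 : Iso p W) : W →ₗ[ZMod p] W) - LinearMap.id = 0 := by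
    ext w; simp
  rw [e, LinearMap.range_zero, finrank_bot]
  exact Nat.zero_le _

theorem nb_sub (hM : 4 ≤ Γ.M) (hU : Γ.Def U) (hv : v ∈ Γ.cls [] U x) :
    Γ.Nb j U v ⊆ Γ.cls [] U x := by
  rintro w ⟨a, h1, -, h3⟩
  have h4 : a v ∈ Γ.cls [] U v :=
    Sys.map_mem_cls (h1 v) (by rw [sp_nil]; exact bot_le) (fun _ h => by simp at h)
      (mem_span_singleton_self v) U
  have h5 : a v - w ∈ U := by
    rw [← neg_sub]
    exact neg_mem h3
  exact Sys.cls_trans (Γ.ok_nil 0) hU (by omega) hv (Sys.cls_add h4 h5)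

-- choose `s z ∈ cls P ⊥ x` with `s z - z ∈ D'`; `(z, d) ↦ (s z + d, z - s z - d)` is injective
theorem cls_le_cls (hD : D ≤ D') (hs : Γ'.cls [] ⊥ y ⊆ Γ.cls P ⊥ x) :
    (Γ'.cls [] D' y).ncard * nc D ≤ (Γ.cls P D x).ncard * nc D' := by
  have key : ∀ z, ∃ s, z ∈ Γ'.cls [] D' y → s ∈ Γ.cls P ⊥ x ∧ s - z ∈ D' := by
    intro z
    by_cases hz : z ∈ Γ'.cls [] D' y
    · obtain ⟨s, h1, h2⟩ := mem_cls_mod.1 hz
      exact ⟨s, fun _ => ⟨hs h1, h2⟩⟩
    · exact ⟨0, fun h => (hz h).elim⟩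
  choose s hs' using key
  unfold nc
  rw [← Set.ncard_prod, ← Set.ncard_prod]
  refine Set.ncard_le_ncard_of_injOn (fun q : W × W => (s q.1 + q.2, q.1 - s q.1 - q.2)) ?_ ?_
    (Set.toFinite _)
  · rintro ⟨z, d⟩ ⟨hz, hd⟩
    obtain ⟨h1, h2⟩ := hs' z hz
    refine ⟨Sys.cls_add (Sys.cls_coarse bot_le P x h1) ?_, ?_⟩
    · have e : s z - (s z + d) = -d := by abel
      change s z - (s z + d) ∈ D
      rw [e]
      exact neg_mem hd
    · have e : z - s z - d = -(s z - z) - d := by abel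
      change z - s z - d ∈ D'
      rw [e]
      exact sub_mem (neg_mem h2) (hD hd)
  · rintro ⟨z, d⟩ - ⟨z', d'⟩ - e
    have e1 : s z + d = s z' + d' := congrArg Prod.fst e
    have e2 : z - s z - d = z' - s z' - d' := congrArg Prod.snd e
    have e3 : z = z' := by
      have a1 : z = (s z + d) + (z - s z - d) := by abel
      have a2 : z' = (s z' + d') + (z' - s z' - d') := by abel
      rw [a1, a2, ← e1, ← e2]
    subst e3
    exact Prod.ext rfl (add_left_cancel e1)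

end Pool.Agent.P.MP_f1a348_lc.LS
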