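import Pool.Agent.P.MP_f1a348_lc.LS.DefsP

/-! Step ZARI. -/

set_option autoImplicit false
set_option linter.unusedSectionVars false

namespace Pool.Agent.P.MP_f1a348_lc.LS

open Module Submodule Pool.Agent.Lib.Helper47 Pool.Agent.P.MP_f1a348_lc.GI
open scoped Classical

variable {p k : ℕ} [Fact p.Prime] {f f' e e' : Vk p k → List Bool} {c : Cx} {i j m ρ N : ℕ}
  {T T' : List (Set (Wk p k))} {l l' : List (Pin p (Wk p k))} {r : Pin p (Wk p k)}
  {φ : Iso p (Wk p k)} {v w x y : Wk p k} {A B U : Sub p (Wk p k)} {S S' : Set (Wk p k)}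
  {C C' : Finset (Sub p (Wk p k))} {Cl : List (List Pt)} {σ : FS} {s : AS p k} {b b' : Bool}
  {g : Vk p k ≃ₗ[ZMod p] Vk p k} {tb tb' : Tb}

theorem cv_inj : Function.Injective (cv : Vk p k → Vc) := by
  intro v w h
  funext t
  exact ZMod.val_injective p (congrFun (List.ofFn_injective h) t)

theorem cd_inj : Function.Injective (cd : Wk p k → Pt) := by
  intro v w h
  exact Prod.ext (cv_inj (congrArg Prod.fst h)) (cv_inj (congrArg Prod.snd h))

theorem cv_getD (v : Vk p k) (t : Fin k) : (cv v).getD t 0 = (v t).val := by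
  simp [cv, List.getD_eq_getElem?_getD]

namespace ZARIx

theorem look {s : Tb} (h : TbOf s f) (v : Vk p k) :
    ((s.find? (fun e => e.1 == cv v)).map Prod.snd).getD [] = f v := by
  cases hf : s.find? (fun e => e.1 == cv v) with
  | none =>
    have := List.find?_eq_none.1 hf _ ((h.mem _).2 ⟨v, rfl⟩)
    simp at this
  | some e =>
    obtain ⟨w, rfl⟩ := (h.mem e).1 (List.mem_of_find?_eq_some hf)
    have := List.find?_some hf
    simp only [beq_iff_eq] at this
    simp [cv_inj this]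

theorem cast_sum (a : List ℕ) (u : List (Vk p k)) (t : Fin k) :
    (((List.zipWith (fun x y => x * y.getD t 0) a (u.map cv)).sum : ℕ) : ZMod p) =
      lcomb p a u t := by
  induction a generalizing u with
  | nil => simp [lcomb]
  | cons x a ih =>
    cases u with
    | nil => simp [lcomb]
    | cons w u =>
      have := ih u
      simp only [lcomb, List.map_cons, List.zipWith_cons_cons, List.sum_cons, Nat.cast_add,
        Nat.cast_mul, cv_getD, Pi.add_apply, Pi.smul_apply, smul_eq_mul, ZMod.natCast_val,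
        ZMod.cast_id', id_eq] at this ⊢
      rw [this]

theorem lcomb_prod (a : List ℕ) (u : List (Wk p k)) :
    (lcomb p a u).1 = lcomb p a (u.map Prod.fst) ∧ (lcomb p a u).2 = lcomb p a (u.map Prod.snd) := by
  induction a generalizing u with
  | nil => simp [lcomb]
  | cons x a ih =>
    cases u with
    | nil => simp [lcomb]
    | cons w u =>
      have := ih u
      simp only [lcomb, List.map_cons, List.zipWith_cons_cons, List.sum_cons, Prod.fst_add,
        Prod.snd_add, Prod.smul_fst, Prod.smul_snd] at this ⊢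
      rw [this.1, this.2]
      exact ⟨rfl, rfl⟩

theorem lift (t : List Pt) (h : ∀ x ∈ t, ∃ w : Wk p k, cd w = x) :
    ∃ u : List (Wk p k), t = u.map cd := by
  induction t with
  | nil => exact ⟨[], rfl⟩
  | cons x t ih =>
    obtain ⟨u, rfl⟩ := ih fun y hy => h y (List.mem_cons_of_mem _ hy)
    obtain ⟨w, rfl⟩ := h x List.mem_cons_self
    exact ⟨w :: u, rfl⟩

theorem big (h : Mod c j f f') {n a : ℕ} (hn : n ≤ p ^ k * p ^ k + p ^ j + 2) (ha : a ≤ j + 4) :
    n ^ a ≤ c.pad.length :=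
  ((Nat.pow_le_pow_left hn a).trans (Nat.pow_le_pow_right (by omega) ha)).trans h.big

end ZARIx

theorem Mod.pr_eq (h : Mod c j f f') : c.pr = p := by
  simp [Cx.pr, Cx.rp, h.inp.rp]

theorem Mod.rp_eq (h : Mod c j f f') : c.rp = List.range p := by
  exact h.inp.rp

theorem Mod.ix_eq (h : Mod c j f f') : c.ix = List.range k := by
  exact h.inp.ix

theorem Mod.pg_eq (h : Mod c j f f') : c.pg = p ^ j := by
  rw [Cx.pg, h.pr_eq, h.lev]

theorem Mod.mem_vs (h : Mod c j f f') {z : Vc} : z ∈ c.vs ↔ ∃ v : Vk p k, cv v = z := by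
  simp only [Cx.vs, Cx.tb, cond_false, List.mem_map]
  constructor
  · rintro ⟨e, he, rfl⟩
    obtain ⟨v, rfl⟩ := (h.inp.t1.mem e).1 he
    exact ⟨v, rfl⟩
  · rintro ⟨v, rfl⟩
    exact ⟨_, (h.inp.t1.mem _).2 ⟨v, rfl⟩, rfl⟩

theorem Mod.nodup_vs (h : Mod c j f f') : c.vs.Nodup := by
  exact h.inp.t1.nd

theorem Mod.length_vs (h : Mod c j f f') : c.vs.length = p ^ k := by
  have : c.vs.toFinset = Finset.univ.image (cv : Vk p k → Vc) := by
    ext z
    simp [h.mem_vs]
  rw [← List.toFinset_card_of_nodup h.nodup_vs, this, Finset.card_image_of_injective _ cv_inj]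
  simp

theorem Mod.mem_pts (h : Mod c j f f') {z : Pt} : z ∈ c.pts ↔ ∃ w : Wk p k, cd w = z := by
  rw [Cx.pts, mem_prodL, h.mem_vs, h.mem_vs]
  constructor
  · rintro ⟨⟨v, hv⟩, w, hw⟩
    exact ⟨(v, w), Prod.ext hv hw⟩
  · rintro ⟨w, rfl⟩
    exact ⟨⟨_, rfl⟩, _, rfl⟩

theorem Mod.nodup_pts (h : Mod c j f f') : c.pts.Nodup := by
  exact nodup_prodL h.nodup_vs h.nodup_vs

theorem Mod.length_pts (h : Mod c j f f') : c.pts.length = p ^ k * p ^ k := by
  rw [Cx.pts, length_prodL, h.length_vs]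

theorem Mod.zv_eq (h : Mod c j f f') : c.zv = cv (0 : Vk p k) := by
  simp [Cx.zv, h.ix_eq, cv, List.map_const']

theorem Mod.zp_eq (h : Mod c j f f') : c.zp = cd (0 : Wk p k) := by
  simp [Cx.zp, h.zv_eq, cd]

theorem Mod.look_eq (h : Mod c j f f') (b : Bool) (v : Vk p k) :
    c.look b (cv v) = (bif b then f' else f) v := by
  cases b
  · exact ZARIx.look h.inp.t1 v
  · exact ZARIx.look h.inp.t2 v

-- coordinatewise: `ZMod.val_natCast`, induction on the two lists for the cast of the sum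
theorem Mod.lcv_eq (h : Mod c j f f') (a : List ℕ) (u : List (Vk p k)) :
    c.lcv a (u.map cv) = cv (lcomb p a u) := by
  rw [Cx.lcv, h.ix_eq, h.pr_eq]
  refine List.ext_getElem (by simp [cv]) fun n h1 h2 => ?_
  have hn : n < k := by simpa using h1
  simp only [List.getElem_map, List.getElem_range, cv, List.getElem_ofFn]
  rw [← ZMod.val_natCast]
  exact congrArg _ (ZARIx.cast_sum a u ⟨n, hn⟩)

theorem Mod.lc_eq (h : Mod c j f f') (a : List ℕ) (u : List (Wk p k)) :
    c.lc a (u.map cd) = cd (lcomb p a u) := by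
  have e1 : (u.map cd).map Prod.fst = (u.map Prod.fst).map cv := by simp [cd]
  have e2 : (u.map cd).map Prod.snd = (u.map Prod.snd).map cv := by simp [cd]
  rw [Cx.lc, e1, e2, h.lcv_eq, h.lcv_eq, cd, (ZARIx.lcomb_prod a u).1, (ZARIx.lcomb_prod a u).2]

theorem Mod.dot_eq (h : Mod c j f f') (x y : Vk p k) : c.dot (cv x) (cv y) = (x ⬝ᵥ y).val := by
  rw [Cx.dot, h.pr_eq, ← ZMod.val_natCast]
  congr 1
  have : List.zipWith (fun a b => a * b) (cv x) (cv y) =
      List.ofFn fun t => (x t).val * (y t).val :=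
    List.ext_getElem (by simp [cv]) fun n h1 h2 => by simp [cv]
  rw [this, List.sum_ofFn]
  simp [dotProduct]

theorem Mod.bt_eq (h : Mod c j f f') (x y : Wk p k) : c.bt (cd x) (cd y) = (beta p k x y).val := by
  simp only [Cx.bt, cd, h.dot_eq, h.pr_eq, beta_apply, ZMod.val_add]

theorem Mod.sb_eq (h : Mod c j f f') (x y : Wk p k) : c.sb (cd x) (cd y) = cd (x - y) := by
  have := h.lc_eq [1, p - 1] [x, y]
  rw [Cx.sb, h.pr_eq]
  refine this.trans (congrArg _ ?_)
  have hp : 1 ≤ p := (Fact.out : p.Prime).one_le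
  simp [lcomb, Nat.cast_sub hp, sub_eq_add_neg]

theorem lcomb_cv {W : Type} [AddCommGroup W] [Module (ZMod p) W] (a : Vk p k) (u : Fin k → W) :
    lcomb p (cv a) (List.ofFn u) = ∑ t, a t • u t := by
  have : List.zipWith (fun (x : ℕ) w => (x : ZMod p) • w) (cv a) (List.ofFn u) =
      List.ofFn fun t => a t • u t :=
    List.ext_getElem (by simp [cv]) fun n h1 h2 => by simp [cv]
  rw [lcomb, this, List.sum_ofFn]

-- `tuples_sound`, `tuples_complete`
theorem Mod.mem_tu (h : Mod c j f f') {t : List Pt} :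
    t ∈ c.tu ↔ ∃ u : List (Wk p k), u.length = j ∧ t = u.map cd := by
  constructor
  · intro ht
    obtain ⟨h1, h2⟩ := tuples_sound ht
    obtain ⟨u, rfl⟩ := ZARIx.lift t fun x hx => h.mem_pts.1 (h2 x hx)
    exact ⟨u, by simpa [h.lev] using h1, rfl⟩
  · rintro ⟨u, h1, rfl⟩
    refine tuples_complete ?_ (by simp [h1, h.lev]) fun x hx => ?_
    · rw [h.length_pts, h.lev]
      exact ZARIx.big h (by omega) (by omega)
    · obtain ⟨w, _, rfl⟩ := List.mem_map.1 hx
      exact h.mem_pts.2 ⟨w, rfl⟩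

theorem Mod.mem_cf (h : Mod c j f f') {a : List ℕ} : a ∈ c.cf ↔ a.length = j ∧ ∀ x ∈ a, x < p := by
  constructor
  · intro ht
    obtain ⟨h1, h2⟩ := tuples_sound ht
    exact ⟨h1.trans h.lev, fun x hx => by simpa [h.rp_eq] using h2 x hx⟩
  · rintro ⟨h1, h2⟩
    refine tuples_complete ?_ (h1.trans h.lev.symm) fun x hx => by simpa [h.rp_eq] using h2 x hx
    rw [h.rp_eq, List.length_range, h.lev, ← pow_one (p ^ j)]
    exact ZARIx.big h (by omega) (by omega)

theorem Mod.mem_mats (h : Mod c j f f') {M : List (List ℕ)} :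
    M ∈ c.mats ↔ M.length + 1 = j ∧ ∀ a ∈ M, a.length = j ∧ ∀ x ∈ a, x < p := by
  have h4 := h.four
  have hl : c.lev.tail.length = j - 1 := by rw [List.length_tail, h.lev]
  constructor
  · intro ht
    obtain ⟨h1, h2⟩ := tuples_sound ht
    exact ⟨by omega, fun a ha => h.mem_cf.1 (h2 a ha)⟩
  · rintro ⟨h1, h2⟩
    refine tuples_complete ?_ (by omega) fun a ha => h.mem_cf.2 (h2 a ha)
    have := length_tuples_le c.pad c.rp c.lev
    rw [h.rp_eq, List.length_range, h.lev, ← h.rp_eq] at this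
    exact ZARIx.big h (le_trans this (by omega)) (by omega)

theorem Mod.pad_ge (h : Mod c j f f') : (p ^ k * p ^ k) ^ 4 + 4 * k + 2 + 88 * k ^ 3 ≤ c.pad.length := by
  have hp : 2 ≤ p := (Fact.out : p.Prime).two_le
  have h4 := h.four
  have hk : k < p ^ k := Nat.lt_pow_self hp
  have hj : 2 ^ 4 ≤ p ^ j :=
    (Nat.pow_le_pow_left hp 4).trans (Nat.pow_le_pow_right (by omega) h4)
  have hb : (p ^ k * p ^ k + p ^ j + 2) ^ 8 ≤ c.pad.length := ZARIx.big h le_rfl (by omega)
  have hn : p ^ k ≤ p ^ k * p ^ k := Nat.le_mul_self _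
  generalize p ^ k * p ^ k = n at *
  have h1 : 1 ≤ n := by omega
  have h2 : k ≤ n := by omega
  have h3 : n ≤ n ^ 4 := Nat.le_self_pow (by omega) n
  have h5 : k ^ 3 ≤ n ^ 4 :=
    (Nat.pow_le_pow_left h2 3).trans (Nat.pow_le_pow_right h1 (by omega))
  have h6 : n ^ 4 * 18 ^ 4 ≤ (n + p ^ j + 2) ^ 8 := by
    rw [show 8 = 4 + 4 from rfl, pow_add]
    exact Nat.mul_le_mul (Nat.pow_le_pow_left (by omega) 4) (Nat.pow_le_pow_left (by omega) 4)
  omega

end Pool.Agent.P.MP_f1a348_lc.LS
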