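import Pool.Agent.P.MP_f1a348_lc.LS.DefsP
import Pool.Agent.P.MP_f1a348_lc.LS.TZARI
import Pool.Agent.P.MP_f1a348_lc.LS.TSPAN

/-! Step ZFL. -/

set_option autoImplicit false
set_option linter.unusedSectionVars false

namespace Pool.Agent.P.MP_f1a348_lc.LS

open Module Submodule Pool.Agent.Lib.Helper47 Pool.Agent.P.MP_f1a348_lc.GI
open scoped Classical

variable {p k : ℕ} [Fact p.Prime] {f f' e e' : Vk p k → List Bool} {c : Cx} {i j m ρ N : ℕ}
  {T T' : List (Set (Wk p k))} {l l' : List (Pin p (Wk p k))} {r : Pin p (Wk p k)}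
  {φ : Iso p (Wk p k)} {v w x y : Wk p k} {A B U : Sub p (Wk p k)} {S S' : Set (Wk p k)}
  {C C' : Finset (Sub p (Wk p k))} {Cl : List (List Pt)} {σ : FS} {s : AS p k} {b b' : Bool}
  {g : Vk p k ≃ₗ[ZMod p] Vk p k} {tb tb' : Tb}

theorem Mod.mem_fl (h : Mod c j f f') {z : Pt} : z ∈ fl c S ↔ ∃ w ∈ S, cd w = z := by
  rw [fl, List.mem_filter, decide_eq_true_iff, h.mem_pts]
  exact ⟨fun a => a.2, fun ⟨w, a, b⟩ => ⟨⟨w, b⟩, w, a, b⟩⟩

theorem Mod.cd_mem_fl (h : Mod c j f f') : cd w ∈ fl c S ↔ w ∈ S := by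
  rw [h.mem_fl]
  exact ⟨fun ⟨_, a, b⟩ => cd_inj b ▸ a, fun a => ⟨w, a, rfl⟩⟩

theorem Mod.contains_fl (h : Mod c j f f') : (fl c S).contains (cd w) = true ↔ w ∈ S := by
  rw [List.contains_iff_mem, h.cd_mem_fl]

theorem Mod.filter_eq (h : Mod c j f f') {q : Pt → Bool} (hq : ∀ w, q (cd w) = true ↔ w ∈ S) :
    c.pts.filter q = fl c S := by
  refine List.filter_congr fun z hz => ?_
  obtain ⟨w, rfl⟩ := h.mem_pts.1 hz
  rw [Bool.eq_iff_iff, hq, decide_eq_true_iff]
  exact ⟨fun a => ⟨w, a, rfl⟩, fun ⟨_, a, b⟩ => cd_inj b ▸ a⟩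

theorem Mod.filter_fl (h : Mod c j f f') {q : Pt → Bool}
    (hq : ∀ w, w ∈ S' ↔ w ∈ S ∧ q (cd w) = true) : (fl c S).filter q = fl c S' := by
  rw [fl, List.filter_filter]
  refine h.filter_eq fun w => ?_
  rw [hq, Bool.and_eq_true, decide_eq_true_iff, and_comm]
  exact and_congr_left fun _ => ⟨fun ⟨_, a, b⟩ => cd_inj b ▸ a, fun a => ⟨w, a, rfl⟩⟩

theorem Mod.nodup_fl (h : Mod c j f f') (S : Set (Wk p k)) : (fl c S).Nodup := by
  exact h.nodup_pts.filter _

theorem Mod.length_fl (h : Mod c j f f') (S : Set (Wk p k)) : (fl c S).length = S.ncard := by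
  rw [← List.toFinset_card_of_nodup (h.nodup_fl S), ← Set.ncard_coe_finset,
    ← Set.ncard_image_of_injective S cd_inj]
  congr 1
  ext z
  simp only [List.coe_toFinset, Set.mem_ofPred_eq, h.mem_fl, Set.mem_image]

theorem Mod.countP_pts (h : Mod c j f f') (q : Pt → Bool) :
    c.pts.countP q = Nat.card {w : Wk p k // q (cd w) = true} := by
  rw [List.countP_eq_length_filter, h.filter_eq (S := {w | q (cd w) = true}) fun _ => Iff.rfl,
    h.length_fl]
  rfl

theorem Mod.sub_fl (h : Mod c j f f') : Cx.sub (fl c S) (fl c S') = true ↔ S ⊆ S' := by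
  rw [Cx.sub, List.all_eq_true]
  refine ⟨fun a w hw => h.contains_fl.1 (a _ (h.cd_mem_fl.2 hw)), fun a z hz => ?_⟩
  obtain ⟨w, hw, rfl⟩ := h.mem_fl.1 hz
  exact h.contains_fl.2 (a hw)

theorem Mod.fl_inj (h : Mod c j f f') (e : fl c S = fl c S') : S = S' := by
  ext w
  rw [← h.cd_mem_fl, e, h.cd_mem_fl]

theorem Mod.colr_eq (h : Mod c j f f') (b : Bool) (T : List (Set (Wk p k))) (w : Wk p k) :
    c.colr b (T.map (fl c)) (cd w) = col (bif b then f' else f) T w := by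
  have e1 : (cd w == c.zp) = decide (w = 0) := by
    rw [h.zp_eq, Bool.eq_iff_iff, beq_iff_eq, decide_eq_true_iff, cd_inj.eq_iff]
  have e2 : ((cd w).2 == c.zv) = decide (w.2 = 0) := by
    rw [h.zv_eq, Bool.eq_iff_iff, beq_iff_eq, decide_eq_true_iff]
    exact cv_inj.eq_iff
  have e3 : c.dot (cd w).1 (cd w).2 = (w.1 ⬝ᵥ w.2).val := h.dot_eq _ _
  have e4 : c.look b (cd w).1 = (bif b then f' else f) w.1 := h.look_eq b _
  unfold Cx.colr col
  rw [e1, e2, e3, e4, List.map_map]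
  refine Prod.ext (Prod.ext ?_ (Prod.ext ?_ (Prod.ext rfl ?_))) ?_
  · simp
  · simp
  · by_cases hw : w.2 = 0 <;> simp [hw]
  · refine List.map_congr_left fun S _ => ?_
    rw [Function.comp_apply, Bool.eq_iff_iff, h.contains_fl, decide_eq_true_iff]

theorem Mod.nrm_fl (h : Mod c j f f') (S : Set (Wk p k)) : c.nrm (fl c S) = fl c S := by
  exact h.filter_eq fun _ => h.contains_fl

theorem Mod.cos_fl (h : Mod c j f f') (S : Set (Wk p k)) (v : Wk p k) :
    c.cos (fl c S) (cd v) = fl c {w | w - v ∈ S} := by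
  refine h.filter_eq fun w => ?_
  rw [h.sb_eq, h.contains_fl]
  rfl

theorem Mod.mks_eq (h : Mod c j f f') (l : List (Pin p (Wk p k))) :
    c.mks (l.map (pn c)) = (marks l).map (fl c) := by
  rw [Cx.mks, marks, List.map_map, List.map_map]
  exact List.map_congr_left fun r _ => h.cos_fl _ _

theorem Mod.prp_eq (h : Mod c j f f') {X : List Pt} (hX : ∀ z, z ∈ X ↔ ∃ w ∈ S, cd w = z) :
    c.prp X = fl c (((beta p k).orthogonal (span (ZMod p) S) : Sub p (Wk p k)) : Set (Wk p k)) := by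
  refine h.filter_eq fun w => ?_
  rw [List.all_eq_true, SetLike.mem_coe, LinearMap.BilinForm.mem_orthogonal_iff]
  constructor
  · intro a n hn
    change beta p k n w = 0
    induction hn using span_induction with
    | mem x hx =>
      have := a _ ((hX _).2 ⟨x, hx, rfl⟩)
      rwa [h.bt_eq, beq_iff_eq, ZMod.val_eq_zero] at this
    | zero => simp
    | add x y _ _ hx hy => rw [map_add, LinearMap.add_apply, hx, hy, add_zero]
    | smul t x _ hx => rw [map_smul, LinearMap.smul_apply, hx, smul_zero]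
  · intro a z hz
    obtain ⟨x, hx, rfl⟩ := (hX _).1 hz
    rw [h.bt_eq, beq_iff_eq, ZMod.val_eq_zero]
    exact a x (subset_span hx)

theorem Mod.prp_fl (h : Mod c j f f') (i : ℕ) (e : Vk p k → List Bool) (T : List (Set (Wk p k)))
    (U : Sub p (Wk p k)) :
    c.prp (fl c (U : Set (Wk p k))) = fl c ((sysOf i e T).perp U : Set (Wk p k)) := by
  rw [h.prp_eq (S := (U : Set (Wk p k))) fun _ => h.mem_fl, span_eq]
  rfl

-- `Sys.perp_perp` for `sysOf 0 f []`
theorem Mod.spn_eq (h : Mod c j f f') {X : List Pt} (hX : ∀ z, z ∈ X ↔ ∃ w ∈ S, cd w = z) :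
    c.spn X = fl c ((span (ZMod p) S : Sub p (Wk p k)) : Set (Wk p k)) := by
  rw [Cx.spn, h.prp_eq hX, h.prp_fl 0 f []]
  exact congrArg (fun U : Sub p (Wk p k) => fl c (U : Set (Wk p k)))
    ((sysOf 0 f []).perp_perp (span (ZMod p) S))

theorem Mod.fl_top (h : Mod c j f f') : c.pts = fl c ((⊤ : Sub p (Wk p k)) : Set (Wk p k)) := by
  rw [← h.filter_eq (q := fun _ => true) fun w => by simp, List.filter_true]

theorem Mod.fl_bot (h : Mod c j f f') : c.prp c.pts = fl c ((⊥ : Sub p (Wk p k)) : Set (Wk p k)) := by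
  rw [h.fl_top, h.prp_fl 0 f []]
  congr 2
  rw [← (sysOf 0 f []).perp_perp ⊥]
  congr 1
  exact (LinearMap.BilinForm.orthogonal_bot).symm

theorem Mod.fl_VV (h : Mod c j f f') :
    c.pts.filter (fun w => w.2 == c.zv) = fl c (VV p k : Set (Wk p k)) := by
  refine h.filter_eq fun w => ?_
  rw [h.zv_eq, beq_iff_eq]
  exact cv_inj.eq_iff

end Pool.Agent.P.MP_f1a348_lc.LS
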