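import Pool.Agent.P.MP_f1a348_lc.LS.DefsA
import Pool.Agent.P.MP_f1a348_lc.LS.TSPAN

/-! Step ZLAY. -/

set_option autoImplicit false
set_option linter.unusedSectionVars false

namespace Pool.Agent.P.MP_f1a348_lc.LS

open Module Submodule
open scoped Classical

variable {p : ℕ} [Fact p.Prime] {W : Type} [AddCommGroup W] [Module (ZMod p) W] [Fintype W]
  {Γ Γ' Γ'' : Sys p W} {C C' : Finset (Sub p W)} {A B A' B' D D' U V : Sub p W}
  {g m i j n L ρ : ℕ} {v x y : W} {P : List (Pm p W)} {r : Pin p W}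

theorem Layer.up_eq (h : Layer C B A) : up C B = A := by
  exact le_antisymm (sInf_le ⟨h.2.1, h.2.2.1⟩) (le_sInf fun U hU => h.2.2.2 U hU.1 hU.2)

-- the finite nonempty chain `{U ∈ C | B < U}` has a least member (minimal `finrank`)
theorem Chain.layer_up (h : Chain Γ C) (hB : B ∈ C) (hn : B ≠ ⊤) : Layer C B (up C B) := by
  obtain ⟨A, hA, hm⟩ := Finset.exists_min_image (C.filter fun U => B < U) (fun U => dm U)
    ⟨⊤, Finset.mem_filter.2 ⟨h.top, lt_top_iff_ne_top.2 hn⟩⟩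
  obtain ⟨hA, hBA⟩ := Finset.mem_filter.1 hA
  have hl : Layer C B A := ⟨hB, hA, hBA, fun U hU hBU => (h.tot A hA U hU).elim id fun h1 =>
    (eq_of_le_of_finrank_le h1 (hm U (Finset.mem_filter.2 ⟨hU, hBU⟩))).ge⟩
  rwa [hl.up_eq]

theorem Chain.layer_down (h : Chain Γ C) (hA : A ∈ C) (hn : A ≠ ⊥) : ∃ B, Layer C B A := by
  obtain ⟨B, hB, hm⟩ := Finset.exists_max_image (C.filter fun U => U < A) (fun U => dm U)
    ⟨⊥, Finset.mem_filter.2 ⟨h.bot, bot_lt_iff_ne_bot.2 hn⟩⟩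
  obtain ⟨hB, hBA⟩ := Finset.mem_filter.1 hB
  refine ⟨B, hB, hA, hBA, fun U hU hBU => by_contra fun h1 => ?_⟩
  have h2 : U < A := lt_of_le_not_ge ((h.tot A hA U hU).resolve_left h1) h1
  exact (finrank_lt_finrank_of_lt hBU).not_ge (hm U (Finset.mem_filter.2 ⟨hU, h2⟩))

theorem mem_gi : B ∈ gi g C ↔ Giant g C B (up C B) := by
  unfold gi
  rw [Finset.mem_filter]
  exact ⟨fun h => h.2, fun h => ⟨h.1.1, h⟩⟩

theorem Giant.mem_gi (h : Giant g C B A) : B ∈ gi g C := by
  refine LS.mem_gi.2 ?_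
  rwa [h.1.up_eq]

-- `finrank` is injective on a chain
theorem Chain.card_le (h : Chain Γ C) : C.card ≤ finrank (ZMod p) W + 1 := by
  rw [← Finset.card_range (finrank (ZMod p) W + 1)]
  refine Finset.card_le_card_of_injOn (fun U => dm U) (fun U _ => ?_) fun U hU V hV e => ?_
  · exact Finset.mem_coe.2 (Finset.mem_range.2 (Nat.lt_succ_of_le (finrank_le U)))
  · exact (h.tot U hU V hV).elim (fun h1 => eq_of_le_of_finrank_eq h1 e)
      fun h1 => (eq_of_le_of_finrank_eq h1 e.symm).symm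

-- `B` = the largest member of `C` inside `B'`
theorem Chain.parent (h : Chain Γ C) (h' : Chain Γ' C') (hs : C ⊆ C') (hl : Layer C' B' A') :
    ∃ B, Layer C B (up C B) ∧ B ≤ B' ∧ A' ≤ up C B := by
  obtain ⟨B, hB, hm⟩ := Finset.exists_max_image (C.filter fun U => U ≤ B') (fun U => dm U)
    ⟨⊥, Finset.mem_filter.2 ⟨h.bot, bot_le⟩⟩
  obtain ⟨hB, hBB⟩ := Finset.mem_filter.1 hB
  have hL := h.layer_up hB (hBB.trans_lt hl.2.2.1).ne_top
  refine ⟨B, hL, hBB, hl.2.2.2 _ (hs hL.2.1) ?_⟩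
  have h1 : ¬ up C B ≤ B' := fun h1 =>
    (finrank_lt_finrank_of_lt hL.2.2.1).not_ge (hm _ (Finset.mem_filter.2 ⟨hL.2.1, h1⟩))
  exact lt_of_le_not_ge ((h'.tot _ hl.1 _ (hs hL.2.1)).resolve_right h1) h1

theorem Chain.layer_disj (h : Chain Γ C) (h1 : Layer C B A) (h2 : Layer C B' A') (hne : B ≠ B') :
    A ≤ B' ∨ A' ≤ B := by
  exact (h.tot B h1.1 B' h2.1).imp (fun h3 => h1.2.2.2 B' h2.1 (lt_of_le_of_ne h3 hne))
    fun h3 => h2.2.2.2 B h1.1 (lt_of_le_of_ne h3 hne.symm)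

-- the intervals `Finset.Ico (dm U) (dm (up C U))` are disjoint subsets of `Ico (dm B) (dm A)`
theorem Chain.sum_dim (h : Chain Γ C) (S : Finset (Sub p W))
    (hS : ∀ U ∈ S, Layer C U (up C U) ∧ B ≤ U ∧ up C U ≤ A) :
    ∑ U ∈ S, (dm (up C U) - dm U) ≤ dm A - dm B := by
  have h1 : (S : Set (Sub p W)).PairwiseDisjoint fun U => Finset.Ico (dm U) (dm (up C U)) := by
    intro U hU V hV hne
    refine Finset.disjoint_left.2 fun t ht ht' => ?_
    have a1 := Finset.mem_Ico.1 ht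
    have a2 := Finset.mem_Ico.1 ht'
    rcases h.layer_disj (hS U hU).1 (hS V hV).1 hne with h2 | h2
    · have : dm (up C U) ≤ dm V := finrank_mono h2
      omega
    · have : dm (up C V) ≤ dm U := finrank_mono h2
      omega
  have h2 := Finset.card_biUnion h1
  simp only [Nat.card_Ico] at h2
  rw [← h2, ← Nat.card_Ico]
  refine Finset.card_le_card fun t ht => ?_
  obtain ⟨U, hU, ht⟩ := Finset.mem_biUnion.1 ht
  have a1 := Finset.mem_Ico.1 ht
  have a2 : dm B ≤ dm U := finrank_mono (hS U hU).2.1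
  have a3 : dm (up C U) ≤ dm A := finrank_mono (hS U hU).2.2
  exact Finset.mem_Ico.2 ⟨by omega, by omega⟩

theorem Chain.gi_parent (h : Chain Γ C) (h' : Chain Γ' C') (hs : C ⊆ C') (hB : B' ∈ gi g C') :
    ∃ B ∈ gi g C, B ≤ B' ∧ up C' B' ≤ up C B := by
  have hG := mem_gi.1 hB
  obtain ⟨B, hL, h1, h2⟩ := h.parent h' hs hG.1
  refine ⟨B, mem_gi.2 ⟨hL, ?_⟩, h1, h2⟩
  have a1 := hG.2
  have a2 : finrank (ZMod p) B ≤ finrank (ZMod p) B' := finrank_mono h1
  have a3 : finrank (ZMod p) (up C' B') ≤ finrank (ZMod p) (up C B) := finrank_mono h2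
  omega

-- `U` is comparable with all members; apply `perp` (antitone, `perp_perp`); `U` and `perp U` are on different sides of `V`
theorem Chain.ins (h : Chain Γ C) (hM : 4 ≤ Γ.M) (hV : V ∈ C) (hVV : Γ.perp V = V)
    (hl : Layer C B A) (hU : Γ.Def U) (h1 : B ≤ U) (h2 : U ≤ A) :
    Chain Γ (insert U (insert (Γ.perp U) C)) := by
  have an : ∀ {X Y : Sub p W}, X ≤ Y → Γ.perp Y ≤ Γ.perp X := fun hXY z hz =>
    Sys.mem_perp.2 fun u hu => Sys.mem_perp.1 hz u (hXY hu)
  have c1 : ∀ X ∈ C, U ≤ X ∨ X ≤ U := fun X hX => by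
    by_cases hXB : X ≤ B
    · exact Or.inr (hXB.trans h1)
    · exact Or.inl (h2.trans (hl.2.2.2 X hX
        (lt_of_le_not_ge ((h.tot X hX B hl.1).resolve_left hXB) hXB)))
  have c2 : ∀ X ∈ C, Γ.perp U ≤ X ∨ X ≤ Γ.perp U := fun X hX => by
    rcases c1 _ (h.perp X hX) with h3 | h3
    · have := an h3
      rw [Γ.perp_perp] at this
      exact Or.inr this
    · have := an h3
      rw [Γ.perp_perp] at this
      exact Or.inl this
  have c3 : U ≤ Γ.perp U ∨ Γ.perp U ≤ U := by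
    rcases c1 V hV with h3 | h3
    · exact Or.inl (h3.trans (hVV.ge.trans (an h3)))
    · exact Or.inr ((an h3).trans (hVV.le.trans h3))
  refine ⟨by simp [h.bot], by simp [h.top], ?_, ?_, ?_⟩
  · intro X hX Y hY
    simp only [Finset.mem_insert] at hX hY
    rcases hX with rfl | rfl | hX
    · rcases hY with rfl | rfl | hY
      · exact Or.inl le_rfl
      · exact c3
      · exact c1 Y hY
    · rcases hY with rfl | rfl | hY
      · exact c3.symm
      · exact Or.inl le_rfl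
      · exact c2 Y hY
    · rcases hY with rfl | rfl | hY
      · exact (c1 X hX).symm
      · exact (c2 X hX).symm
      · exact h.tot X hX Y hY
  · intro X hX
    simp only [Finset.mem_insert] at hX ⊢
    rcases hX with rfl | rfl | hX
    · exact Or.inr (Or.inl rfl)
    · exact Or.inl (Γ.perp_perp U)
    · exact Or.inr (Or.inr (h.perp X hX))
  · intro X hX
    simp only [Finset.mem_insert] at hX
    rcases hX with rfl | rfl | hX
    · exact hU
    · exact Sys.Inv.perp hU (Γ.ok_nil 0) (by omega)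
    · exact h.df X hX

end Pool.Agent.P.MP_f1a348_lc.LS
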