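import Pool.Agent.P.MP_f1a348_lc.LS.DefsP
import Pool.Agent.P.MP_f1a348_lc.LS.TZFIN
import Pool.Agent.P.MP_f1a348_lc.LS.TZLAY

/-! Step ZSYS. -/

set_option autoImplicit false
set_option linter.unusedSectionVars false

namespace Pool.Agent.P.MP_f1a348_lc.LS

open Module Submodule Pool.Agent.Lib.Helper47 Pool.Agent.P.MP_f1a348_lc.GI
open scoped Classical

variable {p k : ℕ} [Fact p.Prime] {f f' e e' : Vk p k → List Bool} {c : Cx} {i j m ρ N : ℕ}
  {T T' : List (Set (Wk p k))} {l l' : List (Pin p (Wk p k))} {r : Pin p (Wk p k)}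
  {φ : Iso p (Wk p k)} {v w x y : Wk p k} {A B U : Sub p (Wk p k)} {S S' : Set (Wk p k)}
  {C C' : Finset (Sub p (Wk p k))} {Cl : List (List Pt)} {σ : FS} {s : AS p k} {b b' : Bool}
  {g : Vk p k ≃ₗ[ZMod p] Vk p k} {tb tb' : Tb}

namespace ZSYSx

theorem col_cons : col f' (S' :: T') y = col f (S :: T) x ↔
    (y ∈ S' ↔ x ∈ S) ∧ col f' T' y = col f T x := by
  simp only [col, List.map_cons, Prod.mk.injEq, List.cons.injEq, decide_eq_decide]
  tauto

theorem snd_iff (h : col f' T' y = col f T x) : y.2 = 0 ↔ x.2 = 0 :=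
  decide_eq_decide.1 (congrArg (fun c : Col => c.1.2.1) h)

theorem symm (h : CIso f f' T T' φ) : CIso f' f T' T φ⁻¹ := fun w =>
  (h (φ⁻¹ w)).symm.trans (congrArg _ (φ.apply_symm_apply w))

theorem nb (h : CIso f f' T T' φ) (hU : ∀ u ∈ A, φ u ∈ B) (hw : w ∈ (sysOf j f T).Nb i A x) :
    φ w ∈ (sysOf j f' T').Nb i B (φ x) := by
  obtain ⟨a, h1, h2, h3⟩ := hw
  refine ⟨φ * a * φ⁻¹, fun z => Lo.of_iso (fun z => ?_) _, le_trans ?_ h2, ?_⟩
  · exact (h _).trans (((h1 _).col (mem_span_singleton_self _)).trans (symm h z))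
  · refine le_trans (finrank_mono ?_) (finrank_map_le (φ : Wk p k →ₗ[ZMod p] Wk p k) _)
    rintro _ ⟨z, rfl⟩
    exact ⟨_, ⟨φ⁻¹ z, rfl⟩, by simp⟩
  · simpa using hU _ h3

end ZSYSx

theorem sysOf_aut {a : Iso p (Wk p k)} :
    (sysOf j f T).Aut a ↔ ∀ w, col f T (a w) = col f T w := by
  exact ⟨fun h w => (h w).col (mem_span_singleton_self w), fun h _ => Lo.of_iso h _⟩

theorem mem_cls_ty : y ∈ (sysOf j f T).cls [] ⊥ x ↔ Ty p j (col f T) (col f T) x y := by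
  rw [Sys.mem_cls, sp_cons, sp_nil, sup_bot_eq]
  exact ⟨fun ⟨φ, h1, _, h3⟩ => ⟨φ, h1, sub_eq_zero.1 h3⟩,
    fun ⟨φ, h1, h2⟩ => ⟨φ, h1, fun _ h => by simp at h, sub_eq_zero.2 h2⟩⟩

-- `Lo.mono`: the colour with one more mark determines the old colour
theorem finer_cons (j : ℕ) (f : Vk p k → List Bool) (r : Pin p (Wk p k))
    (l : List (Pin p (Wk p k))) : Finer (sysL j f (r :: l)) (sysL j f l) := by
  exact ⟨rfl, rfl, fun _ _ h => Lo.mono (fun _ _ e => (ZSYSx.col_cons.1 e).2) h⟩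

theorem finer_suffix (h : l <:+ l') : Finer (sysL j f l') (sysL j f l) := by
  obtain ⟨t, rfl⟩ := h
  induction t with
  | nil => exact Finer.refl _
  | cons r t ih => exact (finer_cons j f r _).trans ih

theorem held_cons (j : ℕ) (f : Vk p k → List Bool) (r : Pin p (Wk p k))
    (l : List (Pin p (Wk p k))) : Held (sysL j f (r :: l)) r.1 r.2.1 := by
  intro y hy
  obtain ⟨φ, h1, rfl⟩ := mem_cls_ty.1 hy
  exact (ZSYSx.col_cons.1 (h1.col (mem_span_singleton_self _))).1.2 (by simp)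

theorem finrank_Wk : finrank (ZMod p) (Wk p k) = 2 * k := by
  simp [two_mul]

theorem card_Wk : Fintype.card (Wk p k) = p ^ k * p ^ k := by
  simp

theorem mem_VV : w ∈ VV p k ↔ w.2 = 0 := by
  exact Iff.rfl

theorem dm_VV : dm (VV p k) = k := by
  have h := LinearMap.finrank_range_add_finrank_ker (LinearMap.snd (ZMod p) (Vk p k) (Vk p k))
  rw [LinearMap.range_eq_top.2 LinearMap.snd_surjective, finrank_top, finrank_Wk,
    finrank_fintype_fun_eq_card, Fintype.card_fin] at h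
  change finrank (ZMod p) (LinearMap.ker (LinearMap.snd (ZMod p) (Vk p k) (Vk p k))) = k
  omega

theorem perp_VV : (sysOf j f T).perp (VV p k) = VV p k := by
  ext w
  rw [Sys.mem_perp, mem_VV]
  refine ⟨fun h => funext fun t => ?_, fun h u hu => ?_⟩
  · have : beta p k (Pi.single t 1, 0) w = 0 := h (Pi.single t 1, 0) rfl
    simpa [beta_apply] using this
  · change beta p k u w = 0
    rw [beta_apply, h, mem_VV.1 hu]
    simp

theorem chain_init (j : ℕ) (f : Vk p k → List Bool) (T : List (Set (Wk p k))) :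
    Chain (sysOf j f T) {⊥, VV p k, ⊤} := by
  have h0 : (sysOf j f T).perp ⊥ = ⊤ := LinearMap.BilinForm.orthogonal_bot
  have h1 : (sysOf j f T).perp ⊤ = ⊥ := h0 ▸ (sysOf j f T).perp_perp ⊥
  refine ⟨by simp, by simp, by simp, ?_, ?_⟩
  · intro A hA
    simp only [Finset.mem_insert, Finset.mem_singleton] at hA ⊢
    rcases hA with rfl | rfl | rfl
    · exact Or.inr (Or.inr h0)
    · exact Or.inr (Or.inl perp_VV)
    · exact Or.inl h1
  · intro A hA
    simp only [Finset.mem_insert, Finset.mem_singleton] at hA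
    rcases hA with rfl | rfl | rfl
    · exact Sys.def_bot _
    · intro x hx y hy
      obtain ⟨φ, h1, rfl⟩ := mem_cls_ty.1 hy
      exact (ZSYSx.snd_iff (h1.col (mem_span_singleton_self _))).2 hx
    · exact Sys.def_top _

-- a layer lies inside `VV` or above `VV`
theorem gi_empty (h : Chain (sysOf j f T) C) (hV : VV p k ∈ C) (hk : k < i) : gi i C = ∅ := by
  refine Finset.eq_empty_of_forall_notMem fun B hB => ?_
  obtain ⟨h1, h2⟩ := mem_gi.1 hB
  have h3 : finrank (ZMod p) (VV p k) = k := dm_VV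
  by_cases h4 : VV p k ≤ B
  · have := finrank_mono h4
    have := (finrank_le (up C B)).trans_eq finrank_Wk
    omega
  · have := finrank_mono (h1.2.2.2 _ hV
      (lt_of_le_not_ge ((h.tot _ hV B h1.1).resolve_left h4) h4))
    omega

-- `φ (x, ξ) = (g x, ξ')` with `ξ' ⬝ᵥ g y = ξ ⬝ᵥ y`; for instance `ξ' = ξ ᵥ* LinearMap.toMatrix' g.symm`
theorem ciso_of_liso (h : LIso f f') : ∃ φ, CIso f f' [] [] φ := by
  obtain ⟨g, hg⟩ := h
  let G : Vk p k →ₗ[ZMod p] Vk p k :=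
    (LinearMap.toMatrix' (g.symm : Vk p k →ₗ[ZMod p] Vk p k)).vecMulLinear
  have hG : ∀ ξ y, G ξ ⬝ᵥ g y = ξ ⬝ᵥ y := fun ξ y => by
    rw [Matrix.vecMulLinear_apply, ← Matrix.dotProduct_mulVec, LinearMap.toMatrix'_mulVec]
    simp
  have hi : Function.Injective G := (injective_iff_map_eq_zero G).2 fun ξ h => funext fun t => by
    simpa [h] using (hG ξ (Pi.single t 1)).symm
  refine ⟨g.prodCongr (LinearEquiv.ofInjectiveEndo G hi), fun w => ?_⟩
  have h1 : G w.2 = 0 ↔ w.2 = 0 := map_eq_zero_iff G hi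
  have h2 : g w.1 ⬝ᵥ G w.2 = w.1 ⬝ᵥ w.2 := by rw [dotProduct_comm, hG, dotProduct_comm]
  simp only [col, EmbeddingLike.map_eq_zero_iff, List.map_nil]
  simp [h1, h2, hg]

theorem CIso.restrict (h : CIso f f' T T' φ) : ∃ g : Vk p k ≃ₗ[ZMod p] Vk p k,
    (∀ v, φ (v, 0) = (g v, 0)) ∧ ∀ v, f' (g v) = f v := by
  let G : Vk p k →ₗ[ZMod p] Vk p k :=
    LinearMap.fst _ _ _ ∘ₗ (φ : Wk p k →ₗ[ZMod p] Wk p k) ∘ₗ LinearMap.inl _ _ _
  have h1 : ∀ v, φ (v, 0) = (G v, 0) := fun v => Prod.ext rfl ((ZSYSx.snd_iff (h (v, 0))).2 rfl)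
  have hi : Function.Injective G := fun v v' e =>
    congrArg Prod.fst (φ.injective ((h1 v).trans (e ▸ (h1 v').symm)))
  refine ⟨LinearEquiv.ofInjectiveEndo G hi, h1, fun v => ?_⟩
  have := congrArg (fun c : Col => c.1.2.2.2) (h (v, 0))
  simpa [col, h1] using this

-- `Lo.of_iso`, `Lo.mul`, `Lo.inv`
theorem CIso.ty (h : CIso f f' T T' φ) :
    Ty p j (col f T) (col f' T') x (φ y) ↔ y ∈ (sysOf j f T).cls [] ⊥ x := by
  rw [mem_cls_ty]
  exact ⟨fun ⟨ψ, h1, h2⟩ => ⟨φ⁻¹ * ψ, h1.mul (Lo.of_iso (ZSYSx.symm h) ⊤) fun _ _ => trivial,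
      by simp [h2]⟩,
    fun ⟨ψ, h1, h2⟩ => ⟨φ * ψ, h1.mul (Lo.of_iso h ⊤) fun _ _ => trivial, by simp [h2]⟩⟩

-- conjugate the automorphism by `φ`
theorem CIso.nb (h : CIso f f' T T' φ) :
    φ w ∈ (sysOf j f' T').Nb i (U.map (φ : Wk p k →ₗ[ZMod p] Wk p k)) (φ x) ↔
      w ∈ (sysOf j f T).Nb i U x := by
  refine ⟨fun hw => ?_, ZSYSx.nb h fun u hu => ⟨u, hu, rfl⟩⟩
  simpa using ZSYSx.nb (B := U) (ZSYSx.symm h) (by rintro _ ⟨u, hu, rfl⟩; simpa using hu) hw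

theorem CIso.df (h : CIso f f' T T' φ) (hU : (sysOf j f T).Def U) :
    (sysOf j f' T').Def (U.map (φ : Wk p k →ₗ[ZMod p] Wk p k)) := by
  rintro _ ⟨x, hx, rfl⟩ y hy
  obtain ⟨y, rfl⟩ := φ.surjective y
  obtain ⟨ψ, h1, h2⟩ := mem_cls_ty.1 hy
  refine ⟨y, hU x hx (h.ty.1 ⟨ψ * φ, (Lo.of_iso h _).mul h1 fun z hz => ?_, h2⟩), rfl⟩
  obtain ⟨a, rfl⟩ := mem_span_singleton.1 hz
  rw [map_smul]
  exact smul_mem _ _ (mem_span_singleton_self _)

theorem CIso.cons (h : CIso f f' T T' φ) (hS : ∀ w, φ w ∈ S' ↔ w ∈ S) :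
    CIso f f' (S :: T) (S' :: T') φ := by
  exact fun w => ZSYSx.col_cons.2 ⟨hS w, h w⟩

end Pool.Agent.P.MP_f1a348_lc.LS
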