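import Pool.Agent.P.MP_f1a348_lc.LS.DefsP
import Pool.Agent.P.MP_f1a348_lc.LS.TZFL
import Pool.Agent.P.MP_f1a348_lc.LS.TZFIN
import Pool.Agent.P.MP_f1a348_lc.LS.TZLAY
import Pool.Agent.P.MP_f1a348_lc.LS.TZSYS

/-! Step ZES. -/

set_option autoImplicit false
set_option linter.unusedSectionVars false

namespace Pool.Agent.P.MP_f1a348_lc.LS

open Module Submodule Pool.Agent.Lib.Helper47 Pool.Agent.P.MP_f1a348_lc.GI
open scoped Classical

variable {p k : ℕ} [Fact p.Prime] {f f' e e' : Vk p k → List Bool} {c : Cx} {i j m ρ N : ℕ}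
  {T T' : List (Set (Wk p k))} {l l' : List (Pin p (Wk p k))} {r : Pin p (Wk p k)}
  {φ : Iso p (Wk p k)} {v w x y : Wk p k} {A B U : Sub p (Wk p k)} {S S' : Set (Wk p k)}
  {C C' : Finset (Sub p (Wk p k))} {Cl : List (List Pt)} {σ : FS} {s : AS p k} {b b' : Bool}
  {g : Vk p k ≃ₗ[ZMod p] Vk p k} {tb tb' : Tb}

-- induction on `n ≤ k`: `esStep^[n] [] = X.map cd`, `span X ∈ C` has dimension `n`, lies in `VV`, and each entry is held
-- modulo the span of the later entries (`layer_up`, `held_eq`); then `e t = X.get t`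
theorem Mod.es_spec (h : Mod c j f f') (hC : RepC c Cl C) (hg : Good (sysOf j f T) C)
    (hV : VV p k ∈ C) (hp : ∀ B A, Layer C B A → (sysOf j f T).Pinned B A) :
    ∃ E : Fin k → Wk p k, c.es Cl = List.ofFn (fun t => cd (E t)) ∧ Flag (sysOf j f T) E := by
  have key : ∀ n ≤ k, ∃ E : Fin n → Wk p k,
      (c.esStep Cl)^[n] [] = List.ofFn (fun t => cd (E t)) ∧
      span (ZMod p) (Set.range E) ∈ C ∧ span (ZMod p) (Set.range E) ≤ VV p k ∧
      LinearIndependent (ZMod p) E ∧
      ∀ t, Held (sysOf j f T) (span (ZMod p) (E '' {t' | t < t'})) (E t) := by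
    intro n
    induction n with
    | zero =>
      intro _
      refine ⟨Fin.elim0, rfl, ?_, ?_, linearIndependent_empty_type, fun t => t.elim0⟩
      · rw [Set.range_eq_empty, span_empty]; exact hg.chain.bot
      · rw [Set.range_eq_empty, span_empty]; exact bot_le
    | succ n ih =>
      intro hn
      obtain ⟨E, h1, h2, h3, h4, h5⟩ := ih (by omega)
      have hd : dm (span (ZMod p) (Set.range E)) = n :=
        (finrank_span_eq_card h4).trans (Fintype.card_fin n)
      have hs : c.spn (List.ofFn fun t => cd (E t)) =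
          fl c ((span (ZMod p) (Set.range E) : Sub p (Wk p k)) : Set (Wk p k)) :=
        h.spn_eq (S := Set.range E) fun z => by
          rw [List.mem_ofFn', Set.exists_range_iff]; rfl
      generalize hB : span (ZMod p) (Set.range E) = B at h2 h3 hd hs
      have hlt : B < VV p k := lt_of_le_of_ne h3 fun e => by
        rw [e, dm_VV] at hd; omega
      have hl := hg.chain.layer_up h2 (ne_top_of_lt hlt)
      have hq : ∀ w : Wk p k, (!(fl c (B : Set (Wk p k))).contains (cd w) &&
          Cl.all fun U => Cx.sub U (fl c (B : Set (Wk p k))) || U.contains (cd w)) = true ↔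
          w ∉ B ∧ w ∈ up C B := by
        intro w
        rw [Bool.and_eq_true, Bool.not_eq_true', ← Bool.not_eq_true, h.contains_fl,
          List.all_eq_true]
        refine and_congr Iff.rfl ⟨fun a => ?_, fun a U hU => ?_⟩
        · have := a _ ((hC _).2 ⟨_, hl.2.1, rfl⟩)
          rw [Bool.or_eq_true, h.sub_fl, h.contains_fl] at this
          exact this.resolve_left (not_le_of_gt hl.2.2.1)
        · obtain ⟨V, hV, rfl⟩ := (hC U).1 hU
          rw [Bool.or_eq_true, h.sub_fl, h.contains_fl]
          exact or_iff_not_imp_left.2 fun b => hl.2.2.2 V hV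
            (lt_of_le_not_ge ((hg.chain.tot V hV B h2).resolve_left b) b) a
      obtain ⟨w₀, a1, a2⟩ := SetLike.exists_of_lt hl.2.2.1
      obtain ⟨z, hz⟩ := Option.isSome_iff_exists.1 (List.find?_isSome.2
        ⟨cd w₀, h.mem_pts.2 ⟨w₀, rfl⟩, (hq w₀).2 ⟨a2, a1⟩⟩ : (c.pts.find? fun w =>
          !(fl c (B : Set (Wk p k))).contains w &&
            Cl.all fun U => Cx.sub U (fl c (B : Set (Wk p k))) || U.contains w).isSome = true)
      obtain ⟨w, rfl⟩ := h.mem_pts.1 (List.mem_of_find?_eq_some hz)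
      have hz' := List.find?_some hz
      obtain ⟨b1, b2⟩ := (hq w).1 hz'
      have hh : Held (sysOf j f T) B w := fun y hy =>
        hp _ _ hl w b2 y (Sys.cls_coarse bot_le _ _ hy)
      have he : span (ZMod p) (Set.range (Fin.cons w E : Fin (n + 1) → Wk p k)) = up C B := by
        rw [Fin.range_cons, span_insert, hB, sup_comm]
        exact hg.held_eq hl b2 b1 hh
      refine ⟨Fin.cons w E, ?_, he ▸ hl.2.1, he ▸ hl.2.2.2 _ hV hlt,
        linearIndependent_finCons.2 ⟨h4, hB ▸ b1⟩, fun t => ?_⟩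
      · rw [Function.iterate_succ_apply', h1, Cx.esStep, hs, hz, List.ofFn_succ]
        rfl
      · have hi : ∀ (t : Fin (n + 1)) (S : Set (Fin n)), ¬ t < 0 → (∀ s, t < s.succ ↔ s ∈ S) →
            (Fin.cons w E : Fin (n + 1) → Wk p k) '' {t' | t < t'} = E '' S := by
          intro t S e1 e2
          ext y
          simp only [Set.mem_image, Set.mem_ofPred_eq, Fin.exists_fin_succ, e1, false_and, false_or,
            Fin.cons_succ, e2]
        refine Fin.cases ?_ (fun s => ?_) t
        · rw [hi 0 Set.univ (lt_irrefl _) fun s => by simp, Set.image_univ, hB]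
          exact hh
        · rw [hi s.succ {t' | s < t'} (Fin.not_lt_zero _) fun s => by simp]
          exact h5 s
  obtain ⟨E, h1, -, h3, h4, h5⟩ := key k le_rfl
  have hv : ∀ t, (E t).2 = 0 := fun t => mem_VV.1 (h3 (subset_span ⟨t, rfl⟩))
  refine ⟨E, ?_, hv, LinearIndependent.of_comp (LinearMap.inl (ZMod p) _ (Vk p k)) ?_, h5⟩
  · rw [Cx.es, h.ix_eq, List.length_range, h1]
  · convert h4 using 1
    exact funext fun t => Prod.ext rfl (hv t).symm

end Pool.Agent.P.MP_f1a348_lc.LS
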