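import Pool.Agent.P.MP_f1a348_lc.LS.DefsT

/-! Step TWRED. -/

set_option autoImplicit false
set_option linter.unusedSectionVars false

namespace Pool.Agent.P.MP_f1a348_lc.LS

open Module Submodule Pool.Agent.Lib.Helper47 Pool.Agent.P.MP_f1a348_lc.GI

variable {p k : ℕ} [Fact p.Prime] {u u' g : Vk p k ≃ₗ[ZMod p] Vk p k} {f f' : Vk p k → List Bool}
  {E E' : TW.Tab} {X : List TW.Pt} {pad : List Unit} {N M : ℕ}

namespace TWREDx

theorem red1 (n : ℕ) : ∃ r : ZMod p, r.val ≤ n ∧ ∀ x : ZMod p, x ^ n = x ^ r.val := by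
  have hp := (Fact.out : p.Prime).two_le
  induction n using Nat.strong_induction_on with
  | _ n ih =>
    by_cases h : n < p
    · exact ⟨n, (ZMod.val_cast_of_lt h).le, fun x => by rw [ZMod.val_cast_of_lt h]⟩
    · obtain ⟨m, rfl⟩ := Nat.exists_eq_add_of_le' (not_lt.1 h)
      obtain ⟨r, h1, h2⟩ := ih (m + 1) (by omega)
      exact ⟨r, by omega, fun x => by rw [pow_add, ZMod.pow_card, ← pow_succ, h2]⟩

theorem red (α : Fin k → ℕ) :
    ∃ a : Vk p k, TW.wtF (TW.ex a) ≤ TW.wtF α ∧ (TW.mono α : Vk p k → ZMod p) = TW.mono (TW.ex a) := by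
  choose r h1 h2 using fun t => red1 (p := p) (α t)
  exact ⟨r, Finset.sum_le_sum fun t _ => Nat.mul_le_mul_right _ (h1 t),
    funext fun x => Finset.prod_congr rfl fun t _ => h2 t (x t)⟩

end TWREDx

-- `x ^ n = x ^ (n - (p - 1))` for `n ≥ p` (`ZMod.pow_card`); induction on the weight
theorem TW.pl_eq_pr (p k : ℕ) [Fact p.Prime] (N : ℕ) : TW.Pl p k N = TW.Pr p k N := by
  refine le_antisymm (span_mono ?_) (span_mono ?_)
  · rintro _ ⟨α, h, rfl⟩
    obtain ⟨a, h1, h2⟩ := TWREDx.red (p := p) α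
    exact ⟨a, h1.trans_lt h, h2⟩
  · rintro _ ⟨a, h, rfl⟩
    exact ⟨_, h, rfl⟩

theorem TW.pl_mul {a b : Vk p k → ZMod p} (ha : a ∈ TW.Pl p k N) (hb : b ∈ TW.Pl p k (M + 1)) :
    a * b ∈ TW.Pl p k (N + M) := by
  have h := Submodule.mul_mem_mul ha hb
  rw [TW.Pl, TW.Pl, span_mul_span] at h
  refine span_mono ?_ h
  rintro _ ⟨_, ⟨α, h1, rfl⟩, _, ⟨β, h2, rfl⟩, rfl⟩
  refine ⟨α + β, ?_, funext fun x => ?_⟩
  · have : TW.wtF (α + β) = TW.wtF α + TW.wtF β := by
      simp only [TW.wtF, Pi.add_apply, add_mul, Finset.sum_add_distrib]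
    omega
  · simp only [TW.mono, Pi.mul_apply, Pi.add_apply, pow_add, Finset.prod_mul_distrib]

theorem TW.pl_mono (h : N ≤ M) : TW.Pl p k N ≤ TW.Pl p k M := by
  refine span_mono ?_
  rintro _ ⟨α, h1, rfl⟩
  exact ⟨α, h1.trans_le h, rfl⟩

-- the union of the `Pl N` is closed under products and contains the constants and the coordinates, hence the functions
-- `∏ t, (1 - (x t - a t) ^ (p - 1))`, the indicators of the points
theorem TW.eq_zero_of_moments {h : Vk p k → ZMod p}
    (H : ∀ a : Vk p k, ∑ x, TW.mono (TW.ex a) x * h x = 0) : h = 0 := by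
  have key : ∀ q : MvPolynomial (Fin k) (ZMod p), ∑ x, MvPolynomial.eval x q * h x = 0 := by
    intro q
    induction q using MvPolynomial.induction_on' with
    | monomial s c =>
      obtain ⟨a, -, ha⟩ := TWREDx.red (p := p) s
      have e : ∀ x : Vk p k, MvPolynomial.eval x (MvPolynomial.monomial s c) =
          c * TW.mono (TW.ex a) x := fun x => by
        rw [MvPolynomial.eval_monomial, Finsupp.prod_fintype _ _ fun _ => pow_zero _, ← ha]
        rfl
      simp only [e, mul_assoc, ← Finset.mul_sum, H, mul_zero]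
    | add q q' h1 h2 => simp only [map_add, add_mul, Finset.sum_add_distrib, h1, h2, add_zero]
  funext a
  have := key (MvPolynomial.indicator a)
  rwa [Finset.sum_eq_single a (fun x _ hx => by
    rw [MvPolynomial.eval_indicator_apply_eq_zero _ _ hx, zero_mul]) (by simp),
    MvPolynomial.eval_indicator_apply_eq_one, one_mul] at this

end Pool.Agent.P.MP_f1a348_lc.LS
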