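import Pool.Agent.P.MP_f1a348_lc.LS.DefsT

/-! Step TWUT. -/

set_option autoImplicit false
set_option linter.unusedSectionVars false

namespace Pool.Agent.P.MP_f1a348_lc.LS

open Module Submodule Pool.Agent.Lib.Helper47 Pool.Agent.P.MP_f1a348_lc.GI

variable {p k : ℕ} [Fact p.Prime] {u u' g : Vk p k ≃ₗ[ZMod p] Vk p k} {f f' : Vk p k → List Bool}
  {E E' : TW.Tab} {X : List TW.Pt} {pad : List Unit} {N M : ℕ}

namespace TWUTx

theorem expand (u : Vk p k ≃ₗ[ZMod p] Vk p k) (x : Vk p k) :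
    u x = ∑ s, x s • u (Pi.single s 1) := by
  conv_lhs => rw [pi_eq_sum_univ' x]
  simp only [map_sum, map_smul]

end TWUTx

theorem ut_iff : UT u ↔ ∀ (x : Vk p k) (t : Fin k), (∀ s, s < t → x s = 0) → u x t = x t := by
  refine ⟨fun h x t hx => ?_, fun h t t' ht => h _ _ fun s hs =>
    Pi.single_eq_of_ne (hs.trans_le ht).ne _⟩
  rw [TWUTx.expand u x]
  conv_rhs => rw [pi_eq_sum_univ' x]
  simp only [Finset.sum_apply, Pi.smul_apply]
  refine Finset.sum_congr rfl fun s _ => ?_
  rcases lt_or_ge s t with hs | hs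
  · rw [hx s hs, zero_smul, zero_smul]
  · rw [h s t hs]

theorem ut_one : UT (1 : Vk p k ≃ₗ[ZMod p] Vk p k) := by
  exact fun _ _ _ => rfl

theorem UT.mul (h : UT u) (h' : UT u') : UT (u * u') := by
  rw [ut_iff] at h h' ⊢
  intro x t hx
  change u (u' x) t = x t
  rw [h _ t fun s hs => (h' x s fun s' hs' => hx s' (hs'.trans hs)).trans (hx s hs), h' x t hx]

theorem UT.inv (h : UT u) : UT u⁻¹ := by
  rw [ut_iff] at h ⊢
  intro x t hx
  have e : u (u⁻¹ x) = x := u.apply_symm_apply x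
  have h1 : ∀ s, s < t → u⁻¹ x s = 0 := fun s => by
    induction s using WellFoundedLT.induction with
    | ind s ih =>
      intro hs
      rw [← h _ s fun s' hs' => ih s' hs' (hs'.trans hs), e, hx s hs]
  rw [← h _ t h1, e]

/-- the map `x ↦ x + x s • c` -/
theorem exists_col (s : Fin k) (c : Vk p k) (hc : ∀ t, t ≤ s → c t = 0) :
    ∃ w : Vk p k ≃ₗ[ZMod p] Vk p k, UT w ∧ ∀ x, w x = x + x s • c := by
  refine ⟨LinearEquiv.ofLinearMap (LinearMap.id + (LinearMap.proj s).smulRight c)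
    (LinearMap.id - (LinearMap.proj s).smulRight c) ?_ ?_, ut_iff.2 fun x t hx => ?_, fun x => rfl⟩
  · refine LinearMap.ext fun x => ?_
    simp [hc s le_rfl]
  · refine LinearMap.ext fun x => ?_
    simp [hc s le_rfl]
  · change x t + x s * c t = x t
    rcases lt_or_ge s t with hs | hs
    · rw [hx s hs, zero_mul, add_zero]
    · rw [hc t hs, mul_zero, add_zero]

-- downward induction: if `u` fixes the basis vectors `t > s`, take `c = u e_s - e_s`; `u * w⁻¹` fixes those with `t ≥ s`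
theorem UT.induction {Q : (Vk p k ≃ₗ[ZMod p] Vk p k) → Prop} (h1 : Q 1)
    (hm : ∀ (u w : Vk p k ≃ₗ[ZMod p] Vk p k) (s : Fin k) (c : Vk p k), Q u →
      (∀ t, t ≤ s → c t = 0) → (∀ x, w x = x + x s • c) → Q (u * w)) (h : UT u) : Q u := by
  suffices H : ∀ (n : ℕ) (u : Vk p k ≃ₗ[ZMod p] Vk p k), UT u →
      (∀ t : Fin k, n ≤ t.1 → u (Pi.single t 1) = Pi.single t 1) → Q u from
    H k u h fun t ht => absurd t.2 (not_lt.2 ht)
  intro n
  induction n with
  | zero =>
    intro u _ hu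
    have e : u = 1 := LinearEquiv.ext fun x => by
      rw [TWUTx.expand u x]
      simp only [hu _ (Nat.zero_le _)]
      exact (pi_eq_sum_univ' x).symm
    rw [e]; exact h1
  | succ n ih =>
    intro u hu hf
    by_cases hn : n < k
    swap
    · exact ih u hu fun t ht => absurd (ht.trans_lt t.2) hn
    have hc : ∀ t, t ≤ (⟨n, hn⟩ : Fin k) →
        (u (Pi.single ⟨n, hn⟩ 1) - Pi.single ⟨n, hn⟩ 1 : Vk p k) t = 0 := fun t ht => by
      rw [Pi.sub_apply, hu _ t ht, sub_self]
    obtain ⟨w, hw, hw'⟩ := exists_col _ _ hc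
    generalize hd : (u (Pi.single ⟨n, hn⟩ 1) - Pi.single ⟨n, hn⟩ 1 : Vk p k) = c at hc hw'
    have e1 : u c = c := by
      rw [TWUTx.expand u c]
      conv_rhs => rw [pi_eq_sum_univ' c]
      refine Finset.sum_congr rfl fun s _ => ?_
      rcases le_or_gt s ⟨n, hn⟩ with hs | hs
      · rw [hc s hs, zero_smul, zero_smul]
      · rw [hf s hs]
    have e2 : Q (u * w⁻¹) := ih _ (hu.mul hw.inv) fun t ht => by
      change u (w.symm (Pi.single t 1)) = Pi.single t 1
      rcases eq_or_lt_of_le ht with ht | ht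
      · obtain rfl : t = ⟨n, hn⟩ := Fin.ext ht.symm
        have e3 : w.symm (Pi.single ⟨n, hn⟩ 1) = Pi.single ⟨n, hn⟩ 1 - c := by
          rw [LinearEquiv.symm_apply_eq, hw']
          simp [hc _ le_rfl]
        rw [e3, map_sub, e1, ← hd, sub_sub_cancel]
      · have e3 : w.symm (Pi.single t 1) = Pi.single t 1 := by
          rw [LinearEquiv.symm_apply_eq, hw', Pi.single_eq_of_ne
            (fun e => by rw [← e] at ht; exact lt_irrefl _ ht), zero_smul, add_zero]
        rw [e3, hf t ht]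
    have e4 := hm _ w _ c e2 hc hw'
    rwa [inv_mul_cancel_right] at e4

end Pool.Agent.P.MP_f1a348_lc.LS
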