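import Pool.Agent.P.MP_f1a348_lc.LS.DefsT
import Pool.Agent.P.MP_f1a348_lc.LS.TTWUT
import Pool.Agent.P.MP_f1a348_lc.LS.TTWRED

/-! Step TWFIL. -/

set_option autoImplicit false
set_option linter.unusedSectionVars false

namespace Pool.Agent.P.MP_f1a348_lc.LS

open Module Submodule Pool.Agent.Lib.Helper47 Pool.Agent.P.MP_f1a348_lc.GI

variable {p k : ℕ} [Fact p.Prime] {u u' g : Vk p k ≃ₗ[ZMod p] Vk p k} {f f' : Vk p k → List Bool}
  {E E' : TW.Tab} {X : List TW.Pt} {pad : List Unit} {N M : ℕ}

namespace TWFILx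

theorem mono_add (α β : Fin k → ℕ) (x : Vk p k) :
    TW.mono (α + β) x = TW.mono α x * TW.mono β x := by
  simp only [TW.mono, Pi.add_apply, pow_add, Finset.prod_mul_distrib]

theorem wt_add (α β : Fin k → ℕ) : TW.wtF (α + β) = TW.wtF α + TW.wtF β := by
  simp only [TW.wtF, Pi.add_apply, add_mul, Finset.sum_add_distrib]

theorem mono_single (t : Fin k) (x : Vk p k) : TW.mono (Pi.single t 1) x = x t := by
  unfold TW.mono
  rw [Finset.prod_eq_single t]
  · simp
  · intro s _ hs
    simp [hs]
  · simp

theorem wt_single (t : Fin k) : TW.wtF (Pi.single t 1 : Fin k → ℕ) = t + 1 := by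
  unfold TW.wtF
  rw [Finset.sum_eq_single t]
  · simp
  · intro s _ hs
    simp [hs]
  · simp

theorem mono_mem (α : Fin k → ℕ) (h : TW.wtF α < N) :
    (TW.mono α : Vk p k → ZMod p) ∈ TW.Pl p k N :=
  subset_span ⟨α, h, rfl⟩

theorem filt_add (α β : Fin k → ℕ)
    (ha : (fun x => TW.mono α (u x) - TW.mono α x) ∈ TW.Pl p k (TW.wtF α))
    (hb : (fun x => TW.mono β (u x) - TW.mono β x) ∈ TW.Pl p k (TW.wtF β)) :
    (fun x => TW.mono (α + β) (u x) - TW.mono (α + β) x) ∈ TW.Pl p k (TW.wtF (α + β)) := by
  have h1 : ((fun x => TW.mono β (u x) - TW.mono β x) + (TW.mono β : Vk p k → ZMod p)) ∈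
      TW.Pl p k (TW.wtF β + 1) :=
    add_mem (TW.pl_mono (Nat.le_succ _) hb) (mono_mem β (Nat.lt_succ_self _))
  have h2 := TW.pl_mul ha h1
  have h3 := TW.pl_mul hb (mono_mem (p := p) α (Nat.lt_succ_self _))
  rw [add_comm (TW.wtF β)] at h3
  have h4 := add_mem h2 h3
  rw [wt_add]
  have e : (fun x => TW.mono (α + β) (u x) - TW.mono (α + β) x) =
      (fun x => TW.mono α (u x) - TW.mono α x) *
        ((fun x => TW.mono β (u x) - TW.mono β x) + (TW.mono β : Vk p k → ZMod p)) +
      (fun x => TW.mono β (u x) - TW.mono β x) * (TW.mono α : Vk p k → ZMod p) := by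
    funext x
    simp only [mono_add, Pi.add_apply, Pi.mul_apply]
    ring
  rw [e]
  exact h4

theorem filt_single (h : UT u) (t : Fin k) :
    (fun x => TW.mono (Pi.single t 1) (u x) - TW.mono (Pi.single t 1) x) ∈
      TW.Pl p k (TW.wtF (Pi.single t 1 : Fin k → ℕ)) := by
  have e : (fun x => TW.mono (Pi.single t 1) (u x) - TW.mono (Pi.single t 1) x) =
      ∑ s : Fin k, (u (Pi.single s 1) t - (Pi.single s 1 : Vk p k) t) •
        (TW.mono (Pi.single s 1) : Vk p k → ZMod p) := by
    funext x
    have hx : x = ∑ s : Fin k, x s • (Pi.single s 1 : Vk p k) := by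
      funext r
      simp [Finset.sum_apply, Pi.single_apply]
    have h1 : u x t = ∑ s : Fin k, x s * u (Pi.single s 1) t := by
      conv_lhs => rw [hx]
      simp [map_sum, Finset.sum_apply]
    have h2 : x t = ∑ s : Fin k, x s * (Pi.single s 1 : Vk p k) t := by
      simp [Pi.single_apply]
    simp only [mono_single, Finset.sum_apply, Pi.smul_apply, smul_eq_mul]
    rw [h1]
    conv_lhs => rw [h2]
    rw [← Finset.sum_sub_distrib]
    exact Finset.sum_congr rfl fun s _ => by ring
  rw [e, wt_single]
  refine sum_mem fun s _ => ?_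
  by_cases hs : t ≤ s
  · rw [h s t hs, sub_self, zero_smul]
    exact zero_mem _
  · refine smul_mem _ _ (mono_mem _ ?_)
    rw [wt_single]
    have : s < t := not_le.1 hs
    exact Nat.succ_lt_succ this

end TWFILx

-- induction on `∑ t, α t`; `u x t - x t` is a combination of the coordinates `s < t`, so it lies in `Pl (t + 1)`
theorem TW.filt (h : UT u) (α : Fin k → ℕ) :
    (fun x => TW.mono α (u x) - TW.mono α x) ∈ TW.Pl p k (TW.wtF α) := by
  have h0 : (fun x => TW.mono (0 : Fin k → ℕ) (u x) - TW.mono 0 x) ∈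
      TW.Pl p k (TW.wtF (0 : Fin k → ℕ)) := by
    have e : (fun x => TW.mono (0 : Fin k → ℕ) (u x) - TW.mono 0 x) = 0 := by
      funext x
      simp [TW.mono]
    rw [e]
    exact zero_mem _
  induction α using Pi.single_induction with
  | zero => exact h0
  | add a b ha hb => exact TWFILx.filt_add a b ha hb
  | single t n =>
    induction n with
    | zero => rw [Pi.single_zero]; exact h0
    | succ n ih =>
      rw [Pi.single_add]
      exact TWFILx.filt_add _ _ ih (TWFILx.filt_single h t)

-- `mono (g y) = mono y + ℓ y` with `ℓ ∈ Pr (wt a)`; the sums of `ℓ (u v)` and `ℓ v` over the letter `c` agree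
theorem TW.mm_mul {c : List Bool} {a : Vk p k} (hg : UT g)
    (H : ∀ b : Vk p k, TW.wtF (TW.ex b) < TW.wtF (TW.ex a) → TW.mm f c b u = TW.mm f c b 1) :
    TW.mm f c a (g * u) + TW.mm f c a 1 = TW.mm f c a g + TW.mm f c a u := by
  classical
  have key : ∀ l ∈ TW.Pr p k (TW.wtF (TW.ex a)),
      (∑ v, if f v = c then l (u v) else 0) = ∑ v, if f v = c then l v else 0 := by
    intro l hl
    induction hl using span_induction with
    | mem x hx =>
      obtain ⟨b, hb, rfl⟩ := hx
      simpa [TW.mm] using H b hb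
    | zero => simp
    | add x y _ _ hx hy =>
      have e : ∀ w : Vk p k → Vk p k, (∑ v, if f v = c then (x + y) (w v) else 0) =
          (∑ v, if f v = c then x (w v) else 0) + ∑ v, if f v = c then y (w v) else 0 := by
        intro w
        rw [← Finset.sum_add_distrib]
        refine Finset.sum_congr rfl fun v _ => ?_
        split_ifs <;> simp
      rw [e (fun v => u v), e (fun v => v), hx, hy]
    | smul r x _ hx =>
      have e : ∀ w : Vk p k → Vk p k, (∑ v, if f v = c then (r • x) (w v) else 0) =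
          r * ∑ v, if f v = c then x (w v) else 0 := by
        intro w
        rw [Finset.mul_sum]
        refine Finset.sum_congr rfl fun v _ => ?_
        split_ifs <;> simp
      rw [e (fun v => u v), e (fun v => v), hx]
  have hl := TW.filt hg (TW.ex a)
  rw [TW.pl_eq_pr] at hl
  have k1 := key _ hl
  have e : ∀ w : Vk p k → Vk p k,
      (∑ v, if f v = c then TW.mono (TW.ex a) (g (w v)) - TW.mono (TW.ex a) (w v) else 0) =
        (∑ v, if f v = c then TW.mono (TW.ex a) (g (w v)) else 0) -
          ∑ v, if f v = c then TW.mono (TW.ex a) (w v) else 0 := by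
    intro w
    rw [← Finset.sum_sub_distrib]
    refine Finset.sum_congr rfl fun v _ => ?_
    split_ifs <;> simp
  rw [e (fun v => u v), e (fun v => v)] at k1
  simp only [TW.mm, LinearEquiv.mul_apply, LinearEquiv.coe_one, id_eq]
  linear_combination k1

theorem TW.mm_of_iso (h : ∀ v, f' (u v) = f v) (c : List Bool) (a : Vk p k) :
    TW.mm f c a u = TW.mm f' c a 1 := by
  classical
  simp only [TW.mm, LinearEquiv.coe_one, id_eq]
  rw [← Equiv.sum_comp u.toEquiv (fun v => if f' v = c then TW.mono (TW.ex a) v else 0)]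
  refine Finset.sum_congr rfl fun v _ => ?_
  simp [h v]

-- `eq_zero_of_moments` for the difference of the indicators of `f (u⁻¹ x) = c` and `f' x = c`, with `c = f v`
theorem TW.iso_of_mm (h : ∀ v a, TW.mm f (f v) a u = TW.mm f' (f v) a 1) (v : Vk p k) :
    f' (u v) = f v := by
  classical
  have H := TW.eq_zero_of_moments (p := p) (k := k)
    (h := fun x => (if f (u.symm x) = f v then 1 else 0) - (if f' x = f v then 1 else 0)) (by
      intro a
      have h1 := h v a
      simp only [TW.mm, LinearEquiv.coe_one, id_eq] at h1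
      simp only [mul_sub, Finset.sum_sub_distrib, mul_ite, mul_one, mul_zero]
      rw [← h1, ← Equiv.sum_comp u.toEquiv]
      simp)
  have h2 := congrFun H (u v)
  by_contra hne
  simp [hne] at h2

end Pool.Agent.P.MP_f1a348_lc.LS
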