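import Pool.Agent.P.MP_f1a348_lc.LS.DefsT
import Pool.Agent.P.MP_f1a348_lc.LS.TTWUT

/-! Step TWGEN. -/

set_option autoImplicit false
set_option linter.unusedSectionVars false

namespace Pool.Agent.P.MP_f1a348_lc.LS

open Module Submodule Pool.Agent.Lib.Helper47 Pool.Agent.P.MP_f1a348_lc.GI

variable {p k : ℕ} [Fact p.Prime] {u u' g : Vk p k ≃ₗ[ZMod p] Vk p k} {f f' : Vk p k → List Bool}
  {E E' : TW.Tab} {X : List TW.Pt} {pad : List Unit} {N M : ℕ}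

theorem TW.cd_injective : Function.Injective (TW.cd : Vk p k → TW.Pt) := fun _ _ h =>
  funext fun t => ZMod.val_injective p (congrFun (List.ofFn_injective h) t)

theorem TW.Ind.one : TW.Ind (1 : Vk p k ≃ₗ[ZMod p] Vk p k) 1 :=
  ⟨fun _ => rfl, fun _ _ => rfl⟩

theorem TW.Ind.mul {a b : FP TW.Pt} (h : TW.Ind u a) (h' : TW.Ind u' b) : TW.Ind (u * u') (a * b) :=
  ⟨fun v => by rw [FP.app_mul, h'.1, h.1]; rfl, fun x hx => by rw [FP.app_mul, h'.2 x hx, h.2 x hx]⟩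

theorem TW.Ind.inv {a : FP TW.Pt} (h : TW.Ind u a) : TW.Ind u⁻¹ a⁻¹ :=
  ⟨fun v => a.app_injective (by rw [FP.app_app_inv, h.1]; exact congrArg _ (u.apply_symm_apply v).symm),
    fun x hx => a.app_injective (by rw [FP.app_app_inv, h.2 x hx])⟩

namespace TWGENx

theorem colV_cd (s : Fin k) (c x : Vk p k) :
    TW.colV p s (TW.cd c) (TW.cd x) = TW.cd (x + x s • c) := by
  refine List.ext_getElem (by simp [TW.colV, TW.cd]) fun i h1 h2 => ?_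
  simp [TW.colV, TW.cd, ZMod.val_add, ZMod.val_mul, List.getD_eq_getElem?_getD]

theorem ind (hX : TW.IsPts p k X) (s : Fin k) (c : Vk p k) (hw : ∀ x, u x = x + x s • c) :
    TW.Ind u (FP.ofList (X.map (fun x => (x, TW.colV p s (TW.cd c) x)))) := by
  refine ⟨fun v => ?_, fun x hx => FP.ofList_fix fun q hq => ?_⟩
  · rw [FP.ofList_map (fun a ha b hb e => ?_) ((hX _).2 ⟨v, rfl⟩), colV_cd, hw]
    obtain ⟨a, rfl⟩ := (hX a).1 ha
    obtain ⟨b, rfl⟩ := (hX b).1 hb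
    rw [colV_cd, colV_cd, ← hw, ← hw] at e
    rw [u.injective (TW.cd_injective e)]
  · obtain ⟨y, hy, rfl⟩ := List.mem_map.1 hq
    obtain ⟨y, rfl⟩ := (hX y).1 hy
    exact ⟨(hx y).symm, by rw [colV_cd]; exact (hx _).symm⟩

theorem mem_gens (hX : TW.IsPts p k X) {a : FP TW.Pt} : a ∈ TW.gens p X ↔
    ∃ (s : Fin k) (c : Vk p k), (∀ t, t ≤ s → c t = 0) ∧
      FP.ofList (X.map (fun x => (x, TW.colV p s (TW.cd c) x))) = a := by
  have hl : (X.headD []).length = k := by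
    obtain _ | ⟨x, X⟩ := X
    · exact absurd ((hX _).2 ⟨0, rfl⟩) (by simp)
    · obtain ⟨v, rfl⟩ := (hX x).1 (by simp)
      simp [TW.cd]
  have ht : ∀ (s : Fin k) (c : Vk p k), (((TW.cd c).take (s + 1)).all fun y => y == 0) = true ↔
      ∀ t, t ≤ s → c t = 0 := fun s c => by
    simp only [List.all_eq_true, beq_iff_eq, List.mem_take_iff_getElem, TW.cd, List.length_ofFn,
      List.getElem_ofFn]
    refine ⟨fun h t ht => (ZMod.val_eq_zero _).1 (h _ ⟨t, ?_, rfl⟩), ?_⟩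
    · have : (t : ℕ) ≤ s := ht
      omega
    · rintro h _ ⟨i, hi, rfl⟩
      rw [h _ (Fin.le_def.2 (by simp only; omega)), ZMod.val_zero]
  simp only [TW.gens, hl, List.mem_map, List.mem_filter, mem_prodL, List.mem_range]
  constructor
  · rintro ⟨⟨s, c⟩, ⟨⟨hs, hc⟩, h⟩, rfl⟩
    obtain ⟨c, rfl⟩ := (hX c).1 hc
    exact ⟨⟨s, hs⟩, c, (ht ⟨s, hs⟩ c).1 h, rfl⟩
  · rintro ⟨s, c, h, rfl⟩
    exact ⟨(s, TW.cd c), ⟨⟨s.2, (hX _).2 ⟨c, rfl⟩⟩, (ht s c).2 h⟩, rfl⟩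

end TWGENx

-- `colV p s (cd c) (cd x) = cd (x + x s • c)`; `FP.ofList_map`, `FP.ofList_fix`, `exists_col`
theorem TW.gens_sound (hX : TW.IsPts p k X) {a : FP TW.Pt} (ha : a ∈ gen (TW.gens p X)) :
    ∃ u : Vk p k ≃ₗ[ZMod p] Vk p k, UT u ∧ TW.Ind u a := by
  induction ha using Subgroup.closure_induction with
  | mem x hx =>
    obtain ⟨s, c, h, rfl⟩ := (TWGENx.mem_gens hX).1 hx
    obtain ⟨w, hw, e⟩ := exists_col s c h
    exact ⟨w, hw, TWGENx.ind hX s c e⟩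
  | one => exact ⟨1, ut_one, .one⟩
  | mul x y _ _ hx hy =>
    obtain ⟨u, hu, h⟩ := hx
    obtain ⟨w, hw, h'⟩ := hy
    exact ⟨_, hu.mul hw, h.mul h'⟩
  | inv x _ hx =>
    obtain ⟨u, hu, h⟩ := hx
    exact ⟨_, hu.inv, h.inv⟩

-- `UT.induction`
theorem TW.gens_complete (hX : TW.IsPts p k X) (h : UT u) : ∃ a ∈ gen (TW.gens p X), TW.Ind u a := by
  refine UT.induction (Q := fun u => ∃ a ∈ gen (TW.gens p X), TW.Ind u a)
    ⟨1, one_mem _, .one⟩ ?_ h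
  rintro u w s c ⟨a, ha, h⟩ hc hw
  exact ⟨_, mul_mem ha (mem_gen ((TWGENx.mem_gens hX).2 ⟨s, c, hc, rfl⟩)),
    h.mul (TWGENx.ind hX s c hw)⟩

end Pool.Agent.P.MP_f1a348_lc.LS
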