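import Pool.Agent.P.MP_f1a348_lc.LS.DefsT
import Pool.Agent.P.MP_f1a348_lc.LS.TTWGEN

/-! Step TWVAL. -/

set_option autoImplicit false
set_option linter.unusedSectionVars false

namespace Pool.Agent.P.MP_f1a348_lc.LS

open Module Submodule Pool.Agent.Lib.Helper47 Pool.Agent.P.MP_f1a348_lc.GI

variable {p k : ℕ} [Fact p.Prime] {u u' g : Vk p k ≃ₗ[ZMod p] Vk p k} {f f' : Vk p k → List Bool}
  {E E' : TW.Tab} {X : List TW.Pt} {pad : List Unit} {N M : ℕ}

namespace TWVALx

theorem perm (hE : TW.IsTab E f) :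
    E.Perm ((Finset.univ : Finset (Vk p k)).toList.map fun v => (TW.cd v, f v)) := by
  refine (List.perm_ext_iff_of_nodup (hE.1.of_map _) ((Finset.nodup_toList _).map
    fun v w h => TW.cd_injective (Prod.mk.inj h).1)).2 fun ⟨x, c⟩ => ?_
  rw [hE.2]
  simp [eq_comm]

theorem sum_filter {α : Type} (l : List α) (q : α → Bool) (g : α → ℕ) :
    ((l.filter q).map g).sum = (l.map fun x => if q x then g x else 0).sum := by
  induction l with
  | nil => rfl
  | cons a l ih => by_cases h : q a <;> simp [h, ih]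

theorem monoV_cd (hp : p ≤ pad.length) (b x : Vk p k) :
    TW.monoV pad (TW.cd b) (TW.cd x) = ∏ t, (x t).val ^ (b t).val := by
  rw [TW.monoV, ← List.prod_ofFn, List.prod_eq_foldl]
  congr 1
  refine List.ext_getElem (by simp [TW.cd]) fun i _ _ => ?_
  simp only [TW.cd, List.getElem_map, List.getElem_zip, List.getElem_ofFn, List.length_take]
  rw [min_eq_left ((ZMod.val_lt _).le.trans hp)]

theorem mem {t : TW.Pt × List Bool} : t ∈ TW.tests pad E E' ↔
    TW.wtV t.1 < pad.length ∧ t.1 ∈ E.map Prod.fst ∧ t.2 ∈ (E ++ E').map Prod.snd := by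
  simp only [TW.tests, List.mem_flatMap, List.mem_range, mem_prodL, List.mem_filter, beq_iff_eq]
  exact ⟨fun ⟨_, h, ⟨h1, h2⟩, h3⟩ => ⟨h2 ▸ h, h1, h3⟩, fun ⟨h, h1, h3⟩ => ⟨_, h, ⟨h1, rfl⟩, h3⟩⟩

end TWVALx

theorem TW.wtV_cd (a : Vk p k) : TW.wtV (TW.cd a) = TW.wtF (TW.ex a) := by
  rw [TW.wtV, TW.wtF, ← List.sum_ofFn]
  congr 1
  exact List.ext_getElem (by simp [TW.cd]) fun i _ _ => by simp [TW.cd, TW.ex]

theorem TW.IsTab.pts (hE : TW.IsTab E f) : TW.IsPts p k (E.map Prod.fst) := by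
  intro x
  simp only [List.mem_map, Prod.exists, exists_and_right, exists_eq_right, hE.2]
  exact ⟨fun ⟨_, v, h, _⟩ => ⟨v, h⟩, fun ⟨v, h⟩ => ⟨_, v, h, rfl⟩⟩

theorem TW.IsTab.length (hE : TW.IsTab E f) : E.length = p ^ k := by
  simpa using (TWVALx.perm hE).length_eq

-- cast to `ZMod p`; the list `E` is a permutation of the list of all `(cd v, f v)`
theorem TW.mom_eq (hE : TW.IsTab E f) (hp : p ≤ pad.length) {a : FP TW.Pt} (h : TW.Ind u a)
    (b : Vk p k) (c : List Bool) : TW.mom pad p E (TW.cd b, c) a = (TW.mm f c b u).val := by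
  rw [TW.mom, ← ZMod.val_natCast, TWVALx.sum_filter, ((TWVALx.perm hE).map _).sum_eq,
    List.map_map, Finset.sum_map_toList, Nat.cast_sum, TW.mm]
  refine congrArg _ (Finset.sum_congr rfl fun v _ => ?_)
  simp [h.1, TWVALx.monoV_cd hp, TW.mono, TW.ex]

theorem TW.mem_tests (hE : TW.IsTab E f) (hp : (p ^ (k + 1)) ^ 2 ≤ pad.length)
    {t : TW.Pt × List Bool} :
    t ∈ TW.tests pad E E' ↔ (∃ a : Vk p k, t.1 = TW.cd a) ∧ t.2 ∈ (E ++ E').map Prod.snd := by
  rw [TWVALx.mem, hE.pts]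
  refine and_iff_right_of_imp fun ⟨⟨a, h⟩, _⟩ => lt_of_lt_of_le ?_ hp
  have h2 := (Fact.out : p.Prime).two_le
  have hk : k ≤ p ^ k := (Nat.lt_pow_self h2).le
  have h0 : 0 < p ^ k * (p * p ^ k) := by positivity
  rw [h, TW.wtV_cd, TW.wtF]
  calc _ ≤ k * (p * k) := by
        simpa [TW.ex] using Finset.sum_le_card_nsmul Finset.univ _ (p * k) fun t _ =>
          Nat.mul_le_mul (ZMod.val_lt (a t)).le t.2
    _ ≤ p ^ k * (p * p ^ k) := by gcongr
    _ < p ^ k * (p * p ^ k) * p := by nlinarith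
    _ = _ := by ring

/-- the tests of smaller weight come first -/
theorem TW.tests_pre {pre post : List (TW.Pt × List Bool)} {t s : TW.Pt × List Bool}
    (h : TW.tests pad E E' = pre ++ t :: post) (hs : s ∈ TW.tests pad E E')
    (hw : TW.wtV s.1 < TW.wtV t.1) : s ∈ pre := by
  have hp : (TW.tests pad E E').Pairwise fun a b => TW.wtV a.1 ≤ TW.wtV b.1 := by
    rw [TW.tests, List.pairwise_flatMap]
    simp only [mem_prodL, List.mem_filter, beq_iff_eq]
    refine ⟨fun n _ => List.pairwise_of_forall_mem_list fun a ha b hb => ?_,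
      List.pairwise_lt_range.imp fun hl a ha b hb => by omega⟩
    simp only [mem_prodL, List.mem_filter, beq_iff_eq] at ha hb
    omega
  rw [h] at hp hs
  rcases List.mem_append.1 hs with hs | hs
  · exact hs
  · rcases List.mem_cons.1 hs with rfl | hs
    · omega
    · have := (List.pairwise_cons.1 (List.pairwise_append.1 hp).2.1).1 s hs
      omega

end Pool.Agent.P.MP_f1a348_lc.LS
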