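import Pool.Agent.P.MP_f1a348_lc.LS.DefsT
import Pool.Agent.P.MP_f1a348_lc.LS.TTWVAL
import Pool.Agent.P.MP_f1a348_lc.LS.TTWFIL

/-! Step TWCMP. -/

set_option autoImplicit false
set_option linter.unusedSectionVars false

namespace Pool.Agent.P.MP_f1a348_lc.LS

open Module Submodule Pool.Agent.Lib.Helper47 Pool.Agent.P.MP_f1a348_lc.GI

variable {p k : ℕ} [Fact p.Prime] {u u' g : Vk p k ≃ₗ[ZMod p] Vk p k} {f f' : Vk p k → List Bool}
  {E E' : TW.Tab} {X : List TW.Pt} {pad : List Unit} {N M : ℕ}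

namespace TWCMPx

theorem le_pad (hp : (p ^ (k + 1)) ^ 2 ≤ pad.length) : p ≤ pad.length ∧ p ^ k * p ^ k ≤ pad.length := by
  have h0 : 0 < p := (Fact.out : p.Prime).pos
  have h1 : p ^ k ≤ p ^ (k + 1) := Nat.pow_le_pow_right h0 (by omega)
  have h2 : p ^ 1 ≤ p ^ (k + 1) := Nat.pow_le_pow_right h0 (by omega)
  have h3 : 0 < p ^ (k + 1) := Nat.pow_pos h0
  rw [pow_one] at h2
  rw [sq] at hp
  exact ⟨h2.trans ((Nat.le_mul_self _).trans hp), (Nat.mul_le_mul h1 h1).trans hp⟩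

theorem mom_iff {w w' : Vk p k ≃ₗ[ZMod p] Vk p k} {x x' : FP TW.Pt} (hE : TW.IsTab E f)
    (hE' : TW.IsTab E' f') (hp : p ≤ pad.length) (h : TW.Ind w x) (h' : TW.Ind w' x') (a : Vk p k)
    (c : List Bool) :
    (TW.mom pad p E (TW.cd a, c) x == TW.mom pad p E' (TW.cd a, c) x') = true ↔
      TW.mm f c a w = TW.mm f' c a w' := by
  have : NeZero p := ⟨(Fact.out : p.Prime).ne_zero⟩
  rw [beq_iff_eq, TW.mom_eq hE hp h, TW.mom_eq hE' hp h']
  exact (ZMod.val_injective p).eq_iff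

theorem low {pre post : List (TW.Pt × List Bool)} {a : Vk p k} {c : List Bool} {x : FP TW.Pt}
    (hE : TW.IsTab E f) (hp : (p ^ (k + 1)) ^ 2 ≤ pad.length)
    (e : TW.tests pad E E' = pre ++ (TW.cd a, c) :: post) (h : TW.Ind u x)
    (H : ∀ s ∈ pre, (TW.mom pad p E s x == TW.mom pad p E s 1) = true) (b : Vk p k)
    (hb : TW.wtF (TW.ex b) < TW.wtF (TW.ex a)) : TW.mm f c b u = TW.mm f c b 1 := by
  have ht : (TW.cd a, c) ∈ TW.tests pad E E' := by rw [e]; simp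
  have hs : (TW.cd b, c) ∈ TW.tests pad E E' :=
    (TW.mem_tests hE hp).2 ⟨⟨b, rfl⟩, ((TW.mem_tests hE hp).1 ht).2⟩
  refine (mom_iff hE hE (le_pad hp).1 h TW.Ind.one b c).1 (H _ (TW.tests_pre e hs ?_))
  rwa [TW.wtV_cd, TW.wtV_cd]

theorem key {a : Vk p k} {c : List Bool} (hu : UT u)
    (H : ∀ b : Vk p k, TW.wtF (TW.ex b) < TW.wtF (TW.ex a) → TW.mm f c b u = TW.mm f c b 1)
    (H' : ∀ b : Vk p k, TW.wtF (TW.ex b) < TW.wtF (TW.ex a) → TW.mm f c b u' = TW.mm f c b 1) :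
    TW.mm f c a (u⁻¹ * u') = TW.mm f c a 1 ↔ TW.mm f c a u = TW.mm f c a u' := by
  have h1 := TW.mm_mul hu.inv H
  have h2 := TW.mm_mul hu.inv H'
  rw [inv_mul_cancel] at h1
  constructor
  · intro h
    linear_combination h2 - h1 - h
  · intro h
    linear_combination h2 - h1 - h

theorem shape {pre post : List (TW.Pt × List Bool)} {t : TW.Pt × List Bool}
    (hE : TW.IsTab E f) (hp : (p ^ (k + 1)) ^ 2 ≤ pad.length)
    (e : TW.tests pad E E' = pre ++ t :: post) : ∃ (a : Vk p k) (c : List Bool), t = (TW.cd a, c) := by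
  have ht : t ∈ TW.tests pad E E' := by rw [e]; simp
  obtain ⟨⟨a, ha⟩, -⟩ := (TW.mem_tests hE hp).1 ht
  exact ⟨a, t.2, Prod.ext ha rfl⟩

theorem len_le {G : Type} {c : G → ℕ} {n : ℕ} {l : List G} (h : ∀ x ∈ l, c x < n)
    (hq : l.Pairwise fun x y => c x ≠ c y) : l.length ≤ n := by
  have hn : (l.map c).Nodup := List.pairwise_map.2 hq
  rw [← List.length_map (f := c), ← List.toFinset_card_of_nodup hn, ← Finset.card_range n]
  refine Finset.card_le_card fun w hw => ?_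
  obtain ⟨x, hx, rfl⟩ := List.mem_map.1 (List.mem_toFinset.1 hw)
  exact Finset.mem_range.2 (h x hx)

end TWCMPx

-- `towerLemma simsLemma` with `c = p ^ k`; on the subgroup cut out by the earlier tests `u ↦ mm u - mm 1` is additive (`mm_mul`),
-- it has at most `p` values; `mm_of_iso`, `iso_of_mm`
theorem TW.tw_complete (hE : TW.IsTab E f) (hE' : TW.IsTab E' f')
    (hp : (p ^ (k + 1)) ^ 2 ≤ pad.length) (h : ∃ u, UT u ∧ ∀ v, f' (u v) = f v) :
    TW.tw (pad, p, E, E') = true := by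
  obtain ⟨hp1, hp2⟩ := TWCMPx.le_pad hp
  have hX := hE.pts
  have hl : (E.map Prod.fst).length = p ^ k := by rw [List.length_map, hE.length]
  obtain ⟨g, S, e, a1, a2, -⟩ := towerLemma simsLemma (FP TW.Pt) TW.Pt (TW.Pt × List Bool)
    (fun t u => TW.mom pad p E t u == TW.mom pad p E t 1)
    (fun t g => TW.mom pad p E t g == TW.mom pad p E' t 1) pad (E.map Prod.fst)
    (TW.tests pad E E') 1 (TW.gens p (E.map Prod.fst)) (p ^ k)
    (fun x hx hb => FP.ext fun y => by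
      obtain ⟨w, -, hw⟩ := TW.gens_sound hX hx
      by_cases hy : ∃ v : Vk p k, y = TW.cd v
      · exact hb y ((hX y).2 hy)
      · exact hw.2 y fun v hv => hy ⟨v, hv⟩)
    (fun b hb => ⟨(E.map Prod.fst).toFinset, (List.toFinset_card_le _).trans hl.le, fun x hx => by
      obtain ⟨w, -, hw⟩ := TW.gens_sound hX hx
      obtain ⟨v, rfl⟩ := (hX b).1 hb
      exact List.mem_toFinset.2 ((hX _).2 ⟨w v, hw.1 v⟩)⟩)
    (by rw [hl]; exact hp2) (fun t _ => beq_self_eq_true _)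
    (fun pre t post e x hx y hy hx' hy' mx my => by
      obtain ⟨a, c, rfl⟩ := TWCMPx.shape hE hp e
      obtain ⟨w, hw, iw⟩ := TW.gens_sound hX hx
      obtain ⟨w', -, iw'⟩ := TW.gens_sound hX hy
      rw [TWCMPx.mom_iff hE hE hp1 (iw.inv.mul iw') TW.Ind.one,
        TWCMPx.key hw (TWCMPx.low hE hp e iw hx') (TWCMPx.low hE hp e iw' hy'),
        (TWCMPx.mom_iff hE hE hp1 iw TW.Ind.one a c).1 mx,
        (TWCMPx.mom_iff hE hE hp1 iw' TW.Ind.one a c).1 my])
    (fun pre t post e l hl hq => by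
      obtain ⟨a, c, rfl⟩ := TWCMPx.shape hE hp e
      refine (TWCMPx.len_le (c := TW.mom pad p E (TW.cd a, c))
        (fun x _ => Nat.mod_lt _ (Fact.out : p.Prime).pos)
        (hq.imp_of_mem fun {x y} hx hy q q' => ?_)).trans hp1
      obtain ⟨w, hw, iw⟩ := TW.gens_sound hX (hl x hx).1
      obtain ⟨w', -, iw'⟩ := TW.gens_sound hX (hl y hy).1
      have := (TWCMPx.mom_iff hE hE hp1 (iw.inv.mul iw') TW.Ind.one a c).2
        ((TWCMPx.key hw (TWCMPx.low hE hp e iw (hl x hx).2)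
          (TWCMPx.low hE hp e iw' (hl y hy).2)).2
          ((TWCMPx.mom_iff hE hE hp1 iw iw' a c).1 (beq_iff_eq.2 q')))
      rw [this] at q
      exact absurd q (by simp))
    (fun pre t post e x hx _ px y hy hy' => by
      obtain ⟨a, c, rfl⟩ := TWCMPx.shape hE hp e
      obtain ⟨w, hw, iw⟩ := TW.gens_sound hX (show x ∈ _ by simpa using hx)
      obtain ⟨w', -, iw'⟩ := TW.gens_sound hX hy
      have h1 := TW.mm_mul hw (TWCMPx.low hE hp e iw' hy')
      have h2 := (TWCMPx.mom_iff hE hE' hp1 iw TW.Ind.one a c).1 px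
      rw [Bool.eq_iff_iff, TWCMPx.mom_iff hE hE' hp1 (iw.mul iw') TW.Ind.one,
        TWCMPx.mom_iff hE hE hp1 iw' TW.Ind.one]
      constructor
      · intro h
        linear_combination h - h1 - h2
      · intro h
        linear_combination h + h1 + h2)
    (by
      obtain ⟨w, hw, hf⟩ := h
      obtain ⟨x, hx, iw⟩ := TW.gens_complete hX hw
      refine ⟨x, by simpa using hx, fun t ht => ?_⟩
      obtain ⟨⟨a, ha⟩, -⟩ := (TW.mem_tests hE hp).1 ht
      obtain ⟨t, c⟩ := t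
      obtain rfl : t = TW.cd a := ha
      exact (TWCMPx.mom_iff hE hE' hp1 iw TW.Ind.one a c).2 (TW.mm_of_iso hf c a))
  obtain ⟨w, -, iw⟩ := TW.gens_sound hX (show g ∈ _ by simpa using a1)
  have hf : ∀ v, f' (w v) = f v := TW.iso_of_mm fun v a =>
    (TWCMPx.mom_iff hE hE' hp1 iw TW.Ind.one a (f v)).1 (a2 _ ((TW.mem_tests hE hp).2
      ⟨⟨a, rfl⟩, List.mem_map.2 ⟨(TW.cd v, f v),
        List.mem_append_left _ ((hE.2 _ _).2 ⟨v, rfl, rfl⟩), rfl⟩⟩))
  have e' : TW.tow (pad, p, E, E') = some (g, S) := e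
  rw [TW.tw, e']
  simp only [Option.elim_some, List.all_eq_true, List.contains_iff_mem]
  rintro ⟨x, c⟩ hx
  obtain ⟨v, rfl, rfl⟩ := (hE.2 _ _).1 hx
  exact (hE'.2 _ _).2 ⟨w v, iw.1 v, (hf v).symm⟩

end Pool.Agent.P.MP_f1a348_lc.LS
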