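import Pool.Agent.P.MP_f1a348_lc.LS.DefsT

/-! Step TWPT. -/

set_option autoImplicit false
set_option linter.unusedSectionVars false

namespace Pool.Agent.P.MP_f1a348_lc.LS

open Module Submodule Pool.Agent.Lib.Helper47 Pool.Agent.P.MP_f1a348_lc.GI

variable {p k : ℕ} [Fact p.Prime] {u u' g : Vk p k ≃ₗ[ZMod p] Vk p k} {f f' : Vk p k → List Bool}
  {E E' : TW.Tab} {X : List TW.Pt} {pad : List Unit} {N M : ℕ}

namespace TWPTx

variable {α : Type} [Enc α]

theorem prod_lt (u : List ℕ) : u.foldl (fun r y => r * y) 1 < 2 ^ size u := by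
  induction u using List.reverseRecOn with
  | nil => simp
  | append_singleton u x ih =>
    rw [List.foldl_append]
    have h1 := size_append u [x]
    have h2 := lt_two_pow_size x
    simp only [size_cons, size_nil] at h1
    have e : size (u ++ [x]) = size u + size x + 1 := by omega
    simp only [List.foldl_cons, List.foldl_nil]
    rw [e, pow_succ, pow_add]
    have := Nat.mul_lt_mul'' ih h2
    omega

theorem pt_prod {l : α → List ℕ} (hl : PT l) : PT (fun a => (l a).foldl (fun r y => r * y) 1) := by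
  refine PT.foldl (f := fun _ (r : ℕ) (y : ℕ) => r * y) (by fun_prop) hl (PT.const 1)
    (fun a => 4 * size (l a) + 1) (((PB.const 4).mul hl.size_le).add (PB.const 1))
    (fun a u hu => ?_)
  apply size_nat_le_of_lt_pow
  exact (prod_lt u).trans_le (Nat.pow_le_pow_right (by norm_num) (size_sublist hu.sublist))

@[fun_prop] theorem pt_monoV {pad : α → List Unit} {a x : α → TW.Pt} (h1 : PT pad) (h2 : PT a)
    (h3 : PT x) : PT (fun b => TW.monoV (pad b) (a b) (x b)) := by
  unfold TW.monoV
  refine pt_prod (PT.map (g := fun b (e : ℕ × ℕ) => e.2 ^ ((pad b).take e.1).length) ?_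
    (by fun_prop))
  have h : PT (fun q : α × ℕ × ℕ => (pad q.1).take q.2.1) := by fun_prop
  exact PT.pow (by fun_prop) (PT.length h) (ps_len h)

@[fun_prop] theorem pt_wtV {a : α → TW.Pt} (h : PT a) : PT (fun b => TW.wtV (a b)) := by
  unfold TW.wtV; fun_prop

@[fun_prop] theorem pt_mom {pad : α → List Unit} {q : α → ℕ} {E : α → TW.Tab}
    {t : α → TW.Pt × List Bool} {g : α → FP TW.Pt} (h1 : PT pad) (h2 : PT q) (h3 : PT E)
    (h4 : PT t) (h5 : PT g) : PT (fun b => TW.mom (pad b) (q b) (E b) (t b) (g b)) := by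
  unfold TW.mom; fun_prop

theorem pt_tests {pad : α → List Unit} {E E' : α → TW.Tab} (h1 : PT pad) (h2 : PT E)
    (h3 : PT E') : PT (fun b => TW.tests (pad b) (E b) (E' b)) := by
  unfold TW.tests
  exact PT.flatMap (g := fun b n => prodL (((E b).map Prod.fst).filter (fun a => TW.wtV a == n))
    ((E b ++ E' b).map Prod.snd)) (by fun_prop) (PT.rangeLength h1)

@[fun_prop] theorem pt_colV {q s : α → ℕ} {c x : α → TW.Pt} (h1 : PT q) (h2 : PT s) (h3 : PT c)
    (h4 : PT x) : PT (fun b => TW.colV (q b) (s b) (c b) (x b)) := by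
  unfold TW.colV; fun_prop

theorem pt_gens {q : α → ℕ} {X : α → List TW.Pt} (h1 : PT q) (h2 : PT X) :
    PT (fun b => TW.gens (q b) (X b)) := by
  unfold TW.gens
  have h3 : PT (fun b => List.range ((X b).headD []).length) := PT.rangeLength (by fun_prop)
  fun_prop

theorem pt_tow : PT TW.tow := by
  unfold TW.tow
  exact pt_tower
    (mem := fun (a : TW.In) t u => TW.mom a.1 a.2.1 a.2.2.1 t u == TW.mom a.1 a.2.1 a.2.2.1 t 1)
    (pass := fun (a : TW.In) t g => TW.mom a.1 a.2.1 a.2.2.1 t g == TW.mom a.1 a.2.1 a.2.2.2 t 1)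
    (by fun_prop) (by fun_prop) (by fun_prop) (by fun_prop)
    (pt_tests (by fun_prop) (by fun_prop) (by fun_prop)) (PT.const 1)
    (pt_gens (by fun_prop) (by fun_prop))

end TWPTx

-- `fun_prop` piece by piece: `PT.pow` with `ps_len`, `PT.foldl_add` for the product, `PT.rangeLength`, `pt_tower`, `FP.pt_ofList`
theorem TW.pt_tw : PT TW.tw := by
  have h := TWPTx.pt_tow
  unfold TW.tw
  fun_prop

end Pool.Agent.P.MP_f1a348_lc.LS
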