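import Pool.Agent.P.MP_f1a348_lc.LS.DefsT
import Pool.Agent.P.MP_f1a348_lc.LS.TTWVAL

/-! Step TWSND. -/

set_option autoImplicit false
set_option linter.unusedSectionVars false

namespace Pool.Agent.P.MP_f1a348_lc.LS

open Module Submodule Pool.Agent.Lib.Helper47 Pool.Agent.P.MP_f1a348_lc.GI

variable {p k : ℕ} [Fact p.Prime] {u u' g : Vk p k ≃ₗ[ZMod p] Vk p k} {f f' : Vk p k → List Bool}
  {E E' : TW.Tab} {X : List TW.Pt} {pad : List Unit} {N M : ℕ}

-- `towerStep_inv` (as in `pt_tower`) keeps the element in `gen (1 :: gens)`; `gens_sound`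
theorem TW.tw_sound (hE : TW.IsTab E f) (hE' : TW.IsTab E' f')
    (h : TW.tw (pad, p, E, E') = true) : ∃ u, UT u ∧ ∀ v, f' (u v) = f v := by
  rcases hr : TW.tow (pad, p, E, E') with _ | r
  · rw [TW.tw, hr] at h
    exact absurd h Bool.false_ne_true
  rw [TW.tw, hr] at h
  have h1 : r.1 ∈ gen (TW.gens p (E.map Prod.fst)) := by
    refine (List.foldlRecOn (motive := fun st : Option (FP TW.Pt × List (FP TW.Pt)) => ∀ s ∈ st,
      s.1 ∈ gen (TW.gens p (E.map Prod.fst)) ∧ (∀ x ∈ s.2, x ∈ gen (TW.gens p (E.map Prod.fst))) ∧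
        s.2.length ≤ pad.length + (TW.gens p (E.map Prod.fst)).length) _ _ (fun s hs => ?_)
      (fun st ht t _ => towerStep_inv (Nat.le_add_right _ _) ht) r hr).1
    obtain rfl := Option.mem_some_iff.1 hs
    exact ⟨one_mem _, fun x hx => mem_gen hx, Nat.le_add_left _ _⟩
  obtain ⟨u, hu, hi⟩ := TW.gens_sound hE.pts h1
  refine ⟨u, hu, fun v => ?_⟩
  have h2 := List.all_eq_true.1 h _ ((hE.2 _ _).2 ⟨v, rfl, rfl⟩)
  obtain ⟨w, h3, h4⟩ := (hE'.2 _ _).1 (List.contains_iff_mem.1 h2)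
  rw [hi.1] at h3
  rw [TW.cd_injective h3]
  exact h4.symm

end Pool.Agent.P.MP_f1a348_lc.LS
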