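import Pool.Agent.P.MP_f1a348_lc.LS.DefsT
import Pool.Agent.P.MP_f1a348_lc.LS.TTWPT
import Pool.Agent.P.MP_f1a348_lc.LS.TTWSND
import Pool.Agent.P.MP_f1a348_lc.LS.TTWCMP

/-! Step TWX. -/

set_option autoImplicit false
set_option linter.unusedSectionVars false

namespace Pool.Agent.P.MP_f1a348_lc.LS

open Module Submodule Pool.Agent.Lib.Helper47 Pool.Agent.P.MP_f1a348_lc.GI

variable {p k : ℕ} [Fact p.Prime] {u u' g : Vk p k ≃ₗ[ZMod p] Vk p k} {f f' : Vk p k → List Bool}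
  {E E' : TW.Tab} {X : List TW.Pt} {pad : List Unit} {N M : ℕ}

theorem twSpec : TWSpec TW.tw :=
  ⟨TW.pt_tw, fun _ _ _ _ _ _ _ _ hE hE' h => TW.tw_sound hE hE' h,
    fun _ _ _ _ _ _ _ _ hE hE' hp h => TW.tw_complete hE hE' hp h⟩

end Pool.Agent.P.MP_f1a348_lc.LS
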