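import Pool.Agent.P.MP_f1a348_lc.LS.DefsP

/-! Step ZLX. -/

set_option autoImplicit false
set_option linter.unusedSectionVars false

namespace Pool.Agent.P.MP_f1a348_lc.LS

open Module Submodule Pool.Agent.Lib.Helper47 Pool.Agent.P.MP_f1a348_lc.GI
open scoped Classical

variable {p k : ℕ} [Fact p.Prime] {f f' e e' : Vk p k → List Bool} {c : Cx} {i j m ρ N : ℕ}
  {T T' : List (Set (Wk p k))} {l l' : List (Pin p (Wk p k))} {r : Pin p (Wk p k)}
  {φ : Iso p (Wk p k)} {v w x y : Wk p k} {A B U : Sub p (Wk p k)} {S S' : Set (Wk p k)}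
  {C C' : Finset (Sub p (Wk p k))} {Cl : List (List Pt)} {σ : FS} {s : AS p k} {b b' : Bool}
  {g : Vk p k ≃ₗ[ZMod p] Vk p k} {tb tb' : Tb}

theorem map_lcomb {W W' : Type} [AddCommGroup W] [Module (ZMod p) W] [AddCommGroup W']
    [Module (ZMod p) W'] (ψ : W →ₗ[ZMod p] W') (a : List ℕ) (u : List W) :
    ψ (lcomb p a u) = lcomb p a (u.map ψ) := by
  induction a generalizing u with
  | nil => simp [lcomb]
  | cons t a ih =>
    cases u with
    | nil => simp [lcomb]
    | cons z u =>
      have := ih u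
      simp only [lcomb, List.map_cons, List.zipWith_cons_cons, List.sum_cons, map_add,
        map_smul] at this ⊢
      rw [this]

theorem lcomb_cons {W : Type} [AddCommGroup W] [Module (ZMod p) W] (t : ℕ) (a : List ℕ) (z : W)
    (u : List W) : lcomb p (t :: a) (z :: u) = (t : ZMod p) • z + lcomb p a u := by
  simp [lcomb]

theorem lcomb_mem {W : Type} [AddCommGroup W] [Module (ZMod p) W] (a : List ℕ) (u : List W) :
    lcomb p a u ∈ span (ZMod p) {z | z ∈ u} := by
  induction a generalizing u with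
  | nil => simp [lcomb]
  | cons t a ih =>
    cases u with
    | nil => simp [lcomb]
    | cons z u =>
      rw [lcomb_cons]
      exact add_mem (smul_mem _ _ (subset_span (by simp)))
        (span_mono (fun y hy => List.mem_cons_of_mem _ hy) (ih u))

namespace ZLXx

theorem lcomb_ofFn {W : Type} [AddCommGroup W] [Module (ZMod p) W] {n : ℕ} (a : Fin n → ZMod p)
    (u : Fin n → W) :
    lcomb p (List.ofFn (fun t => (a t).val)) (List.ofFn u) = ∑ t, a t • u t := by
  induction n with
  | zero => simp [lcomb]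
  | succ n ih =>
    rw [List.ofFn_succ, List.ofFn_succ, lcomb_cons, Fin.sum_univ_succ,
      ih (fun t => a t.succ) (fun t => u t.succ), ZMod.natCast_zmod_val]

theorem set_ofFn {W : Type} {n : ℕ} (u : Fin n → W) : {z | z ∈ List.ofFn u} = Set.range u := by
  ext z
  simp [List.mem_ofFn]

theorem val_lt {n : ℕ} (a : Fin n → ZMod p) : ∀ t ∈ List.ofFn (fun t => (a t).val), t < p := by
  intro t ht
  obtain ⟨s, rfl⟩ := List.mem_ofFn.1 ht
  exact ZMod.val_lt _

end ZLXx

theorem exists_lcomb {W : Type} [AddCommGroup W] [Module (ZMod p) W] {u : List W} {z : W}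
    (h : z ∈ span (ZMod p) {z | z ∈ u}) :
    ∃ a : List ℕ, a.length = u.length ∧ (∀ t ∈ a, t < p) ∧ lcomb p a u = z := by
  obtain ⟨n, x, rfl⟩ : ∃ (n : ℕ) (x : Fin n → W), u = List.ofFn x :=
    ⟨_, u.get, (List.ofFn_get u).symm⟩
  rw [ZLXx.set_ofFn] at h
  obtain ⟨a, rfl⟩ := (mem_span_range_iff_exists_fun _).1 h
  exact ⟨_, by simp, ZLXx.val_lt a, ZLXx.lcomb_ofFn a x⟩

theorem exists_span_list (h : finrank (ZMod p) U ≤ i) :
    ∃ u : List (Wk p k), u.length = i ∧ span (ZMod p) {z | z ∈ u} = U := by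
  let β := Module.finBasis (ZMod p) U
  refine ⟨List.ofFn (fun t => (β t : Wk p k)) ++ List.replicate (i - finrank (ZMod p) U) 0,
    by simp; omega, le_antisymm (span_le.2 fun z hz => ?_) fun z hz => ?_⟩
  · rcases List.mem_append.1 hz with hz | hz
    · obtain ⟨s, rfl⟩ := List.mem_ofFn.1 hz
      exact (β s).2
    · rw [List.eq_of_mem_replicate hz]
      exact U.zero_mem
  · have e : z = ∑ t, β.repr ⟨z, hz⟩ t • (β t : Wk p k) := by
      have := congrArg U.subtype (β.sum_repr ⟨z, hz⟩)
      rw [map_sum] at this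
      exact this.symm
    rw [e]
    exact sum_mem fun t _ => smul_mem _ _
      (subset_span (List.mem_append_left _ (List.mem_ofFn.2 ⟨t, rfl⟩)))

-- the maps `Fintype.linearCombination _ u.get` and the same for `u'` have the same kernel (`LinearMap.quotKerEquivRange`,
-- `Submodule.exists_linearEquiv_restrict_eq`); or induction on the list
theorem lin_ext {u u' : List (Wk p k)} (hl : u.length = u'.length)
    (h : ∀ a : List ℕ, a.length = u.length → (∀ t ∈ a, t < p) →
      (lcomb p a u = 0 ↔ lcomb p a u' = 0)) : ∃ φ : Iso p (Wk p k), u.map φ = u' := by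
  obtain ⟨n, x, rfl⟩ : ∃ (n : ℕ) (x : Fin n → Wk p k), u = List.ofFn x :=
    ⟨_, u.get, (List.ofFn_get u).symm⟩
  obtain ⟨n', x', rfl⟩ : ∃ (n : ℕ) (x : Fin n → Wk p k), u' = List.ofFn x :=
    ⟨_, u'.get, (List.ofFn_get u').symm⟩
  obtain rfl : n = n' := by simpa using hl
  let L := Fintype.linearCombination (ZMod p) x
  let L' := Fintype.linearCombination (ZMod p) x'
  have hk : LinearMap.ker L = LinearMap.ker L' := by
    ext a
    have := h _ (by simp) (ZLXx.val_lt a)
    rw [ZLXx.lcomb_ofFn, ZLXx.lcomb_ofFn] at this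
    simpa [L, L', Fintype.linearCombination_apply] using this
  obtain ⟨g, hg⟩ := Submodule.exists_linearEquiv_restrict_eq
    (L.quotKerEquivRange.symm ≪≫ₗ Submodule.quotEquivOfEq _ _ hk ≪≫ₗ L'.quotKerEquivRange)
  refine ⟨g, ?_⟩
  rw [List.map_ofFn]
  congr 1
  funext t
  have e := hg ⟨L (Pi.single t 1), LinearMap.mem_range_self _ _⟩
  rw [LinearEquiv.trans_apply, LinearEquiv.trans_apply,
    LinearMap.quotKerEquivRange_symm_apply_image, mkQ_apply, quotEquivOfEq_mk,
    LinearMap.quotKerEquivRange_apply_mk] at e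
  simpa [L, L'] using e.symm

-- a basis of the range, its coordinate forms are `beta s` (`LinearMap.BilinForm.toDual`, `beta_sep`), fill up with `0`
theorem low_rank (a : Wk p k →ₗ[ZMod p] Wk p k) :
    finrank (ZMod p) (LinearMap.range a) ≤ i ↔ ∃ u t : List (Wk p k), u.length = i ∧ t.length = i ∧
      ∀ w, a w = lcomb p (u.map (fun z => (beta p k z w).val)) t := by
  constructor
  · intro h
    obtain ⟨t, ht, hs⟩ := exists_span_list h
    obtain ⟨n, y, rfl⟩ : ∃ (n : ℕ) (x : Fin n → Wk p k), t = List.ofFn x :=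
      ⟨_, t.get, (List.ofFn_get t).symm⟩
    obtain rfl : n = i := by simpa using ht
    rw [ZLXx.set_ofFn, ← Fintype.range_linearCombination] at hs
    let L := Fintype.linearCombination (ZMod p) y
    obtain ⟨s, hs'⟩ := L.rangeRestrict.exists_rightInverse_of_surjective L.range_rangeRestrict
    let a' : Wk p k →ₗ[ZMod p] LinearMap.range L :=
      a.codRestrict _ (fun w => hs ▸ LinearMap.mem_range_self a w)
    have nd : (beta p k).Nondegenerate :=
      ⟨beta_sep, fun x h => beta_sep x fun y => (beta_symm x y).trans (h y)⟩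
    choose u hu using fun t : Fin n => ((beta p k).toDual nd).surjective
      ((LinearMap.proj t : (Fin n → ZMod p) →ₗ[ZMod p] ZMod p) ∘ₗ s ∘ₗ a')
    refine ⟨List.ofFn u, List.ofFn y, by simp, by simp, fun w => ?_⟩
    have e1 : (fun t => (beta p k (u t) w).val) = fun t => (s (a' w) t).val := by
      funext t
      exact congrArg ZMod.val (LinearMap.congr_fun (hu t) w)
    rw [List.map_ofFn]
    change a w = lcomb p (List.ofFn (fun t => (beta p k (u t) w).val)) _
    rw [e1, ZLXx.lcomb_ofFn]
    have e2 := congrArg Subtype.val (LinearMap.congr_fun hs' (a' w))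
    exact e2.symm.trans (Fintype.linearCombination_apply _ _ _)
  · rintro ⟨u, t, -, ht, h⟩
    have h1 : LinearMap.range a ≤ span (ZMod p) {z | z ∈ t} := by
      rintro _ ⟨w, rfl⟩
      rw [h]
      exact lcomb_mem _ _
    obtain ⟨n, y, rfl⟩ : ∃ (n : ℕ) (x : Fin n → Wk p k), t = List.ofFn x :=
      ⟨_, t.get, (List.ofFn_get t).symm⟩
    obtain rfl : n = i := by simpa using ht
    rw [ZLXx.set_ofFn] at h1
    exact (Submodule.finrank_mono h1).trans
      ((finrank_range_le_card (R := ZMod p) y).trans (Fintype.card_fin _).le)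

end Pool.Agent.P.MP_f1a348_lc.LS
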