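import Pool.Agent.P.MP_f1a348_lc.LS.DefsP
import Pool.Agent.P.MP_f1a348_lc.LS.TZFL
import Pool.Agent.P.MP_f1a348_lc.LS.TZLX

/-! Step ZWL1. -/

set_option autoImplicit false
set_option linter.unusedSectionVars false

namespace Pool.Agent.P.MP_f1a348_lc.LS

open Module Submodule Pool.Agent.Lib.Helper47 Pool.Agent.P.MP_f1a348_lc.GI
open scoped Classical

variable {p k : ℕ} [Fact p.Prime] {f f' e e' : Vk p k → List Bool} {c : Cx} {i j m ρ N : ℕ}
  {T T' : List (Set (Wk p k))} {l l' : List (Pin p (Wk p k))} {r : Pin p (Wk p k)}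
  {φ : Iso p (Wk p k)} {v w x y : Wk p k} {A B U : Sub p (Wk p k)} {S S' : Set (Wk p k)}
  {C C' : Finset (Sub p (Wk p k))} {Cl : List (List Pt)} {σ : FS} {s : AS p k} {b b' : Bool}
  {g : Vk p k ≃ₗ[ZMod p] Vk p k} {tb tb' : Tb}

namespace ZWL1x

theorem mem_r0 {X X' : Mk} {x y : Tp} :
    (x, y) ∈ c.r0 X X' ↔ (x ∈ c.tt ∧ y ∈ c.tt) ∧ c.aty X X' x = c.aty X X' y := by
  simp [Cx.r0, mem_prodL]

theorem mem_rnd {R : List (Tp × Tp)} {x y : Tp} :
    (x, y) ∈ c.rnd R ↔ (x, y) ∈ R ∧ c.sig R x = c.sig R y := by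
  simp [Cx.rnd]

theorem mem_tt (h : Mod c j f f') (b : Bool) {u : List (Wk p k)} (hu : u.length = j) :
    (b, u.map cd) ∈ c.tt := by
  have : u.map cd ∈ c.tu := h.mem_tu.2 ⟨u, hu, rfl⟩
  cases b
  · exact List.mem_append_left _ (List.mem_map.2 ⟨_, this, rfl⟩)
  · exact List.mem_append_right _ (List.mem_map.2 ⟨_, this, rfl⟩)

theorem rank_le (u : List (Wk p k)) :
    finrank (ZMod p) (span (ZMod p) {z | z ∈ u} : Sub p (Wk p k)) ≤ u.length := by
  rw [← List.coe_toFinset]
  exact (finrank_span_finset_le_card _).trans (List.toFinset_card_le u)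

end ZWL1x

open ZWL1x

-- as `eqv_iter` in TO/WProg.lean
theorem eqv_rnd (c : Cx) (X X' : Mk) (n : ℕ) : c.Eqv X X' (c.rnd^[n] (c.r0 X X')) := by
  induction n with
  | zero =>
    exact ⟨fun t ht => mem_r0.2 ⟨⟨ht, ht⟩, rfl⟩,
      fun x y h => mem_r0.2 ⟨(mem_r0.1 h).1.symm, (mem_r0.1 h).2.symm⟩,
      fun x y z h h' => mem_r0.2 ⟨⟨(mem_r0.1 h).1.1, (mem_r0.1 h').1.2⟩,
        (mem_r0.1 h).2.trans (mem_r0.1 h').2⟩,
      fun x y h => ⟨(mem_r0.1 h).1.1, (mem_r0.1 h).2⟩⟩
  | succ n ih =>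
    rw [Function.iterate_succ_apply']
    exact ⟨fun t ht => mem_rnd.2 ⟨ih.refl t ht, rfl⟩,
      fun x y h => mem_rnd.2 ⟨ih.symm _ _ (mem_rnd.1 h).1, (mem_rnd.1 h).2.symm⟩,
      fun x y z h h' => mem_rnd.2 ⟨ih.trans _ _ _ (mem_rnd.1 h).1 (mem_rnd.1 h').1,
        (mem_rnd.1 h).2.trans (mem_rnd.1 h').2⟩,
      fun x y h => ih.mem _ _ (mem_rnd.1 h).1⟩

theorem Mod.aty_iff (h : Mod c j f f') (u u' : List (Wk p k)) :
    c.aty (T.map (fl c)) (T'.map (fl c)) (b, u.map cd) =
        c.aty (T.map (fl c)) (T'.map (fl c)) (b', u'.map cd) ↔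
      ∀ a : List ℕ, a.length = j → (∀ t ∈ a, t < p) →
        colb f f' T T' b (lcomb p a u) = colb f f' T T' b' (lcomb p a u') := by
  have key : ∀ (b : Bool) (u : List (Wk p k)) (a : List ℕ),
      c.colr b (bif b then T'.map (fl c) else T.map (fl c)) (c.lc a (u.map cd)) =
        colb f f' T T' b (lcomb p a u) := fun b u a => by
    rw [h.lc_eq, colb, ← h.colr_eq]
    cases b <;> rfl
  simp only [Cx.aty, key, List.map_inj_left, h.mem_cf, and_imp]

theorem Mod.sig_iff (h : Mod c j f f') (R : List (Tp × Tp)) (u u' : List (Wk p k)) :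
    c.sig R (b, u.map cd) = c.sig R (b', u'.map cd) ↔ ∀ M ∈ c.mats, ∀ t ∈ c.tt,
      Nat.card {w : Wk p k // (t, (b, (w :: M.map (fun a => lcomb p a u)).map cd)) ∈ R} =
        Nat.card {w : Wk p k // (t, (b', (w :: M.map (fun a => lcomb p a u')).map cd)) ∈ R} := by
  have key : ∀ (b : Bool) (u : List (Wk p k)) (M : List (List ℕ)) (t : Tp),
      c.pts.countP (fun w => R.contains (t, (b, w :: M.map (fun a => c.lc a (u.map cd))))) =
        Nat.card {w : Wk p k // (t, (b, (w :: M.map (fun a => lcomb p a u)).map cd)) ∈ R} :=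
    fun b u M t => by
      rw [h.countP_pts]
      simp only [h.lc_eq, List.contains_iff_mem, List.map_cons, List.map_map, Function.comp_def]
  simp only [Cx.sig, key, List.map_inj_left, Prod.forall, mem_prodL, and_imp]
  exact ⟨fun H M hM b t ht => H M b t hM ht, fun H M b t hM ht => H M hM b t ht⟩

-- induction on `n` as `mem_iter` in TO/WProg.lean; the span of the `j - 1` rows has dimension `< j` (`Lo.bis.ext`)
theorem Mod.mem_rnd (h : Mod c j f f') (n : ℕ) (u : List (Wk p k)) (hu : u.length = j)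
    (hφ : Lo j (colb f f' T T' b) (colb f f' T T' b') (span (ZMod p) {z | z ∈ u}) φ) :
    ((b, u.map cd), (b', (u.map φ).map cd)) ∈
      c.rnd^[n] (c.r0 (T.map (fl c)) (T'.map (fl c))) := by
  have ml : ∀ (φ : Iso p (Wk p k)) (a : List ℕ) (u : List (Wk p k)),
      φ (lcomb p a u) = lcomb p a (u.map φ) := fun φ a u =>
    map_lcomb (φ : Wk p k →ₗ[ZMod p] Wk p k) a u
  induction n generalizing u φ with
  | zero =>
    refine mem_r0.2 ⟨⟨mem_tt h b hu, mem_tt h b' (by simpa using hu)⟩,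
      (h.aty_iff _ _).2 fun a _ _ => ?_⟩
    rw [← ml, hφ.col (lcomb_mem a u)]
  | succ n ih =>
    rw [Function.iterate_succ_apply']
    refine mem_rnd.2 ⟨ih u hu hφ, (h.sig_iff _ _ _).2 fun M hM t _ => ?_⟩
    have hl := (h.mem_mats.1 hM).1
    obtain ⟨e, he⟩ := Lo.bis.ext _ φ hφ (span (ZMod p) {z | z ∈ M.map fun a => lcomb p a u})
      (span_le.2 fun z hz => by
        obtain ⟨a, _, rfl⟩ := List.mem_map.1 hz
        exact lcomb_mem a u)
      ((ZWL1x.rank_le _).trans_lt (by rw [List.length_map]; omega))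
    have hE := eqv_rnd c (T.map (fl c)) (T'.map (fl c)) n
    have key : ∀ w, ((b, (w :: M.map fun a => lcomb p a u).map cd),
        (b', (e w :: M.map fun a => lcomb p a (u.map φ)).map cd)) ∈
          c.rnd^[n] (c.r0 (T.map (fl c)) (T'.map (fl c))) := by
      intro w
      obtain ⟨ψ, a1, a2, a3⟩ := he w
      have a4 : (w :: M.map fun a => lcomb p a u).map ψ =
          e w :: M.map fun a => lcomb p a (u.map φ) := by
        rw [List.map_cons, a3, List.map_map]
        refine congrArg _ (List.map_congr_left fun a ha => ?_)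
        rw [← ml]
        exact a2 _ (subset_span (List.mem_map.2 ⟨a, ha, rfl⟩))
      rw [← a4]
      refine ih _ (by rw [List.length_cons, List.length_map, hl])
        (a1.loc (span_le.2 fun z hz => ?_) fun _ _ => rfl)
      rcases List.mem_cons.1 hz with rfl | hz
      · exact mem_sup_right (mem_span_singleton_self _)
      · exact mem_sup_left (subset_span hz)
    exact Nat.card_congr (e.subtypeEquiv fun w => ⟨fun h1 => hE.trans _ _ _ h1 (key w),
      fun h1 => hE.trans _ _ _ h1 (hE.symm _ _ (key w))⟩)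

end Pool.Agent.P.MP_f1a348_lc.LS
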