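import Pool.Agent.P.MP_f1a348_lc.LS.DefsP
import Pool.Agent.P.MP_f1a348_lc.LS.TZWL1

/-! Step ZWL2. -/

set_option autoImplicit false
set_option linter.unusedSectionVars false

namespace Pool.Agent.P.MP_f1a348_lc.LS

open Module Submodule Pool.Agent.Lib.Helper47 Pool.Agent.P.MP_f1a348_lc.GI
open scoped Classical

variable {p k : ℕ} [Fact p.Prime] {f f' e e' : Vk p k → List Bool} {c : Cx} {i j m ρ N : ℕ}
  {T T' : List (Set (Wk p k))} {l l' : List (Pin p (Wk p k))} {r : Pin p (Wk p k)}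
  {φ : Iso p (Wk p k)} {v w x y : Wk p k} {A B U : Sub p (Wk p k)} {S S' : Set (Wk p k)}
  {C C' : Finset (Sub p (Wk p k))} {Cl : List (List Pt)} {σ : FS} {s : AS p k} {b b' : Bool}
  {g : Vk p k ≃ₗ[ZMod p] Vk p k} {tb tb' : Tb}

namespace ZWL2x

theorem fix_iter {τ : Type} (g : List τ → List τ) (hf : ∀ R, (g R).Sublist R) (n : ℕ) :
    ∀ R : List τ, R.length ≤ n → g (g^[n] R) = g^[n] R := by
  induction n with
  | zero =>
    intro R h
    obtain rfl := List.length_eq_zero_iff.1 (Nat.le_zero.1 h)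
    exact List.sublist_nil.1 (hf [])
  | succ n ih =>
    intro R h
    by_cases e : g R = R
    · rw [Function.iterate_fixed e, e]
    · have h1 := (hf R).length_le
      have h2 : (g R).length ≠ R.length := fun h2 => e ((hf R).eq_of_length h2)
      exact ih (g R) (by omega)

theorem exists_equiv {α β Q : Type} [Finite α] [Finite β] (a : α → Q) (b : β → Q)
    (R : Q → Q → Prop) (hs : ∀ x y, R x y → R y x) (htr : ∀ x y z, R x y → R y z → R x z)
    (ha : ∀ w, R (a w) (a w)) (hb : ∀ w, R (b w) (b w))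
    (h : ∀ x, R x x → Nat.card {w // R x (a w)} = Nat.card {w // R x (b w)}) :
    ∃ e : α ≃ β, ∀ w, R (a w) (b (e w)) := by
  have key : ∀ x y, R x x → ({z | R z y} = {z | R z x} ↔ R x y) := fun x y hx =>
    ⟨fun e => (Set.ext_iff.1 e x).2 hx,
      fun e => Set.ext fun z => ⟨fun hz => htr _ _ _ hz (hs _ _ e), fun hz => htr _ _ _ hz e⟩⟩
  have hf : ∀ K : Set Q, Nonempty ({w // {z | R z (a w)} = K} ≃ {w // {z | R z (b w)} = K}) := by
    intro K
    by_cases hK : ∃ x, R x x ∧ K = {z | R z x}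
    · obtain ⟨x, hx, rfl⟩ := hK
      simp only [key x _ hx]
      exact Finite.card_eq.1 (h x hx)
    · have : IsEmpty {w // {z | R z (a w)} = K} := ⟨fun w => hK ⟨_, ha w, w.2.symm⟩⟩
      have : IsEmpty {w // {z | R z (b w)} = K} := ⟨fun w => hK ⟨_, hb w, w.2.symm⟩⟩
      exact ⟨Equiv.equivOfIsEmpty _ _⟩
  exact ⟨_, fun w => (key _ _ (ha w)).1 (Equiv.ofFiberEquiv_map (f := fun w => {z | R z (a w)})
    (g := fun w => {z | R z (b w)}) (fun K => (hf K).some) w)⟩

theorem mem_tt (h : Mod c j f f') (b : Bool) {u : List (Wk p k)} (hu : u.length = j) :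
    (b, u.map cd) ∈ c.tt := by
  have h1 : u.map cd ∈ c.tu := h.mem_tu.2 ⟨u, hu, rfl⟩
  cases b
  · exact List.mem_append_left _ (List.mem_map.2 ⟨_, h1, rfl⟩)
  · exact List.mem_append_right _ (List.mem_map.2 ⟨_, h1, rfl⟩)

theorem rows (u : List (Wk p k)) (v : List (Wk p k))
    (h : ∀ z ∈ v, z ∈ span (ZMod p) {z | z ∈ u}) : ∃ M : List (List ℕ),
      (∀ a ∈ M, a.length = u.length ∧ ∀ x ∈ a, x < p) ∧ M.map (fun a => lcomb p a u) = v := by
  induction v with
  | nil => exact ⟨[], by simp, rfl⟩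
  | cons z v ih =>
    obtain ⟨M, h1, h2⟩ := ih fun z hz => h z (List.mem_cons_of_mem _ hz)
    obtain ⟨a, a1, a2, a3⟩ := exists_lcomb (h z List.mem_cons_self)
    refine ⟨a :: M, ?_, by rw [List.map_cons, h2, a3]⟩
    intro a' ha'
    rcases List.mem_cons.1 ha' with rfl | ha'
    · exact ⟨a1, a2⟩
    · exact h1 a' ha'

theorem cols (h : Mod c j f f') {u u' : List (Wk p k)}
    (hr : ((b, u.map cd), (b', u'.map cd)) ∈ c.rr (T.map (fl c)) (T'.map (fl c)))
    (a : List ℕ) (h1 : a.length = j) (h2 : ∀ t ∈ a, t < p) :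
    colb f f' T T' b (lcomb p a u) = colb f f' T T' b' (lcomb p a u') :=
  (h.aty_iff u u').1 ((eqv_rnd c _ _ _).mem _ _ hr).2 a h1 h2

theorem iso (h : Mod c j f f') {u u' : List (Wk p k)} (hu : u.length = j) (hu' : u'.length = j)
    (hr : ((b, u.map cd), (b', u'.map cd)) ∈ c.rr (T.map (fl c)) (T'.map (fl c))) :
    ∃ φ : Iso p (Wk p k), u.map φ = u' := by
  refine lin_ext (hu.trans hu'.symm) fun a h1 h2 => ?_
  have h3 := congrArg (fun z : Col => z.1.1) (cols h hr a (h1.trans hu) h2)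
  exact decide_eq_decide.1 h3

theorem lc_map (φ : Iso p (Wk p k)) (a : List ℕ) (u : List (Wk p k)) :
    lcomb p a (u.map φ) = φ (lcomb p a u) :=
  (map_lcomb (φ : Wk p k →ₗ[ZMod p] Wk p k) a u).symm

theorem bis (h : Mod c j f f') : Bis (p := p) j (colb f f' T T' b) (colb f f' T T' b')
    (fun U φ => ∃ u : List (Wk p k), u.length = j ∧
      ((b, u.map cd), (b', (u.map φ).map cd)) ∈ c.rr (T.map (fl c)) (T'.map (fl c)) ∧
      U ≤ span (ZMod p) {z | z ∈ u}) := by
  have hE : c.Eqv (T.map (fl c)) (T'.map (fl c)) (c.rr (T.map (fl c)) (T'.map (fl c))) :=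
    eqv_rnd c _ _ _
  have hf : c.rnd (c.rr (T.map (fl c)) (T'.map (fl c))) = c.rr (T.map (fl c)) (T'.map (fl c)) :=
    fix_iter c.rnd (fun _ => List.filter_sublist) _ _ le_rfl
  constructor
  · rintro U φ ⟨u, hu, hr, hU⟩ x hx
    obtain ⟨a, a1, a2, rfl⟩ := exists_lcomb (hU hx)
    rw [← lc_map]
    exact (cols h hr a (a1.trans hu) a2).symm
  · rintro U φ ⟨u, hu, hr, hU⟩ U' h1 h2
    obtain ⟨v, hv, rfl⟩ := exists_span_list (U := U') (i := j - 1) (by omega)
    obtain ⟨M, m1, m2⟩ := rows u v fun z hz => hU (h1 (subset_span hz))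
    have h4 := h.four
    have m3 : M.length = j - 1 := by rw [← hv, ← m2, List.length_map]
    have hM : M ∈ c.mats := h.mem_mats.2 ⟨by omega, fun a ha => hu ▸ m1 a ha⟩
    have m4 : M.map (fun a => lcomb p a (u.map φ)) = v.map φ := by
      rw [← m2, List.map_map]
      exact List.map_congr_left fun a _ => lc_map φ a u
    have hs : c.sig (c.rr (T.map (fl c)) (T'.map (fl c))) (b, u.map cd) =
        c.sig (c.rr (T.map (fl c)) (T'.map (fl c))) (b', (u.map φ).map cd) := by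
      rw [← hf, Cx.rnd, List.mem_filter] at hr
      exact beq_iff_eq.1 hr.2
    have h5 := (h.sig_iff _ u (u.map φ)).1 hs M hM
    rw [m2, m4] at h5
    have l1 : ∀ w, (w :: v).length = j := fun w => by rw [List.length_cons]; omega
    have l2 : ∀ w, (w :: v.map φ).length = j := fun w => by
      rw [List.length_cons, List.length_map]; omega
    obtain ⟨e, he⟩ := exists_equiv (fun w : Wk p k => ((b, (w :: v).map cd) : Tp))
      (fun w : Wk p k => ((b', (w :: v.map φ).map cd) : Tp))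
      (fun x y => (x, y) ∈ c.rr (T.map (fl c)) (T'.map (fl c))) hE.symm hE.trans
      (fun w => hE.refl _ (mem_tt h b (l1 w))) (fun w => hE.refl _ (mem_tt h b' (l2 w)))
      (fun x hx => h5 x (hE.mem _ _ hx).1)
    refine ⟨e, fun w => ?_⟩
    obtain ⟨ψ, hψ⟩ := iso h (l1 w) (l2 (e w)) (he w)
    have h6 := hψ
    rw [List.map_cons, List.cons.injEq] at h6
    refine ⟨ψ, ⟨w :: v, l1 w, hψ ▸ he w, sup_le (span_mono fun z hz => ?_)
      (span_mono fun z hz => ?_)⟩, fun x hx => ?_, h6.1⟩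
    · exact List.mem_cons_of_mem _ hz
    · rw [Set.mem_singleton_iff.1 hz]
      exact List.mem_cons_self
    · obtain ⟨a, -, -, rfl⟩ := exists_lcomb hx
      rw [← lc_map, ← lc_map, h6.2]

end ZWL2x

-- `rr` is a fixed point of `rnd` (`TO.WL.fix_iter`). Strategy: `R U φ := ∃ u, u.length = j ∧ (.., ..) ∈ rr ∧ U ≤ span u`;
-- `exists_span_list`, `exists_lcomb` give the matrix, `TO.WL.exists_equiv` the bijection, `lin_ext` (the first colour bit
-- is the test for zero) the extension. Import Pool.Agent.P.MP_f1a348_lc.TO.WProg.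
theorem Mod.lo_of_rr (h : Mod c j f f') (u u' : List (Wk p k)) (hu : u.length = j)
    (hu' : u'.length = j)
    (hr : ((b, u.map cd), (b', u'.map cd)) ∈ c.rr (T.map (fl c)) (T'.map (fl c))) :
    ∃ φ : Iso p (Wk p k), u.map φ = u' ∧
      Lo j (colb f f' T T' b) (colb f f' T T' b') (span (ZMod p) {z | z ∈ u}) φ := by
  obtain ⟨φ, rfl⟩ := ZWL2x.iso h hu hu' hr
  exact ⟨φ, rfl, _, ZWL2x.bis h, u, hu, hr, le_rfl⟩

theorem Mod.eqv_iff (h : Mod c j f f') :
    c.eqv (T.map (fl c)) (T'.map (fl c)) b (cd x) (cd y) = true ↔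
      Ty p j (col f T) (colb f f' T T' b) x y := by
  have h4 := h.four
  have hl := h.lev
  have e1 : ∀ z : Wk p k, c.lev.map (fun _ => cd z) = (c.lev.map (fun _ => z)).map cd := fun z => by
    rw [List.map_map]; rfl
  have e2 : ∀ z : Wk p k, (c.lev.map (fun _ => z)).length = j := fun z => by
    rw [List.length_map, hl]
  obtain ⟨t, ht⟩ := List.exists_mem_of_length_pos (l := c.lev) (by omega)
  have e3 : {z | z ∈ c.lev.map (fun _ => x)} = {x} := Set.ext fun z =>
    ⟨fun hz => (List.mem_map.1 hz).choose_spec.2.symm, fun hz => List.mem_map.2 ⟨t, ht, hz.symm⟩⟩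
  rw [Cx.eqv, List.contains_iff_mem, e1, e1]
  constructor
  · intro hr
    obtain ⟨φ, h1, h2⟩ := h.lo_of_rr _ _ (e2 x) (e2 y) hr
    rw [e3] at h2
    rw [List.map_map] at h1
    exact ⟨φ, h2, List.map_inj_left.1 h1 t ht⟩
  · rintro ⟨φ, h1, rfl⟩
    have h2 := h.mem_rnd (b := false) (b' := b) (T := T) (T' := T') (φ := φ)
      (c.r0 (T.map (fl c)) (T'.map (fl c))).length _ (e2 x) (by rw [e3]; exact h1)
    rwa [show (c.lev.map (fun _ => x)).map φ = c.lev.map (fun _ => φ x) by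
      rw [List.map_map]; rfl] at h2

end Pool.Agent.P.MP_f1a348_lc.LS
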