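import Pool.Agent.P.MP_f1a348_lc.LS.DefsP
import Pool.Agent.P.MP_f1a348_lc.LS.TZWL2
import Pool.Agent.P.MP_f1a348_lc.LS.TZSYS

/-! Step ZCL. -/

set_option autoImplicit false
set_option linter.unusedSectionVars false

namespace Pool.Agent.P.MP_f1a348_lc.LS

open Module Submodule Pool.Agent.Lib.Helper47 Pool.Agent.P.MP_f1a348_lc.GI
open scoped Classical

variable {p k : ℕ} [Fact p.Prime] {f f' e e' : Vk p k → List Bool} {c : Cx} {i j m ρ N : ℕ}
  {T T' : List (Set (Wk p k))} {l l' : List (Pin p (Wk p k))} {r : Pin p (Wk p k)}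
  {φ : Iso p (Wk p k)} {v w x y : Wk p k} {A B U : Sub p (Wk p k)} {S S' : Set (Wk p k)}
  {C C' : Finset (Sub p (Wk p k))} {Cl : List (List Pt)} {σ : FS} {s : AS p k} {b b' : Bool}
  {g : Vk p k ≃ₗ[ZMod p] Vk p k} {tb tb' : Tb}

namespace ZCLx

theorem app_eq (h : Mod c j f f') (u t : List (Wk p k)) (z : Wk p k) :
    c.app (u.map cd, t.map cd) (cd z) =
      cd (z + lcomb p (u.map fun s => (beta p k s z).val) t) := by
  rw [Cx.app, ← List.map_cons, h.lc_eq, lcomb_cons, List.map_map]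
  simp only [Function.comp_def, h.bt_eq, Nat.cast_one, one_smul]

theorem ex_lin (u t : List (Wk p k)) : ∃ a : Wk p k →ₗ[ZMod p] Wk p k,
    ∀ w, a w = lcomb p (u.map fun s => (beta p k s w).val) t := by
  induction u generalizing t with
  | nil => exact ⟨0, fun _ => rfl⟩
  | cons s u ih =>
    rcases t with _ | ⟨z, t⟩
    · exact ⟨0, fun _ => rfl⟩
    · obtain ⟨a, ha⟩ := ih t
      exact ⟨(beta p k s).smulRight z + a, fun w => by
        rw [List.map_cons, lcomb_cons, ← ha, ZMod.natCast_zmod_val]; rfl⟩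

theorem mem_lows (h : Mod c j f f') {a : List Pt × List Pt} :
    a ∈ c.lows b (T.map (fl c)) ↔ ∃ u t : List (Wk p k), u.length = j ∧ t.length = j ∧
      a = (u.map cd, t.map cd) ∧ ∀ w, col (bif b then f' else f) T
        (w + lcomb p (u.map fun s => (beta p k s w).val) t) = col (bif b then f' else f) T w := by
  rw [Cx.lows, List.mem_filter, mem_prodL, h.mem_tu, h.mem_tu, List.all_eq_true]
  constructor
  · obtain ⟨a, a'⟩ := a
    rintro ⟨⟨⟨u, hu, rfl⟩, t, ht, rfl⟩, e⟩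
    refine ⟨u, t, hu, ht, rfl, fun w => ?_⟩
    simpa only [app_eq h, h.colr_eq, beq_iff_eq] using e _ (h.mem_pts.2 ⟨w, rfl⟩)
  · rintro ⟨u, t, hu, ht, rfl, e⟩
    refine ⟨⟨⟨u, hu, rfl⟩, t, ht, rfl⟩, fun z hz => ?_⟩
    obtain ⟨w, rfl⟩ := h.mem_pts.1 hz
    simpa only [app_eq h, h.colr_eq, beq_iff_eq] using e w

end ZCLx

theorem Mod.cl_eq (h : Mod c j f f') (T : List (Set (Wk p k))) (v : Wk p k) :
    c.cl (T.map (fl c)) (cd v) = fl c ((sysOf j f T).cls [] ⊥ v) :=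
  h.filter_eq fun _ => h.eqv_iff.trans mem_cls_ty.symm

theorem Mod.clU_eq (h : Mod c j f f') (T : List (Set (Wk p k))) (U : Sub p (Wk p k)) (v : Wk p k) :
    c.clU (T.map (fl c)) (fl c (U : Set (Wk p k))) (cd v) = fl c ((sysOf j f T).cls [] U v) := by
  refine h.filter_eq fun w => ?_
  rw [h.cl_eq, List.any_eq_true]
  constructor
  · rintro ⟨z, hz, e⟩
    obtain ⟨y, hy, rfl⟩ := h.mem_fl.1 hz
    rw [h.sb_eq, h.contains_fl] at e
    exact Sys.cls_add (Sys.cls_coarse bot_le _ _ hy) e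
  · intro hw
    obtain ⟨φ, h1, h2, h3⟩ := Sys.mem_cls.1 hw
    refine ⟨cd (φ v), h.cd_mem_fl.2 (Sys.map_mem_cls h1 (sp_mono (List.nil_subset _)) h2
      (mem_sp (e := (U, v)) List.mem_cons_self) ⊥), ?_⟩
    rwa [h.sb_eq, h.contains_fl]

theorem Mod.hull_eq (h : Mod c j f f') (T : List (Set (Wk p k))) (B : Sub p (Wk p k)) (v : Wk p k) :
    c.hull (T.map (fl c)) (fl c (B : Set (Wk p k))) (cd v) =
      fl c ((B ⊔ span (ZMod p) ((sysOf j f T).cls [] ⊥ v) : Sub p (Wk p k)) : Set (Wk p k)) := by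
  rw [Cx.hull, h.cl_eq, h.spn_eq (S := B ∪ (sysOf j f T).cls [] ⊥ v), span_union, span_eq]
  intro z
  simp only [List.mem_append, h.mem_fl, Set.mem_union, or_and_right, exists_or]

theorem Mod.mat_eq (h : Mod c j f f') {X : List Pt} (hX : ∀ z, z ∈ X ↔ ∃ w ∈ S, cd w = z) :
    c.mat (T.map (fl c)) (T'.map (fl c)) X =
      fl c {w | ∃ x ∈ S, Ty p j (col f T) (col f' T') x w} := by
  refine h.filter_eq fun w => ?_
  rw [List.any_eq_true]
  constructor
  · rintro ⟨z, hz, e⟩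
    obtain ⟨y, hy, rfl⟩ := (hX z).1 hz
    exact ⟨y, hy, h.eqv_iff.1 e⟩
  · rintro ⟨y, hy, e⟩
    exact ⟨cd y, (hX _).2 ⟨y, hy, rfl⟩, h.eqv_iff.2 e⟩

-- `low_rank` for `a - id`; a linear map that preserves the colours has kernel `⊥` (first bit), so it is bijective
theorem Mod.nb_eq (h : Mod c j f f') (b : Bool) (T : List (Set (Wk p k))) (U : Sub p (Wk p k))
    (x : Wk p k) : c.nb b (T.map (fl c)) (fl c (U : Set (Wk p k))) (cd x) =
      fl c ((sysOf j (bif b then f' else f) T).Nb j U x) := by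
  refine h.filter_eq fun w => ?_
  rw [List.any_eq_true]
  constructor
  · rintro ⟨z, hz, e⟩
    obtain ⟨u, t, hu, ht, rfl, hc⟩ := (ZCLx.mem_lows h).1 hz
    rw [ZCLx.app_eq h, h.sb_eq, h.contains_fl] at e
    obtain ⟨a, ha⟩ := ZCLx.ex_lin u t
    simp only [← ha] at hc e
    have inj : Function.Injective (LinearMap.id + a : Wk p k →ₗ[ZMod p] Wk p k) :=
      (injective_iff_map_eq_zero _).2 fun y hy => by
        have e1 := congrArg (fun q : Col => q.1.1) (hc y)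
        rw [show y + a y = 0 from hy] at e1
        simpa [col] using e1
    refine ⟨.ofInjectiveEndo _ inj, sysOf_aut.2 hc, ?_, e⟩
    exact (low_rank _).2 ⟨u, t, hu, ht, fun y => (add_sub_cancel_left y _).trans (ha y)⟩
  · rintro ⟨a, h1, h2, h3⟩
    obtain ⟨u, t, hu, ht, ha⟩ := (low_rank _).1 h2
    have e : ∀ y, y + lcomb p (u.map fun s => (beta p k s y).val) t = a y := fun y => by
      rw [← ha]; simp
    refine ⟨_, (ZCLx.mem_lows h).2 ⟨u, t, hu, ht, rfl, fun y => ?_⟩, ?_⟩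
    · rw [e]; exact sysOf_aut.1 h1 y
    · rwa [ZCLx.app_eq h, h.sb_eq, h.contains_fl, e]

end Pool.Agent.P.MP_f1a348_lc.LS
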