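import Pool.Agent.P.MP_f1a348_lc.LS.DefsP
import Pool.Agent.P.MP_f1a348_lc.LS.TTWX
import Pool.Agent.P.MP_f1a348_lc.LS.TZCL

/-! Step ZLEAF. -/

set_option autoImplicit false
set_option linter.unusedSectionVars false

namespace Pool.Agent.P.MP_f1a348_lc.LS

open Module Submodule Pool.Agent.Lib.Helper47 Pool.Agent.P.MP_f1a348_lc.GI
open scoped Classical

variable {p k : ℕ} [Fact p.Prime] {f f' e e' : Vk p k → List Bool} {c : Cx} {i j m ρ N : ℕ}
  {T T' : List (Set (Wk p k))} {l l' : List (Pin p (Wk p k))} {r : Pin p (Wk p k)}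
  {φ : Iso p (Wk p k)} {v w x y : Wk p k} {A B U : Sub p (Wk p k)} {S S' : Set (Wk p k)}
  {C C' : Finset (Sub p (Wk p k))} {Cl : List (List Pt)} {σ : FS} {s : AS p k} {b b' : Bool}
  {g : Vk p k ≃ₗ[ZMod p] Vk p k} {tb tb' : Tb}

-- the least `t` with `x t ≠ 0` has `a x t = x t`
theorem ut_inj (a : Vk p k →ₗ[ZMod p] Vk p k)
    (h : ∀ t t' : Fin k, t' ≤ t → a (Pi.single t 1) t' = (Pi.single t 1 : Vk p k) t') :
    Function.Injective a := by
  rw [injective_iff_map_eq_zero]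
  intro x hx
  funext t
  induction t using WellFoundedLT.induction with
  | ind t ih =>
    have e : a x t = ∑ s, x s * a (Pi.single s 1) t := by
      conv_lhs => rw [← Finset.univ_sum_single x]
      rw [map_sum, Finset.sum_apply]
      refine Finset.sum_congr rfl fun s _ => ?_
      rw [show (Pi.single s (x s) : Vk p k) = x s • (Pi.single s 1 : Vk p k) by
        rw [← Pi.single_smul, smul_eq_mul, mul_one], map_smul, Pi.smul_apply, smul_eq_mul]
    rw [hx, Finset.sum_eq_single t] at e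
    · rw [h t t le_rfl, Pi.single_eq_same, mul_one] at e
      exact e.symm
    · intro s _ hs
      rcases lt_or_gt_of_ne hs with h1 | h1
      · rw [ih s h1, Pi.zero_apply, zero_mul]
      · rw [h s t h1.le, Pi.single_eq_of_ne hs.symm, mul_zero]
    · intro h1
      exact absurd (Finset.mem_univ t) h1

namespace ZLEAFx

theorem tab (ht : TbOf tb e) : TW.IsTab tb e :=
  ⟨ht.nd, fun x c => (ht.mem (x, c)).trans (exists_congr fun _ => Prod.mk_inj)⟩

theorem lcv (h : Mod c j f f') (E : Fin k → Wk p k) (v : Vk p k) :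
    c.lcv (cv v) ((List.ofFn (fun t => cd (E t))).map Prod.fst) = cv (∑ t, v t • (E t).1) := by
  have e : (List.ofFn (fun t => cd (E t))).map Prod.fst =
      (List.ofFn (fun t => (E t).1)).map cv := by
    rw [List.map_ofFn, List.map_ofFn]
    rfl
  rw [e, h.lcv_eq, lcomb_cv]

theorem inj_iff (E : Fin k → Vk p k) :
    LinearIndependent (ZMod p) E ↔ ∀ v : Vk p k, ∑ t, v t • E t = 0 → v = 0 := by
  rw [Fintype.linearIndependent_iff]
  exact forall_congr' fun v => imp_congr_right fun _ => funext_iff.symm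

theorem eqv {E : Fin k → Vk p k} (h : LinearIndependent (ZMod p) E) :
    ∃ P : Vk p k ≃ₗ[ZMod p] Vk p k, ∀ v, P v = ∑ t, v t • E t :=
  ⟨LinearEquiv.ofInjectiveEndo (Fintype.linearCombination (ZMod p) E)
    ((injective_iff_map_eq_zero _).2 ((inj_iff E).1 h)), fun _ => rfl⟩

theorem es (h : Mod c j f f') (X X' : Mk) (E : Fin k → Wk p k) : ∃ E' : Fin k → Wk p k,
    c.es' X X' (List.ofFn (fun t => cd (E t))) = List.ofFn (fun t => cd (E' t)) ∧
      ∀ t (w : Wk p k), c.eqv X X' true (cd (E t)) (cd w) = true →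
        c.eqv X X' true (cd (E t)) (cd (E' t)) = true := by
  have q : ∀ t, ∃ z : Wk p k,
      (c.pts.find? (fun w => c.eqv X X' true (cd (E t)) w)).getD c.zp = cd z ∧
      ∀ w : Wk p k, c.eqv X X' true (cd (E t)) (cd w) = true →
        c.eqv X X' true (cd (E t)) (cd z) = true := by
    intro t
    cases e : c.pts.find? (fun w => c.eqv X X' true (cd (E t)) w) with
    | none =>
      refine ⟨0, h.zp_eq, fun w hw => ?_⟩
      exact absurd hw (List.find?_eq_none.1 e _ (h.mem_pts.2 ⟨w, rfl⟩))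
    | some z =>
      obtain ⟨z', rfl⟩ := h.mem_pts.1 (List.mem_of_find?_eq_some e)
      exact ⟨z', rfl, fun _ _ => List.find?_some (p := fun w => c.eqv X X' true (cd (E t)) w) e⟩
  choose E' h1 h2 using q
  refine ⟨E', ?_, h2⟩
  rw [Cx.es', List.map_ofFn]
  exact congrArg List.ofFn (funext h1)

end ZLEAFx

-- `twSpec.sound`; `cv` is `TW.cd`, `TbOf` gives `TW.IsTab`
theorem Mod.tw_sound (h : Mod c j f f') (ht : TbOf tb e) (ht' : TbOf tb' e')
    (hw : c.tw tb tb' = true) : LIso e e' := by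
  rw [Cx.tw, h.pr_eq] at hw
  obtain ⟨u, -, hu⟩ := twSpec.sound p k e e' _ _ _ (ZLEAFx.tab ht) (ZLEAFx.tab ht') hw
  exact ⟨u, hu⟩

-- `twSpec.complete`, `pad_ge`
theorem Mod.tw_complete (h : Mod c j f f') (ht : TbOf tb e) (ht' : TbOf tb' e') (hg : UT g)
    (he : ∀ v, e' (g v) = e v) : c.tw tb tb' = true := by
  rw [Cx.tw, h.pr_eq]
  refine twSpec.complete p k e e' _ _ _ (ZLEAFx.tab ht) (ZLEAFx.tab ht') ?_ ⟨g, hg, he⟩
  have h1 := h.pad_ge
  have h2 := h.inp.kpos
  have h3 : (p ^ (k + 1)) ^ 2 ≤ (p ^ k * p ^ k) ^ 4 := by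
    rw [← pow_add, ← pow_mul, ← pow_mul]
    exact Nat.pow_le_pow_right (Fact.out : p.Prime).pos (by omega)
  omega

theorem Mod.reb_tb (h : Mod c j f f') (b : Bool) (E : Fin k → Wk p k) :
    TbOf (c.reb b (List.ofFn (fun t => cd (E t))))
      (fun a : Vk p k => (bif b then f' else f) (∑ t, a t • (E t).1)) := by
  constructor
  · rw [Cx.reb, List.map_map]
    simpa [Function.comp_def] using h.nodup_vs
  · intro z
    rw [Cx.reb, List.mem_map]
    constructor
    · rintro ⟨a, ha, rfl⟩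
      obtain ⟨v, rfl⟩ := h.mem_vs.1 ha
      exact ⟨v, by rw [ZLEAFx.lcv h, h.look_eq]⟩
    · rintro ⟨v, rfl⟩
      exact ⟨cv v, h.mem_vs.2 ⟨v, rfl⟩, by rw [ZLEAFx.lcv h, h.look_eq]⟩

theorem Mod.indep_iff (h : Mod c j f f') (E : Fin k → Wk p k) :
    c.indep (List.ofFn (fun t => cd (E t))) = true ↔
      LinearIndependent (ZMod p) (fun t => (E t).1) := by
  rw [ZLEAFx.inj_iff, Cx.indep, List.all_eq_true]
  constructor
  · intro q v hv
    have := q (cv v) (h.mem_vs.2 ⟨v, rfl⟩)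
    rw [ZLEAFx.lcv h, hv, h.zv_eq] at this
    exact cv_inj (by simpa using this)
  · intro q a ha
    obtain ⟨v, rfl⟩ := h.mem_vs.1 ha
    rw [ZLEAFx.lcv h, h.zv_eq, Bool.or_eq_true, beq_iff_eq, bne_iff_ne]
    by_cases hv : v = 0
    · exact Or.inl (congrArg cv hv)
    · exact Or.inr fun e => hv (q v (cv_inj e))

-- the matched vectors are codes; `P a = ∑ a t • (E t).1` and `P'` are linear bijections; `g = P' u⁻¹ P⁻¹`
theorem Mod.leaf_sound (h : Mod c j f f') {Γ : Sys p (Wk p k)} {E : Fin k → Wk p k} (hE : Flag Γ E)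
    (X X' : Mk) (hw : c.leaf X (List.ofFn (fun t => cd (E t))) X' = true) : LIso f f' := by
  obtain ⟨E', e1, -⟩ := ZLEAFx.es h X X' E
  rw [Cx.leaf, e1, Bool.and_eq_true, h.indep_iff] at hw
  obtain ⟨P, hP⟩ := ZLEAFx.eqv hE.li
  obtain ⟨P', hP'⟩ := ZLEAFx.eqv hw.1
  obtain ⟨u, hu⟩ := h.tw_sound (h.reb_tb true E') (h.reb_tb false E) hw.2
  refine ⟨(P.symm.trans u.symm).trans P', fun v => ?_⟩
  have := hu (u.symm (P.symm v))
  simp only [cond_true, cond_false, ← hP, ← hP', LinearEquiv.apply_symm_apply] at this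
  exact this.symm

-- `φ⁻¹ (E' t) ∈ cls [] ⊥ (E t)` (`eqv_iff`, `CIso.ty`), so `P⁻¹ g⁻¹ P'` is unitriangular (`Flag.held`), injective (`ut_inj`)
theorem Mod.leaf_complete (h : Mod c j f f') {E : Fin k → Wk p k} (hE : Flag (sysOf j f T) E)
    (hφ : CIso f f' T T' φ) :
    c.leaf (T.map (fl c)) (List.ofFn (fun t => cd (E t))) (T'.map (fl c)) = true := by
  obtain ⟨E', e1, e2⟩ := ZLEAFx.es h (T.map (fl c)) (T'.map (fl c)) E
  obtain ⟨P, hP⟩ := ZLEAFx.eqv hE.li
  obtain ⟨g, hg, hg'⟩ := hφ.restrict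
  have hP1 : ∀ t, P.symm (E t).1 = Pi.single t 1 := fun t => by
    rw [LinearEquiv.symm_apply_eq, hP, Finset.sum_eq_single t]
    · simp
    · intro s _ hs
      simp [hs]
    · intro h1
      exact absurd (Finset.mem_univ t) h1
  have hy : ∀ t, φ.symm (E' t) - E t ∈ span (ZMod p) (E '' {t' | t < t'}) := fun t => by
    refine hE.held t _ (hφ.ty.1 ?_)
    rw [LinearEquiv.apply_symm_apply]
    exact h.eqv_iff.1 (e2 t (φ (E t)) (h.eqv_iff.2 (hφ.ty.2 (Sys.self_mem_cls _ _ _ _))))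
  have hs : ∀ t, ∀ z ∈ span (ZMod p) (E '' {t' | t < t'}),
      z.2 = 0 ∧ ∀ t', t' ≤ t → P.symm z.1 t' = 0 := fun t z hz => by
    induction hz using span_induction with
    | mem z hz =>
      obtain ⟨s, hs, rfl⟩ := hz
      exact ⟨hE.vv s, fun t' ht => by
        rw [hP1, Pi.single_eq_of_ne (ht.trans_lt hs).ne]⟩
    | zero => exact ⟨rfl, fun _ _ => by simp⟩
    | add a b _ _ ha hb =>
      exact ⟨by rw [Prod.snd_add, ha.1, hb.1, add_zero], fun t' ht => by
        rw [Prod.fst_add, map_add, Pi.add_apply, ha.2 t' ht, hb.2 t' ht, add_zero]⟩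
    | smul a z _ hz =>
      exact ⟨by rw [Prod.smul_snd, hz.1, smul_zero], fun t' ht => by
        rw [Prod.smul_fst, map_smul, Pi.smul_apply, hz.2 t' ht, smul_zero]⟩
  have h1 : ∀ t, (E' t).1 = g (φ.symm (E' t)).1 := fun t => by
    have q : (φ.symm (E' t)).2 = 0 := by
      have := (hs t _ (hy t)).1
      rwa [Prod.snd_sub, hE.vv t, sub_zero] at this
    have := hg (φ.symm (E' t)).1
    rw [← q, Prod.mk.eta, LinearEquiv.apply_symm_apply] at this
    exact congrArg Prod.fst this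
  let Y := Fintype.linearCombination (ZMod p) (fun t => (φ.symm (E' t)).1)
  have hY : ∀ v, ∑ t, v t • (E' t).1 = g (Y v) := fun v => by
    rw [Fintype.linearCombination_apply, map_sum]
    exact Finset.sum_congr rfl fun t _ => by rw [map_smul, ← h1]
  have ha : ∀ t t' : Fin k, t' ≤ t → ((P.symm : Vk p k →ₗ[ZMod p] Vk p k) ∘ₗ Y) (Pi.single t 1) t' =
      (Pi.single t 1 : Vk p k) t' := fun t t' ht => by
    have := (hs t _ (hy t)).2 t' ht
    rw [Prod.fst_sub, map_sub, hP1, Pi.sub_apply, sub_eq_zero] at this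
    rw [← this]
    simp [Y]
  have hi := ut_inj _ ha
  rw [Cx.leaf, e1, Bool.and_eq_true, h.indep_iff, ZLEAFx.inj_iff]
  refine ⟨fun v hv => ?_, h.tw_complete (g := LinearEquiv.ofInjectiveEndo _ hi)
    (h.reb_tb true E') (h.reb_tb false E) ha fun v => ?_⟩
  · rw [hY, LinearEquiv.map_eq_zero_iff] at hv
    exact (injective_iff_map_eq_zero _).1 hi v (by simp [hv])
  · simp only [cond_true, cond_false, ← hP, hY, hg']
    exact congrArg f (P.apply_symm_apply _)

end Pool.Agent.P.MP_f1a348_lc.LS
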