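import Pool.Agent.P.MP_f1a348_lc.LS.DefsP
import Pool.Agent.P.MP_f1a348_lc.LS.TTWX

/-! Step ZPT. -/

set_option autoImplicit false
set_option linter.unusedSectionVars false

namespace Pool.Agent.P.MP_f1a348_lc.LS

open Module Submodule Pool.Agent.Lib.Helper47 Pool.Agent.P.MP_f1a348_lc.GI
open scoped Classical

variable {p k : ℕ} [Fact p.Prime] {f f' e e' : Vk p k → List Bool} {c : Cx} {i j m ρ N : ℕ}
  {T T' : List (Set (Wk p k))} {l l' : List (Pin p (Wk p k))} {r : Pin p (Wk p k)}
  {φ : Iso p (Wk p k)} {v w x y : Wk p k} {A B U : Sub p (Wk p k)} {S S' : Set (Wk p k)}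
  {C C' : Finset (Sub p (Wk p k))} {Cl : List (List Pt)} {σ : FS} {s : AS p k} {b b' : Bool}
  {g : Vk p k ≃ₗ[ZMod p] Vk p k} {tb tb' : Tb}

namespace ZPTx

variable {α : Type} [Enc α] {d : α → Cx}

theorem size_iter {τ : Type} [Enc τ] {F : τ → τ} {G : ℕ} (h : ∀ t, size (F t) ≤ size t + G) (n : ℕ)
    (t : τ) : size (F^[n] t) ≤ size t + n * G := by
  induction n with
  | zero => simp
  | succ n ih =>
    rw [Function.iterate_succ_apply', Nat.succ_mul]
    have := h (F^[n] t)
    omega

theorem iter_add {τ β : Type} [Enc τ] [Enc β] {F : α → τ → τ} {u : α → List β} {t : α → τ}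
    (hF : PT (fun a : α × τ => F a.1 a.2)) (hu : PT u) (ht : PT t) (G : α → ℕ) (hG : PS G)
    (h : ∀ a t, size (F a t) ≤ size t + G a) : PT (fun a => (F a)^[(u a).length] (t a)) :=
  PT.iterate hF hu ht (fun a => size (t a) + (u a).length * G a)
    (ht.size_le.add ((ps_len hu).mul hG))
    (fun a n hn => (size_iter (h a) n _).trans (by gcongr))

@[fun_prop] theorem pt_pad (h : PT d) : PT (fun a => (d a).pad) := by unfold Cx.pad; fun_prop
@[fun_prop] theorem pt_lev (h : PT d) : PT (fun a => (d a).lev) := by unfold Cx.lev; fun_prop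
@[fun_prop] theorem pt_m (h : PT d) : PT (fun a => (d a).m) := by unfold Cx.m; fun_prop
@[fun_prop] theorem pt_rp (h : PT d) : PT (fun a => (d a).rp) := by unfold Cx.rp; fun_prop
@[fun_prop] theorem pt_ix (h : PT d) : PT (fun a => (d a).ix) := by unfold Cx.ix; fun_prop
@[fun_prop] theorem pt_tb {β : α → Bool} (h : PT d) (h1 : PT β) :
    PT (fun a => (d a).tb (β a)) := by unfold Cx.tb; fun_prop
@[fun_prop] theorem pt_pr (h : PT d) : PT (fun a => (d a).pr) := by unfold Cx.pr; fun_prop
@[fun_prop] theorem pt_vs (h : PT d) : PT (fun a => (d a).vs) := by unfold Cx.vs; fun_prop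
@[fun_prop] theorem pt_pts (h : PT d) : PT (fun a => (d a).pts) := by unfold Cx.pts; fun_prop
@[fun_prop] theorem pt_zv (h : PT d) : PT (fun a => (d a).zv) := by unfold Cx.zv; fun_prop
@[fun_prop] theorem pt_zp (h : PT d) : PT (fun a => (d a).zp) := by unfold Cx.zp; fun_prop
@[fun_prop] theorem pt_look {β : α → Bool} {z : α → Vc} (h : PT d) (h1 : PT β) (h2 : PT z) :
    PT (fun a => (d a).look (β a) (z a)) := by unfold Cx.look; fun_prop
@[fun_prop] theorem pt_lcv {t : α → List ℕ} {u : α → List Vc} (h : PT d) (h1 : PT t) (h2 : PT u) :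
    PT (fun a => (d a).lcv (t a) (u a)) := by unfold Cx.lcv; fun_prop
@[fun_prop] theorem pt_lc {t : α → List ℕ} {u : α → List Pt} (h : PT d) (h1 : PT t) (h2 : PT u) :
    PT (fun a => (d a).lc (t a) (u a)) := by unfold Cx.lc; fun_prop
@[fun_prop] theorem pt_dot {t u : α → Vc} (h : PT d) (h1 : PT t) (h2 : PT u) :
    PT (fun a => (d a).dot (t a) (u a)) := by unfold Cx.dot; fun_prop
@[fun_prop] theorem pt_bt {t u : α → Pt} (h : PT d) (h1 : PT t) (h2 : PT u) :
    PT (fun a => (d a).bt (t a) (u a)) := by unfold Cx.bt; fun_prop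
@[fun_prop] theorem pt_sb {t u : α → Pt} (h : PT d) (h1 : PT t) (h2 : PT u) :
    PT (fun a => (d a).sb (t a) (u a)) := by unfold Cx.sb; fun_prop
@[fun_prop] theorem pt_colr {β : α → Bool} {X : α → Mk} {z : α → Pt} (h : PT d) (h1 : PT β)
    (h2 : PT X) (h3 : PT z) : PT (fun a => (d a).colr (β a) (X a) (z a)) := by
  unfold Cx.colr; fun_prop
@[fun_prop] theorem pt_pg (h : PT d) : PT (fun a => (d a).pg) :=
  PT.pow (pt_pr h) (PT.length (pt_lev h)) (ps_len (pt_lev h))
@[fun_prop] theorem pt_tu (h : PT d) : PT (fun a => (d a).tu) := by unfold Cx.tu; fun_prop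
@[fun_prop] theorem pt_tt (h : PT d) : PT (fun a => (d a).tt) := by unfold Cx.tt; fun_prop
@[fun_prop] theorem pt_cf (h : PT d) : PT (fun a => (d a).cf) := by unfold Cx.cf; fun_prop
@[fun_prop] theorem pt_mats (h : PT d) : PT (fun a => (d a).mats) := by unfold Cx.mats; fun_prop
@[fun_prop] theorem pt_aty {X Y : α → Mk} {u : α → Tp} (h : PT d) (h1 : PT X) (h2 : PT Y)
    (h3 : PT u) : PT (fun a => (d a).aty (X a) (Y a) (u a)) := by unfold Cx.aty; fun_prop
@[fun_prop] theorem pt_sig {R : α → List (Tp × Tp)} {u : α → Tp} (h : PT d) (h1 : PT R)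
    (h3 : PT u) : PT (fun a => (d a).sig (R a) (u a)) := by unfold Cx.sig; fun_prop
@[fun_prop] theorem pt_r0 {X Y : α → Mk} (h : PT d) (h1 : PT X) (h2 : PT Y) :
    PT (fun a => (d a).r0 (X a) (Y a)) := by unfold Cx.r0; fun_prop
@[fun_prop] theorem pt_rnd {R : α → List (Tp × Tp)} (h : PT d) (h1 : PT R) :
    PT (fun a => (d a).rnd (R a)) := by unfold Cx.rnd; fun_prop
@[fun_prop] theorem pt_rr {X Y : α → Mk} (h : PT d) (h1 : PT X) (h2 : PT Y) :
    PT (fun a => (d a).rr (X a) (Y a)) :=
  iter_add (F := fun a R => (d a).rnd R) (by fun_prop) (pt_r0 h h1 h2) (pt_r0 h h1 h2) (fun _ => 0)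
    (PB.const 0) (fun _ _ => size_sublist List.filter_sublist)
@[fun_prop] theorem pt_eqv {X Y : α → Mk} {β : α → Bool} {z z' : α → Pt} (h : PT d) (h1 : PT X)
    (h2 : PT Y) (h3 : PT β) (h4 : PT z) (h5 : PT z') :
    PT (fun a => (d a).eqv (X a) (Y a) (β a) (z a) (z' a)) := by unfold Cx.eqv; fun_prop
@[fun_prop] theorem pt_sub {X Y : α → List Pt} (h1 : PT X) (h2 : PT Y) :
    PT (fun a => Cx.sub (X a) (Y a)) := by unfold Cx.sub; fun_prop
@[fun_prop] theorem pt_nrm {X : α → List Pt} (h : PT d) (h1 : PT X) :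
    PT (fun a => (d a).nrm (X a)) := by unfold Cx.nrm; fun_prop
@[fun_prop] theorem pt_cos {X : α → List Pt} {z : α → Pt} (h : PT d) (h1 : PT X) (h2 : PT z) :
    PT (fun a => (d a).cos (X a) (z a)) := by unfold Cx.cos; fun_prop
@[fun_prop] theorem pt_mks {X : α → List Pn} (h : PT d) (h1 : PT X) :
    PT (fun a => (d a).mks (X a)) := by unfold Cx.mks; fun_prop
@[fun_prop] theorem pt_prp {X : α → List Pt} (h : PT d) (h1 : PT X) :
    PT (fun a => (d a).prp (X a)) := by unfold Cx.prp; fun_prop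
@[fun_prop] theorem pt_spn {X : α → List Pt} (h : PT d) (h1 : PT X) :
    PT (fun a => (d a).spn (X a)) := by unfold Cx.spn; fun_prop
@[fun_prop] theorem pt_cl {X : α → Mk} {z : α → Pt} (h : PT d) (h1 : PT X) (h2 : PT z) :
    PT (fun a => (d a).cl (X a) (z a)) := by unfold Cx.cl; fun_prop
@[fun_prop] theorem pt_clU {X : α → Mk} {Y : α → List Pt} {z : α → Pt} (h : PT d) (h1 : PT X)
    (h3 : PT Y) (h2 : PT z) : PT (fun a => (d a).clU (X a) (Y a) (z a)) := by
  unfold Cx.clU; fun_prop
@[fun_prop] theorem pt_app {X : α → List Pt × List Pt} {z : α → Pt} (h : PT d) (h1 : PT X)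
    (h2 : PT z) : PT (fun a => (d a).app (X a) (z a)) := by unfold Cx.app; fun_prop
@[fun_prop] theorem pt_lows {β : α → Bool} {X : α → Mk} (h : PT d) (h1 : PT β) (h2 : PT X) :
    PT (fun a => (d a).lows (β a) (X a)) := by unfold Cx.lows; fun_prop
@[fun_prop] theorem pt_nb {β : α → Bool} {X : α → Mk} {Y : α → List Pt} {z : α → Pt} (h : PT d)
    (h0 : PT β) (h1 : PT X) (h3 : PT Y) (h2 : PT z) :
    PT (fun a => (d a).nb (β a) (X a) (Y a) (z a)) := by unfold Cx.nb; fun_prop
@[fun_prop] theorem pt_lays {X : α → Mk} (h1 : PT X) : PT (fun a => Cx.lays (X a)) := by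
  unfold Cx.lays; fun_prop
@[fun_prop] theorem pt_big {X : α → List Pt × List Pt} (h : PT d) (h1 : PT X) :
    PT (fun a => (d a).big (X a)) := by unfold Cx.big; fun_prop
@[fun_prop] theorem pt_gia {X : α → Mk} (h : PT d) (h1 : PT X) :
    PT (fun a => (d a).gia (X a)) := by unfold Cx.gia; fun_prop
@[fun_prop] theorem pt_hull {X : α → Mk} {Y : α → List Pt} {z : α → Pt} (h : PT d) (h1 : PT X)
    (h3 : PT Y) (h2 : PT z) : PT (fun a => (d a).hull (X a) (Y a) (z a)) := by
  unfold Cx.hull; fun_prop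
@[fun_prop] theorem pt_news {X Y : α → Mk} (h : PT d) (h1 : PT X) (h2 : PT Y) :
    PT (fun a => (d a).news (X a) (Y a)) := by unfold Cx.news; fun_prop
@[fun_prop] theorem pt_clStep {X Y : α → Mk} (h : PT d) (h1 : PT X) (h2 : PT Y) :
    PT (fun a => (d a).clStep (X a) (Y a)) := by unfold Cx.clStep; fun_prop

theorem size_flt (c : Cx) (q : Pt → Bool) : size (c.pts.filter q) ≤ size c.pts :=
  size_sublist List.filter_sublist

theorem size_clStep (c : Cx) (X Y : Mk) : size (c.clStep X Y) ≤ size Y + (2 * size c.pts + 2) := by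
  unfold Cx.clStep
  cases (c.news X Y).head? with
  | none => exact Nat.le_add_right _ _
  | some U =>
    have h1 : size (c.nrm U) ≤ _ := size_flt c _
    have h2 : size (c.prp U) ≤ _ := size_flt c _
    simp only [Option.elim, size_cons]
    omega

@[fun_prop] theorem pt_close {X Y : α → Mk} (h : PT d) (h1 : PT X) (h2 : PT Y) :
    PT (fun a => (d a).close (X a) (Y a)) :=
  iter_add (F := fun a Z => (d a).clStep (X a) Z) (by fun_prop) (pt_pts h) h2 _
    (((PB.const 2).mul (pt_pts h).size_le).add (PB.const 2)) (fun _ _ => size_clStep _ _ _)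
@[fun_prop] theorem pt_tp {X : α → Mk} {Y : α → List Pt} (h : PT d) (h1 : PT X) (h2 : PT Y) :
    PT (fun a => (d a).tp (X a) (Y a)) := by unfold Cx.tp; fun_prop
@[fun_prop] theorem pt_dd {X Y : α → Mk} {z : α → List Pt × List Pt} (h : PT d) (h1 : PT X)
    (h2 : PT Y) (h3 : PT z) : PT (fun a => (d a).dd (X a) (Y a) (z a)) := by
  unfold Cx.dd; fun_prop
@[fun_prop] theorem pt_mv2 {X Y : α → Mk} (h : PT d) (h1 : PT X) (h2 : PT Y) :
    PT (fun a => (d a).mv2 (X a) (Y a)) := by unfold Cx.mv2; fun_prop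
@[fun_prop] theorem pt_mv3 {X Y : α → Mk} (h : PT d) (h1 : PT X) (h2 : PT Y) :
    PT (fun a => (d a).mv3 (X a) (Y a)) := by unfold Cx.mv3; fun_prop
@[fun_prop] theorem pt_doPin {X : α → FS} {z : α → Pn} (h : PT d) (h1 : PT X) (h2 : PT z) :
    PT (fun a => (d a).doPin (X a) (z a)) := by unfold Cx.doPin; fun_prop
@[fun_prop] theorem pt_stp {X : α → FS} (h : PT d) (h1 : PT X) :
    PT (fun a => (d a).stp (X a)) := by unfold Cx.stp; fun_prop

/-- the growth of a state in one pin -/
def gr (c : Cx) : ℕ :=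
  c.pts.length * (2 * size c.pts + 2) + 2 * size c.pts + size c.pg + size c.m + size c.pts.length + 3

theorem ps_gr (h : PT d) : PS (fun a => gr (d a)) :=
  ((((((ps_len (pt_pts h)).mul (((PB.const 2).mul (pt_pts h).size_le).add (PB.const 2))).add
    ((PB.const 2).mul (pt_pts h).size_le)).add (pt_pg h).size_le).add (pt_m h).size_le).add
    (PT.length (pt_pts h)).size_le).add (PB.const 3)

theorem size_doPin (c : Cx) (X : FS) (z : Pn) :
    size (c.doPin X z) ≤ size X + size z + 1 + c.pts.length * (2 * size c.pts + 2) := by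
  have h1 : size (c.close (c.mks (z :: X.1)) X.2) ≤ _ := size_iter (size_clStep c _) _ _
  rw [Cx.doPin, size_pair, size_cons, size_prod X]
  omega

theorem size_stp (c : Cx) (X : FS) : size (c.stp X) ≤ size X + gr c := by
  unfold Cx.stp
  cases h : (c.mv2 (c.mks X.1) X.2 ++ c.mv3 (c.mks X.1) X.2).head? with
  | none => exact Nat.le_add_right _ _
  | some z =>
    have h1 := size_doPin c X z
    have h2 : size z ≤ 2 * size c.pts + size c.pg + size c.m + 2 := by
      rcases List.mem_append.1 (List.mem_of_mem_head? (Option.mem_def.2 h)) with h2 | h2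
      · obtain ⟨y, -, h3⟩ := List.mem_flatMap.1 h2
        obtain ⟨v, hv, rfl⟩ := List.mem_map.1 h3
        have a1 : size (c.nrm y.1) ≤ _ := size_flt c _
        have a2 := size_lt_of_mem (List.mem_filter.1 (List.mem_filter.1 hv).1).1
        rw [size_pair, size_pair]
        omega
      · obtain ⟨y, -, h3⟩ := List.mem_flatMap.1 h2
        obtain ⟨v, hv, rfl⟩ := List.mem_map.1 h3
        have a1 : size (c.dd (c.mks X.1) X.2 y) ≤ _ :=
          (size_sublist List.filter_sublist).trans (size_flt c _)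
        have a2 := size_lt_of_mem (List.mem_filter.1 (List.mem_filter.1 hv).1).1
        rw [size_pair, size_pair]
        omega
    simp only [Option.elim, gr]
    omega

@[fun_prop] theorem pt_settle {X : α → FS} (h : PT d) (h1 : PT X) :
    PT (fun a => (d a).settle (X a)) :=
  iter_add (F := fun a Z => (d a).stp Z) (by fun_prop) (pt_pad h) h1 _ (ps_gr h)
    (fun _ _ => size_stp _ _)
@[fun_prop] theorem pt_init (h : PT d) : PT (fun a => (d a).init) := by unfold Cx.init; fun_prop
@[fun_prop] theorem pt_run {X : α → FS} {Y : α → List Pt} (h : PT d) (h1 : PT X) (h2 : PT Y) :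
    PT (fun a => (d a).run (X a) (Y a)) := by
  refine PT.foldl_add (f := fun a Z v => (d a).settle ((d a).doPin Z
    ((d a).prp (d a).pts, v, (d a).pts.length))) (by fun_prop) h2 h1
    (fun a => size (Y a) + gr (d a) + (d a).pad.length * gr (d a))
    ((h2.size_le.add (ps_gr h)).add ((ps_len (pt_pad h)).mul (ps_gr h))) (fun a t z hz => ?_)
  have a1 : size ((d a).settle ((d a).doPin t ((d a).prp (d a).pts, z, (d a).pts.length))) ≤ _ :=
    size_iter (size_stp (d a)) _ _
  have a2 := size_doPin (d a) t ((d a).prp (d a).pts, z, (d a).pts.length)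
  have a3 : size ((d a).prp (d a).pts) ≤ _ := size_flt (d a) _
  have a4 := size_lt_of_mem hz
  rw [size_pair ((d a).prp (d a).pts), size_pair z] at a2
  have a5 : (d a).pts.length * (2 * size (d a).pts + 2) + 2 * size (d a).pts +
    size (d a).pts.length + 3 ≤ gr (d a) := by rw [gr]; omega
  omega
@[fun_prop] theorem pt_mat {X Y : α → Mk} {Z : α → List Pt} (h : PT d) (h1 : PT X) (h2 : PT Y)
    (h3 : PT Z) : PT (fun a => (d a).mat (X a) (Y a) (Z a)) := by unfold Cx.mat; fun_prop
@[fun_prop] theorem pt_greedy {F : α → Pt → List Pt} {X : α → List Pt}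
    (h : PT (fun a : α × Pt => F a.1 a.2)) (h1 : PT X) :
    PT (fun a => Cx.greedy (F a) (X a)) := by
  refine PT.foldl_add (f := fun a R x => bif R.any (fun r => (F a r).any
    (fun w => (F a x).contains w)) then R else x :: R) (by fun_prop) h1 (PT.const _)
    (fun a => size (X a)) h1.size_le (fun a t z hz => ?_)
  have := size_lt_of_mem hz
  cases t.any (fun r => (F a r).any (fun w => (F a z).contains w))
  · rw [cond_false, size_cons]; omega
  · rw [cond_true]; omega
@[fun_prop] theorem pt_kids {X Y : α → Mk} {z : α → Pn} (h : PT d) (h1 : PT X) (h3 : PT z)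
    (h2 : PT Y) : PT (fun a => (d a).kids (X a) (z a) (Y a)) := by unfold Cx.kids; fun_prop
@[fun_prop] theorem pt_rep1 {X : α → Mk × Option (List Mk)} {z : α → Pn} (h : PT d) (h1 : PT X)
    (h3 : PT z) : PT (fun a => (d a).rep1 (X a) (z a)) := by unfold Cx.rep1; fun_prop

theorem rep_inv (c : Cx) (u : List Pn) :
    size (u.foldl c.rep1 ([], some [[]])).1 ≤ u.length * (size c.pts + 1) + 1 ∧
      ∀ Fr ∈ (u.foldl c.rep1 ([], some [[]])).2, Fr.length ≤ c.pad.length + 1 ∧
        ∀ X ∈ Fr, size X ≤ u.length * (size c.pts + 1) + 1 := by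
  induction u using List.reverseRecOn with
  | nil => simp
  | append_singleton u z ih =>
    rw [List.foldl_append, List.foldl_cons, List.foldl_nil, List.length_append,
      List.length_singleton, Nat.succ_mul]
    generalize u.foldl c.rep1 ([], some [[]]) = st at ih
    have a1 : size (c.cos z.1 z.2.1) ≤ _ := size_flt c _
    refine ⟨by rw [Cx.rep1, size_cons]; omega, fun Fr hF => ?_⟩
    obtain ⟨F0, h0, h1⟩ := Option.bind_eq_some_iff.1 (Option.mem_def.1 hF)
    cases h2 : Nat.ble (F0.flatMap (c.kids st.1 z)).length c.pad.length with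
    | false => rw [h2] at h1; cases h1
    | true =>
      rw [h2, cond_true] at h1
      obtain rfl := Option.some.inj h1
      refine ⟨(Nat.le_of_ble_eq_true h2).trans (Nat.le_succ _), fun X hX => ?_⟩
      obtain ⟨Y, hY, h3⟩ := List.mem_flatMap.1 hX
      obtain ⟨x, -, rfl⟩ := List.mem_map.1 h3
      have a2 := (ih.2 F0 h0).2 Y hY
      have a3 : size (c.cos (c.mat st.1 Y z.1) x) ≤ _ := size_flt c _
      rw [size_cons]
      omega

@[fun_prop] theorem pt_rep {X : α → List Pn} (h : PT d) (h1 : PT X) :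
    PT (fun a => (d a).rep (X a)) := by
  have hB : PS (fun a => (X a).length * (size (d a).pts + 1) + 1) :=
    ((ps_len h1).mul ((pt_pts h).size_le.add (PB.const 1))).add (PB.const 1)
  refine PT.snd (PT.foldl (f := fun a st z => (d a).rep1 st z) (by fun_prop) (PT.reverse h1)
    (PT.const _) (fun a => ((X a).length * (size (d a).pts + 1) + 1) + (((d a).pad.length + 1) *
      (((X a).length * (size (d a).pts + 1) + 1) + 1) + 4))
    (hB.add ((((ps_len (pt_pad h)).add (PB.const 1)).mul (hB.add (PB.const 1))).add (PB.const 4)))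
    (fun a u hu => ?_))
  obtain ⟨a1, a2⟩ := rep_inv (d a) u
  have a3 : u.length * (size (d a).pts + 1) ≤ (X a).length * (size (d a).pts + 1) :=
    Nat.mul_le_mul_right _ (hu.length_le.trans List.length_reverse.le)
  change size (u.foldl (d a).rep1 ([], some [[]])) ≤ _
  generalize u.foldl (d a).rep1 ([], some [[]]) = st at a1 a2
  obtain ⟨st, _ | Fr⟩ := st
  · rw [size_pair, size_none]
    dsimp only at a1
    omega
  · obtain ⟨b1, b2⟩ := a2 Fr rfl
    have b3 := size_list_le (l := Fr) (B := (X a).length * (size (d a).pts + 1) + 1)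
      (fun Y hY => (b2 Y hY).trans (by omega))
    have b4 := Nat.mul_le_mul_right ((X a).length * (size (d a).pts + 1) + 1 + 1) b1
    rw [size_pair, size_some]
    dsimp only at a1
    omega
@[fun_prop] theorem pt_tw {X Y : α → Tb} (h : PT d) (h1 : PT X) (h2 : PT Y) :
    PT (fun a => (d a).tw (X a) (Y a)) :=
  PT.comp (g := fun a => ((d a).pad, (d a).pr, X a, Y a)) twSpec.pt (by fun_prop)
@[fun_prop] theorem pt_esStep {X : α → Mk} {Y : α → List Pt} (h : PT d) (h1 : PT X) (h2 : PT Y) :
    PT (fun a => (d a).esStep (X a) (Y a)) := by unfold Cx.esStep; fun_prop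
@[fun_prop] theorem pt_es {X : α → Mk} (h : PT d) (h1 : PT X) : PT (fun a => (d a).es (X a)) := by
  refine iter_add (F := fun a Z => (d a).esStep (X a) Z) (by fun_prop) (pt_ix h) (PT.const _)
    (fun a => size (d a).pts + size (d a).zp + 1)
    (((pt_pts h).size_le.add (pt_zp h).size_le).add (PB.const 1)) (fun a t => ?_)
  rw [Cx.esStep, size_cons]
  cases e : (d a).pts.find? (fun w => !((d a).spn t).contains w &&
    (X a).all (fun U => Cx.sub U ((d a).spn t) || U.contains w)) with
  | none => rw [Option.getD_none]; omega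
  | some w =>
    have := size_lt_of_mem (List.mem_of_find?_eq_some e)
    rw [Option.getD_some]; omega
@[fun_prop] theorem pt_reb {β : α → Bool} {Y : α → List Pt} (h : PT d) (h1 : PT β) (h2 : PT Y) :
    PT (fun a => (d a).reb (β a) (Y a)) := by unfold Cx.reb; fun_prop
@[fun_prop] theorem pt_es' {X Y : α → Mk} {Z : α → List Pt} (h : PT d) (h1 : PT X) (h2 : PT Y)
    (h3 : PT Z) : PT (fun a => (d a).es' (X a) (Y a) (Z a)) := by unfold Cx.es'; fun_prop
@[fun_prop] theorem pt_indep {Y : α → List Pt} (h : PT d) (h2 : PT Y) :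
    PT (fun a => (d a).indep (Y a)) := by unfold Cx.indep; fun_prop
@[fun_prop] theorem pt_leaf {X Y : α → Mk} {Z : α → List Pt} (h : PT d) (h1 : PT X) (h3 : PT Z)
    (h2 : PT Y) : PT (fun a => (d a).leaf (X a) (Z a) (Y a)) := by unfold Cx.leaf; fun_prop
@[fun_prop] theorem pt_fin {X : α → FS} (h : PT d) (h1 : PT X) :
    PT (fun a => (d a).fin (X a)) := by unfold Cx.fin; fun_prop
@[fun_prop] theorem pt_mn1 (h : PT d) : PT (fun a => (d a).mn1) := by unfold Cx.mn1; fun_prop

end ZPTx

open ZPTx in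
theorem pt_mn : PT mn := by
  have h1 : PT (fun x : (List Unit × List Unit) × Inp => List.range (() :: x.1.2).length) :=
    PT.rangeLength (by fun_prop)
  have h2 : PT (fun x : ((List Unit × List Unit) × Inp) × ℕ =>
      x.1.2.1.length ^ (x.1.1.2.take x.2).length) :=
    PT.pow (by fun_prop) (by fun_prop) (ps_len (by fun_prop))
  exact PT.head? (PT.filterMap (pt_mn1 (d := fun x : ((List Unit × List Unit) × Inp) × ℕ =>
    (x.1.1.1, x.1.1.2, x.1.2.1.length ^ (x.1.1.2.take x.2).length, x.1.2)) (by fun_prop)) h1)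

end Pool.Agent.P.MP_f1a348_lc.LS
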