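import Pool.Agent.P.MP_f1a348_lc.LS.DefsP
import Pool.Agent.P.MP_f1a348_lc.LS.TZCL

/-! Step ZKID. -/

set_option autoImplicit false
set_option linter.unusedSectionVars false

namespace Pool.Agent.P.MP_f1a348_lc.LS

open Module Submodule Pool.Agent.Lib.Helper47 Pool.Agent.P.MP_f1a348_lc.GI
open scoped Classical

variable {p k : ℕ} [Fact p.Prime] {f f' e e' : Vk p k → List Bool} {c : Cx} {i j m ρ N : ℕ}
  {T T' : List (Set (Wk p k))} {l l' : List (Pin p (Wk p k))} {r : Pin p (Wk p k)}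
  {φ : Iso p (Wk p k)} {v w x y : Wk p k} {A B U : Sub p (Wk p k)} {S S' : Set (Wk p k)}
  {C C' : Finset (Sub p (Wk p k))} {Cl : List (List Pt)} {σ : FS} {s : AS p k} {b b' : Bool}
  {g : Vk p k ≃ₗ[ZMod p] Vk p k} {tb tb' : Tb}

theorem greedy_spec {N : Pt → List Pt} (X : List Pt) : (∀ x ∈ Cx.greedy N X, x ∈ X) ∧
    (Cx.greedy N X).Pairwise (fun x y => ∀ w ∈ N x, w ∉ N y) ∧
    ∀ x ∈ X, x ∈ Cx.greedy N X ∨ ∃ y ∈ Cx.greedy N X, ∃ w ∈ N y, w ∈ N x := by
  induction X using List.reverseRecOn with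
  | nil => simp [Cx.greedy]
  | append_singleton X x ih =>
    obtain ⟨h1, h2, h3⟩ := ih
    have e : Cx.greedy N (X ++ [x]) = bif (Cx.greedy N X).any
        (fun r => (N r).any (fun w => (N x).contains w)) then Cx.greedy N X
        else x :: Cx.greedy N X := List.foldl_concat ..
    rw [e]
    cases hb : (Cx.greedy N X).any (fun r => (N r).any (fun w => (N x).contains w))
    · simp only [List.any_eq_false, List.any_eq_true, List.contains_iff_mem, not_exists,
        not_and] at hb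
      simp only [cond_false, List.mem_cons, List.mem_append, List.not_mem_nil, or_false]
      refine ⟨fun y hy => hy.elim .inr fun h => .inl (h1 y h),
        List.pairwise_cons.2 ⟨fun y hy w h h' => hb y hy w h' h, h2⟩, fun y hy => ?_⟩
      rcases hy with hy | hy
      · exact (h3 y hy).imp .inr fun ⟨z, hz, h⟩ => ⟨z, .inr hz, h⟩
      · exact .inl (.inl hy)
    · simp only [List.any_eq_true, List.contains_iff_mem] at hb
      simp only [cond_true, List.mem_append, List.mem_singleton]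
      exact ⟨fun y hy => .inl (h1 y hy), h2, fun y hy => hy.elim (h3 y) fun h => .inr (h ▸ hb)⟩

theorem kids_len (c : Cx) (X : Mk) (z : Pn) (X' : Mk) : (c.kids X z X').length ≤ z.2.2 := by
  rw [Cx.kids, List.length_map]
  exact List.length_take_le _ _

-- `mat r.1 = φ r.1`, `mat [v] = φ (cls [] ⊥ v)` (`CIso.ty`), `nb_eq`, `CIso.nb`. The sets `Nb` of the chosen points are
-- disjoint subsets of the image of `cls [] U v` (`nb_sub`), each at least a `1 / width` part: at most `width` points.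
-- If `Nb (φ v)` meets `Nb x` through automorphisms `a'`, `a` then `a⁻¹ * a' * φ` sends `v + U` to `x + φ U`.
theorem Mod.kids_spec (h : Mod c j f f') (hφ : CIso f f' T T' φ) (hr : PinOK (sysOf j f T) j r) :
    ∃ (S' : Set (Wk p k)) (φ' : Iso p (Wk p k)),
      (S' :: T').map (fl c) ∈ c.kids (T.map (fl c)) (pn c r) (T'.map (fl c)) ∧
      CIso f f' ({w | w - r.2.1 ∈ r.1} :: T) (S' :: T') φ' := by
  obtain ⟨U, v, n⟩ := r
  obtain ⟨hU, hn⟩ := hr
  dsimp only at hU hn ⊢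
  have hM : 4 ≤ (sysOf j f T).M := h.four
  have e1 : c.mat (T.map (fl c)) (T'.map (fl c)) (fl c (U : Set (Wk p k))) =
      fl c (U.map (φ : Wk p k →ₗ[ZMod p] Wk p k) : Set (Wk p k)) := by
    rw [h.mat_eq fun z => h.mem_fl]
    congr 1
    ext w
    obtain ⟨w, rfl⟩ := φ.surjective w
    simp only [Set.mem_ofPred_eq, hφ.ty, SetLike.mem_coe, mem_map_equiv, φ.symm_apply_apply]
    exact ⟨fun ⟨x, hx, h1⟩ => hU x hx h1, fun hw => ⟨w, hw, Sys.self_mem_cls _ _ _ _⟩⟩
  have e2 : c.mat (T.map (fl c)) (T'.map (fl c)) [cd v] =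
      fl c (φ '' (sysOf j f T).cls [] ⊥ v) := by
    rw [h.mat_eq (S := {v}) fun z => by simp [eq_comm]]
    congr 1
    ext w
    obtain ⟨w, rfl⟩ := φ.surjective w
    simp only [Set.mem_ofPred_eq, hφ.ty, Set.mem_singleton_iff, exists_eq_left,
      φ.injective.mem_set_image]
  set N := c.nb true (T'.map (fl c)) (fl c (U.map (φ : Wk p k →ₗ[ZMod p] Wk p k) : Set (Wk p k)))
  have e3 : ∀ y, N (cd (φ y)) = fl c (φ '' (sysOf j f T).Nb j U y) := fun y => by
    refine (h.nb_eq true T' _ _).trans (congrArg _ ?_)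
    ext w
    obtain ⟨w, rfl⟩ := φ.surjective w
    exact hφ.nb.trans φ.injective.mem_set_image.symm
  obtain ⟨g1, g2, g3⟩ := greedy_spec (N := N) (fl c (φ '' (sysOf j f T).cls [] ⊥ v))
  set R := Cx.greedy N (fl c (φ '' (sysOf j f T).cls [] ⊥ v))
  have g4 : ∀ z ∈ R, ∃ y ∈ (sysOf j f T).cls [] U v, z = cd (φ y) := fun z hz => by
    obtain ⟨_, ⟨y, hy, rfl⟩, rfl⟩ := h.mem_fl.1 (g1 z hz)
    exact ⟨y, Sys.cls_coarse bot_le _ _ hy, rfl⟩
  have len : R.length ≤ n := by
    have h1 : (R.flatMap N).Nodup := List.nodup_flatMap.2 ⟨fun z hz => by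
      obtain ⟨y, -, rfl⟩ := g4 z hz
      exact e3 y ▸ h.nodup_fl _, g2⟩
    have h2 : R.flatMap N ⊆ fl c (φ '' (sysOf j f T).cls [] U v) := fun w hw => by
      obtain ⟨z, hz, hw⟩ := List.mem_flatMap.1 hw
      obtain ⟨y, hy, rfl⟩ := g4 z hz
      obtain ⟨w, hw', rfl⟩ := h.mem_fl.1 (e3 y ▸ hw)
      exact h.cd_mem_fl.2 (Set.image_mono (nb_sub hM hU hy) hw')
    have h3 := (List.subperm_of_subset h1 h2).length_le
    rw [h.length_fl, Set.ncard_image_of_injective _ φ.injective, List.length_flatMap] at h3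
    have h4 := List.card_nsmul_le_sum (R.map fun z => n * (N z).length)
      ((sysOf j f T).cls [] U v).ncard fun t ht => by
        obtain ⟨z, hz, rfl⟩ := List.mem_map.1 ht
        obtain ⟨y, hy, rfl⟩ := g4 z hz
        rw [e3, h.length_fl, Set.ncard_image_of_injective _ φ.injective]
        exact hn y hy
    rw [List.length_map, List.sum_map_mul_left, smul_eq_mul] at h4
    exact Nat.le_of_mul_le_mul_right (h4.trans (Nat.mul_le_mul_left n h3))
      ((nc_pos U).trans_le (Sys.nc_le_cls _ _ _ _))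
  have pres : ∀ a : Iso p (Wk p k), (∀ w, col f T (a w) = col f T w) → ∀ x ∈ U, a x ∈ U :=
    fun a ha x hx => hU.map (sysOf_aut.2 ha x) (mem_span_singleton_self x) hx
  have inv : ∀ a : Iso p (Wk p k), (∀ w, col f T (a w) = col f T w) →
      ∀ w, col f T (a.symm w) = col f T w := fun a ha w => by
    rw [← ha, a.apply_symm_apply]
  obtain ⟨y, hy, a, ha, hv⟩ : ∃ y, cd (φ y) ∈ R ∧ ∃ a : Iso p (Wk p k),
      (∀ w, col f T (a w) = col f T w) ∧ a v - y ∈ U := by
    rcases g3 _ (h.cd_mem_fl.2 ⟨v, Sys.self_mem_cls _ _ _ _, rfl⟩) with h1 | ⟨z, hz, w, h1, h2⟩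
    · exact ⟨v, h1, 1, fun _ => rfl, by simp⟩
    obtain ⟨y, -, rfl⟩ := g4 z hz
    rw [e3] at h1 h2
    obtain ⟨_, ⟨w, ⟨a, a1, -, a2⟩, rfl⟩, rfl⟩ := h.mem_fl.1 h1
    obtain ⟨a', b1, -, b2⟩ := φ.injective.mem_set_image.1 (h.cd_mem_fl.1 h2)
    rw [sysOf_aut] at a1 b1
    refine ⟨y, hz, a'.trans a.symm, fun w => (inv a a1 _).trans (b1 w), ?_⟩
    simpa using pres _ (inv a a1) _ (sub_mem a2 b2)
  refine ⟨{w | w - φ y ∈ U.map (φ : Wk p k →ₗ[ZMod p] Wk p k)}, a.trans φ, ?_,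
    CIso.cons (fun w => (hφ _).trans (ha w)) fun w => ?_⟩
  · simp only [Cx.kids, pn]
    rw [e1, e2, List.take_of_length_le len]
    exact List.mem_map.2 ⟨_, hy, by rw [h.cos_fl]; rfl⟩
  · simp only [Set.mem_ofPred_eq, mem_map_equiv, LinearEquiv.trans_apply, map_sub,
      φ.symm_apply_apply]
    refine ⟨fun h1 => ?_, fun h1 => ?_⟩
    · simpa using pres _ (inv a ha) _ (sub_mem h1 hv)
    · simpa using add_mem (pres a ha _ h1) hv

end Pool.Agent.P.MP_f1a348_lc.LS
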