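import Pool.Agent.P.MP_f1a348_lc.LS.DefsA
import Pool.Agent.P.MP_f1a348_lc.LS.TZLAY
import Pool.Agent.P.MP_f1a348_lc.LS.TZFIN

/-! Step ZMU. -/

set_option autoImplicit false
set_option linter.unusedSectionVars false

namespace Pool.Agent.P.MP_f1a348_lc.LS

open Module Submodule
open scoped Classical

variable {p : ℕ} [Fact p.Prime] {W : Type} [AddCommGroup W] [Module (ZMod p) W] [Fintype W]
  {Γ Γ' Γ'' : Sys p W} {C C' : Finset (Sub p W)} {A B A' B' D D' U V : Sub p W}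
  {g m i j n L ρ : ℕ} {v x y : W} {P : List (Pm p W)} {r : Pin p W}

namespace ZMUx

theorem sub (h : Good Γ C) (h' : Good Γ' C') (hf : Finer Γ' Γ) (hs : C ⊆ C') :
    {B | ∃ A, Layer C B A ∧ Γ.Pinned B A} ⊆ {B | ∃ A, Layer C' B A ∧ Γ'.Pinned B A} := by
  rintro B ⟨A, hl, hp⟩
  refine ⟨A, ⟨hs hl.1, hs hl.2.1, hl.2.2.1, fun U hU hB => ?_⟩, hf.pinned hp⟩
  rcases h'.chain.tot A (hs hl.2.1) U hU with h1 | h1
  · exact h1
  · exact (Submodule.eq_of_le_of_finrank_le h1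
      ((h.pinned_dim hl hp).trans (Submodule.finrank_lt_finrank_of_lt hB))).ge

theorem pinned (hM : 4 ≤ Γ.M) (hB : Γ.Def B) (hh : Held Γ B v) :
    Γ.Pinned B (B ⊔ span (ZMod p) {v}) := by
  intro x hx y hy
  obtain ⟨φ, h1, -, h3⟩ := Sys.mem_cls.1 hy
  have d1 := finrank_sp [(B, x)]
  have d2 : finrank (ZMod p) (span (ZMod p) {v} : Sub p W) ≤ 1 :=
    (finrank_span_le_card ({v} : Set W)).trans (by simp)
  obtain ⟨ψ, h4, h5⟩ := Sys.extU h1 (span (ZMod p) {v})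
    (by rw [List.length_singleton] at d1; omega)
  have hx' : x ∈ sp [(B, x)] := mem_sp (e := (B, x)) List.mem_cons_self
  have hv : v ∈ sp [(B, x)] ⊔ span (ZMod p) {v} := mem_sup_right (mem_span_singleton_self v)
  obtain ⟨u, hu, z, hz, e⟩ := mem_sup.1 hx
  obtain ⟨t, rfl⟩ := mem_span_singleton.1 hz
  have h6 : ψ u ∈ B := hB.map h4
    (by rw [eq_sub_of_add_eq e]; exact sub_mem (mem_sup_left hx') (smul_mem _ _ hv)) hu
  have h7 : ψ v - v ∈ B := hh _ (Sys.map_mem_cls h4 (by rw [sp_nil]; exact bot_le)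
    (fun _ h => by simp at h) hv ⊥)
  have e1 : y - x = (ψ u - u) + t • (ψ v - v) - (φ x - y) := by
    rw [← h5 x hx', ← e, map_add, map_smul, smul_sub]
    abel
  rw [e1]
  exact sub_mem (add_mem (sub_mem h6 hu) (smul_mem _ _ h7)) h3

end ZMUx

-- a pinned layer has dimension one (`pinned_dim`), so it is a layer of `C'`
theorem mu_mono (h : Good Γ C) (h' : Good Γ' C') (hf : Finer Γ' Γ) (hs : C ⊆ C') :
    mu Γ C ≤ mu Γ' C' := by
  exact Nat.add_le_add (Finset.card_le_card hs)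
    (Set.ncard_le_ncard (ZMUx.sub h h' hf hs)
      (C'.finite_toSet.subset fun B ⟨A, hl, _⟩ => hl.1))

-- if `C' = C`, `held_eq` gives `A = B ⊔ span {v}` and the layer is pinned for `Γ'` (extend the map to `v`), not for `Γ`
theorem mu_mv2 (h : Good Γ C) (h' : Good Γ' C') (hf : Finer Γ' Γ) (hs : C ⊆ C')
    (hr : Mv2 Γ g C r) (hh : Held Γ' r.1 r.2.1) : mu Γ C < mu Γ' C' := by
  have fin : {B | ∃ A, Layer C' B A ∧ Γ'.Pinned B A}.Finite :=
    C'.finite_toSet.subset fun B ⟨A, hl, _⟩ => hl.1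
  rcases eq_or_ne C C' with rfl | hne
  · obtain ⟨A, hl, -, hv, ⟨y, hy, hy'⟩, -⟩ := hr
    refine Nat.add_lt_add_left (Set.ncard_lt_ncard ⟨ZMUx.sub h h' hf hs, fun hc => ?_⟩ fin) _
    have hv' : r.2.1 ∉ r.1 := fun h1 => hy' (sub_mem (h.chain.df _ hl.1 _ h1 hy) h1)
    obtain ⟨A', hl', hp⟩ := hc ⟨A, hl, h'.held_eq hl hv hv' hh ▸
      ZMUx.pinned h'.ar (h'.chain.df _ hl.1) hh⟩
    rw [← hl'.up_eq, hl.up_eq] at hp
    exact hy' (hp _ hv y (Sys.cls_coarse bot_le _ _ hy))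
  · exact Nat.add_lt_add_of_lt_of_le (Finset.card_lt_card (hs.ssubset_of_ne hne))
      (Set.ncard_le_ncard (ZMUx.sub h h' hf hs) fin)

-- `cls ⊆ A` (`cls_sub`), `nc A ≤ p ^ g * nc B`, `nc_le_nb`
theorem pinok_mv2 (h : Good Γ C) (hr : Mv2 Γ g C r) (j : ℕ) : PinOK Γ j r := by
  obtain ⟨A, hl, hg, hv, -, hw⟩ := hr
  refine ⟨h.chain.df _ hl.1, fun v _ => ?_⟩
  have h1 : finrank (ZMod p) A ≤ g + finrank (ZMod p) r.1 := by
    by_contra hc
    exact hg ⟨hl, by omega⟩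
  calc (Γ.cls [] r.1 r.2.1).ncard ≤ nc A :=
        Set.ncard_le_ncard (Sys.cls_sub (h.chain.df _ hl.2.1) hl.2.2.1.le hv) (Set.toFinite _)
    _ ≤ p ^ g * nc r.1 := by
        rw [nc_eq, nc_eq, ← pow_add]
        exact Nat.pow_le_pow_right (Fact.out : p.Prime).pos h1
    _ ≤ _ := by
        rw [hw]
        exact Nat.mul_le_mul_left _ (nc_le_nb Γ j _ _)

theorem pinok_bot (Γ : Sys p W) (j : ℕ) (v : W) : PinOK Γ j (⊥, v, Fintype.card W) := by
  refine ⟨Γ.def_bot, fun w _ => ?_⟩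
  refine le_trans ?_ (Nat.le_mul_of_pos_right _ ((nc_pos _).trans_le (nc_le_nb Γ j _ _)))
  exact (Set.ncard_le_card _).trans Nat.card_eq_fintype_card.le

theorem PinOK.pos (h : PinOK Γ j r) : 1 ≤ r.2.2 := by
  exact Nat.pos_of_mul_pos_right (((nc_pos _).trans_le (Γ.nc_le_cls [] r.1 r.2.1)).trans_le
    (h.2 _ (Γ.self_mem_cls _ _ _)))

theorem Stuck.pinned (h : Stuck Γ g m C) (hl : Layer C B A) : Giant g C B A ∨ Γ.Pinned B A := by
  refine or_iff_not_imp_left.2 fun hg x hx y hy => ?_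
  obtain ⟨z, hz, hz'⟩ := mem_cls_mod.1 hy
  by_contra hc
  refine (h (B, x, p ^ g)).1 ⟨A, hl, hg, hx, ⟨z, hz, fun h1 => hc ?_⟩, rfl⟩
  simpa using sub_mem h1 hz'

end Pool.Agent.P.MP_f1a348_lc.LS
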