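import Pool.Agent.P.MP_f1a348_lc.LS.DefsP
import Pool.Agent.P.MP_f1a348_lc.LS.TZKID
import Pool.Agent.P.MP_f1a348_lc.LS.TZMU

/-! Step ZREP. -/

set_option autoImplicit false
set_option linter.unusedSectionVars false

namespace Pool.Agent.P.MP_f1a348_lc.LS

open Module Submodule Pool.Agent.Lib.Helper47 Pool.Agent.P.MP_f1a348_lc.GI
open scoped Classical

variable {p k : ℕ} [Fact p.Prime] {f f' e e' : Vk p k → List Bool} {c : Cx} {i j m ρ N : ℕ}
  {T T' : List (Set (Wk p k))} {l l' : List (Pin p (Wk p k))} {r : Pin p (Wk p k)}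
  {φ : Iso p (Wk p k)} {v w x y : Wk p k} {A B U : Sub p (Wk p k)} {S S' : Set (Wk p k)}
  {C C' : Finset (Sub p (Wk p k))} {Cl : List (List Pt)} {σ : FS} {s : AS p k} {b b' : Bool}
  {g : Vk p k ≃ₗ[ZMod p] Vk p k} {tb tb' : Tb}

namespace ZREPx

theorem st_fst (c : Cx) (L : List Pn) :
    (L.reverse.foldl c.rep1 ([], some [[]])).1 = c.mks L := by
  induction L with
  | nil => rfl
  | cons z L ih =>
    rw [List.reverse_cons, List.foldl_append, List.foldl_cons, List.foldl_nil, Cx.rep1, ih]
    rfl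

theorem rep_cons (c : Cx) (z : Pn) (L : List Pn) : c.rep (z :: L) = (c.rep L).bind (fun Fr =>
    bif Nat.ble (Fr.flatMap (c.kids (c.mks L) z)).length c.pad.length
      then some (Fr.flatMap (c.kids (c.mks L) z)) else none) := by
  rw [Cx.rep, List.reverse_cons, List.foldl_append, List.foldl_cons, List.foldl_nil, Cx.rep1,
    st_fst]
  rfl

theorem len_flat (c : Cx) (X : Mk) (z : Pn) (Fr : List Mk) :
    (Fr.flatMap (c.kids X z)).length ≤ z.2.2 * Fr.length := by
  induction Fr with
  | nil => simp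
  | cons a Fr ih =>
    have := kids_len c X z a
    rw [List.flatMap_cons, List.length_append, List.length_cons, Nat.mul_succ]
    omega

theorem halts (hl : Valid j f l) (hp : (l.map (fun r => r.2.2)).prod ≤ c.pad.length) :
    ∃ Fr, c.rep (l.map (pn c)) = some Fr ∧ Fr.length ≤ (l.map (fun r => r.2.2)).prod := by
  induction l with
  | nil => exact ⟨[[]], rfl, le_rfl⟩
  | cons r l ih =>
    rw [List.map_cons, List.prod_cons] at hp
    obtain ⟨Fr, h1, h2⟩ := ih hl.2 ((Nat.le_mul_of_pos_left _ hl.1.pos).trans hp)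
    have h3 : (Fr.flatMap (c.kids (c.mks (l.map (pn c))) (pn c r))).length ≤
        r.2.2 * (l.map (fun r => r.2.2)).prod :=
      (len_flat c _ (pn c r) Fr).trans (Nat.mul_le_mul_left _ h2)
    refine ⟨_, ?_, h3⟩
    rw [List.map_cons, rep_cons, h1, Option.bind_some, Nat.ble_eq_true_of_le (h3.trans hp),
      cond_true]

end ZREPx

-- induction on `l` with `List.reverse_cons`, `List.foldl_append`; the first component of the state is `c.mks _`
theorem Mod.rep_spec (h : Mod c j f f') (hl : Valid j f l) (hi : LIso f f') {Fr : List Mk}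
    (hr : c.rep (l.map (pn c)) = some Fr) :
    ∃ T' φ, T'.map (fl c) ∈ Fr ∧ CIso f f' (marks l) T' φ := by
  induction l generalizing Fr with
  | nil =>
    obtain ⟨φ, hφ⟩ := ciso_of_liso hi
    obtain rfl : [[]] = Fr := Option.some.inj hr
    exact ⟨[], φ, List.mem_cons_self, hφ⟩
  | cons r l ih =>
    rw [List.map_cons, ZREPx.rep_cons] at hr
    obtain ⟨F0, h1, h2⟩ := Option.bind_eq_some_iff.1 hr
    obtain ⟨T', φ, a1, a2⟩ := ih hl.2 h1
    obtain ⟨S', φ', b1, b2⟩ := h.kids_spec a2 hl.1
    refine ⟨S' :: T', φ', ?_, b2⟩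
    revert h2
    cases Nat.ble (F0.flatMap (c.kids (c.mks (l.map (pn c))) (pn c r))).length c.pad.length
    · intro h2; cases h2
    · intro h2
      rw [← Option.some.inj h2, h.mks_eq]
      exact List.mem_flatMap.2 ⟨_, a1, b1⟩

-- the list after the pins `l` has at most `∏ widths` entries (`kids_len`); all widths are positive (`PinOK.pos`)
theorem rep_halts (hl : Valid j f l) (hp : (l.map (fun r => r.2.2)).prod ≤ c.pad.length) :
    c.rep (l.map (pn c)) ≠ none := by
  obtain ⟨Fr, h1, -⟩ := ZREPx.halts hl hp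
  rw [h1]
  exact Option.some_ne_none _

end Pool.Agent.P.MP_f1a348_lc.LS
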