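import Pool.Agent.P.MP_f1a348_lc.LS.DefsA
import Pool.Agent.P.MP_f1a348_lc.LS.TZLAY

/-! Step ZE. -/

set_option autoImplicit false
set_option linter.unusedSectionVars false

namespace Pool.Agent.P.MP_f1a348_lc.LS

open Module Submodule
open scoped Classical

variable {p : ℕ} [Fact p.Prime] {W : Type} [AddCommGroup W] [Module (ZMod p) W] [Fintype W]
  {Γ Γ' Γ'' : Sys p W} {C C' : Finset (Sub p W)} {A B A' B' D D' U V : Sub p W}
  {g m i j n L ρ : ℕ} {v x y : W} {P : List (Pm p W)} {r : Pin p W}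

-- choose the parent `π B' ∈ gi g C` (`gi_parent`; unique by `layer_disj`) and sum over the fibres
-- (`Finset.sum_fiberwise_of_maps_to`): with `q U = (dm (up U) - dm U) / g ≥ 1` the fibre `S` over `B` has
-- `∑ q ≤ q B` (`sum_dim`, `Nat.le_div_iff_mul_le`), so `∑ (2 q - 1) ≤ 2 q B - 1`, strictly unless `S.card = 1`
theorem Chain.eS_mono (h : Chain Γ C) (h' : Chain Γ' C') (hs : C ⊆ C') (hg : 1 ≤ g) :
    eS g C' ≤ eS g C ∧ (eS g C' = eS g C → ∀ B ∈ gi g C, ∃ B', ∀ U,
      (U ∈ gi g C' ∧ B ≤ U ∧ up C' U ≤ up C B) ↔ U = B') := by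
  have q1 : ∀ {C : Finset (Sub p W)} {B}, B ∈ gi g C → 1 ≤ (dm (up C B) - dm B) / g := fun hB =>
    (Nat.le_div_iff_mul_le hg).2 (by have := (mem_gi.1 hB).2; simp only [dm]; omega)
  set F : Sub p W → Finset (Sub p W) := fun B =>
    (gi g C').filter fun U => B ≤ U ∧ up C' U ≤ up C B with hF
  set T : Sub p W → ℕ := fun B => ∑ U ∈ F B, (2 * ((dm (up C' U) - dm U) / g) - 1) with hT
  have e1 : ∀ B, T B + (F B).card ≤ 2 * ((dm (up C B) - dm B) / g) := fun B => by
    have e2 := h'.sum_dim (B := B) (A := up C B) (F B) fun U hU =>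
      ⟨(mem_gi.1 (Finset.mem_filter.1 hU).1).1, (Finset.mem_filter.1 hU).2⟩
    have e3 : ∑ U ∈ F B, (dm (up C' U) - dm U) / g ≤ (dm (up C B) - dm B) / g :=
      (Nat.le_div_iff_mul_le hg).2 (le_trans (by
        rw [Finset.sum_mul]; exact Finset.sum_le_sum fun U _ => Nat.div_mul_le_self _ _) e2)
    refine le_trans (le_of_eq ?_) (Nat.mul_le_mul_left 2 e3)
    rw [Finset.card_eq_sum_ones, ← Finset.sum_add_distrib, Finset.mul_sum]
    exact Finset.sum_congr rfl fun U hU => by have := q1 (Finset.mem_filter.1 hU).1; omega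
  have e0 : ∀ B, (F B).card = 0 → T B = 0 := fun B e => by
    simp only [hT, Finset.card_eq_zero.1 e, Finset.sum_empty]
  have e4 : ∀ B ∈ gi g C, T B ≤ 2 * ((dm (up C B) - dm B) / g) - 1 := fun B _ => by
    have := e1 B
    have := e0 B
    omega
  have e5 : eS g C' ≤ ∑ B ∈ gi g C, T B := by
    simp only [hT, hF, Finset.sum_filter]
    rw [Finset.sum_comm]
    refine Finset.sum_le_sum fun U hU => ?_
    obtain ⟨B, hB, e⟩ := h.gi_parent h' hs hU
    exact le_trans (if_pos e).ge (Finset.single_le_sum (f := fun B =>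
      if B ≤ U ∧ up C' U ≤ up C B then 2 * ((dm (up C' U) - dm U) / g) - 1 else 0)
      (fun _ _ => Nat.zero_le _) hB)
  have e6 := Finset.sum_le_sum e4
  refine ⟨e5.trans e6, fun e B hB => ?_⟩
  have e7 := (Finset.sum_eq_sum_iff_of_le e4).1 (le_antisymm e6 (e.ge.trans e5)) B hB
  obtain ⟨B', e8⟩ := Finset.card_eq_one.1 (show (F B).card = 1 by
    have := e1 B
    have := e0 B
    have := q1 hB
    omega)
  exact ⟨B', fun U => by rw [← Finset.mem_singleton, ← e8, hF, Finset.mem_filter]⟩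

end Pool.Agent.P.MP_f1a348_lc.LS
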