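import Pool.Agent.P.MP_f1a348_lc.LS.DefsA
import Pool.Agent.P.MP_f1a348_lc.LS.TZLAY
import Pool.Agent.P.MP_f1a348_lc.LS.TZFIN

/-! Step ZD1. -/

set_option autoImplicit false
set_option linter.unusedSectionVars false

namespace Pool.Agent.P.MP_f1a348_lc.LS

open Module Submodule
open scoped Classical

variable {p : ℕ} [Fact p.Prime] {W : Type} [AddCommGroup W] [Module (ZMod p) W] [Fintype W]
  {Γ Γ' Γ'' : Sys p W} {C C' : Finset (Sub p W)} {A B A' B' D D' U V : Sub p W}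
  {g m i j n L ρ : ℕ} {v x y : W} {P : List (Pm p W)} {r : Pin p W}

theorem Good.tp_mem (h : Good Γ C) (g : ℕ) (B : Sub p W) : tpS g C B ∈ C := by
  refine InfClosed.sInf_mem (s := (C : Set (Sub p W))) (fun U hU V hV => ?_) (Set.toFinite _)
    h.chain.top fun U hU => (mem_gi.1 hU.1).1.1
  rcases h.chain.tot U hU V hV with e | e
  · rwa [inf_eq_left.2 e]
  · rwa [inf_eq_right.2 e]

theorem Good.tp_def (h : Good Γ C) (g : ℕ) (B : Sub p W) : Γ.Def (tpS g C B) := by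
  exact h.chain.df _ (h.tp_mem g B)

theorem up_le_tp (g : ℕ) (C : Finset (Sub p W)) (B : Sub p W) : up C B ≤ tpS g C B := by
  exact sInf_le_sInf fun U hU => ⟨(mem_gi.1 hU.1).1.1, hU.2⟩

theorem Good.dd_def (h : Good Γ C) (g : ℕ) (B : Sub p W) : Γ.Def (ddS Γ g C B) := by
  exact Sys.Inv.sSup (fun U hU => hU.1) (le_trans (by simp) h.ar)

theorem dd_le_tp (Γ : Sys p W) (g : ℕ) (C : Finset (Sub p W)) (B : Sub p W) :
    ddS Γ g C B ≤ tpS g C B := by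
  exact sSup_le fun U hU => hU.2.2.1

theorem ZD1x.base (h : Good Γ C) (hB : B ∈ gi g C) :
    Γ.Def B ∧ B ≤ B ∧ B ≤ tpS g C B ∧ ¬ up C B ≤ B :=
  have l := (mem_gi.1 hB).1
  ⟨h.chain.df _ l.1, le_rfl, l.2.2.1.le.trans (up_le_tp g C B), l.2.2.1.not_ge⟩

theorem ZD1x.cap (h : Good Γ C) (l : Layer C B A) (hU : Γ.Def U) (h1 : B ≤ U) (h2 : ¬ A ≤ U) :
    U ⊓ A = B :=
  ((le_inf h1 l.2.2.1.le).eq_or_lt.resolve_right fun c => h2 (inf_eq_right.1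
    (h.closed B A l _ (Sys.Inv.inf hU (h.chain.df _ l.2.1)) c inf_le_right))).symm

theorem Good.le_dd (h : Good Γ C) (hB : B ∈ gi g C) : B ≤ ddS Γ g C B := by
  exact le_sSup (ZD1x.base h hB)

theorem cover_of (hU : Γ.Def U) (h1 : B ≤ U) (h2 : U ≤ tpS g C B) (h3 : ¬ U ≤ ddS Γ g C B) :
    up C B ≤ U := by
  exact by_contra fun c => h3 (le_sSup ⟨hU, h1, h2, c⟩)

-- A := up C B. A closed `U ≥ B` that does not cover `A` has `U ⊓ A = B` (field `closed`). For two such `U₁, U₂ ≤ tpS`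
-- show by strong induction on `dm X`, `X ∈ C`, `A ≤ X ≤ tpS`: `U₁ ⊔ (U₂ ⊓ X)` does not cover `A`. Step: `X₀` below `X`
-- (`layer_down`) is not giant (else `tpS ≤ X₀ < X`), so `dm (U₂ ⊓ X) < dm (U₂ ⊓ X₀) + g`, while covering `A` would raise
-- the dimension of `Y = U₁ ⊔ (U₂ ⊓ X₀)` (`Y ⊓ A = B`) by at least `dm A - dm B ≥ g`. The family is finite, nonempty and
-- closed under `⊔`, so it contains its `sSup` (take a member of largest `finrank`).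
theorem Good.dd_not (h : Good Γ C) (hB : B ∈ gi g C) : ¬ up C B ≤ ddS Γ g C B := by
  have l := (mem_gi.1 hB).1
  have sup : ∀ {U V : Sub p W}, Γ.Def U → Γ.Def V → Γ.Def (U ⊔ V) := fun a b =>
    Sys.Inv.sup a b (le_trans (by simp) h.ar)
  refine (SupClosed.sSup_mem_of_nonempty (s := {U | Γ.Def U ∧ B ≤ U ∧ U ≤ tpS g C B ∧ ¬ up C B ≤ U})
    (fun U hU V hV => ⟨sup hU.1 hV.1, le_sup_of_le_left hU.2.1, sup_le hU.2.2.1 hV.2.2.1, ?_⟩)
    (Set.toFinite _) (by exact ⟨B, ZD1x.base h hB⟩) subset_rfl).2.2.2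
  suffices H : ∀ X ∈ C, up C B ≤ X → X ≤ tpS g C B → ¬ up C B ≤ U ⊔ V ⊓ X by
    simpa only [inf_eq_left.2 hV.2.2.1] using H _ (h.tp_mem g B) (up_le_tp g C B) le_rfl
  intro X
  induction X using WellFoundedLT.induction with | ind X ih => ?_
  intro hX h1 h2 c
  rcases h1.eq_or_lt with rfl | h1
  · rw [ZD1x.cap h l hV.1 hV.2.1 hV.2.2.2, sup_eq_left.2 hU.2.1] at c
    exact hU.2.2.2 c
  obtain ⟨Y, lY⟩ := h.chain.layer_down hX h1.ne_bot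
  have h3 : up C B ≤ Y := by_contra fun e => (lY.2.2.2 _ l.2.1
    (((h.chain.tot _ lY.1 _ l.2.1).resolve_right e).lt_of_ne fun e' => e e'.ge)).not_gt h1
  have h4 : dm X < dm Y + g := not_le.1 fun e => (h2.trans
    (sInf_le ⟨Giant.mem_gi ⟨lY, e⟩, l.2.2.1.trans_le h3⟩)).not_gt lY.2.2.1
  have e1 := finrank_sup_add_finrank_inf_eq (U ⊔ V ⊓ Y) (up C B)
  rw [ZD1x.cap h l (sup hU.1 (Sys.Inv.inf hV.1 (h.chain.df _ lY.1))) (le_sup_of_le_left hU.2.1)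
    (ih Y lY.2.2.1 lY.1 h3 (lY.2.2.1.le.trans h2))] at e1
  have e2 := finrank_sup_add_finrank_inf_eq (U ⊔ V ⊓ Y) (V ⊓ X)
  have e3 := finrank_sup_add_finrank_inf_eq (V ⊓ X) Y
  have i1 : dm (U ⊔ V ⊓ Y ⊔ up C B) ≤ dm (U ⊔ V ⊓ Y ⊔ V ⊓ X) :=
    finrank_mono (sup_le le_sup_left (c.trans (sup_le_sup_right le_sup_left _)))
  have i2 : dm (V ⊓ X ⊓ Y) ≤ dm ((U ⊔ V ⊓ Y) ⊓ (V ⊓ X)) :=
    finrank_mono (le_inf (le_sup_of_le_right (inf_le_inf_right _ inf_le_left)) inf_le_left)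
  have i3 : dm (V ⊓ X ⊔ Y) ≤ dm X := finrank_mono (sup_le inf_le_right lY.2.2.1.le)
  have := (mem_gi.1 hB).2
  unfold dm at *
  omega

theorem Good.dd_inf (h : Good Γ C) (hB : B ∈ gi g C) : ddS Γ g C B ⊓ up C B = B := by
  exact ZD1x.cap h (mem_gi.1 hB).1 (h.dd_def g B) (h.le_dd hB) (h.dd_not hB)

theorem Good.mem_dd (h : Good Γ C) (hB : B ∈ gi g C) : v ∈ ddS Γ g C B ↔
    v ∈ tpS g C B ∧ ¬ up C B ≤ B ⊔ span (ZMod p) (Γ.cls [] ⊥ v) := by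
  refine ⟨fun hv => ⟨dd_le_tp Γ g C B hv, fun c =>
    h.dd_not hB (c.trans (hull_le (h.dd_def g B) (h.le_dd hB) hv))⟩, fun hv => ?_⟩
  have b := ZD1x.base h hB
  exact le_sSup (s := {U | Γ.Def U ∧ B ≤ U ∧ U ≤ tpS g C B ∧ ¬ up C B ≤ U}) ⟨def_hull h.ar b.1 v,
    le_sup_left, hull_le (h.tp_def g B) b.2.2.1 hv.1, hv.2⟩
    (mem_sup_right (subset_span (Γ.self_mem_cls [] ⊥ v)))

end Pool.Agent.P.MP_f1a348_lc.LS
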