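import Pool.Agent.P.MP_f1a348_lc.LS.DefsA
import Pool.Agent.P.MP_f1a348_lc.LS.TZD1

/-! Step ZH. -/

set_option autoImplicit false
set_option linter.unusedSectionVars false

namespace Pool.Agent.P.MP_f1a348_lc.LS

open Module Submodule
open scoped Classical

variable {p : ℕ} [Fact p.Prime] {W : Type} [AddCommGroup W] [Module (ZMod p) W] [Fintype W]
  {Γ Γ' Γ'' : Sys p W} {C C' : Finset (Sub p W)} {A B A' B' D D' U V : Sub p W}
  {g m i j n L ρ : ℕ} {v x y : W} {P : List (Pm p W)} {r : Pin p W}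

theorem ZHx.bd (h : Good Γ C) (hB : B ∈ gi g C) (hi : ∀ v ∈ tpS g C B, v ∉ ddS Γ g C B →
    p ^ i * nc (ddS Γ g C B) ≤ (Γ.cls [] (ddS Γ g C B) v).ncard) : i ≤ finrank (ZMod p) W := by
  obtain ⟨v, v1, v2⟩ := SetLike.not_le_iff_exists.1 (h.dd_not hB)
  have h1 := hi v (up_le_tp g C B v1) v2
  have h2 : (Γ.cls [] (ddS Γ g C B) v).ncard ≤ nc (⊤ : Sub p W) :=
    Set.ncard_le_ncard (fun _ _ => mem_top) (Set.toFinite _)
  rw [nc_eq, finrank_top] at h2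
  exact (Nat.pow_le_pow_iff_right (Fact.out : p.Prime).one_lt).1
    (((Nat.le_mul_of_pos_right _ (nc_pos _)).trans h1).trans h2)

theorem ZHx.sum (h : Chain Γ C) (g : ℕ) :
    ∑ U ∈ gi g C, (dm (up C U) - dm U) ≤ finrank (ZMod p) W := by
  have := h.sum_dim (B := ⊥) (A := ⊤) (gi g C) fun U hU => ⟨(mem_gi.1 hU).1, bot_le, le_top⟩
  rw [dm, finrank_top] at this
  omega

-- the set in `hhS` contains `0` (`nc_le_cls`) and is bounded by `finrank W` (some `v ∈ up C B` is outside `ddS`)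
theorem Good.hh_le (h : Good Γ C) (hB : B ∈ gi g C) (hv : v ∈ tpS g C B) (hv' : v ∉ ddS Γ g C B) :
    p ^ hhS Γ g C B * nc (ddS Γ g C B) ≤ (Γ.cls [] (ddS Γ g C B) v).ncard := by
  exact Nat.sSup_mem (s := {h | ∀ v ∈ tpS g C B, v ∉ ddS Γ g C B →
      p ^ h * nc (ddS Γ g C B) ≤ (Γ.cls [] (ddS Γ g C B) v).ncard})
    ⟨0, fun v _ _ => by simpa using Γ.nc_le_cls _ _ _⟩ ⟨_, fun _ hi => ZHx.bd h hB hi⟩ v hv hv'

theorem Good.le_hh (h : Good Γ C) (hB : B ∈ gi g C) (hi : ∀ v ∈ tpS g C B, v ∉ ddS Γ g C B →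
    p ^ i * nc (ddS Γ g C B) ≤ (Γ.cls [] (ddS Γ g C B) v).ncard) : i ≤ hhS Γ g C B := by
  exact le_csSup ⟨_, fun _ hi => ZHx.bd h hB hi⟩ hi

theorem Good.hh_min (h : Good Γ C) (hB : B ∈ gi g C) : ∃ v ∈ tpS g C B, v ∉ ddS Γ g C B ∧
    (Γ.cls [] (ddS Γ g C B) v).ncard ≤ p ^ (hhS Γ g C B + 1) * nc (ddS Γ g C B) := by
  by_contra k
  push Not at k
  have := h.le_hh hB fun v a b => (k v a b).le
  omega

theorem Good.hh_bd (h : Good Γ C) (hB : B ∈ gi g C) : hhS Γ g C B ≤ finrank (ZMod p) W := by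
  exact ZHx.bd h hB fun _ a b => h.hh_le hB a b

theorem Chain.gi_card (h : Chain Γ C) (hg : 1 ≤ g) : (gi g C).card ≤ finrank (ZMod p) W / g := by
  rw [Nat.le_div_iff_mul_le hg]
  refine le_trans ?_ (ZHx.sum h g)
  refine Finset.card_nsmul_le_sum _ _ _ fun U hU => ?_
  have := (mem_gi.1 hU).2
  unfold dm
  omega

theorem Chain.eS_le (h : Chain Γ C) : eS g C ≤ 2 * (finrank (ZMod p) W / g) := by
  have h1 : ∑ U ∈ gi g C, (dm (up C U) - dm U) / g ≤ finrank (ZMod p) W / g := by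
    rcases Nat.eq_zero_or_pos g with rfl | hg
    · simp
    rw [Nat.le_div_iff_mul_le hg, Finset.sum_mul]
    exact (Finset.sum_le_sum fun U _ => Nat.div_mul_le_self _ _).trans (ZHx.sum h g)
  refine le_trans (Finset.sum_le_sum fun U _ => Nat.sub_le _ _) ?_
  rw [← Finset.mul_sum]
  omega

theorem Good.sum_iB (h : Good Γ C) (hg : 1 ≤ g) :
    ∑ B ∈ gi g C, iB Γ g C B ≤ 3 * finrank (ZMod p) W * (finrank (ZMod p) W / g) := by
  refine (Finset.sum_le_card_nsmul _ _ (3 * finrank (ZMod p) W) fun B hB => ?_).trans ?_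
  · have := h.hh_bd hB
    have := Submodule.finrank_le (up C B)
    unfold iB dm
    omega
  · rw [smul_eq_mul, mul_comm]
    exact Nat.mul_le_mul_left _ (h.chain.gi_card hg)

theorem Good.psi_le (h : Good Γ C) (hg : 1 ≤ g) (hρ : finrank (ZMod p) W / g ≤ ρ) :
    psi Γ g C ≤ 11 * ρ ^ 2 * finrank (ZMod p) W := by
  have h1 := h.chain.eS_le (g := g)
  have h2 := h.sum_iB hg
  have h3 : ρ ≤ ρ ^ 2 := Nat.le_self_pow (by norm_num) _
  unfold psi
  calc _ ≤ 2 * ρ * (4 * finrank (ZMod p) W * ρ) + 3 * finrank (ZMod p) W * ρ ^ 2 :=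
        Nat.add_le_add (Nat.mul_le_mul (by omega) (Nat.mul_le_mul_left _ hρ))
          (h2.trans (Nat.mul_le_mul_left _ (hρ.trans h3)))
    _ = _ := by ring

theorem Chain.mu_le (h : Chain Γ C) : mu Γ C ≤ 2 * finrank (ZMod p) W + 2 := by
  have h1 := h.card_le
  have h2 : {B | ∃ A, Layer C B A ∧ Γ.Pinned B A}.ncard ≤ (C : Set (Sub p W)).ncard :=
    Set.ncard_le_ncard (fun _ ⟨_, a, _⟩ => a.1) C.finite_toSet
  rw [Set.ncard_coe_finset] at h2
  unfold mu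
  omega

end Pool.Agent.P.MP_f1a348_lc.LS
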