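import Pool.Agent.P.MP_f1a348_lc.LS.DefsA
import Pool.Agent.P.MP_f1a348_lc.LS.TZH

/-! Step ZINS. -/

set_option autoImplicit false
set_option linter.unusedSectionVars false

namespace Pool.Agent.P.MP_f1a348_lc.LS

open Module Submodule
open scoped Classical

variable {p : ℕ} [Fact p.Prime] {W : Type} [AddCommGroup W] [Module (ZMod p) W] [Fintype W]
  {Γ Γ' Γ'' : Sys p W} {C C' : Finset (Sub p W)} {A B A' B' D D' U V : Sub p W}
  {g m i j n L ρ : ℕ} {v x y : W} {P : List (Pm p W)} {r : Pin p W}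

theorem Ins.refl (hB : B ∈ gi g C) : Ins Γ Γ g C C B B := by
  exact ⟨hB, le_rfl, le_rfl, le_rfl, le_rfl, le_rfl⟩

-- tp: a giant `U > B'` of `C'` has a parent `B₂`; `B₂ = B` is excluded by `hu`, `up C B₂ ≤ B` by `B ≤ B' < U`;
-- dd: `ddS ⊔ B'` is closed for `Γ'` and does not cover `up C' B'` (modular law with `dd_inf`);
-- hh: `le_hh`; for `v ∈ tpS \ ddS` the hull `ddS ⊔ span (cls v)` covers `up C B`, so some `y ∈ cls [] ⊥ v` is outside
-- `ddS Γ'`; `hh_le` for `y`, `cls_le_cls`, cancel `nc`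
theorem ins_of (h : Good Γ C) (h' : Good Γ' C') (hf : Finer Γ' Γ) (hs : C ⊆ C') (hB : B ∈ gi g C)
    (hu : ∀ U, (U ∈ gi g C' ∧ B ≤ U ∧ up C' U ≤ up C B) ↔ U = B') : Ins Γ Γ' g C C' B B' := by
  obtain ⟨m, lo, hi⟩ := (hu B').2 rfl
  have lB := (mem_gi.1 hB).1
  have lB' := (mem_gi.1 m).1.2.2.1
  have tp : tpS g C B ≤ tpS g C' B' := le_sInf fun U ⟨hU, hlt⟩ => by
    obtain ⟨B₂, h1, h2, h3⟩ := h.chain.gi_parent h'.chain hs hU
    by_cases e : B = B₂
    · subst e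
      exact absurd ((hu U).1 ⟨hU, h2, h3⟩) hlt.ne'
    rcases h.chain.layer_disj lB (mem_gi.1 h1).1 e with h4 | h4
    · exact (sInf_le ⟨h1, lB.2.2.1.trans_le h4⟩ : tpS g C B ≤ B₂).trans h2
    · exact absurd ((h3.trans h4).trans (lo.trans hlt.le)) (mem_gi.1 hU).1.2.2.1.not_ge
  have dd : ddS Γ g C B ≤ ddS Γ' g C' B' := by
    refine (le_sup_right : _ ≤ B' ⊔ ddS Γ g C B).trans (le_sSup ⟨?_, le_sup_left,
      sup_le (lB'.le.trans (up_le_tp _ _ _)) ((dd_le_tp _ _ _ _).trans tp), fun h1 => ?_⟩)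
    · exact Sys.Inv.sup (h'.chain.df B' (mem_gi.1 m).1.1) (hf.df (h.dd_def g B))
        (le_trans (by simp) h'.ar)
    · have h2 := le_inf h1 hi
      rw [sup_inf_assoc_of_le _ (lB'.le.trans hi), h.dd_inf hB, sup_eq_left.2 lo] at h2
      exact lB'.not_ge h2
  refine ⟨m, lo, hi, tp, dd, h.le_hh hB fun v hv hv' => ?_⟩
  have h1 := hull_le (h.tp_def g B) (dd_le_tp Γ g C B) hv
  have h2 := cover_of (def_hull h.ar (h.dd_def g B) v) ((h.le_dd hB).trans le_sup_left) h1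
    fun h2 => hv' (h2 (mem_sup_right (subset_span (Γ.self_mem_cls [] ⊥ v))))
  obtain ⟨y, hy, hy'⟩ := Set.not_subset.1 fun h3 : Γ.cls [] ⊥ v ⊆ ddS Γ' g C' B' =>
    h'.dd_not m (hi.trans (h2.trans (sup_le dd (span_le.2 h3))))
  have h3 := h'.hh_le m (tp (h1 (mem_sup_right (subset_span hy)))) hy'
  have h4 := cls_le_cls dd ((hf.cls [] ⊥ y).trans
    (Sys.cls_eq (Γ.ok_nil 0) Γ.def_bot (le_trans (by simp) h.ar) hy).subset)
  refine Nat.le_of_mul_le_mul_right (le_trans ?_ h4) (nc_pos (ddS Γ' g C' B'))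
  rw [mul_right_comm]
  exact Nat.mul_le_mul_right _ h3

theorem Ins.iB_le (h : Ins Γ Γ' g C C' B B') : iB Γ' g C' B' ≤ iB Γ g C B := by
  have h1 := finrank_mono h.lo
  have h2 := finrank_mono h.hi
  have h3 := finrank_mono h.dd
  have h4 := h.hh
  simp only [iB, dm]
  omega

end Pool.Agent.P.MP_f1a348_lc.LS
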