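import Pool.Agent.P.MP_f1a348_lc.LS.DefsA
import Pool.Agent.P.MP_f1a348_lc.LS.TZINS
import Pool.Agent.P.MP_f1a348_lc.LS.TZE

/-! Step ZPSI. -/

set_option autoImplicit false
set_option linter.unusedSectionVars false

namespace Pool.Agent.P.MP_f1a348_lc.LS

open Module Submodule
open scoped Classical

variable {p : ℕ} [Fact p.Prime] {W : Type} [AddCommGroup W] [Module (ZMod p) W] [Fintype W]
  {Γ Γ' Γ'' : Sys p W} {C C' : Finset (Sub p W)} {A B A' B' D D' U V : Sub p W}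
  {g m i j n L ρ : ℕ} {v x y : W} {P : List (Pm p W)} {r : Pin p W}

-- `eS` drops: `psi' + N (N / g) ≤ eS * 4 N (N / g)`, and `g ≤ N` because `eS ≥ 1` gives a giant layer. `eS` equal:
-- `B ↦ B'` is a bijection `gi g C → gi g C'` (onto by `gi_parent`, injective by `layer_disj`), `Ins.iB_le` termwise
theorem psi_mono (h : Good Γ C) (h' : Good Γ' C') (hf : Finer Γ' Γ) (hs : C ⊆ C') (hg : 1 ≤ g) :
    psi Γ' g C' ≤ psi Γ g C ∧ (psi Γ' g C' + g ≤ psi Γ g C ∨ ∀ B ∈ gi g C, ∃ B',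
      Ins Γ Γ' g C C' B B' ∧ psi Γ' g C' + iB Γ g C B ≤ psi Γ g C + iB Γ' g C' B') := by
  obtain ⟨h1, h2⟩ := h.chain.eS_mono h'.chain hs hg
  rcases h1.lt_or_eq with h1 | h1
  · have hk : g ≤ finrank (ZMod p) W := by
      obtain ⟨B, hB, -⟩ := Finset.exists_ne_zero_of_sum_ne_zero (Nat.ne_zero_of_lt h1)
      exact (Nat.le_add_left _ _).trans ((mem_gi.1 hB).2.trans (finrank_le _))
    have h3 := h'.sum_iB hg
    have h4 : finrank (ZMod p) W * 1 ≤ finrank (ZMod p) W * (finrank (ZMod p) W / g) :=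
      Nat.mul_le_mul_left _ (Nat.div_pos hk hg)
    have h5 := Nat.mul_le_mul_right (4 * finrank (ZMod p) W * (finrank (ZMod p) W / g))
      (Nat.succ_le_of_lt h1)
    have : psi Γ' g C' + g ≤ psi Γ g C := by
      rw [Nat.succ_mul, mul_assoc 4] at h5
      rw [mul_assoc] at h3
      rw [psi, psi, mul_assoc 4]
      omega
    exact ⟨by omega, Or.inl this⟩
  · choose! π hπ using h2 h1
    have hi : ∀ B ∈ gi g C, Ins Γ Γ' g C C' B (π B) := fun B hB => ins_of h h' hf hs hB (hπ B hB)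
    have e : ∑ U ∈ gi g C', iB Γ' g C' U ≤ ∑ B ∈ gi g C, iB Γ' g C' (π B) := by
      refine (Finset.sum_le_sum_of_subset (t := (gi g C).image π) fun U hU => ?_).trans
        (Finset.sum_image_le_of_nonneg fun _ _ => Nat.zero_le _)
      obtain ⟨B, hB, hb⟩ := h.chain.gi_parent h'.chain hs hU
      exact Finset.mem_image.2 ⟨B, hB, ((hπ B hB U).1 ⟨hU, hb⟩).symm⟩
    refine ⟨?_, Or.inr fun B hB => ⟨π B, hi B hB, ?_⟩⟩
    · rw [psi, psi, h1]
      exact Nat.add_le_add_left (e.trans (Finset.sum_le_sum fun B hB => (hi B hB).iB_le)) _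
    · have := Finset.sum_le_sum (s := (gi g C).erase B) fun U hU =>
        (hi U (Finset.mem_of_mem_erase hU)).iB_le
      rw [← Finset.add_sum_erase _ _ hB] at e
      rw [psi, psi, h1, ← Finset.add_sum_erase _ (iB Γ g C) hB]
      omega

-- `ddS ⊔ span {v} ⊔ B'` is closed for `Γ'` (`Held.hull`, `def_hull`) and cannot cover `up C' B'`: it meets it in
-- dimension at most `dm B' + 1 < dm B' + g`; so `dm (ddS Γ') > dm (ddS Γ)` and `iB' < iB`
theorem psi_mv3 (h : Good Γ C) (h' : Good Γ' C') (hf : Finer Γ' Γ) (hs : C ⊆ C') (hg : 2 ≤ g)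
    (hr : Mv3 Γ g m C r) (hh : Held Γ' r.1 r.2.1) : psi Γ' g C' < psi Γ g C := by
  obtain ⟨B, hB, e, hv, hv', -⟩ := hr
  rcases (psi_mono h h' hf hs (by omega : 1 ≤ g)).2 with h1 | h1
  · omega
  obtain ⟨B', hi, h1⟩ := h1 B hB
  rw [e] at hv' hh
  have h2 : r.2.1 ∈ ddS Γ' g C' B' := by
    by_contra hc
    have h3 := def_hull h'.ar (h'.dd_def g B') r.2.1
    rw [Held.hull fun y hy => hi.dd (hh y hy)] at h3
    have h4 := cover_of h3 ((h'.le_dd hi.mem).trans le_sup_left) (sup_le (dd_le_tp _ _ _ _)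
      ((span_singleton_le_iff_mem _ _).2 (hi.tp hv)))
      fun hl => hc (hl (mem_sup_right (mem_span_singleton_self _)))
    have h5 := finrank_sup_add_finrank_inf_eq (ddS Γ' g C' B') (up C' B')
    have h6 := Submodule.finrank_mono (sup_le le_sup_left h4)
    have h7 := finrank_add_le_finrank_add_finrank (ddS Γ' g C' B') (span (ZMod p) {r.2.1})
    have h8 : finrank (ZMod p) (span (ZMod p) ({r.2.1} : Set W)) ≤ 1 :=
      (finrank_span_le_card _).trans (by simp)
    have h9 := (mem_gi.1 hi.mem).2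
    rw [h'.dd_inf hi.mem] at h5
    omega
  have a1 := finrank_lt_finrank_of_lt (lt_of_le_of_ne hi.dd fun e => hv' (e ▸ h2))
  have a2 := finrank_le (ddS Γ' g C' B')
  have a3 := Submodule.finrank_mono hi.lo
  have a4 := Submodule.finrank_mono hi.hi
  have a5 := hi.hh
  simp only [iB, dm] at h1
  omega

end Pool.Agent.P.MP_f1a348_lc.LS
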