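import Pool.Agent.P.MP_f1a348_lc.LS.DefsA
import Pool.Agent.P.MP_f1a348_lc.LS.TZINS

/-! Step ZSAT. -/

set_option autoImplicit false
set_option linter.unusedSectionVars false

namespace Pool.Agent.P.MP_f1a348_lc.LS

open Module Submodule
open scoped Classical

variable {p : ℕ} [Fact p.Prime] {W : Type} [AddCommGroup W] [Module (ZMod p) W] [Fintype W]
  {Γ Γ' Γ'' : Sys p W} {C C' : Finset (Sub p W)} {A B A' B' D D' U V : Sub p W}
  {g m i j n L ρ : ℕ} {v x y : W} {P : List (Pm p W)} {r : Pin p W}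

-- `Λ = {x ∈ tpS | cls P ⊥ x ⊆ ddS Γ' g C' B'}`: a subspace (extend the map to a summand, `map_mem_cls`), `Inv` by
-- `cls_trans`; `Λ ≤ ddS Γ'`; `hL` and the fields of `Ins` bound each of the three losses by `L`. For `x ∉ Λ` take
-- `y ∈ cls P ⊥ x` outside `ddS Γ'`: `cls' [] ⊥ y ⊆ cls P ⊥ y = cls P ⊥ x` (`cls_pins`), `hh_le`, `cls_le_cls`.
-- For `U`: it is closed for `Γ'` (`cls_pins`), `U ⊔ ddS Γ'` covers `up C' B'` (`cover_of`), count dimensions with `dd_inf`.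
theorem sat_clause (h : Good Γ C) (h' : Good Γ' C') (hf : Finer Γ' Γ) (hB : B ∈ gi g C)
    (hi : Ins Γ Γ' g C C' B B') (hP : Γ.Ok n P) (hn : 2 * n + 2 ≤ Γ.M)
    (hh : ∀ c ∈ P, Held Γ' ⊥ c.2) (hL : iB Γ g C B ≤ iB Γ' g C' B' + L) :
    ∃ Λ : Sub p W, ddS Γ g C B ≤ Λ ∧ Λ ≤ tpS g C B ∧ Γ.Inv P Λ ∧
      finrank (ZMod p) Λ ≤ finrank (ZMod p) (ddS Γ g C B) + L ∧
      (∀ x ∈ tpS g C B, x ∉ Λ → p ^ hhS Γ g C B * nc (ddS Γ g C B) ≤
        p ^ L * (Γ.cls P (ddS Γ g C B) x).ncard) ∧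
      ∀ U : Sub p W, Γ.Inv P U → ddS Γ g C B ≤ U → U ≤ tpS g C B → ¬ U ≤ Λ →
        finrank (ZMod p) (ddS Γ g C B) + finrank (ZMod p) (up C B) ≤
          finrank (ZMod p) U + finrank (ZMod p) B + L := by
  have hlen := hP.1
  have hBA' : B' ≤ up C' B' := (mem_gi.1 hi.mem).1.2.2.1.le
  have d1 : dm B ≤ dm B' := finrank_mono hi.lo
  have d2 : dm B' ≤ dm (up C' B') := finrank_mono hBA'
  have d3 : dm (up C' B') ≤ dm (up C B) := finrank_mono hi.hi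
  have d4 : dm (ddS Γ g C B) ≤ dm (ddS Γ' g C' B') := finrank_mono hi.dd
  have d5 : dm (ddS Γ' g C' B') ≤ finrank (ZMod p) W := finrank_le _
  have d6 := hi.hh
  unfold iB at hL
  have hT : Γ.Inv P (tpS g C B) := (h.tp_def g B).inv P
  have hpin : ∀ x, Γ'.cls [] ⊥ x ⊆ Γ.cls P ⊥ x := hf.cls_pins hh (by omega)
  have hΛ : sSup {U : Sub p W | Γ.Inv P U ∧ U ≤ tpS g C B ∧ U ≤ ddS Γ' g C' B'} ≤
      ddS Γ' g C' B' := sSup_le fun U hU => hU.2.2
  refine ⟨sSup {U : Sub p W | Γ.Inv P U ∧ U ≤ tpS g C B ∧ U ≤ ddS Γ' g C' B'},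
    le_sSup ⟨(h.dd_def g B).inv P, dd_le_tp Γ g C B, hi.dd⟩, sSup_le fun U hU => hU.2.1,
    Sys.Inv.sSup (fun U hU => hU.1) (by omega), ?_, fun x hx hxΛ => ?_,
    fun U hU h1 h2 h3 => ?_⟩
  · have := finrank_mono hΛ
    simp only [dm] at *
    omega
  · have hy : ∃ y ∈ Γ.cls P ⊥ x, y ∉ ddS Γ' g C' B' := by
      by_contra hc
      push Not at hc
      have hs : span (ZMod p) (Γ.cls P ⊥ x) ≤
          sSup {U : Sub p W | Γ.Inv P U ∧ U ≤ tpS g C B ∧ U ≤ ddS Γ' g C' B'} :=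
        le_sSup ⟨(Sys.cls_inv hP Γ.def_bot hn x).span (by omega), span_le.2 (hT x hx),
          span_le.2 hc⟩
      exact hxΛ (hs (subset_span (Γ.self_mem_cls P ⊥ x)))
    obtain ⟨y, hy, hy'⟩ := hy
    have k1 := h'.hh_le hi.mem (hi.tp (hT x hx hy)) hy'
    have k2 := cls_le_cls (Γ := Γ) (Γ' := Γ') (P := P) (x := x) (y := y) hi.dd
      ((hpin y).trans (Sys.cls_eq hP Γ.def_bot hn hy).subset)
    have k3 : p ^ hhS Γ' g C' B' * nc (ddS Γ g C B) ≤ (Γ.cls P (ddS Γ g C B) x).ncard := by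
      refine Nat.le_of_mul_le_mul_right ?_ (nc_pos (ddS Γ' g C' B'))
      calc p ^ hhS Γ' g C' B' * nc (ddS Γ g C B) * nc (ddS Γ' g C' B')
          = p ^ hhS Γ' g C' B' * nc (ddS Γ' g C' B') * nc (ddS Γ g C B) := by ring
        _ ≤ _ := Nat.mul_le_mul_right _ k1
        _ ≤ _ := k2
    have k4 : hhS Γ g C B ≤ L + hhS Γ' g C' B' := by omega
    calc p ^ hhS Γ g C B * nc (ddS Γ g C B)
        ≤ p ^ (L + hhS Γ' g C' B') * nc (ddS Γ g C B) :=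
          Nat.mul_le_mul_right _ (Nat.pow_le_pow_right (Fact.out : p.Prime).pos k4)
      _ = p ^ L * (p ^ hhS Γ' g C' B' * nc (ddS Γ g C B)) := by rw [pow_add, mul_assoc]
      _ ≤ _ := Nat.mul_le_mul_left _ k3
  · have hU' : Γ'.Def U := fun x hx => (hpin x).trans (hU x hx)
    have hM' := h'.ar
    have hS : Γ'.Def (U ⊔ ddS Γ' g C' B') :=
      Sys.Inv.sup hU' (h'.dd_def g B') (by simp only [List.length_nil]; omega)
    have hc : up C' B' ≤ U ⊔ ddS Γ' g C' B' :=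
      cover_of hS ((h'.le_dd hi.mem).trans le_sup_right)
        (sup_le (h2.trans hi.tp) (dd_le_tp Γ' g C' B'))
        fun hle => h3 (le_sSup ⟨hU, h2, le_sup_left.trans hle⟩)
    have e1 := finrank_sup_add_finrank_inf_eq (ddS Γ' g C' B') (up C' B')
    rw [h'.dd_inf hi.mem] at e1
    have e2 := finrank_sup_add_finrank_inf_eq U (ddS Γ' g C' B')
    have e3 := finrank_mono (sup_le le_sup_right hc : ddS Γ' g C' B' ⊔ up C' B' ≤ _)
    have e4 := finrank_mono (le_inf h1 hi.dd)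
    simp only [dm] at *
    omega

end Pool.Agent.P.MP_f1a348_lc.LS
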