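import Pool.Agent.P.MP_f1a348_lc.LS.DefsA
import Pool.Agent.P.MP_f1a348_lc.LS.TZSAT
import Pool.Agent.P.MP_f1a348_lc.LS.TZPSI
import Pool.Agent.P.MP_f1a348_lc.LS.TZMU

/-! Step ZA3. -/

set_option autoImplicit false
set_option linter.unusedSectionVars false

namespace Pool.Agent.P.MP_f1a348_lc.LS

open Module Submodule
open scoped Classical

variable {p : ℕ} [Fact p.Prime] {W : Type} [AddCommGroup W] [Module (ZMod p) W] [Fintype W]
  {Γ Γ' Γ'' : Sys p W} {C C' : Finset (Sub p W)} {A B A' B' D D' U V : Sub p W}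
  {g m i j n L ρ : ℕ} {v x y : W} {P : List (Pm p W)} {r : Pin p W}

theorem a3 (hc : CORE) (p₀ K ρ : ℕ) : ∃ j0 : ℕ, ∀ (p : ℕ) [Fact p.Prime], p ≤ p₀ →
    ∀ (W : Type) [AddCommGroup W] [Module (ZMod p) W] [Fintype W] (Γ : Sys p W)
      (C : Finset (Sub p W)) (g : ℕ), Good Γ C → 2 * j0 + 2 ≤ Γ.M → (K + 1) * j0 + 1 ≤ g →
      finrank (ZMod p) W / g ≤ ρ → Stuck Γ g (p ^ j0) C →
      (∀ y : List W, y ≠ [] → y.length ≤ j0 → ∃ Γ' C', Good Γ' C' ∧ Finer Γ' Γ ∧ C ⊆ C' ∧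
        (∀ v ∈ y, Held Γ' ⊥ v) ∧ psi Γ g C < psi Γ' g C' + K * y.length) → gi g C = ∅ := by
  obtain ⟨j0, h0⟩ := hc p₀ K ρ
  refine ⟨j0, fun p _ hp W _ _ _ Γ C g h hM hg hρ hst hfam => ?_⟩
  have hKg : K * j0 + j0 + 1 ≤ g := by rwa [Nat.succ_mul] at hg
  by_contra hne
  obtain ⟨B₀, hB₀⟩ := Finset.nonempty_iff_ne_empty.2 hne
  have hset : {B | ∃ A, Giant g C B A} = (gi g C : Set (Sub p W)) :=
    Set.ext fun B => ⟨fun ⟨_, h⟩ => h.mem_gi, fun h => ⟨_, mem_gi.1 h⟩⟩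
  have hsat : ∀ B A, Giant g C B A →
      Sat Γ K j0 B A (ddS Γ g C B) (tpS g C B) (hhS Γ g C B) := fun B A hG => by
    have hB := hG.mem_gi
    obtain rfl := hG.1.up_eq
    refine ⟨h.dd_def g B, h.tp_def g B, up_le_tp g C B, dd_le_tp Γ g C B, h.dd_inf hB,
      h.le_hh hB fun v h1 h2 => ?_, h.hh_min hB, fun P hP => ?_⟩
    · by_contra hc
      refine (hst (ddS Γ g C B, v, p ^ j0)).2 ⟨B, hB, rfl, h1, h2, rfl, h.dd_def g B,
        fun v' _ => (not_le.1 hc).le.trans (Nat.mul_le_mul_left _ (nc_le_nb Γ g _ _))⟩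
    · by_cases hn : P = []
      · subst hn
        exact sat_clause h h (Finer.refl Γ) hB (Ins.refl hB) hP hM (by simp) (Nat.le_add_right _ _)
      · obtain ⟨Γ', C', h', hf, hs, hh, hlt⟩ := hfam (P.map Prod.snd) (by simpa using hn)
          (by simpa using hP.1)
        rw [List.length_map] at hlt
        have hl : K * P.length ≤ K * j0 := Nat.mul_le_mul_left _ hP.1
        rcases (psi_mono h h' hf hs (g := g) (by omega)).2 with h4 | h4
        · omega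
        · obtain ⟨B', hi, h5⟩ := h4 B hB
          exact sat_clause h h' hf hB hi hP hM (fun c hc => hh _ (List.mem_map_of_mem hc))
            (by omega)
  obtain ⟨B, A, hG, v, h1, h2, h3⟩ := h0 p hp W Γ C g (ddS Γ g C) (tpS g C) (hhS Γ g C) (by omega)
    (by omega) h.chain ⟨B₀, _, mem_gi.1 hB₀⟩
    (by rw [hset, Set.ncard_coe_finset]; exact (h.chain.gi_card (by omega)).trans hρ)
    (fun B A hl => (hst.pinned hl).imp_right fun hp => ⟨hp, h.pinned_dim hl hp⟩) hsat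
  refine (hst (ddS Γ g C B, v, p ^ j0)).2 ⟨B, hG.mem_gi, rfl, h1, h2, rfl, h.dd_def g B,
    fun v' hv' => (h3 v' hv').trans (Nat.mul_le_mul_left _ ?_)⟩
  exact Set.ncard_le_ncard (nb_mono (by omega) _ _)

end Pool.Agent.P.MP_f1a348_lc.LS
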