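import Pool.Agent.P.MP_f1a348_lc.LS.DefsP
import Pool.Agent.P.MP_f1a348_lc.LS.TZCL
import Pool.Agent.P.MP_f1a348_lc.LS.TZD1

/-! Step ZLAYC. -/

set_option autoImplicit false
set_option linter.unusedSectionVars false

namespace Pool.Agent.P.MP_f1a348_lc.LS

open Module Submodule Pool.Agent.Lib.Helper47 Pool.Agent.P.MP_f1a348_lc.GI
open scoped Classical

variable {p k : ℕ} [Fact p.Prime] {f f' e e' : Vk p k → List Bool} {c : Cx} {i j m ρ N : ℕ}
  {T T' : List (Set (Wk p k))} {l l' : List (Pin p (Wk p k))} {r : Pin p (Wk p k)}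
  {φ : Iso p (Wk p k)} {v w x y : Wk p k} {A B U : Sub p (Wk p k)} {S S' : Set (Wk p k)}
  {C C' : Finset (Sub p (Wk p k))} {Cl : List (List Pt)} {σ : FS} {s : AS p k} {b b' : Bool}
  {g : Vk p k ≃ₗ[ZMod p] Vk p k} {tb tb' : Tb}

theorem Mod.mem_lays (h : Mod c j f f') (hC : RepC c Cl C) {z : List Pt × List Pt} :
    z ∈ Cx.lays Cl ↔ ∃ B A, Layer C B A ∧ z = (fl c (B : Set (Wk p k)), fl c (A : Set (Wk p k))) := by
  have key : ∀ B ∈ C, ∀ A ∈ C, ((Cx.sub (fl c (B : Set (Wk p k))) (fl c (A : Set (Wk p k))) &&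
      !Cx.sub (fl c (A : Set (Wk p k))) (fl c (B : Set (Wk p k))) &&
      Cl.all (fun U => !Cx.sub (fl c (B : Set (Wk p k))) U || Cx.sub U (fl c (B : Set (Wk p k))) ||
        Cx.sub (fl c (A : Set (Wk p k))) U)) = true ↔ Layer C B A) := by
    intro B hB A hA
    simp only [Bool.and_eq_true, Bool.not_eq_true', List.all_eq_true, Bool.or_eq_true,
      ← Bool.not_eq_true, h.sub_fl, SetLike.coe_subset_coe]
    constructor
    · rintro ⟨⟨h1, h2⟩, h3⟩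
      refine ⟨hB, hA, lt_of_le_not_ge h1 h2, fun U hU hBU => ?_⟩
      have := h3 _ ((hC _).2 ⟨U, hU, rfl⟩)
      simp only [h.sub_fl, SetLike.coe_subset_coe] at this
      rcases this with (a | a) | a
      · exact absurd hBU.le a
      · exact absurd a hBU.not_ge
      · exact a
    · rintro ⟨-, -, h1, h2⟩
      refine ⟨⟨h1.le, h1.not_ge⟩, fun z hz => ?_⟩
      obtain ⟨U, hU, rfl⟩ := (hC z).1 hz
      simp only [h.sub_fl, SetLike.coe_subset_coe]
      by_cases a : B ≤ U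
      · by_cases a' : U ≤ B
        · exact Or.inl (Or.inr a')
        · exact Or.inr (h2 U hU (lt_of_le_not_ge a a'))
      · exact Or.inl (Or.inl a)
  obtain ⟨z1, z2⟩ := z
  rw [Cx.lays, List.mem_filter, mem_prodL]
  constructor
  · rintro ⟨⟨h1, h2⟩, h3⟩
    obtain ⟨B, hB, rfl⟩ := (hC z1).1 h1
    obtain ⟨A, hA, rfl⟩ := (hC z2).1 h2
    exact ⟨B, A, (key B hB A hA).1 h3, rfl⟩
  · rintro ⟨B, A, hl, e⟩
    obtain ⟨rfl, rfl⟩ := Prod.mk.inj e
    exact ⟨⟨(hC _).2 ⟨B, hl.1, rfl⟩, (hC _).2 ⟨A, hl.2.1, rfl⟩⟩, (key B hl.1 A hl.2.1).2 hl⟩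

theorem Mod.big_iff (h : Mod c j f f') :
    c.big (fl c (B : Set (Wk p k)), fl c (A : Set (Wk p k))) = true ↔ dm B + j ≤ dm A := by
  have e1 := nc_eq A
  have e2 := nc_eq B
  unfold nc at e1 e2
  rw [Cx.big, Nat.ble_eq, h.pg_eq, h.length_fl, h.length_fl, e1, e2, ← pow_add,
    Nat.pow_le_pow_iff_right (Fact.out : p.Prime).one_lt]

theorem Mod.mem_gia (h : Mod c j f f') (hC : RepC c Cl C) {z : List Pt × List Pt} :
    z ∈ c.gia Cl ↔ ∃ B ∈ gi j C, z = (fl c (B : Set (Wk p k)), fl c (up C B : Set (Wk p k))) := by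
  rw [Cx.gia, List.mem_filter, h.mem_lays hC]
  constructor
  · rintro ⟨⟨B, A, hl, rfl⟩, h2⟩
    exact ⟨B, Giant.mem_gi ⟨hl, h.big_iff.1 h2⟩, by rw [hl.up_eq]⟩
  · rintro ⟨B, hB, rfl⟩
    exact ⟨⟨B, _, (mem_gi.1 hB).1, rfl⟩, h.big_iff.2 (mem_gi.1 hB).2⟩

theorem Mod.gia_nil (h : Mod c j f f') (hC : RepC c Cl C) : c.gia Cl = [] ↔ gi j C = ∅ := by
  rw [List.eq_nil_iff_forall_not_mem, Finset.eq_empty_iff_forall_notMem]
  exact ⟨fun a B hB => a _ ((h.mem_gia hC).2 ⟨B, hB, rfl⟩),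
    fun a z hz => by obtain ⟨B, hB, -⟩ := (h.mem_gia hC).1 hz; exact a B hB⟩

theorem Mod.tp_eq (h : Mod c j f f') (hC : RepC c Cl C) (hB : B ∈ gi j C) :
    c.tp Cl (fl c (up C B : Set (Wk p k))) = fl c (tpS j C B : Set (Wk p k)) := by
  have hl := (mem_gi.1 hB).1
  refine h.filter_eq fun w => ?_
  rw [List.all_eq_true, SetLike.mem_coe, tpS, Submodule.mem_sInf]
  constructor
  · rintro a U ⟨hU, hBU⟩
    have := a _ ((h.mem_gia hC).2 ⟨U, hU, rfl⟩)
    simp only [Bool.or_eq_true, Bool.not_eq_true', ← Bool.not_eq_true, h.sub_fl, h.contains_fl,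
      SetLike.coe_subset_coe] at this
    exact this.resolve_left fun e => e (hl.2.2.2 U (mem_gi.1 hU).1.1 hBU)
  · intro a z hz
    obtain ⟨U, hU, rfl⟩ := (h.mem_gia hC).1 hz
    simp only [Bool.or_eq_true, Bool.not_eq_true', ← Bool.not_eq_true, h.sub_fl, h.contains_fl,
      SetLike.coe_subset_coe]
    by_cases e : up C B ≤ U
    · exact Or.inr (a U ⟨hU, hl.2.2.1.trans_le e⟩)
    · exact Or.inl e

theorem Mod.dd_eq (h : Mod c j f f') (hC : RepC c Cl C) (hg : Good (sysOf j f T) C)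
    (hB : B ∈ gi j C) :
    c.dd (T.map (fl c)) Cl (fl c (B : Set (Wk p k)), fl c (up C B : Set (Wk p k))) =
      fl c (ddS (sysOf j f T) j C B : Set (Wk p k)) := by
  rw [Cx.dd, h.tp_eq hC hB]
  refine h.filter_fl fun w => ?_
  rw [SetLike.mem_coe, SetLike.mem_coe, hg.mem_dd hB, h.hull_eq, Bool.not_eq_true',
    ← Bool.not_eq_true, h.sub_fl, SetLike.coe_subset_coe]

end Pool.Agent.P.MP_f1a348_lc.LS
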