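import Pool.Agent.P.MP_f1a348_lc.LS.DefsP
import Pool.Agent.P.MP_f1a348_lc.LS.TZLAYC

/-! Step ZCLO. -/

set_option autoImplicit false
set_option linter.unusedSectionVars false

namespace Pool.Agent.P.MP_f1a348_lc.LS

open Module Submodule Pool.Agent.Lib.Helper47 Pool.Agent.P.MP_f1a348_lc.GI
open scoped Classical

variable {p k : ℕ} [Fact p.Prime] {f f' e e' : Vk p k → List Bool} {c : Cx} {i j m ρ N : ℕ}
  {T T' : List (Set (Wk p k))} {l l' : List (Pin p (Wk p k))} {r : Pin p (Wk p k)}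
  {φ : Iso p (Wk p k)} {v w x y : Wk p k} {A B U : Sub p (Wk p k)} {S S' : Set (Wk p k)}
  {C C' : Finset (Sub p (Wk p k))} {Cl : List (List Pt)} {σ : FS} {s : AS p k} {b b' : Bool}
  {g : Vk p k ≃ₗ[ZMod p] Vk p k} {tb tb' : Tb}

namespace ZCLOx

theorem mem_news (h : Mod c j f f') (hC : RepC c Cl C) {z : List Pt} :
    z ∈ c.news (T.map (fl c)) Cl ↔ ∃ B A v, Layer C B A ∧ v ∈ A ∧
      z = fl c ((B ⊔ span (ZMod p) ((sysOf j f T).cls [] ⊥ v) : Sub p (Wk p k)) : Set (Wk p k)) ∧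
      ¬ B ⊔ span (ZMod p) ((sysOf j f T).cls [] ⊥ v) ≤ B ∧
      ¬ A ≤ B ⊔ span (ZMod p) ((sysOf j f T).cls [] ⊥ v) := by
  unfold Cx.news
  simp only [List.mem_flatMap, List.mem_filter, List.mem_map, Bool.and_eq_true, Bool.not_eq_true']
  constructor
  · rintro ⟨y, hy, ⟨x, hx, rfl⟩, h1, h2⟩
    obtain ⟨B, A, hl, rfl⟩ := (h.mem_lays hC).1 hy
    obtain ⟨v, hv, rfl⟩ := h.mem_fl.1 hx
    simp only [h.hull_eq] at h1 h2 ⊢
    refine ⟨B, A, v, hl, hv, rfl, fun e => ?_, fun e => ?_⟩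
    · rw [h.sub_fl.2 (SetLike.coe_subset_coe.2 e)] at h1
      exact absurd h1 (by simp)
    · rw [h.sub_fl.2 (SetLike.coe_subset_coe.2 e)] at h2
      exact absurd h2 (by simp)
  · rintro ⟨B, A, v, hl, hv, rfl, h1, h2⟩
    refine ⟨_, (h.mem_lays hC).2 ⟨B, A, hl, rfl⟩, ⟨cd v, h.cd_mem_fl.2 hv, h.hull_eq T B v⟩, ?_, ?_⟩
    · exact Bool.eq_false_iff.2 fun e => h1 (SetLike.coe_subset_coe.1 (h.sub_fl.1 e))
    · exact Bool.eq_false_iff.2 fun e => h2 (SetLike.coe_subset_coe.1 (h.sub_fl.1 e))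

theorem good_of (h : Mod c j f f') (hC : RepC c Cl C) (hc : Chain (sysOf j f T) C)
    (hn : c.news (T.map (fl c)) Cl = []) : Good (sysOf j f T) C := by
  refine ⟨h.four, hc, fun B A hl U hU h1 h2 => ?_⟩
  by_contra hne
  obtain ⟨v, hv, hv'⟩ := SetLike.exists_of_lt h1
  have hle := hull_le hU h1.le hv
  have hm := (mem_news (T := T) h hC).2 ⟨B, A, v, hl, h2 hv, rfl,
    fun e => hv' (e (mem_sup_right (subset_span ((sysOf j f T).self_mem_cls [] ⊥ v)))),
    fun e => hne (le_antisymm h2 (e.trans hle))⟩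
  rw [hn] at hm
  exact absurd hm (by simp)

theorem step (h : Mod c j f f') (hC : RepC c Cl C) (hc : Chain (sysOf j f T) C)
    (hV : VV p k ∈ C) (hn : c.news (T.map (fl c)) Cl ≠ []) :
    ∃ C' : Finset (Sub p (Wk p k)), RepC c (c.clStep (T.map (fl c)) Cl) C' ∧
      Chain (sysOf j f T) C' ∧ C ⊆ C' ∧ C.card + 1 ≤ C'.card := by
  obtain ⟨z, zs, hz⟩ := List.exists_cons_of_ne_nil hn
  obtain ⟨B, A, v, hl, hv, rfl, h1, h2⟩ :=
    (mem_news (T := T) (z := z) h hC).1 (by rw [hz]; exact List.mem_cons_self)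
  generalize hU : B ⊔ span (ZMod p) ((sysOf j f T).cls [] ⊥ v) = U at hz h1 h2
  have hd : (sysOf j f T).Def U := hU ▸ def_hull h.four (hc.df B hl.1) v
  have hB : B ≤ U := hU ▸ le_sup_left
  have hA : U ≤ A := hU ▸ hull_le (hc.df A hl.2.1) hl.2.2.1.le hv
  have hnot : U ∉ C := fun e => h2 (hl.2.2.2 U e (lt_of_le_not_ge hB h1))
  have hs : insert U C ⊆ insert U (insert ((sysOf j f T).perp U) C) :=
    Finset.insert_subset_insert _ (Finset.subset_insert _ _)
  refine ⟨insert U (insert ((sysOf j f T).perp U) C), fun y => ?_,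
    hc.ins h.four hV perp_VV hl hd hB hA, (Finset.subset_insert _ _).trans hs, ?_⟩
  · unfold Cx.clStep
    rw [hz, List.head?_cons, Option.elim_some, h.nrm_fl, h.prp_fl j f T U]
    simp only [List.mem_cons, Finset.mem_insert, exists_eq_or_imp, hC y]
  · rw [← Finset.card_insert_of_notMem hnot]
    exact Finset.card_le_card hs

theorem iter (h : Mod c j f f') (hC : RepC c Cl C) (hc : Chain (sysOf j f T) C)
    (hV : VV p k ∈ C) (n : ℕ) : ∃ C' : Finset (Sub p (Wk p k)),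
      RepC c ((c.clStep (T.map (fl c)))^[n] Cl) C' ∧ Chain (sysOf j f T) C' ∧ C ⊆ C' ∧
      (c.news (T.map (fl c)) ((c.clStep (T.map (fl c)))^[n] Cl) = [] ∨ C.card + n ≤ C'.card) := by
  induction n with
  | zero => exact ⟨C, hC, hc, subset_rfl, Or.inr le_rfl⟩
  | succ n ih =>
    obtain ⟨C', a1, a2, a3, a4⟩ := ih
    rw [Function.iterate_succ_apply']
    by_cases hn : c.news (T.map (fl c)) ((c.clStep (T.map (fl c)))^[n] Cl) = []
    · have e : c.clStep (T.map (fl c)) ((c.clStep (T.map (fl c)))^[n] Cl) =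
          (c.clStep (T.map (fl c)))^[n] Cl := by
        generalize (c.clStep (T.map (fl c)))^[n] Cl = X at hn
        unfold Cx.clStep
        rw [hn]
        rfl
      rw [e]
      exact ⟨C', a1, a2, a3, Or.inl hn⟩
    · obtain ⟨C'', b1, b2, b3, b4⟩ := step h a1 a2 (a3 hV) hn
      have := a4.resolve_left hn
      exact ⟨C'', b1, b2, a3.trans b3, Or.inr (by omega)⟩

end ZCLOx

-- one step: either `news = []` and the chain is closed (`hull_le`), or `Chain.ins` gives a larger chain; after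
-- `p ^ k * p ^ k > 2 k` steps without a stop the chain would have more than `2 k + 1` members (`Chain.card_le`)
theorem Mod.close_spec (h : Mod c j f f') (hC : RepC c Cl C) (hc : Chain (sysOf j f T) C)
    (hV : VV p k ∈ C) : ∃ C' : Finset (Sub p (Wk p k)),
      RepC c (c.close (T.map (fl c)) Cl) C' ∧ Good (sysOf j f T) C' ∧ C ⊆ C' := by
  obtain ⟨C', a1, a2, a3, a4⟩ := ZCLOx.iter (T := T) h hC hc hV c.pts.length
  refine ⟨C', a1, ZCLOx.good_of h a1 a2 (a4.resolve_right fun e => ?_), a3⟩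
  have b1 := a2.card_le
  have b2 : 0 < C.card := Finset.card_pos.2 ⟨_, hV⟩
  have b3 : k < p ^ k := Nat.lt_pow_self (Fact.out : p.Prime).one_lt
  have b4 := Nat.mul_le_mul b3 b3
  rw [finrank_Wk] at b1
  rw [h.length_pts] at e
  simp only [Nat.succ_eq_add_one] at b4
  nlinarith [Nat.zero_le (k * k)]

end Pool.Agent.P.MP_f1a348_lc.LS
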