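import Pool.Agent.P.MP_f1a348_lc.LS.DefsP
import Pool.Agent.P.MP_f1a348_lc.LS.TZLAYC

/-! Step ZMV. -/

set_option autoImplicit false
set_option linter.unusedSectionVars false

namespace Pool.Agent.P.MP_f1a348_lc.LS

open Module Submodule Pool.Agent.Lib.Helper47 Pool.Agent.P.MP_f1a348_lc.GI
open scoped Classical

variable {p k : ℕ} [Fact p.Prime] {f f' e e' : Vk p k → List Bool} {c : Cx} {i j m ρ N : ℕ}
  {T T' : List (Set (Wk p k))} {l l' : List (Pin p (Wk p k))} {r : Pin p (Wk p k)}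
  {φ : Iso p (Wk p k)} {v w x y : Wk p k} {A B U : Sub p (Wk p k)} {S S' : Set (Wk p k)}
  {C C' : Finset (Sub p (Wk p k))} {Cl : List (List Pt)} {σ : FS} {s : AS p k} {b b' : Bool}
  {g : Vk p k ≃ₗ[ZMod p] Vk p k} {tb tb' : Tb}

namespace ZMVx

theorem any_iff (h : Mod c j f f') (T : List (Set (Wk p k))) (B : Sub p (Wk p k)) (v : Wk p k) :
    ((c.cl (T.map (fl c)) (cd v)).any
      (fun y => !(fl c (B : Set (Wk p k))).contains (c.sb y (cd v)))) = true ↔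
      ∃ y ∈ (sysOf j f T).cls [] ⊥ v, y - v ∉ B := by
  rw [h.cl_eq, List.any_eq_true]
  constructor
  · rintro ⟨z, hz, e⟩
    obtain ⟨y, hy, rfl⟩ := h.mem_fl.1 hz
    refine ⟨y, hy, fun hb => ?_⟩
    rw [h.sb_eq, (h.contains_fl (S := (B : Set (Wk p k)))).2 hb] at e
    exact absurd e (by decide)
  · rintro ⟨y, hy, hb⟩
    refine ⟨cd y, h.cd_mem_fl.2 hy, ?_⟩
    rw [h.sb_eq, Bool.not_eq_true', Bool.eq_false_iff]
    exact fun e => hb ((h.contains_fl (S := (B : Set (Wk p k)))).1 e)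

theorem all_iff (h : Mod c j f f') (T : List (Set (Wk p k))) (U : Sub p (Wk p k)) (v : Wk p k) :
    ((c.clU (T.map (fl c)) (fl c (U : Set (Wk p k))) (cd v)).all (fun y =>
      Nat.ble (c.clU (T.map (fl c)) (fl c (U : Set (Wk p k))) (cd v)).length
        (c.m * (c.nb false (T.map (fl c)) (fl c (U : Set (Wk p k))) y).length))) = true ↔
      ∀ y ∈ (sysOf j f T).cls [] U v,
        ((sysOf j f T).cls [] U v).ncard ≤ c.m * ((sysOf j f T).Nb j U y).ncard := by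
  rw [h.clU_eq, List.all_eq_true]
  constructor
  · intro H y hy
    have := H (cd y) (h.cd_mem_fl.2 hy)
    rwa [h.nb_eq, h.length_fl, h.length_fl, Nat.ble_eq] at this
  · intro H z hz
    obtain ⟨y, hy, rfl⟩ := h.mem_fl.1 hz
    rw [h.nb_eq, h.length_fl, h.length_fl, Nat.ble_eq]
    exact H y hy

end ZMVx

theorem Mod.mem_mv2 (h : Mod c j f f') (hC : RepC c Cl C) {z : Pn} :
    z ∈ c.mv2 (T.map (fl c)) Cl ↔ ∃ r, Mv2 (sysOf j f T) j C r ∧ z = pn c r := by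
  unfold Cx.mv2
  simp only [List.mem_flatMap, List.mem_filter, List.mem_map]
  constructor
  · rintro ⟨y, ⟨hy, hb⟩, u, ⟨hu, ha⟩, rfl⟩
    obtain ⟨B, A, hl, rfl⟩ := (h.mem_lays hC).1 hy
    rw [h.nrm_fl] at hu
    obtain ⟨v, hv, rfl⟩ := h.mem_fl.1 hu
    refine ⟨(B, v, p ^ j), ⟨A, hl, fun hG => ?_, hv, (ZMVx.any_iff h T B v).1 ha, rfl⟩, ?_⟩
    · rw [h.big_iff.2 hG.2] at hb
      exact absurd hb (by decide)
    · simp only [pn, h.nrm_fl, h.pg_eq]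
  · rintro ⟨⟨B, v, n⟩, ⟨A, hl, hG, hv, hy, hn⟩, rfl⟩
    refine ⟨(fl c (B : Set (Wk p k)), fl c (A : Set (Wk p k))),
      ⟨(h.mem_lays hC).2 ⟨B, A, hl, rfl⟩, ?_⟩, cd v, ⟨?_, (ZMVx.any_iff h T B v).2 hy⟩, ?_⟩
    · rw [Bool.not_eq_true', Bool.eq_false_iff]
      exact fun e => hG ⟨hl, h.big_iff.1 e⟩
    · rw [h.nrm_fl]
      exact h.cd_mem_fl.2 hv
    · simp only at hn
      simp only [pn, h.nrm_fl, h.pg_eq, hn]

theorem Mod.mem_mv3 (h : Mod c j f f') (hC : RepC c Cl C) (hg : Good (sysOf j f T) C) {z : Pn} :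
    z ∈ c.mv3 (T.map (fl c)) Cl ↔ ∃ r, Mv3 (sysOf j f T) j c.m C r ∧ z = pn c r := by
  unfold Cx.mv3
  simp only [List.mem_flatMap, List.mem_filter, List.mem_map]
  constructor
  · rintro ⟨y, hy, u, ⟨hu, ha⟩, rfl⟩
    obtain ⟨B, hB, rfl⟩ := (h.mem_gia hC).1 hy
    rw [h.dd_eq hC hg hB] at ha ⊢
    rw [h.tp_eq hC hB] at hu
    obtain ⟨v, hv, rfl⟩ := h.mem_fl.1 hu
    rw [Bool.and_eq_true, ZMVx.all_iff h, Bool.not_eq_true', Bool.eq_false_iff] at ha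
    exact ⟨(ddS (sysOf j f T) j C B, v, c.m), ⟨B, hB, rfl, hv,
      fun e => ha.1 ((h.contains_fl (S := (ddS (sysOf j f T) j C B : Set (Wk p k)))).2 e), rfl,
      hg.dd_def j B, ha.2⟩, rfl⟩
  · rintro ⟨⟨U, v, n⟩, ⟨B, hB, hU, hv, hv', hn, hp⟩, rfl⟩
    simp only at hU hv hv' hn
    subst hU hn
    refine ⟨(fl c (B : Set (Wk p k)), fl c (up C B : Set (Wk p k))),
      (h.mem_gia hC).2 ⟨B, hB, rfl⟩, cd v, ⟨?_, ?_⟩, ?_⟩
    · rw [h.tp_eq hC hB]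
      exact h.cd_mem_fl.2 hv
    · rw [h.dd_eq hC hg hB, Bool.and_eq_true, ZMVx.all_iff h, Bool.not_eq_true', Bool.eq_false_iff]
      exact ⟨fun e => hv' ((h.contains_fl (S := (ddS (sysOf j f T) j C B : Set (Wk p k)))).1 e),
        hp.2⟩
    · rw [h.dd_eq hC hg hB]
      rfl

end Pool.Agent.P.MP_f1a348_lc.LS
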