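import Pool.Agent.P.MP_f1a348_lc.LS.DefsP
import Pool.Agent.P.MP_f1a348_lc.LS.TZPSI
import Pool.Agent.P.MP_f1a348_lc.LS.TZMU
import Pool.Agent.P.MP_f1a348_lc.LS.TZSYS

/-! Step ZSTEP. -/

set_option autoImplicit false
set_option linter.unusedSectionVars false

namespace Pool.Agent.P.MP_f1a348_lc.LS

open Module Submodule Pool.Agent.Lib.Helper47 Pool.Agent.P.MP_f1a348_lc.GI
open scoped Classical

variable {p k : ℕ} [Fact p.Prime] {f f' e e' : Vk p k → List Bool} {c : Cx} {i j m ρ N : ℕ}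
  {T T' : List (Set (Wk p k))} {l l' : List (Pin p (Wk p k))} {r : Pin p (Wk p k)}
  {φ : Iso p (Wk p k)} {v w x y : Wk p k} {A B U : Sub p (Wk p k)} {S S' : Set (Wk p k)}
  {C C' : Finset (Sub p (Wk p k))} {Cl : List (List Pt)} {σ : FS} {s : AS p k} {b b' : Bool}
  {g : Vk p k ≃ₗ[ZMod p] Vk p k} {tb tb' : Tb}

-- `mu_mono`, `mu_mv2`, `psi_mono`, `psi_mv3`, `mu_le` with `finer_cons`, `held_cons`; `4 ≤ j` is `hs.good.ar`
theorem step_move (hs : Fine j f s) (hr : Mv2 (sysL j f s.1) j s.2 r ∨ Mv3 (sysL j f s.1) j m s.2 r)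
    (hm : 1 ≤ m) (hg : Good (sysL j f (r :: s.1)) C') (hsub : s.2 ⊆ C') :
    Fine j f (r :: s.1, C') ∧ tau j f (r :: s.1, C') < tau j f s ∧
      wt j m f (r :: s.1, C') ≤ wt j m f s := by
  have h4 : 4 ≤ j := hs.good.ar
  have hf := finer_cons j f r s.1
  have hh := held_cons j f r s.1
  have hp : 1 ≤ p ^ j := Nat.pow_pos (Fact.out : p.Prime).pos
  have m1 := mu_mono hs.good hg hf hsub
  have m2 := (psi_mono hs.good hg hf hsub (show 1 ≤ j by omega)).1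
  have m3 := hg.chain.mu_le
  rw [finrank_Wk] at m3
  simp only [tau, wt, List.map_cons, List.prod_cons]
  rcases hr with hr | hr
  · have m4 := mu_mv2 hs.good hg hf hsub hr hh
    refine ⟨⟨hg, hsub hs.vv, pinok_mv2 hs.good hr j, hs.valid⟩, by omega, ?_⟩
    obtain ⟨A, -, -, -, -, hw⟩ := hr
    refine Nat.mul_le_mul ?_ (Nat.pow_le_pow_right hm m2)
    rw [hw, mul_comm (p ^ j), mul_assoc, ← pow_succ']
    exact Nat.mul_le_mul_left _ (Nat.pow_le_pow_right hp (by omega))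
  · have m4 := psi_mv3 hs.good hg hf hsub (show 2 ≤ j by omega) hr hh
    obtain ⟨B, -, -, -, -, hw, ho⟩ := hr
    refine ⟨⟨hg, hsub hs.vv, ho, hs.valid⟩, by omega, ?_⟩
    rw [hw, mul_assoc m, mul_comm m, mul_assoc _ m, ← pow_succ']
    exact Nat.mul_le_mul (Nat.mul_le_mul_left _ (Nat.pow_le_pow_right hp (by omega)))
      (Nat.pow_le_pow_right hm m4)

theorem step_pin (hs : Fine j f s) (hm : 1 ≤ m)
    (hg : Good (sysL j f ((⊥, v, p ^ k * p ^ k) :: s.1)) C') (hsub : s.2 ⊆ C') :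
    Fine j f ((⊥, v, p ^ k * p ^ k) :: s.1, C') ∧
      wt j m f ((⊥, v, p ^ k * p ^ k) :: s.1, C') ≤ p ^ k * p ^ k * wt j m f s := by
  have h4 : 4 ≤ j := hs.good.ar
  have hf := finer_cons j f (⊥, v, p ^ k * p ^ k) s.1
  have hp : 1 ≤ p ^ j := Nat.pow_pos (Fact.out : p.Prime).pos
  have m1 := mu_mono hs.good hg hf hsub
  have m2 := (psi_mono hs.good hg hf hsub (show 1 ≤ j by omega)).1
  have m3 := pinok_bot (sysL j f s.1) j v
  rw [card_Wk] at m3
  refine ⟨⟨hg, hsub hs.vv, m3, hs.valid⟩, ?_⟩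
  simp only [wt, List.map_cons, List.prod_cons, mul_assoc]
  exact Nat.mul_le_mul_left _ (Nat.mul_le_mul_left _ (Nat.mul_le_mul_left _ (Nat.mul_le_mul
    (Nat.pow_le_pow_right hp (by omega)) (Nat.pow_le_pow_right hm m2))))

theorem tau_le (hs : Fine j f s) : tau j f s ≤ 4 * k + 2 + 88 * k ^ 3 := by
  have h4 : 4 ≤ j := hs.good.ar
  have h := hs.good.psi_le (show 1 ≤ j by omega) (Nat.div_le_self _ _)
  rw [finrank_Wk] at h
  have e : 11 * (2 * k) ^ 2 * (2 * k) = 88 * k ^ 3 := by ring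
  unfold tau
  omega

theorem cost_le_wt (hm : 1 ≤ m) (s : AS p k) : (s.1.map (fun r => r.2.2)).prod ≤ wt j m f s := by
  exact (Nat.le_mul_of_pos_right _ (Nat.pow_pos (Nat.pow_pos (Fact.out : p.Prime).pos))).trans
    (Nat.le_mul_of_pos_right _ (Nat.pow_pos hm))

theorem wt_nil (hg : Good (sysL j f []) C) (hm : 1 ≤ m) (hρ : 2 * k / j ≤ ρ) :
    wt j m f ([], C) ≤ (p ^ j) ^ (4 * k + 2) * m ^ (22 * ρ ^ 2 * k) := by
  have h4 : 4 ≤ j := hg.ar
  have h := hg.psi_le (ρ := ρ) (show 1 ≤ j by omega) (by rwa [finrank_Wk])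
  rw [finrank_Wk] at h
  simp only [wt, List.map_nil, List.prod_nil, one_mul]
  refine Nat.mul_le_mul (Nat.pow_le_pow_right (Nat.pow_pos (Fact.out : p.Prime).pos)
    (Nat.sub_le _ _)) (Nat.pow_le_pow_right hm (h.trans_eq (by ring)))

theorem Ext.refl (s : AS p k) : Ext s s := by
  exact ⟨List.suffix_refl _, Finset.Subset.refl _⟩

theorem Ext.trans {s' s'' : AS p k} (h : Ext s s') (h' : Ext s' s'') : Ext s s'' := by
  exact ⟨h.1.trans h'.1, Finset.Subset.trans h.2 h'.2⟩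

end Pool.Agent.P.MP_f1a348_lc.LS
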