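import Pool.Agent.P.MP_f1a348_lc.LS.DefsP
import Pool.Agent.P.MP_f1a348_lc.LS.TZCLO
import Pool.Agent.P.MP_f1a348_lc.LS.TZMV
import Pool.Agent.P.MP_f1a348_lc.LS.TZSTEP

/-! Step ZRUN. -/

set_option autoImplicit false
set_option linter.unusedSectionVars false

namespace Pool.Agent.P.MP_f1a348_lc.LS

open Module Submodule Pool.Agent.Lib.Helper47 Pool.Agent.P.MP_f1a348_lc.GI
open scoped Classical

variable {p k : ℕ} [Fact p.Prime] {f f' e e' : Vk p k → List Bool} {c : Cx} {i j m ρ N : ℕ}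
  {T T' : List (Set (Wk p k))} {l l' : List (Pin p (Wk p k))} {r : Pin p (Wk p k)}
  {φ : Iso p (Wk p k)} {v w x y : Wk p k} {A B U : Sub p (Wk p k)} {S S' : Set (Wk p k)}
  {C C' : Finset (Sub p (Wk p k))} {Cl : List (List Pt)} {σ : FS} {s : AS p k} {b b' : Bool}
  {g : Vk p k ≃ₗ[ZMod p] Vk p k} {tb tb' : Tb}

theorem Mod.doPin_spec (h : Mod c j f f') (hσ : Rep c σ s) (hs : Fine j f s) (r : Pin p (Wk p k)) :
    ∃ C', Rep c (c.doPin σ (pn c r)) (r :: s.1, C') ∧ Good (sysL j f (r :: s.1)) C' ∧ s.2 ⊆ C' := by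
  obtain ⟨C', a1, a2, a3⟩ := h.close_spec (T := marks (r :: s.1)) hσ.2
    ((finer_cons j f r s.1).chain hs.good.chain) hs.vv
  have e : pn c r :: σ.1 = (r :: s.1).map (pn c) := by rw [hσ.1]; rfl
  refine ⟨C', ⟨e, ?_⟩, a2, a3⟩
  change RepC c (c.close (c.mks (pn c r :: σ.1)) σ.2) C'
  rwa [e, h.mks_eq]

namespace ZRUNx

theorem iter (h : Mod c j f f') (hm : 1 ≤ c.m) (n : ℕ) : ∀ (σ : FS) (s : AS p k), Rep c σ s →
    Fine j f s → tau j f s ≤ n →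
    ∃ s', Rep c (c.stp^[n] σ) s' ∧ Fine j f s' ∧ Stuck (sysL j f s'.1) j c.m s'.2 ∧ Ext s s' ∧
      wt j c.m f s' ≤ wt j c.m f s := by
  have key : ∀ (σ : FS) (s : AS p k), Rep c σ s → Fine j f s →
      (c.stp σ = σ ∧ Stuck (sysL j f s.1) j c.m s.2) ∨ ∃ s', Rep c (c.stp σ) s' ∧ Fine j f s' ∧
        tau j f s' < tau j f s ∧ Ext s s' ∧ wt j c.m f s' ≤ wt j c.m f s := by
    intro σ s hσ hs
    have e : c.mks σ.1 = (marks s.1).map (fl c) := by rw [hσ.1, h.mks_eq]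
    have hmem : ∀ z, z ∈ c.mv2 (c.mks σ.1) σ.2 ++ c.mv3 (c.mks σ.1) σ.2 ↔ ∃ r,
        (Mv2 (sysL j f s.1) j s.2 r ∨ Mv3 (sysL j f s.1) j c.m s.2 r) ∧ z = pn c r := by
      intro z
      rw [List.mem_append, e, h.mem_mv2 hσ.2, h.mem_mv3 hσ.2 hs.good]
      constructor
      · rintro (⟨r, a, b⟩ | ⟨r, a, b⟩)
        exacts [⟨r, .inl a, b⟩, ⟨r, .inr a, b⟩]
      · rintro ⟨r, a | a, b⟩
        exacts [.inl ⟨r, a, b⟩, .inr ⟨r, a, b⟩]
    unfold Cx.stp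
    generalize c.mv2 (c.mks σ.1) σ.2 ++ c.mv3 (c.mks σ.1) σ.2 = L at hmem
    cases L with
    | nil =>
      exact .inl ⟨rfl, fun r => ⟨fun a => List.not_mem_nil ((hmem _).2 ⟨r, .inl a, rfl⟩),
        fun a => List.not_mem_nil ((hmem _).2 ⟨r, .inr a, rfl⟩)⟩⟩
    | cons z L =>
      obtain ⟨r, a, rfl⟩ := (hmem z).1 List.mem_cons_self
      obtain ⟨C', b1, b2, b3⟩ := h.doPin_spec hσ hs r
      obtain ⟨c1, c2, c3⟩ := step_move hs a hm b2 b3
      exact .inr ⟨(r :: s.1, C'), b1, c1, c2, ⟨List.suffix_cons _ _, b3⟩, c3⟩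
  induction n with
  | zero =>
    intro σ s hσ hs hn
    rcases key σ s hσ hs with ⟨-, a⟩ | ⟨s', -, -, a, -⟩
    · exact ⟨s, hσ, hs, a, Ext.refl s, le_rfl⟩
    · omega
  | succ n ih =>
    intro σ s hσ hs hn
    rcases key σ s hσ hs with ⟨e, a⟩ | ⟨s', a1, a2, a3, a4, a5⟩
    · rw [Function.iterate_fixed e]
      exact ⟨s, hσ, hs, a, Ext.refl s, le_rfl⟩
    · obtain ⟨s'', b1, b2, b3, b4, b5⟩ := ih _ s' a1 a2 (by omega)
      exact ⟨s'', b1, b2, b3, a4.trans b4, b5.trans a5⟩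

end ZRUNx

-- induction on the number `n` of rounds for `tau j f s ≤ n`; a stuck state is a fixed point; `tau_le`, `pad_ge`
theorem Mod.settle_spec (h : Mod c j f f') (hm : 1 ≤ c.m) (hσ : Rep c σ s) (hs : Fine j f s) :
    ∃ s', Rep c (c.settle σ) s' ∧ Fine j f s' ∧ Stuck (sysL j f s'.1) j c.m s'.2 ∧ Ext s s' ∧
      wt j c.m f s' ≤ wt j c.m f s := by
  exact ZRUNx.iter h hm _ σ s hσ hs ((tau_le hs).trans (by have := h.pad_ge; omega))

theorem Mod.init_spec (h : Mod c j f f') (hm : 1 ≤ c.m) :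
    ∃ s, Rep c c.init s ∧ Fine j f s ∧ Stuck (sysL j f s.1) j c.m s.2 ∧
      ∀ ρ, 2 * k / j ≤ ρ → wt j c.m f s ≤ (p ^ j) ^ (4 * k + 2) * c.m ^ (22 * ρ ^ 2 * k) := by
  have hC : RepC c [c.prp c.pts, c.pts.filter (fun w => w.2 == c.zv), c.pts]
      ({⊥, VV p k, ⊤} : Finset (Sub p (Wk p k))) := by
    intro z
    rw [h.fl_bot, h.fl_VV]
    conv_lhs => rw [h.fl_top]
    simp
  obtain ⟨C', a1, a2, a3⟩ := h.close_spec (T := []) hC (chain_init j f []) (by simp)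
  have hs : Fine j f (([], C') : AS p k) := ⟨a2, a3 (by simp), trivial⟩
  obtain ⟨s', b1, b2, b3, -, b5⟩ := h.settle_spec hm (σ := ([], c.close []
    [c.prp c.pts, c.pts.filter (fun w => w.2 == c.zv), c.pts])) (s := ([], C')) ⟨rfl, a1⟩ hs
  exact ⟨s', b1, b2, b3, fun ρ hρ => b5.trans (wt_nil a2 hm hρ)⟩

theorem Mod.run_spec (h : Mod c j f f') (hm : 1 ≤ c.m) (y : List (Wk p k)) (hσ : Rep c σ s)
    (hs : Fine j f s) (hst : Stuck (sysL j f s.1) j c.m s.2) :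
    ∃ s', Rep c (c.run σ (y.map cd)) s' ∧ Fine j f s' ∧ Stuck (sysL j f s'.1) j c.m s'.2 ∧
      Ext s s' ∧ (∀ v ∈ y, Held (sysL j f s'.1) ⊥ v) ∧
      wt j c.m f s' ≤ (p ^ k * p ^ k) ^ y.length * wt j c.m f s := by
  induction y generalizing σ s with
  | nil => exact ⟨s, hσ, hs, hst, Ext.refl s, fun v hv => (List.not_mem_nil hv).elim, by simp⟩
  | cons v y ih =>
    have e : ((c.prp c.pts, cd v, c.pts.length) : Pn) =
        pn c ((⊥, v, p ^ k * p ^ k) : Pin p (Wk p k)) := by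
      rw [h.fl_bot, h.length_pts]; rfl
    obtain ⟨C', a1, a2, a3⟩ := h.doPin_spec hσ hs (⊥, v, p ^ k * p ^ k)
    obtain ⟨b1, b2⟩ := step_pin hs hm a2 a3
    obtain ⟨s₁, c1, c2, c3, c4, c5⟩ := h.settle_spec hm a1 b1
    obtain ⟨s₂, d1, d2, d3, d4, d5, d6⟩ := ih c1 c2 c3
    refine ⟨s₂, ?_, d2, d3,
      Ext.trans (s' := ((⊥, v, p ^ k * p ^ k) :: s.1, C')) ⟨List.suffix_cons _ _, a3⟩
        (c4.trans d4), fun w hw => ?_, ?_⟩
    · change Rep c (c.run (c.settle (c.doPin σ (c.prp c.pts, cd v, c.pts.length))) (y.map cd)) s₂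
      rwa [e]
    · rcases List.mem_cons.1 hw with rfl | hw
      · exact (finer_suffix (c4.trans d4).1).held (held_cons j f (⊥, w, p ^ k * p ^ k) s.1)
      · exact d5 w hw
    · rw [List.length_cons, pow_succ, mul_assoc]
      exact d6.trans (Nat.mul_le_mul_left _ (c5.trans b2))

end Pool.Agent.P.MP_f1a348_lc.LS
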