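import Pool.Agent.P.MP_f1a348_lc.LS.DefsP
import Pool.Agent.P.MP_f1a348_lc.LS.TZRUN
import Pool.Agent.P.MP_f1a348_lc.LS.TZA3

/-! Step ZWIN. -/

set_option autoImplicit false
set_option linter.unusedSectionVars false

namespace Pool.Agent.P.MP_f1a348_lc.LS

open Module Submodule Pool.Agent.Lib.Helper47 Pool.Agent.P.MP_f1a348_lc.GI
open scoped Classical

variable {p k : ℕ} [Fact p.Prime] {f f' e e' : Vk p k → List Bool} {c : Cx} {i j m ρ N : ℕ}
  {T T' : List (Set (Wk p k))} {l l' : List (Pin p (Wk p k))} {r : Pin p (Wk p k)}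
  {φ : Iso p (Wk p k)} {v w x y : Wk p k} {A B U : Sub p (Wk p k)} {S S' : Set (Wk p k)}
  {C C' : Finset (Sub p (Wk p k))} {Cl : List (List Pt)} {σ : FS} {s : AS p k} {b b' : Bool}
  {g : Vk p k ≃ₗ[ZMod p] Vk p k} {tb tb' : Tb}

theorem win (hc : CORE) (E : ℕ) : ∃ j0 c0 : ℕ, 44 * E ^ 2 * j0 ≤ c0 ∧ j0 ≤ c0 ∧
    ∀ (p k : ℕ) [Fact p.Prime] (f f' : Vk p k → List Bool) (c : Cx) (j : ℕ), Mod c j f f' →
      p ≤ 2 ^ E → k ≤ E * j → c0 ≤ j → c.m = p ^ j0 →
      ∃ y ∈ c.tu, c.gia (c.run c.init y).2 = [] := by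
  obtain ⟨j0, h0⟩ := a3 hc (2 ^ E) (11 * (2 * E) ^ 3) (2 * E)
  refine ⟨j0, 44 * E ^ 2 * j0 + (11 * (2 * E) ^ 3 + 1) * j0 + 2 * j0 + 2, by omega, by omega,
    fun p k _ f f' c j h hp hk hj hm => ?_⟩
  have hm1 : 1 ≤ c.m := hm ▸ Nat.pow_pos (Fact.out : p.Prime).pos
  have h4 := h.four
  have hE : 1 ≤ E := by
    have := h.inp.kpos
    rcases E with _ | E
    · omega
    · omega
  have hK : 1 ≤ 11 * (2 * E) ^ 3 := Nat.mul_pos (by omega) (Nat.pow_pos (by omega))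
  have hρ : finrank (ZMod p) (Wk p k) / j ≤ 2 * E := by
    rw [finrank_Wk]
    exact Nat.div_le_of_le_mul (by nlinarith)
  have hψ : ∀ s : AS p k, Fine j f s → psi (sysL j f s.1) j s.2 ≤ 11 * (2 * E) ^ 3 * j :=
    fun s hs => (hs.good.psi_le (by omega) hρ).trans (by
      rw [finrank_Wk]
      calc 11 * (2 * E) ^ 2 * (2 * k) ≤ 11 * (2 * E) ^ 2 * (2 * (E * j)) := by gcongr
        _ = _ := by ring)
  generalize 11 * (2 * E) ^ 3 = K at *
  have key : ∀ t (σ : FS) (s : AS p k), Rep c σ s → Fine j f s →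
      Stuck (sysL j f s.1) j c.m s.2 → psi (sysL j f s.1) j s.2 ≤ K * t →
      ∃ y : List (Wk p k), y.length = t ∧ c.gia (c.run σ (y.map cd)).2 = [] := by
    intro t
    induction t using Nat.strong_induction_on with
    | _ t ih =>
      intro σ s hσ hs hst ht
      by_cases hg : gi j s.2 = ∅
      · obtain ⟨s', a1, a2, -, a4, -⟩ := h.run_spec hm1 (List.replicate t 0) hσ hs hst
        refine ⟨List.replicate t 0, List.length_replicate, (h.gia_nil a1.2).2 ?_⟩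
        refine Finset.eq_empty_of_forall_notMem fun B hB => ?_
        obtain ⟨B0, h1, -⟩ := hs.good.chain.gi_parent a2.good.chain a4.2 hB
        exact Finset.notMem_empty _ (hg ▸ h1)
      · have h1 := mt (h0 p hp (Wk p k) (sysL j f s.1) s.2 j hs.good (show _ ≤ j by omega)
          (by omega) hρ (hm ▸ hst)) hg
        push Not at h1
        obtain ⟨y, y1, y2, y3⟩ := h1
        obtain ⟨s', a1, a2, a3, a4, a5, -⟩ := h.run_spec hm1 y hσ hs hst
        have h2 := y3 _ _ a2.good (finer_suffix a4.1) a4.2 a5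
        have h3 : 1 ≤ y.length := List.length_pos_iff.2 y1
        have h5 : y.length ≤ t := Nat.le_of_mul_le_mul_left (by omega : K * _ ≤ K * t) hK
        obtain ⟨z, z1, z2⟩ := ih (t - y.length) (by omega) _ s' a1 a2 a3
          (by rw [Nat.mul_sub]; omega)
        refine ⟨y ++ z, by rw [List.length_append]; omega, ?_⟩
        rwa [List.map_append, Cx.run, List.foldl_append]
  obtain ⟨s, a1, a2, a3, -⟩ := h.init_spec hm1
  obtain ⟨y, y1, y2⟩ := key j _ s a1 a2 a3 (hψ s a2)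
  exact ⟨y.map cd, h.mem_tu.2 ⟨y, y1, rfl⟩, y2⟩

end Pool.Agent.P.MP_f1a348_lc.LS
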