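import Pool.Agent.P.MP_f1a348_lc.LS.DefsP
import Pool.Agent.P.MP_f1a348_lc.LS.TZWIN
import Pool.Agent.P.MP_f1a348_lc.LS.TZREP
import Pool.Agent.P.MP_f1a348_lc.LS.TZES
import Pool.Agent.P.MP_f1a348_lc.LS.TZLEAF
import Pool.Agent.P.MP_f1a348_lc.LS.TZPT

/-! Step ZMAIN. -/

set_option autoImplicit false
set_option linter.unusedSectionVars false

namespace Pool.Agent.P.MP_f1a348_lc.LS

open Module Submodule Pool.Agent.Lib.Helper47 Pool.Agent.P.MP_f1a348_lc.GI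
open scoped Classical

variable {p k : ℕ} [Fact p.Prime] {f f' e e' : Vk p k → List Bool} {c : Cx} {i j m ρ N : ℕ}
  {T T' : List (Set (Wk p k))} {l l' : List (Pin p (Wk p k))} {r : Pin p (Wk p k)}
  {φ : Iso p (Wk p k)} {v w x y : Wk p k} {A B U : Sub p (Wk p k)} {S S' : Set (Wk p k)}
  {C C' : Finset (Sub p (Wk p k))} {Cl : List (List Pt)} {σ : FS} {s : AS p k} {b b' : Bool}
  {g : Vk p k ≃ₗ[ZMod p] Vk p k} {tb tb' : Tb}

namespace ZMAINx

theorem terminal (h : Mod c j f f') (hm : 1 ≤ c.m) {z : List Pt} (hz : z ∈ c.tu)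
    (hg : c.gia (c.run c.init z).2 = []) : ∃ s, Rep c (c.run c.init z) s ∧ Fine j f s ∧
      (∀ B A, Layer s.2 B A → (sysL j f s.1).Pinned B A) ∧ ∀ ρ, 2 * k / j ≤ ρ →
        wt j c.m f s ≤ (p ^ k * p ^ k) ^ j * ((p ^ j) ^ (4 * k + 2) * c.m ^ (22 * ρ ^ 2 * k)) := by
  obtain ⟨u, hu, rfl⟩ := h.mem_tu.1 hz
  obtain ⟨s0, a1, a2, a3, a4⟩ := h.init_spec hm
  obtain ⟨s, b1, b2, b3, -, -, b4⟩ := h.run_spec hm u a1 a2 a3
  refine ⟨s, b1, b2, fun B A hl => (b3.pinned hl).resolve_left fun hG => ?_, fun ρ hρ =>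
    b4.trans (by rw [hu]; exact Nat.mul_le_mul_left _ (a4 ρ hρ))⟩
  exact Finset.notMem_empty _ ((h.gia_nil b1.2).1 hg ▸ hG.mem_gi)

theorem sound1 (h : Mod c j f f') (hm : 1 ≤ c.m) (hb : c.mn1 = some b) :
    b = true ↔ LIso f f' := by
  obtain ⟨z, h1, h2⟩ := Option.bind_eq_some_iff.1 hb
  obtain ⟨s, a1, a2, a3, -⟩ := terminal h hm (List.mem_of_find?_eq_some h1)
    (List.isEmpty_iff.1 (List.find?_some h1 :))
  obtain ⟨E, e1, e2⟩ := h.es_spec a1.2 a2.good a2.vv a3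
  obtain ⟨Fr, h3, rfl⟩ := Option.map_eq_some_iff.1 h2
  rw [e1, List.any_eq_true]
  refine ⟨fun ⟨X, _, hX⟩ => h.leaf_sound e2 _ X hX, fun hi => ?_⟩
  rw [a1.1] at h3 ⊢
  obtain ⟨T', φ, c1, c2⟩ := h.rep_spec a2.valid hi h3
  exact ⟨_, c1, h.mks_eq s.1 ▸ h.leaf_complete e2 c2⟩

theorem halts1 (h : Mod c j f f') (hm : 1 ≤ c.m) (hz : ∃ z ∈ c.tu, c.gia (c.run c.init z).2 = [])
    (hρ : 2 * k / j ≤ ρ) (hw : c.m ^ (22 * ρ ^ 2 * k) ≤ (p ^ k * p ^ k) ^ j)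
    (hp : (p ^ k * p ^ k + p ^ j + 2) ^ (8 * (j + 1)) ≤ c.pad.length) : c.mn1 ≠ none := by
  obtain ⟨z0, z1, z2⟩ := hz
  cases e : c.tu.find? (fun y => (c.gia (c.run c.init y).2).isEmpty) with
  | none => exact absurd (List.isEmpty_iff.2 z2) (List.find?_eq_none.1 e z0 z1)
  | some z =>
    obtain ⟨s, a1, a2, -, a4⟩ := terminal h hm (List.mem_of_find?_eq_some e)
      (List.isEmpty_iff.1 (List.find?_some e :))
    rw [Cx.mn1, e, Option.bind_some, Cx.fin, a1.1, ne_eq, Option.map_eq_none_iff]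
    refine rep_halts a2.valid ((cost_le_wt (j := j) (f := f) hm s).trans ((a4 ρ hρ).trans
      (le_trans ?_ hp)))
    have h1 : (p ^ j) ^ (4 * k + 2) ≤ (p ^ k * p ^ k) ^ (3 * j) := by
      rw [← pow_add, ← pow_mul, ← pow_mul]
      have := h.inp.kpos
      exact Nat.pow_le_pow_right (Fact.out : p.Prime).pos (by nlinarith)
    calc _ ≤ (p ^ k * p ^ k) ^ j * ((p ^ k * p ^ k) ^ (3 * j) * (p ^ k * p ^ k) ^ j) := by gcongr
      _ = (p ^ k * p ^ k) ^ (5 * j) := by ring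
      _ ≤ (p ^ k * p ^ k + p ^ j + 2) ^ (5 * j) := Nat.pow_le_pow_left (by omega) _
      _ ≤ _ := Nat.pow_le_pow_right (by omega) (by omega)

end ZMAINx

open ZMAINx in
theorem mspec (hc : CORE) : MSpec mn := by
  refine ⟨pt_mn, fun p k _ f f' pad lev q b hq h4 hp hb => ?_, fun E => ?_⟩
  · obtain ⟨i, -, hi⟩ := List.mem_filterMap.1 (List.mem_of_mem_head? (Option.mem_def.2 hb))
    refine sound1 (j := lev.length) ?_ (Nat.pow_pos ?_) hi
    · exact ⟨hq, rfl, h4, hp⟩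
    rw [hq.rp, List.length_range]
    exact (Fact.out : p.Prime).pos
  · obtain ⟨j0, c0, w1, w2, hw⟩ := win hc E
    refine ⟨c0, fun p k _ f f' pad lev q hq h4 hk hp => ?_⟩
    have hq1 : q.1.length = p := by rw [hq.rp, List.length_range]
    have hpp := (Fact.out : p.Prime).pos
    have hmod : ∀ m, Mod ((pad, lev, m, q) : Cx) lev.length f f' := fun m =>
      ⟨hq, rfl, h4, (Nat.pow_le_pow_right (by omega) (by omega)).trans hp⟩
    suffices ∃ i, i ≤ lev.length ∧ Cx.mn1 (pad, lev, p ^ i, q) ≠ none by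
      obtain ⟨i, hi, h1⟩ := this
      obtain ⟨b, hb⟩ := Option.ne_none_iff_exists'.1 h1
      rw [mn, ← Option.isSome_iff_ne_none, List.isSome_head?]
      refine List.ne_nil_of_mem (a := b) (List.mem_filterMap.2 ⟨i, List.mem_range.2
        (Nat.lt_succ_of_le hi), ?_⟩)
      rwa [hq1, List.length_take, min_eq_left hi]
    rcases hk with hk | ⟨k1, k2, k3⟩
    · have h := hmod (p ^ 0)
      have hm : 1 ≤ Cx.m (pad, lev, p ^ 0, q) := Nat.pow_pos hpp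
      refine ⟨0, Nat.zero_le _, halts1 h hm ?_ le_rfl ?_ hp⟩
      · obtain ⟨s0, a1, a2, a3, -⟩ := h.init_spec hm
        obtain ⟨s, b1, b2, -⟩ := h.run_spec hm (List.replicate lev.length 0) a1 a2 a3
        exact ⟨_, h.mem_tu.2 ⟨_, List.length_replicate, rfl⟩,
          (h.gia_nil b1.2).2 (gi_empty b2.good.chain b2.vv hk)⟩
      · change (p ^ 0) ^ _ ≤ _
        rw [pow_zero, one_pow]
        exact Nat.pow_pos (Nat.mul_pos (Nat.pow_pos hpp) (Nat.pow_pos hpp))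
    · have h := hmod (p ^ j0)
      refine ⟨j0, w2.trans k3, halts1 (ρ := 2 * E) h (Nat.pow_pos hpp)
        (hw p k f f' _ _ h k1 k2 k3 rfl) (Nat.div_le_of_le_mul (by nlinarith)) ?_ hp⟩
      change (p ^ j0) ^ _ ≤ _
      rw [← pow_add, ← pow_mul, ← pow_mul]
      refine Nat.pow_le_pow_right hpp ?_
      calc j0 * (22 * (2 * E) ^ 2 * k) = (k + k) * (44 * E ^ 2 * j0) := by ring
        _ ≤ _ := Nat.mul_le_mul_left _ (w1.trans k3)

end Pool.Agent.P.MP_f1a348_lc.LS
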