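import Pool.Agent.P.MP_f1a348_lc.LS.TBRR
import Pool.Agent.P.MP_f1a348_lc.LS.TZMAIN
import Pool.Agent.P.MP_f1a348_lc.LS.TWFIN

/-! Linear string isomorphism: the assembly. -/

set_option autoImplicit false

namespace Pool.Agent.P.MP_f1a348_lc.LS

theorem final : FINAL := final_of_spec (mspec core)

theorem gfinal : GFINAL := gfinal_of_spec (mspec core)

end Pool.Agent.P.MP_f1a348_lc.LS
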