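import Mathlib

/-! Linear string isomorphism: systems of local automorphisms, classes, geometries, chains. -/

set_option autoImplicit false
set_option linter.unusedSectionVars false

namespace Pool.Agent.P.MP_f1a348_lc.LS

open Module Submodule

/-- subspaces -/
abbrev Sub (p : ℕ) (W : Type) [AddCommGroup W] [Module (ZMod p) W] := Submodule (ZMod p) W
/-- linear bijections -/
abbrev Iso (p : ℕ) (W : Type) [AddCommGroup W] [Module (ZMod p) W] := W ≃ₗ[ZMod p] W
/-- a parameter: the coset `c.2 + c.1` -/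
abbrev Pm (p : ℕ) (W : Type) [AddCommGroup W] [Module (ZMod p) W] := Sub p W × W

/-- A system of local automorphisms of arity `M`: `L U φ` says that `φ` is a local automorphism
on the subspace `U`. Local automorphisms preserve the form `β`. -/
structure Sys (p : ℕ) [Fact p.Prime] (W : Type) [AddCommGroup W] [Module (ZMod p) W] where
  M : ℕ
  L : Sub p W → Iso p W → Prop
  β : LinearMap.BilinForm (ZMod p) W
  symm : ∀ u v, β u v = β v u
  nd : β.Nondegenerate
  loc : ∀ {U U' φ φ'}, L U φ → U' ≤ U → (∀ x ∈ U', φ' x = φ x) → L U' φ'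
  one : ∀ U, L U 1
  inv : ∀ {U U' φ}, L U φ → (∀ x ∈ U', φ⁻¹ x ∈ U) → L U' φ⁻¹
  mul : ∀ {U U' φ ψ}, L U φ → L U' ψ → (∀ x ∈ U, φ x ∈ U') → L U (ψ * φ)
  ext : ∀ {U φ}, L U φ → finrank (ZMod p) U < M → ∃ b : W ≃ W, ∀ w, ∃ φ',
    L (U ⊔ span (ZMod p) {w}) φ' ∧ (∀ x ∈ U, φ' x = φ x) ∧ φ' w = b w
  pres : ∀ {U φ u v}, L U φ → u ∈ U → v ∈ U → β (φ u) (φ v) = β u v

variable {p : ℕ} [Fact p.Prime] {W : Type} [AddCommGroup W] [Module (ZMod p) W] [Fintype W]

/-- the span of the representatives of the parameters -/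
def sp (P : List (Pm p W)) : Sub p W := span (ZMod p) {x | ∃ c ∈ P, c.2 = x}

/-- `φ` moves the cosets `P` to the cosets `P'` -/
def Mv (φ : Iso p W) (P P' : List (Pm p W)) : Prop :=
  List.Forall₂ (fun c c' => c'.1 = c.1 ∧ φ c.2 - c'.2 ∈ c.1) P P'

/-- `φ` fixes the cosets `P` -/
def Fx (φ : Iso p W) (P : List (Pm p W)) : Prop := ∀ c ∈ P, φ c.2 - c.2 ∈ c.1

/-- the list of the cosets `x + B`, `x ∈ l` -/
def pins (B : Sub p W) (l : List W) : List (Pm p W) := l.map fun x => (B, x)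

/-- the number of elements of a subspace -/
noncomputable def nc (U : Sub p W) : ℕ := (U : Set W).ncard

namespace Sys
variable (Γ : Sys p W)

/-- the orthogonal complement -/
abbrev perp (U : Sub p W) : Sub p W := Γ.β.orthogonal U
/-- the two lists of cosets have the same type -/
def Sim (P P' : List (Pm p W)) : Prop := ∃ φ, Γ.L (sp P) φ ∧ Mv φ P P'
/-- the class of the coset `x + B` over the parameters `P` (a union of cosets of `B`) -/
def cls (P : List (Pm p W)) (B : Sub p W) (x : W) : Set W :=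
  {y | Γ.Sim ((B, x) :: P) ((B, y) :: P)}
/-- the set `S` is closed under the local automorphisms that fix `P` -/
def Inv (P : List (Pm p W)) (S : Set W) : Prop := ∀ x ∈ S, Γ.cls P ⊥ x ⊆ S
/-- the subspace `U` is closed under all local automorphisms -/
def Def (U : Sub p W) : Prop := Γ.Inv [] U
/-- at most `n` parameters, all moduli closed under local automorphisms -/
def Ok (n : ℕ) (P : List (Pm p W)) : Prop := P.length ≤ n ∧ ∀ c ∈ P, Γ.Def c.1
/-- `a` is a local automorphism on every line -/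
def Aut (a : Iso p W) : Prop := ∀ w, Γ.L (span (ZMod p) {w}) a
/-- the points reached from `x` by an automorphism of rank at most `j`, modulo `D` -/
def Nb (j : ℕ) (D : Sub p W) (x : W) : Set W :=
  {w | ∃ a : Iso p W, Γ.Aut a ∧
    finrank (ZMod p) (LinearMap.range ((a : W →ₗ[ZMod p] W) - LinearMap.id)) ≤ j ∧ w - a x ∈ D}
/-- local automorphisms act trivially on `A / B` -/
def Pinned (B A : Sub p W) : Prop := ∀ x ∈ A, ∀ y ∈ Γ.cls [] B x, y - x ∈ B

end Sys

/-- A geometry: sorts `s` with `lo s ≤ hi s`; over at most `j` parameters the elements with a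
small class form the subspace `Lam s P`, all other classes have about the size `N s`. -/
structure Geo (Γ : Sys p W) (ι : Type) where
  lo : ι → Sub p W
  hi : ι → Sub p W
  cand : ι → Set W
  N : ι → ℕ
  K : ℕ
  C : ℕ
  j : ℕ
  Lam : ι → List (Pm p W) → Sub p W
  hC : 1 ≤ C
  hM : 8 * j + 8 ≤ Γ.M
  dlo : ∀ s, Γ.Def (lo s)
  dhi : ∀ s, Γ.Def (hi s)
  cand_hi : ∀ s, cand s ⊆ hi s
  cand_cls : ∀ s, ∀ x ∈ cand s, Γ.cls [] (lo s) x ⊆ cand s
  cand_card : ∀ s, (cand s).ncard = N s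
  lo_le : ∀ s P, Γ.Ok j P → lo s ≤ Lam s P
  le_hi : ∀ s P, Γ.Ok j P → Lam s P ≤ hi s
  inv : ∀ s P, Γ.Ok j P → Γ.Inv P (Lam s P)
  dim : ∀ s P, Γ.Ok j P → finrank (ZMod p) (Lam s P) ≤ finrank (ZMod p) (lo s) + K * P.length
  big : ∀ s P, Γ.Ok j P → ∀ x ∈ hi s, x ∉ Lam s P →
    N s ≤ p ^ (K * P.length + C) * (Γ.cls P (lo s) x).ncard
  gap : ∀ s, (p ^ (K * j + C)) ^ 64 * nc (lo s) < N s

namespace Geo
variable {Γ : Sys p W} {ι : Type} [Fintype ι] (G : Geo Γ ι)

/-- the error factor -/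
def Q : ℕ := p ^ (G.K * G.j + G.C)
/-- the total dimension of the small parts -/
noncomputable def tot (P : List (Pm p W)) : ℕ := ∑ s, finrank (ZMod p) (G.Lam s P)
/-- the largest total dimension after one more generic pin in the sort `s` -/
noncomputable def top (s : ι) (P : List (Pm p W)) : ℕ :=
  sSup {n | ∃ a ∈ G.cand s, a ∉ G.Lam s P ∧ n = G.tot ((G.lo s, a) :: P)}
/-- the largest increase of the total dimension -/
noncomputable def kap (s : ι) (P : List (Pm p W)) : ℕ := G.top s P - G.tot P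
/-- `a` is a generic candidate over `P` with the largest increase -/
def Tight (s : ι) (P : List (Pm p W)) (a : W) : Prop :=
  a ∈ G.cand s ∧ a ∉ G.Lam s P ∧ G.tot ((G.lo s, a) :: P) = G.tot P + G.kap s P
/-- the largest increases do not change over extensions of `b` of length at most `R` -/
def Stable (b : List (Pm p W)) (R : ℕ) : Prop :=
  ∀ P, Γ.Ok R P → b ⊆ P → ∀ s, G.kap s P = G.kap s b
/-- the elements of `l` (sort `s`, read from the end) are successively outside the small part -/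
def Ind (s : ι) (P : List (Pm p W)) : List W → Prop
  | [] => True
  | a :: l => a ∉ G.Lam s (pins (G.lo s) l ++ P) ∧ Ind s P l

end Geo

/-- a finite chain of closed subspaces, closed under the orthogonal complement -/
structure Chain (Γ : Sys p W) (C : Finset (Sub p W)) : Prop where
  bot : ⊥ ∈ C
  top : ⊤ ∈ C
  tot : ∀ A ∈ C, ∀ B ∈ C, A ≤ B ∨ B ≤ A
  perp : ∀ A ∈ C, Γ.perp A ∈ C
  df : ∀ A ∈ C, Γ.Def A

/-- consecutive members of the chain -/
def Layer (C : Finset (Sub p W)) (B A : Sub p W) : Prop :=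
  B ∈ C ∧ A ∈ C ∧ B < A ∧ ∀ U ∈ C, B < U → A ≤ U

/-- a layer of dimension at least `g` -/
def Giant (g : ℕ) (C : Finset (Sub p W)) (B A : Sub p W) : Prop :=
  Layer C B A ∧ finrank (ZMod p) B + g ≤ finrank (ZMod p) A

/-- A dense geometry: the sorts are layers of a chain, all other layers are pinned, and all
classes outside the small part are dense in the layer. -/
structure Den (Γ : Sys p W) (ι : Type) extends Geo Γ ι where
  ch : Finset (Sub p W)
  chain : Chain Γ ch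
  lay : ∀ s, Layer ch (lo s) (hi s)
  inj : ∀ s t, lo s = lo t → s = t
  pin : ∀ B A, Layer ch B A → (∃ s, lo s = B ∧ hi s = A) ∨
    (Γ.Pinned B A ∧ finrank (ZMod p) A ≤ finrank (ZMod p) B + 1)
  star : ι → ι
  lo_star : ∀ s, lo (star s) = Γ.perp (hi s)
  hi_star : ∀ s, hi (star s) = Γ.perp (lo s)
  cand_eq : ∀ s, cand s = hi s

/-- Saturation at the giant layer `(B, A)`, for the sort `(D, T)` and the height `h`. -/
structure Sat (Γ : Sys p W) (K j : ℕ) (B A D T : Sub p W) (h : ℕ) : Prop where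
  dD : Γ.Def D
  dT : Γ.Def T
  AT : A ≤ T
  DT : D ≤ T
  DA : D ⊓ A = B
  hh : j ≤ h
  min : ∃ v ∈ T, v ∉ D ∧ (Γ.cls [] D v).ncard ≤ p ^ (h + 1) * nc D
  sat : ∀ P, Γ.Ok j P → ∃ Λ : Sub p W, D ≤ Λ ∧ Λ ≤ T ∧ Γ.Inv P Λ ∧
    finrank (ZMod p) Λ ≤ finrank (ZMod p) D + K * P.length ∧
    (∀ x ∈ T, x ∉ Λ → p ^ h * nc D ≤ p ^ (K * P.length) * (Γ.cls P D x).ncard) ∧
    ∀ U : Sub p W, Γ.Inv P U → D ≤ U → U ≤ T → ¬ U ≤ Λ →
      finrank (ZMod p) D + finrank (ZMod p) A ≤
        finrank (ZMod p) U + finrank (ZMod p) B + K * P.length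

/-- Part 4: a dense geometry has an automorphism of bounded rank that moves a point densely. -/
def BR : Prop :=
  ∀ (p : ℕ) [Fact p.Prime] (K C ρ : ℕ), ∃ j : ℕ, ∀ (W : Type) [AddCommGroup W] [Module (ZMod p) W]
    [Fintype W] (Γ : Sys p W) (ι : Type) [Fintype ι] [Nonempty ι] (G : Den Γ ι),
    G.K = K → G.C = C → G.j = j → Fintype.card ι ≤ ρ →
    ∃ s, ∃ v ∈ G.hi s, v ∉ G.lo s ∧ ∀ v' ∈ Γ.cls [] (G.lo s) v,
      nc (G.hi s) ≤ G.Q * (Γ.Nb j (G.lo s) v' ∩ G.hi s).ncard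

/-- Parts 2 to 4: a saturated state with a giant layer has a cheap pin. -/
def CORE : Prop :=
  ∀ p₀ K ρ : ℕ, ∃ j : ℕ, ∀ (p : ℕ) [Fact p.Prime], p ≤ p₀ → ∀ (W : Type) [AddCommGroup W]
    [Module (ZMod p) W] [Fintype W] (Γ : Sys p W) (C : Finset (Sub p W)) (g : ℕ)
    (D T : Sub p W → Sub p W) (h : Sub p W → ℕ), j ≤ Γ.M → j ≤ g → Chain Γ C →
    (∃ B A, Giant g C B A) → {B | ∃ A, Giant g C B A}.ncard ≤ ρ →
    (∀ B A, Layer C B A → Giant g C B A ∨
      (Γ.Pinned B A ∧ finrank (ZMod p) A ≤ finrank (ZMod p) B + 1)) →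
    (∀ B A, Giant g C B A → Sat Γ K j B A (D B) (T B) (h B)) →
    ∃ B A, Giant g C B A ∧ ∃ v ∈ T B, v ∉ D B ∧ ∀ v' ∈ Γ.cls [] (D B) v,
      (Γ.cls [] (D B) v).ncard ≤ p ^ j * (Γ.Nb j (D B) v').ncard

end Pool.Agent.P.MP_f1a348_lc.LS
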