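import Pool.Agent.P.MP_f1a348_lc.LS.Base

/-! Linear string isomorphism: the system of a colouring, potentials, abstract states. -/

set_option autoImplicit false
set_option linter.unusedSectionVars false

namespace Pool.Agent.P.MP_f1a348_lc.LS

open Module Submodule

section bis
variable {p : ℕ} [Fact p.Prime] {W : Type} [AddCommGroup W] [Module (ZMod p) W] [Fintype W]
  {κ : Type} {M : ℕ} {F F' F'' : W → κ}

/-- a winning strategy in the bijective game on subspaces -/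
structure Bis (M : ℕ) (F F' : W → κ) (R : Sub p W → Iso p W → Prop) : Prop where
  col : ∀ U φ, R U φ → ∀ x ∈ U, F' (φ x) = F x
  ext : ∀ U φ, R U φ → ∀ U', U' ≤ U → finrank (ZMod p) U' < M → ∃ b : W ≃ W, ∀ w, ∃ ψ,
    R (U' ⊔ span (ZMod p) {w}) ψ ∧ (∀ x ∈ U', ψ x = φ x) ∧ ψ w = b w

/-- local isomorphisms from the colouring `F` to the colouring `F'` -/
def Lo (M : ℕ) (F F' : W → κ) (U : Sub p W) (φ : Iso p W) : Prop := ∃ R, Bis M F F' R ∧ R U φ

/-- the point `x` of `F` and the point `y` of `F'` have the same type -/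
def Ty (p : ℕ) [Fact p.Prime] [Module (ZMod p) W] (M : ℕ) (F F' : W → κ) (x y : W) : Prop :=
  ∃ φ : Iso p W, Lo M F F' (span (ZMod p) {x}) φ ∧ φ x = y

theorem Lo.bis : Bis (p := p) M F F' (Lo M F F') :=
  ⟨fun U φ ⟨_, h, h'⟩ => h.col U φ h', fun U φ ⟨R, h, h'⟩ U' a b =>
    (h.ext U φ h' U' a b).imp fun _ e w => (e w).imp fun _ e => ⟨⟨R, h, e.1⟩, e.2⟩⟩

theorem Lo.col {U : Sub p W} {φ : Iso p W} (h : Lo M F F' U φ) {x : W} (hx : x ∈ U) :
    F' (φ x) = F x := Lo.bis.col U φ h x hx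

theorem Lo.loc {U U' : Sub p W} {φ φ' : Iso p W} (h : Lo M F F' U φ) (h1 : U' ≤ U)
    (h2 : ∀ x ∈ U', φ' x = φ x) : Lo M F F' U' φ' := by
  refine ⟨fun U' φ' => ∃ U φ, Lo M F F' U φ ∧ U' ≤ U ∧ ∀ x ∈ U', φ' x = φ x, ⟨?_, ?_⟩,
    U, φ, h, h1, h2⟩
  · rintro U' φ' ⟨U, φ, h, h1, h2⟩ x hx
    rw [h2 x hx, h.col (h1 hx)]
  · rintro U' φ' ⟨U, φ, h, h1, h2⟩ U'' h3 h4
    obtain ⟨b, hb⟩ := Lo.bis.ext U φ h U'' (h3.trans h1) h4
    refine ⟨b, fun w => ?_⟩
    obtain ⟨ψ, a1, a2, a3⟩ := hb w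
    exact ⟨ψ, ⟨_, ψ, a1, le_rfl, fun _ _ => rfl⟩, fun x hx => (a2 x hx).trans (h2 x (h3 hx)).symm,
      a3⟩

theorem Lo.of_iso {φ : Iso p W} (h : ∀ x, F' (φ x) = F x) (U : Sub p W) : Lo M F F' U φ := by
  refine ⟨fun _ ψ => ψ = φ, ⟨?_, ?_⟩, rfl⟩
  · rintro U _ rfl x _
    exact h x
  · rintro U ψ rfl U' _ _
    exact ⟨ψ.toEquiv, fun w => ⟨ψ, rfl, fun _ _ => rfl, rfl⟩⟩

theorem Lo.inv {U U' : Sub p W} {φ : Iso p W} (h : Lo M F F' U φ) (h1 : ∀ x ∈ U', φ⁻¹ x ∈ U) :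
    Lo M F' F U' φ⁻¹ := by
  refine ⟨fun U' ψ => ∃ U, Lo M F F' U ψ⁻¹ ∧ ∀ x ∈ U', ψ x ∈ U, ⟨?_, ?_⟩, U, by simpa using h, h1⟩
  · rintro U' ψ ⟨U, h, h1⟩ x hx
    rw [← h.col (h1 x hx)]
    exact congrArg F' (ψ.symm_apply_apply x) |>.symm ▸ rfl
  · rintro U' ψ ⟨U, h, h1⟩ U'' h3 h4
    obtain ⟨b, hb⟩ := Lo.bis.ext U ψ⁻¹ h (U''.map (ψ : W →ₗ[ZMod p] W))
      (by rintro _ ⟨x, hx, rfl⟩; exact h1 x (h3 hx)) (by rwa [LinearEquiv.finrank_map_eq])
    refine ⟨b.symm, fun w => ?_⟩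
    obtain ⟨χ, a1, a2, a3⟩ := hb (b.symm w)
    have e1 : ∀ x ∈ U'', χ⁻¹ x = ψ x := fun x hx => by
      have := a2 (ψ x) ⟨x, hx, rfl⟩
      exact χ.symm_apply_eq.2 (this.trans (ψ.symm_apply_apply x)).symm
    have e2 : χ⁻¹ w = b.symm w := χ.symm_apply_eq.2 (a3.trans (b.apply_symm_apply w)).symm
    refine ⟨χ⁻¹, ⟨_, by simpa using a1, fun x hx => ?_⟩, e1, e2⟩
    obtain ⟨y, hy, z, hz, rfl⟩ := mem_sup.1 hx
    obtain ⟨a, rfl⟩ := mem_span_singleton.1 hz
    rw [map_add, map_smul, e1 y hy, e2]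
    exact add_mem (mem_sup_left ⟨y, hy, rfl⟩)
      (mem_sup_right (smul_mem _ _ (mem_span_singleton_self _)))

theorem Lo.mul {U U' : Sub p W} {φ ψ : Iso p W} (h : Lo M F F' U φ) (h' : Lo M F' F'' U' ψ)
    (h1 : ∀ x ∈ U, φ x ∈ U') : Lo M F F'' U (ψ * φ) := by
  refine ⟨fun U χ => ∃ U' φ ψ, Lo M F F' U φ ∧ Lo M F' F'' U' ψ ∧ (∀ x ∈ U, φ x ∈ U') ∧
    χ = ψ * φ, ⟨?_, ?_⟩, U', φ, ψ, h, h', h1, rfl⟩
  · rintro U _ ⟨U', φ, ψ, h, h', h1, rfl⟩ x hx
    exact (h'.col (h1 x hx)).trans (h.col hx)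
  · rintro U _ ⟨U', φ, ψ, h, h', h1, rfl⟩ U'' h3 h4
    obtain ⟨b, hb⟩ := Lo.bis.ext U φ h U'' h3 h4
    obtain ⟨b', hb'⟩ := Lo.bis.ext U' ψ h' (U''.map (φ : W →ₗ[ZMod p] W))
      (by rintro _ ⟨x, hx, rfl⟩; exact h1 x (h3 hx)) (by rwa [LinearEquiv.finrank_map_eq])
    refine ⟨b.trans b', fun w => ?_⟩
    obtain ⟨χ, a1, a2, a3⟩ := hb w
    obtain ⟨χ', c1, c2, c3⟩ := hb' (b w)
    refine ⟨χ' * χ, ⟨_, χ, χ', a1, c1, fun x hx => ?_, rfl⟩, fun x hx => ?_, ?_⟩
    · obtain ⟨y, hy, z, hz, rfl⟩ := mem_sup.1 hx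
      obtain ⟨a, rfl⟩ := mem_span_singleton.1 hz
      rw [map_add, map_smul, a2 y hy, a3]
      exact add_mem (mem_sup_left ⟨y, hy, rfl⟩)
        (mem_sup_right (smul_mem _ _ (mem_span_singleton_self _)))
    · change χ' (χ x) = ψ (φ x)
      rw [a2 x hx]
      exact c2 _ ⟨x, hx, rfl⟩
    · change χ' (χ w) = b' (b w)
      rw [a3, c3]

/-- forgetting a part of the colours -/
theorem Lo.mono {κ' : Type} {E E' : W → κ'} (hE : ∀ x y, F' y = F x → E' y = E x) {U : Sub p W}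
    {φ : Iso p W} (h : Lo M F F' U φ) : Lo M E E' U φ :=
  ⟨_, ⟨fun U φ h x hx => hE _ _ (Lo.bis.col U φ h x hx), Lo.bis.ext⟩, h⟩

end bis

section pot
variable {p : ℕ} [Fact p.Prime] {W : Type} [AddCommGroup W] [Module (ZMod p) W] [Fintype W]

/-- `Γ'` has fewer local automorphisms than `Γ` -/
structure Finer (Γ' Γ : Sys p W) : Prop where
  M : Γ'.M = Γ.M
  β : Γ'.β = Γ.β
  L : ∀ U φ, Γ'.L U φ → Γ.L U φ

/-- a chain without closed subspaces strictly inside a layer -/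
structure Good (Γ : Sys p W) (C : Finset (Sub p W)) : Prop where
  ar : 4 ≤ Γ.M
  chain : Chain Γ C
  closed : ∀ B A, Layer C B A → ∀ U, Γ.Def U → B < U → U ≤ A → U = A

/-- the dimension -/
noncomputable abbrev dm (U : Sub p W) : ℕ := finrank (ZMod p) U

/-- the next member of the chain -/
noncomputable def up (C : Finset (Sub p W)) (B : Sub p W) : Sub p W := sInf {U | U ∈ C ∧ B < U}

open Classical in
/-- the bottoms of the giant layers -/
noncomputable def gi (g : ℕ) (C : Finset (Sub p W)) : Finset (Sub p W) :=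
  C.filter (fun B => Giant g C B (up C B))

/-- the bottom of the next giant layer -/
noncomputable def tpS (g : ℕ) (C : Finset (Sub p W)) (B : Sub p W) : Sub p W :=
  sInf {U | U ∈ gi g C ∧ B < U}

/-- the largest closed subspace that does not cover the layer -/
noncomputable def ddS (Γ : Sys p W) (g : ℕ) (C : Finset (Sub p W)) (B : Sub p W) : Sub p W :=
  sSup {U | Γ.Def U ∧ B ≤ U ∧ U ≤ tpS g C B ∧ ¬ up C B ≤ U}

/-- the height of the smallest class -/
noncomputable def hhS (Γ : Sys p W) (g : ℕ) (C : Finset (Sub p W)) (B : Sub p W) : ℕ :=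
  sSup {h | ∀ v ∈ tpS g C B, v ∉ ddS Γ g C B →
    p ^ h * nc (ddS Γ g C B) ≤ (Γ.cls [] (ddS Γ g C B) v).ncard}

/-- the coarse potential -/
noncomputable def eS (g : ℕ) (C : Finset (Sub p W)) : ℕ :=
  ∑ B ∈ gi g C, (2 * ((dm (up C B) - dm B) / g) - 1)

/-- the contribution of one giant layer to the fine potential -/
noncomputable def iB (Γ : Sys p W) (g : ℕ) (C : Finset (Sub p W)) (B : Sub p W) : ℕ :=
  (dm (up C B) - dm B) + (finrank (ZMod p) W - dm (ddS Γ g C B)) + hhS Γ g C B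

/-- the potential -/
noncomputable def psi (Γ : Sys p W) (g : ℕ) (C : Finset (Sub p W)) : ℕ :=
  eS g C * (4 * finrank (ZMod p) W * (finrank (ZMod p) W / g)) + ∑ B ∈ gi g C, iB Γ g C B

/-- the number of members and of pinned layers -/
noncomputable def mu (Γ : Sys p W) (C : Finset (Sub p W)) : ℕ :=
  C.card + {B | ∃ A, Layer C B A ∧ Γ.Pinned B A}.ncard

/-- the giant layer at `B'` of the refinement lies in the giant layer at `B` -/
structure Ins (Γ Γ' : Sys p W) (g : ℕ) (C C' : Finset (Sub p W)) (B B' : Sub p W) : Prop where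
  mem : B' ∈ gi g C'
  lo : B ≤ B'
  hi : up C' B' ≤ up C B
  tp : tpS g C B ≤ tpS g C' B'
  dd : ddS Γ g C B ≤ ddS Γ' g C' B'
  hh : hhS Γ' g C' B' ≤ hhS Γ g C B

/-- a pin: the coset `r.2.1 + r.1` and the width `r.2.2` -/
abbrev Pin (p : ℕ) (W : Type) [AddCommGroup W] [Module (ZMod p) W] := Sub p W × W × ℕ

/-- the width is large enough -/
def PinOK (Γ : Sys p W) (j : ℕ) (r : Pin p W) : Prop :=
  Γ.Def r.1 ∧ ∀ v ∈ Γ.cls [] r.1 r.2.1, (Γ.cls [] r.1 r.2.1).ncard ≤ r.2.2 * (Γ.Nb j r.1 v).ncard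

/-- a pin in a small layer -/
def Mv2 (Γ : Sys p W) (g : ℕ) (C : Finset (Sub p W)) (r : Pin p W) : Prop :=
  ∃ A, Layer C r.1 A ∧ ¬ Giant g C r.1 A ∧ r.2.1 ∈ A ∧
    (∃ y ∈ Γ.cls [] ⊥ r.2.1, y - r.2.1 ∉ r.1) ∧ r.2.2 = p ^ g

/-- a cheap pin above a giant layer -/
def Mv3 (Γ : Sys p W) (g m : ℕ) (C : Finset (Sub p W)) (r : Pin p W) : Prop :=
  ∃ B ∈ gi g C, r.1 = ddS Γ g C B ∧ r.2.1 ∈ tpS g C B ∧ r.2.1 ∉ r.1 ∧ r.2.2 = m ∧ PinOK Γ g r

/-- no move is left -/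
def Stuck (Γ : Sys p W) (g m : ℕ) (C : Finset (Sub p W)) : Prop :=
  ∀ r, ¬ Mv2 Γ g C r ∧ ¬ Mv3 Γ g m C r

/-- the coset `v + U` is closed under the local automorphisms -/
def Held (Γ : Sys p W) (U : Sub p W) (v : W) : Prop := ∀ y ∈ Γ.cls [] ⊥ v, y - v ∈ U

end pot

/-! ### the space, its colourings and the states -/

/-- the space of the positions -/
abbrev Vk (p k : ℕ) : Type := Fin k → ZMod p
/-- the space with its dual -/
abbrev Wk (p k : ℕ) : Type := Vk p k × Vk p k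
/-- colours -/
abbrev Col : Type := (Bool × Bool × ℕ × List Bool) × List Bool

section space
variable {p k : ℕ} [Fact p.Prime]

/-- the hyperbolic form -/
def beta (p k : ℕ) [Fact p.Prime] : LinearMap.BilinForm (ZMod p) (Wk p k) :=
  LinearMap.mk₂ (ZMod p) (fun x y => x.1 ⬝ᵥ y.2 + x.2 ⬝ᵥ y.1)
    (fun x y z => by simp only [Prod.fst_add, Prod.snd_add, add_dotProduct]; ring)
    (fun a x z => by simp only [Prod.smul_fst, Prod.smul_snd, smul_dotProduct, smul_eq_mul]; ring)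
    (fun x y z => by simp only [Prod.fst_add, Prod.snd_add, dotProduct_add]; ring)
    (fun a x z => by simp only [Prod.smul_fst, Prod.smul_snd, dotProduct_smul, smul_eq_mul]; ring)

theorem beta_apply (x y : Wk p k) : beta p k x y = x.1 ⬝ᵥ y.2 + x.2 ⬝ᵥ y.1 := rfl

theorem beta_symm (x y : Wk p k) : beta p k x y = beta p k y x := by
  rw [beta_apply, beta_apply, dotProduct_comm x.1, dotProduct_comm x.2, add_comm]

theorem beta_sep (x : Wk p k) (h : ∀ y, beta p k x y = 0) : x = 0 := by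
  refine Prod.ext (funext fun i => ?_) (funext fun i => ?_)
  · simpa [beta_apply] using h (0, Pi.single i 1)
  · simpa [beta_apply] using h (Pi.single i 1, 0)

/-- the subspace of the positions -/
def VV (p k : ℕ) [Fact p.Prime] : Sub p (Wk p k) := LinearMap.ker (LinearMap.snd _ _ _)

open Classical in
/-- the colouring given by the string `f` and the marked sets `T` -/
noncomputable def col (f : Vk p k → List Bool) (T : List (Set (Wk p k))) (w : Wk p k) : Col :=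
  ((decide (w = 0), decide (w.2 = 0), (w.1 ⬝ᵥ w.2).val, if w.2 = 0 then f w.1 else []),
    T.map (fun S => decide (w ∈ S)))

/-- the system of the local automorphisms of a colouring -/
def sysOf (M : ℕ) (f : Vk p k → List Bool) (T : List (Set (Wk p k))) : Sys p (Wk p k) where
  M := M
  L := Lo M (col f T) (col f T)
  β := beta p k
  symm := beta_symm
  nd := ⟨beta_sep, fun x h => beta_sep x fun y => (beta_symm x y).trans (h y)⟩
  loc := Lo.loc
  one := Lo.of_iso fun _ => rfl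
  inv := Lo.inv
  mul := Lo.mul
  ext := fun h h' => Lo.bis.ext _ _ h _ le_rfl h'
  pres := fun {U φ u v} h hu hv => by
    have q : ∀ x ∈ U, (φ x).1 ⬝ᵥ (φ x).2 = x.1 ⬝ᵥ x.2 := fun x hx =>
      ZMod.val_injective p (congrArg (fun c : Col => c.1.2.2.1) (h.col hx))
    have e := q _ (add_mem hu hv)
    simp only [map_add, Prod.fst_add, Prod.snd_add, add_dotProduct, dotProduct_add, q u hu,
      q v hv] at e
    rw [beta_apply, beta_apply, dotProduct_comm (φ u).2, dotProduct_comm u.2]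
    linear_combination e

/-- the marked sets of a list of pins -/
def marks (l : List (Pin p (Wk p k))) : List (Set (Wk p k)) :=
  l.map (fun r => {w | w - r.2.1 ∈ r.1})

/-- the system after a list of pins (newest first) -/
abbrev sysL (j : ℕ) (f : Vk p k → List Bool) (l : List (Pin p (Wk p k))) : Sys p (Wk p k) :=
  sysOf j f (marks l)

/-- all pins have a sufficient width -/
def Valid (j : ℕ) (f : Vk p k → List Bool) : List (Pin p (Wk p k)) → Prop
  | [] => True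
  | r :: l => PinOK (sysL j f l) j r ∧ Valid j f l

/-- an abstract state: the pins and the chain -/
abbrev AS (p k : ℕ) : Type := List (Pin p (Wk p k)) × Finset (Sub p (Wk p k))

/-- the invariant of the states -/
structure Fine (j : ℕ) (f : Vk p k → List Bool) (s : AS p k) : Prop where
  good : Good (sysL j f s.1) s.2
  vv : VV p k ∈ s.2
  valid : Valid j f s.1

/-- `s'` extends `s` -/
def Ext (s s' : AS p k) : Prop := s.1 <:+ s'.1 ∧ s.2 ⊆ s'.2

/-- the bound for the number of remaining moves -/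
noncomputable def tau (j : ℕ) (f : Vk p k → List Bool) (s : AS p k) : ℕ :=
  (4 * k + 2 - mu (sysL j f s.1) s.2) + psi (sysL j f s.1) j s.2

/-- the bound for the final product of the widths -/
noncomputable def wt (j m : ℕ) (f : Vk p k → List Bool) (s : AS p k) : ℕ :=
  (s.1.map (fun r => r.2.2)).prod * (p ^ j) ^ (4 * k + 2 - mu (sysL j f s.1) s.2) *
    m ^ psi (sysL j f s.1) j s.2

/-- `u` is unitriangular -/
def UT (u : Vk p k ≃ₗ[ZMod p] Vk p k) : Prop :=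
  ∀ t t' : Fin k, t' ≤ t → u (Pi.single t 1) t' = (Pi.single t 1 : Vk p k) t'

/-- the two strings are linearly isomorphic -/
def LIso (f f' : Vk p k → List Bool) : Prop :=
  ∃ g : Vk p k ≃ₗ[ZMod p] Vk p k, ∀ v, f' (g v) = f v

/-- the two colourings are isomorphic -/
def CIso (f f' : Vk p k → List Bool) (T T' : List (Set (Wk p k))) (φ : Iso p (Wk p k)) : Prop :=
  ∀ w, col f' T' (φ w) = col f T w

end space

end Pool.Agent.P.MP_f1a348_lc.LS
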