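import Pool.Agent.P.MP_f1a348_lc.LS.Base

/-! Linear string isomorphism, part 4: annihilators, good bases, frames. -/

set_option autoImplicit false
set_option linter.unusedSectionVars false

namespace Pool.Agent.P.MP_f1a348_lc.LS

open Module Submodule

variable {p : ℕ} [Fact p.Prime] {W : Type} [AddCommGroup W] [Module (ZMod p) W] [Fintype W]

/-- the cosets `x i + B i` for the indices `i` in the list `l` -/
def pl {I : Type} (B : I → Sub p W) (x : I → W) (l : List I) : List (Pm p W) :=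
  l.map fun i => (B i, x i)

/-- the cosets `x i + B i` for all indices -/
noncomputable def fam {I : Type} [Fintype I] (B : I → Sub p W) (x : I → W) : List (Pm p W) :=
  pl B x (Finset.univ : Finset I).toList

/-- a local automorphism fixes `P` and moves each coset `x i + B i` to `y i + B i` -/
def Sys.FS (Γ : Sys p W) {I : Type} (P : List (Pm p W)) (B : I → Sub p W) (x y : I → W) : Prop :=
  ∃ φ, Γ.L (sp P ⊔ span (ZMod p) (Set.range x)) φ ∧ Fx φ P ∧ ∀ i, φ (x i) - y i ∈ B i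

/-- the parameters `P'` refine the parameters `P` -/
def Rf (P P' : List (Pm p W)) : Prop := ∀ c ∈ P, ∃ c' ∈ P', c'.1 ≤ c.1 ∧ c'.2 - c.2 ∈ c.1

/-- all pairs with first coordinate in `la` -/
noncomputable def idx {A : Type} (I : Type) [Fintype I] (la : List A) : List (A × I) :=
  la.flatMap fun a => (Finset.univ : Finset I).toList.map (Prod.mk a)

open Classical in
/-- replace the modulus `A₀` by `B₀` -/
noncomputable def low {I : Type} (B₀ A₀ : Sub p W) (B : I → Sub p W) : I → Sub p W :=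
  fun i => if B i = A₀ then B₀ else B i

/-- a local automorphism fixes `P`, permutes the vectors `S` by `τ` and moves `w` to `w' + U` -/
def Sys.Tw (Γ : Sys p W) {I : Type} (P : List (Pm p W)) (S : I → W) (τ : Equiv.Perm I)
    (U : Sub p W) (w w' : W) : Prop :=
  ∃ φ, Γ.L (sp P ⊔ span (ZMod p) (Set.range S) ⊔ span (ZMod p) {w}) φ ∧ Fx φ P ∧
    (∀ i, φ (S i) = S (τ i)) ∧ φ w - w' ∈ U

/-- the local automorphisms that fix `P` fix `c` modulo `U` -/
def Sys.Fixes (Γ : Sys p W) (P : List (Pm p W)) (U : Sub p W) (c : W) : Prop :=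
  ∀ V φ, Γ.L V φ → sp P ≤ V → Fx φ P → c ∈ V → φ c - c ∈ U

namespace Den
variable {Γ : Sys p W} {ι : Type} [Fintype ι] (G : Den Γ ι)

/-- the annihilator of the small part of the dual sort -/
def Ann (s : ι) (P : List (Pm p W)) : Sub p W := Γ.perp (G.Lam (G.star s) P)
/-- the pins of a list of sorted vectors -/
def tp (m : List (ι × W)) : List (Pm p W) := m.map fun x => (G.lo x.1, x.2)
/-- all vectors of the list annihilate the small part over `P` -/
def InAnn (m : List (ι × W)) (P : List (Pm p W)) : Prop := ∀ x ∈ m, x.2 ∈ G.Ann x.1 P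
/-- the small part over `P` is nondegenerate -/
def ND (P : List (Pm p W)) : Prop := ∀ s, G.Lam s P ⊓ G.Ann s P ≤ G.lo s
/-- the small part over `P` is fixed pointwise -/
def PW (P : List (Pm p W)) : Prop :=
  ∀ s, ∀ x ∈ G.Lam s P, ∀ y ∈ Γ.cls P (G.lo s) x, y - x ∈ G.lo s
/-- the two lists of parameters have the same small parts -/
def Same (P P' : List (Pm p W)) : Prop := ∀ s, G.Lam s P = G.Lam s P'
/-- the sorted family is linearly independent modulo the bottoms of the sorts -/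
def Indep {I : Type} [Fintype I] (so : I → ι) (x : I → W) : Prop :=
  ∀ (s : ι) (c : I → ZMod p), (∀ i, so i ≠ s → c i = 0) → ∑ i, c i • x i ∈ G.lo s → ∀ i, c i = 0
/-- the span of the members of sort `s` -/
def spn {I : Type} (so : I → ι) (x : I → W) (s : ι) : Sub p W :=
  span (ZMod p) (x '' {i | so i = s})

/-- the bound for the growth of the total dimension -/
def cc : ℕ := Fintype.card ι * G.K
/-- the parameters fix the coset `o + hi s` -/
def Aff (s : ι) (P : List (Pm p W)) (o : W) : Prop :=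
  ∀ y ∈ Γ.cls P (G.hi s) o, y - o ∈ G.hi s
/-- the class of `o + lo s` is small -/
def Sm (s : ι) (P : List (Pm p W)) (o : W) : Prop :=
  (Γ.cls P (G.lo s) o).ncard ≤ G.Q * nc (G.lo s)
/-- the pin `o + lo s` does not enlarge the small parts -/
def Good (s : ι) (P : List (Pm p W)) (o : W) : Prop := G.Same ((G.lo s, o) :: P) P

/-- A good base `b` with range `R`. -/
structure Bs (b : List (Pm p W)) (R : ℕ) : Prop where
  ok : Γ.Ok R b
  hR : 2 * R + 8 ≤ G.j
  nd : G.ND b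
  lin : ∀ P, Γ.Ok R P → b ⊆ P → ∀ s a, a ∈ G.Ann s b → a ∉ G.Lam s P → ∀ u,
    G.Lam u ((G.lo s, a) :: P) = G.Lam u P ⊔ G.Lam u ((G.lo s, a) :: b)
  st : ∀ P, Γ.Ok R P → b ⊆ P → ∀ s x y, x ∈ G.Ann s b → x ∉ G.Lam s P → y ∉ G.Lam s P →
    y ∈ Γ.cls b (G.lo s) x → y - x ∈ G.Ann s P → y ∈ Γ.cls P (G.lo s) x
  ort : ∀ P, Γ.Ok R P → b ⊆ P → ∀ m, G.InAnn m P → m.length + b.length ≤ R → ∀ u,
    G.Lam u (G.tp m ++ b) ⊓ G.Ann u b ≤ G.Ann u P
  dcl : ∀ m, G.InAnn m b → m.length + b.length ≤ R → G.PW (G.tp m ++ b)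
  rad : ∀ P, Γ.Ok R P → b ⊆ P → P.length + Fintype.card ι * G.K * P.length ≤ R →
    ∀ X : ι → Sub p W, (∀ s, X s ≤ G.hi s ∧ G.hi s ≤ X s ⊔ G.Lam s P) →
    ∃ m : List (ι × W), m.length ≤ Fintype.card ι * G.K * P.length ∧ (∀ x ∈ m, x.2 ∈ X x.1) ∧
      G.ND (G.tp m ++ P)

/-- A frame over `b`: sorted vectors `x i`, known modulo `B i`, that form a basis of the small part
modulo the small part of `b`, and a local automorphism that permutes them by `σ`. -/
structure Fr {I : Type} [Fintype I] (b : List (Pm p W)) (so : I → ι) (σ : Equiv.Perm I)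
    (B : I → Sub p W) (x : I → W) : Prop where
  mem : ∀ i, B i ∈ G.ch ∧ B i ≤ G.lo (so i)
  soσ : ∀ i, so (σ i) = so i
  Bσ : ∀ i, B (σ i) = B i
  ann : ∀ i, x i ∈ G.Ann (so i) b
  nd : G.ND (fam B x ++ b)
  pw : G.PW (fam B x ++ b)
  spn : ∀ s, G.Lam s (fam B x ++ b) ≤ G.Lam s b ⊔ spn so x s
  ind : G.Indep so x
  tw : Γ.FS b B x (x ∘ σ)
  gen : ∃ i, x (σ i) ∉ G.Lam (so i) ((G.lo (so i), x i) :: b)

/-- one copy of a frame -/
structure Fr0 {I : Type} [Fintype I] (b : List (Pm p W)) (so : I → ι) (x : I → W) : Prop where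
  ann : ∀ i, x i ∈ G.Ann (so i) b
  nd : G.ND (fam (fun i => G.lo (so i)) x ++ b)
  spn : ∀ s, G.Lam s (fam (fun i => G.lo (so i)) x ++ b) ≤ G.Lam s b ⊔ spn so x s
  ind : G.Indep so x

/-- mutually orthogonal copies of the frame `e`, for the indices in `la` -/
structure OC {A I : Type} [Fintype I] (b : List (Pm p W)) (so : I → ι) (e : I → W)
    (S : A × I → W) (la : List A) : Prop where
  sim : ∀ a ∈ la, Γ.FS b (fun i => G.lo (so i)) e fun i => S (a, i)
  ort : ∀ a ∈ la, ∀ a' ∈ la, a ≠ a' → ∀ i,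
    S (a, i) ∈ G.Ann (so i) (fam (fun i => G.lo (so i)) (fun i => S (a', i)) ++ b)

/-- What is needed to lower moduli from `A₀` to `B₀` over `P`, with translations by `Λ`. -/
structure Lp (P : List (Pm p W)) (n : ℕ) (B₀ A₀ Λ : Sub p W) : Prop where
  dB : Γ.Def B₀
  le : B₀ ≤ A₀
  ΛA : Λ ≤ A₀
  fix : ∀ l ∈ Λ, Γ.Fixes P B₀ l
  ex : ∀ P', Γ.Ok n P' → P ⊆ P' → G.Same P' P → ∀ o, (A₀, o) ∈ P →
    ∃ y, y - o ∈ A₀ ∧ G.Same ((B₀, y) :: P') P'
  tr : ∀ P', Γ.Ok n P' → P ⊆ P' → G.Same P' P → ∀ o y y', (A₀, o) ∈ P → y - o ∈ A₀ →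
    y' - o ∈ A₀ → G.Same ((B₀, y) :: P') P' → G.Same ((B₀, y') :: P') P' →
    ∃ l ∈ Λ, y' ∈ Γ.cls P' B₀ (y + l)

/-- the good lifts of `x` from the moduli `B` to the moduli `B'` -/
def Om {I : Type} [Fintype I] (b : List (Pm p W)) (B B' : I → Sub p W) (x : I → W) :
    Set (I → W) :=
  {y | (∀ i, y i - x i ∈ B i) ∧ G.Same (fam B' y ++ b) (fam B x ++ b)}

end Den

/-- First half of part 4: good bases with any prescribed range exist. -/
def BASE : Prop :=
  ∀ (p : ℕ) [Fact p.Prime] (K C ρ : ℕ) (H : ℕ → ℕ), (∀ n, n ≤ H n) → ∃ j : ℕ, ∀ (W : Type) [AddCommGroup W]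
    [Module (ZMod p) W] [Fintype W] (Γ : Sys p W) (ι : Type) [Fintype ι] (G : Den Γ ι),
    G.K = K → G.C = C → G.j = j → Fintype.card ι ≤ ρ → ∃ b, G.Bs b (H b.length)

end Pool.Agent.P.MP_f1a348_lc.LS
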