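import Pool.Agent.P.MP_f1a348_lc.LS.DefsB

/-! Linear string isomorphism, part 4, first half: Fourier coefficients, numbers of classes,
stable bases. -/

set_option autoImplicit false
set_option linter.unusedSectionVars false

namespace Pool.Agent.P.MP_f1a348_lc.LS

open Module Submodule

variable {p : ℕ} [Fact p.Prime] {W : Type} [AddCommGroup W] [Module (ZMod p) W] [Fintype W]

/-- the standard additive character -/
noncomputable def chi (p : ℕ) [Fact p.Prime] : AddChar (ZMod p) ℂ := ZMod.stdAddChar

/-- the Fourier coefficient of the set `E` at `ξ` -/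
noncomputable def Sys.ft (Γ : Sys p W) (E : Set W) (ξ : W) : ℂ :=
  ∑ x ∈ (Set.toFinite E).toFinset, chi p (Γ.β ξ x)

namespace Den
variable {Γ : Sys p W} {ι : Type} [Fintype ι] (G : Den Γ ι)

/-- the coset of the annihilator through `y` -/
def cs (s : ι) (P : List (Pm p W)) (y : W) : Set W := {x | x - y ∈ G.Ann s P}
/-- the number of classes over `P` of the points of `X` outside the small part -/
noncomputable def ncls (s : ι) (P : List (Pm p W)) (X : Set W) : ℕ :=
  ((fun x => Γ.cls P (G.lo s) x) '' {x | x ∈ X ∧ x ∉ G.Lam s P}).ncard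
/-- the number of generic classes in the annihilator -/
noncomputable def nu (s : ι) (P : List (Pm p W)) : ℕ := G.ncls s P (G.Ann s P)

/-- A stable base with range `r`. -/
structure St (b : List (Pm p W)) (r : ℕ) : Prop where
  ok : Γ.Ok b.length b
  len : b.length + 2 ≤ r
  hr : r + 8 ≤ G.j
  kap : G.Stable b r
  nu : ∀ P, Γ.Ok r P → b ⊆ P → ∀ s, G.nu s P = G.nu s b

/-- the list `P` contains a generic point over `b` of the annihilator in every sort -/
def Rich (b P : List (Pm p W)) : Prop :=
  ∀ s, ∃ x, (G.lo s, x) ∈ P ∧ x ∈ G.Ann s b ∧ x ∉ G.Lam s b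

end Den

end Pool.Agent.P.MP_f1a348_lc.LS
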