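import Pool.Agent.P.MP_f1a348_lc.LS.DefsT

/-! Linear string isomorphism: the programs and their specifications. -/

set_option autoImplicit false
set_option linter.unusedSectionVars false

namespace Pool.Agent.P.MP_f1a348_lc.LS

open Module Submodule Pool.Agent.Lib.Helper47 Pool.Agent.P.MP_f1a348_lc.GI

/-- codes of positions -/
abbrev Vc : Type := List ℕ
/-- codes of points -/
abbrev Pt : Type := List ℕ × List ℕ
/-- a string as a table -/
abbrev Tb : Type := List (Vc × List Bool)
/-- the input: the digits `0, …, p - 1`, the indices `0, …, k - 1`, the two strings -/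
abbrev Inp : Type := List ℕ × List ℕ × Tb × Tb
/-- the context: the budget, the level, the width of the cheap pins, the input -/
abbrev Cx : Type := List Unit × List Unit × ℕ × Inp
/-- marked sets -/
abbrev Mk : Type := List (List Pt)
/-- a pin -/
abbrev Pn : Type := List Pt × Pt × ℕ
/-- a state: the pins and the chain -/
abbrev FS : Type := List Pn × List (List Pt)
/-- a tuple with its side -/
abbrev Tp : Type := Bool × List Pt

namespace Cx
variable (c : Cx)
/-- the budget -/
def pad : List Unit := c.1
/-- the level -/
def lev : List Unit := c.2.1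
/-- the width of the cheap pins -/
def m : ℕ := c.2.2.1
/-- the digits -/
def rp : List ℕ := c.2.2.2.1
/-- the indices -/
def ix : List ℕ := c.2.2.2.2.1
/-- the strings -/
def tb (b : Bool) : Tb := bif b then c.2.2.2.2.2.2 else c.2.2.2.2.2.1
/-- the prime -/
def pr : ℕ := c.rp.length
/-- all positions -/
def vs : List Vc := (c.tb false).map Prod.fst
/-- all points -/
def pts : List Pt := prodL c.vs c.vs
/-- the zero position -/
def zv : Vc := c.ix.map (fun _ => 0)
/-- the zero point -/
def zp : Pt := (c.zv, c.zv)
/-- the letter at a position -/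
def look (b : Bool) (x : Vc) : List Bool :=
  (((c.tb b).find? (fun e => e.1 == x)).map Prod.snd).getD []
/-- linear combinations of positions -/
def lcv (a : List ℕ) (u : List Vc) : Vc :=
  c.ix.map (fun i => (List.zipWith (fun x y => x * y.getD i 0) a u).sum % c.pr)
/-- linear combinations of points -/
def lc (a : List ℕ) (u : List Pt) : Pt := (c.lcv a (u.map Prod.fst), c.lcv a (u.map Prod.snd))
/-- the dot product -/
def dot (x y : Vc) : ℕ := (List.zipWith (fun a b => a * b) x y).sum % c.pr
/-- the form -/
def bt (z w : Pt) : ℕ := (c.dot z.1 w.2 + c.dot z.2 w.1) % c.pr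
/-- the difference -/
def sb (z w : Pt) : Pt := c.lc [1, c.pr - 1] [z, w]
/-- the colour of a point -/
def colr (b : Bool) (T : Mk) (z : Pt) : Col :=
  ((z == c.zp, z.2 == c.zv, c.dot z.1 z.2, bif z.2 == c.zv then c.look b z.1 else []),
    T.map (fun S => S.contains z))
/-- the width of the pins in small layers -/
def pg : ℕ := c.pr ^ c.lev.length

/-! ### the refinement -/

/-- all tuples -/
def tu : List (List Pt) := tuples c.pad c.pts c.lev
/-- all tuples with a side -/
def tt : List Tp := c.tu.map (fun t => (false, t)) ++ c.tu.map (fun t => (true, t))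
/-- all coefficient rows -/
def cf : List (List ℕ) := tuples c.pad c.rp c.lev
/-- all matrices with one row less -/
def mats : List (List (List ℕ)) := tuples c.pad c.cf c.lev.tail
/-- the atomic type -/
def aty (T T' : Mk) (u : Tp) : List Col :=
  c.cf.map (fun a => c.colr u.1 (bif u.1 then T' else T) (c.lc a u.2))
/-- the numbers of extensions in each class -/
def sig (R : List (Tp × Tp)) (u : Tp) : List ℕ :=
  (prodL c.mats c.tt).map (fun z =>
    c.pts.countP (fun w => R.contains (z.2, (u.1, w :: z.1.map (fun a => c.lc a u.2)))))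
/-- the first relation -/
def r0 (T T' : Mk) : List (Tp × Tp) :=
  (prodL c.tt c.tt).filter (fun z => c.aty T T' z.1 == c.aty T T' z.2)
/-- one round -/
def rnd (R : List (Tp × Tp)) : List (Tp × Tp) := R.filter (fun z => c.sig R z.1 == c.sig R z.2)
/-- the stable relation -/
def rr (T T' : Mk) : List (Tp × Tp) := c.rnd^[(c.r0 T T').length] (c.r0 T T')
/-- `x` on the first side and `y` on the side `b` have the same type -/
def eqv (T T' : Mk) (b : Bool) (x y : Pt) : Bool :=
  (c.rr T T').contains ((false, c.lev.map (fun _ => x)), (b, c.lev.map (fun _ => y)))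

/-- an equivalence relation on the tuples that respects the atomic types -/
structure Eqv (T T' : Mk) (R : List (Tp × Tp)) : Prop where
  refl : ∀ t ∈ c.tt, (t, t) ∈ R
  symm : ∀ x y, (x, y) ∈ R → (y, x) ∈ R
  trans : ∀ x y z, (x, y) ∈ R → (y, z) ∈ R → (x, z) ∈ R
  mem : ∀ x y, (x, y) ∈ R → x ∈ c.tt ∧ c.aty T T' x = c.aty T T' y

/-! ### sets of points -/

/-- inclusion -/
def sub (A B : List Pt) : Bool := A.all (fun x => B.contains x)
/-- the normal form of a set of points -/
def nrm (A : List Pt) : List Pt := c.pts.filter (fun w => A.contains w)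
/-- the coset `v + U` -/
def cos (U : List Pt) (v : Pt) : List Pt := c.pts.filter (fun w => U.contains (c.sb w v))
/-- the marked sets of a list of pins -/
def mks (l : List Pn) : Mk := l.map (fun r => c.cos r.1 r.2.1)
/-- the orthogonal complement -/
def prp (X : List Pt) : List Pt := c.pts.filter (fun w => X.all (fun y => c.bt y w == 0))
/-- the span -/
def spn (X : List Pt) : List Pt := c.prp (c.prp X)
/-- the class of a point -/
def cl (T : Mk) (v : Pt) : List Pt := c.pts.filter (fun w => c.eqv T T false v w)
/-- the class of a coset -/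
def clU (T : Mk) (U : List Pt) (v : Pt) : List Pt :=
  c.pts.filter (fun w => (c.cl T v).any (fun y => U.contains (c.sb y w)))
/-- the map `z ↦ z + ∑ β (s i) z • t i` -/
def app (a : List Pt × List Pt) (z : Pt) : Pt := c.lc (1 :: a.1.map (fun s => c.bt s z)) (z :: a.2)
/-- the automorphisms of small rank -/
def lows (b : Bool) (T : Mk) : List (List Pt × List Pt) :=
  (prodL c.tu c.tu).filter (fun a => c.pts.all (fun w => c.colr b T (c.app a w) == c.colr b T w))
/-- the points reached by an automorphism of small rank -/
def nb (b : Bool) (T : Mk) (U : List Pt) (x : Pt) : List Pt :=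
  c.pts.filter (fun w => (c.lows b T).any (fun a => U.contains (c.sb w (c.app a x))))

/-! ### the first side -/

/-- the layers -/
def lays (C : List (List Pt)) : List (List Pt × List Pt) :=
  (prodL C C).filter (fun z => sub z.1 z.2 && !sub z.2 z.1 &&
    C.all (fun U => !sub z.1 U || sub U z.1 || sub z.2 U))
/-- the test for a giant layer -/
def big (z : List Pt × List Pt) : Bool := Nat.ble (z.1.length * c.pg) z.2.length
/-- the giant layers -/
def gia (C : List (List Pt)) : List (List Pt × List Pt) := (lays C).filter c.big
/-- the span of `B` and the class of `v` -/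
def hull (T : Mk) (B : List Pt) (v : Pt) : List Pt := c.spn (B ++ c.cl T v)
/-- closed subspaces strictly inside a layer -/
def news (T : Mk) (C : List (List Pt)) : List (List Pt) :=
  (lays C).flatMap (fun z => (z.2.map (c.hull T z.1)).filter (fun U => !sub U z.1 && !sub z.2 U))
/-- insert one new subspace and its complement -/
def clStep (T : Mk) (C : List (List Pt)) : List (List Pt) :=
  (c.news T C).head?.elim C (fun U => c.nrm U :: c.prp U :: C)
/-- refine the chain as far as possible -/
def close (T : Mk) (C : List (List Pt)) : List (List Pt) := (c.clStep T)^[c.pts.length] C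
/-- the bottom of the next giant layer above `A` -/
def tp (C : List (List Pt)) (A : List Pt) : List Pt :=
  c.pts.filter (fun w => (c.gia C).all (fun z => !sub A z.1 || z.1.contains w))
/-- the largest closed subspace that does not cover the layer `z` -/
def dd (T : Mk) (C : List (List Pt)) (z : List Pt × List Pt) : List Pt :=
  (c.tp C z.2).filter (fun v => !sub z.2 (c.hull T z.1 v))
/-- the pins in small layers -/
def mv2 (T : Mk) (C : List (List Pt)) : List Pn :=
  ((lays C).filter (fun z => !c.big z)).flatMap (fun z =>
    ((c.nrm z.2).filter (fun v => (c.cl T v).any (fun y => !z.1.contains (c.sb y v)))).map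
      (fun v => (c.nrm z.1, v, c.pg)))
/-- the cheap pins above giant layers -/
def mv3 (T : Mk) (C : List (List Pt)) : List Pn :=
  (c.gia C).flatMap (fun z => ((c.tp C z.2).filter (fun v => !(c.dd T C z).contains v &&
    (c.clU T (c.dd T C z) v).all (fun y => Nat.ble (c.clU T (c.dd T C z) v).length
      (c.m * (c.nb false T (c.dd T C z) y).length)))).map (fun v => (c.dd T C z, v, c.m)))
/-- add a pin and refine the chain -/
def doPin (s : FS) (r : Pn) : FS := (r :: s.1, c.close (c.mks (r :: s.1)) s.2)
/-- one move -/
def stp (s : FS) : FS :=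
  (c.mv2 (c.mks s.1) s.2 ++ c.mv3 (c.mks s.1) s.2).head?.elim s (c.doPin s)
/-- all moves -/
def settle (s : FS) : FS := c.stp^[c.pad.length] s
/-- the first state -/
def init : FS :=
  c.settle ([], c.close [] [c.prp c.pts, c.pts.filter (fun w => w.2 == c.zv), c.pts])
/-- expensive pins -/
def run (s : FS) (y : List Pt) : FS :=
  y.foldl (fun s v => c.settle (c.doPin s (c.prp c.pts, v, c.pts.length))) s

/-! ### the second side -/

/-- the matched set -/
def mat (T T' : Mk) (X : List Pt) : List Pt :=
  c.pts.filter (fun w => X.any (fun x => c.eqv T T' true x w))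
/-- a maximal family with disjoint neighbourhoods -/
def greedy (N : Pt → List Pt) (X : List Pt) : List Pt :=
  X.foldl (fun R x => bif R.any (fun r => (N r).any (fun w => (N x).contains w)) then R
    else x :: R) []
/-- the candidates for the image of a pin -/
def kids (T : Mk) (r : Pn) (T' : Mk) : List Mk :=
  ((greedy (c.nb true T' (c.mat T T' r.1)) (c.mat T T' [r.2.1])).take r.2.2).map
    (fun x => c.cos (c.mat T T' r.1) x :: T')
/-- replay one pin -/
def rep1 (st : Mk × Option (List Mk)) (r : Pn) : Mk × Option (List Mk) :=
  (c.cos r.1 r.2.1 :: st.1, st.2.bind (fun Fr =>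
    bif Nat.ble (Fr.flatMap (c.kids st.1 r)).length c.pad.length
      then some (Fr.flatMap (c.kids st.1 r)) else none))
/-- replay all pins -/
def rep (l : List Pn) : Option (List Mk) := (l.reverse.foldl c.rep1 ([], some [[]])).2

/-- the test for a unitriangular isomorphism -/
noncomputable def tw (s s' : Tb) : Bool := TW.tw (c.pad, c.pr, s, s')

/-! ### the decision -/

/-- one more vector of a basis along the chain -/
def esStep (C : List (List Pt)) (X : List Pt) : List Pt :=
  (c.pts.find? (fun w => !(c.spn X).contains w &&
    C.all (fun U => sub U (c.spn X) || U.contains w))).getD c.zp :: X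
/-- a basis of the space of the positions along the chain, top first -/
def es (C : List (List Pt)) : List Pt := (c.esStep C)^[c.ix.length] []
/-- the string in new coordinates -/
def reb (b : Bool) (e : List Pt) : Tb :=
  c.vs.map (fun a => (a, c.look b (c.lcv a (e.map Prod.fst))))
/-- the matched vectors -/
def es' (T T' : Mk) (e : List Pt) : List Pt :=
  e.map (fun x => (c.pts.find? (fun w => c.eqv T T' true x w)).getD c.zp)
/-- the vectors are independent -/
def indep (e : List Pt) : Bool :=
  c.vs.all (fun a => a == c.zv || c.lcv a (e.map Prod.fst) != c.zv)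
/-- the test at a leaf -/
noncomputable def leaf (T : Mk) (e : List Pt) (T' : Mk) : Bool :=
  c.indep (c.es' T T' e) && c.tw (c.reb true (c.es' T T' e)) (c.reb false e)
/-- the answer at a terminal state -/
noncomputable def fin (s : FS) : Option Bool :=
  (c.rep s.1).map (fun Fr => Fr.any (c.leaf (c.mks s.1) (c.es s.2)))
/-- the answer for a fixed width -/
noncomputable def mn1 : Option Bool :=
  (c.tu.find? (fun y => (c.gia (c.run c.init y).2).isEmpty)).bind (fun y => c.fin (c.run c.init y))

end Cx

/-- the answer at a level -/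
noncomputable def mn (x : (List Unit × List Unit) × Inp) : Option Bool :=
  ((List.range (() :: x.1.2).length).filterMap (fun i =>
    Cx.mn1 (x.1.1, x.1.2, x.2.1.length ^ (x.1.2.take i).length, x.2))).head?

/-- the size of the matrices, read off from the length of the input -/
def ordN (x : List Bool) : ℕ :=
  (List.range x.length).countP (fun m => Nat.ble (2 * ((m + 1) * (m + 1))) x.length)
/-- the least divisor `≥ 2` of the length of `R = [0, …, n - 1]` -/
def primeN (R : List ℕ) : ℕ :=
  ((R.find? (fun d => R.length % (d + 2) == 0)).getD 0) + 2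
/-- the indices `0, …, k - 1` for `R = [0, …, q ^ k - 1]` -/
def idxN (R : List ℕ) (q : ℕ) : List ℕ :=
  R.filter (fun i => Nat.blt (q ^ (R.take i).length) R.length)
/-- the table of the matrix that starts at `off` -/
def tabN (R : List ℕ) (q : ℕ) (x : List Bool) (off : ℕ) : Tb :=
  R.map (fun i => ((idxN R q).map (fun l => i / q ^ (R.take l).length % q),
    R.map (fun t => x.getD (off + (i * R.length + t)) false)))
/-- the parsed input -/
def parse (x : List Bool) : Inp :=
  ((List.range (ordN x)).take (primeN (List.range (ordN x))),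
    idxN (List.range (ordN x)) (primeN (List.range (ordN x))),
    tabN (List.range (ordN x)) (primeN (List.range (ordN x))) x 0,
    tabN (List.range (ordN x)) (primeN (List.range (ordN x))) x (ordN x * ordN x))

/-! ### codes -/

/-- linear combinations with natural coefficients -/
def lcomb (p : ℕ) {W : Type} [AddCommGroup W] [Module (ZMod p) W] (a : List ℕ) (u : List W) : W :=
  (List.zipWith (fun (x : ℕ) w => (x : ZMod p) • w) a u).sum

section codes
variable {p k : ℕ} [Fact p.Prime]

/-- the colouring of a side -/
noncomputable def colb (f f' : Vk p k → List Bool) (S S' : List (Set (Wk p k))) (b : Bool) :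
    Wk p k → Col := col (bif b then f' else f) (bif b then S' else S)

/-- a basis of the positions on which local automorphisms act unitriangularly -/
structure Flag (Γ : Sys p (Wk p k)) (e : Fin k → Wk p k) : Prop where
  vv : ∀ t, (e t).2 = 0
  li : LinearIndependent (ZMod p) (fun t => (e t).1)
  held : ∀ t, Held Γ (span (ZMod p) (e '' {t' | t < t'})) (e t)

/-- the code of a position -/
def cv (v : Vk p k) : Vc := List.ofFn (fun i => (v i).val)
/-- the code of a point -/
def cd (w : Wk p k) : Pt := (cv w.1, cv w.2)

open Classical in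
/-- the list of the codes of a set of points -/
noncomputable def fl (c : Cx) (S : Set (Wk p k)) : List Pt :=
  c.pts.filter (fun z => decide (∃ w ∈ S, cd w = z))

/-- the code of a pin -/
noncomputable def pn (c : Cx) (r : Pin p (Wk p k)) : Pn := (fl c (r.1 : Set (Wk p k)), cd r.2.1, r.2.2)

/-- the table `s` describes the string `f` -/
structure TbOf (s : Tb) (f : Vk p k → List Bool) : Prop where
  nd : (s.map Prod.fst).Nodup
  mem : ∀ e, e ∈ s ↔ ∃ v, e = (cv v, f v)

/-- the input describes the two strings -/
structure InpOf (q : Inp) (f f' : Vk p k → List Bool) : Prop where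
  kpos : 1 ≤ k
  rp : q.1 = List.range p
  ix : q.2.1 = List.range k
  t1 : TbOf q.2.2.1 f
  t2 : TbOf q.2.2.2 f'

/-- the context describes the two strings, at the level `j`, and the budget is large -/
structure Mod (c : Cx) (j : ℕ) (f f' : Vk p k → List Bool) : Prop where
  inp : InpOf c.2.2.2 f f'
  lev : c.lev.length = j
  four : 4 ≤ j
  big : (p ^ k * p ^ k + p ^ j + 2) ^ (j + 4) ≤ c.pad.length

/-- the list `Cl` describes the chain `C` -/
def RepC (c : Cx) (Cl : List (List Pt)) (C : Finset (Sub p (Wk p k))) : Prop :=
  ∀ z, z ∈ Cl ↔ ∃ U ∈ C, z = fl c (U : Set (Wk p k))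

/-- the state `σ` describes the abstract state `s` -/
def Rep (c : Cx) (σ : FS) (s : AS p k) : Prop := σ.1 = s.1.map (pn c) ∧ RepC c σ.2 s.2

end codes

/-- the test at one level -/
structure MSpec (mn : (List Unit × List Unit) × Inp → Option Bool) : Prop where
  pt : PT mn
  sound : ∀ (p k : ℕ) [Fact p.Prime] (f f' : Vk p k → List Bool) pad lev q b, InpOf q f f' →
    4 ≤ lev.length → (p ^ k * p ^ k + p ^ lev.length + 2) ^ (lev.length + 4) ≤ pad.length →
    mn ((pad, lev), q) = some b → (b = true ↔ LIso f f')
  halts : ∀ E : ℕ, ∃ c0 : ℕ, ∀ (p k : ℕ) [Fact p.Prime] (f f' : Vk p k → List Bool) pad lev q,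
    InpOf q f f' → 4 ≤ lev.length →
    (k < lev.length ∨ (p ≤ 2 ^ E ∧ k ≤ E * lev.length ∧ c0 ≤ lev.length)) →
    (p ^ k * p ^ k + p ^ lev.length + 2) ^ (8 * (lev.length + 1)) ≤ pad.length →
    mn ((pad, lev), q) ≠ none

/-- the position with the number `i`: the digits of `i` in base `p` -/
def vec (p k i : ℕ) : Fin k → ZMod p := fun l => ((i / p ^ (l : ℕ) : ℕ) : ZMod p)

/-- the string as a square matrix of bits: the row `i` is the letter at the position `vec p k i` -/
def strBits {p k : ℕ} (f : (Fin k → ZMod p) → Fin (p ^ k) → Bool) : List Bool :=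
  List.ofFn fun x : Fin (p ^ k * p ^ k) => f (vec p k x.divNat) x.modNat

/-- linear string isomorphism in time `n ^ o(log n)` -/
def FINAL : Prop :=
  ∃ (tm : Turing.FinTM2) (e₀ : tm.Γ tm.k₀ ≃ Bool) (e₁ : tm.Γ tm.k₁ ≃ Bool),
    (∀ k, Finite (tm.Γ k)) ∧ ∀ ε : ℝ, 0 < ε → ∃ C : ℝ,
      ∀ (p k : ℕ) [Fact p.Prime], 1 ≤ k → ∀ f f' : (Fin k → ZMod p) → Fin (p ^ k) → Bool,
        ∃ (t : ℕ) (b : Bool), (t : ℝ) ≤ C * ((p ^ k : ℕ) : ℝ) ^ (ε * Real.logb 2 (p ^ k : ℕ)) ∧
          Nonempty (Turing.TM2OutputsInTime tm ((strBits f ++ strBits f').map e₀.symm)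
            (Option.some ([b].map e₁.symm)) t) ∧
          (b = true ↔ ∃ g : (Fin k → ZMod p) ≃ₗ[ZMod p] (Fin k → ZMod p), ∀ v, f' (g v) = f v)

end Pool.Agent.P.MP_f1a348_lc.LS
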