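import Pool.Agent.P.MP_f1a348_lc.TO.GDefs

/-! The digraph of a string over a vector space. -/

set_option autoImplicit false

namespace Pool.Agent.P.MP_f1a348_lc.LS

/-- the vertices: a root, `m` bit positions, the points and the ordered pairs of points -/
inductive Nd (V : Type) (m : ℕ) : Type
  | root : Nd V m
  | bit (i : Fin m) : Nd V m
  | pt (v : V) : Nd V m
  | pair (u v : V) : Nd V m

/-- The arcs of the digraph of the string `f`: the root points to the bit positions, which are
linearly ordered; the position `i` points to `v` if the bit `i` of the letter `f v` is set; `u` and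
`v` point to the pair `(u, v)`, which points to `u + v`. -/
inductive StrArc {V : Type} [Add V] {m : ℕ} (f : V → Fin m → Bool) : Nd V m → Nd V m → Prop
  | root (i : Fin m) : StrArc f .root (.bit i)
  | lt (i l : Fin m) : i < l → StrArc f (.bit i) (.bit l)
  | col (i : Fin m) (v : V) : f v i = true → StrArc f (.bit i) (.pt v)
  | fst (u v : V) : StrArc f (.pt u) (.pair u v)
  | snd (u v : V) : StrArc f (.pt v) (.pair u v)
  | add (u v : V) : StrArc f (.pair u v) (.pt (u + v))

end Pool.Agent.P.MP_f1a348_lc.LS
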