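import Pool.Agent.P.MP_f1a348_lc.LS.DefsA
import Pool.Agent.P.MP_f1a348_lc.GI.PTA
import Pool.Agent.P.MP_f1a348_lc.GI.Tower
import Pool.Agent.P.MP_f1a348_lc.GI.Sims

/-! Linear string isomorphism: the unitriangular group, by a tower of moments. -/

set_option autoImplicit false
set_option linter.unusedSectionVars false

namespace Pool.Agent.P.MP_f1a348_lc.LS

open Module Submodule Pool.Agent.Lib.Helper47 Pool.Agent.P.MP_f1a348_lc.GI

namespace TW

/-- points and exponent vectors -/
abbrev Pt : Type := List ℕ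
/-- tables of strings -/
abbrev Tab : Type := List (Pt × List Bool)
/-- budget, modulus, two tables -/
abbrev In : Type := List Unit × ℕ × Tab × Tab

/-- the monomial with the exponents `a` at the point `x` -/
def monoV (pad : List Unit) (a x : Pt) : ℕ :=
  ((a.zip x).map (fun e => e.2 ^ (pad.take e.1).length)).foldl (fun r y => r * y) 1

/-- the weight of an exponent vector -/
def wtV (a : Pt) : ℕ := (a.zipIdx.map (fun e => e.1 * (e.2 + 1))).sum

/-- the moment of the letter `t.2` of the table `E` moved by `g` -/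
noncomputable def mom (pad : List Unit) (q : ℕ) (E : Tab) (t : Pt × List Bool) (g : FP Pt) : ℕ :=
  ((E.filter (fun e => e.2 == t.2)).map (fun e => monoV pad t.1 (g.app e.1))).sum % q

/-- the tests, by increasing weight -/
def tests (pad : List Unit) (E E' : Tab) : List (Pt × List Bool) :=
  (List.range pad.length).flatMap (fun n =>
    prodL ((E.map Prod.fst).filter (fun a => wtV a == n)) ((E ++ E').map Prod.snd))

/-- the map `x ↦ x + x s • c` -/
def colV (q s : ℕ) (c x : Pt) : Pt := List.zipWith (fun a b => (a + x.getD s 0 * b) % q) x c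

/-- the generators -/
noncomputable def gens (q : ℕ) (X : List Pt) : List (FP Pt) :=
  ((prodL (List.range (X.headD []).length) X).filter
    (fun sc => (sc.2.take (sc.1 + 1)).all (fun y => y == 0))).map
      (fun sc => FP.ofList (X.map (fun x => (x, colV q sc.1 sc.2 x))))

/-- the tower -/
noncomputable def tow (a : In) : Option (FP Pt × List (FP Pt)) :=
  tower (fun t u => mom a.1 a.2.1 a.2.2.1 t u == mom a.1 a.2.1 a.2.2.1 t 1)
    (fun t g => mom a.1 a.2.1 a.2.2.1 t g == mom a.1 a.2.1 a.2.2.2 t 1)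
    a.1 (a.2.2.1.map Prod.fst) (tests a.1 a.2.2.1 a.2.2.2) 1 (gens a.2.1 (a.2.2.1.map Prod.fst))

/-- the test -/
noncomputable def tw (a : In) : Bool :=
  (tow a).elim false (fun r => a.2.2.1.all (fun e => a.2.2.2.contains (r.1.app e.1, e.2)))

variable {p k : ℕ} [Fact p.Prime]

/-- the code of a point -/
def cd (v : Vk p k) : Pt := List.ofFn fun t => (v t).val

/-- `E` is the table of the string `f` -/
def IsTab (E : Tab) (f : Vk p k → List Bool) : Prop :=
  (E.map Prod.fst).Nodup ∧ ∀ x c, (x, c) ∈ E ↔ ∃ v, x = cd v ∧ c = f v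

/-- `X` lists the codes of all points -/
def IsPts (p k : ℕ) [Fact p.Prime] (X : List Pt) : Prop := ∀ x, x ∈ X ↔ ∃ v : Vk p k, x = cd v

/-- the permutation `g` of the codes is induced by `u` -/
def Ind (u : Vk p k ≃ₗ[ZMod p] Vk p k) (g : FP Pt) : Prop :=
  (∀ v, g.app (cd v) = cd (u v)) ∧ ∀ x, (∀ v : Vk p k, x ≠ cd v) → g.app x = x

/-- monomials as functions -/
def mono (α : Fin k → ℕ) (x : Vk p k) : ZMod p := ∏ t, x t ^ α t

/-- the weight -/
def wtF (α : Fin k → ℕ) : ℕ := ∑ t : Fin k, α t * (t + 1)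

/-- the exponents given by a point -/
def ex (a : Vk p k) : Fin k → ℕ := fun t => (a t).val

/-- the functions of weight below `N` -/
def Pl (p k : ℕ) [Fact p.Prime] (N : ℕ) : Submodule (ZMod p) (Vk p k → ZMod p) :=
  span (ZMod p) {h | ∃ α : Fin k → ℕ, wtF α < N ∧ h = mono α}

/-- the same with reduced exponents -/
def Pr (p k : ℕ) [Fact p.Prime] (N : ℕ) : Submodule (ZMod p) (Vk p k → ZMod p) :=
  span (ZMod p) {h | ∃ a : Vk p k, wtF (ex a) < N ∧ h = mono (ex a)}

open Classical in
/-- the moment of the letter `c` of the string `f` moved by `u` -/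
noncomputable def mm (f : Vk p k → List Bool) (c : List Bool) (a : Vk p k)
    (u : Vk p k ≃ₗ[ZMod p] Vk p k) : ZMod p :=
  ∑ v, if f v = c then mono (ex a) (u v) else 0

end TW

/-- the test for the unitriangular group -/
structure TWSpec (tw : TW.In → Bool) : Prop where
  pt : PT tw
  sound : ∀ (p k : ℕ) [Fact p.Prime] (f f' : Vk p k → List Bool) pad E E', TW.IsTab E f →
    TW.IsTab E' f' → tw (pad, p, E, E') = true → ∃ u, UT u ∧ ∀ v, f' (u v) = f v
  complete : ∀ (p k : ℕ) [Fact p.Prime] (f f' : Vk p k → List Bool) pad E E', TW.IsTab E f →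
    TW.IsTab E' f' → (p ^ (k + 1)) ^ 2 ≤ pad.length → (∃ u, UT u ∧ ∀ v, f' (u v) = f v) →
    tw (pad, p, E, E') = true

end Pool.Agent.P.MP_f1a348_lc.LS
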