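import Pool.Agent.P.MP_f1a348_lc.LS.DefsP
import Pool.Agent.P.MP_f1a348_lc.LS.DefsS
import Pool.Agent.P.MP_f1a348_lc.TO.GFin
import Pool.Agent.P.MP_f1a348_lc.TO.XFTIME

/-! Linear string isomorphism: the string is read off from the graph that encodes it. -/

set_option autoImplicit false
set_option linter.unusedSectionVars false

namespace Pool.Agent.P.MP_f1a348_lc.LS

open Pool.Agent.Lib.Helper47 Pool.Agent.P.MP_f1a348_lc.GI

namespace GW

/-- a digraph: vertices and arcs -/
abbrev Dg : Type := List ℕ × List (ℕ × ℕ)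

/-- the vertex without incoming arcs -/
def root (g : Dg) : ℕ := (g.1.find? (fun x => g.1.all (fun y => !g.2.contains (y, x)))).getD 0
/-- the bit positions -/
def bits0 (g : Dg) : List ℕ := g.1.filter (fun x => g.2.contains (root g, x))
/-- the bit positions in their order -/
def bits (g : Dg) : List ℕ :=
  (List.range (bits0 g).length).map (fun i => ((bits0 g).find? (fun x =>
    (bits0 g).countP (fun y => g.2.contains (y, x)) == i)).getD 0)
/-- the points -/
def pts (g : Dg) : List ℕ :=
  g.1.filter (fun x => x != root g && !(bits0 g).contains x &&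
    Nat.ble 2 (g.1.countP (fun y => g.2.contains (x, y))))
/-- the sum of two points -/
def add (g : Dg) (u v : ℕ) : ℕ :=
  ((pts g).find? (fun w => g.1.any (fun t => g.2.contains (u, t) && g.2.contains (v, t) &&
    g.2.contains (t, w) && (pts g).all (fun x => !g.2.contains (x, t) || x == u || x == v)))).getD 0
/-- the zero point -/
def zero (g : Dg) : ℕ := ((pts g).find? (fun z => add g z z == z)).getD 0
/-- the sum of `s` and of `u.length` copies of `w` -/
def mul (g : Dg) (s w : ℕ) (u : List ℕ) : ℕ := u.foldl (fun r _ => add g r w) s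
/-- a point that has no coordinates yet -/
def fresh (g : Dg) (T : List (Vc × ℕ)) : ℕ :=
  ((pts g).find? (fun w => !(T.map Prod.snd).contains w)).getD 0
/-- one more coordinate -/
def step (g : Dg) (rp : List ℕ) (T : List (Vc × ℕ)) : List (Vc × ℕ) :=
  (T.flatMap (fun e => rp.map (fun a => (a :: e.1, mul g e.2 (fresh g T) (rp.take a))))).take
    g.1.length
/-- the coordinates of the points -/
def tab (g : Dg) (rp ix : List ℕ) : List (Vc × ℕ) := (step g rp)^[ix.length] [([], zero g)]
/-- the string -/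
def tbl (g : Dg) (rp ix : List ℕ) : Tb :=
  (tab g rp ix).map (fun e => (e.1, (bits g).map (fun b => g.2.contains (b, e.2))))
/-- the digits -/
def rp (g : Dg) : List ℕ :=
  (List.range (pts g).length).take (primeN (List.range (pts g).length))
/-- the indices -/
def ix (g : Dg) : List ℕ := idxN (List.range (pts g).length) (primeN (List.range (pts g).length))
/-- the two strings -/
def inp (q : TO.Q) : Inp :=
  (rp (q.1, q.2.1), ix (q.1, q.2.1), tbl (q.1, q.2.1) (rp (q.1, q.2.1)) (ix (q.1, q.2.1)),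
    tbl q.2.2 (rp (q.1, q.2.1)) (ix (q.1, q.2.1)))
/-- the parsed input -/
def parseG (x : List Bool) : Inp := inp (TO.GG.dec (TO.FX.parse x))

/-- the digraph `g` is the digraph of the string `f`, with the names `ψ` -/
structure Is {p k m : ℕ} (g : Dg) (f : Vk p k → Fin m → Bool) (ψ : Nd (Vk p k) m → ℕ) : Prop where
  kpos : 1 ≤ k
  nd : g.1.Nodup
  inj : Function.Injective ψ
  mem : ∀ x, x ∈ g.1 ↔ ∃ v, ψ v = x
  arc : ∀ a b, (ψ a, ψ b) ∈ g.2 ↔ StrArc f a b

end GW

open TO in
/-- linear string isomorphism in time `n ^ o(log n)`, in graph form -/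
def GFINAL : Prop :=
  ∃ (tm : Turing.FinTM2) (e₀ : tm.Γ tm.k₀ ≃ Bool) (e₁ : tm.Γ tm.k₁ ≃ Bool),
    (∀ k, Finite (tm.Γ k)) ∧ ∀ ε : ℝ, 0 < ε → ∃ C : ℝ,
      ∀ (p k m : ℕ) [Fact p.Prime], 1 ≤ k → ∀ (f f' : (Fin k → ZMod p) → Fin m → Bool) (n : ℕ)
        (G H : SimpleGraph (Fin n)), Nonempty (G ≃g arcGraph (StrArc f)) →
        Nonempty (H ≃g arcGraph (StrArc f')) →
        ∃ (t : ℕ) (b : Bool), (t : ℝ) ≤ C * (n : ℝ) ^ (ε * Real.logb 2 n) ∧
          Nonempty (Turing.TM2OutputsInTime tm ((adjBits G ++ adjBits H).map e₀.symm)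
            (Option.some ([b].map e₁.symm)) t) ∧
          (b = true ↔ Nonempty (G ≃g H)) ∧
          (b = true ↔ ∃ g : (Fin k → ZMod p) ≃ₗ[ZMod p] (Fin k → ZMod p), ∀ v, f' (g v) = f v)

end Pool.Agent.P.MP_f1a348_lc.LS
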