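import Pool.Agent.P.MP_f1a348_lc.LS.Base
import Pool.Agent.P.MP_f1a348_lc.LS.TCLS

/-! Step ALG. -/

set_option autoImplicit false
set_option linter.unusedSectionVars false

namespace Pool.Agent.P.MP_f1a348_lc.LS

open Module Submodule

variable {p : ℕ} [Fact p.Prime] {W : Type} [AddCommGroup W] [Module (ZMod p) W] [Fintype W]
  {Γ : Sys p W} {ι : Type} [Fintype ι] {P P' P'' R R' b : List (Pm p W)} {φ ψ : Iso p W}
  {A B B' D T U U' V : Sub p W} {S X Y : Set W} {a a' c v w x x' y y' z μ : W} {n m r : ℕ}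
  {s t : ι} {l l' : List W}

theorem Geo.p_le_Q (G : Geo Γ ι) : p ≤ G.Q := by
  have hp : 1 ≤ p := (Fact.out : p.Prime).one_lt.le
  have h1 := G.hC
  calc p = p ^ 1 := (pow_one p).symm
    _ ≤ p ^ (G.K * G.j + G.C) := Nat.pow_le_pow_right hp (by omega)

theorem Geo.two_le_Q (G : Geo Γ ι) : 2 ≤ G.Q := by
  exact (Fact.out : p.Prime).two_le.trans G.p_le_Q

theorem Geo.gapQ (G : Geo Γ ι) (s : ι) : G.Q ^ 64 * nc (G.lo s) < G.N s := by
  exact G.gap s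

theorem Geo.lo_le_hi (G : Geo Γ ι) (s : ι) : G.lo s ≤ G.hi s := by
  exact (G.lo_le s [] (Γ.ok_nil _)).trans (G.le_hi s [] (Γ.ok_nil _))

theorem Geo.nc_Lam (G : Geo Γ ι) (hP : Γ.Ok G.j P) (s : ι) :
    nc (G.Lam s P) ≤ p ^ (G.K * P.length) * nc (G.lo s) := by
  have hp : 1 ≤ p := (Fact.out : p.Prime).one_lt.le
  rw [nc_eq, nc_eq, ← pow_add]
  have h1 := G.dim s P hP
  exact Nat.pow_le_pow_right hp (by omega)

theorem Geo.nc_LamQ (G : Geo Γ ι) (hP : Γ.Ok G.j P) (s : ι) :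
    nc (G.Lam s P) ≤ G.Q * nc (G.lo s) := by
  have hp : 1 ≤ p := (Fact.out : p.Prime).one_lt.le
  refine (G.nc_Lam hP s).trans (Nat.mul_le_mul_right _ ?_)
  have h1 : G.K * P.length ≤ G.K * G.j := Nat.mul_le_mul_left _ hP.1
  exact Nat.pow_le_pow_right hp (by omega)

theorem Geo.bigQ (G : Geo Γ ι) (hP : Γ.Ok G.j P) (hx : x ∈ G.hi s) (hx' : x ∉ G.Lam s P) :
    G.N s ≤ G.Q * (Γ.cls P (G.lo s) x).ncard := by
  have hp : 1 ≤ p := (Fact.out : p.Prime).one_lt.le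
  refine (G.big s P hP x hx hx').trans (Nat.mul_le_mul_right _ ?_)
  have h1 : G.K * P.length ≤ G.K * G.j := Nat.mul_le_mul_left _ hP.1
  exact Nat.pow_le_pow_right hp (by omega)

theorem Geo.alg (G : Geo Γ ι) (hP : Γ.Ok G.j P) (hx : x ∈ G.hi s)
    (h : (Γ.cls P (G.lo s) x).ncard ≤ G.Q ^ 63 * nc (G.lo s)) : x ∈ G.Lam s P := by
  by_contra hx'
  have h1 := G.bigQ hP hx hx'
  have h2 := G.gapQ s
  have h3 : G.Q * (Γ.cls P (G.lo s) x).ncard ≤ G.Q * (G.Q ^ 63 * nc (G.lo s)) :=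
    Nat.mul_le_mul_left _ h
  have h4 : G.Q * (G.Q ^ 63 * nc (G.lo s)) = G.Q ^ 64 * nc (G.lo s) := by ring
  omega

theorem Geo.cls_Lam (G : Geo Γ ι) (hP : Γ.Ok G.j P) (hx : x ∈ G.Lam s P) :
    Γ.cls P (G.lo s) x ⊆ G.Lam s P := by
  exact Sys.cls_sub (G.inv s P hP) (G.lo_le s P hP) hx

theorem Geo.cls_hi (G : Geo Γ ι) (P : List (Pm p W)) (hx : x ∈ G.hi s) :
    Γ.cls P (G.lo s) x ⊆ G.hi s := by
  exact Sys.cls_sub ((G.dhi s).inv P) (G.lo_le_hi s) hx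

theorem Geo.small (G : Geo Γ ι) (hP : Γ.Ok G.j P) (hx : x ∈ G.Lam s P) :
    (Γ.cls P (G.lo s) x).ncard ≤ G.Q * nc (G.lo s) := by
  exact (Set.ncard_le_ncard (G.cls_Lam hP hx) (Set.toFinite _)).trans (G.nc_LamQ hP s)

theorem Geo.mono (G : Geo Γ ι) (hP : Γ.Ok G.j P) (hP' : Γ.Ok G.j P') (h : P ⊆ P') (s : ι) :
    G.Lam s P ≤ G.Lam s P' := by
  intro x hx
  refine G.alg hP' (G.le_hi s P hP hx) ?_
  refine (Set.ncard_le_ncard (Sys.cls_mono h _ _) (Set.toFinite _)).trans ?_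
  refine (G.small hP hx).trans (Nat.mul_le_mul_right _ ?_)
  exact Nat.le_self_pow (by norm_num) _

theorem Geo.Lam_congr (G : Geo Γ ι) (hP : Γ.Ok G.j P) (hP' : Γ.Ok G.j P') (h : P ⊆ P')
    (h' : P' ⊆ P) (s : ι) : G.Lam s P = G.Lam s P' := by
  exact le_antisymm (G.mono hP hP' h s) (G.mono hP' hP h' s)

theorem Geo.mem_Lam_fixed (G : Geo Γ ι) (hP : Γ.Ok G.j P) (hR : R ⊆ P)
    (hm : ∀ e ∈ R, e.1 ≤ G.lo s) (hx : x ∈ sp R ⊔ G.lo s) (hx' : x ∈ G.hi s) : x ∈ G.Lam s P := by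
  refine G.alg hP hx' ?_
  rw [Sys.cls_fixed_card (G.dlo s) hR hm hx]
  have h1 : 0 < G.Q := lt_of_lt_of_le (by norm_num) G.two_le_Q
  exact Nat.le_mul_of_pos_left _ (pow_pos h1 _)

theorem Geo.mem_Lam_pin (G : Geo Γ ι) (hP : Γ.Ok G.j P) (h : (G.lo s, x) ∈ P)
    (hx : x ∈ G.hi s) : x ∈ G.Lam s P := by
  refine G.mem_Lam_fixed (R := [(G.lo s, x)]) hP ?_ ?_ ?_ hx
  · intro e he
    rw [List.mem_singleton.1 he]
    exact h
  · intro e he
    rw [List.mem_singleton.1 he]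
  · exact Submodule.mem_sup_left (mem_sp (e := (G.lo s, x)) (List.mem_singleton.2 rfl))

theorem Geo.cls_cand (G : Geo Γ ι) (P : List (Pm p W)) (hx : x ∈ G.cand s) :
    Γ.cls P (G.lo s) x ⊆ G.cand s := by
  exact (Sys.cls_mono (List.nil_subset P) _ _).trans (G.cand_cls s x hx)

theorem Geo.cand_le (G : Geo Γ ι) (P : List (Pm p W)) (hx : x ∈ G.cand s) :
    (Γ.cls P (G.lo s) x).ncard ≤ G.N s := by
  rw [← G.cand_card s]
  exact Set.ncard_le_ncard (G.cls_cand P hx) (Set.toFinite _)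

theorem Geo.exists_cand (G : Geo Γ ι) (hP : Γ.Ok G.j P) (s : ι) :
    ∃ a ∈ G.cand s, a ∉ G.Lam s P := by
  by_contra hc
  have h0 : G.cand s ⊆ G.Lam s P := fun a ha => by
    by_contra h
    exact hc ⟨a, ha, h⟩
  have h1 : G.N s ≤ nc (G.Lam s P) := by
    rw [← G.cand_card s]
    exact Set.ncard_le_ncard h0 (Set.toFinite _)
  have h2 := G.nc_LamQ hP s
  have h3 := G.gapQ s
  have h4 : G.Q * nc (G.lo s) ≤ G.Q ^ 64 * nc (G.lo s) :=
    Nat.mul_le_mul_right _ (Nat.le_self_pow (by norm_num) _)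
  omega

/-- a generic point has a conjugate outside any other small part -/
theorem Geo.out (G : Geo Γ ι) (hP : Γ.Ok G.j P) (hP' : Γ.Ok G.j P') (hx : x ∈ G.hi s)
    (hx' : x ∉ G.Lam s P) : ∃ y ∈ Γ.cls P (G.lo s) x, y ∉ G.Lam s P' := by
  by_contra hc
  have h0 : Γ.cls P (G.lo s) x ⊆ G.Lam s P' := fun a ha => by
    by_contra h
    exact hc ⟨a, ha, h⟩
  refine hx' (G.alg hP hx ?_)
  refine (Set.ncard_le_ncard h0 (Set.toFinite _)).trans ?_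
  refine (G.nc_LamQ hP' s).trans (Nat.mul_le_mul_right _ ?_)
  exact Nat.le_self_pow (by norm_num) _

end Pool.Agent.P.MP_f1a348_lc.LS
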