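import Pool.Agent.P.MP_f1a348_lc.LS.Base
import Pool.Agent.P.MP_f1a348_lc.LS.TCLS

/-! Step T0. -/

set_option autoImplicit false
set_option linter.unusedSectionVars false

namespace Pool.Agent.P.MP_f1a348_lc.LS

open Module Submodule

variable {p : ℕ} [Fact p.Prime] {W : Type} [AddCommGroup W] [Module (ZMod p) W] [Fintype W]
  {Γ : Sys p W} {ι : Type} [Fintype ι] {P P' P'' R R' b : List (Pm p W)} {φ ψ : Iso p W}
  {A B B' D T U U' V : Sub p W} {S X Y : Set W} {a a' c v w x x' y y' z μ : W} {n m r : ℕ}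
  {s t : ι} {l l' : List W}

theorem T0x.le (h : Γ.Sim ((B, x) :: P) ((B, x') :: P')) (hP : Γ.Ok n P)
    (hB : Γ.Def B) (hn : 2 * n + 2 ≤ Γ.M) : (Γ.cls P B x).ncard ≤ (Γ.cls P' B x').ncard := by
  have hl := hP.1
  obtain ⟨e, he⟩ := h.tail.bij (by omega)
  have hP' : Γ.Ok n P' := h.tail.ok hP
  refine Set.ncard_le_ncard_of_injOn e (fun y hy => ?_) e.injective.injOn (Set.toFinite _)
  have h1 := h.symm (hP.cons hB x) (by omega)
  have h2 := h1.trans hy (hP'.cons hB x') (by omega)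
  exact h2.trans (he B y) (hP'.cons hB x') (by omega)

-- the bijection of `Sim.bij` maps one class onto the other
theorem Sys.Sim.cls_card (h : Γ.Sim ((B, x) :: P) ((B, x') :: P')) (hP : Γ.Ok n P)
    (hB : Γ.Def B) (hn : 2 * n + 2 ≤ Γ.M) : (Γ.cls P B x).ncard = (Γ.cls P' B x').ncard := by
  refine le_antisymm (T0x.le h hP hB hn) ?_
  exact T0x.le (h.symm (hP.cons hB x) (by omega)) (h.tail.ok hP) hB hn

end Pool.Agent.P.MP_f1a348_lc.LS
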