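import Pool.Agent.P.MP_f1a348_lc.LS.Base
import Pool.Agent.P.MP_f1a348_lc.LS.TT0

/-! Step FIB. -/

set_option autoImplicit false
set_option linter.unusedSectionVars false

namespace Pool.Agent.P.MP_f1a348_lc.LS

open Module Submodule

variable {p : ℕ} [Fact p.Prime] {W : Type} [AddCommGroup W] [Module (ZMod p) W] [Fintype W]
  {Γ : Sys p W} {ι : Type} [Fintype ι] {P P' P'' R R' b : List (Pm p W)} {φ ψ : Iso p W}
  {A B B' D T U U' V : Sub p W} {S X Y : Set W} {a a' c v w x x' y y' z μ : W} {n m r : ℕ}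
  {s t : ι} {l l' : List W}

namespace FIBx

theorem count (r : W → W → Prop) (S : Set W) (k : ℕ) (h1 : ∀ u v, r u v → u ∈ S)
    (h2 : ∀ u ∈ S, {v | r u v}.ncard = k) :
    {q : W × W | r q.1 q.2}.ncard = S.ncard * k := by
  classical
  have e1 : {q : W × W | r q.1 q.2} =
      ↑((Set.toFinite S).toFinset.biUnion fun u =>
        (Finset.univ.filter fun v => r u v).image fun v => (u, v)) := by
    ext ⟨u, v⟩
    simp only [Set.mem_ofPred_eq, Finset.coe_biUnion, Set.mem_iUnion, Finset.mem_coe,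
      Finset.mem_image, Finset.mem_filter, Finset.mem_univ, true_and, Prod.mk.injEq,
      Set.Finite.mem_toFinset]
    constructor
    · intro h
      exact ⟨u, h1 u v h, v, h, rfl, rfl⟩
    · rintro ⟨u', -, v', h, rfl, rfl⟩
      exact h
  rw [e1, Set.ncard_coe_finset, Finset.card_biUnion, Set.ncard_eq_toFinset_card S (Set.toFinite S),
    ← smul_eq_mul, ← Finset.sum_const]
  · refine Finset.sum_congr rfl fun u hu => ?_
    rw [Finset.card_image_of_injective _ fun v v' h => (Prod.mk.inj h).2,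
      ← h2 u ((Set.Finite.mem_toFinset _).1 hu), ← Set.ncard_coe_finset]
    congr 1
    ext v
    simp
  · intro u _ u' _ hne
    refine Finset.disjoint_left.2 fun q hq hq' => hne ?_
    obtain ⟨v, -, rfl⟩ := Finset.mem_image.1 hq
    obtain ⟨v', -, h⟩ := Finset.mem_image.1 hq'
    exact (Prod.mk.inj h).1.symm

theorem pairs (hP : Γ.Ok n P) (hB : Γ.Def B) (hB' : Γ.Def B') (hn : 2 * n + 4 ≤ Γ.M) (x y : W) :
    {q : W × W | Γ.Sim ((B', y) :: (B, x) :: P) ((B', q.2) :: (B, q.1) :: P)}.ncard =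
      (Γ.cls P B x).ncard * (Γ.cls ((B, x) :: P) B' y).ncard := by
  refine count (fun u v => Γ.Sim ((B', y) :: (B, x) :: P) ((B', v) :: (B, u) :: P)) _ _
    (fun u v h => h.tail) fun u hu => ?_
  have l1 := hP.1
  obtain ⟨e, he⟩ := Sys.Sim.bij (Γ := Γ) hu (by rw [List.length_cons]; omega)
  have h1 := he B' y
  have o1 := hP.cons hB x
  have o2 := o1.cons hB' y
  rw [h1.cls_card o1 hB' (by omega)]
  congr 1
  ext v
  exact ⟨fun h => (h1.symm o2 (by omega)).trans h (h1.ok o2) (by omega),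
    fun h => h1.trans h o2 (by omega)⟩

end FIBx

-- both sides count the pairs `(x', y')` with `Sim ((B', y) :: (B, x) :: P) ((B', y') :: (B, x') :: P)`:
-- the fibre over `x'` is a class over `(B, x') :: P` (`Sim.bij`), its size is constant (`Sim.cls_card`)
theorem Sys.swap (hP : Γ.Ok n P) (hB : Γ.Def B) (hB' : Γ.Def B') (hn : 2 * n + 4 ≤ Γ.M)
    (x y : W) : (Γ.cls P B x).ncard * (Γ.cls ((B, x) :: P) B' y).ncard =
      (Γ.cls P B' y).ncard * (Γ.cls ((B', y) :: P) B x).ncard := by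
  rw [← FIBx.pairs hP hB hB' hn x y, ← FIBx.pairs hP hB' hB hn y x]
  refine Set.ncard_congr (fun q _ => q.swap) (fun q hq => Sys.Sim.swap hq)
    (fun q q' _ _ h => Prod.swap_injective h) fun q hq => ⟨q.swap, Sys.Sim.swap hq, rfl⟩

end Pool.Agent.P.MP_f1a348_lc.LS
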