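import Pool.Agent.P.MP_f1a348_lc.LS.Base
import Pool.Agent.P.MP_f1a348_lc.LS.TFIB
import Pool.Agent.P.MP_f1a348_lc.LS.TALG

/-! Step IDEM. -/

set_option autoImplicit false
set_option linter.unusedSectionVars false

namespace Pool.Agent.P.MP_f1a348_lc.LS

open Module Submodule

variable {p : ℕ} [Fact p.Prime] {W : Type} [AddCommGroup W] [Module (ZMod p) W] [Fintype W]
  {Γ : Sys p W} {ι : Type} [Fintype ι] {P P' P'' R R' b : List (Pm p W)} {φ ψ : Iso p W}
  {A B B' D T U U' V : Sub p W} {S X Y : Set W} {a a' c v w x x' y y' z μ : W} {n m r : ℕ}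
  {s t : ι} {l l' : List W}

-- `swap`, `nc_le_cls`, `small`, `alg`
theorem Geo.idem' (G : Geo Γ ι) (hP : Γ.Ok n P) (hn : n + 1 ≤ G.j) (hB : Γ.Def B)
    (h : (Γ.cls P B w).ncard ≤ G.Q ^ 60 * nc B) (s : ι) : G.Lam s ((B, w) :: P) = G.Lam s P := by
  have hP1 := (hP.cons hB w).mono hn
  have hP0 := hP.mono (show n ≤ G.j by omega)
  refine le_antisymm (fun x hx => ?_) (G.mono hP0 hP1 (List.subset_cons_self _ _) s)
  refine G.alg hP0 (G.le_hi s _ hP1 hx) ?_
  have e := Γ.swap hP hB (G.dlo s) (by have := G.hM; omega) w x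
  have h1 := G.small hP1 hx
  have h2 : nc B ≤ (Γ.cls ((G.lo s, x) :: P) B w).ncard := Γ.nc_le_cls _ _ _
  refine Nat.le_of_mul_le_mul_right ?_ (nc_pos B)
  calc (Γ.cls P (G.lo s) x).ncard * nc B ≤ _ := Nat.mul_le_mul_left _ h2
    _ = _ := e.symm
    _ ≤ G.Q ^ 60 * nc B * (G.Q * nc (G.lo s)) := Nat.mul_le_mul h h1
    _ = G.Q ^ 61 * nc (G.lo s) * nc B := by ring
    _ ≤ _ := Nat.mul_le_mul_right _ (Nat.mul_le_mul_right _
      (Nat.pow_le_pow_right (by have := G.two_le_Q; omega) (by norm_num)))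

theorem Geo.idem (G : Geo Γ ι) (hP : Γ.Ok n P) (hn : n + 1 ≤ G.j) (h : μ ∈ G.Lam t P) (s : ι) :
    G.Lam s ((G.lo t, μ) :: P) = G.Lam s P := by
  exact G.idem' hP hn (G.dlo t) ((G.small (hP.mono (by omega)) h).trans
    (Nat.mul_le_mul_right _ (Nat.le_self_pow (by norm_num) _))) s

theorem Geo.idemL (G : Geo Γ ι) (hP : Γ.Ok n P) (hn : n + R.length ≤ G.j)
    (h : ∀ e ∈ R, ∃ t, e.1 = G.lo t ∧ e.2 ∈ G.Lam t P) (s : ι) : G.Lam s (R ++ P) = G.Lam s P := by
  induction R generalizing s with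
  | nil => rfl
  | cons e R ih =>
    rw [List.length_cons] at hn
    have ih' := fun s => ih (by omega) (fun f hf => h f (List.mem_cons_of_mem _ hf)) s
    obtain ⟨t, h1, h2⟩ := h e List.mem_cons_self
    have hR : Γ.Ok (n + R.length) (R ++ P) := ⟨by rw [List.length_append]; have := hP.1; omega,
      fun c hc => (List.mem_append.1 hc).elim (fun hc => by
        obtain ⟨t, a, -⟩ := h c (List.mem_cons_of_mem _ hc)
        exact a ▸ G.dlo t) (hP.2 c)⟩
    obtain ⟨B, μ⟩ := e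
    obtain rfl : B = G.lo t := h1
    rw [List.cons_append, G.idem hR (by omega) (by rw [ih']; exact h2), ih']

theorem Geo.le_of_mem (G : Geo Γ ι) (hP' : Γ.Ok n P') (hn : n + 1 ≤ G.j) (hP : P.length ≤ n)
    (hs : P ⊆ P') (h : μ ∈ G.Lam t P') (s : ι) : G.Lam s ((G.lo t, μ) :: P) ≤ G.Lam s P' := by
  rw [← G.idem hP' hn h s]
  exact G.mono (((hP'.of_subset hs hP).cons (G.dlo t) μ).mono hn) ((hP'.cons (G.dlo t) μ).mono hn)
    (List.cons_subset_cons _ hs) s

end Pool.Agent.P.MP_f1a348_lc.LS
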