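import Pool.Agent.P.MP_f1a348_lc.LS.Base
import Pool.Agent.P.MP_f1a348_lc.LS.TT0
import Pool.Agent.P.MP_f1a348_lc.LS.TALG

/-! Step EQV. -/

set_option autoImplicit false
set_option linter.unusedSectionVars false

namespace Pool.Agent.P.MP_f1a348_lc.LS

open Module Submodule

variable {p : ℕ} [Fact p.Prime] {W : Type} [AddCommGroup W] [Module (ZMod p) W] [Fintype W]
  {Γ : Sys p W} {ι : Type} [Fintype ι] {P P' P'' R R' b : List (Pm p W)} {φ ψ : Iso p W}
  {A B B' D T U U' V : Sub p W} {S X Y : Set W} {a a' c v w x x' y y' z μ : W} {n m r : ℕ}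
  {s t : ι} {l l' : List W}

theorem Geo.mem_Lam_sim (G : Geo Γ ι) (h : Γ.Sim ((G.lo s, x) :: P) ((G.lo s, x') :: P'))
    (hP : Γ.Ok G.j P) (hx : x ∈ G.Lam s P) : x' ∈ G.Lam s P' := by
  have hM := G.hM
  have hP' : Γ.Ok G.j P' := h.tail.ok hP
  have hc := h.cls_card hP (G.dlo s) (by omega)
  have hs := G.small hP hx
  have hx' : x' ∈ G.hi s := by
    obtain ⟨φ, hφ, hm⟩ := h
    have h1 : φ x - x' ∈ G.lo s := (mv_cons.1 hm).2.1
    have h2 : φ x ∈ G.hi s :=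
      (G.dhi s).map hφ (mem_sp (e := (G.lo s, x)) List.mem_cons_self) (G.le_hi s P hP hx)
    simpa using (G.hi s).sub_mem h2 (G.lo_le_hi s h1)
  refine G.alg hP' hx' ?_
  rw [← hc]
  refine hs.trans (Nat.mul_le_mul_right _ ?_)
  exact Nat.le_self_pow (by omega) _

theorem Geo.map_Lam (G : Geo Γ ι) (h : Γ.L U φ) (hU : sp P ≤ U) (hm : Mv φ P P')
    (hP : Γ.Ok G.j P) (hxU : x ∈ U) (hx : x ∈ G.Lam s P) : φ x ∈ G.Lam s P' := by
  refine G.mem_Lam_sim ⟨φ, Sys.mono h ?_, mv_cons.2 ⟨rfl, by simp, hm⟩⟩ hP hx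
  rw [sp_cons]
  exact sup_le ((span_singleton_le_iff_mem _ _).2 hxU) hU

theorem Geo.not_mem_Lam_cls (G : Geo Γ ι) (hP : Γ.Ok G.j P) (hx : x ∉ G.Lam s P)
    (hy : y ∈ Γ.cls P (G.lo s) x) : y ∉ G.Lam s P := by
  have hM := G.hM
  exact fun h => hx (G.cls_Lam hP h (Sys.cls_symm hP (G.dlo s) (by omega) hy))

-- the bijection of `Sim.bij` maps one small part onto the other; `nc_eq`
theorem Geo.finrank_Lam_sim (G : Geo Γ ι) (h : Γ.Sim P P') (hP : Γ.Ok G.j P) (s : ι) :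
    finrank (ZMod p) (G.Lam s P) = finrank (ZMod p) (G.Lam s P') := by
  have hM := G.hM
  have hl := hP.1
  obtain ⟨e, he⟩ := h.bij (by omega)
  have hP' : Γ.Ok G.j P' := h.ok hP
  have him : e '' (G.Lam s P : Set W) = G.Lam s P' := by
    ext y
    constructor
    · rintro ⟨w, hw, rfl⟩
      exact G.mem_Lam_sim (he _ w) hP hw
    · intro hy
      obtain ⟨w, rfl⟩ := e.surjective y
      exact ⟨w, G.mem_Lam_sim ((he _ w).symm (hP.cons (G.dlo s) w) (by omega)) hP' hy, rfl⟩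
  have hn : nc (G.Lam s P) = nc (G.Lam s P') := by
    unfold nc
    rw [← him, Set.ncard_image_of_injective _ e.injective]
  rw [nc_eq, nc_eq] at hn
  exact Nat.pow_right_injective (Fact.out : p.Prime).two_le hn

theorem Geo.tot_sim (G : Geo Γ ι) (h : Γ.Sim P P') (hP : Γ.Ok G.j P) : G.tot P = G.tot P' := by
  exact Finset.sum_congr rfl fun s _ => G.finrank_Lam_sim h hP s

end Pool.Agent.P.MP_f1a348_lc.LS
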