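import Pool.Agent.P.MP_f1a348_lc.LS.DefsB
import Pool.Agent.P.MP_f1a348_lc.LS.TSPAN
import Pool.Agent.P.MP_f1a348_lc.LS.TEQV

/-! Step STAR. -/

set_option autoImplicit false
set_option linter.unusedSectionVars false

namespace Pool.Agent.P.MP_f1a348_lc.LS

open Module Submodule

variable {p : ℕ} [Fact p.Prime] {W : Type} [AddCommGroup W] [Module (ZMod p) W] [Fintype W]
  {Γ : Sys p W} {ι : Type} [Fintype ι] {P P' Q b : List (Pm p W)} {φ ψ : Iso p W}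
  {A B U V : Sub p W} {o o' t w x x' y y' z μ : W} {n k r R : ℕ} {s u : ι}
  {m m' v : List (ι × W)} {I J : Type}

-- `inj`, `lo_star`, `hi_star`, `perp_perp`
theorem Den.star_star (G : Den Γ ι) (s : ι) : G.star (G.star s) = s := by
  apply G.inj
  rw [G.lo_star, G.hi_star, Γ.perp_perp]

theorem Den.mem_Ann (G : Den Γ ι) : x ∈ G.Ann s P ↔ ∀ y ∈ G.Lam (G.star s) P, Γ.β y x = 0 := by
  exact Sys.mem_perp

theorem Den.beta_Ann (G : Den Γ ι) (hx : x ∈ G.Ann (G.star s) P) (hy : y ∈ G.Lam s P) :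
    Γ.β x y = 0 := by
  have h1 := G.mem_Ann.1 hx y (by rw [G.star_star]; exact hy)
  rw [Γ.symm]; exact h1

theorem Den.beta_lo (G : Den Γ ι) (hx : x ∈ G.lo s) (hy : y ∈ G.hi (G.star s)) : Γ.β x y = 0 := by
  rw [G.hi_star] at hy
  exact Sys.mem_perp.1 hy x hx

theorem Den.beta_hi (G : Den Γ ι) (hx : x ∈ G.hi s) (hy : y ∈ G.lo (G.star s)) : Γ.β x y = 0 := by
  rw [G.lo_star] at hy
  exact Sys.mem_perp.1 hy x hx

theorem Den.lo_le_Ann (G : Den Γ ι) (hP : Γ.Ok G.j P) (s : ι) : G.lo s ≤ G.Ann s P := by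
  intro x hx
  refine G.mem_Ann.2 fun y hy => ?_
  rw [Γ.symm]
  exact G.beta_lo hx (G.le_hi _ _ hP hy)

theorem Den.Ann_le_hi (G : Den Γ ι) (hP : Γ.Ok G.j P) (s : ι) : G.Ann s P ≤ G.hi s := by
  intro x hx
  rw [← Γ.perp_perp (G.hi s)]
  refine Sys.mem_perp.2 fun y hy => ?_
  rw [← G.lo_star] at hy
  exact G.mem_Ann.1 hx y (G.lo_le _ _ hP hy)

theorem Den.Ann_anti (G : Den Γ ι) (hP : Γ.Ok G.j P) (hP' : Γ.Ok G.j P') (h : P ⊆ P') (s : ι) :
    G.Ann s P' ≤ G.Ann s P := by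
  intro x hx
  exact G.mem_Ann.2 fun y hy => G.mem_Ann.1 hx y (G.toGeo.mono hP hP' h _ hy)

theorem Den.Ann_inv (G : Den Γ ι) (hP : Γ.Ok G.j P) (s : ι) : Γ.Inv P (G.Ann s P) := by
  have := G.hM
  exact Sys.Inv.perp (G.inv _ _ hP) hP (by omega)

theorem Den.cls_Ann (G : Den Γ ι) (hP : Γ.Ok G.j P) (hx : x ∈ G.Ann s P) :
    Γ.cls P (G.lo s) x ⊆ G.Ann s P := by
  exact Sys.cls_sub (G.Ann_inv hP s) (G.lo_le_Ann hP s) hx

-- for `y' ∈ Lam (star s) P'` pull `y'` back (`Sim.symm`, `Sim.bij` or `ext_onto`), `map_Lam`, `pres`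
theorem Den.mem_Ann_sim (G : Den Γ ι) (h : Γ.Sim ((G.lo s, x) :: P) ((G.lo s, x') :: P'))
    (hP : Γ.Ok G.j P) (hx : x ∈ G.Ann s P) : x' ∈ G.Ann s P' := by
  have hM := G.hM
  have hP' : Γ.Ok G.j P' := h.tail.ok hP
  obtain ⟨φ, hL, hm⟩ := h
  obtain ⟨-, hφ, hm'⟩ := mv_cons.1 hm
  refine G.mem_Ann.2 fun y' hy' => ?_
  have hd : finrank (ZMod p) (sp ((G.lo s, x) :: P)) < Γ.M := by
    have h1 := finrank_sp ((G.lo s, x) :: P)
    have h2 := hP.1
    simp only [List.length_cons] at h1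
    omega
  obtain ⟨y, φ', hL', he, hy⟩ := Sys.ext_onto hL hd y'
  have hxU : x ∈ sp ((G.lo s, x) :: P) := mem_sp (e := (G.lo s, x)) List.mem_cons_self
  have hPU : sp P ≤ sp ((G.lo s, x) :: P) := sp_mono (List.subset_cons_self _ _)
  have hS : Γ.Sim ((G.lo (G.star s), y) :: P) ((G.lo (G.star s), y') :: P') := by
    refine ⟨φ', Sys.mono hL' ?_, mv_cons.2 ⟨rfl, ?_, hm'.congr fun z hz => he z (hPU hz)⟩⟩
    · rw [sp_cons]
      exact sup_le le_sup_right (hPU.trans le_sup_left)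
    · rw [hy, sub_self]; exact zero_mem _
  have hS' := hS.symm (hP.cons (G.dlo _) y) (by omega)
  have hyL : y ∈ G.Lam (G.star s) P := G.toGeo.mem_Lam_sim hS' hP' hy'
  have h1 : Γ.β (φ' y) (φ' x) = Γ.β y x :=
    Γ.pres hL' (mem_sup_right (mem_span_singleton_self y)) (mem_sup_left hxU)
  rw [hy, he x hxU, G.mem_Ann.1 hx y hyL] at h1
  have h2 : Γ.β (φ x - x') y' = 0 := G.beta_lo hφ (G.le_hi _ _ hP' hy')
  rw [Γ.symm, map_sub, h1, zero_sub, neg_eq_zero] at h2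
  exact h2

theorem Den.map_Ann (G : Den Γ ι) (h : Γ.L U φ) (hU : sp P ≤ U) (hm : Mv φ P P')
    (hP : Γ.Ok G.j P) (hxU : x ∈ U) (hx : x ∈ G.Ann s P) : φ x ∈ G.Ann s P' := by
  refine G.mem_Ann_sim (x := x) (P := P) ⟨φ, Sys.mono h ?_, mv_cons.2 ⟨rfl, ?_, hm⟩⟩ hP hx
  · rw [sp_cons]
    exact sup_le ((span_singleton_le_iff_mem _ _).2 hxU) hU
  · rw [sub_self]; exact zero_mem _

theorem Den.finrank_Ann (G : Den Γ ι) (hP : Γ.Ok G.j P) (s : ι) :
    finrank (ZMod p) (G.hi s) ≤ finrank (ZMod p) (G.Ann s P) + G.K * P.length := by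
  have h1 := Γ.finrank_perp (G.Lam (G.star s) P)
  have h2 := Γ.finrank_perp (G.hi s)
  have h3 := G.dim (G.star s) P hP
  rw [← G.lo_star] at h2
  change finrank (ZMod p) (G.Ann s P) + _ = _ at h1
  omega

theorem Sys.perp_inf (Γ : Sys p W) (U V : Sub p W) : Γ.perp (U ⊓ V) = Γ.perp U ⊔ Γ.perp V := by
  have h1 : ∀ A B : Sub p W, Γ.perp (A ⊔ B) = Γ.perp A ⊓ Γ.perp B := by
    intro A B
    ext x
    simp only [mem_inf, Sys.mem_perp]
    constructor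
    · intro h
      exact ⟨fun u hu => h u (mem_sup_left hu), fun u hu => h u (mem_sup_right hu)⟩
    · rintro ⟨h1, h2⟩ u hu
      obtain ⟨a, ha, b, hb, rfl⟩ := mem_sup.1 hu
      rw [map_add, LinearMap.add_apply, h1 a ha, h2 b hb, add_zero]
  have h2 := h1 (Γ.perp U) (Γ.perp V)
  rw [Γ.perp_perp, Γ.perp_perp] at h2
  rw [← h2, Γ.perp_perp]

theorem Sys.perp_sup (Γ : Sys p W) (U V : Sub p W) : Γ.perp (U ⊔ V) = Γ.perp U ⊓ Γ.perp V := by
  ext x
  simp only [mem_inf, Sys.mem_perp]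
  constructor
  · intro h
    exact ⟨fun u hu => h u (mem_sup_left hu), fun u hu => h u (mem_sup_right hu)⟩
  · rintro ⟨h1, h2⟩ u hu
    obtain ⟨a, ha, b, hb, rfl⟩ := mem_sup.1 hu
    rw [map_add, LinearMap.add_apply, h1 a ha, h2 b hb, add_zero]

-- the complement of the sum is `Ann (star s) ⊓ Lam (star s) ≤ lo (star s)`
theorem Den.ND.hi_le {G : Den Γ ι} (h : G.ND P) (s : ι) : G.hi s ≤ G.Lam s P ⊔ G.Ann s P := by
  intro x hx
  rw [← Γ.perp_perp (G.Lam s P ⊔ G.Ann s P)]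
  refine Sys.mem_perp.2 fun y hy => ?_
  rw [Γ.perp_sup] at hy
  have h1 : y ∈ G.Lam (G.star s) P := by
    have := hy.2
    rwa [Den.Ann, Γ.perp_perp] at this
  have h2 : y ∈ G.Ann (G.star s) P := by
    rw [Den.Ann, G.star_star]; exact hy.1
  rw [Γ.symm]
  exact G.beta_hi hx (h _ ⟨h1, h2⟩)

theorem Den.N_eq (G : Den Γ ι) (s : ι) : G.N s = nc (G.hi s) := by
  rw [← G.cand_card, G.cand_eq]; rfl

theorem Den.Same.ann {G : Den Γ ι} (h : G.Same P P') (s : ι) : G.Ann s P = G.Ann s P' := by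
  rw [Den.Ann, Den.Ann, h]

theorem Den.Same.nd {G : Den Γ ι} (h : G.Same P P') (hP : G.ND P) : G.ND P' := by
  intro s
  rw [← h s, ← h.ann s]
  exact hP s

-- extend the map to `μ ∈ Lam (star s) P`, which it fixes modulo `lo (star s)`; `pres`
theorem Den.PW.sub_mem_Ann {G : Den Γ ι} (h : G.PW P) (hP : Γ.Ok G.j P) (hx : x ∈ G.hi s)
    (hy : y ∈ Γ.cls P (G.lo s) x) : y - x ∈ G.Ann s P := by
  have hM := G.hM
  obtain ⟨φ, hL, hf, hφ⟩ := Sys.mem_cls.1 hy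
  refine G.mem_Ann.2 fun μ hμ => ?_
  have hd : finrank (ZMod p) (sp ((G.lo s, x) :: P)) < Γ.M := by
    have h1 := finrank_sp ((G.lo s, x) :: P)
    have h2 := hP.1
    simp only [List.length_cons] at h1
    omega
  obtain ⟨e, he⟩ := Γ.ext hL hd
  obtain ⟨φ', hL', he', -⟩ := he μ
  have hxU : x ∈ sp ((G.lo s, x) :: P) := mem_sp (e := (G.lo s, x)) List.mem_cons_self
  have hPU : sp P ≤ sp ((G.lo s, x) :: P) := sp_mono (List.subset_cons_self _ _)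
  have hf' : Fx φ' P := mv_self.1 ((mv_self.2 hf).congr fun z hz => he' z (hPU hz))
  have hμU : μ ∈ sp ((G.lo s, x) :: P) ⊔ span (ZMod p) {μ} :=
    mem_sup_right (mem_span_singleton_self μ)
  have h1 : φ' μ - μ ∈ G.lo (G.star s) :=
    h _ μ hμ _ (Sys.map_mem_cls hL' (hPU.trans le_sup_left) hf' hμU _)
  have h2 : Γ.β (φ' μ) (φ' x) = Γ.β μ x := Γ.pres hL' hμU (mem_sup_left hxU)
  rw [he' x hxU] at h2
  have h3 : φ x ∈ G.hi s := Sys.Def.map (G.dhi s) hL hxU hx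
  have h4 : Γ.β (φ x) (φ' μ - μ) = 0 := G.beta_hi h3 h1
  have h5 : Γ.β (φ x - y) μ = 0 := G.beta_lo hφ (G.le_hi _ _ hP hμ)
  rw [Γ.symm, map_sub, LinearMap.sub_apply, h2] at h4
  rw [Γ.symm, map_sub] at h5
  rw [map_sub]
  linear_combination -h4 - h5

theorem Den.PW.map {G : Den Γ ι} (h : G.PW P) (hL : Γ.L U φ) (hU : sp P ≤ U) (hf : Fx φ P)
    (hxU : x ∈ U) (hx : x ∈ G.Lam s P) : φ x - x ∈ G.lo s := by
  exact h s x hx _ (Sys.map_mem_cls hL hU hf hxU _)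

theorem Den.ok_tp (G : Den Γ ι) (hP : Γ.Ok n P) (m : List (ι × W)) :
    Γ.Ok (m.length + n) (G.tp m ++ P) := by
  refine ⟨?_, fun c hc => ?_⟩
  · have := hP.1
    simp only [Den.tp, List.length_append, List.length_map]
    omega
  · rcases List.mem_append.1 hc with hc | hc
    · obtain ⟨e, -, rfl⟩ := List.mem_map.1 hc
      exact G.dlo _
    · exact hP.2 c hc

theorem Den.tp_cons (G : Den Γ ι) (s : ι) (x : W) (m : List (ι × W)) :
    G.tp ((s, x) :: m) = (G.lo s, x) :: G.tp m := by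
  rfl

theorem Den.tp_append (G : Den Γ ι) (m m' : List (ι × W)) : G.tp (m ++ m') = G.tp m ++ G.tp m' := by
  exact List.map_append

theorem Den.length_tp (G : Den Γ ι) (m : List (ι × W)) : (G.tp m).length = m.length := by
  exact List.length_map _

theorem Den.InAnn.anti {G : Den Γ ι} (h : G.InAnn m P') (hP : Γ.Ok G.j P) (hP' : Γ.Ok G.j P')
    (hs : P ⊆ P') : G.InAnn m P := by
  exact fun x hx => G.Ann_anti hP hP' hs _ (h x hx)

end Pool.Agent.P.MP_f1a348_lc.LS
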