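import Pool.Agent.P.MP_f1a348_lc.LS.DefsB
import Pool.Agent.P.MP_f1a348_lc.LS.TIDEM
import Pool.Agent.P.MP_f1a348_lc.LS.TSTAR

/-! Step AFA. -/

set_option autoImplicit false
set_option linter.unusedSectionVars false

namespace Pool.Agent.P.MP_f1a348_lc.LS

open Module Submodule

variable {p : ℕ} [Fact p.Prime] {W : Type} [AddCommGroup W] [Module (ZMod p) W] [Fintype W]
  {Γ : Sys p W} {ι : Type} [Fintype ι] {G : Den Γ ι} {P P' Q b : List (Pm p W)} {φ ψ : Iso p W}
  {A₀ B₀ Λ U V : Sub p W} {a c o o' t w w' x₀ y₀ z μ : W} {n k r R : ℕ} {s u : ι}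
  {m m' v v' : List (ι × W)} {A I J : Type} [Fintype I] {B B' : I → Sub p W}
  {e e' x x' y y' z' S : I → W} {so : I → ι} {σ τ τ' : Equiv.Perm I} {l : List I}

theorem Den.aff_of_mem (h : (G.hi s, o) ∈ P) (ho : o' - o ∈ G.hi s) : G.Aff s P o' := by
  refine fun y hy => Sys.cls_fixed (R := [(G.hi s, o)]) (G.dhi s) (by simpa using h) (by simp)
    ?_ hy
  simpa using add_mem (mem_sup_left (mem_sp (P := [(G.hi s, o)]) List.mem_cons_self))
    (mem_sup_right ho)

theorem Den.Aff.mono (h : G.Aff s P o) (hs : P ⊆ P') : G.Aff s P' o := by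
  exact fun y hy => h y (Sys.cls_mono hs _ _ hy)

theorem Den.Aff.add (h : G.Aff s P o) (hP : Γ.Ok G.j P) (ho : o' - o ∈ G.hi s) : G.Aff s P o' := by
  intro y hy
  have hM := G.hM
  have h1 : o' ∈ Γ.cls P (G.hi s) o :=
    Sys.cls_add (Γ.self_mem_cls P _ o) (by simpa using neg_mem ho)
  simpa using sub_mem (h y (Sys.cls_trans hP (G.dhi s) (by omega) h1 hy)) ho

theorem Den.Aff.sub_mem (h : G.Aff s P o) (ho : o' ∈ Γ.cls P (G.lo s) o) : o' - o ∈ G.hi s := by
  exact h o' (Sys.cls_coarse (G.lo_le_hi s) P o ho)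

theorem Den.Aff.card (h : G.Aff s P o) : (Γ.cls P (G.lo s) o).ncard ≤ G.N s := by
  rw [G.N_eq]
  exact Set.ncard_le_ncard_of_injOn (· - o) (fun y hy => h.sub_mem hy)
    (fun _ _ _ _ e => sub_left_injective e)

theorem Den.Sm.mono (h : G.Sm s P o) (hs : P ⊆ P') : G.Sm s P' o := by
  exact (Set.ncard_le_ncard (Sys.cls_mono hs _ _)).trans h

theorem Den.sm_of_mem (h : (G.lo s, o) ∈ P) : G.Sm s P o := by
  have := G.two_le_Q
  rw [Den.Sm, Sys.cls_fixed_card (R := [(G.lo s, o)]) (G.dlo s) (by simpa using h) (by simp)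
    (mem_sup_left (mem_sp (P := [(G.lo s, o)]) List.mem_cons_self))]
  exact Nat.le_mul_of_pos_left _ (by omega)

theorem Den.Sm.good (h : G.Sm s P o) (hP : Γ.Ok n P) (hn : n + 1 ≤ G.j) : G.Good s P o := by
  exact G.idem' hP hn (G.dlo s)
    (le_trans h (Nat.mul_le_mul_right _ (Nat.le_self_pow (by omega) _)))

-- otherwise the class lies in `o + Lam s ((lo s, o) :: P)`
theorem Den.Aff.dich (h : G.Aff s P o) (hP : Γ.Ok n P) (hn : n + 1 ≤ G.j) (hs : ¬ G.Sm s P o) :
    ∃ o' ∈ Γ.cls P (G.lo s) o, o' - o ∉ G.Lam s ((G.lo s, o) :: P) := by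
  by_contra k
  push Not at k
  exact hs ((Set.ncard_le_ncard_of_injOn (· - o) k (fun _ _ _ _ e => sub_left_injective e)).trans
    (G.nc_LamQ ((hP.cons (G.dlo s) o).mono hn) s))

-- `z = o' - o` from `dich`; the class of `o'` over `(lo s, o) :: P` has the size of the class of `z` (`cls_sub_card`), `bigQ`, `cls_mono`, `cls_eq`
theorem Den.Aff.big (h : G.Aff s P o) (hP : Γ.Ok n P) (hn : n + 1 ≤ G.j) (hs : ¬ G.Sm s P o) :
    G.N s ≤ G.Q * (Γ.cls P (G.lo s) o).ncard := by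
  obtain ⟨o', h1, h2⟩ := h.dich hP hn hs
  have hM := G.hM
  have h3 := G.bigQ ((hP.cons (G.dlo s) o).mono hn) (x := o - o')
    (by simpa using neg_mem (h.sub_mem h1)) fun k => h2 (by simpa using neg_mem k)
  rw [Sys.cls_sub_card List.mem_cons_self] at h3
  rw [← Sys.cls_eq hP (G.dlo s) (by omega) h1]
  exact h3.trans (Nat.mul_le_mul_left _
    (Set.ncard_le_ncard (Sys.cls_mono (List.subset_cons_self _ _) _ _)))

-- `swap` for `(o' - o, o)` over `P`, `cls_sub_card`, `nc_le_cls`, `alg`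
theorem Den.Sm.sub (h : G.Sm s P o) (h' : G.Sm s P o') (hP : Γ.Ok n P) (hn : n + 1 ≤ G.j)
    (ho : o' - o ∈ G.hi s) : o' - o ∈ G.Lam s P := by
  have hM := G.hM
  have hQ := G.two_le_Q
  have h1 := Sys.swap hP (G.dlo s) (G.dlo s) (by omega) (o - o') o
  rw [Sys.cls_sub_card List.mem_cons_self] at h1
  have h2 : (Γ.cls P (G.lo s) (o - o')).ncard * nc (G.lo s) ≤
      G.Q ^ 2 * nc (G.lo s) * nc (G.lo s) :=
    (Nat.mul_le_mul_left _ (Γ.nc_le_cls _ _ _)).trans (h1.le.trans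
      ((Nat.mul_le_mul h (h'.mono (List.subset_cons_self _ _))).trans (le_of_eq (by ring))))
  simpa using neg_mem (G.alg (hP.mono (by omega)) (x := o - o') (by simpa using neg_mem ho)
    ((Nat.le_of_mul_le_mul_right h2 (nc_pos _)).trans
      (Nat.mul_le_mul_right _ (Nat.pow_le_pow_right (by omega) (by omega)))))

-- `o + c` has a small class over `(lo s, o) :: P`; `idem'`, `mono`
theorem Den.Good.add (h : G.Good s P o) (hP : Γ.Ok n P) (hn : n + 2 ≤ G.j)
    (hc : c ∈ G.Lam s P) : G.Good s P (o + c) := by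
  intro u
  have ok := hP.cons (G.dlo s) o
  have h1 := G.small (ok.mono (by omega)) (neg_mem (h s ▸ hc))
  rw [← Sys.cls_sub_card List.mem_cons_self, sub_neg_eq_add] at h1
  have h2 := G.idem' ok hn (G.dlo s)
    (le_trans h1 (Nat.mul_le_mul_right _ (Nat.le_self_pow (by omega) _))) u
  have ok' := (hP.cons (G.dlo s) (o + c)).mono (show n + 1 ≤ G.j by omega)
  refine le_antisymm ?_ (G.toGeo.mono (hP.mono (by omega)) ok' (List.subset_cons_self _ _) u)
  rw [← h u, ← h2]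
  exact G.toGeo.mono ok' ((ok.cons (G.dlo s) _).mono hn)
    (List.cons_subset_cons _ (List.subset_cons_self _ _)) u

end Pool.Agent.P.MP_f1a348_lc.LS
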