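import Pool.Agent.P.MP_f1a348_lc.LS.DefsB
import Pool.Agent.P.MP_f1a348_lc.LS.TAFA

/-! Step AFB. -/

set_option autoImplicit false
set_option linter.unusedSectionVars false

namespace Pool.Agent.P.MP_f1a348_lc.LS

open Module Submodule

variable {p : ℕ} [Fact p.Prime] {W : Type} [AddCommGroup W] [Module (ZMod p) W] [Fintype W]
  {Γ : Sys p W} {ι : Type} [Fintype ι] {G : Den Γ ι} {P P' Q b : List (Pm p W)} {φ ψ : Iso p W}
  {A₀ B₀ Λ U V : Sub p W} {a c o o' t w w' x₀ y₀ z μ : W} {n k r R : ℕ} {s u : ι}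
  {m m' v v' : List (ι × W)} {A I J : Type} [Fintype I] {B B' : I → Sub p W}
  {e e' x x' y y' z' S : I → W} {so : I → ι} {σ τ τ' : Equiv.Perm I} {l : List I}

-- `swap` for `(o, μ)`; if `o` is not small over `μ :: P` then `N u * N s ≤ Q ^ 3 * N s * nc (lo u)`, against `gapQ`
theorem Den.Aff.exch (h : G.Aff s P o) (hP : Γ.Ok n P) (hn : n + 2 ≤ G.j)
    (h1 : μ ∈ G.Lam u ((G.lo s, o) :: P)) (h2 : μ ∉ G.Lam u P) : G.Sm s ((G.lo u, μ) :: P) o := by
  by_contra k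
  have hM := G.hM
  have hQ := G.two_le_Q
  have ok := (hP.cons (G.dlo s) o).mono (show n + 1 ≤ G.j by omega)
  have h3 := (h.mono (List.subset_cons_self _ _)).big (hP.cons (G.dlo u) μ) hn k
  have h4 := Sys.swap hP (G.dlo s) (G.dlo u) (by omega) o μ
  have h5 := G.bigQ (hP.mono (by omega)) (G.le_hi _ _ ok h1) h2
  have h6 : G.N u * G.N s ≤ G.Q ^ 3 * nc (G.lo u) * G.N s :=
    calc G.N u * G.N s ≤ _ := Nat.mul_le_mul h5 h3
      _ = G.Q ^ 2 * ((Γ.cls P (G.lo s) o).ncard *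
          (Γ.cls ((G.lo s, o) :: P) (G.lo u) μ).ncard) := by rw [h4]; ring
      _ ≤ G.Q ^ 2 * (G.N s * (G.Q * nc (G.lo u))) :=
        Nat.mul_le_mul_left _ (Nat.mul_le_mul h.card (G.small ok h1))
      _ = _ := by ring
  exact (G.gapQ u).not_ge ((Nat.le_of_mul_le_mul_right h6 (Nat.zero_lt_of_lt (G.gapQ s))).trans
    (Nat.mul_le_mul_right _ (Nat.pow_le_pow_right (by omega) (by omega))))

-- `swap` for `(o, o - a)` over `P`; `cls_sub_card` twice; `Aff.card`, `Aff.big` give `|cls P o| ≤ Q * |cls P (o - a)|`; `alg`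
theorem Den.Aff.back (h : G.Aff s P o) (hP : Γ.Ok n P) (hn : n + 1 ≤ G.j)
    (ha : a ∈ G.Lam s ((G.lo s, o) :: P)) (hs : ¬ G.Sm s P (o - a)) :
    a ∈ G.Lam s ((G.lo s, o - a) :: P) := by
  have hM := G.hM
  have hQ := G.two_le_Q
  have ok := (hP.cons (G.dlo s) o).mono hn
  have m := G.le_hi _ _ ok ha
  have h3 := (h.add (hP.mono (by omega)) (o' := o - a) (by simpa using m)).big hP hn hs
  have h4 := Sys.swap hP (G.dlo s) (G.dlo s) (by omega) o (o - a)
  rw [Sys.cls_sub_card List.mem_cons_self, ← Sys.cls_sub_card List.mem_cons_self o,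
    sub_sub_cancel_left] at h4
  have h6 : (Γ.cls P (G.lo s) (o - a)).ncard * (Γ.cls ((G.lo s, o - a) :: P) (G.lo s) (-a)).ncard ≤
      (Γ.cls P (G.lo s) (o - a)).ncard * (G.Q ^ 2 * nc (G.lo s)) :=
    h4.ge.trans ((Nat.mul_le_mul (h.card.trans h3) (G.small ok ha)).trans (le_of_eq (by ring)))
  simpa using neg_mem (G.alg ((hP.cons (G.dlo s) _).mono hn) (neg_mem m)
    ((Nat.le_of_mul_le_mul_left h6 ((nc_pos _).trans_le (Γ.nc_le_cls _ _ _))).trans
      (Nat.mul_le_mul_right _ (Nat.pow_le_pow_right (by omega) (by omega)))))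

-- otherwise both points are small over `μ :: P` (`exch`), `Sm.sub`, `le_of_mem`
theorem Den.Aff.disj (h : G.Aff s P o) (hP : Γ.Ok n P) (hn : n + 3 ≤ G.j) (ho : o' - o ∈ G.hi s)
    (hz : o' - o ∉ G.Lam s ((G.lo s, o) :: P)) (h1 : μ ∈ G.Lam u ((G.lo s, o) :: P))
    (h2 : μ ∈ G.Lam u ((G.lo s, o') :: P)) : μ ∈ G.Lam u P := by
  by_contra k
  exact hz (G.le_of_mem (hP.cons (G.dlo s) o) (by omega) (hP.1.trans (Nat.le_succ n))
    (List.subset_cons_self _ _) h1 s ((h.exch hP (by omega) h1 k).sub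
      ((h.add (hP.mono (by omega)) ho).exch hP (by omega) h2 k) (hP.cons (G.dlo u) μ) (by omega) ho))

end Pool.Agent.P.MP_f1a348_lc.LS
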