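import Pool.Agent.P.MP_f1a348_lc.LS.DefsB
import Pool.Agent.P.MP_f1a348_lc.LS.TIDEM
import Pool.Agent.P.MP_f1a348_lc.LS.TSTAR

/-! Step LINT. -/

set_option autoImplicit false
set_option linter.unusedSectionVars false

namespace Pool.Agent.P.MP_f1a348_lc.LS

open Module Submodule

variable {p : ℕ} [Fact p.Prime] {W : Type} [AddCommGroup W] [Module (ZMod p) W] [Fintype W]
  {Γ : Sys p W} {ι : Type} [Fintype ι] {G : Den Γ ι} {P P' Q b : List (Pm p W)} {φ ψ : Iso p W}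
  {A₀ B₀ Λ U V : Sub p W} {a c o o' t w w' x₀ y₀ z μ : W} {n k r R : ℕ} {s u : ι}
  {m m' v v' : List (ι × W)} {A I J : Type} [Fintype I] {B B' : I → Sub p W}
  {e e' x x' y y' z' S : I → W} {so : I → ι} {σ τ τ' : Equiv.Perm I} {l : List I}

-- induction on `v`; `Bs.lin` or `idem`; `mono`
theorem Den.Bs.lint (h : G.Bs b R) (hP : Γ.Ok n P) (hs : b ⊆ P) (hb : b.length ≤ n)
    (hv : G.InAnn v b) (hn : v.length + n ≤ R) (s : ι) :
    G.Lam s (G.tp v ++ P) = G.Lam s P ⊔ G.Lam s (G.tp v ++ b) := by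
  have hR := h.hR
  have ob : Γ.Ok n b := h.ok.len.mono hb
  refine le_antisymm ?_ (sup_le (G.toGeo.mono (hP.mono (by omega))
    ((G.ok_tp hP v).mono (by omega)) (List.subset_append_right _ _) s)
    (G.toGeo.mono ((G.ok_tp ob v).mono (by omega)) ((G.ok_tp hP v).mono (by omega))
      (List.append_subset.2
        ⟨List.subset_append_left _ _, List.subset_append_of_subset_right _ hs⟩) s))
  induction v with
  | nil => exact le_sup_left
  | cons x v ih =>
    rw [List.length_cons] at hn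
    have i1 := ih (fun y hy => hv y (List.mem_cons_of_mem _ hy)) (by omega)
    have o1 := G.ok_tp hP v
    have o2 : Γ.Ok G.j (G.tp (x :: v) ++ b) :=
      (G.ok_tp ob _).mono (by rw [List.length_cons]; omega)
    have i2 : G.Lam s (G.tp v ++ P) ≤ G.Lam s P ⊔ G.Lam s (G.tp (x :: v) ++ b) :=
      i1.trans (sup_le_sup_left (G.toGeo.mono ((G.ok_tp ob v).mono (by omega)) o2
        (List.subset_cons_self _ _) s) _)
    change G.Lam s ((G.lo x.1, x.2) :: (G.tp v ++ P)) ≤ _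
    by_cases k : x.2 ∈ G.Lam x.1 (G.tp v ++ P)
    · rw [G.toGeo.idem o1 (by omega) k]; exact i2
    · rw [h.lin _ (o1.mono (by omega)) (List.subset_append_of_subset_right _ hs) _ _
        (hv x List.mem_cons_self) k]
      exact sup_le i2 (le_sup_of_le_right (G.toGeo.mono
        ((ob.cons (G.dlo _) _).mono (by omega)) o2
        (List.cons_subset_cons _ (List.subset_append_right _ _)) s))

-- `ND.hi_le`, `mono`
theorem Den.Bs.split (h : G.Bs b R) (hP : Γ.Ok G.j P) (hs : b ⊆ P) (hx : w ∈ G.Lam s P) :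
    ∃ l ∈ G.Lam s b, w - l ∈ G.Lam s P ∧ w - l ∈ G.Ann s b := by
  have hR := h.hR
  obtain ⟨l, hl, a, ha, rfl⟩ := mem_sup.1 (h.nd.hi_le s (G.le_hi s P hP hx))
  exact ⟨l, hl, sub_mem hx (G.toGeo.mono (h.ok.mono (by omega)) hP hs s hl), by simpa using ha⟩

-- `split`, `Bs.ort`, `ND P`
theorem Den.Bs.inf (h : G.Bs b R) (hP : Γ.Ok n P) (hs : b ⊆ P) (hb : b.length ≤ n)
    (hd : G.ND P) (hv : G.InAnn v P) (hn : v.length + n ≤ R) (s : ι) :
    G.Lam s (G.tp v ++ b) ⊓ G.Lam s P ≤ G.Lam s b := by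
  have hR := h.hR
  have ob : Γ.Ok n b := h.ok.len.mono hb
  rintro w ⟨h1, h2⟩
  obtain ⟨l, l1, l2, l3⟩ := h.split ((G.ok_tp ob v).mono (by omega))
    (List.subset_append_right _ _) h1
  have h3 := h.ort P (hP.mono (by omega)) hs v hv (by omega) s ⟨l2, l3⟩
  have h4 := hd s ⟨sub_mem h2
    (G.toGeo.mono (ob.mono (by omega)) (hP.mono (by omega)) hs s l1), h3⟩
  simpa using add_mem (G.lo_le s b (ob.mono (by omega)) h4) l1

-- `μ = λ + μ₀` with `λ ∈ Lam P`, `μ₀ ∈ Lam (v b) ⊓ Ann b ≤ Ann P`, so `λ ∈ lo`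
theorem Den.Bs.ndadd (h : G.Bs b R) (hP : Γ.Ok n P) (hs : b ⊆ P) (hb : b.length ≤ n)
    (hd : G.ND P) (hv : G.InAnn v P) (hn : v.length + n ≤ R) (hd' : G.ND (G.tp v ++ b)) :
    G.ND (G.tp v ++ P) := by
  have hR := h.hR
  have ob : Γ.Ok n b := h.ok.len.mono hb
  have oP : Γ.Ok G.j P := hP.mono (by omega)
  have ob' : Γ.Ok G.j b := ob.mono (by omega)
  have o1 : Γ.Ok G.j (G.tp v ++ P) := (G.ok_tp hP v).mono (by omega)
  have o2 : Γ.Ok G.j (G.tp v ++ b) := (G.ok_tp ob v).mono (by omega)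
  rintro s μ ⟨h1, h2⟩
  rw [h.lint hP hs hb (fun x hx => G.Ann_anti ob' oP hs _ (hv x hx)) hn] at h1
  obtain ⟨a, ha, c, hc, rfl⟩ := mem_sup.1 h1
  obtain ⟨l, l1, l2, l3⟩ := h.split o2 (List.subset_append_right _ _) hc
  have h3 := h.ort P (hP.mono (by omega)) hs v hv (by omega) s ⟨l2, l3⟩
  have h4 : a + l ∈ G.lo s := hd s ⟨add_mem ha (G.toGeo.mono ob' oP hs s l1), by
    have := sub_mem (G.Ann_anti oP o1 (List.subset_append_right _ _) s h2) h3
    rwa [show a + c - (c - l) = a + l by abel] at this⟩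
  have h5 : c - l ∈ G.lo s := hd' s ⟨l2, by
    have := sub_mem (G.Ann_anti o2 o1 (List.append_subset.2
      ⟨List.subset_append_left _ _, List.subset_append_of_subset_right _ hs⟩) s h2)
      (G.lo_le_Ann o2 s h4)
    rwa [show a + c - (a + l) = c - l by abel] at this⟩
  have := add_mem h4 h5
  rwa [show a + l + (c - l) = a + c by abel] at this

-- symmetry of orthogonality: `split`, `Bs.ort` at `tp v' ++ b`, `mem_Lam_pin`, `beta_Ann`
theorem Den.Bs.orts (h : G.Bs b R) (hv : G.InAnn v (G.tp v' ++ b)) (hv' : G.InAnn v' b)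
    (hn : v.length + v'.length + b.length ≤ R) : G.InAnn v' (G.tp v ++ b) := by
  have hR := h.hR
  have ob := h.ok.len
  intro x hx
  refine G.mem_Ann.2 fun y hy => ?_
  obtain ⟨l, l1, l2, l3⟩ := h.split ((G.ok_tp ob v).mono (by omega))
    (List.subset_append_right _ _) hy
  have h3 := h.ort _ ((G.ok_tp ob v').mono (by omega)) (List.subset_append_right _ _) v hv
    (by omega) _ ⟨l2, l3⟩
  have h4 := G.beta_Ann h3 (G.toGeo.mem_Lam_pin ((G.ok_tp ob v').mono (by omega))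
    (List.mem_append_left _ (List.mem_map.2 ⟨x, hx, rfl⟩))
    (G.Ann_le_hi (ob.mono (by omega)) _ (hv' x hx)))
  rwa [map_sub, LinearMap.sub_apply, G.mem_Ann.1 (hv' x hx) l l1, sub_zero] at h4

end Pool.Agent.P.MP_f1a348_lc.LS
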