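import Pool.Agent.P.MP_f1a348_lc.LS.DefsB
import Pool.Agent.P.MP_f1a348_lc.LS.TAFB
import Pool.Agent.P.MP_f1a348_lc.LS.TLINT
import Pool.Agent.P.MP_f1a348_lc.LS.TEQV

/-! Step AF1. -/

set_option autoImplicit false
set_option linter.unusedSectionVars false

namespace Pool.Agent.P.MP_f1a348_lc.LS

open Module Submodule

variable {p : ℕ} [Fact p.Prime] {W : Type} [AddCommGroup W] [Module (ZMod p) W] [Fintype W]
  {Γ : Sys p W} {ι : Type} [Fintype ι] {G : Den Γ ι} {P P' Q b : List (Pm p W)} {φ ψ : Iso p W}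
  {A₀ B₀ Λ U V : Sub p W} {a c o o' t w w' x₀ y₀ z μ : W} {n k r R : ℕ} {s u : ι}
  {m m' v v' : List (ι × W)} {A I J : Type} [Fintype I] {B B' : I → Sub p W}
  {e e' x x' y y' z' S : I → W} {so : I → ι} {σ τ τ' : Equiv.Perm I} {l : List I}

-- let `μ ∈ Lam u (o P) \ Lam u P`, `o'` from `dich`, `μ'` the image of `μ` (`Sim.bij`, `mem_Lam_sim`, `not_mem_Lam_cls`), `μ₀ = μ' - l` (`split`).
-- `μ₀ ∉ Lam u (o P)` (`disj`); `Bs.lin`: `Lam (μ₀ o P) ≤ Lam (o P) ⊔ Lam (o' P)`; `o' - o ∈ Lam s (μ₀ o P)` (`exch`, `Sm.sub`), so `o - a = o' - a'`;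
-- `back` twice puts `o' - o` in `Lam s ((o - a) P) ≤ Lam s (o P)` (`idem'`, `cls_sub_card`)
theorem Den.Bs.af1 (h : G.Bs b R) (hP : Γ.Ok n P) (hs : b ⊆ P) (hb : b.length ≤ n)
    (hn : n + 1 ≤ R) (ha : G.Aff s P o) (hsm : ∀ y, y - o ∈ G.hi s → ¬ G.Sm s P y) :
    G.Good s P o := by
  have hR := h.hR
  have hM := G.hM
  have okc : ∀ (t : ι) (x : W), Γ.Ok (n + 1) ((G.lo t, x) :: P) := fun t x => hP.cons (G.dlo t) x
  have sub1 : ∀ (d : Pm p W) (L : List (Pm p W)), L ⊆ d :: L := fun d L => List.subset_cons_self d L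
  intro u
  refine le_antisymm ?_ (G.mono (hP.mono (by omega)) ((okc s o).mono (by omega)) (sub1 _ _) u)
  intro μ hμ
  by_contra hμ'
  have hns : ¬ G.Sm s P o := hsm o (by simp)
  obtain ⟨o', ho', hz⟩ := ha.dich hP (by omega) hns
  have hoo : o' - o ∈ G.hi s := ha.sub_mem ho'
  have ha' : G.Aff s P o' := ha.add (hP.mono (by omega)) hoo
  have hsim : Γ.Sim ((G.lo s, o) :: P) ((G.lo s, o') :: P) := ho'
  obtain ⟨f, hf⟩ := hsim.bij (by have := (okc s o).1; omega)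
  have h1 : f μ ∈ G.Lam u ((G.lo s, o') :: P) :=
    G.mem_Lam_sim (hf _ μ) ((okc s o).mono (by omega)) hμ
  have h2 : f μ ∉ G.Lam u P := by
    have : f μ ∈ Γ.cls P (G.lo u) μ := (hf (G.lo u) μ).swap.tail
    exact G.not_mem_Lam_cls (hP.mono (by omega)) hμ' this
  obtain ⟨l₀, hl₀, h3, h4⟩ := h.split ((okc s o').mono (by omega)) (List.Subset.trans hs (sub1 _ _)) h1
  have hbj : Γ.Ok G.j b := h.ok.mono (by omega)
  have h5 : f μ - l₀ ∉ G.Lam u P := fun hc => h2 (by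
    have := (G.Lam u P).add_mem hc (G.mono hbj (hP.mono (by omega)) hs u hl₀)
    simpa using this)
  have h6 : f μ - l₀ ∉ G.Lam u ((G.lo s, o) :: P) := fun hc =>
    h5 (ha.disj hP (by omega) hoo hz hc h3)
  have hlin := h.lin _ ((okc s o).mono hn) (List.Subset.trans hs (sub1 _ _)) u _ h4 h6 s
  have h7 : G.Sm s ((G.lo u, f μ - l₀) :: (G.lo s, o) :: P) o' :=
    (ha'.exch hP (by omega) h3 h5).mono (List.cons_subset_cons _ (sub1 _ _))
  have h8 : G.Sm s ((G.lo u, f μ - l₀) :: (G.lo s, o) :: P) o := Den.sm_of_mem (by simp)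
  have h9 := h8.sub h7 ((okc s o).cons (G.dlo u) _) (by omega) hoo
  rw [hlin] at h9
  obtain ⟨α, hα, α', hα', hsum⟩ := Submodule.mem_sup.1 h9
  have hα'' : α' ∈ G.Lam s ((G.lo s, o') :: P) :=
    G.le_of_mem (okc s o') (by omega) (by omega) (List.Subset.trans hs (sub1 _ _)) h3 s hα'
  have hαhi : α ∈ G.hi s := G.le_hi s _ ((okc s o).mono (by omega)) hα
  have hy : ¬ G.Sm s P (o - -α) := hsm _ (by simpa using hαhi)
  have e1 : o' - α' = o - -α := by
    have : o' = o + (α + α') := by rw [hsum]; abel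
    rw [this]; abel
  have b1 := ha.back hP (by omega) ((G.Lam s _).neg_mem hα) hy
  have b2 := ha'.back hP (by omega) hα'' (by rw [e1]; exact hy)
  rw [e1] at b2
  have b3 : o' - o ∈ G.Lam s ((G.lo s, o - -α) :: P) := by
    rw [← hsum]
    exact (G.Lam s _).add_mem (by simpa using (G.Lam s _).neg_mem b1) b2
  have b4 : G.Lam s ((G.lo s, o - -α) :: (G.lo s, o) :: P) = G.Lam s ((G.lo s, o) :: P) := by
    refine G.idem' (okc s o) (by omega) (G.dlo s) ?_ s
    rw [Sys.cls_sub_card (by simp)]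
    refine (G.small ((okc s o).mono (by omega)) ((G.Lam s _).neg_mem hα)).trans ?_
    exact Nat.mul_le_mul_right _ (Nat.le_self_pow (by norm_num) _)
  apply hz
  rw [← b4]
  exact G.mono ((okc s _).mono (by omega)) (((okc s o).cons (G.dlo s) _).mono (by omega))
    (List.cons_subset_cons _ (sub1 _ _)) s b3

end Pool.Agent.P.MP_f1a348_lc.LS
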