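import Pool.Agent.P.MP_f1a348_lc.LS.DefsB
import Pool.Agent.P.MP_f1a348_lc.LS.TSTAR

/-! Step GEN. -/

set_option autoImplicit false
set_option linter.unusedSectionVars false

namespace Pool.Agent.P.MP_f1a348_lc.LS

open Module Submodule

variable {p : ℕ} [Fact p.Prime] {W : Type} [AddCommGroup W] [Module (ZMod p) W] [Fintype W]
  {Γ : Sys p W} {ι : Type} [Fintype ι] {P P' Q b : List (Pm p W)} {φ ψ : Iso p W}
  {A B U V : Sub p W} {o o' t w x x' y y' z μ : W} {n k r R : ℕ} {s u : ι}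
  {m m' v : List (ι × W)} {I J : Type}

-- sizes: `finrank_Ann`, `nc_LamQ`, `gapQ`, `N_eq`
theorem Den.gen (G : Den Γ ι) (hP : Γ.Ok G.j P) (s : ι) : ∃ x ∈ G.Ann s P, x ∉ G.Lam s P := by
  by_contra! h
  have h1 := G.finrank_Ann hP s
  have h2 : finrank (ZMod p) (G.Ann s P) ≤ finrank (ZMod p) (G.Lam s P) := finrank_mono h
  have h3 := G.dim s P hP
  have h4 := G.gap s
  have h5 := Nat.mul_le_mul_left G.K hP.1
  rw [G.N_eq, nc_eq, nc_eq, ← pow_mul, ← pow_add,
    Nat.pow_lt_pow_iff_right (Fact.out : p.Prime).one_lt] at h4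
  omega

end Pool.Agent.P.MP_f1a348_lc.LS
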