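import Pool.Agent.P.MP_f1a348_lc.LS.DefsF
import Pool.Agent.P.MP_f1a348_lc.LS.TSPAN

/-! Step FA. -/

set_option autoImplicit false
set_option linter.unusedSectionVars false

namespace Pool.Agent.P.MP_f1a348_lc.LS

open Module Submodule

variable {p : ℕ} [Fact p.Prime] {W : Type} [AddCommGroup W] [Module (ZMod p) W] [Fintype W]
  {Γ : Sys p W} {ι : Type} [Fintype ι] {P P' b b' : List (Pm p W)} {φ ψ : Iso p W}
  {B H T U V Λ : Sub p W} {E X Y Z : Set W} {a a' c o t w x x' y y' z μ μ₀ ξ : W}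
  {n k r R : ℕ} {s u : ι} {m : List (ι × W)} {δ q : ℝ}

theorem chi_add (i j : ZMod p) : chi p (i + j) = chi p i * chi p j := by
  exact AddChar.map_add_eq_mul _ i j

theorem chi_zero : chi p 0 = 1 := by
  exact AddChar.map_zero_eq_one _

theorem norm_chi (i : ZMod p) : ‖chi p i‖ = 1 := by
  exact AddChar.norm_apply _ i

theorem conj_chi (i : ZMod p) : (starRingEnd ℂ) (chi p i) = chi p (-i) := by
  exact (AddChar.map_neg_eq_conj _ i).symm

-- `ZMod.isPrimitive_stdAddChar` or `ZMod.injective_stdAddChar`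
theorem chi_eq_one {i : ZMod p} (h : chi p i = 1) : i = 0 := by
  exact ZMod.injective_stdAddChar (h.trans chi_zero.symm)

theorem Sys.ft_sub_mem (Γ : Sys p W) (h : ξ ∈ Γ.perp U) : Γ.ft U ξ = nc U := by
  rw [Sys.ft, Finset.sum_congr rfl (g := fun _ => 1) fun x hx => by
    rw [Γ.symm, h x ((Set.Finite.mem_toFinset _).1 hx), chi_zero]]
  simp [nc, Set.ncard_eq_toFinset_card _ (Set.toFinite _)]

-- translate by `u₀ ∈ U` with `β ξ u₀ ≠ 0`: the sum is multiplied by `chi (β ξ u₀) ≠ 1`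
theorem Sys.ft_sub_not_mem (Γ : Sys p W) (h : ξ ∉ Γ.perp U) : Γ.ft U ξ = 0 := by
  obtain ⟨u, hu, h0⟩ : ∃ u ∈ U, Γ.β u ξ ≠ 0 := by
    by_contra c
    exact h fun u hu => by_contra fun e => c ⟨u, hu, e⟩
  have e : Γ.ft U ξ * chi p (Γ.β ξ u) = Γ.ft U ξ := by
    rw [Sys.ft, Finset.sum_mul]
    refine Finset.sum_equiv (Equiv.addRight u) (fun x => ?_) fun x _ => ?_
    · simp [U.add_mem_iff_left hu]
    · simp [chi_add]
  by_contra c
  exact h0 ((Γ.symm u ξ).trans (chi_eq_one ((mul_eq_left₀ c).1 e)))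

theorem Sys.sum_chi_zero (Γ : Sys p W) : ∑ ξ : W, chi p (Γ.β ξ 0) = Fintype.card W := by
  simp

theorem Sys.sum_chi_ne (Γ : Sys p W) (h : x ≠ 0) : ∑ ξ : W, chi p (Γ.β ξ x) = 0 := by
  have := Γ.ft_sub_not_mem (U := ⊤) (ξ := x) fun e => h (Γ.nd.2 x fun u => e u trivial)
  simpa [Sys.ft, Γ.symm x] using this

-- expand `ft * conj ft`, exchange the sums, `sum_chi_zero`, `sum_chi_ne` for `x - y`
theorem Sys.parseval (Γ : Sys p W) (E : Set W) :
    ∑ ξ : W, ‖Γ.ft E ξ‖ ^ 2 = (Fintype.card W : ℝ) * E.ncard := by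
  classical
  have e : ∀ ξ, ((‖Γ.ft E ξ‖ ^ 2 : ℝ) : ℂ) = ∑ x ∈ (Set.toFinite E).toFinset,
      ∑ y ∈ (Set.toFinite E).toFinset, chi p (Γ.β ξ (x - y)) := fun ξ => by
    rw [Complex.ofReal_pow, ← Complex.mul_conj', Sys.ft, map_sum, Finset.sum_mul_sum]
    simp only [conj_chi, ← chi_add, sub_eq_add_neg, map_add, map_neg]
  have k : ∀ x y : W, ∑ ξ, chi p (Γ.β ξ (x - y)) = if x = y then (Fintype.card W : ℂ) else 0 :=
    fun x y => by
      split_ifs with c
      · rw [c, sub_self, Γ.sum_chi_zero]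
      · exact Γ.sum_chi_ne (sub_ne_zero.2 c)
  apply Complex.ofReal_injective
  rw [Complex.ofReal_sum]
  simp only [e]
  rw [Finset.sum_comm, Finset.sum_congr rfl (g := fun _ => (Fintype.card W : ℂ)) fun x hx => by
    rw [Finset.sum_comm]
    simp only [k, Finset.sum_ite_eq, if_pos hx]]
  simp [Set.ncard_eq_toFinset_card _ (Set.toFinite _), mul_comm]

theorem Sys.ft_coset (Γ : Sys p W) (h : ∀ x ∈ E, x - a ∈ Γ.perp Λ) (hξ : ξ ∈ Λ) :
    Γ.ft E ξ = E.ncard * chi p (Γ.β ξ a) := by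
  rw [Sys.ft, Finset.sum_congr rfl (g := fun _ => chi p (Γ.β ξ a)) fun x hx => by
    have : Γ.β ξ (x - a) = 0 := h x ((Set.Finite.mem_toFinset _).1 hx) ξ hξ
    rw [map_sub, sub_eq_zero] at this
    rw [this]]
  simp [Set.ncard_eq_toFinset_card _ (Set.toFinite _)]

-- `nc_eq`, `finrank_perp`, `Module.card_eq_pow_finrank`
theorem Sys.nc_perp (Γ : Sys p W) (U : Sub p W) : nc (Γ.perp U) * nc U = Fintype.card W := by
  rw [nc_eq, nc_eq, ← pow_add, Γ.finrank_perp, Module.card_eq_pow_finrank (K := ZMod p),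
    ZMod.card]

end Pool.Agent.P.MP_f1a348_lc.LS
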