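import Pool.Agent.P.MP_f1a348_lc.LS.DefsF
import Pool.Agent.P.MP_f1a348_lc.LS.TFA

/-! Step FB. -/

set_option autoImplicit false
set_option linter.unusedSectionVars false

namespace Pool.Agent.P.MP_f1a348_lc.LS

open Module Submodule

variable {p : ℕ} [Fact p.Prime] {W : Type} [AddCommGroup W] [Module (ZMod p) W] [Fintype W]
  {Γ : Sys p W} {ι : Type} [Fintype ι] {P P' b b' : List (Pm p W)} {φ ψ : Iso p W}
  {B H T U V Λ : Sub p W} {E X Y Z : Set W} {a a' c o t w x x' y y' z μ μ₀ ξ : W}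
  {n k r R : ℕ} {s u : ι} {m : List (ι × W)} {δ q : ℝ}

namespace FBx

open Classical in
theorem sum_chi (Γ : Sys p W) (x : W) :
    ∑ ξ : W, chi p (Γ.β ξ x) = if x = 0 then (Fintype.card W : ℂ) else 0 := by
  split_ifs with h
  · rw [h, Γ.sum_chi_zero]
  · exact Γ.sum_chi_ne h

theorem expand (Γ : Sys p W) (X Y Z : Set W) :
    ∑ ξ : W, Γ.ft X ξ * Γ.ft Y ξ * (starRingEnd ℂ) (Γ.ft Z ξ) = (Fintype.card W : ℂ) *
      ({e : W × W | e.1 ∈ X ∧ e.2 ∈ Y ∧ e.1 + e.2 ∈ Z}.ncard : ℂ) := by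
  classical
  have e1 : ∀ ξ : W, Γ.ft X ξ * Γ.ft Y ξ * (starRingEnd ℂ) (Γ.ft Z ξ) =
      ∑ e ∈ (Set.toFinite X).toFinset ×ˢ (Set.toFinite Y).toFinset,
        ∑ z ∈ (Set.toFinite Z).toFinset, chi p (Γ.β ξ (e.1 + e.2 - z)) := fun ξ => by
    rw [Sys.ft, Sys.ft, Sys.ft, Finset.sum_mul_sum, ← Finset.sum_product', map_sum,
      Finset.sum_mul_sum]
    refine Finset.sum_congr rfl fun e _ => Finset.sum_congr rfl fun z _ => ?_
    rw [conj_chi, map_sub, map_add, sub_eq_add_neg, chi_add, chi_add]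
  have e2 : {e : W × W | e.1 ∈ X ∧ e.2 ∈ Y ∧ e.1 + e.2 ∈ Z} =
      ↑(((Set.toFinite X).toFinset ×ˢ (Set.toFinite Y).toFinset).filter
        fun e => e.1 + e.2 ∈ (Set.toFinite Z).toFinset) := by
    ext e
    simp only [Set.mem_setOf_eq, Finset.mem_coe, Finset.mem_filter, Finset.mem_product,
      Set.Finite.mem_toFinset, and_assoc]
  rw [e2, Set.ncard_coe_finset, Finset.card_filter, Nat.cast_sum, Finset.mul_sum]
  simp only [e1]
  rw [Finset.sum_comm]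
  refine Finset.sum_congr rfl fun e _ => ?_
  rw [Finset.sum_comm]
  simp only [sum_chi, sub_eq_zero]
  rw [Finset.sum_ite_eq]
  split_ifs <;> simp

end FBx

-- `card W * T = ∑ ξ, ft X ξ * ft Y ξ * conj (ft Z ξ)` (`sum_chi_zero`, `sum_chi_ne` for `x + y - z`). For `ξ ∈ Λ` the term is
-- `|X| |Y| |Z|` (`ft_coset`, the phases cancel by `h`). The other terms have total norm at most `δ ∑ ‖ft Y ξ‖ ‖ft Z ξ‖`, and
-- `‖u‖ ‖v‖ q ≤ (q² ‖u‖² + ‖v‖²) / 2` with `parseval` (or `Finset.sum_mul_sq_le_sq_mul_sq`) bounds it by `δ card W q |Y|`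
theorem Sys.cnt3 (Γ : Sys p W) (hX : ∀ x ∈ X, x - a ∈ Γ.perp Λ) (hY : ∀ x ∈ Y, x - a' ∈ Γ.perp Λ)
    (hZ : ∀ x ∈ Z, x - c ∈ Γ.perp Λ) (h : c - a - a' ∈ Γ.perp Λ) (h0 : 0 ≤ δ)
    (hδ : ∀ ξ, ξ ∉ Λ → ‖Γ.ft X ξ‖ ≤ δ) (hq0 : 0 < q) (hq : (Z.ncard : ℝ) ≤ q ^ 2 * Y.ncard) :
    (nc Λ : ℝ) * X.ncard * Y.ncard * Z.ncard ≤ Fintype.card W *
      (({e : W × W | e.1 ∈ X ∧ e.2 ∈ Y ∧ e.1 + e.2 ∈ Z}.ncard : ℝ) + δ * q * Y.ncard) := by
  classical
  have e := FBx.expand Γ X Y Z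
  rw [← Finset.sum_filter_add_sum_filter_not Finset.univ (fun ξ => ξ ∈ Λ)] at e
  have e1 : ∑ ξ ∈ Finset.univ.filter (fun ξ => ξ ∈ Λ),
      Γ.ft X ξ * Γ.ft Y ξ * (starRingEnd ℂ) (Γ.ft Z ξ) =
        (((nc Λ : ℝ) * X.ncard * Y.ncard * Z.ncard : ℝ) : ℂ) := by
    rw [Finset.sum_congr rfl (g := fun _ => (X.ncard : ℂ) * Y.ncard * Z.ncard) fun ξ hξ => ?_]
    · have : nc Λ = (Finset.univ.filter (fun ξ => ξ ∈ Λ)).card := by
        rw [nc, ← Set.ncard_coe_finset]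
        congr 1
        ext x
        simp
      rw [Finset.sum_const, nsmul_eq_mul, this]
      push_cast
      ring
    · have hξ' := (Finset.mem_filter.1 hξ).2
      have h1 : Γ.β ξ (c - a - a') = 0 := Γ.mem_perp.1 h ξ hξ'
      have h2 : chi p (Γ.β ξ a) * chi p (Γ.β ξ a') * chi p (-Γ.β ξ c) = 1 := by
        rw [← chi_add, ← chi_add, ← chi_zero (p := p)]
        congr 1
        rw [map_sub, map_sub] at h1
        linear_combination -h1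
      rw [Γ.ft_coset hX hξ', Γ.ft_coset hY hξ', Γ.ft_coset hZ hξ', map_mul, conj_chi, map_natCast]
      linear_combination (X.ncard : ℂ) * Y.ncard * Z.ncard * h2
  have e2 : ‖∑ ξ ∈ Finset.univ.filter (fun ξ => ξ ∉ Λ),
      Γ.ft X ξ * Γ.ft Y ξ * (starRingEnd ℂ) (Γ.ft Z ξ)‖ ≤
        Fintype.card W * (δ * q * Y.ncard) := by
    have b1 : ∀ ξ ∈ Finset.univ.filter (fun ξ => ξ ∉ Λ),
        ‖Γ.ft X ξ * Γ.ft Y ξ * (starRingEnd ℂ) (Γ.ft Z ξ)‖ ≤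
          δ / (2 * q) * (q ^ 2 * ‖Γ.ft Y ξ‖ ^ 2 + ‖Γ.ft Z ξ‖ ^ 2) := fun ξ hξ => by
      rw [norm_mul, norm_mul, RCLike.norm_conj, mul_assoc, div_mul_eq_mul_div, mul_div_assoc]
      refine mul_le_mul (hδ ξ (Finset.mem_filter.1 hξ).2) ?_ (by positivity) h0
      rw [le_div_iff₀ (by positivity)]
      nlinarith [sq_nonneg (q * ‖Γ.ft Y ξ‖ - ‖Γ.ft Z ξ‖)]
    refine (norm_sum_le_of_le _ b1).trans ((Finset.sum_le_sum_of_subset_of_nonneg
      (Finset.filter_subset _ _) fun _ _ _ => by positivity).trans ?_)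
    rw [← Finset.mul_sum, Finset.sum_add_distrib, ← Finset.mul_sum, Γ.parseval, Γ.parseval,
      div_mul_eq_mul_div, div_le_iff₀ (by positivity)]
    have := mul_le_mul_of_nonneg_left hq
      (mul_nonneg h0 (Nat.cast_nonneg (α := ℝ) (Fintype.card W)))
    nlinarith
  rw [e1] at e
  have e3 := congrArg Complex.re e
  have e4 := (neg_le_neg e2).trans (neg_le_of_abs_le (Complex.abs_re_le_norm _))
  simp only [Complex.add_re, Complex.ofReal_re, Complex.mul_re, Complex.natCast_re,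
    Complex.natCast_im, mul_zero, sub_zero] at e3
  rw [mul_add]
  linarith

end Pool.Agent.P.MP_f1a348_lc.LS
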