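import Pool.Agent.P.MP_f1a348_lc.LS.DefsF
import Pool.Agent.P.MP_f1a348_lc.LS.TFA
import Pool.Agent.P.MP_f1a348_lc.LS.TSTAR

/-! Step FC. -/

set_option autoImplicit false
set_option linter.unusedSectionVars false

namespace Pool.Agent.P.MP_f1a348_lc.LS

open Module Submodule

variable {p : ℕ} [Fact p.Prime] {W : Type} [AddCommGroup W] [Module (ZMod p) W] [Fintype W]
  {Γ : Sys p W} {ι : Type} [Fintype ι] {P P' b b' : List (Pm p W)} {φ ψ : Iso p W}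
  {B H T U V Λ : Sub p W} {E X Y Z : Set W} {a a' c o t w x x' y y' z μ μ₀ ξ : W}
  {n k r R : ℕ} {s u : ι} {m : List (ι × W)} {δ q : ℝ}

namespace FCx

theorem reidx (e : W ≃ W) (he : ∀ w ∈ E, e w ∈ E) (g : W → ℂ) :
    ∑ w ∈ (Set.toFinite E).toFinset, g w = ∑ w ∈ (Set.toFinite E).toFinset, g (e w) := by
  have h : (Set.toFinite E).toFinset.map e.toEmbedding = (Set.toFinite E).toFinset := by
    refine Finset.eq_of_subset_of_card_le (fun w hw => ?_) (by simp)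
    obtain ⟨v, hv, rfl⟩ := Finset.mem_map.1 hw
    exact (Set.Finite.mem_toFinset _).2 (he v ((Set.Finite.mem_toFinset _).1 hv))
  conv_lhs => rw [← h, Finset.sum_map]
  rfl

end FCx

-- field `ext` for `φ` on `sp ((⊥, x) :: P)`: the bijection maps `E` into `E` (`Inv.map`), hence onto `E`, and `β (φ x) (e w) = β x w` (`pres`)
theorem Sys.ft_cls (hE : Γ.Inv P E) (hn : P.length + 1 < Γ.M) (h : y ∈ Γ.cls P ⊥ x) :
    Γ.ft E y = Γ.ft E x := by
  obtain ⟨φ, h1, h2, h3⟩ := Sys.mem_cls.1 h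
  have hy : φ x = y := sub_eq_zero.1 ((mem_bot _).1 h3)
  have hd : finrank (ZMod p) (sp ((⊥, x) :: P)) < Γ.M :=
    lt_of_le_of_lt (finrank_sp _) (by simpa using hn)
  obtain ⟨e, he⟩ := Γ.ext h1 hd
  have hP : sp P ≤ sp ((⊥, x) :: P) := sp_mono (List.subset_cons_self _ _)
  have hx : x ∈ sp ((⊥, x) :: P) := mem_sp (e := (⊥, x)) List.mem_cons_self
  rw [Sys.ft, FCx.reidx e, Sys.ft]
  · refine Finset.sum_congr rfl fun w _ => ?_
    obtain ⟨φ', k1, k2, k3⟩ := he w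
    rw [← hy, ← k3, ← k2 x hx,
      Γ.pres k1 (mem_sup_left hx) (mem_sup_right (mem_span_singleton_self w))]
  · intro w hw
    obtain ⟨φ', k1, k2, k3⟩ := he w
    rw [← k3]
    refine Sys.Inv.map hE k1 (hP.trans le_sup_left) (fun c hc => ?_)
      (mem_sup_right (mem_span_singleton_self w)) hw
    rw [k2 _ (hP (mem_sp hc))]
    exact h2 c hc

-- translate by `u₀ ∈ U` with `β u₀ ξ ≠ 0`
theorem Sys.ft_sat (Γ : Sys p W) (hE : ∀ x ∈ E, ∀ y, x - y ∈ U → y ∈ E) (h : ξ ∉ Γ.perp U) :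
    Γ.ft E ξ = 0 := by
  obtain ⟨v, hv, h0⟩ : ∃ v ∈ U, Γ.β v ξ ≠ 0 := by
    by_contra hc
    push Not at hc
    exact h (Sys.mem_perp.2 hc)
  have h1 : Γ.ft E ξ = Γ.ft E ξ * chi p (Γ.β ξ v) := by
    conv_lhs => rw [Sys.ft, FCx.reidx (Equiv.addRight v)
      fun w hw => hE w hw _ (by simpa using hv)]
    rw [Sys.ft, Finset.sum_mul]
    refine Finset.sum_congr rfl fun w _ => ?_
    rw [Equiv.coe_addRight, map_add, chi_add]
  by_contra hc
  have h2 : chi p (Γ.β ξ v) = 1 := by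
    refine mul_left_cancel₀ hc ?_
    rw [← h1, mul_one]
  exact h0 (by rw [Γ.symm]; exact chi_eq_one h2)

theorem Sys.ft_congr (Γ : Sys p W) (hE : E ⊆ U) (h : x - y ∈ Γ.perp U) : Γ.ft E x = Γ.ft E y := by
  refine Finset.sum_congr rfl fun w hw => ?_
  have h1 := Sys.mem_perp.1 h w (hE ((Set.Finite.mem_toFinset _).1 hw))
  rw [map_sub, sub_eq_zero] at h1
  rw [Γ.symm x, Γ.symm y, h1]

-- `E = cls P (lo s) x ⊆ hi s` (`cls_hi`, `cls_inv`). If `ξ ∉ hi (star s) = perp (lo s)`: `ft_sat`, `cls_add`. Otherwise `ft E` is constant on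
-- `cls P (lo (star s)) ξ` (`mem_cls`, `map_mem_cls` with `⊥`, `ft_cls`, `ft_congr`, `lo_star`); `parseval`, `bigQ`, `N_eq`, `nc_perp`, `cand_le`
theorem Den.f1 (G : Den Γ ι) (hP : Γ.Ok G.j P) (hx : x ∈ G.hi s) (hξ : ξ ∉ G.Lam (G.star s) P) :
    ‖Γ.ft (Γ.cls P (G.lo s) x) ξ‖ ^ 2 ≤ (G.Q : ℝ) * nc (G.lo s) * G.N s := by
  have hM := G.hM
  by_cases hh : ξ ∈ G.hi (G.star s)
  swap
  · rw [G.hi_star] at hh
    rw [Γ.ft_sat (fun y hy z hz => Sys.cls_add hy hz) hh, norm_zero, sq, mul_zero]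
    positivity
  have hc : ∀ η ∈ Γ.cls P (G.lo (G.star s)) ξ,
      Γ.ft (Γ.cls P (G.lo s) x) η = Γ.ft (Γ.cls P (G.lo s) x) ξ := by
    intro η hη
    obtain ⟨φ, h1, h2, h3⟩ := Sys.mem_cls.1 hη
    have h4 : φ ξ ∈ Γ.cls P ⊥ ξ := Sys.map_mem_cls h1 (sp_mono (List.subset_cons_self _ _)) h2
      (mem_sp (e := (G.lo (G.star s), ξ)) List.mem_cons_self) ⊥
    have := hP.1
    rw [← Sys.ft_cls (Sys.cls_inv hP (G.dlo s) (by omega) x) (by omega) h4]
    rw [G.lo_star] at h3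
    exact (Γ.ft_congr (G.toGeo.cls_hi P hx) h3).symm
  have h1 : ((Γ.cls P (G.lo (G.star s)) ξ).ncard : ℝ) * ‖Γ.ft (Γ.cls P (G.lo s) x) ξ‖ ^ 2 ≤
      (Fintype.card W : ℝ) * (Γ.cls P (G.lo s) x).ncard := by
    rw [← Γ.parseval, Set.ncard_eq_toFinset_card _ (Set.toFinite _), ← nsmul_eq_mul,
      ← Finset.sum_const]
    refine le_trans (le_of_eq (Finset.sum_congr rfl fun η hη => ?_))
      (Finset.sum_le_sum_of_subset_of_nonneg (Finset.subset_univ _) fun _ _ _ => by positivity)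
    rw [hc η ((Set.Finite.mem_toFinset _).1 hη)]
  have h2 : (nc (Γ.perp (G.lo s)) : ℝ) ≤ G.Q * (Γ.cls P (G.lo (G.star s)) ξ).ncard := by
    have := G.toGeo.bigQ hP hh hξ
    rw [G.N_eq, G.hi_star] at this
    exact_mod_cast this
  have h3 : ((Γ.cls P (G.lo s) x).ncard : ℝ) ≤ G.N s := by
    exact_mod_cast G.toGeo.cand_le P (by rw [G.cand_eq]; exact hx)
  have h4 : (nc (Γ.perp (G.lo s)) : ℝ) * nc (G.lo s) = Fintype.card W := by
    exact_mod_cast Γ.nc_perp (G.lo s)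
  have h5 : (0 : ℝ) < nc (Γ.perp (G.lo s)) := by exact_mod_cast nc_pos _
  refine le_of_mul_le_mul_left ?_ h5
  calc (nc (Γ.perp (G.lo s)) : ℝ) * ‖Γ.ft (Γ.cls P (G.lo s) x) ξ‖ ^ 2
      ≤ G.Q * (((Γ.cls P (G.lo (G.star s)) ξ).ncard : ℝ) *
        ‖Γ.ft (Γ.cls P (G.lo s) x) ξ‖ ^ 2) := by
        rw [← mul_assoc]
        exact mul_le_mul_of_nonneg_right h2 (by positivity)
    _ ≤ G.Q * ((Fintype.card W : ℝ) * G.N s) := by
        exact mul_le_mul_of_nonneg_left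
          (h1.trans (mul_le_mul_of_nonneg_left h3 (by positivity))) (by positivity)
    _ = _ := by rw [← h4]; ring

end Pool.Agent.P.MP_f1a348_lc.LS
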