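import Pool.Agent.P.MP_f1a348_lc.LS.DefsF
import Pool.Agent.P.MP_f1a348_lc.LS.TFA

/-! Step FD. -/

set_option autoImplicit false
set_option linter.unusedSectionVars false

namespace Pool.Agent.P.MP_f1a348_lc.LS

open Module Submodule

variable {p : ℕ} [Fact p.Prime] {W : Type} [AddCommGroup W] [Module (ZMod p) W] [Fintype W]
  {Γ : Sys p W} {ι : Type} [Fintype ι] {P P' b b' : List (Pm p W)} {φ ψ : Iso p W}
  {B H T U V Λ : Sub p W} {E X Y Z : Set W} {a a' c o t w x x' y y' z μ μ₀ ξ : W}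
  {n k r R : ℕ} {s u : ι} {m : List (ι × W)} {δ q : ℝ}

-- `nc Λ * ft piece ξ = ∑ l ∈ Λ, chi (- β l a) * ft E (ξ + l)`: exchange the sums, the inner sum is `ft Λ (x - a)`
-- (`symm`, `ft_sub_mem`, `ft_sub_not_mem`); `ξ + l ∉ Λ`
theorem Sys.ft_piece (Γ : Sys p W) (hδ : ∀ ξ, ξ ∉ Λ → ‖Γ.ft E ξ‖ ≤ δ) (a : W) (hξ : ξ ∉ Λ) :
    ‖Γ.ft {x | x ∈ E ∧ x - a ∈ Γ.perp Λ} ξ‖ ≤ δ := by
  classical
  have key : (nc Λ : ℂ) * Γ.ft {x | x ∈ E ∧ x - a ∈ Γ.perp Λ} ξ =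
      ∑ l ∈ (Set.toFinite (Λ : Set W)).toFinset, chi p (-Γ.β l a) * Γ.ft E (ξ + l) := by
    have h1 : (Set.toFinite {x | x ∈ E ∧ x - a ∈ Γ.perp Λ}).toFinset =
        (Set.toFinite E).toFinset.filter fun x => x - a ∈ Γ.perp Λ := by
      ext x
      simp only [Set.Finite.mem_toFinset, Set.mem_ofPred_eq, Finset.mem_filter]
    have h2 : ∀ x : W, ∑ l ∈ (Set.toFinite (Λ : Set W)).toFinset,
        chi p (-Γ.β l a) * chi p (Γ.β (ξ + l) x) = chi p (Γ.β ξ x) * Γ.ft Λ (x - a) := by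
      intro x
      rw [Sys.ft, Finset.mul_sum]
      refine Finset.sum_congr rfl fun l _ => ?_
      rw [← chi_add, ← chi_add]
      congr 1
      rw [Γ.symm (x - a) l, map_add, LinearMap.add_apply, map_sub]
      ring
    simp only [Sys.ft, Finset.mul_sum]
    rw [Finset.sum_comm, h1, Finset.sum_filter]
    refine Finset.sum_congr rfl fun x _ => ?_
    rw [h2]
    split_ifs with h
    · rw [Γ.ft_sub_mem h, mul_comm]
    · rw [Γ.ft_sub_not_mem h, mul_zero]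
  have hc : (Set.toFinite (Λ : Set W)).toFinset.card = nc Λ :=
    (Set.ncard_eq_toFinset_card _ _).symm
  have h3 : (nc Λ : ℝ) * ‖Γ.ft {x | x ∈ E ∧ x - a ∈ Γ.perp Λ} ξ‖ ≤ (nc Λ : ℝ) * δ := by
    have h4 := congrArg norm key
    rw [norm_mul, Complex.norm_natCast] at h4
    rw [h4, ← hc, ← nsmul_eq_mul, ← Finset.sum_const]
    refine (norm_sum_le _ _).trans (Finset.sum_le_sum fun l hl => ?_)
    rw [norm_mul, norm_chi, one_mul]
    refine hδ _ fun h => hξ ?_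
    have hl' : l ∈ Λ := (Set.Finite.mem_toFinset _).1 hl
    simpa using sub_mem h hl'
  exact le_of_mul_le_mul_left h3 (by exact_mod_cast nc_pos Λ)

-- `δ² ≤ q l N < N² / q^63`, so `q^31 δ < N`; `q^6 l < N / q^58`
theorem num_gap {l N : ℝ} (hq : 2 ≤ q) (hl : 0 ≤ l) (hN : q ^ 64 * l < N) (h0 : 0 ≤ δ)
    (hδ : δ ^ 2 ≤ q * l * N) : q ^ 5 * (q * l + δ) < N := by
  have hq0 : 0 ≤ q := by linarith
  have h4 : ∀ n : ℕ, 4 ≤ q ^ (n + 2) := fun n => by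
    have h1 : (2 : ℝ) ^ (n + 2) ≤ q ^ (n + 2) := pow_le_pow_left₀ (by norm_num) hq _
    have h2 : (2 : ℝ) ^ 2 ≤ 2 ^ (n + 2) := pow_le_pow_right₀ (by norm_num) (by omega)
    linarith
  have hN0 : 0 < N := lt_of_le_of_lt (by positivity) hN
  have h1 : 4 * (q ^ 6 * l) < N := by
    have : 4 * (q ^ 6 * l) ≤ q ^ (56 + 2) * (q ^ 6 * l) :=
      mul_le_mul_of_nonneg_right (h4 56) (by positivity)
    have e : q ^ (56 + 2) * (q ^ 6 * l) = q ^ 64 * l := by ring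
    linarith
  have h2 : 4 * (q ^ 11 * l) < N := by
    have : 4 * (q ^ 11 * l) ≤ q ^ (51 + 2) * (q ^ 11 * l) :=
      mul_le_mul_of_nonneg_right (h4 51) (by positivity)
    have e : q ^ (51 + 2) * (q ^ 11 * l) = q ^ 64 * l := by ring
    linarith
  have h3 : (2 * (q ^ 5 * δ)) ^ 2 < N ^ 2 := by
    have a1 : (2 * (q ^ 5 * δ)) ^ 2 = 4 * q ^ 10 * δ ^ 2 := by ring
    have a2 : 4 * q ^ 10 * δ ^ 2 ≤ 4 * q ^ 10 * (q * l * N) :=
      mul_le_mul_of_nonneg_left hδ (by positivity)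
    have a3 : 4 * q ^ 10 * (q * l * N) = 4 * (q ^ 11 * l) * N := by ring
    have a4 : 4 * (q ^ 11 * l) * N < N * N := mul_lt_mul_of_pos_right h2 hN0
    have a5 : N ^ 2 = N * N := by ring
    linarith
  have h5 : 2 * (q ^ 5 * δ) < N := lt_of_pow_lt_pow_left₀ 2 hN0.le h3
  have e : q ^ 5 * (q * l + δ) = q ^ 6 * l + q ^ 5 * δ := by ring
  linarith

end Pool.Agent.P.MP_f1a348_lc.LS
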