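import Pool.Agent.P.MP_f1a348_lc.LS.DefsF
import Pool.Agent.P.MP_f1a348_lc.LS.TSTAR

/-! Step PIECE. -/

set_option autoImplicit false
set_option linter.unusedSectionVars false

namespace Pool.Agent.P.MP_f1a348_lc.LS

open Module Submodule

variable {p : ℕ} [Fact p.Prime] {W : Type} [AddCommGroup W] [Module (ZMod p) W] [Fintype W]
  {Γ : Sys p W} {ι : Type} [Fintype ι] {P P' b b' : List (Pm p W)} {φ ψ : Iso p W}
  {B H T U V Λ : Sub p W} {E X Y Z : Set W} {a a' c o t w x x' y y' z μ μ₀ ξ : W}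
  {n k r R : ℕ} {s u : ι} {m : List (ι × W)} {δ q : ℝ}

namespace PIECEx

theorem le_piece (hP : Γ.Ok n P) (hB : Γ.Def B) (hn : 2 * n + 4 ≤ Γ.M) (hU : Γ.Inv P U)
    (hBU : B ≤ U) (hx : x' ∈ Γ.cls P B x) :
    {y | y ∈ Γ.cls P B x ∧ y - x' ∈ U}.ncard ≤ {y | y ∈ Γ.cls P B x ∧ y - x ∈ U}.ncard := by
  have h : Γ.Sim ((B, x') :: P) ((B, x) :: P) := Sys.cls_symm hP hB (by omega) hx
  obtain ⟨e, he⟩ := h.bij (by have := hP.1; simp only [List.length_cons]; omega)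
  refine Set.ncard_le_ncard_of_injOn e (fun y hy => ⟨?_, ?_⟩) e.injective.injOn (Set.toFinite _)
  · exact Sys.cls_trans hP hB (by omega) hy.1 (he B y).swap.tail
  · have h1 : x' - y ∈ U := by simpa using U.neg_mem hy.2
    have h2 : x - e y ∈ U := Sys.cls_sub hU hBU h1 (he B y).sub_mem_cls
    simpa using U.neg_mem h2

end PIECEx

-- (1) for `x' ∈ E = cls P B x` the bijection of `Sim.bij` (with `⊥`) for `Sim ((B, x') :: P) ((B, x) :: P)` (`cls_symm`) maps the piece at `x'`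
-- into the piece at `x` (`Inv.map` for `U`, `cls_inv`). (2) count the pairs `(y, h) ∈ E × H` with `y - h ∈ U`: each `y` has `nc U` partners,
-- each `h` has at most as many partners as the piece at one of them
theorem Sys.piece (hP : Γ.Ok n P) (hB : Γ.Def B) (hn : 2 * n + 4 ≤ Γ.M) (hU : Γ.Inv P U)
    (hBU : B ≤ U) (hUH : U ≤ H) (hE : Γ.cls P B x ⊆ H) :
    (Γ.cls P B x).ncard * nc U ≤ nc H * {y | y ∈ Γ.cls P B x ∧ y - x ∈ U}.ncard := by
  classical
  rw [Set.ncard_eq_toFinset_card' (Γ.cls P B x), nc, nc, Set.ncard_eq_toFinset_card' (H : Set W)]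
  refine Finset.card_mul_le_card_mul (fun y h => y - h ∈ U) (fun y hy => ?_) (fun h _ => ?_)
  · rw [← Set.ncard_coe_finset]
    refine Set.ncard_le_ncard_of_injOn (fun u => y - u) (fun u hu => ?_)
      (sub_right_injective.injOn) (Set.toFinite _)
    have hy' : y ∈ H := hE (by simpa using hy)
    simp only [Finset.coe_bipartiteAbove, Set.mem_toFinset, Set.mem_ofPred_eq, sub_sub_cancel]
    exact ⟨H.sub_mem hy' (hUH hu), hu⟩
  · rcases (Finset.bipartiteBelow (fun y h => y - h ∈ U) (Γ.cls P B x).toFinset h).eq_empty_or_nonempty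
      with h0 | ⟨z, hz⟩
    · rw [h0]; simp
    · rw [Finset.mem_bipartiteBelow, Set.mem_toFinset] at hz
      refine le_trans ?_ (PIECEx.le_piece hP hB hn hU hBU hz.1)
      rw [← Set.ncard_coe_finset]
      refine Set.ncard_le_ncard (fun y hy => ?_) (Set.toFinite _)
      simp only [Finset.coe_bipartiteBelow, Set.mem_toFinset, Set.mem_ofPred_eq] at hy
      refine ⟨hy.1, ?_⟩
      simpa using U.sub_mem hy.2 hz.2

-- `piece` over `P'` with `U = Ann s P` (`Ann_inv`, `Inv.mono`), `finrank_Ann`, `nc_eq`, `bigQ`, `N_eq`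
theorem Den.piece (G : Den Γ ι) (hP : Γ.Ok G.j P) (hP' : Γ.Ok G.j P') (hs : P ⊆ P')
    (hx : x ∈ G.hi s) (hx' : x ∉ G.Lam s P') :
    G.N s ≤ G.Q ^ 2 * {y | y ∈ Γ.cls P' (G.lo s) x ∧ y - x ∈ G.Ann s P}.ncard := by
  have hM := G.hM
  have h1 := Sys.piece (x := x) hP' (G.dlo s) (by omega) ((G.Ann_inv hP s).mono hs)
    (G.lo_le_Ann hP s) (G.Ann_le_hi hP s)
    (Sys.cls_sub ((G.dhi s).inv P') ((G.lo_le_Ann hP s).trans (G.Ann_le_hi hP s)) hx)
  have h2 := G.toGeo.bigQ hP' hx hx'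
  have hp : 1 ≤ p := (Fact.out : p.Prime).one_lt.le
  have h3 : nc (G.hi s) ≤ G.Q * nc (G.Ann s P) := by
    rw [nc_eq, nc_eq, Geo.Q, ← pow_add]
    have h4 := G.finrank_Ann hP s
    have h5 : G.K * P.length ≤ G.K * G.j := Nat.mul_le_mul_left _ hP.1
    exact Nat.pow_le_pow_right hp (by omega)
  refine Nat.le_of_mul_le_mul_right ?_ (nc_pos (G.Ann s P))
  calc G.N s * nc (G.Ann s P)
      ≤ G.Q * (Γ.cls P' (G.lo s) x).ncard * nc (G.Ann s P) := Nat.mul_le_mul_right _ h2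
    _ = G.Q * ((Γ.cls P' (G.lo s) x).ncard * nc (G.Ann s P)) := by ring
    _ ≤ G.Q * (G.Q * nc (G.Ann s P) *
        {y | y ∈ Γ.cls P' (G.lo s) x ∧ y - x ∈ G.Ann s P}.ncard) :=
      Nat.mul_le_mul_left _ (h1.trans (Nat.mul_le_mul_right _ h3))
    _ = _ := by ring

end Pool.Agent.P.MP_f1a348_lc.LS
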