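import Pool.Agent.P.MP_f1a348_lc.LS.DefsF
import Pool.Agent.P.MP_f1a348_lc.LS.TFB
import Pool.Agent.P.MP_f1a348_lc.LS.TFC
import Pool.Agent.P.MP_f1a348_lc.LS.TFD
import Pool.Agent.P.MP_f1a348_lc.LS.TPIECE

/-! Step EQ. -/

set_option autoImplicit false
set_option linter.unusedSectionVars false

namespace Pool.Agent.P.MP_f1a348_lc.LS

open Module Submodule

variable {p : ℕ} [Fact p.Prime] {W : Type} [AddCommGroup W] [Module (ZMod p) W] [Fintype W]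
  {Γ : Sys p W} {ι : Type} [Fintype ι] {P P' b b' : List (Pm p W)} {φ ψ : Iso p W}
  {B H T U V Λ : Sub p W} {E X Y Z : Set W} {a a' c o t w x x' y y' z μ μ₀ ξ : W}
  {n k r R : ℕ} {s u : ι} {m : List (ι × W)} {δ q : ℝ}

-- `cnt3` with `Λ = Lam (star s) P`, `X` = the piece of `cls P (lo s) x` at `x`, `Y = Ann s P'`, `Z = y + Ann s P'`, `a = x`, `a' = 0`, `c = y`,
-- `q = 1`, `δ = sqrt (Q * nc lo * N)` (`f1`, `ft_piece`). The number of pairs is `|X ∩ Z| * |Y|`; if the claim fails, `X ∩ Z ⊆ Lam s P'` has at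
-- most `Q * nc lo` points. `card W = |Y| * nc (Lam (star s) P') ≤ |Y| * Q * nc Λ` (`nc_perp`, `nc_LamQ`, `lo_le`), `Den.piece`, `num_gap`, `gapQ`
theorem Den.eq (G : Den Γ ι) (hP' : Γ.Ok n P') (hn : n + 2 ≤ G.j) (hP : P.length ≤ n) (hs : P ⊆ P')
    (hx : x ∈ G.hi s) (hx' : x ∉ G.Lam s P) (hy : y - x ∈ G.Ann s P) :
    ∃ x' ∈ Γ.cls P (G.lo s) x, x' - y ∈ G.Ann s P' ∧ x' ∉ G.Lam s P' := by
  by_contra hc
  push Not at hc
  have o' : Γ.Ok G.j P' := hP'.mono (by omega)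
  have o : Γ.Ok G.j P := hP'.of_subset hs (by omega)
  have hA := G.Ann_anti o o' hs s
  have hQ : (2 : ℝ) ≤ G.Q := by exact_mod_cast G.toGeo.two_le_Q
  set δ := √((G.Q : ℝ) * nc (G.lo s) * G.N s) with hδ
  have hδ0 : 0 ≤ δ := Real.sqrt_nonneg _
  have hZ : {z | z - y ∈ G.Ann s P'}.ncard = nc (G.Ann s P') :=
    Set.ncard_preimage_of_injective_subset_range (f := fun z => z - y) sub_left_injective
      fun z _ => ⟨z + y, add_sub_cancel_right z y⟩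
  have h1 := Γ.cnt3 (Λ := G.Lam (G.star s) P) (a := x) (a' := 0) (c := y) (q := 1) (δ := δ)
    (X := {z | z ∈ Γ.cls P (G.lo s) x ∧ z - x ∈ Γ.perp (G.Lam (G.star s) P)})
    (Y := G.Ann s P') (Z := {z | z - y ∈ G.Ann s P'}) (fun _ h => h.2)
    (fun z h => by rw [sub_zero]; exact hA h) (fun z h => hA h) (by rw [sub_zero]; exact hy) hδ0
    (fun ξ h => Γ.ft_piece (fun ξ h => Real.le_sqrt_of_sq_le (G.f1 o hx h)) x h) one_pos
    (by rw [hZ, one_pow, one_mul]; rfl)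
  have h2 := G.piece o o (List.Subset.refl _) hx hx'
  have h3 : {e : W × W | e.1 ∈ {z | z ∈ Γ.cls P (G.lo s) x ∧
      z - x ∈ Γ.perp (G.Lam (G.star s) P)} ∧ e.2 ∈ (G.Ann s P' : Set W) ∧
      e.1 + e.2 ∈ {z | z - y ∈ G.Ann s P'}}.ncard ≤ G.Q * nc (G.lo s) * nc (G.Ann s P') := by
    refine le_trans (Set.ncard_le_ncard (t := (G.Lam s P' : Set W) ×ˢ (G.Ann s P' : Set W))
      fun e he => ⟨hc _ he.1.1 ?_, he.2.1⟩) ?_
    · have := sub_mem he.2.2 he.2.1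
      rwa [add_sub_right_comm, add_sub_cancel_right] at this
    · rw [Set.ncard_prod]
      exact Nat.mul_le_mul_right _ (G.toGeo.nc_LamQ o' s)
  have h4 : Fintype.card W ≤ nc (G.Ann s P') * (G.Q * nc (G.Lam (G.star s) P)) := by
    rw [← Γ.nc_perp (G.Lam (G.star s) P')]
    exact Nat.mul_le_mul_left _ ((G.toGeo.nc_LamQ o' _).trans
      (Nat.mul_le_mul_left _ (nc_mono (G.lo_le _ P o))))
  have h5 := num_gap (q := G.Q) (l := nc (G.lo s)) (N := G.N s) (δ := δ) hQ (Nat.cast_nonneg _)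
    (by exact_mod_cast G.toGeo.gapQ s) hδ0 (Real.sq_sqrt (by positivity)).le
  have hY : (0 : ℝ) < nc (G.Ann s P') := Nat.cast_pos.2 (nc_pos _)
  have hL : (0 : ℝ) < nc (G.Lam (G.star s) P) := Nat.cast_pos.2 (nc_pos _)
  have hl : (0 : ℝ) ≤ nc (G.lo s) := Nat.cast_nonneg _
  rw [hZ] at h1
  change (nc _ : ℝ) * Set.ncard {z | z ∈ Γ.cls P (G.lo s) x ∧ z - x ∈ G.Ann s P} *
    nc (G.Ann s P') * _ ≤ _ * (_ + δ * 1 * nc (G.Ann s P')) at h1
  have h2' := Nat.cast_le (α := ℝ).2 h2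
  have h3' := Nat.cast_le (α := ℝ).2 h3
  have h4' := Nat.cast_le (α := ℝ).2 h4
  push_cast at h2' h3' h4'
  have h6 := h1.trans (mul_le_mul h4' (add_le_add h3' le_rfl) (by positivity) (by positivity))
  generalize (Set.ncard {z | z ∈ Γ.cls P (G.lo s) x ∧ z - x ∈ G.Ann s P} : ℝ) = a at h2' h6
  generalize (nc (G.Ann s P') : ℝ) = b at hY h6
  generalize (nc (G.Lam (G.star s) P) : ℝ) = c at hL h6
  generalize (nc (G.lo s) : ℝ) = l at hl h5 h6
  generalize (G.Q : ℝ) = Q at hQ h5 h6 h2'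
  have h7 : a ≤ Q * (Q * l + δ) :=
    le_of_mul_le_mul_left (a := c * b * b) (by linarith) (by positivity)
  have h8 : Q ^ 2 * a ≤ Q ^ 2 * (Q * (Q * l + δ)) := mul_le_mul_of_nonneg_left h7 (sq_nonneg _)
  have h9 : Q ^ 3 * (Q * l + δ) ≤ Q ^ 5 * (Q * l + δ) :=
    mul_le_mul_of_nonneg_right (pow_le_pow_right₀ (by linarith) (by norm_num)) (by positivity)
  linarith

end Pool.Agent.P.MP_f1a348_lc.LS
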