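import Pool.Agent.P.MP_f1a348_lc.LS.DefsF
import Pool.Agent.P.MP_f1a348_lc.LS.TSTAR

/-! Step MIXA. -/

set_option autoImplicit false
set_option linter.unusedSectionVars false

namespace Pool.Agent.P.MP_f1a348_lc.LS

open Module Submodule

variable {p : ℕ} [Fact p.Prime] {W : Type} [AddCommGroup W] [Module (ZMod p) W] [Fintype W]
  {Γ : Sys p W} {ι : Type} [Fintype ι] {P P' b b' : List (Pm p W)} {φ ψ : Iso p W}
  {B H T U V Λ : Sub p W} {E X Y Z : Set W} {a a' c o t w x x' y y' z μ μ₀ ξ : W}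
  {n k r R : ℕ} {s u : ι} {m : List (ι × W)} {δ q : ℝ}

/-- the number of `x' ∈ X` with `x' + z ∈ Z` only depends on the class of `z` -/
-- `Sim.bij` with `⊥` for `Sim ((B, z) :: P) ((B, z') :: P)`: `x' ↦ e x'`; `Inv.map` for `X` and for `Z` (the point `x' + z`), then `hZ'`
theorem Sys.mix_le (hn : P.length + 1 < Γ.M) (hX : Γ.Inv P X) (hZ : Γ.Inv P Z)
    (hZ' : ∀ x ∈ Z, ∀ y, x - y ∈ B → y ∈ Z) (h : y ∈ Γ.cls P B z) :
    {x | x ∈ X ∧ x + z ∈ Z}.ncard ≤ {x | x ∈ X ∧ x + y ∈ Z}.ncard := by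
  obtain ⟨e, he⟩ := Sys.Sim.bij h hn
  refine Set.ncard_le_ncard_of_injOn e (fun w hw => ?_) e.injective.injOn (Set.toFinite _)
  obtain ⟨φ, h1, h2⟩ := he ⊥ w
  obtain ⟨-, h3, h4⟩ := mv_cons.1 h2
  obtain ⟨-, h5, h6⟩ := mv_cons.1 h4
  have hP : sp P ≤ sp ((⊥, w) :: (B, z) :: P) :=
    sp_mono (List.subset_cons_of_subset _ (List.subset_cons_self _ _))
  have hw' : w ∈ sp ((⊥, w) :: (B, z) :: P) := mem_sp (e := (⊥, w)) List.mem_cons_self
  have hz : z ∈ sp ((⊥, w) :: (B, z) :: P) :=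
    mem_sp (e := (B, z)) (List.mem_cons_of_mem _ List.mem_cons_self)
  rw [← sub_eq_zero.1 ((mem_bot _).1 h3)]
  refine ⟨hX.map h1 hP (mv_self.1 h6) hw' hw.1,
    hZ' _ (hZ.map h1 hP (mv_self.1 h6) (add_mem hw' hz) hw.2) _ ?_⟩
  rwa [map_add, add_sub_add_left_eq_sub]

/-- a piece of a class is invariant after a pin of one point of its coset -/
theorem Sys.inv_piece (hE : Γ.Inv P E) (hU : Γ.Inv P U) (hBU : B ≤ U) (ho : o - x ∈ U) :
    Γ.Inv ((B, o) :: P) {y | y ∈ E ∧ y - x ∈ U} := by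
  refine Sys.inv_of_map fun w hw φ h1 h2 => ?_
  obtain ⟨h3, h4⟩ := fx_cons.1 h2
  have hP : sp P ≤ sp ((⊥, w) :: (B, o) :: P) :=
    sp_mono (List.subset_cons_of_subset _ (List.subset_cons_self _ _))
  have hw' : w ∈ sp ((⊥, w) :: (B, o) :: P) := mem_sp (e := (⊥, w)) List.mem_cons_self
  have ho' : o ∈ sp ((⊥, w) :: (B, o) :: P) :=
    mem_sp (e := (B, o)) (List.mem_cons_of_mem _ List.mem_cons_self)
  refine ⟨hE.map h1 hP h4 hw' hw.1, ?_⟩
  have h5 : φ (w - o) ∈ U := hU.map h1 hP h4 (sub_mem hw' ho')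
    (by simpa using U.sub_mem hw.2 ho)
  have := U.add_mem (U.add_mem h5 (hBU h3)) ho
  rwa [map_sub, sub_add_sub_cancel, sub_add_sub_cancel] at this

/-- counting pairs by the second coordinate -/
theorem ncard_pairs_le (h : ∀ y ∈ Y, {x | x ∈ X ∧ x + y ∈ Z}.ncard ≤ k) :
    {e : W × W | e.1 ∈ X ∧ e.2 ∈ Y ∧ e.1 + e.2 ∈ Z}.ncard ≤ k * Y.ncard := by
  classical
  rw [Set.ncard_eq_toFinset_card _ (Set.toFinite _), Set.ncard_eq_toFinset_card Y (Set.toFinite _)]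
  refine Finset.card_le_mul_card_image_of_maps_to (f := Prod.snd)
    (fun e he => (Set.Finite.mem_toFinset _).2 ((Set.Finite.mem_toFinset _).1 he).2.1) k
    fun y hy => ?_
  refine le_trans ?_ (h y ((Set.Finite.mem_toFinset _).1 hy))
  rw [← Set.ncard_coe_finset]
  refine Set.ncard_le_ncard_of_injOn Prod.fst (fun e he => ?_) (fun e he e' he' h' => ?_)
    (Set.toFinite _)
  · obtain ⟨h1, rfl⟩ := Finset.mem_filter.1 he
    have := (Set.Finite.mem_toFinset _).1 h1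
    exact ⟨this.1, this.2.2⟩
  · exact Prod.ext h' ((Finset.mem_filter.1 he).2.trans (Finset.mem_filter.1 he').2.symm)

end Pool.Agent.P.MP_f1a348_lc.LS
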