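import Pool.Agent.P.MP_f1a348_lc.LS.Base
import Pool.Agent.P.MP_f1a348_lc.LS.TIDEM

/-! Step EXCH. -/

set_option autoImplicit false
set_option linter.unusedSectionVars false

namespace Pool.Agent.P.MP_f1a348_lc.LS

open Module Submodule

variable {p : ℕ} [Fact p.Prime] {W : Type} [AddCommGroup W] [Module (ZMod p) W] [Fintype W]
  {Γ : Sys p W} {ι : Type} [Fintype ι] {P P' P'' R R' b : List (Pm p W)} {φ ψ : Iso p W}
  {A B B' D T U U' V : Sub p W} {S X Y : Set W} {a a' c v w x x' y y' z μ : W} {n m r : ℕ}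
  {s t : ι} {l l' : List W}

-- `swap` for the pair `(a, μ)`; otherwise `N s * N t ≤ Q ^ 43 * N s * nc (lo t)`, against `gapQ`
theorem Geo.exch (G : Geo Γ ι) (hP : Γ.Ok n P) (hn : n + 1 ≤ G.j) (ha : a ∈ G.hi s)
    (hc : (Γ.cls P (G.lo s) a).ncard ≤ G.Q ^ 40 * G.N s)
    (h1 : μ ∈ G.Lam t ((G.lo s, a) :: P)) (h2 : μ ∉ G.Lam t P) :
    a ∈ G.Lam s ((G.lo t, μ) :: P) := by
  by_contra h
  have hM := G.hM
  have o1 := (hP.cons (G.dlo s) a).mono hn
  have o2 := (hP.cons (G.dlo t) μ).mono hn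
  have e := Sys.swap hP (G.dlo s) (G.dlo t) (by omega) a μ
  have b1 := G.bigQ o2 ha h
  have b2 := G.bigQ (hP.mono (by omega)) (G.le_hi t _ o1 h1) h2
  have b3 := G.small o1 h1
  have b4 : G.N s * G.N t ≤ G.N s * (G.Q ^ 43 * nc (G.lo t)) :=
    calc _ ≤ _ := Nat.mul_le_mul b1 b2
      _ = G.Q ^ 2 * ((Γ.cls P (G.lo s) a).ncard *
        (Γ.cls ((G.lo s, a) :: P) (G.lo t) μ).ncard) := by rw [e]; ring
      _ ≤ G.Q ^ 2 * (G.Q ^ 40 * G.N s * (G.Q * nc (G.lo t))) :=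
        Nat.mul_le_mul_left _ (Nat.mul_le_mul hc b3)
      _ = _ := by ring
  have b5 := Nat.le_of_mul_le_mul_left b4 ((Nat.zero_le _).trans_lt (G.gapQ s))
  exact (G.gapQ t).not_ge (b5.trans (Nat.mul_le_mul_right _
    (Nat.pow_le_pow_right (Nat.zero_lt_two.trans_le G.two_le_Q) (by norm_num))))

-- `exch`, `le_of_mem`, `mono`
theorem Geo.super (G : Geo Γ ι) (hP' : Γ.Ok n P') (hn : n + 1 ≤ G.j) (hP : P.length ≤ n)
    (hs : P ⊆ P') (ha : a ∈ G.cand s) (ha' : a ∉ G.Lam s P') (t : ι) :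
    G.Lam t ((G.lo s, a) :: P) ⊓ G.Lam t P' = G.Lam t P := by
  have o := hP'.of_subset hs hP
  have o0 : Γ.Ok G.j P := o.mono (by omega)
  refine le_antisymm (fun μ hμ => by_contra fun h => ha' ?_) (le_inf
    (G.mono o0 ((o.cons (G.dlo s) a).mono hn) (List.subset_cons_self _ _) t)
    (G.mono o0 (hP'.mono (by omega)) hs t))
  refine G.le_of_mem hP' hn hP hs hμ.2 s (G.exch o hn (G.cand_hi s ha) ?_ hμ.1 h)
  exact (G.cand_le P ha).trans (Nat.le_mul_of_pos_left _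
    (pow_pos (Nat.zero_lt_two.trans_le G.two_le_Q) _))

end Pool.Agent.P.MP_f1a348_lc.LS
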