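import Pool.Agent.P.MP_f1a348_lc.LS.DefsF
import Pool.Agent.P.MP_f1a348_lc.LS.TFA
import Pool.Agent.P.MP_f1a348_lc.LS.TSTAR
import Pool.Agent.P.MP_f1a348_lc.LS.TEXCH

/-! Step SUB. -/

set_option autoImplicit false
set_option linter.unusedSectionVars false

namespace Pool.Agent.P.MP_f1a348_lc.LS

open Module Submodule

variable {p : ℕ} [Fact p.Prime] {W : Type} [AddCommGroup W] [Module (ZMod p) W] [Fintype W]
  {Γ : Sys p W} {ι : Type} [Fintype ι] {P P' b b' : List (Pm p W)} {φ ψ : Iso p W}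
  {B H T U V Λ : Sub p W} {E X Y Z : Set W} {a a' c o t w x x' y y' z μ μ₀ ξ : W}
  {n k r R : ℕ} {s u : ι} {m : List (ι × W)} {δ q : ℝ}

-- `exch` with `cand_le`, `cand_eq`
theorem Den.exchD (G : Den Γ ι) (hP : Γ.Ok n P) (hn : n + 1 ≤ G.j) (ha : a ∈ G.hi s)
    (h1 : μ ∈ G.Lam u ((G.lo s, a) :: P)) (h2 : μ ∉ G.Lam u P) :
    a ∈ G.Lam s ((G.lo u, μ) :: P) := by
  have hc : a ∈ G.cand s := by rw [G.cand_eq]; exact ha
  exact G.toGeo.exch hP hn ha ((G.toGeo.cand_le P hc).trans (Nat.le_mul_of_pos_left _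
    (pow_pos (Nat.zero_lt_two.trans_le G.toGeo.two_le_Q) _))) h1 h2

theorem Den.superD (G : Den Γ ι) (hP' : Γ.Ok n P') (hn : n + 1 ≤ G.j) (hP : P.length ≤ n)
    (hs : P ⊆ P') (ha : a ∈ G.hi s) (ha' : a ∉ G.Lam s P') (u : ι) :
    G.Lam u ((G.lo s, a) :: P) ⊓ G.Lam u P' = G.Lam u P := by
  have hc : a ∈ G.cand s := by rw [G.cand_eq]; exact ha
  exact G.toGeo.super hP' hn hP hs hc ha' u

-- no Fourier: `perp U` is invariant (`Inv.perp`) and lies between `lo (star s)` and `hi (star s)`. If it had a point outside `Lam (star s) P`,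
-- then `N s ≤ Q * nc U`, `N (star s) ≤ Q * nc (perp U)` (`bigQ`, `cls_sub`), and `nc_perp` twice gives `N s ≤ Q ^ 2 * nc (lo s)`, against `gapQ`
theorem Den.sub (G : Den Γ ι) (hP : Γ.Ok G.j P) (hU : Γ.Inv P U) (h1 : G.lo s ≤ U)
    (h2 : U ≤ G.hi s) (hx : x ∈ U) (hx' : x ∉ G.Lam s P) : G.Ann s P ≤ U := by
  have hM := G.hM
  have hI : Γ.Inv P (Γ.perp U) := Sys.Inv.perp hU hP (by omega)
  have hlo : G.lo (G.star s) ≤ Γ.perp U := by
    intro v hv
    rw [G.lo_star] at hv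
    exact Sys.mem_perp.2 fun u hu => Sys.mem_perp.1 hv u (h2 hu)
  have key : Γ.perp U ≤ G.Lam (G.star s) P := by
    intro v hv
    by_contra hv'
    have hhi : v ∈ G.hi (G.star s) := by
      rw [G.hi_star]
      exact Sys.mem_perp.2 fun u hu => Sys.mem_perp.1 hv u (h1 hu)
    have b1 : G.N s ≤ G.Q * nc U :=
      (G.toGeo.bigQ hP (h2 hx) hx').trans (Nat.mul_le_mul_left _
        (Set.ncard_le_ncard (Sys.cls_sub hU h1 hx) (Set.toFinite _)))
    have b2 : G.N (G.star s) ≤ G.Q * nc (Γ.perp U) :=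
      (G.toGeo.bigQ hP hhi hv').trans (Nat.mul_le_mul_left _
        (Set.ncard_le_ncard (Sys.cls_sub hI hlo hv) (Set.toFinite _)))
    have e1 : G.N (G.star s) * nc (G.lo s) = nc (Γ.perp U) * nc U := by
      rw [G.N_eq, G.hi_star, Γ.nc_perp, Γ.nc_perp]
    have b3 : G.N (G.star s) * G.N s ≤ G.N (G.star s) * (G.Q ^ 2 * nc (G.lo s)) :=
      calc _ ≤ _ := Nat.mul_le_mul b2 b1
        _ = G.Q ^ 2 * (nc (Γ.perp U) * nc U) := by ring
        _ = _ := by rw [← e1]; ring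
    have b4 := Nat.le_of_mul_le_mul_left b3 ((Nat.zero_le _).trans_lt (G.toGeo.gapQ _))
    exact (G.toGeo.gapQ s).not_ge (b4.trans (Nat.mul_le_mul_right _
      (Nat.pow_le_pow_right (Nat.zero_lt_two.trans_le G.toGeo.two_le_Q) (by norm_num))))
  intro z hz
  rw [← Γ.perp_perp U]
  exact Sys.mem_perp.2 fun u hu => G.mem_Ann.1 hz u (key hu)

end Pool.Agent.P.MP_f1a348_lc.LS
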