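import Pool.Agent.P.MP_f1a348_lc.LS.DefsF
import Pool.Agent.P.MP_f1a348_lc.LS.TEQ
import Pool.Agent.P.MP_f1a348_lc.LS.TSUB
import Pool.Agent.P.MP_f1a348_lc.LS.TMIXA

/-! Step MIX. -/

set_option autoImplicit false
set_option linter.unusedSectionVars false

namespace Pool.Agent.P.MP_f1a348_lc.LS

open Module Submodule

variable {p : ℕ} [Fact p.Prime] {W : Type} [AddCommGroup W] [Module (ZMod p) W] [Fintype W]
  {Γ : Sys p W} {ι : Type} [Fintype ι] {P P' b b' : List (Pm p W)} {φ ψ : Iso p W}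
  {B H T U V Λ : Sub p W} {E X Y Z : Set W} {a a' c o t w x x' y y' z μ μ₀ ξ : W}
  {n k r R : ℕ} {s u : ι} {m : List (ι × W)} {δ q : ℝ}

namespace MIXx

theorem num {Q l N d L x y z w t : ℝ} (hQ : 2 ≤ Q) (hl : 0 ≤ l) (hN : 0 < N) (hd : 0 ≤ d)
    (hL : 0 < L) (hx : 0 ≤ x) (ht : 0 ≤ t) (sx : N ≤ Q ^ 2 * x) (sy : N ≤ Q ^ 2 * y)
    (sz : N ≤ Q ^ 2 * z) (hc : L * x * y * z ≤ w * (t + d * Q * y)) (hw : w ≤ L * N)
    (hp : t ≤ Q * l * y) (hg : Q ^ 5 * (Q * l + d) < N) : False := by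
  have hQ0 : 0 < Q := by linarith
  have hy : 0 < y := by
    by_contra hn
    have := mul_nonpos_of_nonneg_of_nonpos (sq_nonneg Q) (not_lt.1 hn)
    linarith
  have h1 : L * x * y * z ≤ L * N * (Q * l * y + d * Q * y) :=
    hc.trans (mul_le_mul hw (by linarith) (by positivity) (by positivity))
  have h2 : x * z ≤ N * (Q * l + d * Q) := by
    refine le_of_mul_le_mul_left ?_ (mul_pos hL hy)
    linarith
  have h3 : N * N ≤ Q ^ 2 * x * (Q ^ 2 * z) := mul_le_mul sx sz hN.le (by positivity)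
  have h4 : Q ^ 4 * (x * z) ≤ Q ^ 4 * (N * (Q * l + d * Q)) :=
    mul_le_mul_of_nonneg_left h2 (by positivity)
  have h5 : N ≤ Q ^ 5 * (l + d) := by
    refine le_of_mul_le_mul_left ?_ hN
    linarith
  have h6 : Q ^ 5 * (l + d) ≤ Q ^ 5 * (Q * l + d) :=
    mul_le_mul_of_nonneg_left (by nlinarith) (by positivity)
  linarith

end MIXx

-- `z ∈ hi s`. `eq` for `P ⊆ (lo s, z) :: P`, `y := x` gives `o ∈ cls P x`, `o - x ∈ Ann s P`, `o ∉ Lam s (z :: P)`; `exchD`: `z ∉ Lam s P₁`,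
-- `P₁ = (lo s, o) :: P`. `cnt3` with `Λ = Lam (star s) P`, `X` = piece of `cls P x` at `x`, `Y = {z' ∈ cls P₁ z | z' - z ∈ Ann s P}`, `Z` = piece of
-- `cls P y` at `y`, `q = Q`. All three have between `N / Q²` (`Den.piece`) and `N` points. If the claim fails, `{x' ∈ X | x' + z ∈ cls P y} ⊆ Lam s P'`
-- has at most `Q * nc lo` points, and so for every `z' ∈ Y` (`cls_symm`, `mix_le` over `P₁`, `inv_piece`); `ncard_pairs_le`;
-- `card W = nc (lo (star s)) * N s ≤ nc Λ * N s`; `num_gap`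
theorem Den.mix (G : Den Γ ι) (hP' : Γ.Ok n P') (hn : n + 3 ≤ G.j) (hP : P.length ≤ n) (hs : P ⊆ P')
    (hx : x ∈ G.hi s) (hx' : x ∉ G.Lam s P) (hy : y ∈ G.hi s) (hy' : y ∉ G.Lam s P)
    (hz' : z ∉ G.Lam s P) (h : y - x - z ∈ G.Ann s P) :
    ∃ x' ∈ Γ.cls P (G.lo s) x, x' - x ∈ G.Ann s P ∧ x' + z ∈ Γ.cls P (G.lo s) y ∧
      x' ∉ G.Lam s P' := by
  by_contra hno
  have hM := G.hM
  have hPn : Γ.Ok n P := hP'.of_subset hs hP
  have hPj : Γ.Ok G.j P := hPn.mono (by omega)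
  have hP'j : Γ.Ok G.j P' := hP'.mono (by omega)
  have hB := G.dlo s
  have hz : z ∈ G.hi s := by
    have := (G.hi s).sub_mem ((G.hi s).sub_mem hy hx) (G.Ann_le_hi hPj s h)
    simpa using this
  have hPz : Γ.Ok (n + 1) ((G.lo s, z) :: P) := hPn.cons hB z
  obtain ⟨o, ho1, ho2, ho3⟩ := G.eq (y := x) hPz (by omega) (by omega) (List.subset_cons_self _ _)
    hx hx' (by rw [sub_self]; exact Submodule.zero_mem _)
  have ho2' : o - x ∈ G.Ann s P :=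
    G.Ann_anti hPj (hPz.mono (by omega)) (List.subset_cons_self _ _) s ho2
  have hoh : o ∈ G.hi s := G.toGeo.cls_hi P hx ho1
  have hP1 : Γ.Ok (n + 1) ((G.lo s, o) :: P) := hPn.cons hB o
  have hz1 : z ∉ G.Lam s ((G.lo s, o) :: P) := fun e => ho3 (G.exchD hPn (by omega) hoh e hz')
  have sX := G.piece hPj hPj (List.Subset.refl P) hx hx'
  have sY := G.piece hPj (hP1.mono (by omega)) (List.subset_cons_self _ _) hz hz1
  have sZ := G.piece hPj hPj (List.Subset.refl P) hy hy'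
  have iX : Γ.Inv ((G.lo s, o) :: P) {w | w ∈ Γ.cls P (G.lo s) x ∧ w - x ∈ G.Ann s P} :=
    Sys.inv_piece (Sys.cls_inv hPn hB (by omega) x) (G.Ann_inv hPj s) (G.lo_le_Ann hPj s) ho2'
  have iZ : Γ.Inv ((G.lo s, o) :: P) (Γ.cls P (G.lo s) y) :=
    (Sys.cls_inv hPn hB (by omega) y).mono (List.subset_cons_self _ _)
  have hδ : ∀ ξ, ξ ∉ G.Lam (G.star s) P →
      ‖Γ.ft {w | w ∈ Γ.cls P (G.lo s) x ∧ w - x ∈ G.Ann s P} ξ‖ ≤
        √((G.Q : ℝ) * nc (G.lo s) * G.N s) := fun ξ hξ =>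
    Γ.ft_piece (fun ξ hξ => Real.le_sqrt_of_sq_le (G.f1 hPj hx hξ)) x hξ
  set X : Set W := {w | w ∈ Γ.cls P (G.lo s) x ∧ w - x ∈ G.Ann s P} with hX
  set Y : Set W := {w | w ∈ Γ.cls ((G.lo s, o) :: P) (G.lo s) z ∧ w - z ∈ G.Ann s P} with hY
  set Z : Set W := {w | w ∈ Γ.cls P (G.lo s) y ∧ w - y ∈ G.Ann s P} with hZ
  have zN : Z.ncard ≤ G.N s := by
    rw [G.N_eq]
    exact Set.ncard_le_ncard (fun w hw => G.toGeo.cls_hi P hy hw.1) (Set.toFinite _)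
  have h0 : {w | w ∈ X ∧ w + z ∈ Γ.cls P (G.lo s) y}.ncard ≤ G.Q * nc (G.lo s) := by
    refine le_trans (Set.ncard_le_ncard (fun w hw => ?_) (Set.toFinite _))
      (G.toGeo.nc_LamQ hP'j s)
    by_contra hw'
    exact hno ⟨w, hw.1.1, hw.1.2, hw.2, hw'⟩
  have hpairs := ncard_pairs_le (X := X) (Y := Y) (Z := Z) (k := G.Q * nc (G.lo s)) fun z' hz'' => by
    refine le_trans (Set.ncard_le_ncard (t := {w | w ∈ X ∧ w + z' ∈ Γ.cls P (G.lo s) y})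
      (fun w hw => ⟨hw.1, hw.2.1⟩) (Set.toFinite _)) (le_trans ?_ h0)
    exact Sys.mix_le (B := G.lo s) (by rw [List.length_cons]; omega) iX iZ
      (fun _ a _ b => Sys.cls_add a b) (Sys.cls_symm hP1 hB (by omega) hz''.1)
  have hQ : (2 : ℝ) ≤ G.Q := by exact_mod_cast G.toGeo.two_le_Q
  have sX' : (G.N s : ℝ) ≤ (G.Q : ℝ) ^ 2 * X.ncard := by exact_mod_cast sX
  have sY' : (G.N s : ℝ) ≤ (G.Q : ℝ) ^ 2 * Y.ncard := by exact_mod_cast sY
  have sZ' : (G.N s : ℝ) ≤ (G.Q : ℝ) ^ 2 * Z.ncard := by exact_mod_cast sZ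
  have zN' : (Z.ncard : ℝ) ≤ G.N s := by exact_mod_cast zN
  have hc := Γ.cnt3 (Λ := G.Lam (G.star s) P) (X := X) (Y := Y) (Z := Z) (a := x) (a' := z)
    (c := y) (q := G.Q) (fun _ e => e.2) (fun _ e => e.2) (fun _ e => e.2) h (Real.sqrt_nonneg _)
    hδ (by linarith) (zN'.trans sY')
  have hW : Fintype.card W ≤ nc (G.Lam (G.star s) P) * G.N s := by
    rw [← Γ.nc_perp (G.hi s), ← G.lo_star, G.N_eq]
    exact Nat.mul_le_mul_right _ (nc_mono (G.lo_le _ P hPj))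
  have hW' : (Fintype.card W : ℝ) ≤ (nc (G.Lam (G.star s) P) : ℝ) * G.N s := by exact_mod_cast hW
  have hp' : ({e : W × W | e.1 ∈ X ∧ e.2 ∈ Y ∧ e.1 + e.2 ∈ Z}.ncard : ℝ) ≤
      (G.Q : ℝ) * nc (G.lo s) * Y.ncard := by exact_mod_cast hpairs
  have hg : (G.Q : ℝ) ^ 64 * nc (G.lo s) < G.N s := by exact_mod_cast G.toGeo.gapQ s
  have hl : (0 : ℝ) ≤ nc (G.lo s) := Nat.cast_nonneg _
  have hN : (0 : ℝ) < G.N s := lt_of_le_of_lt (by positivity) hg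
  have hng := num_gap hQ hl hg (Real.sqrt_nonneg ((G.Q : ℝ) * nc (G.lo s) * G.N s))
    (Real.sq_sqrt (by positivity)).le
  have hΛ : (0 : ℝ) < nc (G.Lam (G.star s) P) := by exact_mod_cast nc_pos _
  exact MIXx.num hQ hl hN (Real.sqrt_nonneg _) hΛ (Nat.cast_nonneg _) (Nat.cast_nonneg _)
    sX' sY' sZ' hc hW' hp' hng

end Pool.Agent.P.MP_f1a348_lc.LS
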