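import Pool.Agent.P.MP_f1a348_lc.LS.DefsB
import Pool.Agent.P.MP_f1a348_lc.LS.TMIX
import Pool.Agent.P.MP_f1a348_lc.LS.TGEN
import Pool.Agent.P.MP_f1a348_lc.LS.TEQV

/-! Step AF2. -/

set_option autoImplicit false
set_option linter.unusedSectionVars false

namespace Pool.Agent.P.MP_f1a348_lc.LS

open Module Submodule

variable {p : ℕ} [Fact p.Prime] {W : Type} [AddCommGroup W] [Module (ZMod p) W] [Fintype W]
  {Γ : Sys p W} {ι : Type} [Fintype ι] {G : Den Γ ι} {P P' Q b : List (Pm p W)} {φ ψ : Iso p W}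
  {A₀ B₀ Λ U V : Sub p W} {a c o o' t w w' x₀ y₀ z μ : W} {n k r R : ℕ} {s u : ι}
  {m m' v v' : List (ι × W)} {A I J : Type} [Fintype I] {B B' : I → Sub p W}
  {e e' x x' y y' z' S : I → W} {so : I → ι} {σ τ τ' : Equiv.Perm I} {l : List I}

-- `δ = o' - o`; if `δ ∈ Lam` it lies in `lo`. Otherwise `gen`, `mix` give `x', x' + δ` in one class in `Ann s P`; `o₃ = o - x'` is good;
-- `Bs.st` over `(lo s, o₃) :: P`; the map fixes `o₃` and moves `x'` to `x' + δ`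
theorem Den.Bs.af2 (h : G.Bs b R) (hP : Γ.Ok n P) (hs : b ⊆ P) (hb : b.length ≤ n)
    (hn : n + 1 ≤ R) (hd : G.ND P) (hg : ∀ y, y - o ∈ G.hi s → G.Good s P y)
    (ho : o' - o ∈ G.Ann s P) : o' ∈ Γ.cls P (G.lo s) o := by
  have hR := h.hR
  have hM := G.hM
  have hPj : Γ.Ok G.j P := hP.mono (by omega)
  have hbj : Γ.Ok G.j b := h.ok.mono (by omega)
  by_cases hδ : o' - o ∈ G.Lam s P
  · refine Sys.cls_add (Γ.self_mem_cls P _ o) ?_
    have h1 := (G.lo s).neg_mem (hd s ⟨hδ, ho⟩)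
    rwa [neg_sub] at h1
  obtain ⟨x, hx, hx'⟩ := G.gen hPj s
  have hxh := G.Ann_le_hi hPj s hx
  obtain ⟨q, h1, h2, h3, h4⟩ := G.mix (z := o' - o) hP (by omega) hP.1 (List.Subset.refl P) hxh hx'
    hxh hx' hδ (by rw [sub_self, zero_sub]; exact neg_mem ho)
  have hq : q ∈ G.Ann s P := by
    have h5 := (G.Ann s P).add_mem h2 hx
    rwa [sub_add_cancel] at h5
  have h5 : q + (o' - o) ∈ Γ.cls P (G.lo s) q :=
    Sys.cls_trans hP (G.dlo s) (by omega) (Sys.cls_symm hP (G.dlo s) (by omega) h1) h3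
  have h6 : G.Same ((G.lo s, o - q) :: P) P := hg (o - q) (by
    rw [sub_sub_cancel_left]; exact neg_mem (G.Ann_le_hi hPj s hq))
  have h7 := h.st ((G.lo s, o - q) :: P) ((hP.cons (G.dlo s) _).mono hn)
    (List.subset_cons_of_subset _ hs) s q (q + (o' - o)) (G.Ann_anti hbj hPj hs s hq)
    (by rw [h6 s]; exact h4) (by rw [h6 s]; exact G.toGeo.not_mem_Lam_cls hPj hx' h3)
    (Sys.cls_mono hs _ _ h5) (by rw [h6.ann s, add_sub_cancel_left]; exact ho)
  obtain ⟨χ, a1, a2, a3⟩ := Sys.mem_cls.1 h7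
  obtain ⟨a4, a5⟩ := fx_cons.1 a2
  refine Sys.mem_cls.2 ⟨χ, Sys.mono a1 ?_, a5, ?_⟩
  · rw [sp_cons, sp_cons, sp_cons]
    refine sup_le ((span_singleton_le_iff_mem _ _).2 ?_) (le_sup_of_le_right le_sup_right)
    have a6 := add_mem (mem_sup_left (T := span (ZMod p) {o - q} ⊔ sp P) (mem_span_singleton_self q))
      (mem_sup_right (mem_sup_left (mem_span_singleton_self (o - q))))
    rwa [add_sub_cancel] at a6
  · have a6 := (G.lo s).add_mem a3 a4
    rwa [show χ q - (q + (o' - o)) + (χ (o - q) - (o - q)) = χ o - o' by rw [map_sub]; abel] at a6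

end Pool.Agent.P.MP_f1a348_lc.LS
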