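import Pool.Agent.P.MP_f1a348_lc.LS.DefsB
import Pool.Agent.P.MP_f1a348_lc.LS.TAF1
import Pool.Agent.P.MP_f1a348_lc.LS.TAF2

/-! Step AFX. -/

set_option autoImplicit false
set_option linter.unusedSectionVars false

namespace Pool.Agent.P.MP_f1a348_lc.LS

open Module Submodule

variable {p : ℕ} [Fact p.Prime] {W : Type} [AddCommGroup W] [Module (ZMod p) W] [Fintype W]
  {Γ : Sys p W} {ι : Type} [Fintype ι] {G : Den Γ ι} {P P' Q b : List (Pm p W)} {φ ψ : Iso p W}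
  {A₀ B₀ Λ U V : Sub p W} {a c o o' t w w' x₀ y₀ z μ : W} {n k r R : ℕ} {s u : ι}
  {m m' v v' : List (ι × W)} {A I J : Type} [Fintype I] {B B' : I → Sub p W}
  {e e' x x' y y' z' S : I → W} {so : I → ι} {σ τ τ' : Equiv.Perm I} {l : List I}

theorem Den.Bs.goodex (h : G.Bs b R) (hP : Γ.Ok n P) (hs : b ⊆ P) (hb : b.length ≤ n)
    (hn : n + 1 ≤ R) (ha : G.Aff s P o) : ∃ y, y - o ∈ G.hi s ∧ G.Good s P y := by
  have hR := h.hR
  by_cases hsm : ∃ y, y - o ∈ G.hi s ∧ G.Sm s P y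
  · obtain ⟨y, h1, h2⟩ := hsm
    exact ⟨y, h1, h2.good hP (by omega)⟩
  · exact ⟨o, by simp, h.af1 hP hs hb hn ha fun y h1 h2 => hsm ⟨y, h1, h2⟩⟩

-- if some `y` is small then `y - o ∈ Lam s (o P) = Lam s P` (`Sm.sub`), the same for `o'`, so `o' - o ∈ lo`; otherwise `af1`, `af2`
theorem Den.Bs.afx (h : G.Bs b R) (hP : Γ.Ok n P) (hs : b ⊆ P) (hb : b.length ≤ n)
    (hn : n + 1 ≤ R) (hd : G.ND P) (ha : G.Aff s P o) (hg : G.Good s P o) (hg' : G.Good s P o')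
    (ho : o' - o ∈ G.Ann s P) : o' ∈ Γ.cls P (G.lo s) o := by
  have hR := h.hR
  have hj : Γ.Ok G.j P := hP.mono (by omega)
  have hhi : o' - o ∈ G.hi s := G.Ann_le_hi hj s ho
  by_cases hsm : ∃ y, y - o ∈ G.hi s ∧ G.Sm s P y
  · obtain ⟨y, h1, h2⟩ := hsm
    have key : ∀ z, G.Good s P z → y - z ∈ G.hi s → y - z ∈ G.Lam s P := fun z hz hy => by
      rw [← hz s]
      exact Den.Sm.sub (Den.sm_of_mem List.mem_cons_self) (h2.mono (List.subset_cons_self _ _))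
        (hP.cons (G.dlo s) z) (by omega) hy
    have h3 : y - o' ∈ G.hi s := by simpa using sub_mem h1 hhi
    have h4 : o' - o ∈ G.Lam s P := by simpa using sub_mem (key o hg h1) (key o' hg' h3)
    have h5 : o' - o ∈ G.lo s := hd s ⟨h4, ho⟩
    exact Sys.cls_add (Γ.self_mem_cls P _ o) (by simpa using neg_mem h5)
  · refine h.af2 hP hs hb hn hd (fun y hy => h.af1 hP hs hb hn (ha.add hj hy) fun z hz h2 =>
      hsm ⟨z, by simpa using add_mem hz hy, h2⟩) ho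

end Pool.Agent.P.MP_f1a348_lc.LS
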