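import Pool.Agent.P.MP_f1a348_lc.LS.DefsB
import Pool.Agent.P.MP_f1a348_lc.LS.TSIM
import Pool.Agent.P.MP_f1a348_lc.LS.TSTAR

/-! Step FS. -/

set_option autoImplicit false
set_option linter.unusedSectionVars false

namespace Pool.Agent.P.MP_f1a348_lc.LS

open Module Submodule

variable {p : ℕ} [Fact p.Prime] {W : Type} [AddCommGroup W] [Module (ZMod p) W] [Fintype W]
  {Γ : Sys p W} {ι : Type} [Fintype ι] {G : Den Γ ι} {P P' Q b : List (Pm p W)} {φ ψ : Iso p W}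
  {A₀ B₀ Λ U V : Sub p W} {a c o o' t w w' x₀ y₀ z μ : W} {n k r R : ℕ} {s u : ι}
  {m m' v v' : List (ι × W)} {A I J : Type} [Fintype I] {B B' : I → Sub p W}
  {e e' x x' y y' z' S : I → W} {so : I → ι} {σ τ τ' : Equiv.Perm I} {l : List I}

theorem mem_pl {d : Pm p W} : d ∈ pl B x l ↔ ∃ i ∈ l, d = (B i, x i) := by
  simp only [pl, List.mem_map, eq_comm]

theorem mem_fam {d : Pm p W} : d ∈ fam B x ↔ ∃ i, d = (B i, x i) := by
  simp [fam, mem_pl]

theorem pl_cons (B : I → Sub p W) (x : I → W) (i : I) (l : List I) :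
    pl B x (i :: l) = (B i, x i) :: pl B x l := by
  rfl

theorem pl_congr (h : ∀ i ∈ l, x i = y i) : pl B x l = pl B y l := by
  exact List.map_congr_left fun i hi => by rw [h i hi]

theorem length_pl (B : I → Sub p W) (x : I → W) (l : List I) : (pl B x l).length = l.length := by
  exact List.length_map _

theorem length_fam (B : I → Sub p W) (x : I → W) : (fam B x).length = Fintype.card I := by
  simp [fam, length_pl]

theorem pl_subset_fam (B : I → Sub p W) (x : I → W) (l : List I) : pl B x l ⊆ fam B x := by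
  intro d hd
  obtain ⟨i, -, h⟩ := mem_pl.1 hd
  exact mem_fam.2 ⟨i, h⟩

theorem sp_fam (B : I → Sub p W) (x : I → W) : sp (fam B x) = span (ZMod p) (Set.range x) := by
  rw [sp]
  congr 1
  ext w
  exact ⟨fun ⟨c, h, e⟩ => by obtain ⟨i, rfl⟩ := mem_fam.1 h; exact ⟨i, e⟩,
    fun ⟨i, e⟩ => ⟨_, mem_fam.2 ⟨i, rfl⟩, e⟩⟩

theorem fam_perm (h : ∀ i, B (σ i) = B i) (x : I → W) :
    fam B (x ∘ σ) ⊆ fam B x ∧ fam B x ⊆ fam B (x ∘ σ) := by
  refine ⟨fun d hd => ?_, fun d hd => ?_⟩ <;> obtain ⟨i, rfl⟩ := mem_fam.1 hd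
  · exact mem_fam.2 ⟨σ i, by rw [h]; rfl⟩
  · exact mem_fam.2 ⟨σ.symm i, by rw [← h (σ.symm i)]; simp⟩

theorem Den.tp_map (G : Den Γ ι) (so : I → ι) (x : I → W) (l : List I) :
    G.tp (l.map fun i => (so i, x i)) = pl (fun i => G.lo (so i)) x l := by
  simp [Den.tp, pl, Function.comp_def]

theorem pl_idx_cons (D : A × I → Sub p W) (T : A × I → W) (a : A) (la : List A) :
    pl D T (idx I (a :: la)) = fam (fun i => D (a, i)) (fun i => T (a, i)) ++ pl D T (idx I la) := by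
  simp [idx, fam, pl, Function.comp_def]

theorem mem_idx {la : List A} {d : A × I} : d ∈ idx I la ↔ d.1 ∈ la := by
  obtain ⟨a, i⟩ := d
  simp [idx]

theorem length_idx (la : List A) : (idx I la).length = la.length * Fintype.card I := by
  simp [idx]

theorem Sys.Ok.pl (h : Γ.Ok n P) (hB : ∀ i, Γ.Def (B i)) (x : I → W) (l : List I) :
    Γ.Ok (l.length + n) (pl B x l ++ P) := by
  refine ⟨?_, fun c hc => ?_⟩
  · have := h.1
    rw [List.length_append, length_pl]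
    omega
  · rcases List.mem_append.1 hc with hc | hc
    · obtain ⟨i, -, rfl⟩ := mem_pl.1 hc
      exact hB i
    · exact h.2 c hc

theorem Sys.Ok.fam (h : Γ.Ok n P) (hB : ∀ i, Γ.Def (B i)) (x : I → W) :
    Γ.Ok (Fintype.card I + n) (fam B x ++ P) := by
  simpa [LS.fam] using h.pl hB x (Finset.univ : Finset I).toList

theorem mv_pl : Mv φ (pl B x l ++ P) (pl B y l ++ P) ↔ Fx φ P ∧ ∀ i ∈ l, φ (x i) - y i ∈ B i := by
  induction l with
  | nil => simpa [pl] using mv_self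
  | cons i l ih =>
    rw [pl_cons, pl_cons, List.cons_append, List.cons_append, mv_cons, ih]
    simp only [List.forall_mem_cons, true_and]
    tauto

theorem Sys.sim_pl : Γ.Sim (pl B x l ++ P) (pl B y l ++ P) ↔
    ∃ φ, Γ.L (sp (pl B x l ++ P)) φ ∧ Fx φ P ∧ ∀ i ∈ l, φ (x i) - y i ∈ B i := by
  simp only [Sys.Sim, mv_pl]

theorem Sys.fs_iff : Γ.FS P B x y ↔ Γ.Sim (fam B x ++ P) (fam B y ++ P) := by
  rw [fam, fam, Sys.sim_pl, ← fam, sp_append, sp_fam, sup_comm]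
  simp [Sys.FS]

theorem Sys.FS.of_sub (Γ : Sys p W) (P : List (Pm p W)) (h : ∀ i, x i - y i ∈ B i) :
    Γ.FS P B x y := by
  exact ⟨1, Γ.one _, fun e _ => by simp, h⟩

theorem Sys.FS.symm (h : Γ.FS P B x y) (hP : Γ.Ok n P) (hB : ∀ i, Γ.Def (B i))
    (hn : 2 * (Fintype.card I + n) ≤ Γ.M) : Γ.FS P B y x := by
  exact Sys.fs_iff.2 ((Sys.fs_iff.1 h).symm (hP.fam hB x) hn)

theorem Sys.FS.trans (h : Γ.FS P B x y) (h' : Γ.FS P B y z') (hP : Γ.Ok n P)
    (hB : ∀ i, Γ.Def (B i)) (hn : 2 * (Fintype.card I + n) ≤ Γ.M) : Γ.FS P B x z' := by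
  exact Sys.fs_iff.2 ((Sys.fs_iff.1 h).trans (Sys.fs_iff.1 h') (hP.fam hB x) hn)

theorem Sys.FS.comp (h : Γ.FS P B x y) (g : J → I) : Γ.FS P (B ∘ g) (x ∘ g) (y ∘ g) := by
  obtain ⟨φ, a, b, c⟩ := h
  exact ⟨φ, Sys.mono a (sup_le_sup_left (span_mono (Set.range_comp_subset_range _ _)) _), b,
    fun j => c (g j)⟩

theorem Sys.FS.mono (h : Γ.FS P' B x y) (hs : P ⊆ P') (hB : ∀ i, B i ≤ B' i) : Γ.FS P B' x y := by
  obtain ⟨φ, a, b, c⟩ := h
  exact ⟨φ, Sys.mono a (sup_le_sup_right (sp_mono hs) _), fun e he => b e (hs he),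
    fun i => hB i (c i)⟩

theorem Sys.FS.right (h : Γ.FS P B x y) (hy : ∀ i, y i - y' i ∈ B i) : Γ.FS P B x y' := by
  obtain ⟨φ, a, b, c⟩ := h
  exact ⟨φ, a, b, fun i => by simpa using add_mem (c i) (hy i)⟩

/-- extension to a further subspace -/
theorem Sys.FS.ext (h : Γ.FS P B x y) (U : Sub p W)
    (hn : Fintype.card I + P.length + finrank (ZMod p) U ≤ Γ.M) :
    ∃ φ, Γ.L (sp P ⊔ span (ZMod p) (Set.range x) ⊔ U) φ ∧ Fx φ P ∧ ∀ i, φ (x i) - y i ∈ B i := by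
  obtain ⟨φ, a, b, c⟩ := h
  have h1 := finrank_sp (fam B x ++ P)
  rw [sp_append, sp_fam, sup_comm, List.length_append, length_fam] at h1
  obtain ⟨ψ, h2, h3⟩ := Sys.extU a U (by omega)
  exact ⟨ψ, h2, fun e he => by rw [h3 _ (mem_sup_left (mem_sp he))]; exact b e he, fun i => by
    rw [h3 _ (mem_sup_right (subset_span ⟨i, rfl⟩))]; exact c i⟩

theorem finrank_range_le (x : I → W) :
    finrank (ZMod p) (span (ZMod p) (Set.range x)) ≤ Fintype.card I := by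
  exact finrank_range_le_card x

end Pool.Agent.P.MP_f1a348_lc.LS
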