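import Pool.Agent.P.MP_f1a348_lc.LS.DefsB
import Pool.Agent.P.MP_f1a348_lc.LS.TSPAN
import Pool.Agent.P.MP_f1a348_lc.LS.TFS

/-! Step AUT0. -/

set_option autoImplicit false
set_option linter.unusedSectionVars false

namespace Pool.Agent.P.MP_f1a348_lc.LS

open Module Submodule

variable {p : ℕ} [Fact p.Prime] {W : Type} [AddCommGroup W] [Module (ZMod p) W] [Fintype W]
  {Γ : Sys p W} {ι : Type} [Fintype ι] {G : Den Γ ι} {P P' Q b : List (Pm p W)} {φ ψ : Iso p W}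
  {A₀ B₀ Λ U V : Sub p W} {a c o o' t w w' x₀ y₀ z μ : W} {n k r R : ℕ} {s u : ι}
  {m m' v v' : List (ι × W)} {A I J : Type} [Fintype I] {B B' : I → Sub p W}
  {e e' x x' y y' z' S : I → W} {so : I → ι} {σ τ τ' : Equiv.Perm I} {l : List I}

-- `W = T ⊕ perp T` (`finrank_perp`); `a = θ` on `T`, `1` on `perp T`; the range of `a - 1` lies in `T`
theorem Sys.exists_glue (Γ : Sys p W) {T : Sub p W} (hT : T ⊓ Γ.perp T = ⊥) (θ : Iso p W)
    (hθ : ∀ t ∈ T, θ t ∈ T) : ∃ a : Iso p W, (∀ t ∈ T, a t = θ t) ∧ (∀ w ∈ Γ.perp T, a w = w) ∧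
      finrank (ZMod p) (LinearMap.range ((a : W →ₗ[ZMod p] W) - LinearMap.id)) ≤
        finrank (ZMod p) T ∧ ∀ w, ∃ t ∈ T, w - t ∈ Γ.perp T := by
  have hc : IsCompl T (Γ.perp T) :=
    (Submodule.isCompl_iff_disjoint T (Γ.perp T) (by have := Γ.finrank_perp T; omega)).2
      (disjoint_iff.2 hT)
  have hd : ∀ w, ∃ t ∈ T, ∃ z ∈ Γ.perp T, t + z = w := fun w =>
    mem_sup.1 (by rw [hc.sup_eq_top]; exact mem_top)
  let f : W →ₗ[ZMod p] W :=
    LinearMap.ofIsCompl hc ((θ : W →ₗ[ZMod p] W).comp T.subtype) (Γ.perp T).subtype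
  have f1 : ∀ t ∈ T, f t = θ t := fun t ht => LinearMap.ofIsCompl_apply_left hc ⟨t, ht⟩
  have f2 : ∀ z ∈ Γ.perp T, f z = z := fun z hz => LinearMap.ofIsCompl_apply_right hc ⟨z, hz⟩
  have hi : Function.Injective f := by
    rw [injective_iff_map_eq_zero]
    intro w hw
    obtain ⟨t, ht, z, hz, rfl⟩ := hd w
    rw [map_add, f1 t ht, f2 z hz] at hw
    have h1 : θ t ∈ T ⊓ Γ.perp T := by
      refine ⟨hθ t ht, ?_⟩
      rw [eq_neg_of_add_eq_zero_left hw]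
      exact neg_mem hz
    rw [hT, mem_bot] at h1
    rw [h1, zero_add] at hw
    rw [hw, add_zero]
    exact θ.injective (h1.trans (map_zero θ).symm)
  refine ⟨LinearEquiv.ofInjectiveEndo f hi, f1, f2, ?_, fun w => ?_⟩
  · refine Submodule.finrank_mono ?_
    rintro _ ⟨w, rfl⟩
    obtain ⟨t, ht, z, hz, rfl⟩ := hd w
    have e : f (t + z) - (t + z) = θ t - t := by
      rw [map_add, f1 t ht, f2 z hz]
      abel
    change f (t + z) - (t + z) ∈ T
    rw [e]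
    exact sub_mem (hθ t ht) ht
  · obtain ⟨t, ht, z, hz, rfl⟩ := hd w
    exact ⟨t, ht, by rwa [add_sub_cancel_left]⟩

end Pool.Agent.P.MP_f1a348_lc.LS
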