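import Pool.Agent.P.MP_f1a348_lc.LS.DefsB
import Pool.Agent.P.MP_f1a348_lc.LS.TAUT0

/-! Step AUT. -/

set_option autoImplicit false
set_option linter.unusedSectionVars false

namespace Pool.Agent.P.MP_f1a348_lc.LS

open Module Submodule

variable {p : ℕ} [Fact p.Prime] {W : Type} [AddCommGroup W] [Module (ZMod p) W] [Fintype W]
  {Γ : Sys p W} {ι : Type} [Fintype ι] {G : Den Γ ι} {P P' Q b : List (Pm p W)} {φ ψ : Iso p W}
  {A₀ B₀ Λ U V : Sub p W} {a c o o' t w w' x₀ y₀ z μ : W} {n k r R : ℕ} {s u : ι}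
  {m m' v v' : List (ι × W)} {A I J : Type} [Fintype I] {B B' : I → Sub p W}
  {e e' x x' y y' z' S : I → W} {so : I → ι} {σ τ τ' : Equiv.Perm I} {l : List I}

-- `T' = span (range (ψ ∘ S))` is nondegenerate (`pres`); `θ = ψ φ₀ ψ⁻¹` with `φ₀` from `hu 0`; for `w' = t' + z'`, `z' ∈ perp T'`, take `z`, `ψ'` from `ext_onto`
-- with `ψ' z = z'`; `z` is orthogonal to `S`; `φ` from `hu z`; `ψ' φ ψ'⁻¹` is local on `T' ⊔ span {z'}` and agrees with `a` on `span {w'}`; `loc`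
theorem Sys.aut_of_uni (hT : span (ZMod p) (Set.range S) ⊓ Γ.perp (span (ZMod p) (Set.range S)) = ⊥)
    (hu : ∀ w, (∀ i, Γ.β (S i) w = 0) → Γ.Tw [] S σ ⊥ w w) (hn : Fintype.card I < Γ.M)
    (hψ : Γ.L (span (ZMod p) (Set.range S)) ψ) : ∃ a : Iso p W, Γ.Aut a ∧
      finrank (ZMod p) (LinearMap.range ((a : W →ₗ[ZMod p] W) - LinearMap.id)) ≤
        Fintype.card I ∧ ∀ i, a (ψ (S i)) = ψ (S (σ i)) := by
  set T : Sub p W := span (ZMod p) (Set.range S) with hTd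
  have hS : ∀ i, S i ∈ T := fun i => subset_span ⟨i, rfl⟩
  obtain ⟨φ₀, -, -, h0, -⟩ := hu 0 fun i => map_zero _
  have hφ₀ : ∀ t ∈ T, φ₀ t ∈ T := by
    intro t ht
    induction ht using span_induction with
    | mem x hx =>
      obtain ⟨i, rfl⟩ := hx
      rw [h0]
      exact hS _
    | zero => rw [map_zero]; exact zero_mem _
    | add x y _ _ hx hy => rw [map_add]; exact add_mem hx hy
    | smul c x _ hx => rw [map_smul]; exact smul_mem _ _ hx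
  have hag : ∀ φ : Iso p W, (∀ i, φ (S i) = S (σ i)) → ∀ t ∈ T, φ t = φ₀ t := by
    intro φ hφ t ht
    induction ht using span_induction with
    | mem x hx =>
      obtain ⟨i, rfl⟩ := hx
      rw [h0, hφ]
    | zero => rw [map_zero, map_zero]
    | add x y _ _ hx hy => rw [map_add, map_add, hx, hy]
    | smul c x _ hx => rw [map_smul, map_smul, hx]
  have hT' : T.map (ψ : W →ₗ[ZMod p] W) ⊓ Γ.perp (T.map (ψ : W →ₗ[ZMod p] W)) = ⊥ := by
    rw [eq_bot_iff]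
    rintro _ ⟨⟨t, ht, rfl⟩, h2⟩
    have h3 : t ∈ T ⊓ Γ.perp T := ⟨ht, fun u hu' =>
      (Γ.pres hψ hu' ht).symm.trans (h2 (ψ u) ⟨u, hu', rfl⟩)⟩
    rw [hT, mem_bot] at h3
    rw [h3, map_zero]
    exact zero_mem _
  have hθ : ∀ t, (ψ * φ₀ * ψ⁻¹) (ψ t) = ψ (φ₀ t) := fun t => by
    change ψ (φ₀ (ψ.symm (ψ t))) = _
    rw [ψ.symm_apply_apply]
  obtain ⟨a, a1, a2, a3, a4⟩ := Γ.exists_glue hT' (ψ * φ₀ * ψ⁻¹) (by
    rintro _ ⟨t, ht, rfl⟩
    exact ⟨φ₀ t, hφ₀ t ht, (hθ t).symm⟩)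
  have hdim : finrank (ZMod p) T ≤ Fintype.card I := finrank_range_le_card S
  refine ⟨a, fun w' => ?_, a3.trans (by rwa [LinearEquiv.finrank_map_eq]), fun i => ?_⟩
  · obtain ⟨_, ⟨t, ht, rfl⟩, hz'⟩ := a4 w'
    obtain ⟨z, ψ', l1, l2, l3⟩ := Sys.ext_onto hψ (hdim.trans_lt hn) (w' - ψ t)
    have hzU : z ∈ T ⊔ span (ZMod p) {z} := mem_sup_right (mem_span_singleton_self z)
    obtain ⟨φ, m1, -, m2, m3⟩ := hu z fun i => by
      rw [← Γ.pres l1 (mem_sup_left (hS i)) hzU, l2 _ (hS i), l3]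
      exact hz' _ ⟨S i, hS i, rfl⟩
    rw [mem_bot, sub_eq_zero] at m3
    have m4 : Γ.L (T ⊔ span (ZMod p) {z}) φ :=
      Γ.loc m1 (sup_le_sup_right le_sup_right _) fun _ _ => rfl
    have m5 : Γ.L (T ⊔ span (ZMod p) {z}) (ψ' * φ) := by
      refine Γ.mul m4 l1 fun x hx => ?_
      obtain ⟨y, hy, _, hz, rfl⟩ := mem_sup.1 hx
      obtain ⟨c, rfl⟩ := mem_span_singleton.1 hz
      rw [map_add, map_smul, m3, hag φ m2 y hy]
      exact add_mem (mem_sup_left (hφ₀ y hy)) (smul_mem _ _ hzU)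
    have e1 : ψ'⁻¹ w' = t + z := by
      refine ψ'.symm_apply_eq.2 ?_
      rw [map_add, l2 t ht, l3, add_sub_cancel]
    have m6 : ∀ x ∈ span (ZMod p) {w'}, ψ'⁻¹ x ∈ T ⊔ span (ZMod p) {z} := by
      intro x hx
      obtain ⟨c, rfl⟩ := mem_span_singleton.1 hx
      rw [map_smul, e1]
      exact smul_mem _ _ (add_mem (mem_sup_left ht) hzU)
    refine Γ.loc (Γ.mul (Γ.inv l1 m6) m5 m6) le_rfl fun x hx => ?_
    obtain ⟨c, rfl⟩ := mem_span_singleton.1 hx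
    rw [map_smul, map_smul]
    congr 1
    change a w' = ψ' (φ (ψ'⁻¹ w'))
    rw [e1, map_add, map_add, m3, l3, hag φ m2 t ht, l2 _ (hφ₀ t ht), ← hθ,
      ← a1 (ψ t) ⟨t, ht, rfl⟩, ← a2 (w' - ψ t) hz', ← map_add, add_sub_cancel]
  · rw [a1 (ψ (S i)) ⟨S i, hS i, rfl⟩]
    exact (hθ _).trans (by rw [h0])

end Pool.Agent.P.MP_f1a348_lc.LS
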