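import Pool.Agent.P.MP_f1a348_lc.LS.DefsB
import Pool.Agent.P.MP_f1a348_lc.LS.TSTAR

/-! Step BAS. -/

set_option autoImplicit false
set_option linter.unusedSectionVars false

namespace Pool.Agent.P.MP_f1a348_lc.LS

open Module Submodule

variable {p : ℕ} [Fact p.Prime] {W : Type} [AddCommGroup W] [Module (ZMod p) W] [Fintype W]
  {Γ : Sys p W} {ι : Type} [Fintype ι] {P P' Q b : List (Pm p W)} {φ ψ : Iso p W}
  {A B U V : Sub p W} {o o' t w x x' y y' z μ : W} {n k r R : ℕ} {s u : ι}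
  {m m' v : List (ι × W)} {I J : Type}

namespace BASx

theorem compl_basis (A X : Sub p W) (h : A ≤ X) :
    ∃ (d : ℕ) (f : Fin d → W), finrank (ZMod p) A + d = finrank (ZMod p) X ∧ (∀ i, f i ∈ X) ∧
      X ≤ A ⊔ span (ZMod p) (Set.range f) ∧
      ∀ c : Fin d → ZMod p, ∑ i, c i • f i ∈ A → ∀ i, c i = 0 := by
  obtain ⟨A', hA'⟩ := Submodule.exists_isCompl A
  have hsup : A ⊔ A' ⊓ X = X := by
    rw [← sup_inf_assoc_of_le A' h, hA'.sup_eq_top, top_inf_eq]
  have hinf : A ⊓ (A' ⊓ X) = ⊥ := by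
    rw [← inf_assoc, hA'.inf_eq_bot, bot_inf_eq]
  set C : Sub p W := A' ⊓ X with hC
  let bs := Module.finBasis (ZMod p) C
  refine ⟨finrank (ZMod p) C, fun i => (bs i : W), ?_, fun i => (bs i).2.2, ?_, ?_⟩
  · have := Submodule.finrank_sup_add_finrank_inf_eq A C
    rw [hsup, hinf, finrank_bot, add_zero] at this
    exact this.symm
  · have hle : C ≤ span (ZMod p) (Set.range fun i => (bs i : W)) := by
      intro x hx
      have hx' : (x : W) = ∑ i, bs.repr ⟨x, hx⟩ i • (bs i : W) := by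
        have := congrArg (Subtype.val : C → W) (bs.sum_repr ⟨x, hx⟩)
        rw [Submodule.coe_sum] at this
        exact this.symm
      rw [hx']
      exact Submodule.sum_mem _ fun i _ => Submodule.smul_mem _ _ (subset_span ⟨i, rfl⟩)
    calc X = A ⊔ C := hsup.symm
      _ ≤ _ := sup_le_sup_left hle A
  · intro c hc
    have hmem : (∑ i, c i • (bs i : W)) ∈ C :=
      Submodule.sum_mem _ fun i _ => Submodule.smul_mem _ _ (bs i).2
    have h0 : (∑ i, c i • (bs i : W)) = 0 := by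
      have : (∑ i, c i • (bs i : W)) ∈ A ⊓ C := ⟨hc, hmem⟩
      rwa [hinf, Submodule.mem_bot] at this
    have h1 : ∑ i, c i • bs i = 0 := by
      apply Subtype.ext
      simpa using h0
    exact Fintype.linearIndependent_iff.mp bs.linearIndependent c h1

end BASx

-- for each sort lift a basis of `(X s).map (lo s).mkQ`; index by `Σ s, Fin (d s)` and `Fintype.equivFin`; field `dim`
theorem Den.bas (G : Den Γ ι) (hP : Γ.Ok G.j P) (X : ι → Sub p W)
    (hX : ∀ s, G.lo s ≤ X s ∧ X s ≤ G.Lam s P) :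
    ∃ (n : ℕ) (so : Fin n → ι) (e : Fin n → W), n ≤ Fintype.card ι * G.K * P.length ∧
      (∀ i, e i ∈ X (so i)) ∧ (∀ s, X s ≤ G.lo s ⊔ Den.spn so e s) ∧ G.Indep so e := by
  classical
  choose d f hd hf hsp hind using fun s => BASx.compl_basis (G.lo s) (X s) (hX s).1
  have hdle : ∀ s, d s ≤ G.K * P.length := by
    intro s
    have h1 := hd s
    have h2 : finrank (ZMod p) (X s) ≤ finrank (ZMod p) (G.Lam s P) := Submodule.finrank_mono (hX s).2
    have h3 := G.dim s P hP
    omega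
  let e := Fintype.equivFin (Σ s, Fin (d s))
  refine ⟨Fintype.card (Σ s, Fin (d s)), fun i => (e.symm i).1,
    fun i => f (e.symm i).1 (e.symm i).2, ?_, fun i => hf _ _, ?_, ?_⟩
  · rw [Fintype.card_sigma, mul_assoc]
    calc ∑ s, Fintype.card (Fin (d s)) ≤ ∑ _s : ι, G.K * P.length :=
          Finset.sum_le_sum fun s _ => by simpa using hdle s
      _ = _ := by simp
  · intro s
    refine (hsp s).trans (sup_le_sup_left (span_mono ?_) _)
    rintro _ ⟨i, rfl⟩
    refine ⟨e ⟨s, i⟩, ?_, ?_⟩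
    · simp
    · have : e.symm (e ⟨s, i⟩) = ⟨s, i⟩ := e.symm_apply_apply _
      show f (e.symm (e ⟨s, i⟩)).1 (e.symm (e ⟨s, i⟩)).2 = f s i
      rw [this]
  · intro s c hc hmem i
    by_cases hi : (e.symm i).1 = s
    · have hsum : ∑ i, c i • f (e.symm i).1 (e.symm i).2 = ∑ k : Fin (d s), c (e ⟨s, k⟩) • f s k := by
        rw [← e.sum_comp, Fintype.sum_sigma]
        rw [Finset.sum_eq_single s]
        · refine Finset.sum_congr rfl fun k _ => ?_
          have : e.symm (e ⟨s, k⟩) = ⟨s, k⟩ := e.symm_apply_apply _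
          rw [this]
        · intro t _ hts
          refine Finset.sum_eq_zero fun k _ => ?_
          rw [hc (e ⟨t, k⟩) (by simpa using hts), zero_smul]
        · intro h; exact absurd (Finset.mem_univ s) h
      rw [hsum] at hmem
      have h0 := hind s (fun k => c (e ⟨s, k⟩)) hmem
      obtain ⟨⟨t, k⟩, rfl⟩ := e.surjective i
      have hts : t = s := by simpa using hi
      subst hts
      exact h0 k
    · exact hc i hi

/-- the list form -/
theorem Den.basL (G : Den Γ ι) (hP : Γ.Ok G.j P) (X : ι → Sub p W)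
    (hX : ∀ s, G.lo s ≤ X s ∧ X s ≤ G.Lam s P) :
    ∃ m : List (ι × W), m.length ≤ Fintype.card ι * G.K * P.length ∧ (∀ e ∈ m, e.2 ∈ X e.1) ∧
      ∀ s, X s ≤ G.lo s ⊔ span (ZMod p) {x | (s, x) ∈ m} := by
  classical
  obtain ⟨n, so, e, hn, he, hsp, -⟩ := G.bas hP X hX
  refine ⟨List.ofFn fun i => (so i, e i), by simpa using hn, ?_, ?_⟩
  · intro x hx
    obtain ⟨i, rfl⟩ := List.mem_ofFn.mp hx
    exact he i
  · intro s
    refine (hsp s).trans (sup_le_sup_left (span_mono ?_) _)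
    rintro _ ⟨i, hi, rfl⟩
    have hi' : so i = s := hi
    show (s, e i) ∈ List.ofFn fun i => (so i, e i)
    exact List.mem_ofFn.mpr ⟨i, by rw [hi']⟩

end Pool.Agent.P.MP_f1a348_lc.LS
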