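import Pool.Agent.P.MP_f1a348_lc.LS.Base
import Pool.Agent.P.MP_f1a348_lc.LS.TEXCH
import Pool.Agent.P.MP_f1a348_lc.LS.TEQV

/-! Step KAP. -/

set_option autoImplicit false
set_option linter.unusedSectionVars false

namespace Pool.Agent.P.MP_f1a348_lc.LS

open Module Submodule

variable {p : ℕ} [Fact p.Prime] {W : Type} [AddCommGroup W] [Module (ZMod p) W] [Fintype W]
  {Γ : Sys p W} {ι : Type} [Fintype ι] {P P' P'' R R' b : List (Pm p W)} {φ ψ : Iso p W}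
  {A B B' D T U U' V : Sub p W} {S X Y : Set W} {a a' c v w x x' y y' z μ : W} {n m r : ℕ}
  {s t : ι} {l l' : List W}

theorem Geo.tot_mono (G : Geo Γ ι) (hP : Γ.Ok G.j P) (hP' : Γ.Ok G.j P') (h : P ⊆ P') :
    G.tot P ≤ G.tot P' := by
  unfold Geo.tot
  exact Finset.sum_le_sum fun t _ => Submodule.finrank_mono (G.mono hP hP' h t)

namespace KAPx

theorem bdd (G : Geo Γ ι) (s : ι) (P : List (Pm p W)) :
    BddAbove {n | ∃ a ∈ G.cand s, a ∉ G.Lam s P ∧ n = G.tot ((G.lo s, a) :: P)} := by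
  refine ⟨∑ _t : ι, finrank (ZMod p) W, ?_⟩
  rintro n ⟨a, -, -, rfl⟩
  unfold Geo.tot
  exact Finset.sum_le_sum fun t _ => Submodule.finrank_le _

theorem le_top (G : Geo Γ ι) (ha : a ∈ G.cand s) (ha' : a ∉ G.Lam s P) :
    G.tot ((G.lo s, a) :: P) ≤ G.top s P :=
  le_csSup (bdd G s P) ⟨a, ha, ha', rfl⟩

end KAPx

theorem Geo.inc_le (G : Geo Γ ι) (hP : Γ.Ok n P) (hn : n + 1 ≤ G.j) (ha : a ∈ G.cand s)
    (ha' : a ∉ G.Lam s P) : G.tot ((G.lo s, a) :: P) ≤ G.tot P + G.kap s P := by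
  have h := KAPx.le_top G ha ha'
  unfold Geo.kap
  omega

theorem Geo.exists_tight (G : Geo Γ ι) (hP : Γ.Ok n P) (hn : n + 1 ≤ G.j) (s : ι) :
    ∃ a, G.Tight s P a := by
  have hPj : Γ.Ok G.j P := hP.mono (by omega)
  obtain ⟨a0, h0, h0'⟩ := G.exists_cand hPj s
  have hne : {n | ∃ a ∈ G.cand s, a ∉ G.Lam s P ∧ n = G.tot ((G.lo s, a) :: P)}.Nonempty :=
    ⟨_, a0, h0, h0', rfl⟩
  obtain ⟨a, ha, ha', he⟩ := Nat.sSup_mem hne (KAPx.bdd G s P)
  refine ⟨a, ha, ha', ?_⟩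
  have hm : G.tot P ≤ G.tot ((G.lo s, a) :: P) :=
    G.tot_mono hPj ((hP.cons (G.dlo s) a).mono hn) (List.subset_cons_self _ _)
  have ht : G.top s P = G.tot ((G.lo s, a) :: P) := he
  unfold Geo.kap
  omega

theorem Geo.Tight.conj {G : Geo Γ ι} (h : G.Tight s P a) (hP : Γ.Ok n P) (hn : n + 1 ≤ G.j)
    (h' : a' ∈ Γ.cls P (G.lo s) a) : G.Tight s P a' := by
  have hPj : Γ.Ok G.j P := hP.mono (by omega)
  obtain ⟨h1, h2, h3⟩ := h
  refine ⟨G.cls_cand P h1 h', G.not_mem_Lam_cls hPj h2 h', ?_⟩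
  have hs : Γ.Sim ((G.lo s, a) :: P) ((G.lo s, a') :: P) := h'
  rw [← G.tot_sim hs ((hP.cons (G.dlo s) a).mono hn), h3]

-- `super`, `mono` and `finrank_sup_add_finrank_inf_eq`
theorem Geo.inc_mono (G : Geo Γ ι) (hP' : Γ.Ok n P') (hn : n + 1 ≤ G.j) (hP : P.length ≤ n)
    (hs : P ⊆ P') (ha : a ∈ G.cand s) (ha' : a ∉ G.Lam s P') (t : ι) :
    finrank (ZMod p) (G.Lam t P' ⊔ G.Lam t ((G.lo s, a) :: P) : Sub p W) +
        finrank (ZMod p) (G.Lam t P) =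
      finrank (ZMod p) (G.Lam t P') + finrank (ZMod p) (G.Lam t ((G.lo s, a) :: P)) ∧
    G.Lam t P' ⊔ G.Lam t ((G.lo s, a) :: P) ≤ G.Lam t ((G.lo s, a) :: P') := by
  have hPn : Γ.Ok n P := hP'.of_subset hs hP
  have h1 : Γ.Ok G.j ((G.lo s, a) :: P) := (hPn.cons (G.dlo s) a).mono hn
  have h2 : Γ.Ok G.j ((G.lo s, a) :: P') := (hP'.cons (G.dlo s) a).mono hn
  have h3 : Γ.Ok G.j P' := hP'.mono (by omega)
  constructor
  · have hsu := G.super hP' hn hP hs ha ha' t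
    have := Submodule.finrank_sup_add_finrank_inf_eq (G.Lam t P') (G.Lam t ((G.lo s, a) :: P))
    rw [inf_comm, hsu] at this
    exact this
  · exact sup_le (G.mono h3 h2 (List.subset_cons_self _ _) t)
      (G.mono h1 h2 (List.cons_subset_cons _ hs) t)

-- conjugate a tight point out of `Lam s P'` (`out`, `Tight.conj`), then `inc_mono`, `inc_le`
theorem Geo.kap_mono (G : Geo Γ ι) (hP' : Γ.Ok n P') (hn : n + 1 ≤ G.j) (hP : P.length ≤ n)
    (hs : P ⊆ P') (s : ι) : G.kap s P ≤ G.kap s P' := by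
  have hPn : Γ.Ok n P := hP'.of_subset hs hP
  have hPj : Γ.Ok G.j P := hPn.mono (by omega)
  have h3 : Γ.Ok G.j P' := hP'.mono (by omega)
  obtain ⟨a, ha⟩ := G.exists_tight hPn hn s
  obtain ⟨y, hy, hy'⟩ := G.out hPj h3 (G.cand_hi s ha.1) ha.2.1
  have ht : G.Tight s P y := ha.conj hPn hn hy
  have hle := G.inc_le hP' hn ht.1 hy'
  have hsum : G.tot P' + G.tot ((G.lo s, y) :: P) ≤ G.tot ((G.lo s, y) :: P') + G.tot P := by
    unfold Geo.tot
    rw [← Finset.sum_add_distrib, ← Finset.sum_add_distrib]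
    refine Finset.sum_le_sum fun t _ => ?_
    obtain ⟨e1, e2⟩ := G.inc_mono hP' hn hP hs ht.1 hy' t
    have := Submodule.finrank_mono e2
    omega
  have := ht.2.2
  omega

end Pool.Agent.P.MP_f1a348_lc.LS
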