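import Pool.Agent.P.MP_f1a348_lc.LS.Base
import Pool.Agent.P.MP_f1a348_lc.LS.TKAP

/-! Step LIN. -/

set_option autoImplicit false
set_option linter.unusedSectionVars false

namespace Pool.Agent.P.MP_f1a348_lc.LS

open Module Submodule

variable {p : ℕ} [Fact p.Prime] {W : Type} [AddCommGroup W] [Module (ZMod p) W] [Fintype W]
  {Γ : Sys p W} {ι : Type} [Fintype ι] {P P' P'' R R' b : List (Pm p W)} {φ ψ : Iso p W}
  {A B B' D T U U' V : Sub p W} {S X Y : Set W} {a a' c v w x x' y y' z μ : W} {n m r : ℕ}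
  {s t : ι} {l l' : List W}

theorem Geo.Stable.mono {G : Geo Γ ι} (h : G.Stable b r) (hP : Γ.Ok r P) (hs : b ⊆ P) :
    G.Stable P r := by
  intro P' h1 h2 s
  rw [h P' h1 (List.Subset.trans hs h2) s, h P hP hs s]

theorem Geo.Stable.le {G : Geo Γ ι} (h : G.Stable b r) (hm : m ≤ r) : G.Stable b m := by
  exact fun P h1 h2 s => h P (h1.mono hm) h2 s

-- sum `inc_mono` over the sorts; `inc_le` and stability force equality in every sort
theorem Geo.lin (G : Geo Γ ι) (hb : G.Stable b r) (hr : r + 1 ≤ G.j) (hP : Γ.Ok r P)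
    (hl : b.length ≤ r) (hs : b ⊆ P) (ha : G.Tight s b a) (ha' : a ∉ G.Lam s P) :
    G.Tight s P a ∧ ∀ t, G.Lam t ((G.lo s, a) :: P) = G.Lam t P ⊔ G.Lam t ((G.lo s, a) :: b) := by
  have h1 := fun t => G.inc_mono hP hr hl hs ha.1 ha' t
  have h2 := G.inc_le hP hr ha.1 ha'
  have h3 := hb P hP hs s
  have h4 := ha.2.2
  have h5 : ∑ t, finrank (ZMod p) (G.Lam t P ⊔ G.Lam t ((G.lo s, a) :: b) : Sub p W) + G.tot b =
      G.tot P + G.tot ((G.lo s, a) :: b) := by
    unfold Geo.tot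
    rw [← Finset.sum_add_distrib, ← Finset.sum_add_distrib]
    exact Finset.sum_congr rfl fun t _ => (h1 t).1
  have h6 : ∀ t ∈ Finset.univ,
      finrank (ZMod p) (G.Lam t P ⊔ G.Lam t ((G.lo s, a) :: b) : Sub p W) ≤
        finrank (ZMod p) (G.Lam t ((G.lo s, a) :: P)) := fun t _ => Submodule.finrank_mono (h1 t).2
  have h7 : ∑ t, finrank (ZMod p) (G.Lam t P ⊔ G.Lam t ((G.lo s, a) :: b) : Sub p W) ≤
      G.tot ((G.lo s, a) :: P) := Finset.sum_le_sum h6
  have h8 : ∑ t, finrank (ZMod p) (G.Lam t P ⊔ G.Lam t ((G.lo s, a) :: b) : Sub p W) =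
      G.tot ((G.lo s, a) :: P) := by omega
  refine ⟨⟨ha.1, ha', by omega⟩, fun t => ?_⟩
  exact (Submodule.eq_of_le_of_finrank_eq (h1 t).2
    ((Finset.sum_eq_sum_iff_of_le h6).1 h8 t (Finset.mem_univ t))).symm

theorem Geo.linL (G : Geo Γ ι) (hb : G.Stable b r) (hr : r + 1 ≤ G.j) (hP : Γ.Ok n P)
    (hn : n + l.length ≤ r) (hl : b.length ≤ r) (hs : b ⊆ P) (ha : ∀ a ∈ l, G.Tight s b a)
    (hi : G.Ind s P l) (t : ι) :
    G.Lam t (pins (G.lo s) l ++ P) = G.Lam t P ⊔ ⨆ a ∈ l, G.Lam t ((G.lo s, a) :: b) := by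
  induction l with
  | nil => simp [pins]
  | cons a l ih =>
    rw [List.length_cons] at hn
    have h1 := (G.lin hb hr ((hP.pins (G.dlo s) l).mono (by omega)) hl
      (List.Subset.trans hs (List.subset_append_right _ _)) (ha a List.mem_cons_self) hi.1).2 t
    rw [pins_cons, List.cons_append, h1,
      ih (by omega) (fun x hx => ha x (List.mem_cons_of_mem _ hx)) hi.2]
    simp only [List.mem_cons, iSup_or, iSup_sup_eq, iSup_iSup_eq_left]
    rw [sup_assoc, sup_comm (G.Lam t ((G.lo s, a) :: b))]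

end Pool.Agent.P.MP_f1a348_lc.LS
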