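import Pool.Agent.P.MP_f1a348_lc.LS.DefsF
import Pool.Agent.P.MP_f1a348_lc.LS.TLIN
import Pool.Agent.P.MP_f1a348_lc.LS.TSUB

/-! Step TUP. -/

set_option autoImplicit false
set_option linter.unusedSectionVars false

namespace Pool.Agent.P.MP_f1a348_lc.LS

open Module Submodule

variable {p : ℕ} [Fact p.Prime] {W : Type} [AddCommGroup W] [Module (ZMod p) W] [Fintype W]
  {Γ : Sys p W} {ι : Type} [Fintype ι] {P P' b b' : List (Pm p W)} {φ ψ : Iso p W}
  {B H T U V Λ : Sub p W} {E X Y Z : Set W} {a a' c o t w x x' y y' z μ μ₀ ξ : W}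
  {n k r R : ℕ} {s u : ι} {m : List (ι × W)} {δ q : ℝ}

-- `le_of_mem` gives `tot (a :: P) ≤ tot (z :: P)`; `inc_le`
theorem Den.tight_up (G : Den Γ ι) (hP : Γ.Ok n P) (hn : n + 2 ≤ G.j) (ha : G.Tight s P a)
    (hz : z ∈ G.hi s) (hz' : z ∉ G.Lam s P) (h : a ∈ G.Lam s ((G.lo s, z) :: P)) : G.Tight s P z := by
  have hc : z ∈ G.cand s := G.cand_eq s ▸ hz
  have h1 : G.tot ((G.lo s, a) :: P) ≤ G.tot ((G.lo s, z) :: P) :=
    Finset.sum_le_sum fun t _ => finrank_mono (G.le_of_mem (hP.cons (G.dlo s) z) hn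
      (hP.1.trans (Nat.le_succ n)) (List.subset_cons_self _ _) h t)
  exact ⟨hc, hz', le_antisymm (G.inc_le hP (by omega) hc hz') (ha.2.2 ▸ h1)⟩

-- `z = a + a'`. If `a ∈ Lam s (a' :: b)`: `exchD` gives `a' ∈ Lam s (z :: b)`, `tight_up`. Otherwise `a' ∉ Lam s (z :: b)` (`exchD`); `lin` twice:
-- `tot (a :: a' :: b) = tot b + 2 kap`, `tot (a' :: z :: b) = tot (z :: b) + kap` (field `kap`), and `le_of_mem` compares the two; `inc_le`
theorem Den.St.tight_add {G : Den Γ ι} (h : G.St b r) (ha : G.Tight s b a) (ha' : G.Tight s b a')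
    (hz : a + a' ∉ G.Lam s b) : G.Tight s b (a + a') := by
  have l1 := h.len
  have l2 := h.hr
  have ok := h.ok
  have ok1 : ∀ x, Γ.Ok (b.length + 1) ((G.lo s, x) :: b) := ok.cons (G.dlo s)
  have ok2 := (ok1 (a + a')).cons (G.dlo s) a'
  have m' := G.cand_hi s ha'.1
  have mz : a + a' ∈ G.hi s := add_mem (G.cand_hi s ha.1) m'
  have pin : ∀ x, x ∈ G.hi s → x ∈ G.Lam s ((G.lo s, x) :: b) := fun x hx =>
    G.mem_Lam_pin ((ok1 x).mono (by omega)) List.mem_cons_self hx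
  by_cases c : a ∈ G.Lam s ((G.lo s, a') :: b)
  · exact G.tight_up ok (by omega) ha' mz hz
      (G.exchD ok (by omega) m' (add_mem c (pin a' m')) hz)
  have c' : a' ∉ G.Lam s ((G.lo s, a + a') :: b) := fun k => c (by
    simpa using sub_mem (G.exchD ok (by omega) mz k ha'.2.1) (pin a' m'))
  have sb : ∀ x, b ⊆ (G.lo s, x) :: b := fun x => List.subset_cons_self _ _
  have e1 := (G.lin h.kap (by omega) ((ok1 a').mono (by omega)) (by omega) (sb _) ha c).1.2.2
  have e2 := (G.lin h.kap (by omega) ((ok1 _).mono (by omega)) (by omega) (sb _) ha' c').1.2.2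
  rw [h.kap _ ((ok1 _).mono (by omega)) (sb _)] at e1 e2
  have e3 := ha'.2.2
  have hc : a + a' ∈ G.cand s := G.cand_eq s ▸ mz
  have e4 := G.inc_le ok (by omega) hc hz
  have e5 : a ∈ G.Lam s ((G.lo s, a') :: (G.lo s, a + a') :: b) := by
    simpa using sub_mem
      (G.mem_Lam_pin (ok2.mono (by omega)) (List.mem_cons_of_mem _ List.mem_cons_self) mz)
      (G.mem_Lam_pin (ok2.mono (by omega)) List.mem_cons_self m')
  have e6 : G.tot ((G.lo s, a) :: (G.lo s, a') :: b) ≤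
      G.tot ((G.lo s, a') :: (G.lo s, a + a') :: b) :=
    Finset.sum_le_sum fun t _ => finrank_mono (G.le_of_mem ok2 (by omega)
      (by simp) (List.cons_subset_cons _ (sb _)) e5 t)
  exact ⟨hc, hz, by omega⟩

end Pool.Agent.P.MP_f1a348_lc.LS
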