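import Pool.Agent.P.MP_f1a348_lc.LS.DefsF
import Pool.Agent.P.MP_f1a348_lc.LS.TTUP

/-! Step TIGHT. -/

set_option autoImplicit false
set_option linter.unusedSectionVars false

namespace Pool.Agent.P.MP_f1a348_lc.LS

open Module Submodule

variable {p : ℕ} [Fact p.Prime] {W : Type} [AddCommGroup W] [Module (ZMod p) W] [Fintype W]
  {Γ : Sys p W} {ι : Type} [Fintype ι] {P P' b b' : List (Pm p W)} {φ ψ : Iso p W}
  {B H T U V Λ : Sub p W} {E X Y Z : Set W} {a a' c o t w x x' y y' z μ μ₀ ξ : W}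
  {n k r R : ℕ} {s u : ι} {m : List (ι × W)} {δ q : ℝ}

-- the points of `hi s` that are tight or in `Lam s b` form a subspace (`tight_add`, `tight_up`), invariant over `b` (`Tight.conj`, `cls_coarse`,
-- field `inv`), with a point outside `Lam s b` (`exists_tight`); `sub`
theorem Den.St.tight {G : Den Γ ι} (h : G.St b r) (ha : a ∈ G.Ann s b) (ha' : a ∉ G.Lam s b) :
    G.Tight s b a := by
  have h1 := h.len
  have h2 := h.hr
  have hb : Γ.Ok G.j b := h.ok.mono (by omega)
  have hhi : ∀ x, G.Tight s b x → x ∈ G.hi s := fun x hx => G.cand_hi s hx.1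
  have up : ∀ x z, G.Tight s b x → z ∈ G.hi s → z ∉ G.Lam s b →
      (∀ V : Sub p W, G.Lam s b ≤ V → z ∈ V → x ∈ V) → G.Tight s b z := fun x z hx hz hz' H => by
    have hc : Γ.Ok G.j ((G.lo s, z) :: b) := (h.ok.cons (G.dlo s) z).mono (by omega)
    exact G.tight_up h.ok (by omega) hx hz hz' (H _
      (G.mono hb hc (List.subset_cons_self _ _) s) (G.mem_Lam_pin hc List.mem_cons_self hz))
  let U : Sub p W :=
    { carrier := {x | x ∈ G.Lam s b ∨ G.Tight s b x}
      zero_mem' := .inl (zero_mem _)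
      add_mem' := by
        intro x y hx hy
        by_cases hz : x + y ∈ G.Lam s b
        · exact .inl hz
        refine .inr ?_
        rcases hx with hx | hx <;> rcases hy with hy | hy
        · exact absurd (add_mem hx hy) hz
        · exact up y _ hy (add_mem (G.le_hi s b hb hx) (hhi y hy)) hz fun V a1 a2 =>
            (Submodule.add_mem_iff_right V (a1 hx)).1 a2
        · exact up x _ hx (add_mem (hhi x hx) (G.le_hi s b hb hy)) hz fun V a1 a2 =>
            (Submodule.add_mem_iff_left V (a1 hy)).1 a2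
        · exact h.tight_add hx hy hz
      smul_mem' := by
        intro c x hx
        by_cases hz : c • x ∈ G.Lam s b
        · exact .inl hz
        refine .inr ?_
        have hc : c ≠ 0 := fun hc => hz (by rw [hc, zero_smul]; exact zero_mem _)
        rcases hx with hx | hx
        · exact absurd (smul_mem _ c hx) hz
        · exact up x _ hx (smul_mem _ c (hhi x hx)) hz fun V _ a2 => (smul_mem_iff V hc).1 a2 }
  have hU : Γ.Inv b U := by
    rintro x (hx | hx) y hy
    · exact .inl (G.inv s b hb x hx hy)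
    · exact .inr (hx.conj h.ok (by omega) (Sys.cls_coarse bot_le b x hy))
  obtain ⟨x, hx⟩ := G.exists_tight h.ok (by omega) s
  have h3 : G.Ann s b ≤ U := G.sub hb hU (fun y hy => .inl (G.lo_le s b hb hy))
    (fun y hy => hy.elim (fun a1 => G.le_hi s b hb a1) (hhi y)) (x := x) (.inr hx) hx.2.1
  exact (h3 ha).resolve_left ha'

-- if `a ∈ Lam s P`: `idem`, `le_of_mem`. Otherwise `tight`, `lin`, `mono`
theorem Den.St.lin {G : Den Γ ι} (h : G.St b r) (hP : Γ.Ok r P) (hP' : P'.length ≤ r)
    (h1 : b ⊆ P') (h2 : P' ⊆ P) (ha : a ∈ G.Ann s b) (u : ι) :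
    G.Lam u ((G.lo s, a) :: P) = G.Lam u P ⊔ G.Lam u ((G.lo s, a) :: P') := by
  have h3 := h.len
  have h4 := h.hr
  by_cases h5 : a ∈ G.Lam s P
  · rw [G.idem hP (by omega) h5 u, sup_eq_left.2 (G.le_of_mem hP (by omega) hP' h2 h5 u)]
  have hb : Γ.Ok G.j b := h.ok.mono (by omega)
  have hPj : Γ.Ok G.j P := hP.mono (by omega)
  have c1 : Γ.Ok G.j ((G.lo s, a) :: b) := (h.ok.cons (G.dlo s) a).mono (by omega)
  have c2 : Γ.Ok G.j ((G.lo s, a) :: P') :=
    ((hP.of_subset h2 hP').cons (G.dlo s) a).mono (by omega)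
  have c3 : Γ.Ok G.j ((G.lo s, a) :: P) := (hP.cons (G.dlo s) a).mono (by omega)
  have h6 := h.tight ha fun h6 => h5 (G.mono hb hPj (List.Subset.trans h1 h2) s h6)
  refine le_antisymm ?_ (sup_le (G.mono hPj c3 (List.subset_cons_self _ _) u)
    (G.mono c2 c3 (List.cons_subset_cons _ h2) u))
  rw [(G.lin h.kap (by omega) hP (by omega) (List.Subset.trans h1 h2) h6 h5).2 u]
  exact sup_le_sup_left (G.mono c1 c2 (List.cons_subset_cons _ h1) u) _

-- induction on `m`
theorem Den.St.linL {G : Den Γ ι} (h : G.St b r) (hP : Γ.Ok n P) (hn : n + m.length ≤ r)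
    (hP' : P'.length ≤ r) (h1 : b ⊆ P') (h2 : P' ⊆ P) (hm : G.InAnn m b) (h0 : G.Lam u P ≤ T)
    (hT : ∀ e ∈ m, G.Lam u ((G.lo e.1, e.2) :: P') ≤ T) : G.Lam u (G.tp m ++ P) ≤ T := by
  induction m with
  | nil => exact h0
  | cons e m ih =>
    obtain ⟨s, x⟩ := e
    rw [List.length_cons] at hn
    rw [G.tp_cons, List.cons_append, h.lin ((G.ok_tp hP m).mono (by omega)) hP' h1
      (List.Subset.trans h2 (List.subset_append_right _ _)) (hm (s, x) List.mem_cons_self) u]
    exact sup_le (ih (by omega) (fun e he => hm e (List.mem_cons_of_mem _ he))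
      fun e he => hT e (List.mem_cons_of_mem _ he)) (hT (s, x) List.mem_cons_self)

end Pool.Agent.P.MP_f1a348_lc.LS
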