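import Pool.Agent.P.MP_f1a348_lc.LS.DefsF
import Pool.Agent.P.MP_f1a348_lc.LS.TTIGHT

/-! Step DCL1. -/

set_option autoImplicit false
set_option linter.unusedSectionVars false

namespace Pool.Agent.P.MP_f1a348_lc.LS

open Module Submodule

variable {p : ℕ} [Fact p.Prime] {W : Type} [AddCommGroup W] [Module (ZMod p) W] [Fintype W]
  {Γ : Sys p W} {ι : Type} [Fintype ι] {P P' b b' : List (Pm p W)} {φ ψ : Iso p W}
  {B H T U V Λ : Sub p W} {E X Y Z : Set W} {a a' c o t w x x' y y' z μ μ₀ ξ : W}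
  {n k r R : ℕ} {s u : ι} {m : List (ι × W)} {δ q : ℝ}

-- `z = x - a`; `a ∈ Lam s (z :: x :: b)` (`mem_Lam_fixed`), so `μ = ξ + ζ`, `ξ ∈ Lam u (x :: b) ≤ Lam u P`, `ζ ∈ Lam u (z :: b)` (`le_of_mem`, `St.lin`).
-- Extend the map to `ξ` (`extU`): `φ ξ - ξ ∈ lo u` (`PW.map`), `φ` fixes `z :: b` and `a :: b`, so `φ μ - μ ∈ Lam u (z :: b) ⊓ Lam u (a :: b) = Lam u b`
-- (field `inv`, `Inv.map`, `superD`; `z ∉ Lam s (a :: b)`, else `exchD` puts `a` in `Lam s (x :: b) ≤ Lam s P`)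
theorem Den.St.dcl1 {G : Den Γ ι} (h : G.St b r) (hP : Γ.Ok n P) (hn : n + 2 ≤ r) (hs : b ⊆ P)
    (hw : G.PW P) (hx : (G.lo s, x) ∈ P) (hx1 : x ∈ G.Ann s b) (hx2 : x ∉ G.Lam s b)
    (ha : a ∈ G.Ann s b) (ha' : a ∉ G.Lam s P) (hμ : μ ∈ G.Lam u ((G.lo s, a) :: b))
    (hy : y ∈ Γ.cls ((G.lo s, a) :: P) (G.lo u) μ) : y - μ ∈ G.Lam u b := by
  have hl := h.len
  have hr := h.hr
  have hM := G.hM
  have hb : Γ.Ok G.j b := h.ok.mono (by omega)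
  have hPj : Γ.Ok G.j P := hP.mono (by omega)
  have ok1 : ∀ v, Γ.Ok (b.length + 1) ((G.lo s, v) :: b) := fun v => h.ok.cons (G.dlo s) v
  have ok1j : ∀ v, Γ.Ok G.j ((G.lo s, v) :: b) := fun v => (ok1 v).mono (by omega)
  have hz : x - a ∈ G.Ann s b := sub_mem hx1 ha
  have hi := G.Ann_le_hi hb s
  have hxP : (G.lo s, x) :: b ⊆ P := List.cons_subset.2 ⟨hx, hs⟩
  have ok2 := (ok1 x).cons (G.dlo s) (x - a)
  have h1 : a ∈ G.Lam s ((G.lo s, x - a) :: (G.lo s, x) :: b) := by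
    refine G.toGeo.mem_Lam_fixed (R := [(G.lo s, x - a), (G.lo s, x)]) (ok2.mono (by omega))
      (by simp) (by simp) (mem_sup_left ?_) (hi ha)
    have e1 : x ∈ sp [(G.lo s, x - a), (G.lo s, x)] := mem_sp (e := (G.lo s, x)) (by simp)
    have e2 : x - a ∈ sp [(G.lo s, x - a), (G.lo s, x)] := mem_sp (e := (G.lo s, x - a)) (by simp)
    simpa using sub_mem e1 e2
  have h2 := G.toGeo.le_of_mem ok2 (by omega) (P := b) (by omega)
    (fun _ he => List.mem_cons_of_mem _ (List.mem_cons_of_mem _ he)) h1 u hμ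
  rw [h.lin ((ok1 x).mono (by omega)) (P' := b) (by omega) (List.Subset.refl _)
    (List.subset_cons_self _ _) hz u] at h2
  obtain ⟨ξ, hξ, ζ, hζ, rfl⟩ := mem_sup.1 h2
  have hξP : ξ ∈ G.Lam u P := G.toGeo.mono (ok1j x) hPj hxP u hξ
  obtain ⟨φ, hφ, hf, hyφ⟩ := Sys.mem_cls.1 hy
  set U := sp ((G.lo u, ξ + ζ) :: (G.lo s, a) :: P) with hU
  obtain ⟨ψ, hψ, he⟩ := Sys.extU hφ (span (ZMod p) {ξ}) (by
    have e1 := finrank_sp ((G.lo u, ξ + ζ) :: (G.lo s, a) :: P)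
    have e2 := finrank_sp [(G.lo u, ξ)]
    rw [sp_cons, sp_nil, sup_bot_eq] at e2
    have e3 := hP.1
    simp only [List.length_cons, List.length_nil] at e1 e2
    rw [← hU] at e1
    omega)
  have hmU : ξ + ζ ∈ U := mem_sp (e := (G.lo u, ξ + ζ)) (by simp)
  have haU : a ∈ U := mem_sp (e := (G.lo s, a)) (by simp)
  have hPU : sp P ≤ U := sp_mono fun _ he => List.mem_cons_of_mem _ (List.mem_cons_of_mem _ he)
  have hxU : x ∈ U := hPU (mem_sp (e := (G.lo s, x)) hx)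
  have hbU : sp b ≤ U := (sp_mono hs).trans hPU
  have hf' : Fx ψ ((G.lo s, a) :: P) := fun e hc => by
    rw [he _ (mem_sp (List.mem_cons_of_mem _ hc))]
    exact hf e hc
  have hfP : Fx ψ P := (fx_cons.1 hf').2
  have hfa : ψ a - a ∈ G.lo s := (fx_cons.1 hf').1
  have hfx : ψ x - x ∈ G.lo s := hfP _ hx
  have hfb : Fx ψ b := hfP.mono hs
  have hξU : ξ ∈ U ⊔ span (ZMod p) {ξ} := mem_sup_right (mem_span_singleton_self _)
  have k1 : ψ ξ - ξ ∈ G.lo u := hw.map hψ (hPU.trans le_sup_left) hfP hξU hξP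
  have spv : ∀ v ∈ U, sp ((G.lo s, v) :: b) ≤ U ⊔ span (ZMod p) {ξ} := fun v hv => by
    rw [sp_cons]
    exact (sup_le ((span_singleton_le_iff_mem _ _).2 hv) hbU).trans le_sup_left
  have k2 : ψ ζ ∈ G.Lam u ((G.lo s, x - a) :: b) := by
    refine (G.inv u _ (ok1j _)).map hψ (spv _ (sub_mem hxU haU)) (fx_cons.2 ⟨?_, hfb⟩) ?_ hζ
    · rw [map_sub, sub_sub_sub_comm]
      exact sub_mem hfx hfa
    · simpa using sub_mem (mem_sup_left hmU : ξ + ζ ∈ U ⊔ span (ZMod p) {ξ}) hξU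
  have k3 : ψ (ξ + ζ) ∈ G.Lam u ((G.lo s, a) :: b) :=
    (G.inv u _ (ok1j _)).map hψ (spv _ haU) (fx_cons.2 ⟨hfa, hfb⟩) (mem_sup_left hmU) hμ
  have k4 : x - a ∉ G.Lam s ((G.lo s, a) :: b) := fun hc => by
    have e1 := add_mem hc (G.toGeo.mem_Lam_pin (ok1j a) List.mem_cons_self (hi ha))
    rw [sub_add_cancel] at e1
    exact ha' (G.toGeo.mono (ok1j x) hPj hxP s (G.exchD h.ok (by omega) (hi ha) e1 hx2))
  have k5 : ψ (ξ + ζ) - (ξ + ζ) ∈ G.Lam u b := by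
    rw [← G.superD (ok1 a) (by omega) (P := b) (by omega) (List.subset_cons_self _ _) (hi hz) k4 u]
    refine ⟨?_, sub_mem k3 hμ⟩
    rw [map_add, add_sub_add_comm]
    exact add_mem (G.lo_le u _ (ok1j _) k1) (sub_mem k2 hζ)
  have := sub_mem k5 (G.lo_le u b hb hyφ)
  rwa [he _ hmU, sub_sub_sub_cancel_left] at this

end Pool.Agent.P.MP_f1a348_lc.LS
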