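import Pool.Agent.P.MP_f1a348_lc.LS.DefsF
import Pool.Agent.P.MP_f1a348_lc.LS.TDCL1

/-! Step DCL. -/

set_option autoImplicit false
set_option linter.unusedSectionVars false

namespace Pool.Agent.P.MP_f1a348_lc.LS

open Module Submodule

variable {p : ℕ} [Fact p.Prime] {W : Type} [AddCommGroup W] [Module (ZMod p) W] [Fintype W]
  {Γ : Sys p W} {ι : Type} [Fintype ι] {P P' b b' : List (Pm p W)} {φ ψ : Iso p W}
  {B H T U V Λ : Sub p W} {E X Y Z : Set W} {a a' c o t w x x' y y' z μ μ₀ ξ : W}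
  {n k r R : ℕ} {s u : ι} {m : List (ι × W)} {δ q : ℝ}

-- sums: extend the map to one summand (`extU`), `map_mem_cls` for both summands
theorem Sys.mov_sub (Γ : Sys p W) (hB : B ≤ T) (hn : P.length + 2 ≤ Γ.M) :
    ∃ U : Sub p W, ∀ x, x ∈ U ↔ ∀ y ∈ Γ.cls P B x, y - x ∈ T := by
  have key : ∀ z x y : W, y ∈ Γ.cls P B z → ∃ (V : Sub p W) (φ : Iso p W), Γ.L V φ ∧ sp P ≤ V ∧
      Fx φ P ∧ z ∈ V ∧ x ∈ V ∧ φ z - y ∈ T := by
    intro z x y hy
    obtain ⟨φ, hL, hf, hφ⟩ := Sys.mem_cls.1 hy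
    have h1 := finrank_sp ((B, z) :: P)
    have h2 := finrank_sp [(B, x)]
    rw [List.length_cons] at h1
    rw [List.length_singleton] at h2
    obtain ⟨φ', hL', he⟩ := Sys.extU hL (sp [(B, x)]) (by omega)
    have hz : z ∈ sp ((B, z) :: P) := mem_sp (e := (B, z)) List.mem_cons_self
    have hs : sp P ≤ sp ((B, z) :: P) := sp_mono (List.subset_cons_self _ _)
    refine ⟨_, φ', hL', hs.trans le_sup_left, fun c hc => ?_, mem_sup_left hz,
      mem_sup_right (mem_sp (e := (B, x)) List.mem_cons_self), ?_⟩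
    · rw [he _ (hs (mem_sp hc))]
      exact hf c hc
    · rw [he _ hz]
      exact hB hφ
  refine ⟨{ carrier := {x | ∀ y ∈ Γ.cls P B x, y - x ∈ T}
            add_mem' := ?_
            zero_mem' := ?_
            smul_mem' := ?_ }, fun x => Iff.rfl⟩
  · intro x x' hx hx' y hy
    obtain ⟨V, φ, hL, hV, hf, hz, hxV, hφ⟩ := key _ x y hy
    have hxV' : x' ∈ V := by simpa using V.sub_mem hz hxV
    have e1 := hx _ (Sys.map_mem_cls hL hV hf hxV B)
    have e2 := hx' _ (Sys.map_mem_cls hL hV hf hxV' B)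
    have e3 : y - (x + x') = (φ x - x) + (φ x' - x') - (φ (x + x') - y) := by
      rw [map_add]; abel
    rw [e3]
    exact T.sub_mem (T.add_mem e1 e2) hφ
  · intro y hy
    obtain ⟨V, φ, -, -, -, -, -, hφ⟩ := key _ 0 y hy
    simpa using hφ
  · intro i x hx y hy
    obtain ⟨V, φ, hL, hV, hf, -, hxV, hφ⟩ := key _ x y hy
    have e1 := hx _ (Sys.map_mem_cls hL hV hf hxV B)
    have e3 : y - i • x = i • (φ x - x) - (φ (i • x) - y) := by
      rw [map_smul, smul_sub]; abel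
    rw [e3]
    exact T.sub_mem (T.smul_mem i e1) hφ

-- `U` from `mov_sub` over `tp m ++ P` with `T = Lam s P`. `linL` with `P' := b` shows `Lam s (tp m ++ P) ≤ U`: for `e ∈ m` use `dcl1` (`cls_mono`), or, if
-- `e.2 ∈ Lam e.1 P`, then `e.2 ∈ lo e.1` (`ND`), `idem`. The difference is also in `Ann s P` (`PW.sub_mem_Ann`), hence in `lo s`
theorem Den.St.dcl {G : Den Γ ι} (h : G.St b r) (hP : Γ.Ok n P) (hn : n + m.length + 2 ≤ r)
    (hs : b ⊆ P) (hw : G.PW P) (hd : G.ND P) (hx : G.Rich b P) (hm : G.InAnn m P) :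
    G.PW (G.tp m ++ P) := by
  intro s x hx0 y hy
  have hM := G.hM
  have h1 := h.len
  have h2 := h.hr
  have hPj : Γ.Ok G.j P := hP.mono (by omega)
  have hPr : Γ.Ok r P := hP.mono (by omega)
  have hbj : Γ.Ok G.j b := h.ok.mono (by omega)
  have hQ : Γ.Ok (m.length + n) (G.tp m ++ P) := G.ok_tp hP m
  have hQ1 := hQ.1
  have hPQ : P ⊆ G.tp m ++ P := List.subset_append_right _ _
  have hmb : G.InAnn m b := hm.anti hbj hPj hs
  obtain ⟨U, hU⟩ := Γ.mov_sub (P := G.tp m ++ P) (G.lo_le s P hPj) (by omega)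
  have h0 : G.Lam s P ≤ U := fun z hz => (hU z).2 fun w hw' =>
    sub_mem (G.cls_Lam hPj hz (Sys.cls_mono hPQ _ _ hw')) hz
  have hle : G.Lam s (G.tp m ++ P) ≤ U := by
    refine h.linL hP (by omega) (by omega) (List.Subset.refl b) hs hmb h0 fun e he => ?_
    by_cases he' : e.2 ∈ G.Lam e.1 P
    · exact (G.le_of_mem hPr (by omega) (by omega) hs he' s).trans h0
    · intro z hz
      refine (hU z).2 fun w hw' => ?_
      obtain ⟨v, v1, v2, v3⟩ := hx e.1
      have hsub : (G.lo e.1, e.2) :: P ⊆ G.tp m ++ P :=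
        List.cons_subset.2 ⟨List.mem_append_left _ (List.mem_map.2 ⟨e, he, rfl⟩), hPQ⟩
      exact G.toGeo.mono hbj hPj hs s
        (h.dcl1 hP (by omega) hs hw v1 v2 v3 (hmb e he) he' hz (Sys.cls_mono hsub _ _ hw'))
  exact hd s ⟨(hU x).1 (hle hx0) y hy,
    hw.sub_mem_Ann hPj (G.le_hi s _ (hQ.mono (by omega)) hx0) (Sys.cls_mono hPQ _ _ hy)⟩

end Pool.Agent.P.MP_f1a348_lc.LS
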