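import Pool.Agent.P.MP_f1a348_lc.LS.DefsF
import Pool.Agent.P.MP_f1a348_lc.LS.TTIGHT

/-! Step ORT0. -/

set_option autoImplicit false
set_option linter.unusedSectionVars false

namespace Pool.Agent.P.MP_f1a348_lc.LS

open Module Submodule

variable {p : ℕ} [Fact p.Prime] {W : Type} [AddCommGroup W] [Module (ZMod p) W] [Fintype W]
  {Γ : Sys p W} {ι : Type} [Fintype ι] {P P' b b' : List (Pm p W)} {φ ψ : Iso p W}
  {B H T U V Λ : Sub p W} {E X Y Z : Set W} {a a' c o t w x x' y y' z μ μ₀ ξ : W}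
  {n k r R : ℕ} {s u : ι} {m : List (ι × W)} {δ q : ℝ}

-- `Z = {μ ∈ Ann u P | t ∈ Ann s ((lo u, μ) :: P)}` is a subspace (`idem` for points of `lo u`; `le_of_mem` into `μ₁ :: μ₂ :: P` and `St.lin`),
-- invariant over `(lo s, t) :: P` (`inv_of_map`, `Ann_inv`, `mem_Ann_sim` with the same map); `sub`
theorem Den.St.ort0 {G : Den Γ ι} (h : G.St b r) (hP : Γ.Ok n P) (hn : n + 2 ≤ r) (hs : b ⊆ P)
    (ht : t ∈ G.Ann s P) (h1 : μ₀ ∈ G.Ann u P) (h2 : μ₀ ∉ G.Lam u ((G.lo s, t) :: P))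
    (h3 : t ∈ G.Ann s ((G.lo u, μ₀) :: P)) (hμ : μ ∈ G.Ann u ((G.lo s, t) :: P)) :
    t ∈ G.Ann s ((G.lo u, μ) :: P) := by
  have e1 := h.len
  have e2 := h.hr
  have hl := hP.1
  have hb : Γ.Ok G.j b := h.ok.mono (by omega)
  have hj : Γ.Ok G.j P := hP.mono (by omega)
  have hlo : ∀ x ∈ G.lo u, x ∈ G.Ann u P ∧ t ∈ G.Ann s ((G.lo u, x) :: P) := fun x hx =>
    ⟨G.lo_le_Ann hj u hx, by
      rw [Den.Ann, G.idem hP (by omega) (G.lo_le u P hj hx)]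
      exact ht⟩
  have key : ∀ x y z, x ∈ G.Ann u P → y ∈ G.Ann u P → t ∈ G.Ann s ((G.lo u, x) :: P) →
      t ∈ G.Ann s ((G.lo u, y) :: P) → (∀ V : Sub p W, x ∈ V → y ∈ V → z ∈ V) →
      t ∈ G.Ann s ((G.lo u, z) :: P) := fun x y z hx hy ax ay H => by
    have o1 := hP.cons (G.dlo u) y
    have o2 := o1.cons (G.dlo u) x
    have o3 : Γ.Ok G.j ((G.lo u, x) :: (G.lo u, y) :: P) := o2.mono (by omega)
    have hz : z ∈ G.Lam u ((G.lo u, x) :: (G.lo u, y) :: P) :=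
      H _ (G.mem_Lam_pin o3 List.mem_cons_self (G.Ann_le_hi hj u hx))
        (G.mem_Lam_pin o3 (List.mem_cons_of_mem _ List.mem_cons_self) (G.Ann_le_hi hj u hy))
    have a1 := G.le_of_mem (P := P) o2 (by omega) (by omega)
      (List.subset_cons_of_subset _ (List.subset_cons_self _ _)) hz (G.star s)
    rw [h.lin (P' := P) (o1.mono (by omega)) (by omega) hs (List.subset_cons_self _ _)
      (G.Ann_anti hb hj hs u hx) (G.star s)] at a1
    refine G.mem_Ann.2 fun v hv => ?_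
    obtain ⟨v1, b1, v2, b2, rfl⟩ := mem_sup.1 (a1 hv)
    rw [map_add, LinearMap.add_apply, G.mem_Ann.1 ay v1 b1, G.mem_Ann.1 ax v2 b2, add_zero]
  let Z : Sub p W :=
    { carrier := {x | x ∈ G.Ann u P ∧ t ∈ G.Ann s ((G.lo u, x) :: P)}
      zero_mem' := hlo 0 (zero_mem _)
      add_mem' := fun {x y} hx hy =>
        ⟨add_mem hx.1 hy.1, key x y _ hx.1 hy.1 hx.2 hy.2 fun _ a1 a2 => add_mem a1 a2⟩
      smul_mem' := fun c x hx =>
        ⟨smul_mem _ c hx.1, key x x _ hx.1 hx.1 hx.2 hx.2 fun V a1 _ => smul_mem V c a1⟩ }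
  have hI : Γ.Inv ((G.lo s, t) :: P) Z := Sys.inv_of_map fun x hx φ hL hf => by
    have hxU : x ∈ sp ((⊥, x) :: (G.lo s, t) :: P) := mem_sp (e := (⊥, x)) List.mem_cons_self
    obtain ⟨f1, f2⟩ := fx_cons.1 hf
    refine ⟨(G.Ann_inv hj u).map hL
      (sp_mono (List.subset_cons_of_subset _ (List.subset_cons_self _ _))) f2 hxU hx.1, ?_⟩
    refine G.mem_Ann_sim (x := t) (P := (G.lo u, x) :: P) ⟨φ, Sys.mono hL ?_,
      mv_cons.2 ⟨rfl, f1, mv_cons.2 ⟨rfl, by simp, mv_self.2 f2⟩⟩⟩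
      ((hP.cons (G.dlo u) x).mono (by omega)) hx.2
    rw [sp_cons, sp_cons, sp_cons, sp_cons, sup_left_comm]
  exact (G.sub ((hP.cons (G.dlo s) t).mono (by omega)) hI hlo
    (fun x hx => G.Ann_le_hi hj u hx.1) (x := μ₀) ⟨h1, h3⟩ h2 hμ).2

end Pool.Agent.P.MP_f1a348_lc.LS
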