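import Pool.Agent.P.MP_f1a348_lc.LS.DefsF
import Pool.Agent.P.MP_f1a348_lc.LS.TORT0
import Pool.Agent.P.MP_f1a348_lc.LS.TEQ
import Pool.Agent.P.MP_f1a348_lc.LS.TGEN

/-! Step ORT. -/

set_option autoImplicit false
set_option linter.unusedSectionVars false

namespace Pool.Agent.P.MP_f1a348_lc.LS

open Module Submodule

variable {p : ℕ} [Fact p.Prime] {W : Type} [AddCommGroup W] [Module (ZMod p) W] [Fintype W]
  {Γ : Sys p W} {ι : Type} [Fintype ι] {P P' b b' : List (Pm p W)} {φ ψ : Iso p W}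
  {B H T U V Λ : Sub p W} {E X Y Z : Set W} {a a' c o t w x x' y y' z μ μ₀ ξ : W}
  {n k r R : ℕ} {s u : ι} {m : List (ι × W)} {δ q : ℝ}

-- `μ₁` from `gen`; `eq` for `P ⊆ μ₁ :: P`, `x := t`, `y := 0` gives `t'`; `μ₁ ∉ Lam u (t' :: P)` (`exchD`); move `t'` to `t` (`cls_symm`, `Sim.bij`):
-- `μ₀ = e μ₁` satisfies the hypotheses of `ort0` (`Sim.swap`, `Sim.tail`, `Sim.symm`, `mem_Ann_sim`, `mem_Lam_sim`)
theorem Den.St.ort1 {G : Den Γ ι} (h : G.St b r) (hP : Γ.Ok n P) (hn : n + 2 ≤ r) (hs : b ⊆ P)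
    (ht : t ∈ G.Ann s P) (ht' : t ∉ G.Lam s P) (hμ : μ ∈ G.Ann u ((G.lo s, t) :: P)) :
    t ∈ G.Ann s ((G.lo u, μ) :: P) := by
  have hM := G.hM
  have hr := h.hr
  have hj : Γ.Ok G.j P := hP.mono (by omega)
  obtain ⟨μ₁, m1, m2⟩ := G.gen hj u
  have hQ := hP.cons (G.dlo u) μ₁
  obtain ⟨t', e1, e2, e3⟩ := G.eq (y := 0) hQ (by omega) (hP.1.trans n.le_succ)
    (List.subset_cons_self _ _) (G.Ann_le_hi hj s ht) ht' (by simpa using ht)
  rw [sub_zero] at e2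
  have e4 : μ₁ ∉ G.Lam u ((G.lo s, t') :: P) := fun e =>
    e3 (G.exchD hP (by omega) (G.toGeo.cls_hi P (G.Ann_le_hi hj s ht) e1) e m2)
  obtain ⟨e, he⟩ := Sys.Sim.bij (Sys.cls_symm hP (G.dlo s) (by omega) e1)
    (by have := hP.1; simp only [List.length_cons]; omega)
  have S := he (G.lo u) μ₁
  refine h.ort0 hP hn hs ht (G.mem_Ann_sim S.swap.tail hj m1) (fun e' => e4 ?_)
    (G.mem_Ann_sim S.swap (hQ.mono (by omega)) e2) hμ
  exact G.toGeo.mem_Lam_sim (S.symm ((hP.cons (G.dlo s) t').cons (G.dlo u) μ₁) (by omega))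
    ((hP.cons (G.dlo s) t).mono (by omega)) e'

-- if `t ∈ Lam s P`: `t = t₁ - t₂`, `t₂` from `gen`, `t₁ = t + t₂`; `μ₀` from `gen` over `t :: t₁ :: t₂ :: P`; `ort1` twice, then `ort0`
theorem Den.St.ort {G : Den Γ ι} (h : G.St b r) (hP : Γ.Ok n P) (hn : n + 2 ≤ r) (hs : b ⊆ P)
    (ht : t ∈ G.Ann s P) (hμ : μ ∈ G.Ann u ((G.lo s, t) :: P)) :
    t ∈ G.Ann s ((G.lo u, μ) :: P) := by
  by_cases ht' : t ∈ G.Lam s P
  swap
  · exact h.ort1 hP hn hs ht ht' hμ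
  have hr := h.hr
  have hj : Γ.Ok G.j P := hP.mono (by omega)
  have hc : ∀ x, Γ.Ok G.j ((G.lo s, x) :: P) := fun x => (hP.cons (G.dlo s) x).mono (by omega)
  obtain ⟨t₂, m1, m2⟩ := G.gen hj s
  have hQ : Γ.Ok G.j ((G.lo s, t) :: (G.lo s, t + t₂) :: (G.lo s, t₂) :: P) :=
    (((hP.cons (G.dlo s) _).cons (G.dlo s) _).cons (G.dlo s) _).mono (by omega)
  obtain ⟨μ₀, e1, e2⟩ := G.gen hQ u
  have e3 := h.ort1 hP hn hs (add_mem ht m1) (fun e => m2 (by simpa using sub_mem e ht'))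
    (G.Ann_anti (hc _) hQ (fun _ => by simp +contextual [or_imp]) u e1)
  have e4 := h.ort1 hP hn hs m1 m2 (G.Ann_anti (hc _) hQ (fun _ => by simp +contextual [or_imp]) u e1)
  exact h.ort0 hP hn hs ht (G.Ann_anti hj hQ (fun _ => by simp +contextual [or_imp]) u e1)
    (fun e => e2 (G.toGeo.mono (hc _) hQ (fun _ => by simp +contextual [or_imp]) u e)) (by simpa using sub_mem e3 e4) hμ

-- for `t ∈ Lam (star u) P` write `t = l + t'`, `l ∈ Lam (star u) b'`, `t' ∈ Ann (star u) b'` (`ND.hi_le`); `linL` with `P := b'`, `P' := b'`,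
-- `T = perp (span {t'})`; for `e ∈ m`: `e.2 ∈ Ann e.1 (t' :: b')` (`le_of_mem`), `ort` over `b'`, `beta_Ann`
theorem Den.St.ortL {G : Den Γ ι} (h : G.St b r) (hP : Γ.Ok n P) (hb : b'.length ≤ n)
    (hn : n + m.length + 2 ≤ r) (h1 : b ⊆ b') (h2 : b' ⊆ P) (hd : G.ND b') (hm : G.InAnn m P)
    (u : ι) : G.Lam u (G.tp m ++ b') ⊓ G.Ann u b' ≤ G.Ann u P := by
  have hr := h.hr
  have hl := h.len
  have hj : Γ.Ok G.j P := hP.mono (by omega)
  have hb' : Γ.Ok n b' := hP.of_subset h2 hb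
  rintro x ⟨x1, x2⟩
  refine G.mem_Ann.2 fun t ht => ?_
  obtain ⟨l, hl, t', ht', rfl⟩ := mem_sup.1 (hd.hi_le _ (G.le_hi _ _ hj ht))
  have e1 : t' ∈ G.Lam (G.star u) P := by
    simpa using sub_mem ht (G.toGeo.mono (hb'.mono (by omega)) hj h2 _ hl)
  have key : ∀ {Q}, t' ∈ G.Ann (G.star u) Q → G.Lam u Q ≤ LinearMap.ker (Γ.β t') :=
    fun e y hy => G.beta_Ann e hy
  have e2 := h.linL (m := m) (T := LinearMap.ker (Γ.β t')) hb' (by omega) (by omega) h1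
    (List.Subset.refl _) (hm.anti (h.ok.mono (by omega)) hj (List.Subset.trans h1 h2)) (key ht') fun e he =>
      key (h.ort hb' (by omega) h1 ht' (G.mem_Ann.2 fun y hy => G.mem_Ann.1 (hm e he) y
        (G.toGeo.le_of_mem hP (by omega) hb h2 e1 _ hy)))
  rw [map_add, LinearMap.add_apply, G.mem_Ann.1 x2 l hl, zero_add]
  exact e2 x1

end Pool.Agent.P.MP_f1a348_lc.LS
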