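import Pool.Agent.P.MP_f1a348_lc.LS.DefsF
import Pool.Agent.P.MP_f1a348_lc.LS.TORT

/-! Step RAD. -/

set_option autoImplicit false
set_option linter.unusedSectionVars false

namespace Pool.Agent.P.MP_f1a348_lc.LS

open Module Submodule

variable {p : ℕ} [Fact p.Prime] {W : Type} [AddCommGroup W] [Module (ZMod p) W] [Fintype W]
  {Γ : Sys p W} {ι : Type} [Fintype ι] {P P' b b' : List (Pm p W)} {φ ψ : Iso p W}
  {B H T U V Λ : Sub p W} {E X Y Z : Set W} {a a' c o t w x x' y y' z μ μ₀ ξ : W}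
  {n k r R : ℕ} {s u : ι} {m : List (ι × W)} {δ q : ℝ}

-- `μ ∈ Ann u P` (`Ann_anti`). If `μ ∉ Lam u P`: `exchD` gives `ξ ∈ Lam (star s) (μ :: P)`; `Ann u (t :: P) = Ann u P` (`idem`), so `ort` gives `β ξ t = 0`
theorem Den.St.rad1 {G : Den Γ ι} (h : G.St b r) (hP : Γ.Ok n P) (hn : n + 2 ≤ r) (hs : b ⊆ P)
    (ht : t ∈ G.Lam s P) (ht' : t ∈ G.Ann s P) (hξ : ξ ∈ G.hi (G.star s)) (h0 : Γ.β ξ t ≠ 0)
    (u : ι) : G.Lam u ((G.lo (G.star s), ξ) :: P) ⊓ G.Ann u ((G.lo (G.star s), ξ) :: P) ≤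
      G.Lam u P ⊓ G.Ann u P := by
  have hj := h.hr
  have hPj : Γ.Ok G.j P := hP.mono (by omega)
  have hP1 : Γ.Ok G.j ((G.lo (G.star s), ξ) :: P) := (hP.cons (G.dlo _) ξ).mono (by omega)
  rintro μ ⟨h1, h2⟩
  have h3 : μ ∈ G.Ann u P := G.Ann_anti hPj hP1 (List.subset_cons_self _ _) u h2
  refine ⟨?_, h3⟩
  by_contra h4
  have h5 := G.exchD hP (by omega) hξ h1 h4
  have h6 : μ ∈ G.Ann u ((G.lo s, t) :: P) := by
    unfold Den.Ann at h3 ⊢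
    rw [G.idem hP (by omega) ht]
    exact h3
  exact h0 (G.mem_Ann.1 (h.ort hP hn hs ht' h6) ξ h5)

namespace RADx

theorem low (G : Den Γ ι) (hP : Γ.Ok G.j P) : ∑ u, finrank (ZMod p) (G.lo u) ≤
    ∑ u, finrank (ZMod p) (G.Lam u P ⊓ G.Ann u P : Sub p W) :=
  Finset.sum_le_sum fun u _ => finrank_mono (le_inf (G.lo_le u P hP) (G.lo_le_Ann hP u))

theorem step {G : Den Γ ι} (h : G.St b r) (F : ι → Sub p W) (hP : Γ.Ok n P) (hn : n + 2 ≤ r)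
    (hs : b ⊆ P) (hF : ∀ s, F s ≤ G.hi s ∧ G.hi s ≤ F s ⊔ G.Lam s P) (hd : ¬ G.ND P) :
    ∃ s ξ, ξ ∈ F s ∧ ∑ u, finrank (ZMod p)
      (G.Lam u ((G.lo s, ξ) :: P) ⊓ G.Ann u ((G.lo s, ξ) :: P) : Sub p W) <
      ∑ u, finrank (ZMod p) (G.Lam u P ⊓ G.Ann u P : Sub p W) := by
  have hj := h.hr
  unfold Den.ND at hd
  obtain ⟨s, hd⟩ := not_forall.1 hd
  obtain ⟨t, ⟨ht, ht'⟩, ht0⟩ := SetLike.not_le_iff_exists.1 hd
  have e : G.lo s = Γ.perp (G.hi (G.star s)) := by rw [← G.lo_star, G.star_star]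
  rw [e, Sys.mem_perp] at ht0
  push Not at ht0
  obtain ⟨y, hy, hy0⟩ := ht0
  obtain ⟨ξ, hξ, l, hl, rfl⟩ := mem_sup.1 ((hF _).2 hy)
  have h0 : Γ.β ξ t ≠ 0 := by
    rwa [map_add, LinearMap.add_apply, G.mem_Ann.1 ht' l hl, add_zero] at hy0
  have hξ' := (hF _).1 hξ
  have hle := h.rad1 hP hn hs ht ht' hξ' h0
  have hP1 : Γ.Ok G.j ((G.lo (G.star s), ξ) :: P) := (hP.cons (G.dlo _) ξ).mono (by omega)
  refine ⟨G.star s, ξ, hξ, Finset.sum_lt_sum (fun u _ => finrank_mono (hle u))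
    ⟨s, Finset.mem_univ _, finrank_lt_finrank_of_lt (lt_of_le_of_ne (hle s) fun e => h0 ?_)⟩⟩
  have h1 : t ∈ G.Lam s ((G.lo (G.star s), ξ) :: P) ⊓ G.Ann s ((G.lo (G.star s), ξ) :: P) := by
    rw [e]; exact ⟨ht, ht'⟩
  exact G.mem_Ann.1 h1.2 ξ (G.mem_Lam_pin hP1 List.mem_cons_self hξ')

end RADx

-- induction on `k`, for all `P`, `n`. If `ND P` fails take `t ∈ Lam s P ⊓ Ann s P` outside `lo s = perp (hi (star s))`, a point `ξ ∈ F (star s)` with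
-- `β ξ t ≠ 0` (the part in `Lam (star s) P` is orthogonal to `t`); `rad1`, `mem_Lam_pin`: the sum drops; new list `m ++ [(star s, ξ)]` (`tp_append`)
theorem Den.St.radk {G : Den Γ ι} (h : G.St b r) (F : ι → Sub p W) (hP : Γ.Ok n P)
    (hn : n + k + 2 ≤ r) (hs : b ⊆ P) (hF : ∀ s, F s ≤ G.hi s ∧ G.hi s ≤ F s ⊔ G.Lam s P)
    (hk : ∑ u, finrank (ZMod p) (G.Lam u P ⊓ G.Ann u P : Sub p W) ≤
      ∑ u, finrank (ZMod p) (G.lo u) + k) :
    ∃ m : List (ι × W), m.length ≤ k ∧ (∀ x ∈ m, x.2 ∈ F x.1) ∧ G.ND (G.tp m ++ P) := by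
  have hj := h.hr
  induction k generalizing P n with
  | zero =>
    refine ⟨[], le_rfl, by simp, ?_⟩
    by_contra hd
    obtain ⟨s, ξ, -, h2⟩ := RADx.step h F hP hn hs hF hd
    have := RADx.low G ((hP.cons (G.dlo s) ξ).mono (by omega : n + 1 ≤ G.j))
    omega
  | succ k ih =>
    by_cases hd : G.ND P
    · exact ⟨[], Nat.zero_le _, by simp, hd⟩
    obtain ⟨s, ξ, h1, h2⟩ := RADx.step h F hP (by omega) hs hF hd
    have hP1 := hP.cons (G.dlo s) ξ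
    obtain ⟨m, a1, a2, a3⟩ := ih hP1 (by omega) (List.subset_cons_of_subset _ hs)
      (fun u => ⟨(hF u).1, (hF u).2.trans (sup_le_sup_left (G.mono (hP.mono (by omega))
        (hP1.mono (by omega)) (List.subset_cons_self _ _) u) _)⟩) (by omega)
    refine ⟨m ++ [(s, ξ)], by simpa using a1, ?_, ?_⟩
    · intro x hx
      rcases List.mem_append.1 hx with hx | hx
      · exact a2 x hx
      · rw [List.mem_singleton.1 hx]; exact h1
    · rw [G.tp_append, List.append_assoc]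
      exact a3

-- field `dim`
theorem Den.St.rad {G : Den Γ ι} (h : G.St b r) (F : ι → Sub p W) (hP : Γ.Ok P.length P)
    (hn : P.length + Fintype.card ι * G.K * P.length + 2 ≤ r) (hs : b ⊆ P)
    (hF : ∀ s, F s ≤ G.hi s ∧ G.hi s ≤ F s ⊔ G.Lam s P) :
    ∃ m : List (ι × W), m.length ≤ Fintype.card ι * G.K * P.length ∧ (∀ x ∈ m, x.2 ∈ F x.1) ∧
      G.ND (G.tp m ++ P) := by
  have hj := h.hr
  have hPj : Γ.Ok G.j P := hP.mono (by omega)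
  refine h.radk F hP hn hs hF ?_
  calc ∑ u, finrank (ZMod p) (G.Lam u P ⊓ G.Ann u P : Sub p W)
      ≤ ∑ u, (finrank (ZMod p) (G.lo u) + G.K * P.length) :=
        Finset.sum_le_sum fun u _ => (finrank_mono inf_le_left).trans (G.dim u P hPj)
    _ = _ := by simp [Finset.sum_add_distrib, mul_assoc]

end Pool.Agent.P.MP_f1a348_lc.LS
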