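import Pool.Agent.P.MP_f1a348_lc.LS.DefsF

/-! Step IMG. -/

set_option autoImplicit false
set_option linter.unusedSectionVars false

namespace Pool.Agent.P.MP_f1a348_lc.LS

open Module Submodule

variable {p : ℕ} [Fact p.Prime] {W : Type} [AddCommGroup W] [Module (ZMod p) W] [Fintype W]
  {Γ : Sys p W} {ι : Type} [Fintype ι] {P P' b b' : List (Pm p W)} {φ ψ : Iso p W}
  {B H T U V Λ : Sub p W} {E X Y Z : Set W} {a a' c o t w x x' y y' z μ μ₀ ξ : W}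
  {n k r R : ℕ} {s u : ι} {m : List (ι × W)} {δ q : ℝ}

-- choose for every member of the first image a preimage, a partner and its image; `Set.ncard_le_ncard_of_injOn`
theorem img_le {α β γ ε : Type} {A : Set α} {A' : Set β} (hf : A'.Finite) (g : α → γ) (g' : β → ε)
    (ρ : α → β → Prop) (h1 : ∀ x ∈ A, ∃ y ∈ A', ρ x y)
    (h2 : ∀ x ∈ A, ∀ x' ∈ A, ∀ y ∈ A', ∀ y' ∈ A', ρ x y → ρ x' y' → g' y = g' y' → g x = g x') :
    (g '' A).ncard ≤ (g' '' A').ncard := by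
  rcases A.eq_empty_or_nonempty with rfl | ⟨x₀, h₀⟩
  · simp
  have : Nonempty β := ⟨(h1 x₀ h₀).choose⟩
  have : ∀ c ∈ g '' A, ∃ y ∈ A', ∃ x ∈ A, g x = c ∧ ρ x y := by
    rintro _ ⟨x, hx, rfl⟩
    obtain ⟨y, a, b⟩ := h1 x hx
    exact ⟨y, a, x, hx, rfl, b⟩
  choose! f hf1 hf2 using this
  refine Set.ncard_le_ncard_of_injOn (fun c => g' (f c)) (fun c hc => ⟨_, hf1 c hc, rfl⟩)
    (fun c hc d hd e => ?_) (hf.image _)
  obtain ⟨x, a, rfl, b⟩ := hf2 c hc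
  obtain ⟨x', a', e', b'⟩ := hf2 d hd
  exact e' ▸ h2 x a x' a' _ (hf1 _ hc) _ (hf1 _ hd) b b' e

-- the induced map `g' '' A' → g '' A'` is onto and `g '' A ⊆ g '' A'`; `Set.injOn_of_ncard_image_eq`
theorem img_inj {α γ ε : Type} {A A' : Set α} (hf : A'.Finite) (g : α → γ) (g' : α → ε)
    (h1 : ∀ y ∈ A', ∀ y' ∈ A', g' y = g' y' → g y = g y') (h2 : ∀ x ∈ A, ∃ y ∈ A', g y = g x)
    (hc : (g' '' A').ncard ≤ (g '' A).ncard) {y y' : α} (hy : y ∈ A') (hy' : y' ∈ A')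
    (h : g y = g y') : g' y = g' y' := by
  have : Nonempty α := ⟨y⟩
  have : ∀ e ∈ g' '' A', ∃ y ∈ A', g' y = e := fun e h => h
  choose! f f1 f2 using this
  have k : ∀ y ∈ A', g (f (g' y)) = g y := fun y hy =>
    h1 _ (f1 _ ⟨y, hy, rfl⟩) _ hy (f2 _ ⟨y, hy, rfl⟩)
  refine Set.injOn_of_ncard_image_eq (f := fun e => g (f e)) (le_antisymm
    (Set.ncard_image_le (hf.image _)) (hc.trans (Set.ncard_le_ncard ?_ ((hf.image _).image _))))
    (hf.image g') ⟨y, hy, rfl⟩ ⟨y', hy', rfl⟩ ((k y hy).trans (h.trans (k y' hy').symm))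
  rintro _ ⟨x, hx, rfl⟩
  obtain ⟨z, a, b⟩ := h2 x hx
  exact ⟨_, ⟨z, a, rfl⟩, (k z a).trans b⟩

theorem img_prod {α β γ ε : Type} (A : Set α) (A' : Set β) (g : α → γ) (g' : β → ε) :
    ((fun e : α × β => (g e.1, g' e.2)) '' (A ×ˢ A')).ncard = (g '' A).ncard * (g' '' A').ncard := by
  rw [← Set.ncard_prod, Set.prod_image_image_eq]

end Pool.Agent.P.MP_f1a348_lc.LS
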