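import Pool.Agent.P.MP_f1a348_lc.LS.DefsF
import Pool.Agent.P.MP_f1a348_lc.LS.TEQ
import Pool.Agent.P.MP_f1a348_lc.LS.TIMG

/-! Step NMONO. -/

set_option autoImplicit false
set_option linter.unusedSectionVars false

namespace Pool.Agent.P.MP_f1a348_lc.LS

open Module Submodule

variable {p : ℕ} [Fact p.Prime] {W : Type} [AddCommGroup W] [Module (ZMod p) W] [Fintype W]
  {Γ : Sys p W} {ι : Type} [Fintype ι] {P P' b b' : List (Pm p W)} {φ ψ : Iso p W}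
  {B H T U V Λ : Sub p W} {E X Y Z : Set W} {a a' c o t w x x' y y' z μ μ₀ ξ : W}
  {n k r R : ℕ} {s u : ι} {m : List (ι × W)} {δ q : ℝ}

theorem Den.cs_zero (G : Den Γ ι) (s : ι) (P : List (Pm p W)) : G.cs s P 0 = G.Ann s P := by
  ext x
  simp [Den.cs]

/-- equal classes over more parameters give equal classes over fewer parameters -/
theorem Den.cls_down (G : Den Γ ι) (hP : Γ.Ok G.j P) (hs : P ⊆ P')
    (h : Γ.cls P' (G.lo s) x = Γ.cls P' (G.lo s) y) : Γ.cls P (G.lo s) x = Γ.cls P (G.lo s) y := by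
  have := G.hM
  exact Sys.cls_eq hP (G.dlo s) (by omega) (Sys.cls_mono hs _ _ (h ▸ Γ.self_mem_cls P' _ x))

theorem NMONOx.key (G : Den Γ ι) (hP' : Γ.Ok n P') (hn : n + 2 ≤ G.j) (hP : P.length ≤ n)
    (hs : P ⊆ P') (hy : y ∈ G.hi s) (h : y' - y ∈ G.Ann s P) :
    ∀ x ∈ {x | x ∈ G.cs s P y ∧ x ∉ G.Lam s P}, ∃ z ∈ {x | x ∈ G.cs s P' y' ∧ x ∉ G.Lam s P'},
      Γ.cls P (G.lo s) z = Γ.cls P (G.lo s) x := by
  intro x hx
  have := G.hM
  have ok : Γ.Ok G.j P := hP'.of_subset hs (by omega)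
  obtain ⟨z, h1, h2⟩ := G.eq hP' hn hP hs (x := x) (y := y')
    (by simpa using add_mem (G.Ann_le_hi ok s hx.1) hy) hx.2 (by simpa using sub_mem h hx.1)
  exact ⟨z, h2, Sys.cls_eq ok (G.dlo s) (by omega) h1⟩

-- `img_le` with `ρ x x' := x' ∈ cls P (lo s) x`; `eq`, `cls_eq`, `cls_down`
theorem Den.nmono (G : Den Γ ι) (hP' : Γ.Ok n P') (hn : n + 2 ≤ G.j) (hP : P.length ≤ n)
    (hs : P ⊆ P') (hy : y ∈ G.hi s) (h : y' - y ∈ G.Ann s P) :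
    G.ncls s P (G.cs s P y) ≤ G.ncls s P' (G.cs s P' y') := by
  exact img_le (Set.toFinite _) _ _ (fun x x' => Γ.cls P (G.lo s) x' = Γ.cls P (G.lo s) x)
    (NMONOx.key G hP' hn hP hs hy h) fun _ _ _ _ _ _ _ _ e e' e'' =>
      e.symm.trans ((G.cls_down (hP'.of_subset hs (by omega)) hs e'').trans e')

-- `img_inj`; `eq`, `cls_eq`, `cls_down`, `self_mem_cls`
theorem Den.ninj (G : Den Γ ι) (hP' : Γ.Ok n P') (hn : n + 2 ≤ G.j) (hP : P.length ≤ n)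
    (hs : P ⊆ P') (hy : y ∈ G.hi s) (h : y' - y ∈ G.Ann s P)
    (hc : G.ncls s P' (G.cs s P' y') ≤ G.ncls s P (G.cs s P y))
    (h1 : x - y' ∈ G.Ann s P') (h2 : x' - y' ∈ G.Ann s P') (h3 : x ∉ G.Lam s P')
    (h4 : x' ∉ G.Lam s P') (h5 : x' ∈ Γ.cls P (G.lo s) x) : x' ∈ Γ.cls P' (G.lo s) x := by
  have := G.hM
  have ok : Γ.Ok G.j P := hP'.of_subset hs (by omega)
  have e := img_inj (Set.toFinite _) (Γ.cls P (G.lo s)) (Γ.cls P' (G.lo s))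
    (fun _ _ _ _ => G.cls_down ok hs) (NMONOx.key G hP' hn hP hs hy h) hc ⟨h2, h4⟩ ⟨h1, h3⟩
    (Sys.cls_eq ok (G.dlo s) (by omega) h5)
  exact e ▸ Γ.self_mem_cls P' _ x'

theorem Den.nu_mono (G : Den Γ ι) (hP' : Γ.Ok n P') (hn : n + 2 ≤ G.j) (hP : P.length ≤ n)
    (hs : P ⊆ P') (s : ι) : G.nu s P ≤ G.nu s P' := by
  have := G.nmono hP' hn hP hs (zero_mem (G.hi s)) (y' := 0) (by simp)
  rwa [G.cs_zero, G.cs_zero] at this

/-- translation by a pinned point -/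
theorem Sys.cls_shift (ho : (B, o) ∈ P) (h : y - o ∈ Γ.cls P B (x - o)) : y ∈ Γ.cls P B x := by
  obtain ⟨φ, h1, h2, h3⟩ := Sys.mem_cls.1 h
  refine Sys.mem_cls.2 ⟨φ, Sys.mono h1 (sp_le.2 (List.forall_mem_cons.2 ⟨?_, fun e he =>
    mem_sp (List.mem_cons_of_mem _ he)⟩)), h2, ?_⟩
  · simpa using add_mem (mem_sp (P := (B, x - o) :: P) List.mem_cons_self)
      (mem_sp (List.mem_cons_of_mem _ ho))
  · simpa [sub_add_sub_comm] using add_mem h3 (h2 _ ho)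

-- `img_le` with `ρ x y := y = x - o`; `mem_Lam_pin`, `cls_shift`, `cls_eq`
theorem Den.ntr (G : Den Γ ι) (hP : Γ.Ok G.j P) (ho : (G.lo s, o) ∈ P) (ho' : o ∈ G.hi s) :
    G.ncls s P (G.cs s P o) ≤ G.nu s P := by
  have := G.hM
  refine img_le (Set.toFinite _) _ _ (fun x z => z = x - o) (fun x hx => ⟨_, ⟨hx.1, fun c =>
    hx.2 ?_⟩, rfl⟩) ?_
  · simpa using add_mem c (G.mem_Lam_pin hP ho ho')
  · rintro x - x' - _ - _ - rfl rfl e
    exact Sys.cls_eq hP (G.dlo s) (by omega) (Sys.cls_shift ho (e ▸ Γ.self_mem_cls P _ (x - o)))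

end Pool.Agent.P.MP_f1a348_lc.LS
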