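import Pool.Agent.P.MP_f1a348_lc.LS.DefsF
import Pool.Agent.P.MP_f1a348_lc.LS.TNMONO

/-! Step ST. -/

set_option autoImplicit false
set_option linter.unusedSectionVars false

namespace Pool.Agent.P.MP_f1a348_lc.LS

open Module Submodule

variable {p : ℕ} [Fact p.Prime] {W : Type} [AddCommGroup W] [Module (ZMod p) W] [Fintype W]
  {Γ : Sys p W} {ι : Type} [Fintype ι] {P P' b b' : List (Pm p W)} {φ ψ : Iso p W}
  {B H T U V Λ : Sub p W} {E X Y Z : Set W} {a a' c o t w x x' y y' z μ μ₀ ξ : W}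
  {n k r R : ℕ} {s u : ι} {m : List (ι × W)} {δ q : ℝ}

-- `ncls s P (cs s P x) ≤ ncls s (x :: P) (cs s (x :: P) x) ≤ nu s (x :: P) = nu s b = ncls s b (cs s b 0)` (`nmono`, `ntr`, field `nu`, `cs_zero`);
-- `ninj` for `b ⊆ P`, `y := 0`, `y' := x`
theorem Den.St.st {G : Den Γ ι} (h : G.St b r) (hP : Γ.Ok n P) (hn : n + 1 ≤ r) (hs : b ⊆ P)
    (hx : x ∈ G.Ann s b) (hx' : x ∉ G.Lam s P) (hy' : y ∉ G.Lam s P)
    (hy : y ∈ Γ.cls b (G.lo s) x) (hd : y - x ∈ G.Ann s P) : y ∈ Γ.cls P (G.lo s) x := by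
  have h1 := h.len
  have h2 := h.hr
  have h3 := hP.1
  have hh : x ∈ G.hi s := G.Ann_le_hi (h.ok.mono (by omega)) s hx
  have o1 : Γ.Ok r ((G.lo s, x) :: P) := (hP.cons (G.dlo s) x).mono hn
  refine G.ninj (y := 0) (y' := x) (hP.mono (m := r) (by omega)) (by omega) (by omega) hs
    (zero_mem _) (by rwa [sub_zero]) ?_ (by rw [sub_self]; exact zero_mem _) hd hx' hy' hy
  rw [G.cs_zero]
  refine (G.nmono (y' := x) o1 (by omega) (by omega) (List.subset_cons_self _ _) hh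
    (by rw [sub_self]; exact zero_mem _)).trans
    ((G.ntr (o1.mono (by omega)) List.mem_cons_self hh).trans ?_)
  exact (h.nu _ o1 (List.subset_cons_of_subset _ hs) s).le

end Pool.Agent.P.MP_f1a348_lc.LS
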