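import Pool.Agent.P.MP_f1a348_lc.LS.DefsF
import Pool.Agent.P.MP_f1a348_lc.LS.TST
import Pool.Agent.P.MP_f1a348_lc.LS.TRAD
import Pool.Agent.P.MP_f1a348_lc.LS.TDCL

/-! Step BS. -/

set_option autoImplicit false
set_option linter.unusedSectionVars false

namespace Pool.Agent.P.MP_f1a348_lc.LS

open Module Submodule

variable {p : ℕ} [Fact p.Prime] {W : Type} [AddCommGroup W] [Module (ZMod p) W] [Fintype W]
  {Γ : Sys p W} {ι : Type} [Fintype ι] {P P' b b' : List (Pm p W)} {φ ψ : Iso p W}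
  {B H T U V Λ : Sub p W} {E X Y Z : Set W} {a a' c o t w x x' y y' z μ μ₀ ξ : W}
  {n k r R : ℕ} {s u : ι} {m : List (ι × W)} {δ q : ℝ}

-- field by field: `St.lin`, `St.st` (`Ann_anti`, `cls_mono`), `ortL`, `St.dcl`, `St.rad`
theorem Den.St.bs {G : Den Γ ι} (h : G.St b r) (hb : Γ.Ok R b') (hr : 2 * R + 2 ≤ r) (hs : b ⊆ b')
    (hd : G.ND b') (hw : G.PW b') (hx : G.Rich b b') : G.Bs b' R := by
  have hj := h.hr
  have hl := h.len
  have hb1 : b'.length ≤ R := hb.1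
  have hA : ∀ s, G.Ann s b' ≤ G.Ann s b := fun s =>
    G.Ann_anti (h.ok.mono (by omega)) (hb.mono (by omega)) hs s
  refine ⟨hb, by omega, hd, ?_, ?_, ?_, ?_, ?_⟩
  · intro P hP hsP s a ha _ u
    exact h.lin (hP.mono (by omega)) (by omega) hs hsP (hA s ha) u
  · intro P hP hsP s x y hx1 hx2 hy2 hy hyx
    exact h.st hP (by omega) (List.Subset.trans hs hsP) (hA s hx1) hx2 hy2
      (Sys.cls_mono hs _ _ hy) hyx
  · intro P hP hsP m hm hml u
    exact h.ortL hP hb1 (by omega) hs hsP hd hm u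
  · intro m hm hml
    exact h.dcl hb (by omega) hs hw hd hx hm
  · intro P hP hsP hPl X hX
    exact h.rad X hP.len (by omega) (List.Subset.trans hs hsP) hX

end Pool.Agent.P.MP_f1a348_lc.LS
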