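import Pool.Agent.P.MP_f1a348_lc.LS.DefsF
import Pool.Agent.P.MP_f1a348_lc.LS.TRAD
import Pool.Agent.P.MP_f1a348_lc.LS.TBAS
import Pool.Agent.P.MP_f1a348_lc.LS.TGEN

/-! Step MKB. -/

set_option autoImplicit false
set_option linter.unusedSectionVars false

namespace Pool.Agent.P.MP_f1a348_lc.LS

open Module Submodule

variable {p : ℕ} [Fact p.Prime] {W : Type} [AddCommGroup W] [Module (ZMod p) W] [Fintype W]
  {Γ : Sys p W} {ι : Type} [Fintype ι] {P P' b b' : List (Pm p W)} {φ ψ : Iso p W}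
  {B H T U V Λ : Sub p W} {E X Y Z : Set W} {a a' c o t w x x' y y' z μ μ₀ ξ : W}
  {n k r R : ℕ} {s u : ι} {m : List (ι × W)} {δ q : ℝ}

-- `b₁ = tp xs ++ b` with one point from `gen` in every sort; `b₂ = tp m ++ b₁` from `rad` with `F = hi`; `b' = tp e ++ b₂` from `basL` with
-- `X s = Lam s b₂`; `idemL` gives `Same b₂ b'`, `Same.nd`; `cls_fixed` (with `R` = the pins of sort `s`) gives `PW b'`
theorem Den.St.mkb {G : Den Γ ι} (h : G.St b r)
    (hr : (Fintype.card ι * G.K + 1) ^ 2 * (b.length + Fintype.card ι) + 2 ≤ r) :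
    ∃ b', b ⊆ b' ∧ Γ.Ok b'.length b' ∧
      b'.length ≤ (Fintype.card ι * G.K + 1) ^ 2 * (b.length + Fintype.card ι) ∧
      G.ND b' ∧ G.PW b' ∧ G.Rich b b' := by
  classical
  have hj := h.hr
  have hlen := h.len
  have hb : Γ.Ok G.j b := h.ok.mono (by omega)
  choose g hg1 hg2 using fun s => G.gen hb s
  set c := Fintype.card ι * G.K with hc
  set xs : List (ι × W) := (Finset.univ : Finset ι).toList.map fun s => (s, g s) with hxs
  have lxs : xs.length = Fintype.card ι := by simp [hxs]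
  have o1 : Γ.Ok (xs.length + b.length) (G.tp xs ++ b) := G.ok_tp h.ok xs
  set b₁ := G.tp xs ++ b with hb₁
  have l1 : b₁.length = b.length + Fintype.card ι := by
    rw [hb₁, List.length_append, G.length_tp, lxs, add_comm]
  rw [← l1] at hr ⊢
  have s1 : b ⊆ b₁ := List.subset_append_right _ _
  have e1 : (c + 1) ^ 2 * b₁.length =
      b₁.length + c * b₁.length + c * (b₁.length + c * b₁.length) := by ring
  obtain ⟨m, lm, -, nd2⟩ := h.rad G.hi o1.len (by rw [← hc]; omega) s1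
    (fun s => ⟨le_rfl, le_sup_left⟩)
  have o2 : Γ.Ok (m.length + b₁.length) (G.tp m ++ b₁) := G.ok_tp o1.len m
  set b₂ := G.tp m ++ b₁ with hb₂
  have l2 : b₂.length ≤ b₁.length + c * b₁.length := by
    have := o2.1
    rw [← hc] at lm
    omega
  have o2' : Γ.Ok G.j b₂ := o2.len.mono (by omega)
  obtain ⟨e, le, he, hsp⟩ := G.basL o2' (fun s => G.Lam s b₂)
    (fun s => ⟨G.lo_le s _ o2', le_rfl⟩)
  have le' : e.length ≤ c * (b₁.length + c * b₁.length) :=
    le.trans (Nat.mul_le_mul_left _ l2)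
  have o3 : Γ.Ok (e.length + b₂.length) (G.tp e ++ b₂) := G.ok_tp o2.len e
  have sm : G.Same b₂ (G.tp e ++ b₂) := fun s =>
    (G.toGeo.idemL o2.len (by rw [G.length_tp]; omega) (fun f hf => by
      obtain ⟨a, ha, rfl⟩ := List.mem_map.1 hf
      exact ⟨a.1, rfl, he a ha⟩) s).symm
  have s2 : b₁ ⊆ G.tp e ++ b₂ := fun a ha =>
    List.mem_append_right _ (List.mem_append_right _ ha)
  refine ⟨G.tp e ++ b₂, fun a ha => s2 (s1 ha), o3.len, by have := o3.1; omega, sm.nd nd2,
    fun s x hx y hy => ?_, fun s => ⟨g s, s2 (List.mem_append_left _ ?_), hg1 s, hg2 s⟩⟩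
  · rw [← sm s] at hx
    refine Sys.cls_fixed (R := G.tp (e.filter fun a => a.1 = s)) (G.dlo s) (fun f hf => ?_)
      (fun f hf => ?_) ?_ hy
    · obtain ⟨a, ha, rfl⟩ := List.mem_map.1 hf
      exact List.mem_append_left _ (List.mem_map.2 ⟨a, (List.mem_filter.1 ha).1, rfl⟩)
    · obtain ⟨a, ha, rfl⟩ := List.mem_map.1 hf
      have : a.1 = s := by simpa using (List.mem_filter.1 ha).2
      exact this ▸ le_rfl
    · have k : span (ZMod p) {x | (s, x) ∈ e} ≤ sp (G.tp (e.filter fun a => a.1 = s)) :=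
        span_le.2 fun z hz => mem_sp (e := (G.lo s, z))
          (List.mem_map.2 ⟨(s, z), List.mem_filter.2 ⟨hz, by simp⟩, rfl⟩)
      exact ((hsp s).trans (sup_le le_sup_right (k.trans le_sup_left))) hx
  · exact List.mem_map.2 ⟨(s, g s), List.mem_map.2 ⟨s, by simp, rfl⟩, rfl⟩

end Pool.Agent.P.MP_f1a348_lc.LS
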