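import Pool.Agent.P.MP_f1a348_lc.LS.Base
import Pool.Agent.P.MP_f1a348_lc.LS.TCLS

/-! Step REPS. -/

set_option autoImplicit false
set_option linter.unusedSectionVars false

namespace Pool.Agent.P.MP_f1a348_lc.LS

open Module Submodule

variable {p : ℕ} [Fact p.Prime] {W : Type} [AddCommGroup W] [Module (ZMod p) W] [Fintype W]
  {Γ : Sys p W} {ι : Type} [Fintype ι] {P P' P'' R R' b : List (Pm p W)} {φ ψ : Iso p W}
  {A B B' D T U U' V : Sub p W} {S X Y : Set W} {a a' c v w x x' y y' z μ : W} {n m r : ℕ}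
  {s t : ι} {l l' : List W}

namespace REPSx

theorem reps {α : Type} [Fintype α] (cl : α → Set α) (h0 : ∀ x, x ∈ cl x)
    (h1 : ∀ x y, y ∈ cl x → cl y = cl x) (X : Set α) :
    ∃ F : Finset α, (F : Set α) ⊆ X ∧ (∀ x ∈ X, ∃ y ∈ F, x ∈ cl y) ∧
      (∀ y ∈ F, ∀ y' ∈ F, y' ∈ cl y → y' = y) ∧
      ∀ (Y : Set α) (T q : ℕ), (∀ x ∈ X, cl x ⊆ Y) →
        (∀ x ∈ X, T ≤ q * (cl x).ncard) → F.card * T ≤ q * Y.ncard := by
  classical
  have key : ∀ C : Set α, (∃ x ∈ X, cl x = C) → ∃ y ∈ X, cl y = C := fun C h => h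
  choose! ρ hρ hρ' using fun C : {C : Set α // ∃ x ∈ X, cl x = C} => key C.1 C.2
  have hinj : ∀ C C', ρ C' ∈ cl (ρ C) → C' = C := fun C C' h =>
    Subtype.ext (by rw [← hρ' C', ← hρ' C]; exact h1 _ _ h)
  refine ⟨Finset.univ.image ρ, ?_, fun x hx => ?_, ?_, fun Y T q hY hT => ?_⟩
  · intro y hy
    obtain ⟨C, -, rfl⟩ := Finset.mem_image.1 hy
    exact hρ C
  · refine ⟨ρ ⟨cl x, x, hx, rfl⟩, Finset.mem_image_of_mem _ (Finset.mem_univ _), ?_⟩
    rw [hρ']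
    exact h0 x
  · intro y hy y' hy' h
    obtain ⟨C, -, rfl⟩ := Finset.mem_image.1 hy
    obtain ⟨C', -, rfl⟩ := Finset.mem_image.1 hy'
    rw [hinj C C' h]
  · set F := Finset.univ.image ρ with hF
    have hX : ∀ y ∈ F, y ∈ X := fun y hy => by
      obtain ⟨C, -, rfl⟩ := Finset.mem_image.1 hy
      exact hρ C
    have hd : (F : Set α).PairwiseDisjoint fun y => (cl y).toFinset := by
      intro y hy y' hy' hne
      refine Finset.disjoint_left.2 fun z hz hz' => hne ?_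
      obtain ⟨C, -, rfl⟩ := Finset.mem_image.1 hy
      obtain ⟨C', -, rfl⟩ := Finset.mem_image.1 hy'
      have e1 := h1 _ _ (Set.mem_toFinset.1 hz)
      have e2 := h1 _ _ (Set.mem_toFinset.1 hz')
      rw [hinj C C' (by rw [← e1, e2]; exact h0 _)]
    have hc : ∑ y ∈ F, (cl y).ncard ≤ Y.ncard := by
      rw [Set.ncard_eq_toFinset_card' Y,
        Finset.sum_congr rfl fun y _ => Set.ncard_eq_toFinset_card' (cl y),
        ← Finset.card_biUnion hd]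
      refine Finset.card_le_card fun z hz => ?_
      obtain ⟨y, hy, hz⟩ := Finset.mem_biUnion.1 hz
      exact Set.mem_toFinset.2 (hY y (hX y hy) (Set.mem_toFinset.1 hz))
    calc F.card * T = ∑ _y ∈ F, T := by simp
      _ ≤ ∑ y ∈ F, q * (cl y).ncard := Finset.sum_le_sum fun y hy => hT y (hX y hy)
      _ = q * ∑ y ∈ F, (cl y).ncard := (Finset.mul_sum _ _ _).symm
      _ ≤ q * Y.ncard := Nat.mul_le_mul_left _ hc

end REPSx

/-- representatives of the classes that meet `X` -/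
theorem Sys.reps (hP : Γ.Ok n P) (hB : Γ.Def B) (hn : 2 * n + 2 ≤ Γ.M) (X : Set W) :
    ∃ F : Finset W, (F : Set W) ⊆ X ∧ (∀ x ∈ X, ∃ y ∈ F, x ∈ Γ.cls P B y) ∧
      (∀ y ∈ F, ∀ y' ∈ F, y' ∈ Γ.cls P B y → y' = y) ∧
      ∀ (Y : Set W) (T q : ℕ), (∀ x ∈ X, Γ.cls P B x ⊆ Y) →
        (∀ x ∈ X, T ≤ q * (Γ.cls P B x).ncard) → F.card * T ≤ q * Y.ncard := by
  exact REPSx.reps (Γ.cls P B) (Γ.self_mem_cls P B) (fun _ _ h => Sys.cls_eq hP hB hn h) X

end Pool.Agent.P.MP_f1a348_lc.LS
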