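import Pool.Agent.P.MP_f1a348_lc.LS.DefsF
import Pool.Agent.P.MP_f1a348_lc.LS.TMIX
import Pool.Agent.P.MP_f1a348_lc.LS.TNMONO
import Pool.Agent.P.MP_f1a348_lc.LS.TREPS
import Pool.Agent.P.MP_f1a348_lc.LS.TGEN

/-! Step NBD. -/

set_option autoImplicit false
set_option linter.unusedSectionVars false

namespace Pool.Agent.P.MP_f1a348_lc.LS

open Module Submodule

variable {p : ℕ} [Fact p.Prime] {W : Type} [AddCommGroup W] [Module (ZMod p) W] [Fintype W]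
  {Γ : Sys p W} {ι : Type} [Fintype ι] {P P' b b' : List (Pm p W)} {φ ψ : Iso p W}
  {B H T U V Λ : Sub p W} {E X Y Z : Set W} {a a' c o t w x x' y y' z μ μ₀ ξ : W}
  {n k r R : ℕ} {s u : ι} {m : List (ι × W)} {δ q : ℝ}

-- `reps` for the generic points of `X`, `Y = hi s`, `T = N s`; fields `big`, `gap`; `N_eq`; the image is covered by the classes of `F` (`cls_eq`)
theorem Den.ncls_le (G : Den Γ ι) (hP : Γ.Ok G.j P) (hX : X ⊆ G.hi s) :
    G.ncls s P X ≤ p ^ (G.K * P.length + G.C) := by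
  have hM := G.hM
  obtain ⟨F, -, h2, -, h4⟩ := Sys.reps hP (G.dlo s) (by omega) {x | x ∈ X ∧ x ∉ G.Lam s P}
  have h5 := h4 (G.hi s) (G.N s) (p ^ (G.K * P.length + G.C))
    (fun x hx => G.cls_hi P (hX hx.1)) fun x hx => G.big s P hP x (hX hx.1) hx.2
  have h6 : ((G.hi s : Set W)).ncard = G.N s := (G.N_eq s).symm
  have h7 : 0 < G.N s := G.N_eq s ▸ nc_pos _
  rw [h6] at h5
  refine le_trans ?_ (Nat.le_of_mul_le_mul_right h5 h7)
  rw [← Set.ncard_coe_finset]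
  refine le_trans (Set.ncard_le_ncard ?_ (F.finite_toSet.image _))
    (Set.ncard_image_le (f := fun x => Γ.cls P (G.lo s) x) F.finite_toSet)
  rintro _ ⟨x, hx, rfl⟩
  obtain ⟨y, a1, a2⟩ := h2 x hx
  exact ⟨y, a1, (Sys.cls_eq hP (G.dlo s) (by omega) a2).symm⟩

-- `img_prod`, `img_le` with `ρ (x₁, x₂) x := x ∈ cls P' x₁ ∧ x + z ∈ cls P x₂`. Existence: `eq` gives `x₂' ∈ cls P x₂` with
-- `x₂' - (x₁ + z) ∈ Ann s P'`, `x₂' ∉ Lam s P'`; then `mix` over `P' ⊆ (lo s, z) :: P'`. Uniqueness: `cls_down`, `cls_shift` (with `o = z`,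
-- `x = (x + z) - z`)
theorem Den.ncls_step (G : Den Γ ι) (hP' : Γ.Ok n P') (hn : n + 4 ≤ G.j) (hP : P.length ≤ n)
    (hs : P ⊆ P') (hz : z ∈ G.Ann s P) (hz' : z ∉ G.Lam s P') :
    G.ncls s P' (G.Ann s P) * G.nu s P ≤ G.ncls s ((G.lo s, z) :: P') (G.Ann s P) := by
  have hM := G.hM
  have o1 : Γ.Ok G.j P' := hP'.mono (by omega)
  have o0 : Γ.Ok G.j P := hP'.of_subset hs (by omega)
  have o2 := hP'.cons (G.dlo s) z
  have s2 : P' ⊆ (G.lo s, z) :: P' := List.subset_cons_self _ _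
  have e0 : ∀ {x y : W}, y ∈ Γ.cls P (G.lo s) x → Γ.cls P (G.lo s) y = Γ.cls P (G.lo s) x :=
    fun h => Sys.cls_eq o0 (G.dlo s) (by omega) h
  have e1 : ∀ {x y : W}, y ∈ Γ.cls P' (G.lo s) x → Γ.cls P' (G.lo s) y = Γ.cls P' (G.lo s) x :=
    fun h => Sys.cls_eq o1 (G.dlo s) (by omega) h
  rw [Den.nu, Den.ncls, Den.ncls, Den.ncls, ← img_prod]
  refine img_le (Set.toFinite _) _ _
    (fun e x => x ∈ Γ.cls P' (G.lo s) e.1 ∧ x + z ∈ Γ.cls P (G.lo s) e.2) ?_ ?_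
  · rintro ⟨x₁, x₂⟩ ⟨⟨a1, a2⟩, a3, a4⟩
    obtain ⟨y, b1, b2, b3⟩ := G.eq (y := x₁ + z) hP' (by omega) hP hs (G.Ann_le_hi o0 s a3) a4
      (sub_mem (add_mem a1 hz) a3)
    obtain ⟨x, c1, c2, c3, c4⟩ := G.mix o2 (by omega) (hP'.1.trans (Nat.le_succ n)) s2
      (G.Ann_le_hi o0 s a1) a2 (G.cls_hi P (G.Ann_le_hi o0 s a3) b1) b3 hz' (by rwa [sub_sub])
    refine ⟨x, ⟨?_, c4⟩, c1, e0 b1 ▸ Sys.cls_mono hs _ _ c3⟩
    simpa using add_mem (G.Ann_anti o0 o1 hs s c2) a1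
  · rintro ⟨x₁, x₂⟩ - ⟨x₁', x₂'⟩ - x - x' - ⟨a1, a2⟩ ⟨a3, a4⟩ h
    have b1 := G.cls_down o1 s2 h
    have b2 : x' + z ∈ Γ.cls ((G.lo s, z) :: P') (G.lo s) (x + z) :=
      Sys.cls_shift List.mem_cons_self (by
        rw [add_sub_cancel_right, add_sub_cancel_right, h]
        exact Γ.self_mem_cls _ _ _)
    have b3 := e0 (Sys.cls_mono (List.Subset.trans hs s2) _ _ b2)
    exact Prod.ext ((e1 a1).symm.trans (b1.trans (e1 a3))) ((e0 a2).symm.trans (b3.symm.trans (e0 a4)))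

-- by induction on `i ≤ K * n + C` there is `P' ⊇ P`, `Ok (n + i) P'`, with `nu ^ (i + 1) ≤ ncls s P' (Ann s P)` (`gen`, `Ann_anti`, `ncls_step`);
-- for `i = K * n + C` compare with `ncls_le`: `(K + 1) * (i + 1) > K * (n + i) + C`
theorem Den.nu_le (G : Den Γ ι) (hP : Γ.Ok n P) (hn : n + G.K * n + G.C + 4 ≤ G.j) (s : ι) :
    G.nu s P ≤ p ^ (G.K + 1) := by
  have o0 : Γ.Ok G.j P := hP.mono (by omega)
  have k : ∀ i, i ≤ G.K * n + G.C → ∃ P', Γ.Ok (n + i) P' ∧ P ⊆ P' ∧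
      G.nu s P ^ (i + 1) ≤ G.ncls s P' (G.Ann s P) := fun i => by
    induction i with
    | zero => exact fun _ => ⟨P, hP, List.Subset.refl _, by simp [Den.nu]⟩
    | succ i ih =>
      intro hi
      obtain ⟨P', a1, a2, a3⟩ := ih (by omega)
      have o1 : Γ.Ok G.j P' := a1.mono (by omega)
      obtain ⟨z, b1, b2⟩ := G.gen o1 s
      refine ⟨_, a1.cons (G.dlo s) z, List.Subset.trans a2 (List.subset_cons_self _ _), ?_⟩
      rw [pow_succ]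
      exact (Nat.mul_le_mul_right _ a3).trans (G.ncls_step a1 (by omega)
        (hP.1.trans (Nat.le_add_right n i)) a2 (G.Ann_anti o0 o1 a2 s b1) b2)
  obtain ⟨P', a1, -, a3⟩ := k _ le_rfl
  have a4 := a3.trans (G.ncls_le (a1.mono (by omega)) (G.Ann_le_hi o0 s))
  refine (Nat.pow_le_pow_iff_left (Nat.succ_ne_zero (G.K * n + G.C))).1 (a4.trans ?_)
  rw [← pow_mul]
  refine Nat.pow_le_pow_right (Fact.out : p.Prime).pos ?_
  have := Nat.mul_le_mul_left G.K a1.1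
  rw [Nat.succ_eq_add_one]
  nlinarith

end Pool.Agent.P.MP_f1a348_lc.LS
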