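import Pool.Agent.P.MP_f1a348_lc.LS.Base
import Pool.Agent.P.MP_f1a348_lc.LS.TKAP

/-! Step KBD. -/

set_option autoImplicit false
set_option linter.unusedSectionVars false

namespace Pool.Agent.P.MP_f1a348_lc.LS

open Module Submodule

variable {p : ℕ} [Fact p.Prime] {W : Type} [AddCommGroup W] [Module (ZMod p) W] [Fintype W]
  {Γ : Sys p W} {ι : Type} [Fintype ι] {P P' P'' R R' b : List (Pm p W)} {φ ψ : Iso p W}
  {A B B' D T U U' V : Sub p W} {S X Y : Set W} {a a' c v w x x' y y' z μ : W} {n m r : ℕ}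
  {s t : ι} {l l' : List W}

namespace KBDx

theorem chain (G : Geo Γ ι) (hP : Γ.Ok n P) (s : ι) (h : ℕ) (hn : n + h ≤ G.j) :
    ∃ P', Γ.Ok (n + h) P' ∧ P ⊆ P' ∧ G.tot P + h * G.kap s P ≤ G.tot P' := by
  induction h with
  | zero => exact ⟨P, hP, List.Subset.refl _, by simp⟩
  | succ h ih =>
    obtain ⟨P', h1, h2, h3⟩ := ih (by omega)
    obtain ⟨a, ha⟩ := G.exists_tight h1 (by omega) s
    have hk : G.kap s P ≤ G.kap s P' :=
      G.kap_mono h1 (by omega) (le_trans hP.1 (by omega)) h2 s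
    refine ⟨(G.lo s, a) :: P', h1.cons (G.dlo s) a, List.subset_cons_of_subset _ h2, ?_⟩
    rw [ha.2.2, Nat.succ_mul]
    omega

theorem low (G : Geo Γ ι) (hP : Γ.Ok G.j P) :
    ∑ s, finrank (ZMod p) (G.lo s) ≤ G.tot P :=
  Finset.sum_le_sum fun s _ => Submodule.finrank_mono (G.lo_le s P hP)

theorem up (G : Geo Γ ι) (hP : Γ.Ok G.j P) :
    G.tot P ≤ ∑ s, finrank (ZMod p) (G.lo s) + Fintype.card ι * G.K * P.length := by
  have h : G.tot P ≤ ∑ s, (finrank (ZMod p) (G.lo s) + G.K * P.length) :=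
    Finset.sum_le_sum fun s _ => G.dim s P hP
  rw [Finset.sum_add_distrib, Finset.sum_const, Finset.card_univ, smul_eq_mul] at h
  rw [mul_assoc]
  exact h

end KBDx

-- `h = card ι * K * n + 1` tight pins in a row raise `tot` by at least `h * kap s P`;
-- `dim` and `lo_le` bound the total gain by `card ι * K * (n + h)`
theorem Geo.kap_le (G : Geo Γ ι) (hP : Γ.Ok n P) (hn : n + Fintype.card ι * G.K * n + 1 ≤ G.j)
    (s : ι) : G.kap s P ≤ Fintype.card ι * G.K := by
  obtain ⟨P', h1, -, h3⟩ := KBDx.chain G hP s (Fintype.card ι * G.K * n + 1) (by omega)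
  have h4 := KBDx.low G (hP.mono (by omega))
  have h5 := KBDx.up G (h1.mono (by omega))
  have h6 : P'.length ≤ n + (Fintype.card ι * G.K * n + 1) := h1.1
  generalize Fintype.card ι * G.K = m at *
  have h7 : m * P'.length ≤ m * (n + (m * n + 1)) := Nat.mul_le_mul_left _ h6
  by_contra hc
  have h8 : (m * n + 1) * (m + 1) ≤ (m * n + 1) * G.kap s P :=
    Nat.mul_le_mul_left _ (by omega)
  have h9 : (m * n + 1) * (m + 1) = m * (n + (m * n + 1)) + 1 := by ring
  omega

end Pool.Agent.P.MP_f1a348_lc.LS
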