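import Pool.Agent.P.MP_f1a348_lc.LS.Base

/-! Step STAB. -/

set_option autoImplicit false
set_option linter.unusedSectionVars false

namespace Pool.Agent.P.MP_f1a348_lc.LS

open Module Submodule

variable {p : ℕ} [Fact p.Prime] {W : Type} [AddCommGroup W] [Module (ZMod p) W] [Fintype W]
  {Γ : Sys p W} {ι : Type} [Fintype ι] {P P' P'' R R' b : List (Pm p W)} {φ ψ : Iso p W}
  {A B B' D T U U' V : Sub p W} {S X Y : Set W} {a a' c v w x x' y y' z μ : W} {n m r : ℕ}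
  {s t : ι} {l l' : List W}

-- `J = H^[Bd + 1] n₀`; induction on `Bd - Φ b₀`
theorem stab (H : ℕ → ℕ) (hH : Monotone H) (hH' : ∀ n, n ≤ H n) (Bd n₀ : ℕ) :
    ∃ J : ℕ, ∀ (α : Type) (ok : List α → Prop) (Φ : List α → ℕ),
      (∀ P P', ok P → ok P' → P ⊆ P' → P.length ≤ J → P'.length ≤ J → Φ P ≤ Φ P') →
      (∀ P, ok P → P.length ≤ J → Φ P ≤ Bd) → ∀ b₀, ok b₀ → b₀.length ≤ n₀ →
      ∃ b, ok b ∧ b₀ ⊆ b ∧ H b.length ≤ J ∧
        ∀ P, ok P → b ⊆ P → P.length ≤ H b.length → Φ P = Φ b := by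
  refine ⟨H^[Bd + 1] n₀, fun α ok Φ hm hB b₀ h₀ hl => ?_⟩
  have mono : Monotone fun i => H^[i] n₀ :=
    monotone_nat_of_le_succ fun i => by rw [Function.iterate_succ_apply']; exact hH' _
  have key : ∀ k i b, ok b → b₀ ⊆ b → b.length ≤ H^[i] n₀ → i ≤ Φ b → Bd < i + k → i ≤ Bd →
      ∃ b, ok b ∧ b₀ ⊆ b ∧ H b.length ≤ H^[Bd + 1] n₀ ∧
        ∀ P, ok P → b ⊆ P → P.length ≤ H b.length → Φ P = Φ b := by
    intro k
    induction k with
    | zero => intro i b _ _ _ _ h1 h2; omega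
    | succ k ih =>
      intro i b h1 h2 h3 h4 h5 h6
      have e1 : H b.length ≤ H^[i + 1] n₀ := by
        rw [Function.iterate_succ_apply']; exact hH h3
      have e2 : H^[i + 1] n₀ ≤ H^[Bd + 1] n₀ := mono (Nat.succ_le_succ h6)
      by_cases hs : ∀ P, ok P → b ⊆ P → P.length ≤ H b.length → Φ P = Φ b
      · exact ⟨b, h1, h2, e1.trans e2, hs⟩
      · push Not at hs
        obtain ⟨P, a1, a2, a3, a4⟩ := hs
        have e3 := (a3.trans e1).trans e2
        have e4 := hm b P h1 a1 a2 ((hH' _).trans (e1.trans e2)) e3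
        have e5 := hB P a1 e3
        exact ih (i + 1) P a1 (List.Subset.trans h2 a2) (a3.trans e1) (by omega) (by omega) (by omega)
  exact key (Bd + 1) 0 b₀ h₀ (List.Subset.refl _) hl (Nat.zero_le _) (by omega) (Nat.zero_le _)

end Pool.Agent.P.MP_f1a348_lc.LS
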