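import Pool.Agent.P.MP_f1a348_lc.LS.Base
import Pool.Agent.P.MP_f1a348_lc.LS.TSTAB
import Pool.Agent.P.MP_f1a348_lc.LS.TKBD

/-! Step STABK. -/

set_option autoImplicit false
set_option linter.unusedSectionVars false

namespace Pool.Agent.P.MP_f1a348_lc.LS

open Module Submodule

variable {p : ℕ} [Fact p.Prime] {W : Type} [AddCommGroup W] [Module (ZMod p) W] [Fintype W]
  {Γ : Sys p W} {ι : Type} [Fintype ι] {P P' P'' R R' b : List (Pm p W)} {φ ψ : Iso p W}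
  {A B B' D T U U' V : Sub p W} {S X Y : Set W} {a a' c v w x x' y y' z μ : W} {n m r : ℕ}
  {s t : ι} {l l' : List W}

-- `stab` for the potential `Φ P + ∑ s, kap s P`, bound `Bd + ρ * (ρ * K)`
theorem stab_kap (H : ℕ → ℕ) (hH : Monotone H) (hH' : ∀ n, n ≤ H n) (K ρ Bd n₀ : ℕ) :
    ∃ J : ℕ, ∀ (p : ℕ) [Fact p.Prime] (W : Type) [AddCommGroup W] [Module (ZMod p) W] [Fintype W]
      (Γ : Sys p W) (ι : Type) [Fintype ι] (G : Geo Γ ι) (Φ : List (Pm p W) → ℕ), G.K = K →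
      Fintype.card ι ≤ ρ → J + ρ * K * J + 1 ≤ G.j →
      (∀ P P', Γ.Ok J P → Γ.Ok J P' → P ⊆ P' → Φ P ≤ Φ P') → (∀ P, Γ.Ok J P → Φ P ≤ Bd) →
      ∀ b₀, Γ.Ok n₀ b₀ → ∃ b, Γ.Ok b.length b ∧ b₀ ⊆ b ∧ H b.length ≤ J ∧
        G.Stable b (H b.length) ∧ ∀ P, Γ.Ok (H b.length) P → b ⊆ P → Φ P = Φ b := by
  obtain ⟨J, hJ⟩ := stab H hH hH' (Bd + ρ * (ρ * K)) n₀
  refine ⟨J, fun p _ W _ _ _ Γ ι _ G Φ hK hρ hj h1 h2 b₀ h0 => ?_⟩
  have km : ∀ P P' : List (Pm p W), Γ.Ok J P → Γ.Ok J P' → P ⊆ P' → ∀ s, G.kap s P ≤ G.kap s P' :=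
    fun P P' a b c s => G.kap_mono b (by omega) a.1 c s
  have kb : ∀ P : List (Pm p W), Γ.Ok J P → ∑ s, G.kap s P ≤ ρ * (ρ * K) := fun P a => by
    have e : Fintype.card ι * G.K ≤ ρ * K := hK ▸ Nat.mul_le_mul_right _ hρ
    have e' := Nat.mul_le_mul_right J e
    refine (Finset.sum_le_card_nsmul _ _ (ρ * K) fun s _ =>
      (G.kap_le a (by omega) s).trans e).trans ?_
    rw [Finset.card_univ, smul_eq_mul]
    exact Nat.mul_le_mul_right _ hρ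
  obtain ⟨b, b1, b2, b3, b4⟩ := hJ (Pm p W) (fun P => ∀ c ∈ P, Γ.Def c.1)
    (fun P => Φ P + ∑ s, G.kap s P)
    (fun P P' a a' c d d' => add_le_add (h1 P P' ⟨d, a⟩ ⟨d', a'⟩ c)
      (Finset.sum_le_sum fun s _ => km P P' ⟨d, a⟩ ⟨d', a'⟩ c s))
    (fun P a d => add_le_add (h2 P ⟨d, a⟩) (kb P ⟨d, a⟩)) b₀ h0.2 h0.1
  have hb : Γ.Ok J b := ⟨(hH' _).trans b3, b1⟩
  have key : ∀ P, Γ.Ok (H b.length) P → b ⊆ P → Φ P = Φ b ∧ ∀ s, G.kap s P = G.kap s b := by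
    intro P a c
    have a' : Γ.Ok J P := ⟨a.1.trans b3, a.2⟩
    have e1 := b4 P a.2 c a.1
    have e2 := h1 b P hb a' c
    have e3 : ∑ s, G.kap s b ≤ ∑ s, G.kap s P := Finset.sum_le_sum fun s _ => km b P hb a' c s
    refine ⟨by omega, fun s => ((Finset.sum_eq_sum_iff_of_le fun s _ => km b P hb a' c s).1
      (by omega) s (Finset.mem_univ s)).symm⟩
  exact ⟨b, ⟨le_rfl, b1⟩, b2, b3, fun P a c => (key P a c).2, fun P a c => (key P a c).1⟩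

end Pool.Agent.P.MP_f1a348_lc.LS
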