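import Pool.Agent.P.MP_f1a348_lc.LS.DefsF
import Pool.Agent.P.MP_f1a348_lc.LS.TSTABK
import Pool.Agent.P.MP_f1a348_lc.LS.TNBD
import Pool.Agent.P.MP_f1a348_lc.LS.TMKB
import Pool.Agent.P.MP_f1a348_lc.LS.TBS

/-! Step BASE. -/

set_option autoImplicit false
set_option linter.unusedSectionVars false

namespace Pool.Agent.P.MP_f1a348_lc.LS

open Module Submodule

variable {p : ℕ} [Fact p.Prime] {W : Type} [AddCommGroup W] [Module (ZMod p) W] [Fintype W]
  {Γ : Sys p W} {ι : Type} [Fintype ι] {P P' b b' : List (Pm p W)} {φ ψ : Iso p W}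
  {B H T U V Λ : Sub p W} {E X Y Z : Set W} {a a' c o t w x x' y y' z μ μ₀ ξ : W}
  {n k r R : ℕ} {s u : ι} {m : List (ι × W)} {δ q : ℝ}

namespace BASEx

/-- the length of the good base -/
def f (K ρ n : ℕ) : ℕ := (ρ * K + 1) ^ 2 * (n + ρ)

theorem f_mono (K ρ : ℕ) : Monotone (f K ρ) := fun _ _ h =>
  Nat.mul_le_mul_left _ (Nat.add_le_add_right h _)

/-- the range of the stable base -/
def rg (K ρ : ℕ) (H : ℕ → ℕ) (n : ℕ) : ℕ :=
  n + f K ρ n + 2 * (Finset.range (f K ρ n + 1)).sup H + 2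

theorem rg_mono (K ρ : ℕ) (H : ℕ → ℕ) : Monotone (rg K ρ H) := by
  intro a c h
  have h1 : f K ρ a ≤ f K ρ c := f_mono K ρ h
  have h2 : (Finset.range (f K ρ a + 1)).sup H ≤ (Finset.range (f K ρ c + 1)).sup H :=
    Finset.sup_mono (Finset.range_mono (by omega))
  unfold rg
  omega

theorem main (p : ℕ) [Fact p.Prime] (K C ρ : ℕ) (H : ℕ → ℕ) (hH : ∀ n, n ≤ H n) :
    ∃ j : ℕ, ∀ (W : Type) [AddCommGroup W]
    [Module (ZMod p) W] [Fintype W] (Γ : Sys p W) (ι : Type) [Fintype ι] (G : Den Γ ι),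
    G.K = K → G.C = C → G.j = j → Fintype.card ι ≤ ρ → ∃ b, G.Bs b (H b.length) := by
  obtain ⟨J, hJ⟩ := stab_kap (rg K ρ H) (rg_mono K ρ H) (fun n => by unfold rg; omega) K ρ
    (ρ * p ^ (K + 1)) 0
  refine ⟨J + ρ * K * J + K * J + C + 9, ?_⟩
  intro W _ _ _ Γ ι _ G hK hC hj hρ
  have hmono : ∀ P P' : List (Pm p W), Γ.Ok J P → Γ.Ok J P' → P ⊆ P' →
      ∑ s, G.nu s P ≤ ∑ s, G.nu s P' := fun P P' hP hP' hs =>
    Finset.sum_le_sum fun s _ => G.nu_mono hP' (by omega) hP.1 hs s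
  have hbd : ∀ P : List (Pm p W), Γ.Ok J P → ∑ s, G.nu s P ≤ ρ * p ^ (K + 1) := by
    intro P hP
    have h1 : ∑ s, G.nu s P ≤ ∑ _s : ι, p ^ (K + 1) := Finset.sum_le_sum fun s _ => by
      have := G.nu_le hP (by rw [hK, hC]; omega) s
      rwa [hK] at this
    rw [Finset.sum_const, Finset.card_univ, smul_eq_mul] at h1
    exact h1.trans (Nat.mul_le_mul_right _ hρ)
  obtain ⟨b, hb, -, hr, hst, hnu⟩ := hJ p W Γ ι G.toGeo (fun P => ∑ s, G.nu s P) hK hρ
    (by omega) hmono hbd [] (Γ.ok_nil 0)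
  have hlen : b.length + 2 ≤ rg K ρ H b.length := by unfold rg; omega
  have hS : G.St b (rg K ρ H b.length) := by
    refine ⟨hb, hlen, by omega, hst, ?_⟩
    intro P hP hs s
    have h1 : ∀ s ∈ (Finset.univ : Finset ι), G.nu s b ≤ G.nu s P := fun s _ =>
      G.nu_mono hP (by omega) (by omega) hs s
    have h2 := (Finset.sum_eq_sum_iff_of_le h1).1 (hnu P hP hs).symm s (Finset.mem_univ s)
    exact h2.symm
  have hf : (Fintype.card ι * G.K + 1) ^ 2 * (b.length + Fintype.card ι) ≤ f K ρ b.length := by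
    unfold f
    rw [hK]
    exact Nat.mul_le_mul (Nat.pow_le_pow_left (Nat.add_le_add_right (Nat.mul_le_mul_right _ hρ) 1) 2)
      (Nat.add_le_add_left hρ _)
  obtain ⟨b', hs, hb', hl, hd, hw, hx⟩ := hS.mkb (by unfold rg; omega)
  have hg : H b'.length ≤ (Finset.range (f K ρ b.length + 1)).sup H :=
    Finset.le_sup (f := H) (Finset.mem_range.2 (by omega))
  exact ⟨b', hS.bs (hb'.mono (hH _)) (by unfold rg; omega) hs hd hw hx⟩

end BASEx

-- `f n = (ρ K + 1) ^ 2 (n + ρ)`, `H' n = n + f n + 2 * (range (f n + 1)).sup H + 2`; `stab_kap H'` with `Φ P = ∑ s, nu s P`, `Bd = ρ * p ^ (K + 1)`,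
-- `n₀ = 0`; `j = J + ρ K J + K J + C + 9`; `nu_mono`, `nu_le`; equal sums and `nu_mono` give the field `nu`; `mkb`, `bs`
theorem base : BASE := by
  intro p _ K C ρ H hH
  exact BASEx.main p K C ρ H hH

end Pool.Agent.P.MP_f1a348_lc.LS
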