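import Pool.Agent.P.MP_f1a348_lc.LS.DefsB
import Pool.Agent.P.MP_f1a348_lc.LS.TLINT
import Pool.Agent.P.MP_f1a348_lc.LS.TEQV

/-! Step FREE1. -/

set_option autoImplicit false
set_option linter.unusedSectionVars false

namespace Pool.Agent.P.MP_f1a348_lc.LS

open Module Submodule

variable {p : ℕ} [Fact p.Prime] {W : Type} [AddCommGroup W] [Module (ZMod p) W] [Fintype W]
  {Γ : Sys p W} {ι : Type} [Fintype ι] {G : Den Γ ι} {P P' Q b : List (Pm p W)} {φ ψ : Iso p W}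
  {A₀ B₀ Λ U V : Sub p W} {a c o o' t w w' x₀ y₀ z μ : W} {n k r R : ℕ} {s u : ι}
  {m m' v v' : List (ι × W)} {A I J : Type} [Fintype I] {B B' : I → Sub p W}
  {e e' x x' y y' z' S : I → W} {so : I → ι} {σ τ τ' : Equiv.Perm I} {l : List I}

-- if `x₀ ∈ Lam s (v b)`: `Bs.dcl`, `cls_add`. Otherwise `x₀, y₀ ∉ Lam s (v P)` (`lint`, `split`, `Bs.ort`, `ND P`),
-- `y₀ - x₀ ∈ Ann s (v P)` (`lint`, `perp_sup`, `PW.sub_mem_Ann`), `Bs.st` with `cls_mono`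
theorem Den.Bs.free1 (h : G.Bs b R) (hP : Γ.Ok n P) (hs : b ⊆ P) (hb : b.length ≤ n)
    (hd : G.ND P) (hv : G.InAnn v P) (hn : v.length + n ≤ R) (hx : x₀ ∈ G.Ann s P)
    (hy : y₀ ∈ G.Ann s P) (hc : y₀ ∈ Γ.cls (G.tp v ++ b) (G.lo s) x₀) :
    y₀ ∈ Γ.cls (G.tp v ++ P) (G.lo s) x₀ := by
  have hR := h.hR
  have hPj : Γ.Ok G.j P := hP.mono (by omega)
  have hbn : Γ.Ok n b := hP.of_subset hs hb
  have hbj : Γ.Ok G.j b := hbn.mono (by omega)
  have o1 : Γ.Ok G.j (G.tp v ++ b) := (G.ok_tp hbn v).mono (by omega)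
  have o2 : Γ.Ok R (G.tp v ++ P) := (G.ok_tp hP v).mono hn
  have hvb : G.InAnn v b := hv.anti hbj hPj hs
  have pw : G.PW (G.tp v ++ b) := h.dcl v hvb (by omega)
  by_cases h0 : x₀ ∈ G.Lam s (G.tp v ++ b)
  · refine Sys.cls_add (Γ.self_mem_cls _ _ x₀) ?_
    simpa using (G.lo s).neg_mem (pw s x₀ h0 y₀ hc)
  have key : ∀ z ∈ G.Ann s P, z ∉ G.Lam s (G.tp v ++ b) → z ∉ G.Lam s (G.tp v ++ P) := by
    intro z hz h1 h2
    rw [h.lint hP hs hb hvb hn] at h2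
    obtain ⟨a, ha, c, hc, rfl⟩ := mem_sup.1 h2
    obtain ⟨l, l1, l2, l3⟩ := h.split o1 (List.subset_append_right _ _) hc
    have h3 : c - l ∈ G.Ann s P :=
      h.ort P (hP.mono (by omega)) hs v hv (by omega) s ⟨l2, l3⟩
    have h4 : a + l ∈ G.lo s := hd s ⟨add_mem ha (G.mono hbj hPj hs s l1), by
      have := sub_mem hz h3
      rwa [show a + c - (c - l) = a + l by abel] at this⟩
    have h5 := add_mem (G.lo_le s _ o1 h4) l2
    exact h1 (by rwa [show a + l + (c - l) = a + c by abel] at h5)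
  refine h.st _ o2 (List.Subset.trans hs (List.subset_append_right _ _)) s x₀ y₀
    (G.Ann_anti hbj hPj hs s hx)
    (key _ hx h0) (key _ hy (G.not_mem_Lam_cls o1 h0 hc))
    (Sys.cls_mono (List.subset_append_right _ _) _ _ hc) ?_
  rw [Den.Ann, h.lint hP hs hb hvb hn, Γ.perp_sup]
  exact ⟨sub_mem hy hx, pw.sub_mem_Ann o1 (G.Ann_le_hi hPj s hx) hc⟩

end Pool.Agent.P.MP_f1a348_lc.LS
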