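import Pool.Agent.P.MP_f1a348_lc.LS.DefsB
import Pool.Agent.P.MP_f1a348_lc.LS.TFREE1
import Pool.Agent.P.MP_f1a348_lc.LS.TFS

/-! Step FREE. -/

set_option autoImplicit false
set_option linter.unusedSectionVars false

namespace Pool.Agent.P.MP_f1a348_lc.LS

open Module Submodule

variable {p : ℕ} [Fact p.Prime] {W : Type} [AddCommGroup W] [Module (ZMod p) W] [Fintype W]
  {Γ : Sys p W} {ι : Type} [Fintype ι] {G : Den Γ ι} {P P' Q b : List (Pm p W)} {φ ψ : Iso p W}
  {A₀ B₀ Λ U V : Sub p W} {a c o o' t w w' x₀ y₀ z μ : W} {n k r R : ℕ} {s u : ι}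
  {m m' v v' : List (ι × W)} {A I J : Type} [Fintype I] {B B' : I → Sub p W}
  {e e' x x' y y' z' S : I → W} {so : I → ι} {σ τ τ' : Equiv.Perm I} {l : List I}

-- induction on `l`: extend the map of the induction hypothesis to `x i` (`Sim.bij`), its image `x''` lies in `Ann P`;
-- restrict to `b` (`sim_pl`, `Fx.mono`), `Sim.symm`, `Sim.trans` give `y i ∈ cls (pl y l ++ b) x''`; `free1` with `tp_map`
theorem Den.Bs.free (h : G.Bs b R) (hP : Γ.Ok n P) (hs : b ⊆ P) (hb : b.length ≤ n)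
    (hd : G.ND P) (hx : ∀ i ∈ l, x i ∈ G.Ann (so i) P) (hy : ∀ i ∈ l, y i ∈ G.Ann (so i) P)
    (hn : l.length + n ≤ R)
    (hc : Γ.Sim (pl (fun i => G.lo (so i)) x l ++ b) (pl (fun i => G.lo (so i)) y l ++ b)) :
    Γ.Sim (pl (fun i => G.lo (so i)) x l ++ P) (pl (fun i => G.lo (so i)) y l ++ P) := by
  have hR := h.hR
  have hM := G.hM
  have hlo : ∀ i, Γ.Def (G.lo (so i)) := fun i => G.dlo _
  have hbk : Γ.Ok n b := hP.of_subset hs hb
  induction l with
  | nil => exact Sys.Sim.refl Γ P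
  | cons i l ih =>
    rw [List.length_cons] at hn
    rw [pl_cons, pl_cons, List.cons_append, List.cons_append] at hc ⊢
    have hy' : ∀ k ∈ l, y k ∈ G.Ann (so k) P := fun k hk => hy k (List.mem_cons_of_mem _ hk)
    have k1 := hP.pl hlo x l
    obtain ⟨e, he⟩ := (ih (fun k hk => hx k (List.mem_cons_of_mem _ hk)) hy' (by omega)
      hc.tail).bij (by have := k1.1; omega)
    have h1 := he (G.lo (so i)) (x i)
    obtain ⟨φ, hL, hm⟩ := he (G.lo (so i)) (x i)
    obtain ⟨-, m1, m2⟩ := mv_cons.1 hm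
    obtain ⟨m3, m4⟩ := mv_pl.1 m2
    have ha : e (x i) ∈ G.Ann (so i) P := G.cls_Ann (hP.mono (by omega)) (hx i List.mem_cons_self)
      (Sys.mem_cls.2 ⟨φ, Sys.mono hL (sp_mono (List.cons_subset_cons _
        (List.subset_append_right _ _))), m3, m1⟩)
    have h2 : Γ.Sim ((G.lo (so i), x i) :: (pl (fun i => G.lo (so i)) x l ++ b))
        ((G.lo (so i), e (x i)) :: (pl (fun i => G.lo (so i)) y l ++ b)) :=
      ⟨φ, Sys.mono hL (sp_mono (List.cons_subset_cons _ (List.append_subset.2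
        ⟨List.subset_append_left _ _, List.Subset.trans hs (List.subset_append_right _ _)⟩))),
        mv_cons.2 ⟨rfl, m1, mv_pl.2 ⟨m3.mono hs, m4⟩⟩⟩
    have h3 := (h2.symm ((hbk.pl hlo x l).cons (hlo i) _) (by omega)).trans hc
      ((hbk.pl hlo y l).cons (hlo i) _) (by omega)
    have h4 := h.free1 (v := l.map fun k => (so k, y k)) hP hs hb hd
      (fun d hd => by obtain ⟨k, hk, rfl⟩ := List.mem_map.1 hd; exact hy' k hk)
      (by rw [List.length_map]; omega) ha (hy i List.mem_cons_self) (by rw [G.tp_map]; exact h3)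
    rw [G.tp_map] at h4
    exact h1.trans h4 (k1.cons (hlo i) _) (by omega)

theorem Den.Bs.freeF (h : G.Bs b R) (hP : Γ.Ok n P) (hs : b ⊆ P) (hb : b.length ≤ n)
    (hd : G.ND P) (hx : ∀ i, x i ∈ G.Ann (so i) P) (hy : ∀ i, y i ∈ G.Ann (so i) P)
    (hn : Fintype.card I + n ≤ R) (hc : Γ.FS b (fun i => G.lo (so i)) x y) :
    Γ.FS P (fun i => G.lo (so i)) x y := by
  exact Sys.fs_iff.2 (h.free hP hs hb hd (fun i _ => hx i) (fun i _ => hy i)
    (by rwa [Finset.length_toList]) (Sys.fs_iff.1 hc))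

end Pool.Agent.P.MP_f1a348_lc.LS
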