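import Pool.Agent.P.MP_f1a348_lc.LS.DefsB
import Pool.Agent.P.MP_f1a348_lc.LS.TEQV
import Pool.Agent.P.MP_f1a348_lc.LS.TSTAR
import Pool.Agent.P.MP_f1a348_lc.LS.TFS

/-! Step REF. -/

set_option autoImplicit false
set_option linter.unusedSectionVars false

namespace Pool.Agent.P.MP_f1a348_lc.LS

open Module Submodule

variable {p : ℕ} [Fact p.Prime] {W : Type} [AddCommGroup W] [Module (ZMod p) W] [Fintype W]
  {Γ : Sys p W} {ι : Type} [Fintype ι] {G : Den Γ ι} {P P' Q b : List (Pm p W)} {φ ψ : Iso p W}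
  {A₀ B₀ Λ U V : Sub p W} {a c o o' t w w' x₀ y₀ z μ : W} {n k r R : ℕ} {s u : ι}
  {m m' v v' : List (ι × W)} {A I J : Type} [Fintype I] {B B' : I → Sub p W}
  {e e' x x' y y' z' S : I → W} {so : I → ι} {σ τ τ' : Equiv.Perm I} {l : List I}

theorem Rf.of_subset (h : P ⊆ P') : Rf P P' := by
  exact fun d hd => ⟨d, h hd, le_rfl, by rw [sub_self]; exact d.1.zero_mem⟩

theorem Rf.trans (h : Rf P P') (h' : Rf P' Q) : Rf P Q := by
  intro d hd
  obtain ⟨d', h1, h2, h3⟩ := h d hd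
  obtain ⟨d'', h4, h5, h6⟩ := h' d' h1
  exact ⟨d'', h4, h5.trans h2, by simpa using d.1.add_mem (h2 h6) h3⟩

theorem Rf.append {Q' : List (Pm p W)} (h : Rf P P') (h' : Rf Q Q') : Rf (P ++ Q) (P' ++ Q') := by
  intro d hd
  rcases List.mem_append.1 hd with hd | hd
  · exact (h d hd).imp fun _ e => ⟨List.mem_append_left _ e.1, e.2⟩
  · exact (h' d hd).imp fun _ e => ⟨List.mem_append_right _ e.1, e.2⟩

theorem Rf.cons (h : Rf P P') (hw : ∃ d ∈ P', d.1 ≤ U ∧ d.2 - w ∈ U) : Rf ((U, w) :: P) P' := by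
  intro d hd
  rcases List.mem_cons.1 hd with rfl | hd
  · exact hw
  · exact h d hd

theorem rf_fam (hB : ∀ i, B' i ≤ B i) (h : ∀ i, y i - x i ∈ B i) : Rf (fam B x) (fam B' y) := by
  intro d hd
  obtain ⟨i, rfl⟩ := mem_fam.1 hd
  exact ⟨(B' i, y i), mem_fam.2 ⟨i, rfl⟩, hB i, h i⟩

-- `φ c - c = (φ (c - c') - (c - c')) + (φ c' - c')`, `Def.map`
theorem Rf.fx (h : Rf P P') (hP : Γ.Ok n P) (hL : Γ.L U φ) (hU : sp P ≤ U) (hU' : sp P' ≤ U)
    (hf : Fx φ P') : Fx φ P := by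
  intro d hd
  obtain ⟨d', h1, h2, h3⟩ := h d hd
  have h4 := (hP.2 d hd).map hL (sub_mem (hU' (mem_sp h1)) (hU (mem_sp hd))) h3
  have h5 := d.1.sub_mem (h2 (hf d' h1)) (d.1.sub_mem h4 h3)
  have e : φ d'.2 - d'.2 - (φ (d'.2 - d.2) - (d'.2 - d.2)) = φ d.2 - d.2 := by
    rw [map_sub]; abel
  rwa [e] at h5

-- extend the map to `sp P` (`extU`), `Rf.fx`
theorem Rf.cls (h : Rf P P') (hP : Γ.Ok n P) (hP' : P'.length ≤ n) (hn : 2 * n + 1 ≤ Γ.M)
    (U : Sub p W) (w : W) : Γ.cls P' U w ⊆ Γ.cls P U w := by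
  intro y hy
  obtain ⟨φ, h1, h2, h3⟩ := Sys.mem_cls.1 hy
  have r1 := finrank_sp ((U, w) :: P')
  have r2 := finrank_sp P
  have r3 := hP.1
  rw [List.length_cons] at r1
  obtain ⟨ψ, h4, h5⟩ := Sys.extU h1 (sp P) (by omega)
  have h6 : sp P' ≤ sp ((U, w) :: P') := sp_mono (List.subset_cons_self _ _)
  have h7 : w ∈ sp ((U, w) :: P') := mem_sp (e := (U, w)) List.mem_cons_self
  have h8 : Fx ψ P := h.fx hP h4 le_sup_right (h6.trans le_sup_left) fun d hd => by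
    rw [h5 _ (h6 (mem_sp hd))]; exact h2 d hd
  refine Sys.cls_add (Sys.map_mem_cls h4 le_sup_right h8 (mem_sup_left h7) U) ?_
  rwa [h5 w h7]

-- `small`, `alg`
theorem Den.lam_of_cls (G : Den Γ ι) (hP : Γ.Ok G.j P) (hP' : Γ.Ok G.j P')
    (h : ∀ U w, Γ.cls P' U w ⊆ Γ.cls P U w) (s : ι) : G.Lam s P ≤ G.Lam s P' := by
  intro x hx
  refine G.alg hP' (G.le_hi s P hP hx) ((Set.ncard_le_ncard (h _ x)).trans
    ((G.small hP hx).trans (Nat.mul_le_mul_right _ ?_)))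
  exact Nat.le_self_pow (by norm_num) _

theorem Rf.lam (h : Rf P P') (G : Den Γ ι) (hP : Γ.Ok G.j P) (hP' : Γ.Ok G.j P') (s : ι) :
    G.Lam s P ≤ G.Lam s P' := by
  have := G.hM
  exact G.lam_of_cls hP hP' (h.cls hP hP'.1 (by omega)) s

theorem Den.PW.refine (h : G.PW P) (hr : Rf P P') (hs : G.Same P' P) (hP : Γ.Ok G.j P)
    (hP' : Γ.Ok G.j P') : G.PW P' := by
  intro s x hx y hy
  have := G.hM
  exact h s x (hs s ▸ hx) y (hr.cls hP hP'.1 (by omega) _ _ hy)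

theorem Den.PW.fixes (h : G.PW P) (hx : c ∈ G.Lam s P) : Γ.Fixes P (G.lo s) c := by
  exact fun V φ h1 h2 h3 h4 => h.map h1 h2 h3 h4 hx

theorem Sys.Pinned.fixes (h : Γ.Pinned B₀ A₀) (P : List (Pm p W)) (hc : c ∈ A₀) :
    Γ.Fixes P B₀ c := by
  exact fun V φ h1 _ _ h4 => h c hc _ (Sys.map_mem_cls h1 (by rw [sp_nil]; exact bot_le)
    (fun _ e => absurd e List.not_mem_nil) h4 B₀)

theorem Den.Same.refl (G : Den Γ ι) (P : List (Pm p W)) : G.Same P P := by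
  exact fun _ => rfl

theorem Den.Same.symm (h : G.Same P P') : G.Same P' P := by
  exact fun s => (h s).symm

theorem Den.Same.trans (h : G.Same P P') (h' : G.Same P' Q) : G.Same P Q := by
  exact fun s => (h s).trans (h' s)

/-- between two lists with the same small parts -/
theorem Den.Same.mid (h : G.Same Q P) (h1 : Rf P P') (h2 : Rf P' Q) (hP : Γ.Ok G.j P)
    (hP' : Γ.Ok G.j P') (hQ : Γ.Ok G.j Q) : G.Same P' P := by
  exact fun s => le_antisymm ((h2.lam G hP' hQ s).trans (h s).le) (h1.lam G hP hP' s)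

-- `finrank_Lam_sim`, `Rf.lam`, `Submodule.eq_of_le_of_finrank_eq`
theorem Den.Same.of_sim (h : G.Same P Q) (hs : Γ.Sim P P') (hr : Rf Q P') (hP : Γ.Ok G.j P)
    (hQ : Γ.Ok G.j Q) : G.Same P' Q := by
  refine fun s => (Submodule.eq_of_le_of_finrank_eq (hr.lam G hQ (hs.ok hP) s) ?_).symm
  rw [← h s]
  exact G.finrank_Lam_sim hs hP s

-- pull `x'` back (`Sim.symm`, `Sim.bij`), `mem_Lam_sim`, `mem_Ann_sim`, `Def.map`
theorem Den.ND.of_sim (h : G.ND P) (hs : Γ.Sim P P') (hP : Γ.Ok G.j P) : G.ND P' := by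
  rintro s x ⟨h1, h2⟩
  have hM := G.hM
  have hP' := hs.ok hP
  have r1 := hP'.1
  obtain ⟨e, he⟩ := (hs.symm hP (by omega)).bij (by omega)
  have h3 := he (G.lo s) x
  have h4 : e x ∈ G.lo s := h s ⟨G.mem_Lam_sim h3 hP' h1, G.mem_Ann_sim h3 hP' h2⟩
  obtain ⟨φ, h5, h6⟩ := h3.symm (hP'.cons (G.dlo s) x) (by omega)
  have h7 := (G.dlo s).map h5 (mem_sp (e := (G.lo s, e x)) List.mem_cons_self) h4
  simpa using (G.lo s).sub_mem h7 (mv_cons.1 h6).2.1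

end Pool.Agent.P.MP_f1a348_lc.LS
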