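import Pool.Agent.P.MP_f1a348_lc.LS.DefsB
import Pool.Agent.P.MP_f1a348_lc.LS.TREF

/-! Step FR0T. -/

set_option autoImplicit false
set_option linter.unusedSectionVars false

namespace Pool.Agent.P.MP_f1a348_lc.LS

open Module Submodule

variable {p : ℕ} [Fact p.Prime] {W : Type} [AddCommGroup W] [Module (ZMod p) W] [Fintype W]
  {Γ : Sys p W} {ι : Type} [Fintype ι] {G : Den Γ ι} {P P' Q b : List (Pm p W)} {φ ψ : Iso p W}
  {A₀ B₀ Λ U V : Sub p W} {a c o o' t w w' x₀ y₀ z μ : W} {n k r R : ℕ} {s u : ι}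
  {m m' v v' : List (ι × W)} {A I J : Type} [Fintype I] {B B' : I → Sub p W}
  {e e' x x' y y' z' S : I → W} {so : I → ι} {σ τ τ' : Equiv.Perm I} {l : List I}

-- `ND.of_sim`; for `spn` pull a point back and extend; for `ind` use the inverse map and `Def.map`
theorem Den.Fr0.transport (h : G.Fr0 b so e) (hb : Γ.Ok n b) (hn : Fintype.card I + n ≤ G.j)
    (hs : Γ.FS b (fun i => G.lo (so i)) e e') : G.Fr0 b so e' := by
  have hM := G.hM
  have hD : ∀ i, Γ.Def (G.lo (so i)) := fun i => G.dlo _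
  have hb' : Γ.Ok G.j b := hb.mono (by omega)
  have hP : Γ.Ok G.j (fam (fun i => G.lo (so i)) e ++ b) := (hb.fam hD e).mono hn
  have hP' : Γ.Ok G.j (fam (fun i => G.lo (so i)) e' ++ b) := (hb.fam hD e').mono hn
  have hS := Sys.fs_iff.1 hs
  refine ⟨fun i => ?_, h.nd.of_sim hS hP, fun s w' hw' => ?_, fun s c hc hx => ?_⟩
  · obtain ⟨φ, hL, hf, hφ⟩ := hs
    have h1 : φ (e i) ∈ G.Ann (so i) b := G.map_Ann hL le_sup_left (mv_self.2 hf) hb'
      (mem_sup_right (subset_span ⟨i, rfl⟩)) (h.ann i)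
    have h2 := sub_mem h1 (G.lo_le_Ann hb' _ (hφ i))
    rwa [sub_sub_cancel] at h2
  · obtain ⟨φ, hL, hm⟩ := hS
    have hd : finrank (ZMod p) (sp (fam (fun i => G.lo (so i)) e ++ b)) < Γ.M := by
      have h1 := finrank_sp (fam (fun i => G.lo (so i)) e ++ b)
      have h2 := hP.1
      omega
    obtain ⟨w, φ', hL', he, hw⟩ := Sys.ext_onto hL hd w'
    have hm' : Mv φ' (fam (fun i => G.lo (so i)) e ++ b) (fam (fun i => G.lo (so i)) e' ++ b) :=
      hm.congr he
    have hS : Γ.Sim ((G.lo s, w) :: (fam (fun i => G.lo (so i)) e ++ b))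
        ((G.lo s, w') :: (fam (fun i => G.lo (so i)) e' ++ b)) := by
      refine ⟨φ', Sys.mono hL' ?_, mv_cons.2 ⟨rfl, ?_, hm'⟩⟩
      · rw [sp_cons, sup_comm]
      · rw [hw, sub_self]; exact zero_mem _
    have hS' := hS.symm (hP.cons (G.dlo _) w) (by omega)
    have hwL : w ∈ G.Lam s (fam (fun i => G.lo (so i)) e ++ b) :=
      G.toGeo.mem_Lam_sim hS' hP' hw'
    obtain ⟨l, hl, v, hv, hlv⟩ := mem_sup.1 (h.spn s hwL)
    obtain ⟨hf, hφ⟩ := mv_pl.1 hm'
    have hvU : v ∈ sp (fam (fun i => G.lo (so i)) e ++ b) := by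
      rw [sp_append, sp_fam]
      exact mem_sup_left (span_mono (Set.image_subset_range _ _) hv)
    have hlU : l ∈ sp (fam (fun i => G.lo (so i)) e ++ b) ⊔ span (ZMod p) {w} := by
      rw [eq_sub_of_add_eq hlv]
      exact sub_mem (mem_sup_right (mem_span_singleton_self w)) (mem_sup_left hvU)
    have h1 : φ' l ∈ G.Lam s b := G.toGeo.map_Lam hL'
      ((sp_mono (List.subset_append_right _ _)).trans le_sup_left) (mv_self.2 hf) hb' hlU hl
    have h2 : Den.spn so e s ≤
        (G.Lam s b ⊔ Den.spn so e' s).comap (φ' : W →ₗ[ZMod p] W) := by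
      refine span_le.2 ?_
      rintro _ ⟨i, rfl, rfl⟩
      have h3 : φ' (e i) - e' i ∈ G.Lam (so i) b :=
        G.lo_le _ _ hb' (hφ i (Finset.mem_toList.2 (Finset.mem_univ i)))
      have h4 : e' i ∈ Den.spn (p := p) so e' (so i) := subset_span ⟨i, rfl, rfl⟩
      have h5 := add_mem (mem_sup_left (T := Den.spn so e' (so i)) h3) (mem_sup_right h4)
      rw [sub_add_cancel] at h5
      exact h5
    rw [← hw, ← hlv, map_add]
    exact add_mem (mem_sup_left h1) (h2 hv)
  · obtain ⟨ψ, hL, -, hψ⟩ := hs.symm hb hD (by omega)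
    refine h.ind s c hc ?_
    have h1 : ψ (∑ i, c i • e' i) ∈ G.lo s := Sys.Def.map (G.dlo s) hL
      (mem_sup_right (sum_mem fun i _ => smul_mem _ _ (subset_span ⟨i, rfl⟩))) hx
    have h2 : ∑ i, c i • (ψ (e' i) - e i) ∈ G.lo s := by
      refine sum_mem fun i _ => ?_
      by_cases hi : so i = s
      · exact smul_mem _ _ (hi ▸ hψ i)
      · rw [hc i hi, zero_smul]; exact zero_mem _
    have h3 := sub_mem h1 h2
    simpa only [map_sum, map_smul, smul_sub, Finset.sum_sub_distrib, sub_sub_cancel] using h3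

end Pool.Agent.P.MP_f1a348_lc.LS
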