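import Pool.Agent.P.MP_f1a348_lc.LS.DefsB
import Pool.Agent.P.MP_f1a348_lc.LS.TLINT
import Pool.Agent.P.MP_f1a348_lc.LS.TFR0T

/-! Step OCJ. -/

set_option autoImplicit false
set_option linter.unusedSectionVars false

namespace Pool.Agent.P.MP_f1a348_lc.LS

open Module Submodule

variable {p : ℕ} [Fact p.Prime] {W : Type} [AddCommGroup W] [Module (ZMod p) W] [Fintype W]
  {Γ : Sys p W} {ι : Type} [Fintype ι] {G : Den Γ ι} {P P' Q b : List (Pm p W)} {φ ψ : Iso p W}
  {A₀ B₀ Λ U V : Sub p W} {a c o o' t w w' x₀ y₀ z μ : W} {n k r R : ℕ} {s u : ι}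
  {m m' v v' : List (ι × W)} {A I J : Type} [Fintype I] {B B' : I → Sub p W}
  {e e' x x' y y' z' S : I → W} {so : I → ι} {σ τ τ' : Equiv.Perm I} {l : List I}

theorem Den.OC.mono {T : A × I → W} {la la' : List A} (h : G.OC b so e T la) (hs : la' ⊆ la) :
    G.OC b so e T la' := by
  exact ⟨fun a ha => h.sim a (hs ha), fun a ha a' ha' => h.ort a (hs ha) a' (hs ha')⟩

theorem Den.OC.fr0 {T : A × I → W} {la : List A} (h : G.OC b so e T la) (he : G.Fr0 b so e)
    (hb : Γ.Ok n b) (hn : Fintype.card I + n ≤ G.j) {a : A} (ha : a ∈ la) :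
    G.Fr0 b so fun i => T (a, i) := by
  exact he.transport hb hn (h.sim a ha)

-- induction on `la`: `pl_idx_cons`, `tp_map`, `lint`, `ndadd`
theorem Den.Bs.ocj {T : A × I → W} {la : List A} (h : G.Bs b R) (he : G.Fr0 b so e)
    (hT : G.OC b so e T la) (hl : la.Nodup) (hn : la.length * Fintype.card I + b.length ≤ R) :
    G.ND (pl (fun d => G.lo (so d.2)) T (idx I la) ++ b) ∧
    (∀ s, G.Lam s (pl (fun d => G.lo (so d.2)) T (idx I la) ++ b) = G.Lam s b ⊔
      ⨆ a ∈ la, G.Lam s (fam (fun i => G.lo (so i)) (fun i => T (a, i)) ++ b)) ∧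
    ∀ s w, w ∈ G.Ann s b →
      (∀ a ∈ la, w ∈ G.Ann s (fam (fun i => G.lo (so i)) (fun i => T (a, i)) ++ b)) →
      w ∈ G.Ann s (pl (fun d => G.lo (so d.2)) T (idx I la) ++ b) := by
  have key : ∀ (P : List (Pm p W)) (la : List A), (∀ s, G.Lam s P = G.Lam s b ⊔
      ⨆ a ∈ la, G.Lam s (fam (fun i => G.lo (so i)) (fun i => T (a, i)) ++ b)) →
      ∀ s w, w ∈ G.Ann s b →
        (∀ a ∈ la, w ∈ G.Ann s (fam (fun i => G.lo (so i)) (fun i => T (a, i)) ++ b)) →
        w ∈ G.Ann s P := by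
    intro P la h2 s w h3 h4
    have : G.Lam (G.star s) P ≤ LinearMap.ker (Γ.β.flip w) := by
      rw [h2]
      exact sup_le (fun y hy => G.mem_Ann.1 h3 y hy)
        (iSup₂_le fun a ha y hy => G.mem_Ann.1 (h4 a ha) y hy)
    exact G.mem_Ann.2 this
  induction la with
  | nil => exact ⟨h.nd, fun s => by simp [idx, pl], fun s w h1 _ => h1⟩
  | cons a la ih =>
    rw [List.length_cons, add_one_mul] at hn
    obtain ⟨i1, i2, i3⟩ := ih (hT.mono (List.subset_cons_self _ _)) hl.of_cons (by omega)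
    have hR := h.hR
    have f0 := hT.fr0 he h.ok.len (by omega) List.mem_cons_self
    have hP : Γ.Ok (la.length * Fintype.card I + b.length)
        (pl (fun d => G.lo (so d.2)) T (idx I la) ++ b) := by
      refine Sys.Ok.append ⟨by rw [pl, List.length_map, length_idx], fun c hc => ?_⟩ h.ok.len
      obtain ⟨d, -, rfl⟩ := List.mem_map.1 hc
      exact G.dlo _
    have hv : fam (fun i => G.lo (so i)) (fun i => T (a, i)) =
        G.tp ((Finset.univ : Finset I).toList.map fun i => (so i, T (a, i))) :=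
      (G.tp_map so (fun i => T (a, i)) _).symm
    have hlen : ((Finset.univ : Finset I).toList.map fun i => (so i, T (a, i))).length =
        Fintype.card I := by simp
    have a1 : G.InAnn ((Finset.univ : Finset I).toList.map fun i => (so i, T (a, i))) b := by
      intro x hx
      obtain ⟨i, -, rfl⟩ := List.mem_map.1 hx
      exact f0.ann i
    have a2 : G.InAnn ((Finset.univ : Finset I).toList.map fun i => (so i, T (a, i)))
        (pl (fun d => G.lo (so d.2)) T (idx I la) ++ b) := by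
      intro x hx
      obtain ⟨i, -, rfl⟩ := List.mem_map.1 hx
      exact i3 _ _ (f0.ann i) fun a' ha' => hT.ort a List.mem_cons_self a'
        (List.mem_cons_of_mem _ ha') (fun e => (List.nodup_cons.1 hl).1 (e ▸ ha')) i
    have hs : b ⊆ pl (fun d => G.lo (so d.2)) T (idx I la) ++ b := List.subset_append_right _ _
    have e2 : ∀ s, G.Lam s (pl (fun d => G.lo (so d.2)) T (idx I (a :: la)) ++ b) = G.Lam s b ⊔
        ⨆ a' ∈ a :: la, G.Lam s (fam (fun i => G.lo (so i)) (fun i => T (a', i)) ++ b) := by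
      intro s
      rw [pl_idx_cons, List.append_assoc, hv, h.lint hP hs (by omega) a1 (by omega), i2, ← hv,
        sup_assoc]
      simp only [List.mem_cons, iSup_or, iSup_sup_eq, iSup_iSup_eq_left]
      rw [sup_comm (G.Lam s (fam _ _ ++ b))]
    refine ⟨?_, e2, key _ _ e2⟩
    rw [pl_idx_cons, List.append_assoc, hv]
    exact h.ndadd hP hs (by omega) i1 a2 (by omega) (hv ▸ f0.nd)

end Pool.Agent.P.MP_f1a348_lc.LS
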