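import Pool.Agent.P.MP_f1a348_lc.LS.DefsB
import Pool.Agent.P.MP_f1a348_lc.LS.TOCJ
import Pool.Agent.P.MP_f1a348_lc.LS.TFREE

/-! Step EXG. -/

set_option autoImplicit false
set_option linter.unusedSectionVars false

namespace Pool.Agent.P.MP_f1a348_lc.LS

open Module Submodule

variable {p : ℕ} [Fact p.Prime] {W : Type} [AddCommGroup W] [Module (ZMod p) W] [Fintype W]
  {Γ : Sys p W} {ι : Type} [Fintype ι] {G : Den Γ ι} {P P' Q b : List (Pm p W)} {φ ψ : Iso p W}
  {A₀ B₀ Λ U V : Sub p W} {a c o o' t w w' x₀ y₀ z μ : W} {n k r R : ℕ} {s u : ι}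
  {m m' v v' : List (ι × W)} {A I J : Type} [Fintype I] {B B' : I → Sub p W}
  {e e' x x' y y' z' S : I → W} {so : I → ι} {σ τ τ' : Equiv.Perm I} {l : List I}

namespace EXGx

theorem okpl {D : J → Sub p W} (h : Γ.Ok n P) (hD : ∀ i, Γ.Def (D i)) (X : J → W) (L : List J) :
    Γ.Ok (L.length + n) (pl D X L ++ P) := by
  refine ⟨?_, fun c hc => ?_⟩
  · have := h.1
    simp only [pl, List.length_append, List.length_map]
    omega
  · rcases List.mem_append.1 hc with hc | hc
    · obtain ⟨i, -, rfl⟩ := List.mem_map.1 hc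
      exact hD i
    · exact h.2 c hc

theorem fx_of {D : J → Sub p W} {X Y : J → W} (L : List J)
    (h : Mv φ (pl D X L ++ P) (pl D Y L ++ P)) : Fx φ P := by
  induction L with
  | nil => exact mv_self.1 h
  | cons i L ih => exact ih (mv_cons.1 h).2.2

end EXGx

-- induction on `la`; `T' = fun d => T (g d.1, d.2)` is again a family of orthogonal copies; extend the map of the induction
-- hypothesis to the row `a`, its image `y` lies in `Ann` of the join of `T'` (`ocj`, `map_Ann`), `freeF` for `y` and the row `g a`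
theorem Den.Bs.exg {T : A × I → W} (h : G.Bs b R) (he : G.Fr0 b so e)
    (hT : ∀ la, G.OC b so e T la) {g : A → A} (hg : Function.Injective g) (la : List A)
    (hl : la.Nodup) (hn : la.length * Fintype.card I + b.length ≤ R) :
    Γ.Sim (pl (fun d => G.lo (so d.2)) T (idx I la) ++ b)
      (pl (fun d => G.lo (so d.2)) (fun d => T (g d.1, d.2)) (idx I la) ++ b) := by
  have hT' : ∀ la, G.OC b so e (fun d : A × I => T (g d.1, d.2)) la := fun la =>
    ⟨fun a _ => (hT [g a]).sim (g a) (by simp), fun a _ a' _ hne i =>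
      (hT [g a, g a']).ort (g a) (by simp) (g a') (by simp) (hg.ne hne) i⟩
  have hR := h.hR
  have hM := G.hM
  have hb : Γ.Ok b.length b := h.ok.len
  have hB : ∀ i, Γ.Def (G.lo (so i)) := fun i => G.dlo _
  induction la with
  | nil => exact Sys.Sim.refl Γ b
  | cons a la ih =>
    have hla : la.Nodup := (List.nodup_cons.1 hl).2
    have hna : a ∉ la := (List.nodup_cons.1 hl).1
    have hn1 : Fintype.card I + (la.length * Fintype.card I + b.length) ≤ R := by
      rw [List.length_cons, Nat.succ_mul] at hn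
      omega
    have hn0 : la.length * Fintype.card I + b.length ≤ R := by omega
    have key : ∀ {T₁ : A × I → W}, (∀ la, G.OC b so e T₁ la) →
        Γ.Ok (la.length * Fintype.card I + b.length)
          (pl (fun d => G.lo (so d.2)) T₁ (idx I la) ++ b) ∧
        G.ND (pl (fun d => G.lo (so d.2)) T₁ (idx I la) ++ b) ∧
        ∀ i, T₁ (a, i) ∈ G.Ann (so i) (pl (fun d => G.lo (so d.2)) T₁ (idx I la) ++ b) := by
      intro T₁ h₁
      obtain ⟨k1, -, k3⟩ := h.ocj he (h₁ la) hla hn0
      refine ⟨?_, k1, fun i => k3 _ _ ?_ fun a' ha' => ?_⟩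
      · have := EXGx.okpl (D := fun d : A × I => G.lo (so d.2)) hb (fun d => G.dlo _) T₁ (idx I la)
        rwa [length_idx] at this
      · exact ((h₁ [a]).fr0 he hb (by omega) (a := a) (by simp)).ann i
      · exact (h₁ (a :: la)).ort a (by simp) a' (by simp [ha'])
          (fun e => hna (e ▸ ha')) i
    obtain ⟨ok1, -, an1⟩ := key hT
    obtain ⟨ok2, nd2, an2⟩ := key hT'
    obtain ⟨φ₀, hL₀, hm₀⟩ := ih hla hn0
    obtain ⟨φ, hL, hφ⟩ := Sys.extP hL₀ (fam (fun i => G.lo (so i)) fun i => T (a, i)) (by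
      have := ok1.1
      rw [length_fam]
      omega)
    have hm := hm₀.congr hφ
    have hxs : ∀ i, T (a, i) ∈ sp ((fam (fun i => G.lo (so i)) fun i => T (a, i)) ++
        (pl (fun d => G.lo (so d.2)) T (idx I la) ++ b)) := fun i =>
      mem_sp (e := (G.lo (so i), T (a, i))) (List.mem_append_left _ (mem_fam.2 ⟨i, rfl⟩))
    have hy : ∀ i, φ (T (a, i)) ∈ G.Ann (so i)
        (pl (fun d => G.lo (so d.2)) (fun d : A × I => T (g d.1, d.2)) (idx I la) ++ b) :=
      fun i => G.map_Ann hL (sp_mono (List.subset_append_right _ _)) hm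
        (ok1.mono (by omega)) (hxs i) (an1 i)
    have f1 : Γ.FS b (fun i => G.lo (so i)) (fun i => T (a, i)) fun i => φ (T (a, i)) := by
      refine ⟨φ, Sys.mono hL (sup_le ?_ ?_), EXGx.fx_of _ hm, fun i => by simp⟩
      · exact sp_mono fun c hc => List.mem_append_right _ (List.mem_append_right _ hc)
      · rw [span_le]
        rintro _ ⟨i, rfl⟩
        exact hxs i
    have hk : 2 * (Fintype.card I + b.length) ≤ Γ.M := by omega
    have f2 := (hT [a]).sim a (by simp)
    have f3 := (hT [g a]).sim (g a) (by simp)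
    have f4 := (f1.symm hb hB hk).trans ((f2.symm hb hB hk).trans f3 hb hB hk) hb hB hk
    have f5 := Sys.fs_iff.1 (h.freeF ok2 (List.subset_append_right _ _) (by omega) nd2 hy an2
      hn1 f4)
    have f6 : Γ.Sim ((fam (fun i => G.lo (so i)) fun i => T (a, i)) ++
        (pl (fun d => G.lo (so d.2)) T (idx I la) ++ b))
        ((fam (fun i => G.lo (so i)) fun i => φ (T (a, i))) ++
          (pl (fun d => G.lo (so d.2)) (fun d : A × I => T (g d.1, d.2)) (idx I la) ++ b)) := by
      refine ⟨φ, hL, Mv.append ?_ hm⟩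
      have := mv_map φ (fam (fun i => G.lo (so i)) fun i => T (a, i))
      simpa [fam, pl, List.map_map, Function.comp_def] using this
    rw [pl_idx_cons, pl_idx_cons, List.append_assoc, List.append_assoc]
    exact f6.trans f5 (ok1.fam hB _) (by omega)

end Pool.Agent.P.MP_f1a348_lc.LS
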