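import Pool.Agent.P.MP_f1a348_lc.LS.DefsB
import Pool.Agent.P.MP_f1a348_lc.LS.TLINT
import Pool.Agent.P.MP_f1a348_lc.LS.TBAS
import Pool.Agent.P.MP_f1a348_lc.LS.TGEN
import Pool.Agent.P.MP_f1a348_lc.LS.TFS
import Pool.Agent.P.MP_f1a348_lc.LS.TREF

/-! Step FRAME0. -/

set_option autoImplicit false
set_option linter.unusedSectionVars false

namespace Pool.Agent.P.MP_f1a348_lc.LS

open Module Submodule

variable {p : ℕ} [Fact p.Prime] {W : Type} [AddCommGroup W] [Module (ZMod p) W] [Fintype W]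
  {Γ : Sys p W} {ι : Type} [Fintype ι] {G : Den Γ ι} {P P' Q b : List (Pm p W)} {φ ψ : Iso p W}
  {A₀ B₀ Λ U V : Sub p W} {a c o o' t w w' x₀ y₀ z μ : W} {n k r R : ℕ} {s u : ι}
  {m m' v v' : List (ι × W)} {A I J : Type} [Fintype I] {B B' : I → Sub p W}
  {e e' x x' y y' z' S : I → W} {so : I → ι} {σ τ τ' : Equiv.Perm I} {l : List I}

-- `a` from `gen`, `m` from `Bs.rad` at `(lo s, a) :: b` with `X = Ann · b`; `P = tp m ++ (lo s, a) :: b`; `bas` for `X s = Lam s P ⊓ Ann s b`;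
-- `Same (fam e ++ b) P`: both have the small parts of `fam e ++ P` (`idemL`, `mem_Lam_fixed`, `Lam_congr`); `split`
theorem Den.Bs.frame0 [Nonempty ι] (h : G.Bs b R) (hR : (G.cc + 1) ^ 2 * (b.length + 1) ≤ R) :
    ∃ (n : ℕ) (so : Fin n → ι) (e : Fin n → W), 0 < n ∧
      n + b.length ≤ (G.cc + 1) ^ 2 * (b.length + 1) ∧ G.Fr0 b so e := by
  obtain ⟨s⟩ := ‹Nonempty ι›
  have hj := h.hR
  have hb := h.ok.len
  have hc : Fintype.card ι * G.K = G.cc := rfl
  have e1 : (G.cc + 1) ^ 2 * (b.length + 1) = G.cc * (G.cc * (b.length + 1) + (b.length + 1)) +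
      (G.cc * (b.length + 1) + (b.length + 1)) := by ring
  have hbj : Γ.Ok G.j b := hb.mono (by omega)
  obtain ⟨a, ha, ha'⟩ := G.gen hbj s
  have h0 : Γ.Ok (b.length + 1) ((G.lo s, a) :: b) := hb.cons (G.dlo s) a
  obtain ⟨m, hm, hmX, hnd⟩ := h.rad ((G.lo s, a) :: b) (h0.mono (by omega))
    (List.subset_cons_self _ _) (by rw [hc, List.length_cons]; omega) (fun t => G.Ann t b)
    fun t => ⟨G.Ann_le_hi hbj t, (h.nd.hi_le t).trans (by
      rw [sup_comm]
      exact sup_le_sup_left (G.mono hbj (h0.mono (by omega)) (List.subset_cons_self _ _) t) _)⟩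
  rw [hc, List.length_cons] at hm
  have hP := G.ok_tp h0 m
  set P := G.tp m ++ (G.lo s, a) :: b with hPe
  have hPj : Γ.Ok G.j P := hP.mono (by omega)
  have hbP : b ⊆ P := List.subset_append_of_subset_right _ (List.subset_cons_self _ _)
  obtain ⟨n, so, e, hn, he, hX, hi⟩ := G.bas hPj (fun t => G.Lam t P ⊓ G.Ann t b) fun t =>
    ⟨le_inf (G.lo_le t P hPj) (G.lo_le_Ann hbj t), inf_le_left⟩
  have hn' : n ≤ G.cc * (G.cc * (b.length + 1) + (b.length + 1)) :=
    hn.trans (Nat.mul_le_mul_left _ (hP.1.trans (by omega)))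
  have hF : Γ.Ok (n + b.length) (fam (fun i => G.lo (so i)) e ++ b) := by
    simpa using hb.fam (fun i => G.dlo (so i)) e
  have hFj := hF.mono (show n + b.length ≤ G.j by omega)
  have hin : ∀ t x, (G.lo t, x) ∈ P → x ∈ G.Ann t b → x ∈ G.lo t ⊔ Den.spn so e t :=
    fun t x h1 h2 => hX t ⟨G.mem_Lam_pin hPj h1 (G.Ann_le_hi hbj t h2), h2⟩
  have hsp : ∀ t, G.lo t ⊔ Den.spn so e t ≤ G.Lam t (fam (fun i => G.lo (so i)) e ++ b) :=
    fun t => sup_le (G.lo_le t _ hFj) (span_le.2 (by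
      rintro _ ⟨i, rfl, rfl⟩
      exact G.mem_Lam_pin hFj (List.mem_append_left _ (mem_fam.2 ⟨i, rfl⟩))
        (G.Ann_le_hi hbj _ (he i).2)))
  have hS : G.Same P (fam (fun i => G.lo (so i)) e ++ b) := fun u => by
    have h1 := G.idemL (R := fam (fun i => G.lo (so i)) e) hP
      (by rw [length_fam, Fintype.card_fin]; omega) (fun d hd => by
        obtain ⟨i, rfl⟩ := mem_fam.1 hd
        exact ⟨so i, rfl, (he i).1⟩) u
    have h2 := G.idemL (R := G.tp ((s, a) :: m)) hF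
      (by rw [G.length_tp, List.length_cons]; omega) (fun d hd => by
        obtain ⟨x, hx, rfl⟩ := List.mem_map.1 hd
        refine ⟨x.1, rfl, hsp _ ?_⟩
        rcases List.mem_cons.1 hx with rfl | hx
        · exact hin _ _ (by simp [hPe]) ha
        · exact hin _ _ (List.mem_append_left _ (List.mem_map.2 ⟨x, hx, rfl⟩)) (hmX x hx)) u
    rw [← h1, ← h2]
    refine G.Lam_congr ((hP.fam (fun i => G.dlo (so i)) e).mono ?_)
      ((G.ok_tp hF _).mono ?_) (fun d => ?_) (fun d => ?_) u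
    · rw [Fintype.card_fin]; omega
    · rw [List.length_cons]; omega
    · simp only [hPe, G.tp_cons, List.mem_append, List.mem_cons]; tauto
    · simp only [hPe, G.tp_cons, List.mem_append, List.mem_cons]; tauto
  refine ⟨n, so, e, Nat.pos_of_ne_zero ?_, by omega, fun i => (he i).2, hS.nd hnd, fun t w hw => ?_,
    hi⟩
  · rintro rfl
    refine ha' (sup_le (G.lo_le s b hbj) (span_le.2 ?_) (hin s a (by simp [hPe]) ha))
    rintro _ ⟨i, -, -⟩
    exact i.elim0
  · rw [← hS t] at hw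
    obtain ⟨l, hl, h1, h2⟩ := h.split hPj hbP hw
    rw [← add_sub_cancel l w]
    exact add_mem (mem_sup_left hl) (sup_le_sup_right (G.lo_le t b hbj) _ (hX t ⟨h1, h2⟩))

end Pool.Agent.P.MP_f1a348_lc.LS
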