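import Pool.Agent.P.MP_f1a348_lc.LS.DefsB
import Pool.Agent.P.MP_f1a348_lc.LS.TOCJ

/-! Step INDK. -/

set_option autoImplicit false
set_option linter.unusedSectionVars false

namespace Pool.Agent.P.MP_f1a348_lc.LS

open Module Submodule

variable {p : ℕ} [Fact p.Prime] {W : Type} [AddCommGroup W] [Module (ZMod p) W] [Fintype W]
  {Γ : Sys p W} {ι : Type} [Fintype ι] {G : Den Γ ι} {P P' Q b : List (Pm p W)} {φ ψ : Iso p W}
  {A₀ B₀ Λ U V : Sub p W} {a c o o' t w w' x₀ y₀ z μ : W} {n k r R : ℕ} {s u : ι}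
  {m m' v v' : List (ι × W)} {A I J : Type} [Fintype I] {B B' : I → Sub p W}
  {e e' x x' y y' z' S : I → W} {so : I → ι} {σ τ τ' : Equiv.Perm I} {l : List I}

-- fix `a₀`; the part of the sum in the row `a₀` lies in `Lam s (row a₀)` (`mem_Lam_pin`), the other rows lie in `Ann s (row a₀)`; `nd`, `ind`
theorem Den.OC.indep [Fintype A] {T : A × I → W} (hT : ∀ la, G.OC b so e T la)
    (he : G.Fr0 b so e) (hb : Γ.Ok n b) (hn : Fintype.card I + n ≤ G.j) :
    G.Indep (fun d : A × I => so d.2) T := by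
  classical
  rintro s c hc hs ⟨a, i₀⟩
  have F := (hT [a]).fr0 he hb hn (List.mem_singleton_self a)
  have hP := (hb.fam (fun i => G.dlo (so i)) fun i => T (a, i)).mono hn
  have hb' : Γ.Ok G.j b := hb.mono (by omega)
  rw [Fintype.sum_prod_type, ← Finset.add_sum_erase _ _ (Finset.mem_univ a)] at hs
  have h1 : ∑ i, c (a, i) • T (a, i) ∈
      G.Lam s (fam (fun i => G.lo (so i)) (fun i => T (a, i)) ++ b) := by
    refine sum_mem fun i _ => ?_
    by_cases h : so i = s
    · subst h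
      exact smul_mem _ _ (G.toGeo.mem_Lam_pin hP (List.mem_append_left _ (mem_fam.2 ⟨i, rfl⟩))
        (G.Ann_le_hi hb' _ (F.ann i)))
    · rw [hc (a, i) h, zero_smul]
      exact zero_mem _
  have h2 : ∑ a' ∈ Finset.univ.erase a, ∑ i, c (a', i) • T (a', i) ∈
      G.Ann s (fam (fun i => G.lo (so i)) (fun i => T (a, i)) ++ b) := by
    refine sum_mem fun a' ha' => sum_mem fun i _ => ?_
    by_cases h : so i = s
    · subst h
      exact smul_mem _ _ ((hT [a', a]).ort a' (by simp) a (by simp) (Finset.ne_of_mem_erase ha') i)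
    · rw [hc (a', i) h, zero_smul]
      exact zero_mem _
  have h3 := (add_mem_cancel_right h2).1 (G.lo_le_Ann hP s hs)
  exact F.ind s (fun i => c (a, i)) (fun i h => hc (a, i) h) (F.nd s ⟨h1, h3⟩) i₀

-- `T (a', i) ∈ Ann (row a)`; if it were in `Lam ((lo, T (a, i)) :: b) ≤ Lam (row a)` then it lies in `lo`, against `ind` of the row `a'`
theorem Den.OC.gen {T : A × I → W} (hT : ∀ la, G.OC b so e T la) (he : G.Fr0 b so e)
    (hb : Γ.Ok n b) (hn : Fintype.card I + n ≤ G.j) {a a' : A} (ha : a ≠ a') (i : I) :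
    T (a', i) ∉ G.Lam (so i) ((G.lo (so i), T (a, i)) :: b) := by
  classical
  intro h
  have F := (hT [a]).fr0 he hb hn (List.mem_singleton_self a)
  have F' := (hT [a']).fr0 he hb hn (List.mem_singleton_self a')
  have hP := (hb.fam (fun i => G.dlo (so i)) fun i => T (a, i)).mono hn
  have hI : 0 < Fintype.card I := Fintype.card_pos_iff.2 ⟨i⟩
  have h1 := G.toGeo.mono ((hb.cons (G.dlo (so i)) (T (a, i))).mono (by omega)) hP
    (List.cons_subset.2 ⟨List.mem_append_left _ (mem_fam.2 ⟨i, rfl⟩),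
      List.subset_append_right _ _⟩) _ h
  have h2 := F.nd _ ⟨h1, (hT [a', a]).ort a' (by simp) a (by simp) ha.symm i⟩
  have h3 := F'.ind (so i) (Pi.single i 1)
    (fun j hj => Pi.single_eq_of_ne (fun e => hj (congrArg so e)) _)
    (by simpa [Pi.single_apply] using h2) i
  simp at h3

end Pool.Agent.P.MP_f1a348_lc.LS
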