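import Pool.Agent.P.MP_f1a348_lc.LS.DefsB
import Pool.Agent.P.MP_f1a348_lc.LS.TLINT
import Pool.Agent.P.MP_f1a348_lc.LS.TEQ
import Pool.Agent.P.MP_f1a348_lc.LS.TFS

/-! Step COPY. -/

set_option autoImplicit false
set_option linter.unusedSectionVars false

namespace Pool.Agent.P.MP_f1a348_lc.LS

open Module Submodule

variable {p : ℕ} [Fact p.Prime] {W : Type} [AddCommGroup W] [Module (ZMod p) W] [Fintype W]
  {Γ : Sys p W} {ι : Type} [Fintype ι] {G : Den Γ ι} {P P' Q b : List (Pm p W)} {φ ψ : Iso p W}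
  {A₀ B₀ Λ U V : Sub p W} {a c o o' t w w' x₀ y₀ z μ : W} {n k r R : ℕ} {s u : ι}
  {m m' v v' : List (ι × W)} {A I J : Type} [Fintype I] {B B' : I → Sub p W}
  {e e' x x' y y' z' S : I → W} {so : I → ι} {σ τ τ' : Equiv.Perm I} {l : List I}

-- if `x₀ ∈ Lam s (v b)` take `x₀` (`Bs.ort`). Otherwise `x₀ ∈ Ann s b ≤ Ann s (v b) ⊔ Ann s P` (`perp_inf`, `Bs.inf`),
-- so `y - x₀ ∈ Ann s (v b)` for some `y ∈ Ann s P`; `Den.eq` for `tp v ++ b ⊆ tp v ++ P`, `Ann_anti`
theorem Den.Bs.copy1 (h : G.Bs b R) (hP : Γ.Ok n P) (hs : b ⊆ P) (hb : b.length ≤ n)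
    (hd : G.ND P) (hv : G.InAnn v P) (hn : v.length + n ≤ R) (hx : x₀ ∈ G.Ann s b) :
    ∃ y₀ ∈ G.Ann s P, y₀ ∈ Γ.cls (G.tp v ++ b) (G.lo s) x₀ := by
  have hR := h.hR
  by_cases hc : x₀ ∈ G.Lam s (G.tp v ++ b)
  · exact ⟨x₀, h.ort P (hP.mono (by omega)) hs v hv (by omega) s ⟨hc, hx⟩, Γ.self_mem_cls _ _ _⟩
  have h1 : x₀ ∈ G.Ann s (G.tp v ++ b) ⊔ G.Ann s P := by
    rw [Den.Ann, Den.Ann, ← Γ.perp_inf]
    exact LinearMap.BilinForm.orthogonal_le (h.inf hP hs hb hd hv hn _) hx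
  obtain ⟨z, hz, y, hy, e⟩ := mem_sup.1 h1
  have hP' := G.ok_tp hP v
  obtain ⟨x', a1, a2, -⟩ := G.eq (y := y) hP' (by omega)
    (by rw [List.length_append, G.length_tp]; omega) (List.append_subset.2
      ⟨List.subset_append_left _ _, List.Subset.trans hs (List.subset_append_right _ _)⟩)
    (G.Ann_le_hi (h.ok.mono (by omega)) s hx) hc (by
      rw [← e, show y - (z + y) = -z by abel]
      exact neg_mem hz)
  refine ⟨x', ?_, a1⟩
  have := add_mem (G.Ann_anti (hP.mono (by omega)) (hP'.mono (by omega))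
    (List.subset_append_right _ _) s a2) hy
  rwa [sub_add_cancel] at this

theorem COPYx.aux (h : G.Bs b R) (hP : Γ.Ok n P) (hs : b ⊆ P) (hb : b.length ≤ n)
    (hd : G.ND P) (hx : ∀ i, x i ∈ G.Ann (so i) b) (l : List I) (hl : l.Nodup)
    (hn : l.length + n ≤ R) : ∃ y : I → W, (∀ i ∈ l, y i ∈ G.Ann (so i) P) ∧
      Γ.Sim (pl (fun i => G.lo (so i)) x l ++ b) (pl (fun i => G.lo (so i)) y l ++ b) := by
  classical
  have hR := h.hR
  have hM := G.hM
  have hb' : Γ.Ok n b := hP.of_subset hs hb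
  induction l with
  | nil => exact ⟨x, by simp, Sys.Sim.refl _ _⟩
  | cons i l ih =>
    obtain ⟨hi, hl⟩ := List.nodup_cons.1 hl
    rw [List.length_cons] at hn
    obtain ⟨y, hy, φ, hφ, hm⟩ := ih hl (by omega)
    obtain ⟨ψ, hψ, e⟩ := Sys.extP hφ [(G.lo (so i), x i)] (by
      rw [List.length_append, length_pl, List.length_singleton]; omega)
    have hm' := hm.congr e
    have h1 : ψ (x i) ∈ G.Ann (so i) b := G.map_Ann hψ
      (sp_mono (List.Subset.trans (List.subset_append_right _ _) (List.subset_append_right _ _)))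
      (mv_self.2 (mv_pl.1 hm').1) (h.ok.mono (by omega))
      (mem_sp (e := (G.lo (so i), x i)) (by simp)) (hx i)
    obtain ⟨z, hz, hc⟩ := h.copy1 (v := l.map fun i => (so i, y i)) hP hs hb hd (fun d hd => by
      obtain ⟨j, hj, rfl⟩ := List.mem_map.1 hd
      exact hy j hj) (by rw [List.length_map]; omega) h1
    rw [G.tp_map] at hc
    have e1 : ∀ j ∈ l, Function.update y i z j = y j := fun j hj =>
      Function.update_of_ne (fun q : j = i => hi (q ▸ hj)) _ _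
    refine ⟨Function.update y i z, fun j hj => ?_, ?_⟩
    · rcases List.mem_cons.1 hj with rfl | hj
      · rwa [Function.update_self]
      · rw [e1 j hj]
        exact hy j hj
    · rw [pl_cons _ (Function.update y i z), pl_congr e1, Function.update_self]
      refine Sys.Sim.trans ⟨ψ, hψ, mv_cons.2 ⟨rfl, ?_, hm'⟩⟩ hc
        (hb'.pl (fun j => G.dlo (so j)) x (i :: l)) (by rw [List.length_cons]; omega)
      rw [sub_self]
      exact zero_mem _

-- induction on a list `l` of indices without repetition (`Function.update`, `pl_congr`), `Sim.bij`, `copy1`, `Sim.trans`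
theorem Den.Bs.copy (h : G.Bs b R) (hP : Γ.Ok n P) (hs : b ⊆ P) (hb : b.length ≤ n)
    (hd : G.ND P) (hn : Fintype.card I + n ≤ R) (hx : ∀ i, x i ∈ G.Ann (so i) b) :
    ∃ y : I → W, (∀ i, y i ∈ G.Ann (so i) P) ∧ Γ.FS b (fun i => G.lo (so i)) x y := by
  obtain ⟨y, hy, hc⟩ := COPYx.aux h hP hs hb hd hx _ (Finset.nodup_toList Finset.univ)
    (by rwa [Finset.length_toList, Finset.card_univ])
  exact ⟨y, fun i => hy i (by simp), Sys.fs_iff.2 hc⟩

end Pool.Agent.P.MP_f1a348_lc.LS
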