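import Pool.Agent.P.MP_f1a348_lc.LS.DefsB
import Pool.Agent.P.MP_f1a348_lc.LS.TOCJ
import Pool.Agent.P.MP_f1a348_lc.LS.TCOPY

/-! Step OCX. -/

set_option autoImplicit false
set_option linter.unusedSectionVars false

namespace Pool.Agent.P.MP_f1a348_lc.LS

open Module Submodule

variable {p : ℕ} [Fact p.Prime] {W : Type} [AddCommGroup W] [Module (ZMod p) W] [Fintype W]
  {Γ : Sys p W} {ι : Type} [Fintype ι] {G : Den Γ ι} {P P' Q b : List (Pm p W)} {φ ψ : Iso p W}
  {A₀ B₀ Λ U V : Sub p W} {a c o o' t w w' x₀ y₀ z μ : W} {n k r R : ℕ} {s u : ι}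
  {m m' v v' : List (ι × W)} {A I J : Type} [Fintype I] {B B' : I → Sub p W}
  {e e' x x' y y' z' S : I → W} {so : I → ι} {σ τ τ' : Equiv.Perm I} {l : List I}

-- induction on `la`: `copy` over the join of the earlier copies (`ocj`), `Ann_anti`, `orts`; new family `fun d => if d.1 = a then y d.2 else T d`
theorem Den.Bs.ocx (h : G.Bs b R) (he : G.Fr0 b so e) (la : List A) (hl : la.Nodup)
    (hn : (la.length + 1) * Fintype.card I + b.length ≤ R) : ∃ T : A × I → W, G.OC b so e T la := by
  classical
  induction la with
  | nil => exact ⟨fun d => e d.2, ⟨by simp, by simp⟩⟩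
  | cons a la ih =>
    obtain ⟨ha, hl'⟩ := List.nodup_cons.1 hl
    have hR := h.hR
    have hn' : la.length * Fintype.card I + 2 * Fintype.card I + b.length ≤ R := by
      rw [List.length_cons] at hn
      linarith
    obtain ⟨T, hT⟩ := ih hl' (by linarith)
    have hb := h.ok.len
    have hP : Γ.Ok (la.length * Fintype.card I + b.length)
        (pl (fun d : A × I => G.lo (so d.2)) T (idx I la) ++ b) := by
      refine ⟨by rw [List.length_append, pl, List.length_map, length_idx], fun d hd => ?_⟩
      rcases List.mem_append.1 hd with hd | hd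
      · obtain ⟨i, -, rfl⟩ := List.mem_map.1 hd
        exact G.dlo _
      · exact hb.2 d hd
    obtain ⟨y, hy, hs⟩ := h.copy hP (List.subset_append_right _ _) (by omega)
      (h.ocj he hT hl' (by omega)).1 (by omega) he.ann
    have key : ∀ a' ∈ la, ∀ i,
        y i ∈ G.Ann (so i) (fam (fun i => G.lo (so i)) (fun i => T (a', i)) ++ b) := by
      intro a' ha' i
      refine G.Ann_anti ((hb.fam (fun i => G.dlo _) _).mono (by omega)) (hP.mono (by omega))
        (fun d hd => ?_) _ (hy i)
      rcases List.mem_append.1 hd with hd | hd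
      · obtain ⟨i, rfl⟩ := mem_fam.1 hd
        exact List.mem_append_left _ (List.mem_map.2 ⟨(a', i), mem_idx.2 ha', rfl⟩)
      · exact List.mem_append_right _ hd
    have key' : ∀ a' ∈ la, ∀ i, T (a', i) ∈ G.Ann (so i) (fam (fun i => G.lo (so i)) y ++ b) := by
      intro a' ha' i
      have h0 := (hT.fr0 he hb (by omega) ha').ann
      have h1 := h.orts (v := (Finset.univ : Finset I).toList.map fun i => (so i, y i))
        (v' := (Finset.univ : Finset I).toList.map fun i => (so i, T (a', i)))
        (fun d hd => by
          obtain ⟨i, -, rfl⟩ := List.mem_map.1 hd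
          rw [G.tp_map so fun i => T (a', i)]
          exact key a' ha' i)
        (fun d hd => by
          obtain ⟨i, -, rfl⟩ := List.mem_map.1 hd
          exact h0 i)
        (by simp only [List.length_map, Finset.length_toList, Finset.card_univ]; omega)
      rw [G.tp_map so y] at h1
      exact h1 (so i, T (a', i)) (List.mem_map.2 ⟨i, by simp, rfl⟩)
    have ne : ∀ a' ∈ la, a' ≠ a := fun a' h' e => ha (e ▸ h')
    refine ⟨fun d => if d.1 = a then y d.2 else T d, fun a' h' => ?_, fun a' h' a'' h'' hne i => ?_⟩
    · rcases List.mem_cons.1 h' with rfl | h'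
      · simpa using hs
      · simpa [ne a' h'] using hT.sim a' h'
    · rcases List.mem_cons.1 h' with e1 | k' <;> rcases List.mem_cons.1 h'' with e2 | k''
      · exact absurd (e1.trans e2.symm) hne
      · simpa only [e1, ne a'' k'', if_true, if_false] using key a'' k'' i
      · simpa only [e2, ne a' k', if_true, if_false] using key' a' k' i
      · simpa only [ne a' k', ne a'' k'', if_false] using hT.ort a' k' a'' k'' hne i

end Pool.Agent.P.MP_f1a348_lc.LS
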