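import Pool.Agent.P.MP_f1a348_lc.LS.DefsB
import Pool.Agent.P.MP_f1a348_lc.LS.TFRAME0
import Pool.Agent.P.MP_f1a348_lc.LS.TOCX
import Pool.Agent.P.MP_f1a348_lc.LS.TEXG
import Pool.Agent.P.MP_f1a348_lc.LS.TINDK

/-! Step FRAME. -/

set_option autoImplicit false
set_option linter.unusedSectionVars false

namespace Pool.Agent.P.MP_f1a348_lc.LS

open Module Submodule

variable {p : ℕ} [Fact p.Prime] {W : Type} [AddCommGroup W] [Module (ZMod p) W] [Fintype W]
  {Γ : Sys p W} {ι : Type} [Fintype ι] {G : Den Γ ι} {P P' Q b : List (Pm p W)} {φ ψ : Iso p W}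
  {A₀ B₀ Λ U V : Sub p W} {a c o o' t w w' x₀ y₀ z μ : W} {n k r R : ℕ} {s u : ι}
  {m m' v v' : List (ι × W)} {A I J : Type} [Fintype I] {B B' : I → Sub p W}
  {e e' x x' y y' z' S : I → W} {so : I → ι} {σ τ τ' : Equiv.Perm I} {l : List I}

-- `I = ZMod r × Fin n`, `σ = (Equiv.addRight 1).prodCongr (Equiv.refl _)`, `la = univ.toList`; the lists `fam` and `pl .. (idx la)` have the same members
theorem Den.Bs.frame [Nonempty ι] (h : G.Bs b R) (hr : 2 ≤ r)
    (hR : (r + 2) * ((G.cc + 1) ^ 2 * (b.length + 1)) ≤ R) :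
    ∃ (I : Type) (_ : Fintype I) (so : I → ι) (σ : Equiv.Perm I) (x : I → W),
      Fintype.card I ≤ r * ((G.cc + 1) ^ 2 * (b.length + 1)) ∧ σ ^ r = 1 ∧
      G.Fr b so σ (fun i => G.lo (so i)) x := by
  have : Fact (1 < r) := ⟨hr⟩
  have : NeZero r := ⟨by omega⟩
  generalize hc : (G.cc + 1) ^ 2 * (b.length + 1) = c at hR ⊢
  have hR' : r * c + 2 * c ≤ R := by rw [← add_mul]; exact hR
  obtain ⟨n, so, e, hn0, hn, he⟩ := h.frame0 (by rw [hc]; omega)
  rw [hc] at hn
  have hj := h.hR
  have hrn : r * n ≤ r * c := Nat.mul_le_mul_left r (by omega)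
  have hla : (Finset.univ : Finset (ZMod r)).toList.length = r := by simp
  have hnd : (Finset.univ : Finset (ZMod r)).toList.Nodup := Finset.nodup_toList _
  obtain ⟨T, hT0⟩ := h.ocx he _ hnd (by rw [hla, Fintype.card_fin, add_mul]; omega)
  have hT : ∀ la, G.OC b so e T la := fun la => hT0.mono fun a _ => by simp
  have hb : Γ.Ok b.length b := h.ok.len
  have hn1 : Fintype.card (Fin n) + b.length ≤ G.j := by rw [Fintype.card_fin]; omega
  have hn2 : (Finset.univ : Finset (ZMod r)).toList.length * Fintype.card (Fin n) + b.length ≤ R := by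
    rw [hla, Fintype.card_fin]; omega
  have hcard : Fintype.card (ZMod r × Fin n) = r * n := by simp
  have hidx : ∀ d : ZMod r × Fin n, d ∈ idx (Fin n) (Finset.univ : Finset (ZMod r)).toList :=
    fun d => mem_idx.2 (by simp)
  have hfr : ∀ a, G.Fr0 b so fun i => T (a, i) := fun a =>
    (hT [a]).fr0 he hb hn1 (List.mem_singleton_self a)
  have hsame : ∀ s, G.Lam s (fam (fun d : ZMod r × Fin n => G.lo (so d.2)) T ++ b) =
      G.Lam s (pl (fun d => G.lo (so d.2)) T
        (idx (Fin n) (Finset.univ : Finset (ZMod r)).toList) ++ b) := fun s => by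
    refine G.Lam_congr ((hb.fam (fun _ => G.dlo _) T).mono (by rw [hcard]; omega))
      ((hb.pl (fun _ => G.dlo _) T _).mono (by rw [length_idx]; omega)) ?_ ?_ s
    · refine List.append_subset.2 ⟨fun d hd => ?_, List.subset_append_right _ _⟩
      obtain ⟨i, rfl⟩ := mem_fam.1 hd
      exact List.mem_append_left _ (mem_pl.2 ⟨i, hidx i, rfl⟩)
    · exact List.append_subset.2 ⟨fun d hd => List.mem_append_left _ (pl_subset_fam _ _ _ hd),
        List.subset_append_right _ _⟩
  obtain ⟨j1, j2, -⟩ := h.ocj he hT0 hnd hn2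
  refine ⟨ZMod r × Fin n, inferInstance, fun d => so d.2,
    (Equiv.addRight 1).prodCongr (Equiv.refl _), T, by rw [hcard]; exact hrn, ?_,
    fun i => ⟨(G.lay _).1, le_rfl⟩, fun _ => rfl, fun _ => rfl, fun d => (hfr d.1).ann d.2,
    fun s => ?_, ?_, fun s => ?_, Den.OC.indep hT he hb hn1, ?_,
    (0, ⟨0, hn0⟩), Den.OC.gen hT he hb hn1 (a := 0) (a' := 0 + 1) (by simp) _⟩
  · have key : ∀ (k : ℕ) (d : ZMod r × Fin n),
        (((Equiv.addRight 1).prodCongr (Equiv.refl _) : Equiv.Perm (ZMod r × Fin n)) ^ k) d =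
          (d.1 + k, d.2) := by
      intro k
      induction k with
      | zero => intro d; simp
      | succ k ih =>
        intro d
        rw [pow_succ', Equiv.Perm.mul_apply, ih]
        simp [add_assoc]
    ext d : 1
    rw [key]
    simp
  · have := j1 s
    unfold Den.Ann at this ⊢
    rw [hsame, hsame]
    exact this
  · have := h.dcl ((Finset.univ : Finset (ZMod r × Fin n)).toList.map fun d => (so d.2, T d))
      (fun x hx => by
        obtain ⟨d, -, rfl⟩ := List.mem_map.1 hx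
        exact (hfr d.1).ann d.2)
      (by rw [List.length_map, Finset.length_toList, Finset.card_univ, hcard]; omega)
    rw [G.tp_map (fun d : ZMod r × Fin n => so d.2) T] at this
    exact this
  · rw [hsame, j2]
    refine sup_le le_sup_left (iSup₂_le fun a _ => ((hfr a).spn s).trans (sup_le_sup_left ?_ _))
    refine span_mono ?_
    rintro _ ⟨i, hi, rfl⟩
    exact ⟨(a, i), hi, rfl⟩
  · obtain ⟨φ, h1, h2, h3⟩ := Sys.sim_pl.1
      (h.exg he hT (g := fun a => a + 1) (add_left_injective 1) _ hnd hn2)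
    refine ⟨φ, Sys.mono h1 (sup_le (sp_mono (List.subset_append_right _ _)) (span_le.2 ?_)), h2,
      fun d => h3 d (hidx d)⟩
    rintro _ ⟨d, rfl⟩
    exact mem_sp (e := (G.lo (so d.2), T d)) (List.mem_append_left _ (mem_pl.2 ⟨d, hidx d, rfl⟩))

end Pool.Agent.P.MP_f1a348_lc.LS
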