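import Pool.Agent.P.MP_f1a348_lc.LS.DefsB
import Pool.Agent.P.MP_f1a348_lc.LS.TREF

/-! Step FRM. -/

set_option autoImplicit false
set_option linter.unusedSectionVars false

namespace Pool.Agent.P.MP_f1a348_lc.LS

open Module Submodule

variable {p : ℕ} [Fact p.Prime] {W : Type} [AddCommGroup W] [Module (ZMod p) W] [Fintype W]
  {Γ : Sys p W} {ι : Type} [Fintype ι] {G : Den Γ ι} {P P' Q b : List (Pm p W)} {φ ψ : Iso p W}
  {A₀ B₀ Λ U V : Sub p W} {a c o o' t w w' x₀ y₀ z μ : W} {n k r R : ℕ} {s u : ι}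
  {m m' v v' : List (ι × W)} {A I J : Type} [Fintype I] {B B' : I → Sub p W}
  {e e' x x' y y' z' S : I → W} {so : I → ι} {σ τ τ' : Equiv.Perm I} {l : List I}

-- `y i - x i ∈ lo (so i)`; `Same.nd`, `PW.refine`, `Rf.lam`
theorem Den.Fr.modify (h : G.Fr b so σ B x) (hb : Γ.Ok k b) (hk : Fintype.card I + k ≤ G.j)
    (hm : ∀ i, B' i ∈ G.ch ∧ B' i ≤ B i) (hσ : ∀ i, B' (σ i) = B' i) (hy : y ∈ G.Om b B B' x)
    (htw : Γ.FS b B' y (y ∘ σ)) : G.Fr b so σ B' y := by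
  have hbj : Γ.Ok G.j b := hb.mono (by omega)
  have hd : ∀ i, y i - x i ∈ G.lo (so i) := fun i => (h.mem i).2 (hy.1 i)
  have ok1 : Γ.Ok G.j (fam B x ++ b) := (hb.fam (fun i => G.chain.df _ (h.mem i).1) x).mono hk
  have ok2 : Γ.Ok G.j (fam B' y ++ b) := (hb.fam (fun i => G.chain.df _ (hm i).1) y).mono hk
  refine ⟨fun i => ⟨(hm i).1, (hm i).2.trans (h.mem i).2⟩, h.soσ, hσ, fun i => ?_,
    hy.2.symm.nd h.nd, h.pw.refine ((rf_fam (fun i => (hm i).2) hy.1).append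
      (Rf.of_subset (List.Subset.refl _))) hy.2 ok1 ok2, fun s => ?_, fun s c h1 h2 => ?_, htw, ?_⟩
  · simpa using add_mem (G.lo_le_Ann hbj _ (hd i)) (h.ann i)
  · rw [hy.2 s]
    refine (h.spn s).trans (sup_le le_sup_left (span_le.2 ?_))
    rintro _ ⟨i, rfl, rfl⟩
    have h1 : y i ∈ G.Lam (so i) b ⊔ Den.spn so y (so i) := mem_sup_right (subset_span ⟨i, rfl, rfl⟩)
    have h2 : y i - x i ∈ G.Lam (so i) b ⊔ Den.spn so y (so i) :=
      mem_sup_left (G.lo_le _ _ hbj (hd i))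
    simpa using sub_mem h1 h2
  · refine h.ind s c h1 ?_
    have h3 : ∑ i, c i • (y i - x i) ∈ G.lo s := sum_mem fun i _ => by
      by_cases e : so i = s
      · exact smul_mem _ _ (e ▸ hd i)
      · rw [h1 i e, zero_smul]; exact zero_mem _
    simpa [smul_sub, Finset.sum_sub_distrib] using sub_mem h2 h3
  · obtain ⟨i, hi⟩ := h.gen
    refine ⟨i, fun hc => hi ?_⟩
    have hI : 0 < Fintype.card I := Fintype.card_pos_iff.2 ⟨i⟩
    have o1 : ∀ w, Γ.Ok G.j ((G.lo (so i), w) :: b) := fun w =>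
      (hb.cons (G.dlo _) w).mono (by omega)
    have h1 : Rf ((G.lo (so i), y i) :: b) ((G.lo (so i), x i) :: b) :=
      (Rf.of_subset (List.subset_cons_self _ _)).cons
        ⟨_, List.mem_cons_self, le_rfl, by simpa using neg_mem (hd i)⟩
    have h2 := h1.lam G (o1 _) (o1 _) _ hc
    have h3 := G.lo_le _ _ (o1 (x i)) (h.soσ i ▸ hd (σ i))
    simpa using sub_mem h2 h3

theorem Chain.below {C : Finset (Sub p W)} (hC : Chain Γ C) (hU : U ∈ C) (h : U ≠ ⊥) :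
    ∃ V, Layer C V U := by
  classical
  obtain ⟨V, hV, hm⟩ := (C.filter (· < U)).exists_max_image (fun V => finrank (ZMod p) V)
    ⟨⊥, Finset.mem_filter.2 ⟨hC.bot, bot_lt_iff_ne_bot.2 h⟩⟩
  rw [Finset.mem_filter] at hV
  refine ⟨V, hV.1, hU, hV.2, fun U' h1 h2 => ?_⟩
  by_contra h3
  have h4 : U' < U := lt_of_le_not_ge ((hC.tot U hU U' h1).resolve_left h3) h3
  exact absurd (hm U' (Finset.mem_filter.2 ⟨h1, h4⟩)) (not_le.2 (finrank_lt_finrank_of_lt h2))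

theorem Den.Fr.ok (h : G.Fr b so σ B x) (hb : Γ.Ok k b) :
    Γ.Ok (Fintype.card I + k) (fam B x ++ b) := by
  exact hb.fam (fun i => G.chain.df _ (h.mem i).1) x

theorem Den.Fr.mem_Lam (h : G.Fr b so σ B x) (hb : Γ.Ok G.j b) (hP : Γ.Ok G.j P)
    (hs : fam B x ⊆ P) (i : I) : x i ∈ G.Lam (so i) P := by
  refine G.mem_Lam_fixed (R := [(B i, x i)]) hP ?_ ?_ (mem_sup_left ?_) (G.Ann_le_hi hb _ (h.ann i))
  · intro d hd
    rw [List.mem_singleton.1 hd]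
    exact hs (mem_fam.2 ⟨i, rfl⟩)
  · intro d hd
    rw [List.mem_singleton.1 hd]
    exact (h.mem i).2
  · exact mem_sp (e := (B i, x i)) List.mem_cons_self

end Pool.Agent.P.MP_f1a348_lc.LS
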