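import Pool.Agent.P.MP_f1a348_lc.LS.DefsB

/-! Step FIXT. -/

set_option autoImplicit false
set_option linter.unusedSectionVars false

namespace Pool.Agent.P.MP_f1a348_lc.LS

open Module Submodule

variable {p : ℕ} [Fact p.Prime] {W : Type} [AddCommGroup W] [Module (ZMod p) W] [Fintype W]
  {Γ : Sys p W} {ι : Type} [Fintype ι] {G : Den Γ ι} {P P' Q b : List (Pm p W)} {φ ψ : Iso p W}
  {A₀ B₀ Λ U V : Sub p W} {a c o o' t w w' x₀ y₀ z μ : W} {n k r R : ℕ} {s u : ι}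
  {m m' v v' : List (ι × W)} {A I J : Type} [Fintype I] {B B' : I → Sub p W}
  {e e' x x' y y' z' S : I → W} {so : I → ι} {σ τ τ' : Equiv.Perm I} {l : List I}

-- the quotient `X` of `Ω` by `T 0`; `Λ` acts transitively, so `card X` divides `card Λ`, a power of `p`; `T 1` induces `f : X → X` with
-- `f^[r] = id`; `Equiv.Perm.exists_fixed_point_of_prime`
theorem fixt {α : Type} [AddCommGroup α] [Module (ZMod p) α] [Finite α] (hr : r.Prime)
    (hp : r ≠ p) (Ω : Set α) (L : Submodule (ZMod p) α) (T : ℕ → α → α → Prop)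
    (hne : Ω.Nonempty) (hrefl : ∀ x ∈ Ω, T 0 x x)
    (hsymm : ∀ x ∈ Ω, ∀ y ∈ Ω, T 0 x y → T 0 y x)
    (hadd : ∀ i k x y z, T i x y → T k y z → T (i + k) x z)
    (hper : ∀ x y, T r x y → T 0 x y)
    (htot : ∀ x ∈ Ω, ∃ y ∈ Ω, T 1 x y)
    (hfun : ∀ x y y', T 1 x y → T 1 x y' → T 0 y y')
    (hΩ : ∀ x ∈ Ω, ∀ l ∈ L, x + l ∈ Ω)
    (hL : ∀ x ∈ Ω, ∀ y ∈ Ω, ∀ l ∈ L, T 0 x y → T 0 (x + l) (y + l))
    (htr : ∀ x ∈ Ω, ∀ y ∈ Ω, ∃ l ∈ L, T 0 (x + l) y) : ∃ x ∈ Ω, T 1 x x := by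
  classical
  let S : Setoid Ω := ⟨fun x y => T 0 x y, fun x => hrefl x x.2, fun {x y} h => hsymm x x.2 y y.2 h,
    fun h h' => hadd 0 0 _ _ _ h h'⟩
  choose g hg hT using fun x : Ω => htot x x.2
  let g' : Ω → Ω := fun x => ⟨g x, hg x⟩
  let f : Quotient S → Quotient S := Quotient.map g' fun x y h =>
    hfun _ _ _ (hT x) (hadd 0 1 _ _ _ h (hT y))
  have h1 : ∀ n (x : Ω), T n x (g'^[n] x : Ω) ∧ f^[n] ⟦x⟧ = ⟦g'^[n] x⟧ := fun n x => by
    induction n with
    | zero => exact ⟨hrefl x x.2, rfl⟩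
    | succ n ih =>
      rw [Function.iterate_succ_apply', Function.iterate_succ_apply', ih.2]
      exact ⟨hadd n 1 _ _ _ ih.1 (hT _), rfl⟩
  have h2 : f^[r] = id := funext fun q => Quotient.inductionOn q fun x =>
    (h1 r x).2.trans (Quotient.sound (S.symm (hper _ _ (h1 r x).1)))
  have h3 : Function.Injective f := by
    obtain ⟨n, rfl⟩ := Nat.exists_eq_succ_of_ne_zero hr.ne_zero
    exact Function.Injective.of_comp (f := f^[n]) (by
      rw [← Function.iterate_succ, h2]; exact Function.injective_id)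
  let _ : AddAction L (Quotient S) :=
    { vadd := fun l => Quotient.map (fun x => ⟨x + l, hΩ x x.2 l l.2⟩) fun x y h =>
        hL x x.2 y y.2 l l.2 h
      zero_vadd := fun q => Quotient.inductionOn q fun x =>
        congrArg (Quotient.mk S) (Subtype.ext (add_zero x.1))
      add_vadd := fun l l' q => Quotient.inductionOn q fun x =>
        congrArg (Quotient.mk S) (Subtype.ext (show x.1 + (l.1 + l'.1) = x.1 + l'.1 + l.1 by abel)) }
  have : AddAction.IsPretransitive L (Quotient S) := ⟨fun q q' =>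
    Quotient.inductionOn₂ q q' fun x y =>
      let ⟨l, hl, h⟩ := htr x x.2 y y.2
      ⟨⟨l, hl⟩, Quotient.sound h⟩⟩
  obtain ⟨x₁, hx₁⟩ := hne
  have h4 : Nat.card (Quotient S) ∣ p ^ finrank (ZMod p) L := by
    have h5 := Module.natCard_eq_pow_finrank (K := ZMod p) (V := L)
    rw [Nat.card_zmod] at h5
    rw [← AddAction.index_stabilizer_of_transitive L (⟦⟨x₁, hx₁⟩⟧ : Quotient S), ← h5]
    exact AddSubgroup.index_dvd_card _
  have := Fact.mk hr
  let _ := Fintype.ofFinite (Quotient S)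
  obtain ⟨q, hq⟩ := Equiv.Perm.exists_fixed_point_of_prime (p := r) (n := 1)
    (σ := Equiv.ofBijective f (Finite.injective_iff_bijective.1 h3))
    (fun h => hp ((Nat.prime_dvd_prime_iff_eq hr Fact.out).1 (hr.dvd_of_dvd_pow
      (h.trans (Nat.card_eq_fintype_card (α := Quotient S) ▸ h4)))))
    (Equiv.ext fun q => by rw [pow_one, Equiv.Perm.coe_pow]; exact congrFun h2 q)
  obtain ⟨x, rfl⟩ := Quotient.exists_rep q
  exact ⟨x, x.2, hadd 1 0 _ _ _ (hT x) (Quotient.exact hq)⟩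

end Pool.Agent.P.MP_f1a348_lc.LS
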