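import Pool.Agent.P.MP_f1a348_lc.LS.DefsB
import Pool.Agent.P.MP_f1a348_lc.LS.TREF
import Pool.Agent.P.MP_f1a348_lc.LS.TIDEM

/-! Step LOWA. -/

set_option autoImplicit false
set_option linter.unusedSectionVars false

namespace Pool.Agent.P.MP_f1a348_lc.LS

open Module Submodule

variable {p : ℕ} [Fact p.Prime] {W : Type} [AddCommGroup W] [Module (ZMod p) W] [Fintype W]
  {Γ : Sys p W} {ι : Type} [Fintype ι] {G : Den Γ ι} {P P' Q b : List (Pm p W)} {φ ψ : Iso p W}
  {A₀ B₀ Λ U V : Sub p W} {a c o o' t w w' x₀ y₀ z μ : W} {n k r R : ℕ} {s u : ι}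
  {m m' v v' : List (ι × W)} {A I J : Type} [Fintype I] {B B' : I → Sub p W}
  {e e' x x' y y' z' S : I → W} {so : I → ι} {σ τ τ' : Equiv.Perm I} {l : List I}

theorem low_le (h : B₀ ≤ A₀) (B : I → Sub p W) (i : I) : low B₀ A₀ B i ≤ B i := by
  unfold low
  split_ifs with e
  · exact e ▸ h
  · exact le_rfl

theorem low_def (hB : ∀ i, Γ.Def (B i)) (h : Γ.Def B₀) (A₀ : Sub p W) (i : I) :
    Γ.Def (low B₀ A₀ B i) := by
  unfold low
  split_ifs
  · exact h
  · exact hB i

theorem low_perm (h : ∀ i, B (σ i) = B i) (B₀ A₀ : Sub p W) (i : I) :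
    low B₀ A₀ B (σ i) = low B₀ A₀ B i := by
  unfold low
  rw [h]

-- induction on a list `l` of indices without repetition: some `y` has `y i - x i ∈ B i` and `Same (pl B' y l ++ P) P`, `P = fam B x ++ b`
-- (`Lp.ex`, or `Lam_congr` if `B i ≠ A₀`); at the end `Same.mid`
theorem Den.Lp.om_ne (h : G.Lp (fam B x ++ b) n B₀ A₀ Λ) (hb : Γ.Ok k b) (hB : ∀ i, Γ.Def (B i))
    (hn : 2 * Fintype.card I + k ≤ n) (hj : n + 1 ≤ G.j) :
    (G.Om b B (low B₀ A₀ B) x).Nonempty := by
  classical
  have hD := low_def hB h.dB A₀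
  have hP := hb.fam hB x
  have key : ∀ l : List I, l.Nodup → ∃ y : I → W, (∀ i, y i - x i ∈ B i) ∧
      G.Same (pl (low B₀ A₀ B) y l ++ (fam B x ++ b)) (fam B x ++ b) := by
    intro l hl
    induction l with
    | nil => exact ⟨x, fun i => by simp, Den.Same.refl G _⟩
    | cons i l ih =>
      obtain ⟨hi, hl'⟩ := List.nodup_cons.1 hl
      obtain ⟨y, h1, h2⟩ := ih hl'
      have hlen := hl'.length_le_card
      have hO : Γ.Ok n (pl (low B₀ A₀ B) y l ++ (fam B x ++ b)) := (hP.pl hD y l).mono (by omega)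
      have hm : (B i, x i) ∈ fam B x ++ b := List.mem_append_left _ (mem_fam.2 ⟨i, rfl⟩)
      obtain ⟨y₀, a1, a2⟩ : ∃ y₀, y₀ - x i ∈ B i ∧ G.Same ((low B₀ A₀ B i, y₀) ::
          (pl (low B₀ A₀ B) y l ++ (fam B x ++ b))) (pl (low B₀ A₀ B) y l ++ (fam B x ++ b)) := by
        by_cases e : B i = A₀
        · rw [show low B₀ A₀ B i = B₀ from if_pos e, e]
          exact h.ex _ hO (List.subset_append_right _ _) h2 (x i) (e ▸ hm)
        · rw [show low B₀ A₀ B i = B i from if_neg e]
          exact ⟨x i, by simp, fun s => G.Lam_congr ((hO.cons (hB i) _).mono hj)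
            (hO.mono (by omega)) (List.cons_subset.2 ⟨List.mem_append_right _ hm,
              List.Subset.refl _⟩) (List.subset_cons_self _ _) s⟩
      refine ⟨Function.update y i y₀, fun i' => ?_, ?_⟩
      · by_cases e : i' = i
        · subst e
          rwa [Function.update_self]
        · rw [Function.update_of_ne e]
          exact h1 i'
      · rw [pl_cons, Function.update_self, pl_congr (y := y) fun i' hi' =>
          Function.update_of_ne (fun e : i' = i => hi (e ▸ hi')) _ _, List.cons_append]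
        exact a2.trans h2
  obtain ⟨y, h1, h2⟩ := key _ (Finset.nodup_toList Finset.univ)
  refine ⟨y, h1, h2.mid ((rf_fam (low_le h.le B) h1).append (Rf.of_subset (List.Subset.refl _)))
    (Rf.of_subset ?_) (hP.mono (by omega)) ((hb.fam hD y).mono (by omega))
    ((hP.fam hD y).mono (by omega))⟩
  exact List.append_subset.2 ⟨List.subset_append_left _ _,
    List.Subset.trans (List.subset_append_right _ _) (List.subset_append_right _ _)⟩

end Pool.Agent.P.MP_f1a348_lc.LS
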