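import Pool.Agent.P.MP_f1a348_lc.LS.DefsB
import Pool.Agent.P.MP_f1a348_lc.LS.TLOWA

/-! Step LOWB. -/

set_option autoImplicit false
set_option linter.unusedSectionVars false

namespace Pool.Agent.P.MP_f1a348_lc.LS

open Module Submodule

variable {p : ℕ} [Fact p.Prime] {W : Type} [AddCommGroup W] [Module (ZMod p) W] [Fintype W]
  {Γ : Sys p W} {ι : Type} [Fintype ι] {G : Den Γ ι} {P P' Q b : List (Pm p W)} {φ ψ : Iso p W}
  {A₀ B₀ Λ U V : Sub p W} {a c o o' t w w' x₀ y₀ z μ : W} {n k r R : ℕ} {s u : ι}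
  {m m' v v' : List (ι × W)} {A I J : Type} [Fintype I] {B B' : I → Sub p W}
  {e e' x x' y y' z' S : I → W} {so : I → ι} {σ τ τ' : Equiv.Perm I} {l : List I}

namespace LOWBx

theorem tfix (h : G.Lp P n B₀ A₀ Λ) (hB : ∀ i, Γ.Def (B i)) (hL : Γ.L V φ) (hV : sp P ≤ V)
    (hf : Fx φ P) {i : I} (hc : c ∈ low Λ A₀ B i) (hcV : c ∈ V) : φ c - c ∈ low B₀ A₀ B i := by
  unfold low at hc ⊢
  split_ifs at hc ⊢
  · exact h.fix c hc V φ hL hV hf hcV
  · exact sub_mem ((hB i).map hL hcV hc) hc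

theorem rk2 (x t : I → W) : finrank (ZMod p)
    (span (ZMod p) (Set.range x) ⊔ span (ZMod p) (Set.range t) : Sub p W) ≤ 2 * Fintype.card I := by
  have h1 := finrank_range_le (p := p) x
  have h2 := finrank_range_le (p := p) t
  have h3 := Submodule.finrank_add_le_finrank_add_finrank (span (ZMod p) (Set.range x))
    (span (ZMod p) (Set.range t))
  omega

theorem spf : sp (fam B x ++ P) ≤ V ↔ (∀ i, x i ∈ V) ∧ sp P ≤ V := by
  rw [sp_append, sp_fam, sup_le_iff, span_le, Set.range_subset_iff]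
  rfl

theorem fxf : Fx φ (fam B x ++ P) ↔ (∀ i, φ (x i) - x i ∈ B i) ∧ Fx φ P := by
  refine ⟨fun h => ⟨fun i => h (B i, x i) (List.mem_append_left _ (mem_fam.2 ⟨i, rfl⟩)),
    h.mono (List.subset_append_right _ _)⟩, fun h d hd => ?_⟩
  rcases List.mem_append.1 hd with hd | hd
  · obtain ⟨i, rfl⟩ := mem_fam.1 hd
    exact h.1 i
  · exact h.2 d hd

theorem ms (x : I → W) (i : I) : x i ∈ span (ZMod p) (Set.range x) := subset_span ⟨i, rfl⟩

end LOWBx

open LOWBx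

-- `FS.ext` to the `x i` and the `t i`; the map fixes `fam B x ++ b` (`Def.map`), so it fixes `t i` modulo `low B₀ A₀ B i` (`Lp.fix`, `Def.map`)
theorem Den.Lp.fs_add (h : G.Lp (fam B x ++ b) n B₀ A₀ Λ) (hb : Γ.Ok k b) (hB : ∀ i, Γ.Def (B i))
    (hk : Fintype.card I + k ≤ G.j) (hy : ∀ i, y i - x i ∈ B i) (hy' : ∀ i, y' i - x i ∈ B i)
    {t : I → W} (ht : ∀ i, t i ∈ low Λ A₀ B i) (hf : Γ.FS b (low B₀ A₀ B) y y') :
    Γ.FS b (low B₀ A₀ B) (y + t) (y' + t) := by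
  have hM := G.hM
  have hl := hb.1
  have h2 := rk2 (p := p) x t
  obtain ⟨φ, hL, hfb, hφ⟩ := hf.ext (span (ZMod p) (Set.range x) ⊔ span (ZMod p) (Set.range t))
    (by omega)
  set V := sp b ⊔ span (ZMod p) (Set.range y) ⊔
    (span (ZMod p) (Set.range x) ⊔ span (ZMod p) (Set.range t)) with hV
  have hbV : sp b ≤ V := le_sup_left.trans le_sup_left
  have hxV : ∀ i, x i ∈ V := fun i => mem_sup_right (mem_sup_left (ms x i))
  have htV : ∀ i, t i ∈ V := fun i => mem_sup_right (mem_sup_right (ms t i))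
  have hyV : ∀ i, y i ∈ V := fun i => mem_sup_left (mem_sup_right (ms y i))
  have hfx : Fx φ (fam B x ++ b) := fxf.2 ⟨fun i => by
    have := sub_mem (add_mem (low_le h.le B i (hφ i)) (hy' i))
      ((hB i).map hL (sub_mem (hyV i) (hxV i)) (hy i))
    rw [map_sub] at this
    convert this using 1
    abel, hfb⟩
  refine ⟨φ, Sys.mono hL (sup_le hbV (span_le.2 ?_)), hfb, fun i => ?_⟩
  · rintro _ ⟨i, rfl⟩
    exact add_mem (hyV i) (htV i)
  · rw [Pi.add_apply, Pi.add_apply, map_add, add_sub_add_comm]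
    exact add_mem (hφ i) (tfix h hB hL (spf.2 ⟨hxV, hbV⟩) hfx (ht i) (htV i))

-- a map that fixes `fam B' y ++ b` extends to one that fixes `fam B' (y + t) ++ b`; `lam_of_cls`, `Rf.lam`
theorem Den.Lp.om_add (h : G.Lp (fam B x ++ b) n B₀ A₀ Λ) (hb : Γ.Ok k b) (hB : ∀ i, Γ.Def (B i))
    (hk : Fintype.card I + k ≤ G.j) (hy : y ∈ G.Om b B (low B₀ A₀ B) x)
    {t : I → W} (ht : ∀ i, t i ∈ low Λ A₀ B i) : y + t ∈ G.Om b B (low B₀ A₀ B) x := by
  have hM := G.hM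
  have hl := hb.1
  have h2 := rk2 (p := p) x t
  have hB' := low_def hB h.dB A₀
  have hle := low_le h.le B
  have h1 : ∀ i, (y + t) i - x i ∈ B i := fun i => by
    rw [Pi.add_apply, add_sub_right_comm]
    exact add_mem (hy.1 i) (low_le h.ΛA B i (ht i))
  have ok := fun v => (hb.fam hB' v).mono hk
  have okx := (hb.fam hB x).mono hk
  have rb : Rf b b := Rf.of_subset (List.Subset.refl _)
  refine ⟨h1, fun s => le_antisymm ?_ (((rf_fam hle h1).append rb).lam G okx (ok _) s)⟩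
  rw [← hy.2 s]
  refine G.lam_of_cls (ok _) (ok _) (fun U w w' hw => ?_) s
  obtain ⟨φ, hφ, hf, hw'⟩ := Sys.mem_cls.1 hw
  have h3 := finrank_sp ((U, w) :: (fam (low B₀ A₀ B) y ++ b))
  simp only [List.length_cons, List.length_append, length_fam] at h3
  obtain ⟨ψ, hL, he⟩ := Sys.extU hφ (span (ZMod p) (Set.range x) ⊔ span (ZMod p) (Set.range t))
    (by omega)
  set V := sp ((U, w) :: (fam (low B₀ A₀ B) y ++ b)) ⊔
    (span (ZMod p) (Set.range x) ⊔ span (ZMod p) (Set.range t)) with hV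
  have hP : sp (fam (low B₀ A₀ B) y ++ b) ≤ V :=
    (sp_mono (List.subset_cons_self _ _)).trans le_sup_left
  have hxV : ∀ i, x i ∈ V := fun i => mem_sup_right (mem_sup_left (ms x i))
  have htV : ∀ i, t i ∈ V := fun i => mem_sup_right (mem_sup_right (ms t i))
  have hw0 : w ∈ sp ((U, w) :: (fam (low B₀ A₀ B) y ++ b)) :=
    mem_sp (e := (U, w)) List.mem_cons_self
  have hf' : Fx ψ (fam (low B₀ A₀ B) y ++ b) := fun d hd => by
    rw [he _ (mem_sp (List.mem_cons_of_mem _ hd))]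
    exact hf d hd
  have hQ : sp (fam B x ++ b) ≤ V := spf.2 ⟨hxV, (spf.1 hP).2⟩
  have hfx : Fx ψ (fam B x ++ b) := ((rf_fam hle hy.1).append rb).fx okx hL hQ hP hf'
  refine Sys.cls_add (Sys.map_mem_cls hL
    (spf.2 ⟨fun i => add_mem ((spf.1 hP).1 i) (htV i), (spf.1 hP).2⟩)
    (fxf.2 ⟨fun i => ?_, (fxf.1 hf').2⟩) (mem_sup_left hw0) U) (by rwa [he _ hw0])
  rw [map_add, add_sub_add_comm]
  exact add_mem ((fxf.1 hf').1 i) (tfix h hB hL hQ hfx (ht i) (htV i))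

-- the image of a good lift is a good lift (`Same.of_sim`, `rf_fam`, `FS.ext`, `Def.map`)
theorem Den.om_map (hb : Γ.Ok k b) (hB : ∀ i, Γ.Def (B i)) (hB' : ∀ i, Γ.Def (B' i))
    (hle : ∀ i, B' i ≤ B i) (hk : Fintype.card I + k ≤ G.j) (hσ : ∀ i, B (σ i) = B i)
    (hσ' : ∀ i, B' (σ i) = B' i) (hy : y ∈ G.Om b B B' x) (hL : Γ.L U φ) (hU : sp b ≤ U)
    (hx : ∀ i, x i ∈ U) (hyU : ∀ i, y i ∈ U) (hf : Fx φ b) (hφ : ∀ i, φ (x i) - x (σ i) ∈ B i) :
    (fun i => φ (y (σ.symm i))) ∈ G.Om b B B' x := by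
  have h1 : ∀ i, φ (y (σ.symm i)) - x i ∈ B i := fun i => by
    obtain ⟨i, rfl⟩ := σ.surjective i
    have := add_mem ((hB i).map hL (sub_mem (hyU i) (hx i)) (hy.1 i)) (hφ i)
    rw [map_sub, sub_add_sub_cancel] at this
    rwa [σ.symm_apply_apply, hσ]
  have ok := fun v => (hb.fam hB' v).mono hk
  have okx := (hb.fam hB x).mono hk
  have rb : Rf b b := Rf.of_subset (List.Subset.refl _)
  have hp := fam_perm hσ' fun i => φ (y (σ.symm i))
  have hs : Γ.Sim (fam B' y ++ b) (fam B' ((fun i => φ (y (σ.symm i))) ∘ σ) ++ b) :=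
    Sys.fs_iff.1 ⟨φ, Sys.mono hL (sup_le hU (span_le.2 (Set.range_subset_iff.2 hyU))), hf,
      fun i => by simp⟩
  have h2 := hy.2.of_sim hs (((rf_fam hle h1).trans (Rf.of_subset hp.2)).append rb) (ok _) okx
  refine ⟨h1, fun s => Eq.trans ?_ (h2 s)⟩
  exact G.toGeo.Lam_congr (ok _) (ok _)
    (List.append_subset.2 ⟨List.subset_append_of_subset_left _ hp.2, List.subset_append_right _ _⟩)
    (List.append_subset.2 ⟨List.subset_append_of_subset_left _ hp.1, List.subset_append_right _ _⟩) s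

end Pool.Agent.P.MP_f1a348_lc.LS
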