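import Pool.Agent.P.MP_f1a348_lc.LS.DefsB
import Pool.Agent.P.MP_f1a348_lc.LS.TLOWB

/-! Step LOWC. -/

set_option autoImplicit false
set_option linter.unusedSectionVars false

namespace Pool.Agent.P.MP_f1a348_lc.LS

open Module Submodule

variable {p : ℕ} [Fact p.Prime] {W : Type} [AddCommGroup W] [Module (ZMod p) W] [Fintype W]
  {Γ : Sys p W} {ι : Type} [Fintype ι] {G : Den Γ ι} {P P' Q b : List (Pm p W)} {φ ψ : Iso p W}
  {A₀ B₀ Λ U V : Sub p W} {a c o o' t w w' x₀ y₀ z μ : W} {n k r R : ℕ} {s u : ι}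
  {m m' v v' : List (ι × W)} {A I J : Type} [Fintype I] {B B' : I → Sub p W}
  {e e' x x' y y' z' S : I → W} {so : I → ι} {σ τ τ' : Equiv.Perm I} {l : List I}

-- induction on a list `l` of indices: there are `t` and a good `y''` with `FS (y + t) y''` and `y'' i - y' i ∈ B' i` for `i ∈ l`.
-- Step `i` with `B i = A₀`: `P' = pl B' y' l ++ P` has the small parts of `P` and both `y'' i`, `y' i` are good over it (`Same.mid`);
-- `Lp.tr` gives `c ∈ Λ` and a map; extend it, apply it to `y'' + Pi.single i c` (`om_add`, `om_map` with `σ = 1`, `fs_add`, `FS.trans`)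
theorem Den.Lp.om_tr (h : G.Lp (fam B x ++ b) n B₀ A₀ Λ) (hb : Γ.Ok k b) (hB : ∀ i, Γ.Def (B i))
    (hn : 2 * Fintype.card I + k ≤ n) (hj : n + 1 ≤ G.j) (hy : y ∈ G.Om b B (low B₀ A₀ B) x)
    (hy' : y' ∈ G.Om b B (low B₀ A₀ B) x) :
    ∃ t : I → W, (∀ i, t i ∈ low Λ A₀ B i) ∧ Γ.FS b (low B₀ A₀ B) (y + t) y' := by
  classical
  have hM := G.hM
  have dB' := low_def hB h.dB A₀
  have le' := low_le h.le B
  have oP : Γ.Ok (Fintype.card I + k) (fam B x ++ b) := hb.fam hB x
  have key : ∀ l : List I, l.length ≤ Fintype.card I → ∃ t y'' : I → W,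
      (∀ i, t i ∈ low Λ A₀ B i) ∧ y'' ∈ G.Om b B (low B₀ A₀ B) x ∧
      Γ.FS b (low B₀ A₀ B) (y + t) y'' ∧ ∀ i ∈ l, y'' i - y' i ∈ low B₀ A₀ B i := by
    intro l
    induction l with
    | nil =>
      exact fun _ => ⟨0, y, fun i => zero_mem _, hy, Sys.FS.of_sub Γ b fun i => by simp, by simp⟩
    | cons i l ih =>
      intro hl
      rw [List.length_cons] at hl
      obtain ⟨t, y'', ht, hy'', hf, hd⟩ := ih (by omega)
      by_cases hi : B i = A₀
      swap
      · refine ⟨t, y'', ht, hy'', hf, fun j hj => ?_⟩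
        rcases List.mem_cons.1 hj with rfl | hj
        · rw [low, if_neg hi, ← sub_sub_sub_cancel_right _ _ (x j)]
          exact sub_mem (hy''.1 j) (hy'.1 j)
        · exact hd j hj
      have e0 : low B₀ A₀ B i = B₀ := if_pos hi
      have oP' : Γ.Ok n (pl (low B₀ A₀ B) y' l ++ (fam B x ++ b)) :=
        (oP.pl dB' y' l).mono (by omega)
      have sub : fam B x ++ b ⊆ pl (low B₀ A₀ B) y' l ++ (fam B x ++ b) :=
        List.subset_append_right _ _
      have sm : ∀ z ∈ G.Om b B (low B₀ A₀ B) x, (∀ j ∈ l, z j - y' j ∈ low B₀ A₀ B j) →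
          G.Same (pl (low B₀ A₀ B) y' l ++ (fam B x ++ b)) (fam B x ++ b) ∧
          G.Same ((B₀, z i) :: (pl (low B₀ A₀ B) y' l ++ (fam B x ++ b))) (fam B x ++ b) := by
        intro z hz hz'
        have oz : Γ.Ok G.j (fam (low B₀ A₀ B) z ++ b) := (hb.fam dB' z).mono (by omega)
        have r1 : Rf (pl (low B₀ A₀ B) y' l ++ (fam B x ++ b)) (fam (low B₀ A₀ B) z ++ b) := by
          intro d hd
          rcases List.mem_append.1 hd with hd | hd
          · obtain ⟨j, hj, rfl⟩ := mem_pl.1 hd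
            exact ⟨_, List.mem_append_left _ (mem_fam.2 ⟨j, rfl⟩), le_rfl, hz' j hj⟩
          · exact ((rf_fam le' hz.1).append (Rf.of_subset (List.Subset.refl b))) d hd
        refine ⟨hz.2.mid (Rf.of_subset sub) r1 (oP.mono (by omega)) (oP'.mono (by omega)) oz,
          hz.2.mid (Rf.of_subset (List.subset_cons_of_subset _ sub)) (r1.cons
            ⟨_, List.mem_append_left _ (mem_fam.2 ⟨i, rfl⟩), e0.le, by simp⟩)
            (oP.mono (by omega)) ((oP'.cons h.dB _).mono hj) oz⟩
      obtain ⟨s1, s2⟩ := sm y'' hy'' hd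
      obtain ⟨c, hc, hcl⟩ := h.tr _ oP' sub s1 (x i) (y'' i) (y' i)
        (List.mem_append_left _ (mem_fam.2 ⟨i, by rw [hi]⟩)) (hi ▸ hy''.1 i) (hi ▸ hy'.1 i)
        (s2.trans s1.symm) ((sm y' hy' fun j _ => by simp).2.trans s1.symm)
      obtain ⟨φ, hL, hx, hφ⟩ := Sys.mem_cls.1 hcl
      have ht' : ∀ j, (Pi.single i c : I → W) j ∈ low Λ A₀ B j := fun j => by
        by_cases e : j = i
        · rw [e, Pi.single_eq_same, low, if_pos hi]; exact hc
        · rw [Pi.single_eq_of_ne e]; exact zero_mem _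
      have r1 := finrank_sp ((B₀, y'' i + c) :: (pl (low B₀ A₀ B) y' l ++ (fam B x ++ b)))
      have r2 := finrank_range_le (p := p) (y'' + Pi.single i c)
      have r3 := oP'.1
      rw [List.length_cons] at r1
      obtain ⟨ψ, hL', he⟩ := Sys.extU hL (span (ZMod p) (Set.range (y'' + Pi.single i c)))
        (by omega)
      have m1 : ∀ d ∈ pl (low B₀ A₀ B) y' l ++ (fam B x ++ b),
          d.2 ∈ sp ((B₀, y'' i + c) :: (pl (low B₀ A₀ B) y' l ++ (fam B x ++ b))) :=
        fun d hd => mem_sp (List.mem_cons_of_mem _ hd)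
      have fx : Fx ψ (pl (low B₀ A₀ B) y' l ++ (fam B x ++ b)) := fun d hd => by
        rw [he _ (m1 d hd)]; exact hx d hd
      have hb' : b ⊆ pl (low B₀ A₀ B) y' l ++ (fam B x ++ b) :=
        List.Subset.trans (List.subset_append_right _ _) sub
      have mx : ∀ j, (B j, x j) ∈ pl (low B₀ A₀ B) y' l ++ (fam B x ++ b) :=
        fun j => sub (List.mem_append_left _ (mem_fam.2 ⟨j, rfl⟩))
      have u1 := sp_le.2 fun d hd => mem_sup_left
        (T := span (ZMod p) (Set.range (y'' + Pi.single i c))) (m1 d (hb' hd))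
      refine ⟨t + Pi.single i c, fun j => ψ ((y'' + Pi.single i c : I → W) j),
        fun j => add_mem (ht j) (ht' j),
        Den.om_map (σ := 1) hb hB dB' le' (by omega) (fun _ => rfl) (fun _ => rfl)
          (h.om_add hb hB (by omega) hy'' ht') hL' u1 (fun j => mem_sup_left (m1 _ (mx j)))
          (fun j => mem_sup_right (subset_span ⟨j, rfl⟩)) (fx.mono hb') fun j => fx _ (mx j),
        ?_, fun j hj => ?_⟩
      · rw [← add_assoc]
        refine (h.fs_add hb hB (by omega) (fun j => ?_) hy''.1 ht' hf).trans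
          ⟨ψ, Sys.mono hL' (sup_le u1 le_sup_right), fx.mono hb', fun j => by simp⟩ hb dB'
          (by omega)
        rw [Pi.add_apply, add_sub_right_comm]
        exact add_mem (hy.1 j) (low_le h.ΛA B j (ht j))
      beta_reduce
      by_cases e : j = i
      · rw [e, e0, Pi.add_apply, Pi.single_eq_same,
          he _ (mem_sp (e := (B₀, y'' i + c)) List.mem_cons_self)]
        exact hφ
      · have hj' := (List.mem_cons.1 hj).resolve_left e
        have mj : (low B₀ A₀ B j, y' j) ∈ pl (low B₀ A₀ B) y' l ++ (fam B x ++ b) :=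
          List.mem_append_left _ (mem_pl.2 ⟨j, hj', rfl⟩)
        have e1 : (y'' + Pi.single i c : I → W) j = y'' j := by simp [e]
        have := add_mem ((dB' j).map hL' (sub_mem (mem_sup_right (subset_span ⟨j, e1⟩))
          (mem_sup_left (m1 _ mj))) (hd j hj')) (fx _ mj)
        rw [map_sub, sub_add_sub_cancel] at this
        rw [e1]; exact this
  obtain ⟨t, y'', ht, -, hf, hd⟩ := key Finset.univ.toList (by simp)
  exact ⟨t, ht, hf.right fun i => hd i (by simp)⟩

end Pool.Agent.P.MP_f1a348_lc.LS
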