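import Pool.Agent.P.MP_f1a348_lc.LS.DefsB
import Pool.Agent.P.MP_f1a348_lc.LS.TLOWC
import Pool.Agent.P.MP_f1a348_lc.LS.TFIXT

/-! Step LOWD. -/

set_option autoImplicit false
set_option linter.unusedSectionVars false

namespace Pool.Agent.P.MP_f1a348_lc.LS

open Module Submodule

variable {p : ℕ} [Fact p.Prime] {W : Type} [AddCommGroup W] [Module (ZMod p) W] [Fintype W]
  {Γ : Sys p W} {ι : Type} [Fintype ι] {G : Den Γ ι} {P P' Q b : List (Pm p W)} {φ ψ : Iso p W}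
  {A₀ B₀ Λ U V : Sub p W} {a c o o' t w w' x₀ y₀ z μ : W} {n k r R : ℕ} {s u : ι}
  {m m' v v' : List (ι × W)} {A I J : Type} [Fintype I] {B B' : I → Sub p W}
  {e e' x x' y y' z' S : I → W} {so : I → ι} {σ τ τ' : Equiv.Perm I} {l : List I}

-- `fixt` with `T i y y' = FS b B' y (y' ∘ σ ^ i)`, `L = Submodule.pi Set.univ (low Λ A₀ B)`; `FS.comp`, `FS.trans`, `FS.symm`, `om_map`
theorem Den.Lp.lower (h : G.Lp (fam B x ++ b) n B₀ A₀ Λ) (hb : Γ.Ok k b) (hB : ∀ i, Γ.Def (B i))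
    (hn : 2 * Fintype.card I + k ≤ n) (hj : n + 1 ≤ G.j) (hr : r.Prime) (hp : r ≠ p)
    (hσ : σ ^ r = 1) (hBσ : ∀ i, B (σ i) = B i) (htw : Γ.FS b B x (x ∘ σ)) :
    ∃ y ∈ G.Om b B (low B₀ A₀ B) x, Γ.FS b (low B₀ A₀ B) y (y ∘ σ) := by
  have hM := G.hM
  have hl := hb.1
  have hB' : ∀ i, Γ.Def (low B₀ A₀ B i) := low_def hB h.dB A₀
  have hσ' : ∀ i, low B₀ A₀ B (σ i) = low B₀ A₀ B i := low_perm hBσ B₀ A₀
  have hk : Fintype.card I + k ≤ G.j := by omega
  have hm : 2 * (Fintype.card I + k) ≤ Γ.M := by omega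
  have hpow : ∀ j : ℕ, low B₀ A₀ B ∘ ⇑(σ ^ j) = low B₀ A₀ B := by
    intro j
    induction j with
    | zero => rfl
    | succ j ih =>
      funext i
      rw [pow_succ', Function.comp_apply, Equiv.Perm.mul_apply, hσ']
      exact congrFun ih i
  have hinv : low B₀ A₀ B ∘ ⇑σ.symm = low B₀ A₀ B := by
    funext i
    rw [Function.comp_apply, ← hσ', Equiv.apply_symm_apply]
  obtain ⟨y, hy, hT⟩ := fixt hr hp (G.Om b B (low B₀ A₀ B) x)
    (Submodule.pi Set.univ (low Λ A₀ B))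
    (fun j y y' => Γ.FS b (low B₀ A₀ B) y (y' ∘ ⇑(σ ^ j))) (h.om_ne hb hB hn hj)
    (fun y _ => Sys.FS.of_sub Γ b fun i => by simp)
    (fun y _ y' _ e => Sys.FS.symm (x := y) (y := y') e hb hB' hm)
    (fun i j y y' z e e' => by
      have e2 := e'.comp ⇑(σ ^ i)
      rw [hpow] at e2
      have e3 := e.trans e2 hb hB' hm
      rw [add_comm, pow_add]
      exact e3)
    (fun y y' e => by rw [hσ] at e; exact e)
    (fun y hy => by
      have h1 := finrank_range_le (p := p) y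
      obtain ⟨φ, hL, hf, hφ⟩ := htw.ext (span (ZMod p) (Set.range y)) (by omega)
      refine ⟨_, Den.om_map hb hB hB' (low_le h.le B) hk hBσ hσ' hy hL
        (le_sup_left.trans le_sup_left)
        (fun i => mem_sup_left (mem_sup_right (subset_span ⟨i, rfl⟩)))
        (fun i => mem_sup_right (subset_span ⟨i, rfl⟩)) hf hφ,
        φ, Sys.mono hL (sup_le_sup_right le_sup_left _), hf, fun i => by simp⟩)
    (fun y y' y'' e e' => by
      have e2 := ((e.symm hb hB' hm).trans e' hb hB' hm).comp ⇑σ.symm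
      rw [hinv] at e2
      simpa [Function.comp_def] using e2)
    (fun y hy t ht => h.om_add hb hB hk hy fun i => ht i trivial)
    (fun y hy y' hy' t ht e => h.fs_add (y := y) (y' := y') hb hB hk hy.1 hy'.1
      (fun i => ht i trivial) e)
    (fun y hy y' hy' => by
      obtain ⟨t, ht, e⟩ := h.om_tr hb hB hn hj hy hy'
      exact ⟨t, fun i _ => ht i, e⟩)
  exact ⟨y, hy, by simpa using hT⟩

end Pool.Agent.P.MP_f1a348_lc.LS
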