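import Pool.Agent.P.MP_f1a348_lc.LS.DefsB
import Pool.Agent.P.MP_f1a348_lc.LS.TAFX
import Pool.Agent.P.MP_f1a348_lc.LS.TREF

/-! Step LP. -/

set_option autoImplicit false
set_option linter.unusedSectionVars false

namespace Pool.Agent.P.MP_f1a348_lc.LS

open Module Submodule

variable {p : ℕ} [Fact p.Prime] {W : Type} [AddCommGroup W] [Module (ZMod p) W] [Fintype W]
  {Γ : Sys p W} {ι : Type} [Fintype ι] {G : Den Γ ι} {P P' Q b : List (Pm p W)} {φ ψ : Iso p W}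
  {A₀ B₀ Λ U V : Sub p W} {a c o o' t w w' x₀ y₀ z μ : W} {n k r R : ℕ} {s u : ι}
  {m m' v v' : List (ι × W)} {A I J : Type} [Fintype I] {B B' : I → Sub p W}
  {e e' x x' y y' z' S : I → W} {so : I → ι} {σ τ τ' : Equiv.Perm I} {l : List I}

-- `goodex`, `ND.hi_le`, `Good.add`, `afx`, `PW.fixes`
theorem Den.Bs.lpg (h : G.Bs b R) (hP : Γ.Ok n P) (hs : b ⊆ P) (hb : b.length ≤ n)
    (hn : n + 1 ≤ R) (hd : G.ND P) (hw : G.PW P) (u : ι) :
    G.Lp P n (G.lo u) (G.hi u) (G.Lam u P) := by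
  have hR := h.hR
  have hPj : Γ.Ok G.j P := hP.mono (by omega)
  refine ⟨G.dlo u, G.toGeo.lo_le_hi u, G.le_hi u P hPj, fun l hl => hw.fixes hl,
    fun P' hP' hsub _ o ho => h.goodex hP' (List.Subset.trans hs hsub) hb hn
      (Den.aff_of_mem (hsub ho) (by rw [sub_self]; exact Submodule.zero_mem _)),
    fun P' hP' hsub hsame o y y' ho hy hy' g g' => ?_⟩
  have hd' : G.ND P' := hsame.symm.nd hd
  have h1 : y' - y ∈ G.hi u := by simpa using (G.hi u).sub_mem hy' hy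
  obtain ⟨l, hl, a, ha, e⟩ := Submodule.mem_sup.1 (hd'.hi_le u h1)
  have hl' : l ∈ G.hi u := G.le_hi u P' (hP'.mono (by omega)) hl
  refine ⟨l, hsame u ▸ hl, h.afx hP' (List.Subset.trans hs hsub) hb hn hd'
    (Den.aff_of_mem (hsub ho) ?_) (Den.Good.add g hP' (by omega) hl) g' ?_⟩
  · rw [add_sub_right_comm]
    exact (G.hi u).add_mem hy hl'
  · rw [← sub_sub, ← e, add_sub_cancel_left]
    exact ha

-- the class of `o` lies in `o + A₀` (`cls_fixed`), of size at most `p * nc B₀`; `idem'`; `Pinned.fixes`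
theorem Den.lpp (G : Den Γ ι) (P : List (Pm p W)) (hn : n + 1 ≤ G.j) (hB : Γ.Def B₀)
    (hA : Γ.Def A₀) (hle : B₀ ≤ A₀) (hp : Γ.Pinned B₀ A₀)
    (hd : finrank (ZMod p) A₀ ≤ finrank (ZMod p) B₀ + 1) : G.Lp P n B₀ A₀ A₀ := by
  refine ⟨hB, hle, le_rfl, fun l hl => hp.fixes P hl, fun P' hP' hsub _ o ho =>
    ⟨o, by rw [sub_self]; exact Submodule.zero_mem _, fun s => G.toGeo.idem' hP' hn hB ?_ s⟩,
    fun P' _ _ _ o y y' _ hy hy' _ _ => ⟨y' - y, by simpa using A₀.sub_mem hy' hy, ?_⟩⟩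
  · have h1 : (Γ.cls P' B₀ o).ncard ≤ nc A₀ :=
      Set.ncard_le_ncard_of_injOn (fun y => y - o) (fun y hy =>
        Sys.cls_fixed (R := [(A₀, o)]) hA (by simpa using hsub ho) (by simp)
          (Submodule.mem_sup_left (mem_sp (e := (A₀, o)) (by simp))) (Sys.cls_coarse hle P' o hy))
        (fun _ _ _ _ e => sub_left_injective e) (Set.toFinite _)
    have h2 : nc A₀ ≤ p * nc B₀ := by
      rw [nc_eq, nc_eq, ← pow_succ']
      exact Nat.pow_le_pow_right (Fact.out : p.Prime).pos hd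
    refine h1.trans (h2.trans (Nat.mul_le_mul_right _ (G.toGeo.p_le_Q.trans ?_)))
    exact Nat.le_self_pow (by norm_num) _
  · rw [add_sub_cancel]
    exact Γ.self_mem_cls P' B₀ y'

end Pool.Agent.P.MP_f1a348_lc.LS
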