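import Pool.Agent.P.MP_f1a348_lc.LS.DefsB
import Pool.Agent.P.MP_f1a348_lc.LS.TLOWD
import Pool.Agent.P.MP_f1a348_lc.LS.TLP
import Pool.Agent.P.MP_f1a348_lc.LS.TFRM

/-! Step LIFT. -/

set_option autoImplicit false
set_option linter.unusedSectionVars false

namespace Pool.Agent.P.MP_f1a348_lc.LS

open Module Submodule

variable {p : ℕ} [Fact p.Prime] {W : Type} [AddCommGroup W] [Module (ZMod p) W] [Fintype W]
  {Γ : Sys p W} {ι : Type} [Fintype ι] {G : Den Γ ι} {P P' Q b : List (Pm p W)} {φ ψ : Iso p W}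
  {A₀ B₀ Λ U V : Sub p W} {a c o o' t w w' x₀ y₀ z μ : W} {n k r R : ℕ} {s u : ι}
  {m m' v v' : List (ι × W)} {A I J : Type} [Fintype I] {B B' : I → Sub p W}
  {e e' x x' y y' z' S : I → W} {so : I → ι} {σ τ τ' : Equiv.Perm I} {l : List I}

-- induction on `∑ i, finrank (B i)`; `Chain.below`, `Den.pin`, `lpg` or `lpp`, `lower`, `modify`
theorem Den.Bs.lift (h : G.Bs b R) (hF : G.Fr b so σ B x) (hr : r.Prime) (hp : r ≠ p)
    (hσ : σ ^ r = 1) (hR : 2 * Fintype.card I + b.length + 1 ≤ R) :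
    ∃ S, G.Fr b so σ (fun _ => ⊥) S := by
  induction hN : ∑ i, finrank (ZMod p) (B i) using Nat.strong_induction_on generalizing B x with
  | _ N ih =>
    by_cases c : ∀ i, B i = ⊥
    · exact ⟨x, funext c ▸ hF⟩
    obtain ⟨i, hi⟩ := not_forall.1 c
    obtain ⟨V, hV⟩ := G.chain.below (hF.mem i).1 hi
    have hj := h.hR
    have hb := h.ok.len
    have : ∃ Λ, G.Lp (fam B x ++ b) (2 * Fintype.card I + b.length) V (B i) Λ := by
      rcases G.pin _ _ hV with ⟨s, rfl, e⟩ | ⟨h1, h2⟩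
      · exact ⟨_, e ▸ h.lpg ((hF.ok hb).mono (by omega)) (List.subset_append_right _ _) (by omega)
          hR hF.nd hF.pw s⟩
      · exact ⟨_, G.lpp _ (by omega) (G.chain.df _ hV.1) (G.chain.df _ hV.2.1) hV.2.2.1.le h1 h2⟩
    obtain ⟨Λ, hL⟩ := this
    obtain ⟨y, h1, h2⟩ := hL.lower hb (fun i => G.chain.df _ (hF.mem i).1) le_rfl (by omega) hr hp
      hσ hF.Bσ hF.tw
    have hm : ∀ j, low V (B i) B j ∈ G.ch ∧ low V (B i) B j ≤ B j := fun j => by
      unfold low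
      split_ifs with e
      · exact ⟨hV.1, e ▸ hV.2.2.1.le⟩
      · exact ⟨(hF.mem j).1, le_rfl⟩
    refine ih _ (hN ▸ Finset.sum_lt_sum (fun j _ => finrank_mono (hm j).2)
      ⟨i, Finset.mem_univ _, ?_⟩) (hF.modify hb (by omega) hm (fun j => by
        simp only [low, hF.Bσ]) h1 h2) rfl
    rw [low, if_pos rfl]
    exact finrank_lt_finrank_of_lt hV.2.2.1

end Pool.Agent.P.MP_f1a348_lc.LS
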