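import Pool.Agent.P.MP_f1a348_lc.LS.DefsB
import Pool.Agent.P.MP_f1a348_lc.LS.TREF

/-! Step NBF. -/

set_option autoImplicit false
set_option linter.unusedSectionVars false

namespace Pool.Agent.P.MP_f1a348_lc.LS

open Module Submodule

variable {p : ℕ} [Fact p.Prime] {W : Type} [AddCommGroup W] [Module (ZMod p) W] [Fintype W]
  {Γ : Sys p W} {ι : Type} [Fintype ι] {G : Den Γ ι} {P P' Q b : List (Pm p W)} {φ ψ : Iso p W}
  {A₀ B₀ Λ U V : Sub p W} {a c o o' t w w' x₀ y₀ z μ : W} {n k r R : ℕ} {s u : ι}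
  {m m' v v' : List (ι × W)} {A I J : Type} [Fintype I] {B B' : I → Sub p W}
  {e e' x x' y y' z' S : I → W} {so : I → ι} {σ τ τ' : Equiv.Perm I} {l : List I}

-- `v = S i`, `s = so i` from `Fr.gen`; extend `ψ` (`ψ v - v' ∈ lo s`) to `span (range S)`; `z = ψ (S (σ i)) ∉ Lam s [(lo s, v')]` (`mono`, `mem_Lam_sim`);
-- `bigQ`; every `y = χ z` of the class lies in `Nb`: extend `χ`, use `ha` for `χ ψ`; an automorphism maps `lo s` to itself (`Def.map`)
theorem Den.Fr.nbf (h : G.Fr b so σ (fun _ => ⊥) S) (hb : Γ.Ok k b)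
    (hk : Fintype.card I + k + 1 ≤ G.j)
    (ha : ∀ ψ, Γ.L (span (ZMod p) (Set.range S)) ψ → ∃ a : Iso p W, Γ.Aut a ∧
      finrank (ZMod p) (LinearMap.range ((a : W →ₗ[ZMod p] W) - LinearMap.id)) ≤
        Fintype.card I ∧ ∀ i, a (ψ (S i)) = ψ (S (σ i))) :
    ∃ s, ∃ v ∈ G.hi s, v ∉ G.lo s ∧ ∀ v' ∈ Γ.cls [] (G.lo s) v,
      nc (G.hi s) ≤ G.Q * (Γ.Nb G.j (G.lo s) v' ∩ G.hi s).ncard := by
  classical
  obtain ⟨i, hi⟩ := h.gen
  have hM := G.hM
  have hb' : Γ.Ok G.j b := hb.mono (by omega)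
  have hS : ∀ l, S l ∈ G.hi (so l) := fun l => G.Ann_le_hi hb' _ (h.ann l)
  have hσ : S (σ i) ∈ G.hi (so i) := by have := hS (σ i); rwa [h.soσ] at this
  have mS : ∀ l, S l ∈ span (ZMod p) (Set.range S) := fun l => subset_span ⟨l, rfl⟩
  have dS := finrank_range_le (p := p) S
  have dlo := G.dlo (so i)
  refine ⟨so i, S i, hS i, fun hv => ?_, fun v' hv' => ?_⟩
  · have := h.ind (so i) (Pi.single i 1) (fun l hl => Pi.single_eq_of_ne (fun e => hl (congrArg so e)) _)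
      (by simpa [Pi.single_apply, ite_smul] using hv) i
    simp at this
  obtain ⟨ψ₀, a1, -, a3⟩ := Sys.mem_cls.1 hv'
  obtain ⟨ψ, c1, c2⟩ := Sys.extU a1 (span (ZMod p) (Set.range S)) (by
    have := finrank_sp [(G.lo (so i), S i)]
    simp only [List.length_cons, List.length_nil] at this
    omega)
  have c3 : ψ (S i) - v' ∈ G.lo (so i) := by
    rwa [c2 _ (mem_sp (e := (G.lo (so i), S i)) List.mem_cons_self)]
  have c4 : Γ.L (span (ZMod p) (Set.range S)) ψ := Sys.mono c1 le_sup_right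
  have hz : ψ (S (σ i)) ∈ G.hi (so i) := Sys.Def.map (G.dhi _) c4 (mS _) hσ
  have o1 : ∀ w, Γ.Ok 1 [(G.lo (so i), w)] := fun w => (Γ.ok_nil 0).cons dlo w
  have hz' : ψ (S (σ i)) ∉ G.Lam (so i) [(G.lo (so i), v')] := fun hz' => by
    have sim : Γ.Sim [(G.lo (so i), S (σ i)), (G.lo (so i), S i)]
        [(G.lo (so i), ψ (S (σ i))), (G.lo (so i), v')] := by
      refine ⟨ψ, Sys.mono c4 (sp_le.2 fun d hd => ?_), mv_cons.2 ⟨rfl, by simp,
        mv_cons.2 ⟨rfl, c3, List.Forall₂.nil⟩⟩⟩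
      rcases List.mem_cons.1 hd with rfl | hd
      · exact mS _
      · rw [List.mem_singleton.1 hd]; exact mS _
    have := G.toGeo.mem_Lam_sim (sim.symm ((o1 _).cons dlo _) (by omega))
      ((o1 _).mono (by omega)) hz'
    exact hi (G.toGeo.mono ((o1 _).mono (by omega)) ((hb.cons dlo _).mono (by omega))
      (List.cons_subset_cons _ (List.nil_subset _)) _ this)
  rw [← G.N_eq]
  refine (G.toGeo.bigQ ((o1 v').mono (by omega)) hz hz').trans (Nat.mul_le_mul_left _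
    (Set.ncard_le_ncard (fun y hy => ⟨?_, G.toGeo.cls_hi _ hz hy⟩) (Set.toFinite _)))
  obtain ⟨χ₀, d1, d2, d3⟩ := Sys.mem_cls.1 hy
  obtain ⟨χ, e1, e2⟩ := Sys.extU d1 ((span (ZMod p) (Set.range S)).map (ψ : W →ₗ[ZMod p] W)) (by
    have := finrank_sp [(G.lo (so i), ψ (S (σ i))), (G.lo (so i), v')]
    simp only [List.length_cons, List.length_nil] at this
    rw [LinearEquiv.finrank_map_eq]
    omega)
  have m1 : ψ (S (σ i)) ∈ sp [(G.lo (so i), ψ (S (σ i))), (G.lo (so i), v')] :=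
    mem_sp (e := (G.lo (so i), ψ (S (σ i)))) List.mem_cons_self
  have m2 : v' ∈ sp [(G.lo (so i), ψ (S (σ i))), (G.lo (so i), v')] :=
    mem_sp (e := (G.lo (so i), v')) (List.mem_cons_of_mem _ List.mem_cons_self)
  obtain ⟨a, f1, f2, f3⟩ := ha (χ * ψ) (Γ.mul c4 e1 fun x hx => mem_sup_right ⟨x, hx, rfl⟩)
  refine ⟨a, f1, f2.trans (by omega), ?_⟩
  have g1 : χ (ψ (S i) - v') ∈ G.lo (so i) := Sys.Def.map dlo e1
    (sub_mem (mem_sup_right ⟨_, mS i, rfl⟩) (mem_sup_left m2)) c3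
  have g2 : χ v' - v' ∈ G.lo (so i) := by
    rw [e2 _ m2]; exact (fx_cons.1 d2).1
  have g3 : a (χ (ψ (S i) - v') + (χ v' - v')) ∈ G.lo (so i) :=
    Sys.Def.map dlo (f1 _) (mem_span_singleton_self _) (add_mem g1 g2)
  have g4 : a (χ (ψ (S i))) = χ₀ (ψ (S (σ i))) := (f3 i).trans (e2 _ m1)
  have g5 := sub_mem g3 d3
  rwa [show a (χ (ψ (S i) - v') + (χ v' - v')) - (χ₀ (ψ (S (σ i))) - y) = y - a v' by
    rw [← g4]; simp only [map_add, map_sub]; abel] at g5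

end Pool.Agent.P.MP_f1a348_lc.LS
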