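import Pool.Agent.P.MP_f1a348_lc.LS.DefsB
import Pool.Agent.P.MP_f1a348_lc.LS.TFRM

/-! Step NDG. -/

set_option autoImplicit false
set_option linter.unusedSectionVars false

namespace Pool.Agent.P.MP_f1a348_lc.LS

open Module Submodule

variable {p : ℕ} [Fact p.Prime] {W : Type} [AddCommGroup W] [Module (ZMod p) W] [Fintype W]
  {Γ : Sys p W} {ι : Type} [Fintype ι] {G : Den Γ ι} {P P' Q b : List (Pm p W)} {φ ψ : Iso p W}
  {A₀ B₀ Λ U V : Sub p W} {a c o o' t w w' x₀ y₀ z μ : W} {n k r R : ℕ} {s u : ι}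
  {m m' v v' : List (ι × W)} {A I J : Type} [Fintype I] {B B' : I → Sub p W}
  {e e' x x' y y' z' S : I → W} {so : I → ι} {σ τ τ' : Equiv.Perm I} {l : List I}

-- let `w = ∑ c i • S i` be orthogonal to all `S i`, `c ≠ 0`, `s` the sort with the largest `lo s` among the `so i`, `c i ≠ 0`; the other terms lie in `lo s`
-- (`lay`, `chain.tot`, `inj`); the part `w'` of sort `s` lies in `Lam s P`, and in `Ann s P` (`Fr.spn`, `Fr.ann`, `beta_lo`); `nd`, `ind`
theorem Den.Fr.ndg (h : G.Fr b so σ (fun _ => ⊥) S) (hb : Γ.Ok k b)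
    (hk : Fintype.card I + k ≤ G.j) :
    span (ZMod p) (Set.range S) ⊓ Γ.perp (span (ZMod p) (Set.range S)) = ⊥ := by
  classical
  have hP : Γ.Ok G.j (fam (fun _ => ⊥) S ++ b) := (h.ok hb).mono hk
  have hL := h.mem_Lam (hb.mono (by omega)) hP (List.subset_append_left _ _)
  have hH : ∀ i, S i ∈ G.hi (so i) := fun i => G.le_hi _ _ hP (hL i)
  rw [eq_bot_iff]
  rintro w ⟨hw1, hw2⟩
  obtain ⟨c, rfl⟩ := (mem_span_range_iff_exists_fun _).1 hw1
  suffices hc : ∀ i, c i = 0 by simp [hc]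
  by_contra hc
  obtain ⟨i₁, hi₁⟩ := not_forall.1 hc
  obtain ⟨i₀, h0, hmax⟩ := (Finset.univ.filter fun i => c i ≠ 0).exists_max_image
    (fun i => finrank (ZMod p) (G.lo (so i))) ⟨i₁, by simpa using hi₁⟩
  simp only [Finset.mem_filter, Finset.mem_univ, true_and] at h0 hmax
  have low : ∀ i, c i ≠ 0 → so i ≠ so i₀ → S i ∈ G.lo (so i₀) := fun i hi hne => by
    rcases G.chain.tot _ (G.lay (so i)).1 _ (G.lay (so i₀)).1 with hle | hle
    · exact (G.lay (so i)).2.2.2 _ (G.lay (so i₀)).1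
        (lt_of_le_of_ne hle fun e => hne (G.inj _ _ e)) (hH i)
    · exact absurd (G.inj _ _ (eq_of_le_of_finrank_le hle (hmax i hi))).symm hne
  have part : ∀ U : Sub p W, (∀ i, so i = so i₀ → S i ∈ U) →
      ∑ i, (if so i = so i₀ then c i else 0) • S i ∈ U := fun U hU => sum_mem fun i _ => by
    split_ifs with e
    · exact smul_mem _ _ (hU i e)
    · simp
  have rest : ∑ i, c i • S i - ∑ i, (if so i = so i₀ then c i else 0) • S i ∈ G.lo (so i₀) := by
    rw [← Finset.sum_sub_distrib]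
    refine sum_mem fun i _ => ?_
    split_ifs with e
    · simp
    · by_cases hi : c i = 0
      · simp [hi]
      · simpa using smul_mem _ _ (low i hi e)
  have a1 := part (G.Lam (so i₀) _) fun i e => e ▸ hL i
  have a2 := part (G.Ann (so i₀) b) fun i e => e ▸ h.ann i
  have a3 : ∑ i, (if so i = so i₀ then c i else 0) • S i ∈
      G.Ann (so i₀) (fam (fun _ => ⊥) S ++ b) := G.mem_Ann.2 fun y hy => by
    obtain ⟨y₁, h1, y₂, h2, rfl⟩ := mem_sup.1 (h.spn _ hy)
    have b1 := G.mem_Ann.1 a2 y₁ h1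
    have b2 := Sys.mem_perp.1 hw2 y₂ (span_mono (Set.image_subset_range _ _) h2)
    have b3 := G.beta_lo rest (y := y₂)
      ((span_le (p := G.hi (G.star (so i₀)))).2 (by rintro _ ⟨i, e, rfl⟩; exact e ▸ hH i) h2)
    rw [Γ.symm, map_sub, b2, zero_sub, neg_eq_zero] at b3
    rw [map_add, LinearMap.add_apply, b1, b3, add_zero]
  have := h.ind (so i₀) _ (fun i e => if_neg e) (h.nd _ ⟨a1, a3⟩) i₀
  exact h0 (by simpa using this)

end Pool.Agent.P.MP_f1a348_lc.LS
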