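import Pool.Agent.P.MP_f1a348_lc.LS.DefsB
import Pool.Agent.P.MP_f1a348_lc.LS.TLINT
import Pool.Agent.P.MP_f1a348_lc.LS.TBAS

/-! Step UNI0. -/

set_option autoImplicit false
set_option linter.unusedSectionVars false

namespace Pool.Agent.P.MP_f1a348_lc.LS

open Module Submodule

variable {p : ℕ} [Fact p.Prime] {W : Type} [AddCommGroup W] [Module (ZMod p) W] [Fintype W]
  {Γ : Sys p W} {ι : Type} [Fintype ι] {G : Den Γ ι} {P P' Q b : List (Pm p W)} {φ ψ : Iso p W}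
  {A₀ B₀ Λ U V : Sub p W} {a c o o' t w w' x₀ y₀ z μ : W} {n k r R : ℕ} {s u : ι}
  {m m' v v' : List (ι × W)} {A I J : Type} [Fintype I] {B B' : I → Sub p W}
  {e e' x x' y y' z' S : I → W} {so : I → ι} {σ τ τ' : Equiv.Perm I} {l : List I}

-- `m₀` from `basL` for `X s = Lam s ((⊥, w) :: P) ⊓ Ann s P`; `Lam (m₀ P) = Lam (w P)` (`ND.hi_le`, `idemL`, `mem_Lam_fixed`);
-- `ξ` from `Bs.rad` at `tp m₀ ++ P` with `X = Ann · P`; `m = ξ ++ m₀`; `lint` at `(⊥, w) :: tp m₀ ++ P`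
theorem Den.Bs.close (h : G.Bs b R) (hP : Γ.Ok n P) (hs : b ⊆ P) (hb : b.length ≤ n)
    (hd : G.ND P) (hR : (G.cc + 1) ^ 2 * (n + 1) + 1 ≤ R) (w : W) :
    ∃ m, G.InAnn m P ∧ m.length + n ≤ (G.cc + 1) ^ 2 * (n + 1) ∧ G.ND (G.tp m ++ P) ∧
      G.Same ((⊥, w) :: (G.tp m ++ P)) (G.tp m ++ P) := by
  have hj := h.hR
  have hbot : Γ.Def ⊥ := G.chain.df _ G.chain.bot
  have hsq : (G.cc + 1) ^ 2 * (n + 1) =
      (G.cc * (n + 1) + n) + G.cc * (G.cc * (n + 1) + n) + (G.cc + 1) := by ring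
  have hPw : Γ.Ok (n + 1) ((⊥, w) :: P) := hP.cons hbot w
  have hPj : Γ.Ok G.j P := hP.mono (by omega)
  have hPwj : Γ.Ok G.j ((⊥, w) :: P) := hPw.mono (by omega)
  have hbj : Γ.Ok G.j b := h.ok.mono (by omega)
  obtain ⟨m₀, a1, a2, a3⟩ := G.basL hPwj (fun s => G.Lam s ((⊥, w) :: P) ⊓ G.Ann s P)
    fun s => ⟨le_inf (G.lo_le s _ hPwj) (G.lo_le_Ann hPj s), inf_le_left⟩
  have a4 : m₀.length ≤ G.cc * (n + 1) := a1.trans (Nat.mul_le_mul_left _ hPw.1)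
  have h1 : Γ.Ok (m₀.length + n) (G.tp m₀ ++ P) := G.ok_tp hP m₀
  have h1j : Γ.Ok G.j (G.tp m₀ ++ P) := h1.mono (by omega)
  have h2j : Γ.Ok G.j (G.tp m₀ ++ (⊥, w) :: P) := (G.ok_tp hPw m₀).mono (by omega)
  have h3 : Γ.Ok (m₀.length + n + 1) ((⊥, w) :: (G.tp m₀ ++ P)) := h1.cons hbot w
  have s1 : P ⊆ G.tp m₀ ++ P := List.subset_append_right _ _
  have s2 : b ⊆ G.tp m₀ ++ P := List.Subset.trans hs s1
  have e1 : ∀ s, G.Lam s (G.tp m₀ ++ (⊥, w) :: P) = G.Lam s ((⊥, w) :: P) := fun s =>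
    G.idemL hPw (by rw [G.length_tp]; omega) (fun e he => by
      obtain ⟨d, hd, rfl⟩ := List.mem_map.1 he
      exact ⟨d.1, rfl, (a2 d hd).1⟩) s
  have e2 : ∀ s, G.Lam s ((⊥, w) :: (G.tp m₀ ++ P)) = G.Lam s (G.tp m₀ ++ P) := by
    intro s
    refine le_antisymm ?_ (G.mono h1j (h3.mono (by omega)) (List.subset_cons_self _ _) s)
    rw [G.Lam_congr (h3.mono (by omega)) h2j List.perm_middle.symm.subset List.perm_middle.subset s,
      e1]
    intro x hx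
    obtain ⟨l, hl, a, ha, rfl⟩ := mem_sup.1 (hd.hi_le s (G.le_hi s _ hPwj hx))
    refine add_mem (G.mono hPj h1j s1 s hl) ?_
    have ha' : a ∈ G.Lam s ((⊥, w) :: P) := by
      simpa using sub_mem hx (G.mono hPj hPwj (List.subset_cons_self _ _) s hl)
    refine sup_le (G.lo_le s _ h1j) (span_le.2 fun y hy => ?_) (a3 s ⟨ha', ha⟩)
    exact G.mem_Lam_pin h1j (List.mem_append_left _ (List.mem_map.2 ⟨(s, y), hy, rfl⟩))
      (G.Ann_le_hi hPj s (a2 _ hy).2)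
  have a5 : G.cc * (G.tp m₀ ++ P).length ≤ G.cc * (G.cc * (n + 1) + n) :=
    Nat.mul_le_mul_left _ (h1.1.trans (by omega))
  obtain ⟨ξ, b1, b2, b3⟩ := h.rad (G.tp m₀ ++ P) (h1.mono (by omega)) s2
    (by have := h1.1; change _ + G.cc * _ ≤ R; omega) (fun s => G.Ann s P)
    fun s => ⟨G.Ann_le_hi hPj s, (hd.hi_le s).trans
      (sup_le ((G.mono hPj h1j s1 s).trans le_sup_right) le_sup_left)⟩
  have b4 : ξ.length ≤ G.cc * (G.cc * (n + 1) + n) := b1.trans a5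
  have b5 : G.InAnn ξ b := Den.InAnn.anti b2 hbj hPj hs
  refine ⟨ξ ++ m₀, fun d hd => (List.mem_append.1 hd).elim (b2 d) fun hd => (a2 d hd).2, ?_, ?_,
    fun s => ?_⟩
  · rw [List.length_append]; omega
  · rwa [G.tp_append, List.append_assoc]
  · rw [G.tp_append, List.append_assoc, h.lint h1 s2 (by omega) b5 (by omega), ← e2,
      ← h.lint h3 (List.subset_cons_of_subset _ s2) (by omega) b5 (by omega)]
    exact G.Lam_congr (((G.ok_tp h1 ξ).cons hbot w).mono (by omega))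
      ((G.ok_tp h3 ξ).mono (by omega)) List.perm_middle.symm.subset List.perm_middle.subset s

end Pool.Agent.P.MP_f1a348_lc.LS
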