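import Pool.Agent.P.MP_f1a348_lc.LS.DefsB
import Pool.Agent.P.MP_f1a348_lc.LS.TEXT
import Pool.Agent.P.MP_f1a348_lc.LS.TFS

/-! Step PINP. -/

set_option autoImplicit false
set_option linter.unusedSectionVars false

namespace Pool.Agent.P.MP_f1a348_lc.LS

open Module Submodule

variable {p : ℕ} [Fact p.Prime] {W : Type} [AddCommGroup W] [Module (ZMod p) W] [Fintype W]
  {Γ : Sys p W} {ι : Type} [Fintype ι] {G : Den Γ ι} {P P' Q b : List (Pm p W)} {φ ψ : Iso p W}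
  {A₀ B₀ Λ U V : Sub p W} {a c o o' t w w' x₀ y₀ z μ : W} {n k r R : ℕ} {s u : ι}
  {m m' v v' : List (ι × W)} {A I J : Type} [Fintype I] {B B' : I → Sub p W}
  {e e' x x' y y' z' S : I → W} {so : I → ι} {σ τ τ' : Equiv.Perm I} {l : List I}

-- extend the second map to the image of the domain of the first and to `c`
theorem Sys.Tw.comp {c' : W} (h : Γ.Tw P S τ U w (w + c)) (h' : Γ.Tw P S τ' U w (w + c'))
    (hP : Γ.Ok n P) (hU : Γ.Def U) (hc : Γ.Fixes P U c)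
    (hn : 2 * (Fintype.card I + n) + 3 ≤ Γ.M) : Γ.Tw P S (τ' * τ) U w (w + (c + c')) := by
  obtain ⟨φ, a1, a2, a3, a4⟩ := h
  obtain ⟨ψ, b1, b2, b3, b4⟩ := h'
  set D : Sub p W := sp P ⊔ span (ZMod p) (Set.range S) ⊔ span (ZMod p) {w} with hD
  have hd : finrank (ZMod p) D ≤ Fintype.card I + n + 1 := by
    have h1 := EXTx.fr1 (sp P ⊔ span (ZMod p) (Set.range S)) w
    have h2 := finrank_add_le_finrank_add_finrank (sp P) (span (ZMod p) (Set.range S))
    have h3 := finrank_sp P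
    have h4 := finrank_range_le (p := p) S
    have h5 := hP.1
    rw [hD]
    omega
  obtain ⟨χ, c1, c2⟩ := Sys.extU b1 (D.map (φ : W →ₗ[ZMod p] W) ⊔ span (ZMod p) {c}) (by
    have h1 := EXTx.fr1 (D.map (φ : W →ₗ[ZMod p] W)) c
    rw [LinearEquiv.finrank_map_eq] at h1
    omega)
  have hPD : sp P ≤ D := le_sup_left.trans le_sup_left
  have hS : ∀ i, S i ∈ D := fun i => mem_sup_left (mem_sup_right (subset_span ⟨i, rfl⟩))
  have hw : w ∈ D := mem_sup_right (mem_span_singleton_self w)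
  have hm : ∀ v ∈ D, φ v ∈ D ⊔ (D.map (φ : W →ₗ[ZMod p] W) ⊔ span (ZMod p) {c}) :=
    fun v hv => mem_sup_right (mem_sup_left ⟨v, hv, rfl⟩)
  have hcm : c ∈ D ⊔ (D.map (φ : W →ₗ[ZMod p] W) ⊔ span (ZMod p) {c}) :=
    mem_sup_right (mem_sup_right (mem_span_singleton_self c))
  have hf : Fx χ P := fun d hd => by
    rw [c2 _ (hPD (mem_sp hd))]
    exact b2 d hd
  refine ⟨χ * φ, Γ.mul a1 c1 hm, fun d hd => ?_, fun i => ?_, ?_⟩
  · have h1 := Sys.Def.map (hP.2 d hd) c1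
      (sub_mem (hm _ (hPD (mem_sp hd))) (mem_sup_left (hPD (mem_sp hd)))) (a2 d hd)
    have h2 := add_mem h1 (hf d hd)
    rwa [map_sub, sub_add_sub_cancel] at h2
  · change χ (φ (S i)) = S (τ' (τ i))
    rw [a3, c2 _ (hS _), b3]
  · have h1 := Sys.Def.map hU c1 (sub_mem (hm _ hw) (add_mem (mem_sup_left hw) hcm)) a4
    have h2 := hc _ χ c1 (hPD.trans le_sup_left) hf hcm
    rw [← c2 _ hw] at b4
    have h3 := add_mem (add_mem h1 h2) b4
    change χ (φ w) - (w + (c + c')) ∈ U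
    rwa [show χ (φ w - (w + c)) + (χ c - c) + (χ w - (w + c')) = χ (φ w) - (w + (c + c')) by
      rw [map_sub, map_add]; abel] at h3

-- `Tw (σ ^ k) w (w + k • c)` for all `k ≥ 1`; `k = p ^ (r - 1)` is `1` modulo `r` and kills `c`
theorem Sys.Tw.pin (h : Γ.Tw P S σ U w (w + c)) (hP : Γ.Ok n P) (hU : Γ.Def U)
    (hc : Γ.Fixes P U c) (hn : 2 * (Fintype.card I + n) + 3 ≤ Γ.M) (hr : r.Prime) (hp : r ≠ p)
    (hσ : σ ^ r = 1) : Γ.Tw P S σ U w w := by
  have key : ∀ k : ℕ, Γ.Tw P S (σ ^ (k + 1)) U w (w + (k + 1) • c) := by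
    intro k
    induction k with
    | zero => simpa using h
    | succ k ih =>
      have := h.comp ih hP hU hc hn
      rwa [← pow_succ, ← succ_nsmul'] at this
  have hp' : p.Prime := Fact.out
  obtain ⟨k, hk⟩ : ∃ k, p ^ (r - 1) = k + 1 :=
    Nat.exists_eq_succ_of_ne_zero (pow_pos hp'.pos _).ne'
  have h1 : σ ^ (k + 1) = σ := by
    have h2 : p ^ (r - 1) ≡ 1 [MOD r] := by
      rw [← Nat.totient_prime hr]
      exact Nat.ModEq.pow_totient ((Nat.coprime_primes hp' hr).2 hp.symm)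
    rw [← hk, pow_eq_pow_mod _ hσ, h2, ← pow_eq_pow_mod _ hσ, pow_one]
  have h2 : (k + 1) • c = 0 := by
    have h3 := hr.two_le
    rw [← hk, ← Nat.cast_smul_eq_nsmul (ZMod p), Nat.cast_pow, ZMod.natCast_self,
      zero_pow (by omega), zero_smul]
  have := key k
  rwa [h1, h2, add_zero] at this

end Pool.Agent.P.MP_f1a348_lc.LS
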