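import Pool.Agent.P.MP_f1a348_lc.LS.DefsB
import Pool.Agent.P.MP_f1a348_lc.LS.TFREE
import Pool.Agent.P.MP_f1a348_lc.LS.TFRM

/-! Step UNI1. -/

set_option autoImplicit false
set_option linter.unusedSectionVars false

namespace Pool.Agent.P.MP_f1a348_lc.LS

open Module Submodule

variable {p : ℕ} [Fact p.Prime] {W : Type} [AddCommGroup W] [Module (ZMod p) W] [Fintype W]
  {Γ : Sys p W} {ι : Type} [Fintype ι] {G : Den Γ ι} {P P' Q b : List (Pm p W)} {φ ψ : Iso p W}
  {A₀ B₀ Λ U V : Sub p W} {a c o o' t w w' x₀ y₀ z μ : W} {n k r R : ℕ} {s u : ι}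
  {m m' v v' : List (ι × W)} {A I J : Type} [Fintype I] {B B' : I → Sub p W}
  {e e' x x' y y' z' S : I → W} {so : I → ι} {σ τ τ' : Equiv.Perm I} {l : List I}

-- extend the map `φ` of `Fr.tw` to `m`; `m' = φ m` lies in `Ann P` (`map_Ann`, `fam_perm`); `free` (indices `ι × W`, list `m`) gives `χ` with
-- `χ m' = m` fixing `P`; compose, extend to `w`
theorem Den.Bs.uni1 (h : G.Bs b R) (hF : G.Fr b so σ (fun _ => ⊥) S)
    (hm : G.InAnn m (fam (fun _ => ⊥) S ++ b)) (hn : m.length + Fintype.card I + b.length ≤ R)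
    (w : W) : Γ.Tw (G.tp m ++ b) S σ ⊤ w w := by
  have hM := G.hM
  have hR := h.hR
  have hb := h.ok.len
  have hP := hF.ok hb
  have hbot : ∀ _ : I, Γ.Def ⊥ := fun _ => Γ.def_bot
  have hP' := hb.fam hbot (S ∘ σ)
  have hl := G.length_tp m
  obtain ⟨hs, hs'⟩ := fam_perm (B := fun _ : I => (⊥ : Sub p W)) (σ := σ) (fun _ => rfl) S
  obtain ⟨φ, h1, h2, h3⟩ := hF.tw.ext (sp (G.tp m)) (by have := finrank_sp (G.tp m); omega)
  have hU : sp (fam (fun _ => ⊥) S ++ (G.tp m ++ b)) ≤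
      sp b ⊔ span (ZMod p) (Set.range S) ⊔ sp (G.tp m) := by
    rw [sp_append, sp_append, sp_fam]
    exact sup_le (le_sup_of_le_left le_sup_right)
      (sup_le le_sup_right (le_sup_of_le_left le_sup_left))
  have h4 : Mv φ (G.tp m ++ b) (pl (fun i : ι × W => G.lo i.1) (fun i => φ i.2) m ++ b) :=
    (mv_pl (x := Prod.snd)).2 ⟨h2, fun _ _ => by simp⟩
  have h5 := h.free (so := Prod.fst) (x := fun i : ι × W => φ i.2) (y := Prod.snd) (l := m) hP
    (List.subset_append_right _ _) (by omega) hF.nd (fun i hi => by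
      refine G.Ann_anti (hP.mono (by omega)) (hP'.mono (by omega))
        (List.append_subset.2 ⟨List.subset_append_of_subset_left _ hs',
          List.subset_append_right _ _⟩) _
        (G.map_Ann (P := fam (fun _ => ⊥) S ++ b) h1 ?_ (mv_pl.2 ⟨h2, fun i _ => h3 i⟩) (hP.mono (by omega))
          (mem_sup_right (mem_sp (e := (G.lo i.1, i.2)) (List.mem_map_of_mem hi))) (hm i hi))
      rw [sp_append, sp_fam, sup_comm]
      exact le_sup_left) hm (by omega)
    (Sys.Sim.symm ⟨φ, Sys.mono h1 ((sp_mono (List.subset_append_right _ _)).trans hU), h4⟩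
      (G.ok_tp hb m) (by omega))
  obtain ⟨χ, c1, c2, c3⟩ := Sys.sim_pl.1 h5
  have h6 : Mv φ (fam (fun _ => ⊥) S) (fam (fun _ => ⊥) (S ∘ σ)) := by
    have := (mv_pl (φ := φ) (P := []) (l := (Finset.univ : Finset I).toList)).2
      ⟨fun _ h => absurd h List.not_mem_nil, fun i _ => h3 i⟩
    rwa [List.append_nil, List.append_nil] at this
  have h7 : Γ.FS (G.tp m ++ b) (fun _ => ⊥) S (S ∘ σ) := by
    refine Sys.fs_iff.2 (Sys.Sim.trans ⟨φ, Sys.mono h1 hU, h6.append h4⟩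
      ⟨χ, Sys.mono c1 (sp_mono fun e he => ?_),
        (mv_self.2 (c2.mono (List.subset_append_of_subset_left _ hs))).append
          ((mv_pl (y := Prod.snd)).2 ⟨c2.mono (List.subset_append_right _ _), c3⟩)⟩
      ((G.ok_tp hb m).fam hbot S) (by omega))
    simp only [List.mem_append] at he ⊢
    rcases he with he | he | he
    · exact Or.inr (Or.inl (hs he))
    · exact Or.inl he
    · exact Or.inr (Or.inr he)
  obtain ⟨ψ, d1, d2, d3⟩ := h7.ext (span (ZMod p) {w}) (by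
    have : finrank (ZMod p) (span (ZMod p) {w}) ≤ 1 :=
      (finrank_span_le_card ({w} : Set W)).trans (by simp)
    rw [List.length_append]
    omega)
  exact ⟨ψ, d1, d2, fun i => sub_eq_zero.1 ((mem_bot _).1 (d3 i)), mem_top⟩

-- `c = l + t + z`, `l ∈ Lam u b`, `t ∈ Lam u P ⊓ Ann u b`, `z ∈ Lam u (m b)` (`lint`, `split`); `t` is orthogonal to `Lam (star u) P` (`Fr.spn`, `Fr.ann`,
-- `Bs.ort`, `Fr.mem_Lam`), so `t ∈ lo u`
theorem Den.Bs.lamb (h : G.Bs b R) (hF : G.Fr b so σ (fun _ => ⊥) S)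
    (hm : G.InAnn m (fam (fun _ => ⊥) S ++ b)) (hn : m.length + Fintype.card I + b.length ≤ R)
    (hc : c ∈ G.Lam u (G.tp m ++ (fam (fun _ => ⊥) S ++ b)))
    (hS : ∀ i, so i = G.star u → Γ.β (S i) c = 0) : c ∈ G.Lam u (G.tp m ++ b) := by
  have hR := h.hR
  have hb := h.ok.len
  have hP := hF.ok hb
  have hs : b ⊆ fam (fun _ => ⊥) S ++ b := List.subset_append_right _ _
  have hbj : Γ.Ok G.j b := hb.mono (by omega)
  have hPj : Γ.Ok G.j (fam (fun _ => ⊥) S ++ b) := hP.mono (by omega)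
  have hQ : Γ.Ok G.j (G.tp m ++ b) := (G.ok_tp hb m).mono (by omega)
  rw [h.lint hP hs (by omega) (hm.anti hbj hPj hs) (by omega)] at hc
  obtain ⟨a, ha, z, hz, rfl⟩ := mem_sup.1 hc
  obtain ⟨l, l1, l2, l3⟩ := h.split hPj hs ha
  obtain ⟨l', k1, k2, k3⟩ := h.split hQ (List.subset_append_right _ _) hz
  have k4 := h.ort _ (hP.mono (by omega)) hs m hm (by omega) u ⟨k2, k3⟩
  have h1 : a - l ∈ G.lo u := by
    refine hF.nd u ⟨l2, G.mem_Ann.2 fun y hy => ?_⟩
    have : G.Lam (G.star u) b ⊔ Den.spn so S (G.star u) ≤ LinearMap.ker (Γ.β.flip (a - l)) := by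
      refine sup_le (fun y hy => G.mem_Ann.1 l3 y hy) (span_le.2 ?_)
      rintro _ ⟨i, hi, rfl⟩
      have hi' : so i = G.star u := hi
      have e1 := hS i hi'
      have e2 := G.beta_Ann (hi' ▸ hF.ann i) l1
      have e3 := G.beta_Ann (hi' ▸ hF.ann i) k1
      have e4 := G.mem_Ann.1 k4 _ (hi' ▸ hF.mem_Lam hbj hPj (List.subset_append_left _ _) i)
      change Γ.β (S i) (a - l) = 0
      rw [map_add] at e1
      rw [map_sub] at e4 ⊢
      linear_combination e1 - e2 - e3 - e4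
    exact this (hF.spn _ hy)
  have := add_mem (add_mem (G.lo_le u _ hQ h1)
    (G.toGeo.mono hbj hQ (List.subset_append_right _ _) u l1)) hz
  rwa [sub_add_cancel] at this

end Pool.Agent.P.MP_f1a348_lc.LS
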