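import Pool.Agent.P.MP_f1a348_lc.LS.DefsB
import Pool.Agent.P.MP_f1a348_lc.LS.TUNI1
import Pool.Agent.P.MP_f1a348_lc.LS.TAFX
import Pool.Agent.P.MP_f1a348_lc.LS.TPINP
import Pool.Agent.P.MP_f1a348_lc.LS.TREF

/-! Step UNI2. -/

set_option autoImplicit false
set_option linter.unusedSectionVars false

namespace Pool.Agent.P.MP_f1a348_lc.LS

open Module Submodule

variable {p : ℕ} [Fact p.Prime] {W : Type} [AddCommGroup W] [Module (ZMod p) W] [Fintype W]
  {Γ : Sys p W} {ι : Type} [Fintype ι] {G : Den Γ ι} {P P' Q b : List (Pm p W)} {φ ψ : Iso p W}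
  {A₀ B₀ Λ U V : Sub p W} {a c o o' t w w' x₀ y₀ z μ : W} {n k r R : ℕ} {s u : ι}
  {m m' v v' : List (ι × W)} {A I J : Type} [Fintype I] {B B' : I → Sub p W}
  {e e' x x' y y' z' S : I → W} {so : I → ι} {σ τ τ' : Equiv.Perm I} {l : List I}

-- `P₁ = tp m ++ fam S ++ b`, `P₂ = (hi u, w) :: P₁`, `w' = φ w`, `w' - w = y + z`, `y ∈ Lam u P₁`, `z ∈ Ann u P₁`; `w'` is good over `P₂` (`Same.mid`, `Same.of_sim`,
-- `fam_perm`), so is `w + y` (`Good.add`); `afx` gives `χ`; `χ φ` shows `Tw (lo u) w (w + y)`; `pres` and `lamb`, `Bs.dcl`, `PW.fixes`, `Tw.pin`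
theorem Den.Bs.uni2 (h : G.Bs b R) (hF : G.Fr b so σ (fun _ => ⊥) S) (hr : r.Prime) (hp : r ≠ p)
    (hσ : σ ^ r = 1) (hm : G.InAnn m (fam (fun _ => ⊥) S ++ b))
    (hn : m.length + Fintype.card I + b.length + 2 ≤ R)
    (hd : G.ND (G.tp m ++ (fam (fun _ => ⊥) S ++ b)))
    (hg : G.Same ((⊥, w) :: (G.tp m ++ (fam (fun _ => ⊥) S ++ b)))
      (G.tp m ++ (fam (fun _ => ⊥) S ++ b)))
    (hw : ∀ i, Γ.β (S i) w = 0) (ht : Γ.Tw (G.tp m ++ b) S σ (G.hi u) w w) :
    Γ.Tw (G.tp m ++ b) S σ (G.lo u) w w := by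
  have hR := h.hR
  have hM := G.hM
  have okb : Γ.Ok b.length b := h.ok.len
  have okP := okb.fam (B := fun _ : I => (⊥ : Sub p W)) (fun _ => Γ.def_bot) S
  have ok1 := G.ok_tp okP m
  have ok2 := ok1.cons (G.dhi u) w
  have ok0 := G.ok_tp okb m
  have okQ := ok1.cons Γ.def_bot w
  have okP' := okb.fam (B := fun _ : I => (⊥ : Sub p W)) (fun _ => Γ.def_bot) (S ∘ σ)
  have ok2' := (G.ok_tp okP' m).cons (G.dhi u) w
  set F := fam (fun _ : I => (⊥ : Sub p W)) S with hFdef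
  set F' := fam (fun _ : I => (⊥ : Sub p W)) (S ∘ σ) with hF'def
  have hFF : F' ⊆ F ∧ F ⊆ F' := fam_perm (B := fun _ : I => (⊥ : Sub p W)) (fun _ => rfl) S
  set P₁ := G.tp m ++ (F ++ b) with hP₁
  set P₂ := (G.hi u, w) :: P₁ with hP₂
  have memS : ∀ i, ((⊥ : Sub p W), S i) ∈ F := fun i => mem_fam.2 ⟨i, rfl⟩
  have s01 : G.tp m ++ b ⊆ P₁ := by
    intro d hd; simp only [hP₁, List.mem_append] at hd ⊢; tauto
  have sF1 : F ⊆ P₁ := by
    intro d hd; simp only [hP₁, List.mem_append]; tauto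
  have s12 : P₁ ⊆ P₂ := List.subset_cons_self _ _
  have sb2 : b ⊆ P₂ := fun d hd => s12 (s01 (List.mem_append_right _ hd))
  obtain ⟨φ, hL, hf, hS, hφw⟩ := ht
  set D := sp (G.tp m ++ b) ⊔ span (ZMod p) (Set.range S) ⊔ span (ZMod p) {w} with hD
  have wD : w ∈ D := Submodule.mem_sup_right (Submodule.mem_span_singleton_self w)
  have SD : ∀ i, S i ∈ D := fun i =>
    Submodule.mem_sup_left (Submodule.mem_sup_right (Submodule.subset_span ⟨i, rfl⟩))
  have PD : ∀ d ∈ G.tp m ++ b, d.2 ∈ D := fun d hd =>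
    Submodule.mem_sup_left (Submodule.mem_sup_left (mem_sp hd))
  obtain ⟨y₁, hy₁, z₁, hz₁, hsum⟩ := Submodule.mem_sup.1 (hd.hi_le u hφw)
  have rQ : ∀ U : Sub p W, ∃ d ∈ ((⊥ : Sub p W), w) :: P₁, d.1 ≤ U ∧ d.2 - w ∈ U := fun U =>
    ⟨(⊥, w), List.mem_cons_self, bot_le, by simp⟩
  have r2Q : Rf P₂ ((⊥, w) :: P₁) := Rf.cons (Rf.of_subset (List.subset_cons_self _ _)) (rQ _)
  have same2 : G.Same P₂ P₁ :=
    hg.mid (Rf.of_subset s12) r2Q (ok1.mono (by omega)) (ok2.mono (by omega)) (okQ.mono (by omega))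
  have ok3 : ∀ x, Γ.Ok G.j ((G.lo u, x) :: P₂) := fun x => (ok2.cons (G.dlo u) x).mono (by omega)
  have gw : G.Good u P₂ w :=
    (hg.mid (Rf.of_subset (List.Subset.trans s12 (List.subset_cons_self _ _))) (Rf.cons r2Q (rQ _))
      (ok1.mono (by omega)) (ok3 w) (okQ.mono (by omega))).trans same2.symm
  have gw' : G.Good u P₂ (φ w) := by
    have hsim : Γ.Sim ((G.lo u, w) :: P₂)
        ((G.lo u, φ w) :: (G.hi u, w) :: (G.tp m ++ (F' ++ b))) := by
      refine ⟨φ, Sys.mono hL (sp_le.2 ?_), ?_⟩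
      · intro d hd
        simp only [hP₂, hP₁, List.mem_cons, List.mem_append] at hd
        rcases hd with rfl | rfl | hd | hd | hd
        · exact wD
        · exact wD
        · exact PD d (List.mem_append_left _ hd)
        · obtain ⟨i, rfl⟩ := mem_fam.1 hd
          exact SD i
        · exact PD d (List.mem_append_right _ hd)
      · refine mv_cons.2 ⟨rfl, by simp, mv_cons.2 ⟨rfl, hφw, Mv.append ?_ ?_⟩⟩
        · exact mv_self.2 (hf.mono (List.subset_append_left _ _))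
        · exact mv_pl.2 ⟨hf.mono (List.subset_append_right _ _), fun i _ => by simp [hS i]⟩
    have sub1 : P₂ ⊆ (G.hi u, w) :: (G.tp m ++ (F' ++ b)) := by
      intro d hd
      have := @hFF.2 d
      simp only [hP₂, hP₁, List.mem_cons, List.mem_append] at hd ⊢
      tauto
    have sub2 : (G.hi u, w) :: (G.tp m ++ (F' ++ b)) ⊆ P₂ := by
      intro d hd
      have := @hFF.1 d
      simp only [hP₂, hP₁, List.mem_cons, List.mem_append] at hd ⊢
      tauto
    have h1 := Den.Same.of_sim gw hsim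
      (Rf.of_subset (List.Subset.trans sub1 (List.subset_cons_self _ _))) (ok3 w)
      (ok2.mono (by omega))
    intro s
    rw [← h1 s]
    exact G.Lam_congr (ok3 _) ((ok2'.cons (G.dlo u) _).mono (by omega))
      (List.cons_subset_cons _ sub1) (List.cons_subset_cons _ sub2) s
  have gy : G.Good u P₂ (w + y₁) := gw.add ok2 (by omega) (by rw [same2 u]; exact hy₁)
  have hcl : w + y₁ ∈ Γ.cls P₂ (G.lo u) (φ w) := by
    refine h.afx ok2 sb2 (by omega) (by omega) (same2.symm.nd hd)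
      (Den.aff_of_mem List.mem_cons_self hφw) gw' gy ?_
    rw [same2.ann u]
    have : w + y₁ - φ w = -z₁ := by
      have : φ w = w + (y₁ + z₁) := by rw [hsum]; abel
      rw [this]; abel
    rw [this]
    exact (G.Ann u P₁).neg_mem hz₁
  obtain ⟨χ, hχL, hχf, hχw⟩ := Sys.mem_cls.1 hcl
  have dD : finrank (ZMod p) D ≤ m.length + b.length + Fintype.card I + 1 := by
    have e1 := finrank_sp (G.tp m ++ b)
    have e2 := finrank_range_le (p := p) S
    have e3 : finrank (ZMod p) (span (ZMod p) {w}) ≤ 1 := by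
      simpa using finrank_span_le_card (R := ZMod p) ({w} : Set W)
    have e4 := Submodule.finrank_add_le_finrank_add_finrank (sp (G.tp m ++ b))
      (span (ZMod p) (Set.range S))
    have e5 := Submodule.finrank_add_le_finrank_add_finrank
      (sp (G.tp m ++ b) ⊔ span (ZMod p) (Set.range S)) (span (ZMod p) {w})
    have e6 := ok0.1
    rw [hD]; omega
  obtain ⟨χ', hχ', he⟩ := Sys.extU hχL (D.map (φ : W →ₗ[ZMod p] W)) (by
    have e1 := finrank_sp ((G.lo u, φ w) :: P₂)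
    have e2 := (ok2.cons (G.dlo u) (φ w)).1
    have e3 := Submodule.finrank_map_le (φ : W →ₗ[ZMod p] W) D
    omega)
  have inD : ∀ x ∈ D, φ x ∈ sp ((G.lo u, φ w) :: P₂) ⊔ D.map (φ : W →ₗ[ZMod p] W) := fun x hx =>
    Submodule.mem_sup_right ⟨x, hx, rfl⟩
  have in2 : ∀ d ∈ P₂, d.2 ∈ sp ((G.lo u, φ w) :: P₂) := fun d hd =>
    mem_sp (List.mem_cons_of_mem _ hd)
  have htw : Γ.Tw (G.tp m ++ b) S σ (G.lo u) w (w + y₁) := by
    refine ⟨χ' * φ, Γ.mul hL hχ' inD, ?_, ?_, ?_⟩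
    · intro d hd
      have d2 := s12 (s01 hd)
      have a1 : χ' (φ d.2 - d.2) ∈ d.1 := (ok0.2 d hd).map hχ'
        (Submodule.sub_mem _ (inD _ (PD d hd)) (Submodule.mem_sup_left (in2 d d2))) (hf d hd)
      have a2 : χ' d.2 - d.2 ∈ d.1 := by rw [he _ (in2 d d2)]; exact hχf d d2
      have := d.1.add_mem a1 a2
      simpa [map_sub] using this
    · intro i
      have d2 := s12 (sF1 (memS (σ i)))
      have a2 := hχf _ d2
      have a3 := he _ (in2 _ d2)
      simp only [Submodule.mem_bot, sub_eq_zero] at a2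
      simp only [LinearEquiv.mul_apply, hS i]
      exact a3.trans a2
    · have := he (φ w) (mem_sp (e := (G.lo u, φ w)) List.mem_cons_self)
      simp only [LinearEquiv.mul_apply]
      rw [this]; exact hχw
  have hbj : Γ.Ok G.j b := okb.mono (by omega)
  have hy0 : y₁ ∈ G.Lam u (G.tp m ++ b) := by
    refine h.lamb hF hm (by omega) hy₁ fun i hi => ?_
    have b1 : Γ.β (S i) (φ w) = 0 := by
      have := Γ.pres hL (SD (σ.symm i)) wD
      rw [hS, Equiv.apply_symm_apply, hw] at this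
      exact this
    have b2 : Γ.β (S i) z₁ = 0 := G.mem_Ann.1 hz₁ _ (by
      rw [← hi]; exact hF.mem_Lam hbj (ok1.mono (by omega)) sF1 i)
    have : y₁ = φ w - w - z₁ := by rw [← hsum]; abel
    rw [this, map_sub, map_sub, b1, b2, hw]; simp
  have hpw : G.PW (G.tp m ++ b) :=
    h.dcl m (hm.anti hbj (okP.mono (by omega)) (List.subset_append_right _ _)) (by omega)
  exact htw.pin ok0 (G.dlo u) (hpw.fixes hy0) (by omega) hr hp hσ

end Pool.Agent.P.MP_f1a348_lc.LS
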