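import Pool.Agent.P.MP_f1a348_lc.LS.DefsB
import Pool.Agent.P.MP_f1a348_lc.LS.TUNI0
import Pool.Agent.P.MP_f1a348_lc.LS.TUNI2

/-! Step UNI. -/

set_option autoImplicit false
set_option linter.unusedSectionVars false

namespace Pool.Agent.P.MP_f1a348_lc.LS

open Module Submodule

variable {p : ℕ} [Fact p.Prime] {W : Type} [AddCommGroup W] [Module (ZMod p) W] [Fintype W]
  {Γ : Sys p W} {ι : Type} [Fintype ι] {G : Den Γ ι} {P P' Q b : List (Pm p W)} {φ ψ : Iso p W}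
  {A₀ B₀ Λ U V : Sub p W} {a c o o' t w w' x₀ y₀ z μ : W} {n k r R : ℕ} {s u : ι}
  {m m' v v' : List (ι × W)} {A I J : Type} [Fintype I] {B B' : I → Sub p W}
  {e e' x x' y y' z' S : I → W} {so : I → ι} {σ τ τ' : Equiv.Perm I} {l : List I}

namespace UNIx

theorem ok_tp (G : Den Γ ι) (m : List (ι × W)) (hb : Γ.Ok n b) :
    Γ.Ok (m.length + b.length) (G.tp m ++ b) := by
  refine ⟨by simp [Den.tp], fun c hc => ?_⟩
  rcases List.mem_append.1 hc with hc | hc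
  · obtain ⟨d, -, rfl⟩ := List.mem_map.1 hc
    exact G.dlo _
  · exact hb.2 c hc

theorem tw_nil (h : Γ.Tw P S σ U w w') : Γ.Tw [] S σ U w w' := by
  obtain ⟨φ, h1, -, h3, h4⟩ := h
  refine ⟨φ, Γ.loc h1 (sup_le_sup_right (sup_le_sup_right (span_mono ?_) _) _) fun _ _ => rfl,
    fun c hc => absurd hc List.not_mem_nil, h3, h4⟩
  rintro x ⟨c, hc, -⟩
  exact absurd hc List.not_mem_nil

end UNIx

-- `close`, `uni1`; show `Tw U → Tw ⊥` for `U ∈ ch` by induction on `finrank U` (`Chain.below`, `Den.pin`): `uni2`, or `Pinned.fixes` and `Tw.pin` with `c = φ w - w`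
theorem Den.Bs.uni (h : G.Bs b R) (hF : G.Fr b so σ (fun _ => ⊥) S) (hr : r.Prime) (hp : r ≠ p)
    (hσ : σ ^ r = 1) (hR : (G.cc + 1) ^ 2 * (Fintype.card I + b.length + 1) + 2 ≤ R)
    (hw : ∀ i, Γ.β (S i) w = 0) : Γ.Tw [] S σ ⊥ w w := by
  have hb : Γ.Ok b.length b := ⟨le_rfl, h.ok.2⟩
  obtain ⟨m, hm, hl, hd, hg⟩ := h.close (hF.ok hb) (List.subset_append_right _ _)
    (Nat.le_add_left _ _) hF.nd (by omega) w
  have key : ∀ (k : ℕ) (U : Sub p W), finrank (ZMod p) U = k → U ∈ G.ch →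
      Γ.Tw (G.tp m ++ b) S σ U w w → Γ.Tw (G.tp m ++ b) S σ ⊥ w w := by
    intro k
    induction k using Nat.strong_induction_on with
    | _ k ih =>
      intro U hk hU ht
      by_cases h0 : U = ⊥
      · exact h0 ▸ ht
      obtain ⟨V, hV⟩ := G.chain.below hU h0
      refine ih _ (hk ▸ Submodule.finrank_lt_finrank_of_lt hV.2.2.1) V rfl hV.1 ?_
      rcases G.pin V U hV with ⟨u, rfl, rfl⟩ | ⟨hpin, -⟩
      · exact h.uni2 hF hr hp hσ hm (by omega) hd hg hw ht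
      · obtain ⟨φ, h1, h2, h3, h4⟩ := ht
        have h5 : Γ.Tw (G.tp m ++ b) S σ V w (w + (φ w - w)) := ⟨φ, h1, h2, h3, by simp⟩
        have h6 := G.hM
        have h7 := h.hR
        exact h5.pin (UNIx.ok_tp G m hb) (G.chain.df V hV.1) (hpin.fixes _ h4) (by omega) hr hp hσ
  exact UNIx.tw_nil (key _ ⊤ rfl G.chain.top (h.uni1 hF hm (by omega) w))

end Pool.Agent.P.MP_f1a348_lc.LS
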