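import Pool.Agent.P.MP_f1a348_lc.LS.DefsB
import Pool.Agent.P.MP_f1a348_lc.LS.TFRAME
import Pool.Agent.P.MP_f1a348_lc.LS.TLIFT
import Pool.Agent.P.MP_f1a348_lc.LS.TUNI
import Pool.Agent.P.MP_f1a348_lc.LS.TNDG
import Pool.Agent.P.MP_f1a348_lc.LS.TAUT
import Pool.Agent.P.MP_f1a348_lc.LS.TNBF

/-! Step BRF. -/

set_option autoImplicit false
set_option linter.unusedSectionVars false

namespace Pool.Agent.P.MP_f1a348_lc.LS

open Module Submodule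

variable {p : ℕ} [Fact p.Prime] {W : Type} [AddCommGroup W] [Module (ZMod p) W] [Fintype W]
  {Γ : Sys p W} {ι : Type} [Fintype ι] {G : Den Γ ι} {P P' Q b : List (Pm p W)} {φ ψ : Iso p W}
  {A₀ B₀ Λ U V : Sub p W} {a c o o' t w w' x₀ y₀ z μ : W} {n k r R : ℕ} {s u : ι}
  {m m' v v' : List (ι × W)} {A I J : Type} [Fintype I] {B B' : I → Sub p W}
  {e e' x x' y y' z' S : I → W} {so : I → ι} {σ τ τ' : Equiv.Perm I} {l : List I}

-- `r` a prime above `p`, `c = ρ * K + 1`, `H n = (c ^ 2 + 2) * ((r + 2) * (c ^ 2 * (n + 1)) + n + 1) + 2`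
theorem br_of (h : BASE) : BR := by
  intro p _ K C ρ
  obtain ⟨r, hpr, hr⟩ := Nat.exists_infinite_primes (p + 1)
  have mono : ∀ Y t : ℕ, (Y + 2) * t = Y * t + 2 * t := fun Y t => add_mul _ _ _
  obtain ⟨j, hj⟩ := h p K C ρ (fun n => ((ρ * K + 1) ^ 2 + 2) *
    ((r + 2) * ((ρ * K + 1) ^ 2 * (n + 1)) + n + 1) + 2) fun n => by rw [mono]; omega
  refine ⟨j, fun W _ _ _ Γ ι _ _ G hK hC hJ hρ => ?_⟩
  obtain ⟨b, hb⟩ := hj W Γ ι G hK hC hJ hρ
  have hX : (G.cc + 1) ^ 2 ≤ (ρ * K + 1) ^ 2 := Nat.pow_le_pow_left (Nat.succ_le_succ (by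
    rw [Den.cc, hK]; exact Nat.mul_le_mul_right _ hρ)) 2
  have h1 := Nat.mul_le_mul_left (r + 2) (Nat.mul_le_mul_right (b.length + 1) hX)
  rw [mono] at hb
  have h2 := hb.hR
  have h3 := G.hM
  obtain ⟨I, _, so, σ, x, hI, hσ, hF⟩ := hb.frame hr.two_le (by omega)
  have h4 : Fintype.card I ≤ (r + 2) * ((ρ * K + 1) ^ 2 * (b.length + 1)) :=
    hI.trans ((Nat.mul_le_mul_right _ (Nat.le_add_right r 2)).trans h1)
  have h5 := Nat.mul_le_mul hX (Nat.add_le_add_right (Nat.add_le_add_right h4 b.length) 1)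
  obtain ⟨S, hS⟩ := hb.lift hF hr (by omega) hσ (by omega)
  have ok : Γ.Ok b.length b := ⟨le_rfl, hb.ok.2⟩
  rw [← hJ]
  exact hS.nbf ok (by omega) fun ψ hψ => Sys.aut_of_uni (hS.ndg ok (by omega))
    (fun w hw => hb.uni hS hr (by omega) hσ (by omega) hw) (by omega) hψ

end Pool.Agent.P.MP_f1a348_lc.LS
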