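import Pool.Agent.P.MP_f1a348_lc.LS.Base
import Pool.Agent.P.MP_f1a348_lc.LS.TCLS

/-! Step QUO. -/

set_option autoImplicit false
set_option linter.unusedSectionVars false

namespace Pool.Agent.P.MP_f1a348_lc.LS

open Module Submodule

variable {p : ℕ} [Fact p.Prime] {W : Type} [AddCommGroup W] [Module (ZMod p) W] [Fintype W]
  {Γ : Sys p W} {ι : Type} [Fintype ι] {P P' P'' R R' b : List (Pm p W)} {φ ψ : Iso p W}
  {A B B' D T U U' V : Sub p W} {S X Y : Set W} {a a' c v w x x' y y' z μ : W} {n m r : ℕ}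
  {s t : ι} {l l' : List W}

namespace QUOx

theorem shift (B : Sub p W) (x : W) : {y | x - y ∈ B}.ncard = nc B := by
  rw [nc, ← Set.ncard_image_of_injective (B : Set W) (sub_right_injective (b := x))]
  congr 1
  ext y
  constructor
  · intro hy
    exact ⟨x - y, hy, by simp⟩
  · rintro ⟨u, hu, rfl⟩
    simpa using hu

end QUOx

-- count the pairs `(x, d)` in `S × D` by their sum
theorem ncard_sat (hS : S ⊆ A) (hB : ∀ x ∈ S, ∀ y, x - y ∈ B → y ∈ S) (h : D ⊓ A = B) :
    {z | ∃ x ∈ S, x - z ∈ D}.ncard * nc B = S.ncard * nc D := by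
  classical
  rw [Set.ncard_eq_toFinset_card' {z | ∃ x ∈ S, x - z ∈ D}, Set.ncard_eq_toFinset_card' S]
  refine Finset.card_mul_eq_card_mul (fun z x => x - z ∈ D) ?_ ?_
  · intro z hz
    obtain ⟨x0, hx0, hd⟩ : ∃ x ∈ S, x - z ∈ D := by simpa using hz
    rw [← QUOx.shift B x0, ← Set.ncard_coe_finset]
    congr 1
    ext u
    simp only [Finset.coe_bipartiteAbove, Set.mem_toFinset, Set.mem_ofPred_eq]
    constructor
    · rintro ⟨hu, hu'⟩
      rw [← h]
      refine ⟨?_, A.sub_mem (hS hx0) (hS hu)⟩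
      have := D.sub_mem hd hu'
      rwa [sub_sub_sub_cancel_right] at this
    · intro hu
      refine ⟨hB x0 hx0 u hu, ?_⟩
      have h1 : x0 - u ∈ D := by
        rw [← h] at hu
        exact hu.1
      have := D.sub_mem hd h1
      rwa [sub_sub_sub_cancel_left] at this
  · intro u hu
    have hu' : u ∈ S := by simpa using hu
    rw [← QUOx.shift D u, ← Set.ncard_coe_finset]
    congr 1
    ext z
    simp only [Finset.coe_bipartiteBelow, Set.mem_toFinset, Set.mem_ofPred_eq]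
    exact ⟨fun hz => hz.2, fun hz => ⟨⟨u, hu', hz⟩, hz⟩⟩

theorem Sys.cls_quo (hA : Γ.Def A) (hx : x ∈ A) (h : D ⊓ A = B) (P : List (Pm p W)) :
    (Γ.cls P D x).ncard * nc B = (Γ.cls P B x).ncard * nc D := by
  have hBA : B ≤ A := by rw [← h]; exact inf_le_right
  have hBD : B ≤ D := by rw [← h]; exact inf_le_left
  rw [← ncard_sat (Sys.cls_sub (hA.inv P) hBA hx) (fun y hy z hz => Sys.cls_add hy hz) h]
  congr 2
  ext z
  constructor
  · intro hz
    obtain ⟨φ, h1, h2, h3⟩ := Sys.mem_cls.1 hz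
    refine ⟨φ x, Sys.mem_cls.2 ⟨φ, Sys.mono h1 (sp_le.2 fun e he => ?_), h2, by simp⟩, h3⟩
    rcases List.mem_cons.1 he with rfl | he
    · exact mem_sp (e := (D, x)) List.mem_cons_self
    · exact mem_sp (List.mem_cons_of_mem _ he)
  · rintro ⟨y, hy, hz⟩
    exact Sys.cls_add (Sys.cls_coarse hBD P x hy) hz

end Pool.Agent.P.MP_f1a348_lc.LS
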