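import Pool.Agent.P.MP_f1a348_lc.LS.Base
import Pool.Agent.P.MP_f1a348_lc.LS.TQUO

/-! Step CONV. -/

set_option autoImplicit false
set_option linter.unusedSectionVars false

namespace Pool.Agent.P.MP_f1a348_lc.LS

open Module Submodule

variable {p : ℕ} [Fact p.Prime] {W : Type} [AddCommGroup W] [Module (ZMod p) W] [Fintype W]
  {Γ : Sys p W} {ι : Type} [Fintype ι] {P P' P'' R R' b : List (Pm p W)} {φ ψ : Iso p W}
  {A B B' D T U U' V : Sub p W} {S X Y : Set W} {a a' c v w x x' y y' z μ : W} {n m r : ℕ}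
  {s t : ι} {l l' : List W}

-- `v' = φ v + δ`; `Nb j D v'` contains `(Nb j' B (φ v) ∩ A) + D`; `ncard_sat`, `cls_quo`
theorem Sys.conv {j j' q : ℕ} (hA : Γ.Def A) (hD : Γ.Def D) (h : D ⊓ A = B) (hv : v ∈ A)
    (hj : j' ≤ j) (H : ∀ v' ∈ Γ.cls [] B v, nc A ≤ q * (Γ.Nb j' B v' ∩ A).ncard) :
    ∀ v' ∈ Γ.cls [] D v, (Γ.cls [] D v).ncard ≤ q * (Γ.Nb j D v').ncard := by
  intro v' hv'
  obtain ⟨φ, hL, hF, hφ⟩ := Sys.mem_cls.1 hv'
  have hBA : B ≤ A := h ▸ inf_le_right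
  have hBD : B ≤ D := h ▸ inf_le_left
  have hvs : v ∈ sp ((D, v) :: ([] : List (Pm p W))) := mem_sp (e := (D, v)) (by simp)
  have hu : φ v ∈ Γ.cls [] B v :=
    Sys.map_mem_cls hL (sp_mono (by simp)) hF hvs B
  have h1 := H _ hu
  have hsat := ncard_sat (S := Γ.Nb j' B (φ v) ∩ A) (A := A) (B := B) (D := D)
    Set.inter_subset_right (by
      rintro x ⟨⟨a, ha, hr, hx⟩, hxA⟩ y hy
      refine ⟨⟨a, ha, hr, ?_⟩, ?_⟩
      · have e : y - a (φ v) = (x - a (φ v)) - (x - y) := by abel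
        rw [e]
        exact B.sub_mem hx hy
      · have e : y = x - (x - y) := by abel
        rw [e]
        exact A.sub_mem hxA (hBA hy)) h
  have hsub : {z | ∃ x ∈ Γ.Nb j' B (φ v) ∩ A, x - z ∈ D} ⊆ Γ.Nb j D v' := by
    rintro z ⟨x, ⟨⟨a, ha, hr, hx⟩, -⟩, hz⟩
    refine ⟨a, ha, hr.trans hj, ?_⟩
    have h2 : a (φ v - v') ∈ D :=
      Sys.Def.map hD (ha (φ v - v')) (Submodule.mem_span_singleton_self _) hφ
    have e : z - a v' = (x - a (φ v)) - (x - z) + a (φ v - v') := by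
      rw [map_sub]
      abel
    rw [e]
    exact D.add_mem (D.sub_mem (hBD hx) hz) h2
  have h3 := Set.ncard_le_ncard hsub (Set.toFinite _)
  have h4 : (Γ.cls [] B v).ncard ≤ nc A :=
    Set.ncard_le_ncard (Sys.cls_sub hA hBA hv) (Set.toFinite _)
  have h5 := Sys.cls_quo hA hv h []
  refine Nat.le_of_mul_le_mul_right ?_ (nc_pos B)
  calc (Γ.cls [] D v).ncard * nc B = (Γ.cls [] B v).ncard * nc D := h5
    _ ≤ q * (Γ.Nb j' B (φ v) ∩ A).ncard * nc D := Nat.mul_le_mul_right _ (h4.trans h1)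
    _ = q * ({z | ∃ x ∈ Γ.Nb j' B (φ v) ∩ A, x - z ∈ D}.ncard * nc B) := by
      rw [hsat, mul_assoc]
    _ ≤ q * ((Γ.Nb j D v').ncard * nc B) :=
      Nat.mul_le_mul_left _ (Nat.mul_le_mul_right _ h3)
    _ = q * (Γ.Nb j D v').ncard * nc B := by rw [mul_assoc]

end Pool.Agent.P.MP_f1a348_lc.LS
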