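import Pool.Agent.P.MP_f1a348_lc.LS.Base
import Pool.Agent.P.MP_f1a348_lc.LS.TQUO
import Pool.Agent.P.MP_f1a348_lc.LS.TSPAN

/-! Step DEN. -/

set_option autoImplicit false
set_option linter.unusedSectionVars false

namespace Pool.Agent.P.MP_f1a348_lc.LS

open Module Submodule

variable {p : ℕ} [Fact p.Prime] {W : Type} [AddCommGroup W] [Module (ZMod p) W] [Fintype W]
  {Γ : Sys p W} {ι : Type} [Fintype ι] {P P' P'' R R' b : List (Pm p W)} {φ ψ : Iso p W}
  {A B B' D T U U' V : Sub p W} {S X Y : Set W} {a a' c v w x x' y y' z μ : W} {n m r : ℕ}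
  {s t : ι} {l l' : List W}

theorem Layer.unique {C : Finset (Sub p W)} (h : Layer C B A) (h' : Layer C B U) : A = U :=
  le_antisymm (h.2.2.2 U h'.2.1 h'.2.2.1) (h'.2.2.2 A h.2.1 h.2.2.1)

theorem Giant.perp {C : Finset (Sub p W)} {g : ℕ} (hC : Chain Γ C) (h : Giant g C B A) :
    Giant g C (Γ.perp A) (Γ.perp B) := by
  have anti : ∀ {X Y : Sub p W}, X ≤ Y → Γ.perp Y ≤ Γ.perp X :=
    fun e => LinearMap.BilinForm.orthogonal_le e
  have sa : ∀ {X Y : Sub p W}, X < Y → Γ.perp Y < Γ.perp X := fun {X Y} e =>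
    lt_of_le_of_ne (anti e.le) fun e' => e.ne (by rw [← Γ.perp_perp X, ← e', Γ.perp_perp])
  obtain ⟨⟨h1, h2, h3, h4⟩, h5⟩ := h
  refine ⟨⟨hC.perp A h2, hC.perp B h1, sa h3, fun U hU e => ?_⟩, ?_⟩
  · have e1 : Γ.perp U < A := by simpa only [Γ.perp_perp] using sa e
    have e2 : Γ.perp U ≤ B := by
      rcases hC.tot _ (hC.perp U hU) B h1 with e2 | e2
      · exact e2
      · exact (e2.eq_or_lt.resolve_right fun e3 => e1.not_ge (h4 _ (hC.perp U hU) e3)).ge
    simpa only [Γ.perp_perp] using anti e2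
  · have := Γ.finrank_perp A
    have := Γ.finrank_perp B
    omega

-- `lo s = s`, `hi s` chosen, `cand = hi`, `N = nc hi`, `Lam s P = Λ ⊓ hi s` with `Λ` chosen from `sat`; `cls_quo` for `big`
theorem exists_den {C : Finset (Sub p W)} {g K j c₀ : ℕ} {D T : Sub p W → Sub p W}
    {h : Sub p W → ℕ} (hC : Chain Γ C) (hM : 8 * j + 8 ≤ Γ.M) (hc : 1 ≤ c₀)
    (hg : 64 * (K * j + c₀) < g) (hp : ∀ B A, Layer C B A → Giant g C B A ∨
      (Γ.Pinned B A ∧ finrank (ZMod p) A ≤ finrank (ZMod p) B + 1))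
    (hs : ∀ B A, Giant g C B A → Sat Γ K j B A (D B) (T B) (h B))
    (hh : ∀ B A, Giant g C B A → finrank (ZMod p) A ≤ finrank (ZMod p) B + h B + c₀) :
    ∃ G : Den Γ {B // ∃ A, Giant g C B A}, G.K = K ∧ G.C = c₀ ∧ G.j = j ∧
      ∀ s, Giant g C (G.lo s) (G.hi s) := by
  choose hi hhi using fun s : {B // ∃ A, Giant g C B A} => s.2
  have st := fun s => hs _ _ (hhi s)
  choose! Λ h1 h2 h3 h4 h5 h6 using fun s P hP => (st s).sat P hP
  have dhi : ∀ s, Γ.Def (hi s) := fun s => hC.df _ (hhi s).1.2.1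
  have lh : ∀ s, s.1 ≤ hi s := fun s => (hhi s).1.2.2.1.le
  have p1 : 1 < p := (Fact.out : p.Prime).one_lt
  refine ⟨{ lo := fun s => s.1
            hi := hi
            cand := fun s => hi s
            N := fun s => nc (hi s)
            K := K
            C := c₀
            j := j
            Lam := fun s P => Λ s P ⊓ hi s
            hC := hc
            hM := hM
            dlo := fun s => hC.df _ (hhi s).1.1
            dhi := dhi
            cand_hi := fun _ => subset_rfl
            cand_cls := fun s x hx => Sys.cls_sub (dhi s) (lh s) hx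
            cand_card := fun _ => rfl
            lo_le := fun s P hP =>
              le_inf (((st s).DA.ge.trans inf_le_left).trans (h1 s P hP)) (lh s)
            le_hi := fun _ _ _ => inf_le_right
            inv := fun s P hP => (h3 s P hP).inf ((dhi s).inv P)
            dim := fun s P hP => ?_
            big := fun s P hP x hx hx' => ?_
            gap := fun s => ?_
            ch := C
            chain := hC
            lay := fun s => (hhi s).1
            inj := fun _ _ e => Subtype.ext e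
            pin := fun B A hL => (hp B A hL).imp_left fun e =>
              ⟨⟨B, A, e⟩, rfl, (hhi ⟨B, A, e⟩).1.unique hL⟩
            star := fun s => ⟨_, _, (hhi s).perp hC⟩
            lo_star := fun _ => rfl
            hi_star := fun s => (hhi ⟨_, _, (hhi s).perp hC⟩).1.unique ((hhi s).perp hC).1
            cand_eq := fun _ => rfl }, rfl, rfl, rfl, hhi⟩
  · have e1 := finrank_sup_add_finrank_inf_eq (Λ s P ⊓ hi s) (D s.1)
    have e2 : Λ s P ⊓ hi s ⊓ D s.1 = s.1 := by
      rw [inf_right_comm, inf_eq_right.2 (h1 s P hP), (st s).DA]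
    have e3 := finrank_mono (sup_le (inf_le_left : Λ s P ⊓ hi s ≤ _) (h1 s P hP))
    have e4 := h4 s P hP
    rw [e2] at e1
    omega
  · have e1 := h5 s P hP x ((st s).AT hx) fun e => hx' ⟨e, hx⟩
    have e2 := Sys.cls_quo (dhi s) hx (st s).DA P
    have e3 : p ^ h s.1 * nc s.1 ≤ p ^ (K * P.length) * (Γ.cls P s.1 x).ncard := by
      refine Nat.le_of_mul_le_mul_right ?_ (nc_pos (D s.1))
      rw [mul_right_comm, mul_assoc (p ^ (K * P.length)), ← e2, ← mul_assoc]
      exact Nat.mul_le_mul_right _ e1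
    calc nc (hi s) ≤ p ^ c₀ * (p ^ h s.1 * nc s.1) := by
          rw [nc_eq, nc_eq, ← pow_add, ← pow_add]
          exact Nat.pow_le_pow_right p1.le (by have := hh _ _ (hhi s); omega)
      _ ≤ p ^ c₀ * (p ^ (K * P.length) * (Γ.cls P s.1 x).ncard) := Nat.mul_le_mul_left _ e3
      _ = _ := by rw [pow_add]; ring
  · rw [nc_eq, nc_eq, ← pow_mul, ← pow_add]
    exact Nat.pow_lt_pow_right p1 (by have := (hhi s).2; omega)

end Pool.Agent.P.MP_f1a348_lc.LS
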