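import Pool.Agent.P.MP_f1a348_lc.LS.Base
import Pool.Agent.P.MP_f1a348_lc.LS.TEXCH
import Pool.Agent.P.MP_f1a348_lc.LS.TEQV

/-! Step IND. -/

set_option autoImplicit false
set_option linter.unusedSectionVars false

namespace Pool.Agent.P.MP_f1a348_lc.LS

open Module Submodule

variable {p : ℕ} [Fact p.Prime] {W : Type} [AddCommGroup W] [Module (ZMod p) W] [Fintype W]
  {Γ : Sys p W} {ι : Type} [Fintype ι] {P P' P'' R R' b : List (Pm p W)} {φ ψ : Iso p W}
  {A B B' D T U U' V : Sub p W} {S X Y : Set W} {a a' c v w x x' y y' z μ : W} {n m r : ℕ}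
  {s t : ι} {l l' : List W}

theorem Geo.Ind.sublist {G : Geo Γ ι} (h : G.Ind s P l) (hP : Γ.Ok n P) (hn : n + l.length ≤ G.j)
    (hs : l'.Sublist l) : G.Ind s P l' := by
  induction hs with
  | slnil => trivial
  | cons a _ ih => exact ih h.2 (by rw [List.length_cons] at hn; omega)
  | cons_cons a hs ih =>
    rw [List.length_cons] at hn
    have := hs.length_le
    exact ⟨fun k => h.1 (G.mono ((hP.pins (G.dlo s) _).mono (by omega))
      ((hP.pins (G.dlo s) _).mono (by omega))
      (List.append_subset.2 ⟨List.subset_append_of_subset_left _ (pins_subset hs.subset),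
        List.subset_append_right _ _⟩) s k), ih h.2 (by omega)⟩

-- induction on the permutation; the transposition is `exch`
theorem Geo.Ind.perm {G : Geo Γ ι} (h : G.Ind s P l) (hP : Γ.Ok n P) (hn : n + l.length ≤ G.j)
    (hl : ∀ a ∈ l, a ∈ G.cand s) (hp : l.Perm l') : G.Ind s P l' := by
  induction hp with
  | nil => trivial
  | cons a hs ih =>
    rw [List.length_cons] at hn
    have := hs.length_eq
    exact ⟨fun k => h.1 (G.mono ((hP.pins (G.dlo s) _).mono (by omega))
      ((hP.pins (G.dlo s) _).mono (by omega))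
      (List.append_subset.2 ⟨List.subset_append_of_subset_left _ (pins_subset hs.symm.subset),
        List.subset_append_right _ _⟩) s k),
      ih h.2 (by omega) fun x hx => hl x (List.mem_cons_of_mem _ hx)⟩
  | swap x y l =>
    simp only [List.length_cons] at hn
    obtain ⟨h1, h2, h3⟩ := h
    have o := hP.pins (G.dlo s) l
    have hy := hl y List.mem_cons_self
    refine ⟨fun k => h1 (G.exch o (by omega) (G.cand_hi s hy) ((G.cand_le _ hy).trans
      (Nat.le_mul_of_pos_left _ (Nat.pow_pos (by have := G.two_le_Q; omega)))) k h2),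
      fun k => h1 (G.mono (o.mono (by omega)) ((o.cons (G.dlo s) x).mono (by omega))
        (List.subset_cons_self _ _) s k), h3⟩
  | trans h1 _ ih1 ih2 =>
    exact ih2 (ih1 h hn hl) (h1.length_eq ▸ hn) fun x hx => hl x (h1.symm.subset hx)

theorem Geo.Ind.nodup {G : Geo Γ ι} (h : G.Ind s P l) (hP : Γ.Ok n P) (hn : n + l.length ≤ G.j)
    (hl : ∀ a ∈ l, a ∈ G.hi s) : l.Nodup := by
  induction l with
  | nil => exact List.nodup_nil
  | cons a l ih =>
    rw [List.length_cons] at hn
    exact List.nodup_cons.2 ⟨fun k => h.1 (G.mem_Lam_pin ((hP.pins (G.dlo s) _).mono (by omega))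
      (List.mem_append_left _ (mem_pins.2 ⟨rfl, k⟩)) (hl a List.mem_cons_self)),
      ih h.2 (by omega) fun x hx => hl x (List.mem_cons_of_mem _ hx)⟩

theorem Geo.Ind.not_mem {G : Geo Γ ι} (h : G.Ind s P l) (hP : Γ.Ok n P)
    (hn : n + l.length ≤ G.j) (hl : ∀ a ∈ l, a ∈ G.cand s) (ha : a ∈ l) (hs : l' ⊆ l)
    (hl' : l'.length ≤ l.length) (ha' : a ∉ l') : a ∉ G.Lam s (pins (G.lo s) l' ++ P) := by
  classical
  have h1 := h.perm hP hn hl (List.perm_cons_erase ha)
  have h2 := List.length_erase_le (a := a) (l := l)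
  exact fun k => h1.1 (G.mono ((hP.pins (G.dlo s) _).mono (by omega))
    ((hP.pins (G.dlo s) _).mono (by omega))
    (List.append_subset.2 ⟨List.subset_append_of_subset_left _ (pins_subset fun x hx =>
      (List.mem_erase_of_ne fun (e : x = a) => ha' (e ▸ hx)).2 (hs hx)),
      List.subset_append_right _ _⟩) s k)

theorem Geo.exists_ind (G : Geo Γ ι) (hP : Γ.Ok n P) (hn : n + r ≤ G.j) (ha : a ∈ G.hi s)
    (ha' : a ∉ G.Lam s P) :
    ∃ l : List W, l.length = r ∧ (∀ x ∈ l, x ∈ Γ.cls P (G.lo s) a) ∧ G.Ind s P l := by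
  induction r with
  | zero => exact ⟨[], rfl, by simp, trivial⟩
  | succ r ih =>
    obtain ⟨l, h1, h2, h3⟩ := ih (by omega)
    obtain ⟨y, y1, y2⟩ := G.out (hP.mono (by omega))
      ((hP.pins (G.dlo s) l).mono (by omega)) ha ha'
    exact ⟨y :: l, by rw [List.length_cons, h1],
      fun x hx => (List.mem_cons.1 hx).elim (fun e => e ▸ y1) (h2 x), y2, h3⟩

-- `Lam s P ⊔ span l ≤ Lam s (pins l ++ P)`, so each element raises the dimension
theorem Geo.Ind.dim {G : Geo Γ ι} (h : G.Ind s P l) (hP : Γ.Ok n P) (hn : n + l.length ≤ G.j)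
    (hl : ∀ a ∈ l, a ∈ G.hi s) (hU : G.Lam s P ≤ U) (hl' : ∀ a ∈ l, a ∈ U) :
    finrank (ZMod p) (G.Lam s P) + l.length ≤ finrank (ZMod p) U := by
  induction l generalizing U with
  | nil => exact Submodule.finrank_mono hU
  | cons a l ih =>
    rw [List.length_cons] at hn ⊢
    have o := (hP.pins (G.dlo s) l).mono (show n + l.length ≤ G.j by omega)
    have h1 := ih (U := U ⊓ G.Lam s (pins (G.lo s) l ++ P)) h.2 (by omega)
      (fun x hx => hl x (List.mem_cons_of_mem _ hx))
      (le_inf hU (G.mono (hP.mono (by omega)) o (List.subset_append_right _ _) s))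
      fun x hx => ⟨hl' x (List.mem_cons_of_mem _ hx), G.mem_Lam_pin o
        (List.mem_append_left _ (mem_pins.2 ⟨rfl, hx⟩)) (hl x (List.mem_cons_of_mem _ hx))⟩
    have h2 : U ⊓ G.Lam s (pins (G.lo s) l ++ P) < U :=
      lt_of_le_of_ne inf_le_left fun e => h.1 (e.ge (hl' a List.mem_cons_self)).2
    have := Submodule.finrank_lt_finrank_of_lt h2
    omega

end Pool.Agent.P.MP_f1a348_lc.LS
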