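import Pool.Agent.P.MP_f1a348_lc.LS.Base
import Pool.Agent.P.MP_f1a348_lc.LS.TIND
import Pool.Agent.P.MP_f1a348_lc.LS.TKAP

/-! Step D1A. -/

set_option autoImplicit false
set_option linter.unusedSectionVars false

namespace Pool.Agent.P.MP_f1a348_lc.LS

open Module Submodule

variable {p : ℕ} [Fact p.Prime] {W : Type} [AddCommGroup W] [Module (ZMod p) W] [Fintype W]
  {Γ : Sys p W} {ι : Type} [Fintype ι] {P P' P'' R R' b : List (Pm p W)} {φ ψ : Iso p W}
  {A B B' D T U U' V : Sub p W} {S X Y : Set W} {a a' c v w x x' y y' z μ : W} {n m r : ℕ}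
  {s t : ι} {l l' : List W}

namespace D1Ax

theorem suffix (G : Geo Γ ι) (hb : Γ.Ok n b) (hn : n + 2 ≤ G.j) (s : ι) (L : List W)
    (h1 : ∀ x ∈ L, G.Tight s b x) (h2 : G.Ind s b L)
    (h3 : ¬ ∀ x ∈ L, x ∈ G.Lam s ((G.lo s, L.sum) :: b)) :
    ∃ (a : W) (l : List W), l.length < L.length ∧ (∀ x ∈ a :: l, G.Tight s b x) ∧
      G.Ind s b (a :: l) ∧ a ∉ G.Lam s ((G.lo s, a + l.sum) :: b) ∧
      ∀ x ∈ l, x ∈ G.Lam s ((G.lo s, l.sum) :: b) := by
  induction L with
  | nil => simp at h3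
  | cons a l ih =>
    by_cases h : ∀ x ∈ l, x ∈ G.Lam s ((G.lo s, l.sum) :: b)
    · refine ⟨a, l, by simp, h1, h2, fun ha => h3 ?_, h⟩
      rw [List.sum_cons]
      have ok := hb.cons (G.dlo s) (a + l.sum)
      have hi : a + l.sum ∈ G.hi s := by
        rw [← List.sum_cons]
        exact list_sum_mem fun x hx => G.cand_hi s (h1 x hx).1
      have e1 : a + l.sum ∈ G.Lam s ((G.lo s, a + l.sum) :: b) :=
        G.mem_Lam_pin (ok.mono (by omega)) List.mem_cons_self hi
      have e2 : l.sum ∈ G.Lam s ((G.lo s, a + l.sum) :: b) := by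
        simpa using sub_mem e1 ha
      have e3 := G.le_of_mem ok (by omega) (hb.1.trans (Nat.le_succ n)) (List.subset_cons_self _ _)
        e2 s
      intro x hx
      rcases List.mem_cons.1 hx with rfl | hx
      · exact ha
      · exact e3 (h x hx)
    · obtain ⟨a', l', c1, c2⟩ := ih (fun x hx => h1 x (List.mem_cons_of_mem _ hx)) h2.2 h
      exact ⟨a', l', c1.trans (by simp), c2⟩

end D1Ax

-- take `K * (|b| + 1) + 1` independent conjugates of a tight point (`exists_ind`, `Tight.conj`); by `Ind.dim`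
-- and `dim` not all lie in `Lam s ((lo s, sum) :: b)`; take the shortest suffix `a :: l` with this failure;
-- if `a` were inside, so would be `l.sum`, and `le_of_mem` puts all of `l` inside
theorem Geo.d1a (G : Geo Γ ι) (hb : Γ.Ok n b) (hn : n + G.K * (n + 1) + 3 ≤ G.j) (s : ι) :
    ∃ (a : W) (l : List W), l.length ≤ G.K * (n + 1) ∧ (∀ x ∈ a :: l, G.Tight s b x) ∧
      G.Ind s b (a :: l) ∧ a ∉ G.Lam s ((G.lo s, a + l.sum) :: b) ∧
      ∀ x ∈ l, x ∈ G.Lam s ((G.lo s, l.sum) :: b) := by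
  obtain ⟨a, ha⟩ := G.exists_tight hb (by omega) s
  obtain ⟨L, c1, c2, c3⟩ := G.exists_ind (r := G.K * (n + 1) + 1) hb (by omega)
    (G.cand_hi s ha.1) ha.2.1
  have t : ∀ x ∈ L, G.Tight s b x := fun x hx => ha.conj hb (by omega) (c2 x hx)
  obtain ⟨a', l, d1, d2⟩ := D1Ax.suffix G hb (by omega) s L t c3 fun h => by
    have ok := (hb.cons (G.dlo s) L.sum).mono (show n + 1 ≤ G.j by omega)
    have ok' := hb.mono (show n ≤ G.j by omega)
    have e1 := c3.dim hb (by omega) (fun x hx => G.cand_hi s (t x hx).1)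
      (G.mono ok' ok (List.subset_cons_self _ _) s) h
    have e2 := G.dim s _ ok
    have e3 := Submodule.finrank_mono (G.lo_le s b ok')
    have e4 : G.K * ((G.lo s, L.sum) :: b).length ≤ G.K * (n + 1) :=
      Nat.mul_le_mul_left _ (by simpa using hb.1)
    omega
  exact ⟨a', l, by omega, d2⟩

end Pool.Agent.P.MP_f1a348_lc.LS
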