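import Pool.Agent.P.MP_f1a348_lc.LS.Base
import Pool.Agent.P.MP_f1a348_lc.LS.TIND
import Pool.Agent.P.MP_f1a348_lc.LS.TLIN

/-! Step D1B. -/

set_option autoImplicit false
set_option linter.unusedSectionVars false

namespace Pool.Agent.P.MP_f1a348_lc.LS

open Module Submodule

variable {p : ℕ} [Fact p.Prime] {W : Type} [AddCommGroup W] [Module (ZMod p) W] [Fintype W]
  {Γ : Sys p W} {ι : Type} [Fintype ι] {P P' P'' R R' b : List (Pm p W)} {φ ψ : Iso p W}
  {A B B' D T U U' V : Sub p W} {S X Y : Set W} {a a' c v w x x' y y' z μ : W} {n m r : ℕ}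
  {s t : ι} {l l' : List W}

-- conjugate `a` over `(lo s, a + l.sum) :: b` to `u = φ a` outside `Lam s (pins (a :: l) ++ b)` (`out`), extend `φ` to `l`;
-- `z = u :: a :: l` is tight and independent; `(l.map φ).sum ≡ a + l.sum - u` mod `lo s`; every `φ x` lies in
-- `Lam s ((lo s, (l.map φ).sum) :: b) ≤ Lam s (pins z ++ b)` (`map_Lam`, `le_of_mem`, `mem_Lam_fixed`).
-- If every `φ x` were in some `Lam s ((lo s, m x) :: b)`, `m x ∈ z`, some `y ∈ z` is no `m x` (`Ind.nodup`), and then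
-- `y ∈ Lam s (pins (z.erase y) ++ b)`, against `Ind.not_mem`
theorem Geo.d1b (G : Geo Γ ι) (hb : Γ.Ok n b) (hn : n + l.length + 4 ≤ G.j)
    (ht : ∀ x ∈ a :: l, G.Tight s b x) (hi : G.Ind s b (a :: l))
    (ha : a ∉ G.Lam s ((G.lo s, a + l.sum) :: b))
    (hl : ∀ x ∈ l, x ∈ G.Lam s ((G.lo s, l.sum) :: b)) :
    ∃ (z : List W) (c : W), z.length = l.length + 2 ∧ (∀ x ∈ z, G.Tight s b x) ∧ G.Ind s b z ∧
      c ∈ G.cand s ∧ c ∈ G.Lam s (pins (G.lo s) z ++ b) ∧ ∀ x ∈ z, c ∉ G.Lam s ((G.lo s, x) :: b) := by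
  classical
  have hM := G.hM
  have hlo := G.dlo s
  have cz : ∀ x ∈ a :: l, x ∈ G.cand s := fun x hx => (ht x hx).1
  have ok : ∀ z : List W, z.length ≤ l.length + 2 → Γ.Ok G.j (pins (G.lo s) z ++ b) :=
    fun z hz => (hb.pins hlo z).mono (by omega)
  have ok1 : ∀ x, Γ.Ok G.j ((G.lo s, x) :: b) := fun x => (hb.cons hlo x).mono (by omega)
  obtain ⟨u, hu, hu'⟩ := G.out (ok1 (a + l.sum)) (ok (a :: l) (by simp))
    (G.cand_hi s (cz a (by simp))) ha
  obtain ⟨φ0, h0, f0, e0⟩ := Sys.mem_cls.1 hu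
  have hbl := hb.1
  obtain ⟨φ, hφ, e1⟩ := Sys.extP h0 (pins (G.lo s) l) (by
    rw [length_pins, List.length_cons, List.length_cons]; omega)
  obtain ⟨U, hU⟩ : ∃ U, U = sp (pins (G.lo s) l ++ (G.lo s, a) :: (G.lo s, a + l.sum) :: b) :=
    ⟨_, rfl⟩
  rw [← hU] at hφ
  have lU : ∀ x ∈ l, x ∈ U := fun x hx => hU ▸ mem_sp (e := (G.lo s, x))
    (List.mem_append_left _ (mem_pins.2 ⟨rfl, hx⟩))
  have bU : sp b ≤ U := hU ▸ sp_mono fun e he => by simp [he]
  have sU : l.sum ∈ U := list_sum_mem lU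
  have fb : Fx φ b := fun e he => by
    rw [e1 _ (mem_sp (by simp [he]))]
    exact f0 e (by simp [he])
  have e2 : φ a - u ∈ G.lo s := by
    rw [e1 _ (mem_sp (e := (G.lo s, a)) (by simp))]; exact e0
  have e3 : φ (a + l.sum) - (a + l.sum) ∈ G.lo s := by
    rw [e1 _ (mem_sp (e := (G.lo s, a + l.sum)) (by simp))]
    exact (fx_cons.1 f0).1
  have e4 : φ l.sum - (a + l.sum - u) ∈ G.lo s := by
    have := sub_mem e3 e2
    rw [map_add] at this
    convert this using 1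
    abel
  have tu : G.Tight s b u := (ht a (by simp)).conj hb (by omega)
    (Sys.cls_mono (fun e he => by simp [he]) _ _ hu)
  have tz : ∀ x ∈ u :: a :: l, G.Tight s b x := fun x hx =>
    (List.mem_cons.1 hx).elim (fun e => e ▸ tu) (ht x)
  have iz : G.Ind s b (u :: a :: l) := ⟨hu', hi⟩
  have hz : ∀ x ∈ u :: a :: l, x ∈ G.hi s := fun x hx => G.cand_hi s (tz x hx).1
  have lz : n + (u :: a :: l).length ≤ G.j := by simp only [List.length_cons]; omega
  have m1 : ∀ x ∈ l, φ x ∈ G.Lam s ((G.lo s, φ l.sum) :: b) := fun x hx =>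
    G.map_Lam hφ (by rw [sp_cons]; exact sup_le ((span_singleton_le_iff_mem _ _).2 sU) bU)
      (mv_cons.2 ⟨rfl, by simp, mv_self.2 fb⟩) (ok1 _) (lU x hx) (hl x hx)
  have m2 : φ l.sum ∈ G.Lam s (pins (G.lo s) (u :: a :: l) ++ b) := by
    have q : ∀ x ∈ u :: a :: l, x ∈ sp (pins (G.lo s) (u :: a :: l)) := fun x hx =>
      mem_sp (e := (G.lo s, x)) (mem_pins.2 ⟨rfl, hx⟩)
    refine G.mem_Lam_fixed (ok _ (by simp)) (List.subset_append_left _ _)
      (fun e he => (mem_pins.1 he).1.le) ?_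
      ((G.dhi s).map hφ sU (list_sum_mem (l := l) fun x hx => hz x (by simp [hx])))
    rw [← add_sub_cancel (a + l.sum - u) (φ l.sum)]
    exact add_mem_sup (sub_mem (add_mem (q a (by simp))
      (list_sum_mem (l := l) fun x hx => q x (by simp [hx]))) (q u (by simp))) e4
  have m3 := G.le_of_mem (hb.pins hlo (u :: a :: l)) (by simp only [List.length_cons]; omega)
    (P := b) (by omega) (List.subset_append_right _ _) m2 s
  by_contra hc
  have H : ∀ x ∈ l, ∃ m ∈ u :: a :: l, φ x ∈ G.Lam s ((G.lo s, m) :: b) := fun x hx => by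
    by_contra h
    exact hc ⟨u :: a :: l, φ x, by simp, tz, iz,
      G.cls_cand b (cz x (by simp [hx])) (Sys.map_mem_cls hφ bU fb (lU x hx) _), m3 (m1 x hx),
      fun m hm h' => h ⟨m, hm, h'⟩⟩
  choose! m hm hm' using H
  have nd := iz.nodup hb lz hz
  obtain ⟨y, hy, hy'⟩ : ∃ y ∈ u :: a :: l, y ∉ l.map m := by
    by_contra h
    push Not at h
    have := (List.subperm_of_subset nd h).length_le
    simp only [List.length_cons, List.length_map] at this
    omega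
  obtain ⟨z', hz'⟩ : ∃ z', z' = (u :: a :: l).erase y := ⟨_, rfl⟩
  have mz : ∀ x, x ∈ z' ↔ x ≠ y ∧ x ∈ u :: a :: l := fun x => hz' ▸ nd.mem_erase_iff
  have lz' : z'.length ≤ (u :: a :: l).length := hz' ▸ List.length_erase_le
  have oz := ok z' lz'
  refine iz.not_mem hb lz (fun x hx => (tz x hx).1) hy (l' := z') (fun x hx => ((mz x).1 hx).2) lz'
    (fun h => ((mz y).1 h).1 rfl) ?_
  have g1 : ∀ x ∈ u :: a :: l, x ≠ y → x ∈ G.Lam s (pins (G.lo s) z' ++ b) := fun x hx hxy =>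
    G.mem_Lam_pin oz (List.mem_append_left _ (mem_pins.2 ⟨rfl, (mz x).2 ⟨hxy, hx⟩⟩)) (hz x hx)
  have g2 : φ l.sum ∈ G.Lam s (pins (G.lo s) z' ++ b) := by
    rw [map_list_sum]
    refine list_sum_mem fun v hv => ?_
    obtain ⟨x, hx, rfl⟩ := List.mem_map.1 hv
    refine G.mono (ok1 _) oz (List.cons_subset.2 ⟨List.mem_append_left _ (mem_pins.2
      ⟨rfl, (mz _).2 ⟨fun e => hy' (List.mem_map.2 ⟨x, hx, e⟩), hm x hx⟩⟩),
      List.subset_append_right _ _⟩) s (hm' x hx)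
  have g3 : a + l.sum - u ∈ G.Lam s (pins (G.lo s) z' ++ b) := by
    have := sub_mem g2 (G.lo_le s _ oz e4)
    rwa [sub_sub_cancel] at this
  obtain ⟨n1, n2⟩ := List.nodup_cons.1 nd
  obtain ⟨n3, n4⟩ := List.nodup_cons.1 n2
  rcases List.mem_cons.1 hy with rfl | hy1
  · have := sub_mem (add_mem (g1 a (by simp) fun e => n1 (by simp [e]))
      (list_sum_mem (l := l) fun x hx => g1 x (by simp [hx]) fun e => n1 (by simp [← e, hx]))) g3
    rwa [sub_sub_cancel] at this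
  have gu := g1 u (by simp) fun e => n1 (e ▸ hy1)
  have g4 := add_mem g3 gu
  rw [sub_add_cancel] at g4
  rcases List.mem_cons.1 hy1 with rfl | hy2
  · have := sub_mem g4 (list_sum_mem (l := l) fun x hx => g1 x (by simp [hx]) fun e => n3 (e ▸ hx))
    rwa [add_sub_cancel_right] at this
  have := sub_mem (sub_mem g4 (g1 a (by simp) fun e => n3 (e ▸ hy2)))
    (list_sum_mem (l := l.erase y) fun x hx =>
      g1 x (by simp [(n4.mem_erase_iff.1 hx).2]) (n4.mem_erase_iff.1 hx).1)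
  rwa [add_sub_cancel_left, ← List.sum_erase hy2, add_sub_cancel_right] at this

end Pool.Agent.P.MP_f1a348_lc.LS
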