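import Pool.Agent.P.MP_f1a348_lc.LS.Base
import Pool.Agent.P.MP_f1a348_lc.LS.TIND
import Pool.Agent.P.MP_f1a348_lc.LS.TLIN

/-! Step D2. -/

set_option autoImplicit false
set_option linter.unusedSectionVars false

namespace Pool.Agent.P.MP_f1a348_lc.LS

open Module Submodule

variable {p : ℕ} [Fact p.Prime] {W : Type} [AddCommGroup W] [Module (ZMod p) W] [Fintype W]
  {Γ : Sys p W} {ι : Type} [Fintype ι] {P P' P'' R R' b : List (Pm p W)} {φ ψ : Iso p W}
  {A B B' D T U U' V : Sub p W} {S X Y : Set W} {a a' c v w x x' y y' z μ : W} {n m r : ℕ}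
  {s t : ι} {l l' : List W}

-- take a shortest sublist `l₀` of `l` with `c ∈ Lam s (pins l₀ ++ b)`; it is `z₁ :: z₂ :: l₂` (`mono`, `hc'`); `b₁ = pins l₂ ++ b`.
-- `lin` (with `Ind.sublist`): `c = β + α`, `β ∈ Lam s (z₂ :: b₁)`, `α ∈ Lam s (z₁ :: b)`. By minimality `α ∉ Lam s (z₂ :: b₁)` and
-- `β ∉ Lam s (z₁ :: b₁)`; `le_of_mem` gives the two non-memberships; `swap` for `(α, z₁)`, `nc_le_cls`, `cand_le`, `small` give the size
theorem Geo.d2 (G : Geo Γ ι) (hb : G.Stable b r) (hr : r + 1 ≤ G.j) (hb' : Γ.Ok n b)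
    (hn : n + l.length + 2 ≤ r) (hl : l ≠ []) (ht : ∀ x ∈ l, G.Tight s b x) (hi : G.Ind s b l)
    (hc : c ∈ G.Lam s (pins (G.lo s) l ++ b)) (hc' : ∀ x ∈ l, c ∉ G.Lam s ((G.lo s, x) :: b)) :
    ∃ (b₁ : List (Pm p W)) (α : W), Γ.Ok (n + l.length) b₁ ∧ α ∈ G.hi s ∧
      α ∉ G.Lam s ((G.lo s, c - α) :: b₁) ∧ c - α ∉ G.Lam s ((G.lo s, α) :: b₁) ∧
      (Γ.cls b₁ (G.lo s) α).ncard ≤ G.Q * G.N s := by
  classical
  have ex : ∃ k, ∃ l₀ : List W, l₀.length = k ∧ l₀.Sublist l ∧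
      c ∈ G.Lam s (pins (G.lo s) l₀ ++ b) := ⟨_, l, rfl, List.Sublist.refl _, hc⟩
  obtain ⟨l₀, e₀, s₀, c₀⟩ := Nat.find_spec ex
  have mn : ∀ l₁ : List W, l₁.Sublist l₀ → l₁.length < l₀.length →
      c ∉ G.Lam s (pins (G.lo s) l₁ ++ b) := fun l₁ h1 h2 h3 =>
    Nat.find_min ex (e₀ ▸ h2) ⟨l₁, rfl, h1.trans s₀, h3⟩
  have dl := G.dlo s
  have hM := G.hM
  have len := s₀.length_le
  match l₀, s₀, c₀, mn, len with
  | [], _, c₀, _, _ =>
    obtain ⟨x, hx⟩ := List.exists_mem_of_ne_nil l hl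
    exact absurd (G.mono (hb'.mono (by omega)) ((hb'.cons dl x).mono (by omega))
      (List.subset_cons_self _ _) s c₀) (hc' x hx)
  | [x], s₀, c₀, _, _ => exact absurd c₀ (hc' x (s₀.subset (List.mem_singleton_self x)))
  | z₁ :: z₂ :: l₂, s₀, c₀, mn, len =>
    simp only [List.length_cons] at len mn
    have o1 : Γ.Ok (n + l₂.length) (pins (G.lo s) l₂ ++ b) := hb'.pins dl l₂
    have n1 := mn (z₂ :: l₂) (List.sublist_cons_self _ _) (by simp)
    have n2 := mn (z₁ :: l₂) ((List.sublist_cons_self _ _).cons_cons _) (by simp)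
    have i1 := (hi.sublist hb' (by omega) s₀).1
    rw [pins_cons, List.cons_append] at n1 n2 i1 c₀
    rw [pins_cons, List.cons_append] at c₀
    have sb : b ⊆ pins (G.lo s) l₂ ++ b := List.subset_append_right _ _
    generalize pins (G.lo s) l₂ ++ b = b₁ at *
    have t1 := ht z₁ (s₀.subset List.mem_cons_self)
    have lb := hb'.1
    have l1 := o1.1
    rw [(G.lin hb hr ((o1.cons dl z₂).mono (by omega)) (by omega)
      (List.subset_cons_of_subset _ sb) t1 i1).2 s] at c₀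
    obtain ⟨β, hβ, α, hα, rfl⟩ := mem_sup.1 c₀
    have o2 : Γ.Ok G.j ((G.lo s, z₁) :: b₁) := (o1.cons dl z₁).mono (by omega)
    have hα' : α ∈ G.Lam s ((G.lo s, z₁) :: b₁) :=
      G.mono ((hb'.cons dl z₁).mono (by omega)) o2 (List.cons_subset_cons _ sb) s hα
    refine ⟨b₁, α, o1.mono (by omega), G.le_hi s _ o2 hα', ?_, ?_, ?_⟩
    · rw [add_sub_cancel_right]
      exact fun h => n1 (add_mem hβ (G.le_of_mem (o1.cons dl z₂) (by omega) (by omega)
        (List.subset_cons_self _ _) hβ s h))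
    · rw [add_sub_cancel_right]
      exact fun h => n2 (add_mem (G.le_of_mem (o1.cons dl z₁) (by omega) (by omega)
        (List.subset_cons_self _ _) hα' s h) hα')
    · have sw := Sys.swap o1 dl dl (by omega) α z₁
      have a1 := Γ.nc_le_cls ((G.lo s, α) :: b₁) (G.lo s) z₁
      have a2 := G.cand_le b₁ t1.1
      have a3 := G.small o2 hα'
      refine Nat.le_of_mul_le_mul_right ?_ (nc_pos (G.lo s))
      calc _ ≤ _ := Nat.mul_le_mul_left _ a1
        _ = _ := sw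
        _ ≤ _ := Nat.mul_le_mul a2 a3
        _ = _ := by ring

end Pool.Agent.P.MP_f1a348_lc.LS
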