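import Pool.Agent.P.MP_f1a348_lc.LS.Base
import Pool.Agent.P.MP_f1a348_lc.LS.TEXCH
import Pool.Agent.P.MP_f1a348_lc.LS.TEQV

/-! Step D3A. -/

set_option autoImplicit false
set_option linter.unusedSectionVars false

namespace Pool.Agent.P.MP_f1a348_lc.LS

open Module Submodule

variable {p : ℕ} [Fact p.Prime] {W : Type} [AddCommGroup W] [Module (ZMod p) W] [Fintype W]
  {Γ : Sys p W} {ι : Type} [Fintype ι] {P P' P'' R R' b : List (Pm p W)} {φ ψ : Iso p W}
  {A B B' D T U U' V : Sub p W} {S X Y : Set W} {a a' c v w x x' y y' z μ : W} {n m r : ℕ}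
  {s t : ι} {l l' : List W}

namespace D3Ax

theorem shift (G : Geo Γ ι) (hx : x + z ∈ G.cand s) (hy : y ∈ Γ.cls ((G.lo s, z) :: b) (G.lo s) x) :
    y + z ∈ G.cand s := by
  obtain ⟨φ, h1, h2, h3⟩ := Sys.mem_cls.1 hy
  have e1 : x ∈ sp ((G.lo s, x) :: (G.lo s, z) :: b) := mem_sp (e := (G.lo s, x)) (by simp)
  have e2 : z ∈ sp ((G.lo s, x) :: (G.lo s, z) :: b) := mem_sp (e := (G.lo s, z)) (by simp)
  have e3 := Sys.map_mem_cls (P := []) h1 (by rw [sp_nil]; exact bot_le) (fun _ h => by simp at h)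
    (add_mem e1 e2) (G.lo s)
  refine G.cand_cls s _ hx (Sys.cls_add e3 ?_)
  have := add_mem h3 (fx_cons.1 h2).1
  rwa [show φ x - y + (φ z - z) = φ (x + z) - (y + z) by rw [map_add]; abel] at this

theorem out (G : Geo Γ ι) (hb : Γ.Ok n b) (hn : n + 3 ≤ G.j) (hx : x ∈ G.hi s)
    (h1 : (Γ.cls b (G.lo s) x).ncard ≤ G.Q * G.N s) (h2 : (Γ.cls b (G.lo s) y).ncard ≤ G.Q * G.N s)
    (h3 : x ∉ G.Lam s ((G.lo s, x - y) :: b)) :
    (Γ.cls b (G.lo s) (x - y)).ncard ≤ G.Q ^ 3 * G.N s := by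
  have hM := G.hM
  have e1 := Sys.swap hb (G.dlo s) (G.dlo s) (by omega) x (x - y)
  have e2 := G.bigQ ((hb.cons (G.dlo s) (x - y)).mono (by omega)) hx h3
  have e3 : (Γ.cls ((G.lo s, x) :: b) (G.lo s) (x - y)).ncard ≤ G.Q * G.N s := by
    rw [Sys.cls_sub_card (by simp)]
    exact (Set.ncard_le_ncard (Sys.cls_mono (by simp) _ _)).trans h2
  have e0 : 0 < G.N s := lt_of_le_of_lt (Nat.zero_le _) (G.gapQ s)
  refine Nat.le_of_mul_le_mul_right ?_ e0
  calc _ ≤ (Γ.cls b (G.lo s) (x - y)).ncard *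
        (G.Q * (Γ.cls ((G.lo s, x - y) :: b) (G.lo s) x).ncard) := Nat.mul_le_mul_left _ e2
    _ = G.Q * ((Γ.cls b (G.lo s) x).ncard *
        (Γ.cls ((G.lo s, x) :: b) (G.lo s) (x - y)).ncard) := by rw [e1]; ring
    _ ≤ G.Q * (G.Q * G.N s * (G.Q * G.N s)) := Nat.mul_le_mul_left _ (Nat.mul_le_mul h1 e3)
    _ = _ := by ring

end D3Ax

-- `β = c - a`, `P = (lo s, β) :: b`. First part: `φ a ≡ φ c - β`, and `φ c ∈ cand s`.
-- Second part, `z = a - a'`: if `a' ∈ Lam s ((lo s, a) :: P)` use `swap` for `(a, z)` over `P`. Otherwise not both `a` and `c` lie in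
-- `Lam s ((lo s, z) :: b)` (else `β ∈ Lam s (a' :: a :: b)` and `exch` puts `a'` in `Lam s (β :: a :: b)`); for the one outside use
-- `swap` over `b`, `bigQ`, `cls_sub_card` (`z = a - a' = c - (a' + β)`, `a' + β ∈ cand s`), then `cls_mono`
theorem Geo.d3a (G : Geo Γ ι) (hb : Γ.Ok n b) (hn : n + 3 ≤ G.j) (hc : c ∈ G.cand s)
    (ha : a ∈ G.hi s) (h2 : c - a ∉ G.Lam s ((G.lo s, a) :: b))
    (h3 : (Γ.cls b (G.lo s) a).ncard ≤ G.Q * G.N s) :
    (Γ.cls ((G.lo s, c - a) :: b) (G.lo s) a).ncard ≤ G.N s ∧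
      ∀ a' ∈ Γ.cls ((G.lo s, c - a) :: b) (G.lo s) a,
        (Γ.cls ((G.lo s, c - a) :: b) (G.lo s) (a - a')).ncard ≤ G.Q ^ 3 * G.N s := by
  have hM := G.hM
  have hQ := G.two_le_Q
  have hd := G.dlo s
  have hch : c ∈ G.hi s := G.cand_hi s hc
  have hs : ∀ y ∈ Γ.cls ((G.lo s, c - a) :: b) (G.lo s) a, y + (c - a) ∈ G.cand s := fun y hy =>
    D3Ax.shift G (by simpa using hc) hy
  have e1 : (Γ.cls ((G.lo s, c - a) :: b) (G.lo s) a).ncard ≤ G.N s := by
    rw [← G.cand_card s]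
    exact Set.ncard_le_ncard_of_injOn (fun y => y + (c - a)) hs (add_left_injective _).injOn
  refine ⟨e1, fun a' ha' => ?_⟩
  have ha'h : a' ∈ G.hi s := G.cls_hi _ ha ha'
  have hP := hb.cons hd (c - a)
  have hN : G.N s ≤ G.Q * G.N s := Nat.le_mul_of_pos_left _ (by omega)
  by_cases h : a' ∈ G.Lam s ((G.lo s, a) :: (G.lo s, c - a) :: b)
  · have f1 := Sys.swap hP hd hd (by omega) a (a - a')
    have f2 := G.small ((hP.cons hd a).mono (by omega)) h
    rw [Sys.cls_sub_card (by simp)] at f1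
    have f3 := Γ.nc_le_cls ((G.lo s, a - a') :: (G.lo s, c - a) :: b) (G.lo s) a
    refine le_trans (Nat.le_of_mul_le_mul_right ?_ (nc_pos (G.lo s)))
      (Nat.mul_le_mul_right (G.N s) (Nat.le_self_pow (by norm_num) G.Q))
    calc _ ≤ _ := Nat.mul_le_mul_left _ f3
      _ = _ := f1.symm
      _ ≤ G.N s * (G.Q * nc (G.lo s)) := Nat.mul_le_mul e1 f2
      _ = _ := by ring
  · refine (Set.ncard_le_ncard (Sys.cls_mono (P := b) (by simp) _ _)).trans ?_
    have g1 : (Γ.cls b (G.lo s) a').ncard ≤ G.Q * G.N s := by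
      rwa [Sys.cls_eq hb hd (by omega) (Sys.cls_mono (P := b) (by simp) _ _ ha')]
    by_cases k1 : a ∈ G.Lam s ((G.lo s, a - a') :: b)
    · have ez : a - a' = c - (a' + (c - a)) := by abel
      rw [ez]
      refine D3Ax.out G hb hn hch ((G.cand_le _ hc).trans hN) ((G.cand_le _ (hs a' ha')).trans hN)
        fun k2 => h ?_
      rw [← ez] at k2
      have hP0 := hb.cons hd a
      have hP1 := hP0.cons hd a'
      have k3 : a - a' ∈ G.Lam s ((G.lo s, a') :: (G.lo s, a) :: b) :=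
        sub_mem (G.mem_Lam_pin (hP1.mono (by omega)) (by simp) ha)
          (G.mem_Lam_pin (hP1.mono (by omega)) (by simp) ha'h)
      have k4 := G.le_of_mem (P := b) hP1 (by omega) (by have := hb.1; omega)
        (fun e he => by simp [he]) k3 s (sub_mem k2 k1)
      have k5 := G.exch hP0 (by omega) ha'h
        (((Set.ncard_le_ncard (Sys.cls_mono (P := b) (by simp) _ _)).trans g1).trans
          (Nat.mul_le_mul_right (G.N s) (Nat.le_self_pow (by norm_num) G.Q))) k4 h2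
      exact G.mono ((hP0.cons hd (c - a)).mono (by omega)) ((hP.cons hd a).mono (by omega))
        (fun e he => by simp only [List.mem_cons] at he ⊢; grind) s k5
    · exact D3Ax.out G hb hn ha h3 g1 k1

end Pool.Agent.P.MP_f1a348_lc.LS
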