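import Pool.Agent.P.MP_f1a348_lc.LS.Base
import Pool.Agent.P.MP_f1a348_lc.LS.TREPS
import Pool.Agent.P.MP_f1a348_lc.LS.TEQV

/-! Step D3B. -/

set_option autoImplicit false
set_option linter.unusedSectionVars false

namespace Pool.Agent.P.MP_f1a348_lc.LS

open Module Submodule

variable {p : ℕ} [Fact p.Prime] {W : Type} [AddCommGroup W] [Module (ZMod p) W] [Fintype W]
  {Γ : Sys p W} {ι : Type} [Fintype ι] {P P' P'' R R' b : List (Pm p W)} {φ ψ : Iso p W}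
  {A B B' D T U U' V : Sub p W} {S X Y : Set W} {a a' c v w x x' y y' z μ : W} {n m r : ℕ}
  {s t : ι} {l l' : List W}

-- `S = cls P a`; `reps` over `(lo s, a) :: P` for `S ∩ Lam` (at most `Q`) and `S \ Lam` (at most `Q`); every difference lies in some
-- `cls P (a - y)` (`cls_symm`, `Sim.extend`, `Sim.trans`, `Sim.sub_mem_cls`); `bigQ` and `2 ≤ Q`
theorem Geo.d3b (G : Geo Γ ι) (hP : Γ.Ok n P) (hn : n + 2 ≤ G.j) (ha : a ∈ G.hi s)
    (ha' : a ∉ G.Lam s P) (h1 : (Γ.cls P (G.lo s) a).ncard ≤ G.N s)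
    (h2 : ∀ a' ∈ Γ.cls P (G.lo s) a, (Γ.cls P (G.lo s) (a - a')).ncard ≤ G.Q ^ 3 * G.N s) :
    {z | ∃ x ∈ Γ.cls P (G.lo s) a, ∃ y ∈ Γ.cls P (G.lo s) a, z = x - y}.ncard ≤
      G.Q ^ 6 * (Γ.cls P (G.lo s) a).ncard := by
  classical
  have hM := G.hM
  have hB := G.dlo s
  have hPj : Γ.Ok G.j P := hP.mono (by omega)
  have hP1 : Γ.Ok (n + 1) ((G.lo s, a) :: P) := hP.cons hB a
  have hP1j : Γ.Ok G.j ((G.lo s, a) :: P) := hP1.mono (by omega)
  have hN : 0 < G.N s := lt_of_le_of_lt (Nat.zero_le _) (G.gapQ s)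
  obtain ⟨F1, a1, b1, -, c1⟩ := Sys.reps hP1 hB (by omega)
    (Γ.cls P (G.lo s) a ∩ G.Lam s ((G.lo s, a) :: P))
  obtain ⟨F2, a2, b2, -, c2⟩ := Sys.reps hP1 hB (by omega)
    (Γ.cls P (G.lo s) a \ G.Lam s ((G.lo s, a) :: P))
  have k1 : F1.card ≤ G.Q := by
    have h := c1 (G.Lam s ((G.lo s, a) :: P)) (nc (G.lo s)) 1
      (fun x hx => G.cls_Lam hP1j hx.2) (fun x _ => by simpa using Γ.nc_le_cls _ _ x)
    have h' := G.nc_LamQ hP1j s
    exact Nat.le_of_mul_le_mul_right (by unfold nc at *; omega) (nc_pos (G.lo s))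
  have k2 : F2.card ≤ G.Q := by
    have h := c2 (Γ.cls P (G.lo s) a) (G.N s) G.Q
      (fun x hx => by
        rw [← Sys.cls_eq hP hB (by omega) hx.1]
        exact Sys.cls_mono (List.subset_cons_self _ _) _ _)
      (fun x hx => G.bigQ hP1j (G.cls_hi P ha hx.1) hx.2)
    exact Nat.le_of_mul_le_mul_right (h.trans (Nat.mul_le_mul_left _ h1)) hN
  have hsub : {z | ∃ x ∈ Γ.cls P (G.lo s) a, ∃ y ∈ Γ.cls P (G.lo s) a, z = x - y} ⊆
      ⋃ y ∈ F1 ∪ F2, Γ.cls P (G.lo s) (a - y) := by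
    rintro _ ⟨x, hx, y, hy, rfl⟩
    have hxa : Γ.Sim ((G.lo s, x) :: P) ((G.lo s, a) :: P) := Sys.cls_symm hP hB (by omega) hx
    obtain ⟨R', hR⟩ := hxa.extend [(G.lo s, y)] (by
      have := hP.1
      simp only [List.length_cons, List.length_nil]
      omega)
    have hl := hR.length
    obtain ⟨⟨B', y'⟩, rfl⟩ : ∃ e, R' = [e] := by
      rw [← List.length_eq_one_iff]
      simp only [List.length_append, List.length_cons, List.length_nil] at hl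
      omega
    have hR' : Γ.Sim ((G.lo s, y) :: (G.lo s, x) :: P) ((B', y') :: (G.lo s, a) :: P) := hR
    obtain rfl : B' = G.lo s := by
      obtain ⟨φ, -, h⟩ := hR'
      exact (mv_cons.1 h).1
    have hy' : y' ∈ Γ.cls P (G.lo s) a :=
      Sys.cls_trans hP hB (by omega) hy hR'.swap.tail
    obtain ⟨y0, h0, h3⟩ : ∃ y0 ∈ F1 ∪ F2, y' ∈ Γ.cls ((G.lo s, a) :: P) (G.lo s) y0 := by
      by_cases h : y' ∈ G.Lam s ((G.lo s, a) :: P)
      · obtain ⟨y0, h0, h3⟩ := b1 y' ⟨hy', h⟩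
        exact ⟨y0, Finset.mem_union_left _ h0, h3⟩
      · obtain ⟨y0, h0, h3⟩ := b2 y' ⟨hy', h⟩
        exact ⟨y0, Finset.mem_union_right _ h0, h3⟩
    have h4 : Γ.Sim ((G.lo s, y0) :: (G.lo s, a) :: P) ((G.lo s, y) :: (G.lo s, x) :: P) :=
      Sys.Sim.trans h3 (hR'.symm ((hP.cons hB x).cons hB y) (by omega)) (hP1.cons hB y0) (by omega)
    exact Set.mem_biUnion h0 h4.sub_mem_cls
  have hU : (⋃ y ∈ F1 ∪ F2, Γ.cls P (G.lo s) (a - y)).ncard ≤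
      ∑ y ∈ F1 ∪ F2, (Γ.cls P (G.lo s) (a - y)).ncard := Finset.set_ncard_biUnion_le _ _
  have hS : ∑ y ∈ F1 ∪ F2, (Γ.cls P (G.lo s) (a - y)).ncard ≤
      (F1 ∪ F2).card * (G.Q ^ 3 * G.N s) := by
    refine Finset.sum_le_card_nsmul _ _ _ fun y hy => h2 y ?_
    rcases Finset.mem_union.1 hy with h | h
    · exact (a1 h).1
    · exact (a2 h).1
  have hc : (F1 ∪ F2).card ≤ G.Q * G.Q := by
    have := Finset.card_union_le F1 F2
    have h2 := G.two_le_Q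
    nlinarith
  calc _ ≤ _ := Set.ncard_le_ncard hsub (Set.toFinite _)
    _ ≤ _ := hU
    _ ≤ _ := hS
    _ ≤ G.Q * G.Q * (G.Q ^ 3 * (G.Q * (Γ.cls P (G.lo s) a).ncard)) :=
      Nat.mul_le_mul hc (Nat.mul_le_mul_left _ (G.bigQ hPj ha ha'))
    _ = _ := by ring

end Pool.Agent.P.MP_f1a348_lc.LS
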