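import Pool.Agent.P.MP_f1a348_lc.LS.Base
import Pool.Agent.P.MP_f1a348_lc.LS.TSP

/-! Step D4. -/

set_option autoImplicit false
set_option linter.unusedSectionVars false

namespace Pool.Agent.P.MP_f1a348_lc.LS

open Module Submodule

variable {p : ℕ} [Fact p.Prime] {W : Type} [AddCommGroup W] [Module (ZMod p) W] [Fintype W]
  {Γ : Sys p W} {ι : Type} [Fintype ι] {P P' P'' R R' b : List (Pm p W)} {φ ψ : Iso p W}
  {A B B' D T U U' V : Sub p W} {S X Y : Set W} {a a' c v w x x' y y' z μ : W} {n m r : ℕ}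
  {s t : ι} {l l' : List W}

namespace D4x

open Pointwise

theorem cover [DecidableEq W] {S : Finset W} (hS : S.Nonempty) (h : (S - S).card ≤ m * S.card) :
    ∃ F : Finset W, F.card ≤ m ^ 4 ∧ ∀ x ∈ S, ∀ a ∈ S, ∀ b ∈ S,
      ∃ f ∈ F, ∃ c ∈ S, ∃ d ∈ S, x + a - b = f + (c - d) := by
  have h0 : (0 : ℚ≥0) < S.card := by exact_mod_cast hS.card_pos
  have h1 := Finset.pluennecke_ruzsa_inequality_nsmul_sub_nsmul_sub hS S 3 1
  have h2 : ((S - S).card / S.card : ℚ≥0) ≤ m := by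
    rw [div_le_iff₀ h0]; exact_mod_cast h
  have h3 : (3 • S - 1 • S).card ≤ m ^ 4 * S.card := by
    have : ((3 • S - 1 • S).card : ℚ≥0) ≤ (m : ℚ≥0) ^ 4 * S.card := h1.trans (by gcongr)
    exact_mod_cast this
  have e : S + S - S + S = 3 • S - 1 • S := by
    rw [one_nsmul, show 3 • S = S + S + S by rw [succ_nsmul, two_nsmul], sub_eq_add_neg,
      sub_eq_add_neg, add_right_comm]
  obtain ⟨F, -, hF, hA⟩ := Finset.ruzsa_covering_add (A := S + S - S) (K := (m : ℝ) ^ 4) hS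
    (by rw [e]; exact_mod_cast h3)
  refine ⟨F, by exact_mod_cast hF, fun x hx a ha b hb => ?_⟩
  obtain ⟨f, hf, y, hy, e1⟩ := Finset.mem_add.1
    (hA (Finset.sub_mem_sub (Finset.add_mem_add hx ha) hb))
  obtain ⟨c, hc, d, hd, rfl⟩ := Finset.mem_sub.1 hy
  exact ⟨f, hf, c, hc, d, hd, e1.symm⟩

theorem im2 (X Y : Set W) : (Set.image2 (· + ·) X Y).ncard ≤ X.ncard * Y.ncard := by
  rw [← Set.image_uncurry_prod, ← Set.ncard_prod]
  exact Set.ncard_image_le (Set.toFinite _)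

/-- the span of `F` plus the difference set -/
def zz (p : ℕ) [Fact p.Prime] {W : Type} [AddCommGroup W] [Module (ZMod p) W] (F S : Finset W) :
    Set W := {z | ∃ u ∈ span (ZMod p) (F : Set W), ∃ a ∈ S, ∃ b ∈ S, z = u + (a - b)}

end D4x

-- `Finset.pluennecke_ruzsa_inequality_nsmul_sub_nsmul_sub` (3 S - S), `Finset.ruzsa_covering_add` for `S + S - S` by `S`:
-- `S + (S - S) ⊆ F + (S - S)`, so `span F + (S - S)` is closed under adding `S` and contains `span S`
open Pointwise in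
theorem freiman (hS : S.Nonempty) (h : {z | ∃ x ∈ S, ∃ y ∈ S, z = x - y}.ncard ≤ m * S.ncard) :
    nc (span (ZMod p) S : Sub p W) ≤ p ^ (m ^ 4) * (m * S.ncard) := by
  classical
  lift S to Finset W using Set.toFinite S
  have hS' : S.Nonempty := Finset.coe_nonempty.1 hS
  have e : {z | ∃ x ∈ (S : Set W), ∃ y ∈ (S : Set W), z = x - y} = ((S - S : Finset W) : Set W) := by
    ext z
    simp only [Set.mem_ofPred_eq, Finset.mem_coe, Finset.mem_sub]
    exact ⟨fun ⟨x, hx, y, hy, h⟩ => ⟨x, hx, y, hy, h.symm⟩,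
      fun ⟨x, hx, y, hy, h⟩ => ⟨x, hx, y, hy, h.symm⟩⟩
  rw [e, Set.ncard_coe_finset, Set.ncard_coe_finset] at h
  rw [Set.ncard_coe_finset]
  obtain ⟨F, hF, hA⟩ := D4x.cover hS' h
  have k : ∀ x ∈ span (ZMod p) (S : Set W), ∀ z ∈ D4x.zz p F S, z + x ∈ D4x.zz p F S := by
    intro x hx
    induction hx using span_induction with
    | mem x hx =>
      rintro _ ⟨u, hu, a, ha, b, hb, rfl⟩
      obtain ⟨f, hf, c, hc, d, hd, e⟩ := hA x hx a ha b hb
      refine ⟨u + f, add_mem hu (subset_span hf), c, hc, d, hd, ?_⟩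
      rw [add_assoc, add_assoc, ← e]
      abel
    | zero => intro z hz; rwa [add_zero]
    | add x y _ _ h1 h2 => intro z hz; rw [← add_assoc]; exact h2 _ (h1 z hz)
    | smul c x _ h1 =>
      rw [← ZMod.natCast_zmod_val c, Nat.cast_smul_eq_nsmul]
      induction c.val with
      | zero => intro z hz; rwa [zero_nsmul, add_zero]
      | succ n ih => intro z hz; rw [succ_nsmul, ← add_assoc]; exact h1 _ (ih z hz)
  obtain ⟨a, ha⟩ := hS'
  have sub : ((span (ZMod p) (S : Set W) : Sub p W) : Set W) ⊆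
      Set.image2 (· + ·) ((span (ZMod p) (F : Set W) : Sub p W) : Set W)
        ((S - S : Finset W) : Set W) := by
    intro x hx
    obtain ⟨u, hu, c, hc, d, hd, e⟩ := k x hx 0 ⟨0, zero_mem _, a, ha, a, ha, by simp⟩
    exact ⟨u, hu, c - d, Finset.mem_coe.2 (Finset.sub_mem_sub hc hd), by rw [← zero_add x, e]⟩
  refine (Set.ncard_le_ncard sub (Set.toFinite _)).trans
    ((D4x.im2 _ _).trans ?_)
  rw [Set.ncard_coe_finset]
  refine Nat.mul_le_mul ?_ h
  have := nc_eq (span (ZMod p) (F : Set W) : Sub p W)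
  rw [nc] at this
  rw [this]
  exact Nat.pow_le_pow_right (Fact.out : p.Prime).pos ((finrank_span_finset_le_card F).trans hF)

end Pool.Agent.P.MP_f1a348_lc.LS
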