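import Pool.Agent.P.MP_f1a348_lc.LS.Base
import Pool.Agent.P.MP_f1a348_lc.LS.TSTABK
import Pool.Agent.P.MP_f1a348_lc.LS.TD1A
import Pool.Agent.P.MP_f1a348_lc.LS.TD1B
import Pool.Agent.P.MP_f1a348_lc.LS.TD2
import Pool.Agent.P.MP_f1a348_lc.LS.TD3A
import Pool.Agent.P.MP_f1a348_lc.LS.TD3B
import Pool.Agent.P.MP_f1a348_lc.LS.TD4
import Pool.Agent.P.MP_f1a348_lc.LS.TSPAN

/-! Step DENS. -/

set_option autoImplicit false
set_option linter.unusedSectionVars false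

namespace Pool.Agent.P.MP_f1a348_lc.LS

open Module Submodule

variable {p : ℕ} [Fact p.Prime] {W : Type} [AddCommGroup W] [Module (ZMod p) W] [Fintype W]
  {Γ : Sys p W} {ι : Type} [Fintype ι] {P P' P'' R R' b : List (Pm p W)} {φ ψ : Iso p W}
  {A B B' D T U U' V : Sub p W} {S X Y : Set W} {a a' c v w x x' y y' z μ : W} {n m r : ℕ}
  {s t : ι} {l l' : List W}

-- `stab_kap` with `Φ = 0`, `H n = n + K * (n + 1) + 6`; `U = span (cls P a)`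
theorem dens (K ρ : ℕ) : ∃ j : ℕ, ∀ (p : ℕ) [Fact p.Prime] (W : Type) [AddCommGroup W]
    [Module (ZMod p) W] [Fintype W] (Γ : Sys p W) (ι : Type) [Fintype ι] (G : Geo Γ ι) (s : ι),
    G.K = K → Fintype.card ι ≤ ρ → j ≤ G.j → ∃ (P : List (Pm p W)) (U : Sub p W), Γ.Ok G.j P ∧
      Γ.Inv P U ∧ G.lo s ≤ U ∧ U ≤ G.hi s ∧ ¬ U ≤ G.Lam s P ∧
      nc U ≤ p ^ (G.Q ^ 24) * (G.Q ^ 6 * G.N s) := by
  obtain ⟨J, hJ⟩ := stab_kap (fun n => n + K * (n + 1) + 6)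
    (fun x y h => by have := Nat.mul_le_mul_left K (Nat.add_le_add_right h 1); dsimp only; omega)
    (fun n => by omega) K ρ 0 0
  refine ⟨J + ρ * K * J + 1, fun p _ W _ _ _ Γ ι _ G s hK hρ hj => ?_⟩
  obtain ⟨b, hb, -, hH, hS, -⟩ := hJ p W Γ ι G (fun _ => 0) hK hρ hj (fun _ _ _ _ _ => le_rfl)
    (fun _ _ => le_rfl) [] (Γ.ok_nil 0)
  subst hK
  have hM := G.hM
  obtain ⟨a, l, hl, ht, hi, ha, hl'⟩ := G.d1a hb (by omega) s
  obtain ⟨z, c, hz, ht', hi', hc, hc1, hc2⟩ := G.d1b hb (by omega) ht hi ha hl'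
  obtain ⟨b₁, α, hb₁, hα, h1, h2, h3⟩ := G.d2 hS (by omega) hb (by omega)
    (List.ne_nil_of_length_pos (by omega)) ht' hi' hc1 hc2
  obtain ⟨h4, h5⟩ := G.d3a hb₁ (by omega) hc hα h2 h3
  have hP := hb₁.cons (G.dlo s) (c - α)
  have hP' := hP.1
  have hm := Γ.self_mem_cls ((G.lo s, c - α) :: b₁) (G.lo s) α
  refine ⟨_, span (ZMod p) (Γ.cls ((G.lo s, c - α) :: b₁) (G.lo s) α), hP.mono (by omega),
    (Sys.cls_inv hP (G.dlo s) (by omega) α).span (by omega), fun y hy => ?_,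
    span_le.2 (G.cls_hi _ hα), fun h => h1 (h (subset_span hm)), ?_⟩
  · rw [← sub_sub_cancel α y]
    exact sub_mem (subset_span hm) (subset_span (Sys.cls_add hm (by simpa using hy)))
  · refine (freiman ⟨α, hm⟩ (G.d3b hP (by omega) hα h1 h4 h5)).trans ?_
    rw [← pow_mul]
    exact Nat.mul_le_mul_left _ (Nat.mul_le_mul_left _ h4)

end Pool.Agent.P.MP_f1a348_lc.LS
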