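import Pool.Agent.P.MP_f1a348_lc.LS.Base
import Pool.Agent.P.MP_f1a348_lc.LS.TDENS

/-! Step HT. -/

set_option autoImplicit false
set_option linter.unusedSectionVars false

namespace Pool.Agent.P.MP_f1a348_lc.LS

open Module Submodule

variable {p : ℕ} [Fact p.Prime] {W : Type} [AddCommGroup W] [Module (ZMod p) W] [Fintype W]
  {Γ : Sys p W} {ι : Type} [Fintype ι] {P P' P'' R R' b : List (Pm p W)} {φ ψ : Iso p W}
  {A B B' D T U U' V : Sub p W} {S X Y : Set W} {a a' c v w x x' y y' z μ : W} {n m r : ℕ}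
  {s t : ι} {l l' : List W}

theorem Sat.mono {K j j' h : ℕ} (H : Sat Γ K j B A D T h) (hj : j' ≤ j) : Sat Γ K j' B A D T h :=
  ⟨H.dD, H.dT, H.AT, H.DT, H.DA, hj.trans H.hh, H.min, fun P hP => H.sat P (hP.mono hj)⟩

-- the geometry with one sort `(D, T)`, `cand = cls [] D v`, `C = 1`, `Lam` chosen from `sat`, `j₁` from `dens K 1`;
-- `N ≥ p ^ h * nc D` by `sat []`; `j = 64 * (K * j₁ + 1) + 8 * j₁ + 9`
theorem height (p : ℕ) [Fact p.Prime] (K : ℕ) : ∃ j c : ℕ, 1 ≤ c ∧ ∀ (W : Type) [AddCommGroup W]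
    [Module (ZMod p) W] [Fintype W] (Γ : Sys p W) (B A D T : Sub p W) (h : ℕ), j ≤ Γ.M →
    Sat Γ K j B A D T h → finrank (ZMod p) A ≤ finrank (ZMod p) B + h + c := by
  obtain ⟨j₁, hd⟩ := dens K 1
  refine ⟨64 * (K * j₁ + 1) + 8 * j₁ + 9,
    K * j₁ + (p ^ (K * j₁ + 1)) ^ 24 + (K * j₁ + 1) * 6 + 1, by omega, ?_⟩
  intro W _ _ _ Γ B A D T h hM H
  have p1 : 1 < p := (Fact.out : p.Prime).one_lt
  obtain ⟨v, v1, v2, v3⟩ := H.min
  have hh := H.hh
  have v4 : p ^ h * nc D ≤ (Γ.cls [] D v).ncard := by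
    obtain ⟨Λ, a1, -, -, a2, a3, -⟩ := H.sat [] (Γ.ok_nil _)
    have e : D = Λ := Submodule.eq_of_le_of_finrank_le a1 (by simpa using a2)
    simpa using a3 v v1 (e ▸ v2)
  have ex : ∀ P : List (Pm p W), ∃ Λ : Sub p W, Γ.Ok j₁ P → D ≤ Λ ∧ Λ ≤ T ∧ Γ.Inv P Λ ∧
      finrank (ZMod p) Λ ≤ finrank (ZMod p) D + K * P.length ∧
      (∀ x ∈ T, x ∉ Λ → p ^ h * nc D ≤ p ^ (K * P.length) * (Γ.cls P D x).ncard) ∧
      ∀ U : Sub p W, Γ.Inv P U → D ≤ U → U ≤ T → ¬ U ≤ Λ →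
        finrank (ZMod p) D + finrank (ZMod p) A ≤
          finrank (ZMod p) U + finrank (ZMod p) B + K * P.length := fun P => by
    by_cases hP : Γ.Ok j₁ P
    · exact (H.sat P (hP.mono (by omega))).imp fun _ e _ => e
    · exact ⟨D, fun e => absurd e hP⟩
  choose Λ hΛ using ex
  let G : Geo Γ Unit :=
    { lo := fun _ => D
      hi := fun _ => T
      cand := fun _ => Γ.cls [] D v
      N := fun _ => (Γ.cls [] D v).ncard
      K := K
      C := 1
      j := j₁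
      Lam := fun _ => Λ
      hC := le_rfl
      hM := by omega
      dlo := fun _ => H.dD
      dhi := fun _ => H.dT
      cand_hi := fun _ => Sys.cls_sub H.dT H.DT v1
      cand_cls := fun _ _ hx => (Sys.cls_eq (Γ.ok_nil 0) H.dD (by omega) hx).le
      cand_card := fun _ => rfl
      lo_le := fun _ P hP => (hΛ P hP).1
      le_hi := fun _ P hP => (hΛ P hP).2.1
      inv := fun _ P hP => (hΛ P hP).2.2.1
      dim := fun _ P hP => (hΛ P hP).2.2.2.1
      big := fun _ P hP x hx hx' => by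
        refine v3.trans ?_
        rw [pow_succ', pow_succ', mul_assoc, mul_assoc]
        exact Nat.mul_le_mul_left _ ((hΛ P hP).2.2.2.2.1 x hx hx')
      gap := fun _ => by
        refine lt_of_lt_of_le ?_ v4
        rw [← pow_mul]
        exact Nat.mul_lt_mul_of_pos_right (Nat.pow_lt_pow_right p1 (by omega)) (nc_pos D) }
  obtain ⟨P, U, b1, b2, b3, b4, b5, b6⟩ := hd p W Γ Unit G () rfl (by simp) le_rfl
  have c1 := (hΛ P b1).2.2.2.2.2 U b2 b3 b4 b5
  have c2 : nc U ≤ p ^ ((p ^ (K * j₁ + 1)) ^ 24) *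
      ((p ^ (K * j₁ + 1)) ^ 6 * (p ^ (h + 1) * nc D)) :=
    b6.trans (Nat.mul_le_mul_left _ (Nat.mul_le_mul_left _ v3))
  rw [nc_eq, nc_eq, ← pow_mul p _ 6, ← pow_add, ← pow_add, ← pow_add,
    Nat.pow_le_pow_iff_right p1] at c2
  have c3 : K * P.length ≤ K * j₁ := Nat.mul_le_mul_left _ b1.1
  omega

end Pool.Agent.P.MP_f1a348_lc.LS
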