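import Pool.Agent.P.MP_f1a348_lc.LS.Base
import Pool.Agent.P.MP_f1a348_lc.LS.THT
import Pool.Agent.P.MP_f1a348_lc.LS.TDEN
import Pool.Agent.P.MP_f1a348_lc.LS.TCONV

/-! Step CORE. -/

set_option autoImplicit false
set_option linter.unusedSectionVars false

namespace Pool.Agent.P.MP_f1a348_lc.LS

open Module Submodule

variable {p : ℕ} [Fact p.Prime] {W : Type} [AddCommGroup W] [Module (ZMod p) W] [Fintype W]
  {Γ : Sys p W} {ι : Type} [Fintype ι] {P P' P'' R R' b : List (Pm p W)} {φ ψ : Iso p W}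
  {A B B' D T U U' V : Sub p W} {S X Y : Set W} {a a' c v w x x' y y' z μ : W} {n m r : ℕ}
  {s t : ι} {l l' : List W}

namespace COREx

theorem prime_core (hB : BR) (p : ℕ) [Fact p.Prime] (K ρ : ℕ) : ∃ j₂ : ℕ, ∀ j, j₂ ≤ j →
    ∀ (W : Type) [AddCommGroup W]
    [Module (ZMod p) W] [Fintype W] (Γ : Sys p W) (C : Finset (Sub p W)) (g : ℕ)
    (D T : Sub p W → Sub p W) (h : Sub p W → ℕ), j ≤ Γ.M → j ≤ g → Chain Γ C →
    (∃ B A, Giant g C B A) → {B | ∃ A, Giant g C B A}.ncard ≤ ρ →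
    (∀ B A, Layer C B A → Giant g C B A ∨
      (Γ.Pinned B A ∧ finrank (ZMod p) A ≤ finrank (ZMod p) B + 1)) →
    (∀ B A, Giant g C B A → Sat Γ K j B A (D B) (T B) (h B)) →
    ∃ B A, Giant g C B A ∧ ∃ v ∈ T B, v ∉ D B ∧ ∀ v' ∈ Γ.cls [] (D B) v,
      (Γ.cls [] (D B) v).ncard ≤ p ^ j * (Γ.Nb j (D B) v').ncard := by
  obtain ⟨j₀, c, hc, Hh⟩ := height p K
  obtain ⟨j₁, HB⟩ := hB p K c ρ
  refine ⟨j₀ + (8 * j₁ + 8) + (64 * (K * j₁ + c) + 1), ?_⟩
  intro j hj W _ _ _ Γ C g D T h hM hg hC hex hρ hp hs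
  obtain ⟨G, hK, hC', hj', hG⟩ := exists_den (j := j₁) (c₀ := c) hC (by omega) hc (by omega) hp
    (fun B A hG => (hs B A hG).mono (by omega)) fun B A hG =>
      Hh W Γ B A (D B) (T B) (h B) (by omega) ((hs B A hG).mono (by omega))
  have : Finite (Sub p W) := Finite.of_injective _ SetLike.coe_injective
  let _ : Fintype {B // ∃ A, Giant g C B A} := Fintype.ofFinite _
  have : Nonempty {B // ∃ A, Giant g C B A} := hex.elim fun B e => ⟨⟨B, e⟩⟩
  obtain ⟨s, v, hv, hv', H⟩ := HB W Γ _ G hK hC' hj' (by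
    rw [← Nat.card_eq_fintype_card]
    exact (Nat.card_coe_set_eq {B | ∃ A, Giant g C B A}).trans_le hρ)
  have S := hs _ _ (hG s)
  refine ⟨G.lo s, G.hi s, hG s, v, S.AT hv, fun hD => hv' (S.DA.le ⟨hD, hv⟩), fun v' hw => ?_⟩
  refine (Sys.conv (j := j) (G.dhi s) S.dD S.DA hv (by omega) H v' hw).trans
    (Nat.mul_le_mul_right _ ?_)
  rw [Geo.Q, hK, hC', hj']
  exact Nat.pow_le_pow_right (Fact.out : p.Prime).pos (by omega)

end COREx

-- for each prime: `height`, then `BR` with `C = c`, `exists_den`, `conv`; then the largest `j` over the primes `p ≤ p₀`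
theorem core_of (h : BR) : CORE := by
  intro p₀ K ρ
  choose f hf using fun (p : ℕ) (hp : p.Prime) => @COREx.prime_core h p ⟨hp⟩ K ρ
  refine ⟨(Finset.range (p₀ + 1)).sup fun p => if hp : p.Prime then f p hp else 0, ?_⟩
  intro p hp hle
  refine hf p hp.out _ (le_trans ?_ (Finset.le_sup (Finset.mem_range.2 (Nat.lt_succ_of_le hle))))
  rw [dif_pos hp.out]

end Pool.Agent.P.MP_f1a348_lc.LS
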